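import Pool.Agent.Work.MP_7f974f_gt.Core

/-!
# Differential forms and signature, the form used in the proofs; first form of the statement
-/

open scoped Manifold ContDiff Topology
open MeasureTheory Set

noncomputable section

namespace NRF

variable (X : Type) [TopologicalSpace X] [ChartedSpace E4 X]

variable {X}

variable [MeasurableSpace X] [BorelSpace X]

/-! ## Differential forms, Euler characteristic, signature -/

variable (X) in
/-- Smooth differential `k`-forms on `X` (coefficients in all the charts of the atlas; the value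
outside of the target of a chart is zero by convention). -/
def Forms (k : ℕ) : Submodule ℝ (Ch X → E4 → E4 [⋀^Fin k]→L[ℝ] ℝ) where
  carrier := {w | (∀ e : Ch X, ContDiffOn ℝ ∞ (w e) e.1.target) ∧
    (∀ e : Ch X, ∀ y ∉ e.1.target, w e y = 0) ∧
    ∀ e e' : Ch X, ∀ y ∈ (e.1.symm.trans e'.1).source,
      w e y = (w e' ((e.1.symm.trans e'.1) y)).compContinuousLinearMap
        (fderiv ℝ (e.1.symm.trans e'.1) y)}
  add_mem' := by
    rintro a b ⟨ha1, ha2, ha3⟩ ⟨hb1, hb2, hb3⟩
    refine ⟨fun e => (ha1 e).add (hb1 e), fun e y hy => ?_, fun e e' y hy => ?_⟩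
    · simp [ha2 e y hy, hb2 e y hy]
    · simp only [Pi.add_apply]
      rw [ha3 e e' y hy, hb3 e e' y hy]
      rfl
  zero_mem' := by
    refine ⟨fun e => contDiffOn_const, fun e y hy => rfl, fun e e' y hy => ?_⟩
    ext v
    simp
  smul_mem' := by
    rintro c a ⟨ha1, ha2, ha3⟩
    refine ⟨fun e => (ha1 e).const_smul c, fun e y hy => ?_, fun e e' y hy => ?_⟩
    · simp [ha2 e y hy]
    · simp only [Pi.smul_apply]
      rw [ha3 e e' y hy]
      rfl

variable (X) in
/-- Closed `k`-forms. -/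
def Closed (k : ℕ) : Submodule ℝ (Ch X → E4 → E4 [⋀^Fin k]→L[ℝ] ℝ) where
  carrier := {w | w ∈ Forms X k ∧ ∀ e : Ch X, ∀ y ∈ e.1.target, extDeriv (w e) y = 0}
  add_mem' := by
    rintro a b ⟨ha, ha'⟩ ⟨hb, hb'⟩
    refine ⟨add_mem ha hb, fun e y hy => ?_⟩
    have hda : DifferentiableAt ℝ (a e) y :=
      ((ha.1 e).differentiableOn (by simp)).differentiableAt (e.1.open_target.mem_nhds hy)
    have hdb : DifferentiableAt ℝ (b e) y :=
      ((hb.1 e).differentiableOn (by simp)).differentiableAt (e.1.open_target.mem_nhds hy)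
    have := extDeriv_add hda hdb
    simp only [Pi.add_apply]
    rw [this, ha' e y hy, hb' e y hy, add_zero]
  zero_mem' := by
    refine ⟨zero_mem _, fun e y hy => ?_⟩
    have : (0 : Ch X → E4 → E4 [⋀^Fin k]→L[ℝ] ℝ) e = (0 : ℝ) • fun _ => 0 := by
      ext; simp
    rw [this, extDeriv_smul, zero_smul]
  smul_mem' := by
    rintro c a ⟨ha, ha'⟩
    refine ⟨Submodule.smul_mem _ c ha, fun e y hy => ?_⟩
    simp only [Pi.smul_apply]
    rw [extDeriv_smul, ha' e y hy, smul_zero]

variable (X) in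
/-- Exact `k`-forms. -/
def Exact : (k : ℕ) → Submodule ℝ (Ch X → E4 → E4 [⋀^Fin k]→L[ℝ] ℝ)
  | 0 => ⊥
  | k + 1 => Submodule.span ℝ {w | w ∈ Forms X (k + 1) ∧
      ∃ v ∈ Forms X k, ∀ e : Ch X, ∀ y ∈ e.1.target, w e y = extDeriv (v e) y}

variable (X) in
/-- Betti numbers, by de Rham cohomology: the dimension of the image of the space of closed forms in
the quotient by the space of exact forms. -/
def betti (k : ℕ) : ℕ :=
  Module.finrank ℝ ((Closed X k).map (Exact X k).mkQ)

variable (X) in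
/-- The Euler characteristic. -/
def eulerChar : ℤ := ∑ k ∈ Finset.range 5, (-1) ^ k * (betti X k : ℤ)

/-- The coefficient of the 4-form `a ∧ b` on the standard basis, for 2-forms `a`, `b` on `ℝ⁴`. -/
def wedge22 (a b : E4 [⋀^Fin 2]→L[ℝ] ℝ) : ℝ :=
  a ![bv 0, bv 1] * b ![bv 2, bv 3] - a ![bv 0, bv 2] * b ![bv 1, bv 3]
    + a ![bv 0, bv 3] * b ![bv 1, bv 2] + a ![bv 1, bv 2] * b ![bv 0, bv 3]
    - a ![bv 1, bv 3] * b ![bv 0, bv 2] + a ![bv 2, bv 3] * b ![bv 0, bv 1]

/-- The quadratic form `∫ α ∧ α` on 2-forms. -/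
def interForm (w : Ch X → E4 → E4 [⋀^Fin 2]→L[ℝ] ℝ) : ℝ :=
  integralTop (fun e y => wedge22 (w e y) (w e y))

variable (X) in
/-- `b⁺`: the maximal dimension of a space of closed 2-forms on which `∫ α ∧ α` is positive
definite. -/
def bPlus : ℕ := sSup {d : ℕ | ∃ W : Submodule ℝ (Ch X → E4 → E4 [⋀^Fin 2]→L[ℝ] ℝ),
  W ≤ Closed X 2 ∧ FiniteDimensional ℝ W ∧ Module.finrank ℝ W = d ∧
    ∀ w ∈ W, w ≠ 0 → 0 < interForm w}

variable (X) in
/-- `b⁻`: the same for negative definite. -/
def bMinus : ℕ := sSup {d : ℕ | ∃ W : Submodule ℝ (Ch X → E4 → E4 [⋀^Fin 2]→L[ℝ] ℝ),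
  W ≤ Closed X 2 ∧ FiniteDimensional ℝ W ∧ Module.finrank ℝ W = d ∧
    ∀ w ∈ W, w ≠ 0 → interForm w < 0}

variable (X) in
/-- The signature of the oriented manifold `X`. -/
def signature : ℤ := (bPlus X : ℤ) - (bMinus X : ℤ)

/-! ## The statement -/

/-- **Q1**: the Gromov-Hitchin-Thorpe inequality for closed oriented 4-manifolds with
`λ-bar < 0` which carry a quasi-non-singular solution of the normalised Ricci flow. -/
def Target : Prop :=
  ∀ (X : Type) [TopologicalSpace X] [T2Space X] [CompactSpace X] [ConnectedSpace X]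
    [ChartedSpace E4 X] [IsManifold (𝓡 4) ∞ X] [MeasurableSpace X] [BorelSpace X],
    OrientedAtlas X → simplicialVolume X ≠ 0 → lamBar X < 0 →
    (∃ g : ℝ → Metric X, IsQuasiNonSingular g) →
    (1 / (1295 * Real.pi ^ 2)) * simplicialVolume X ≤
      2 * (eulerChar X : ℝ) - 3 * |(signature X : ℝ)|

end NRF
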