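import Pool.Agent.Work.MP_7f974f_gt.FDefs
import Pool.Agent.Work.MP_7f974f_gt.Defs

/-!
# The definitions of `FDefs.lean` agree with those of `Defs.lean`
-/

open scoped Manifold ContDiff Topology
open MeasureTheory Set

noncomputable section

namespace NRF

variable (X : Type) [TopologicalSpace X] [ChartedSpace E4 X]

theorem isForm_iff (k : ℕ) (w : Coef X k) : IsForm X k w ↔ w ∈ Forms X k :=
  ⟨fun h => ⟨h.smooth, h.zero_out, h.transf⟩, fun h => ⟨h.1, h.2.1, h.2.2⟩⟩

theorem closedF_eq (k : ℕ) : ClosedF X k = Closed X k := by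
  apply le_antisymm
  · refine Submodule.span_le.2 ?_
    rintro w ⟨hw, h⟩
    exact ⟨(isForm_iff X k w).1 hw, h⟩
  · intro w hw
    exact Submodule.subset_span ⟨(isForm_iff X k w).2 hw.1, hw.2⟩

theorem exactF_eq (k : ℕ) : ExactF X k = Exact X k := by
  cases k with
  | zero => rfl
  | succ k =>
    have h : {w : Coef X (k + 1) | IsForm X (k + 1) w ∧ ∃ v : Coef X k, IsForm X k v ∧
        ∀ (e : Ch X) (y : E4), y ∈ tgt e → w e y = extD (v e) y} =
        {w | w ∈ Forms X (k + 1) ∧
          ∃ v ∈ Forms X k, ∀ e : Ch X, ∀ y ∈ e.1.target, w e y = extDeriv (v e) y} := by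
      ext w
      constructor
      · rintro ⟨hw, v, hv, h⟩
        exact ⟨(isForm_iff X _ w).1 hw, v, (isForm_iff X _ v).1 hv, h⟩
      · rintro ⟨hw, v, hv, h⟩
        exact ⟨(isForm_iff X _ w).2 hw, v, (isForm_iff X _ v).2 hv, h⟩
    show Submodule.span ℝ _ = Submodule.span ℝ _
    rw [h]

theorem bettiN_eq (k : ℕ) : bettiN X k = betti X k := by
  unfold bettiN betti
  rw [closedF_eq, exactF_eq]
  rfl

theorem eulerC_eq : eulerC X = eulerChar X := by
  unfold eulerC eulerChar
  simp only [bettiN_eq]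

variable [MeasurableSpace X]

theorem interQ_eq (w : Coef X 2) : interQ w = interForm w := rfl

theorem bP_eq : bP X = bPlus X := by
  unfold bP bPlus
  rw [closedF_eq]
  rfl

theorem bM_eq : bM X = bMinus X := by
  unfold bM bMinus
  rw [closedF_eq]
  rfl

theorem signat_eq : signat X = signature X := by
  unfold signat signature
  rw [bP_eq, bM_eq]

end NRF
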