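import Pool.Agent.Work.MP_7f974f_gt.DA

/-!
# Module A, bridge: the ring of smooth functions on an open set, with its derivations
-/

open scoped ContDiff Topology
open Set

noncomputable section

namespace NRF

section SFsec

variable {W : Type} [NormedAddCommGroup W] [NormedSpace ℝ W]

/-- Extension by zero. -/
def ext0 (U : Set W) (f : U → ℝ) (x : W) : ℝ := by
  classical exact if h : x ∈ U then f ⟨x, h⟩ else 0

omit [NormedAddCommGroup W] [NormedSpace ℝ W] in
theorem ext0_mem {U : Set W} (f : U → ℝ) {x : W} (hx : x ∈ U) : ext0 U f x = f ⟨x, hx⟩ := by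
  simp [ext0, hx]

omit [NormedAddCommGroup W] [NormedSpace ℝ W] in
theorem ext0_coe {U : Set W} (f : U → ℝ) (x : U) : ext0 U f x = f x := by
  simp [ext0]

omit [NormedAddCommGroup W] [NormedSpace ℝ W] in
theorem ext0_add {U : Set W} (f g : U → ℝ) : ext0 U (f + g) = ext0 U f + ext0 U g := by
  ext x; by_cases hx : x ∈ U <;> simp [ext0, hx]

omit [NormedAddCommGroup W] [NormedSpace ℝ W] in
theorem ext0_mul {U : Set W} (f g : U → ℝ) : ext0 U (f * g) = ext0 U f * ext0 U g := by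
  ext x; by_cases hx : x ∈ U <;> simp [ext0, hx]

omit [NormedAddCommGroup W] [NormedSpace ℝ W] in
theorem ext0_smul {U : Set W} (c : ℝ) (f : U → ℝ) : ext0 U (c • f) = c • ext0 U f := by
  ext x; by_cases hx : x ∈ U <;> simp [ext0, hx]

/-- Smooth functions on the subset `U`. -/
def SF (U : Set W) : Subalgebra ℝ (U → ℝ) where
  carrier := {f | ContDiffOn ℝ ∞ (ext0 U f) U}
  mul_mem' := by
    intro a b ha hb
    simp only [mem_ofPred_eq, ext0_mul] at *
    exact ha.mul hb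
  add_mem' := by
    intro a b ha hb
    simp only [mem_ofPred_eq, ext0_add] at *
    exact ha.add hb
  algebraMap_mem' := by
    intro r
    simp only [mem_ofPred_eq]
    refine (contDiffOn_const (c := r)).congr fun x hx => ?_
    rw [ext0_mem _ hx]
    rfl

/-- The element of the ring given by a function smooth on `U`. -/
def SF.mk' {U : Set W} (f : W → ℝ) (hf : ContDiffOn ℝ ∞ f U) : SF U :=
  ⟨fun x => f x, by
    change ContDiffOn ℝ ∞ (ext0 U fun x => f x) U
    exact hf.congr fun x hx => ext0_mem _ hx⟩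

@[simp] theorem SF.mk'_apply {U : Set W} (f : W → ℝ) (hf : ContDiffOn ℝ ∞ f U) (x : U) :
    (SF.mk' f hf).1 x = f x := rfl

theorem SF.ext_val {U : Set W} {f g : SF U} (h : ∀ x : U, f.1 x = g.1 x) : f = g :=
  Subtype.ext (funext h)

theorem SF.contDiffOn {U : Set W} (f : SF U) : ContDiffOn ℝ ∞ (ext0 U f.1) U := f.2

theorem SF.diffAt {U : Set W} (hU : IsOpen U) (f : SF U) {x : W} (hx : x ∈ U) :
    DifferentiableAt ℝ (ext0 U f.1) x :=
  (f.2.differentiableOn (by simp)).differentiableAt (hU.mem_nhds hx)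

theorem SF.smooth_fderiv {U : Set W} (hU : IsOpen U) {f : W → ℝ} (hf : ContDiffOn ℝ ∞ f U) (v : W) :
    ContDiffOn ℝ ∞ (fun x => fderiv ℝ f x v) U :=
  (hf.fderiv_of_isOpen hU (by simp)).clm_apply contDiffOn_const

/-- Directional derivative as a derivation of the ring of smooth functions on an open set. -/
def dirD {U : Set W} (hU : IsOpen U) (v : W) : Derivation ℝ (SF U) (SF U) :=
  Derivation.mk'
    { toFun := fun f => SF.mk' (fun x => fderiv ℝ (ext0 U f.1) x v) (SF.smooth_fderiv hU f.2 v)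
      map_add' := by
        intro f g
        refine SF.ext_val fun x => ?_
        have h1 := SF.diffAt hU f x.2
        have h2 := SF.diffAt hU g x.2
        simp only [Subalgebra.coe_add, SF.mk'_apply, ext0_add, Pi.add_apply]
        rw [fderiv_add h1 h2]
        rfl
      map_smul' := by
        intro c f
        refine SF.ext_val fun x => ?_
        have h1 := SF.diffAt hU f x.2
        simp only [Subalgebra.coe_smul, SF.mk'_apply, ext0_smul, Pi.smul_apply, RingHom.id_apply]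
        rw [fderiv_const_smul h1]
        rfl }
    (by
      intro f g
      refine SF.ext_val fun x => ?_
      have h1 := SF.diffAt hU f x.2
      have h2 := SF.diffAt hU g x.2
      simp only [LinearMap.coe_mk, AddHom.coe_mk, SF.mk'_apply, smul_eq_mul,
        Subalgebra.coe_add, Subalgebra.coe_mul, Pi.add_apply, Pi.mul_apply, ext0_mul]
      rw [fderiv_mul h1 h2]
      simp only [add_apply, smul_apply, smul_eq_mul,
        ext0_coe])

theorem dirD_apply {U : Set W} (hU : IsOpen U) (v : W) (f : SF U) (x : U) :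
    (dirD hU v f).1 x = fderiv ℝ (ext0 U f.1) x v := rfl

/-- Near a point of `U` the extension of a restriction is the function itself. -/
theorem ext0_mk'_eventuallyEq {U : Set W} (hU : IsOpen U) (f : W → ℝ) (hf : ContDiffOn ℝ ∞ f U)
    {x : W} (hx : x ∈ U) : ext0 U (SF.mk' f hf).1 =ᶠ[𝓝 x] f := by
  filter_upwards [hU.mem_nhds hx] with z hz
  rw [ext0_mem _ hz]
  rfl

theorem dirD_mk' {U : Set W} (hU : IsOpen U) (v : W) (f : W → ℝ) (hf : ContDiffOn ℝ ∞ f U) :
    dirD hU v (SF.mk' f hf) = SF.mk' (fun x => fderiv ℝ f x v) (SF.smooth_fderiv hU hf v) := by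
  refine SF.ext_val fun x => ?_
  rw [dirD_apply, SF.mk'_apply, (ext0_mk'_eventuallyEq hU f hf x.2).fderiv_eq]

theorem SF.eq_mk' {U : Set W} (f : SF U) : f = SF.mk' (ext0 U f.1) f.2 :=
  SF.ext_val fun x => (ext0_coe _ x).symm

theorem fderiv_fderiv_apply {U : Set W} (hU : IsOpen U) {f : W → ℝ} (hf : ContDiffOn ℝ ∞ f U)
    {x : W} (hx : x ∈ U) (v w : W) :
    fderiv ℝ (fun z => fderiv ℝ f z v) x w = fderiv ℝ (fderiv ℝ f) x w v := by
  have hd : DifferentiableAt ℝ (fderiv ℝ f) x :=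
    ((hf.fderiv_of_isOpen hU (m := ∞) (by simp)).differentiableOn
      (by simp)).differentiableAt (hU.mem_nhds hx)
  have := (hd.hasFDerivAt.clm_apply (hasFDerivAt_const v x)).fderiv
  rw [this]
  simp

theorem dirD_comm {U : Set W} (hU : IsOpen U) (v w : W) (f : SF U) :
    dirD hU v (dirD hU w f) = dirD hU w (dirD hU v f) := by
  rw [SF.eq_mk' f, dirD_mk', dirD_mk', dirD_mk', dirD_mk']
  refine SF.ext_val fun x => ?_
  rw [SF.mk'_apply, SF.mk'_apply, fderiv_fderiv_apply hU f.2 x.2, fderiv_fderiv_apply hU f.2 x.2]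
  have h2 : ContDiffAt ℝ ∞ (ext0 U f.1) x := f.2.contDiffAt (hU.mem_nhds x.2)
  exact (h2.isSymmSndFDerivAt (by
    simp only [minSmoothness_of_isRCLikeNormedField]
    exact ENat.LEInfty.out)) v w

/-- Evaluation at a point. -/
def SF.ev {U : Set W} (x : U) : SF U →ₐ[ℝ] ℝ := (Pi.evalAlgHom ℝ (fun _ : U => ℝ) x).comp (SF U).val

theorem SF.ev_apply {U : Set W} (x : U) (f : SF U) : SF.ev x f = f.1 x := rfl

end SFsec

/-! ## Time dependent metrics -/

/-- A smooth time dependent metric on an open subset of space time. -/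
structure SmoothMet (Ω : Set (ℝ × E4)) (G : ℝ → E4 → Matrix (Fin 4) (Fin 4) ℝ) : Prop where
  isOpen : IsOpen Ω
  smooth : ∀ i j, ContDiffOn ℝ ∞ (fun p : ℝ × E4 => G p.1 p.2 i j) Ω
  posDef : ∀ p ∈ Ω, (G p.1 p.2).PosDef

/-- Direction of the i-th space coordinate in space time. -/
def sv (i : Fin 4) : ℝ × E4 := (0, bv i)

/-- Direction of time. -/
def tv : ℝ × E4 := (1, 0)

theorem SmoothMet.det_pos {Ω : Set (ℝ × E4)} {G : ℝ → E4 → Matrix (Fin 4) (Fin 4) ℝ}
    (h : SmoothMet Ω G) {p : ℝ × E4} (hp : p ∈ Ω) : 0 < (G p.1 p.2).det := (h.posDef p hp).det_pos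

theorem SmoothMet.smooth_inv {Ω : Set (ℝ × E4)} {G : ℝ → E4 → Matrix (Fin 4) (Fin 4) ℝ}
    (h : SmoothMet Ω G) (i j : Fin 4) :
    ContDiffOn ℝ ∞ (fun p : ℝ × E4 => (G p.1 p.2)⁻¹ i j) Ω := by
  have hdet : ContDiffOn ℝ ∞ (fun p : ℝ × E4 => (G p.1 p.2).det) Ω := by
    simp only [Matrix.det_apply]
    refine ContDiffOn.sum fun σ _ => ?_
    refine ContDiffOn.const_smul _ (contDiffOn_prod fun k _ => h.smooth _ _)
  have hadj : ContDiffOn ℝ ∞ (fun p : ℝ × E4 => (G p.1 p.2).adjugate i j) Ω := by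
    simp only [Matrix.adjugate_apply, Matrix.det_apply]
    refine ContDiffOn.sum fun σ _ => ?_
    refine ContDiffOn.const_smul _ (contDiffOn_prod fun k _ => ?_)
    by_cases hk : σ k = j
    · simp only [Matrix.updateRow_apply, hk, if_true]
      exact contDiffOn_const
    · simp only [Matrix.updateRow_apply, hk, if_false]
      exact h.smooth _ _
  have : ∀ p ∈ Ω, (G p.1 p.2)⁻¹ i j = ((G p.1 p.2).det)⁻¹ * (G p.1 p.2).adjugate i j := by
    intro p _
    rw [Matrix.inv_def, Ring.inverse_eq_inv']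
    rfl
  refine ContDiffOn.congr ?_ this
  exact (hdet.inv fun p hp => (h.det_pos hp).ne').mul hadj

/-- The differential algebra of a smooth time dependent metric. -/
def SmoothMet.geo {Ω : Set (ℝ × E4)} {G : ℝ → E4 → Matrix (Fin 4) (Fin 4) ℝ}
    (h : SmoothMet Ω G) : Geo (Fin 4) (SF Ω) where
  D := fun i => dirD h.isOpen (sv i)
  comm := fun i j a => dirD_comm _ _ _ a
  g := Matrix.of fun i j => SF.mk' _ (h.smooth i j)
  h := Matrix.of fun i j => SF.mk' _ (h.smooth_inv i j)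
  symm := by
    intro i j
    refine SF.ext_val fun p => ?_
    have := (h.posDef p p.2).isHermitian.apply i j
    simp only [Matrix.of_apply, SF.mk'_apply]
    simpa using this.symm
  inv := by
    ext1 i j
    refine SF.ext_val fun p => ?_
    have hd : IsUnit (G p.1.1 p.1.2).det := (h.det_pos p.2).ne'.isUnit
    have := congrFun (congrFun (Matrix.nonsing_inv_mul _ hd) i) j
    rw [Matrix.mul_apply] at this ⊢
    simp only [Matrix.of_apply]
    have e1 : (∑ x, SF.mk' _ (h.smooth_inv i x) * SF.mk' _ (h.smooth x j) : SF Ω).1 p =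
        ∑ x, (G p.1.1 p.1.2)⁻¹ i x * G p.1.1 p.1.2 x j := by
      rw [← SF.ev_apply, map_sum]
      rfl
    rw [e1, this, Matrix.one_apply, Matrix.one_apply]
    split_ifs <;> rfl

/-- Time derivative. -/
def SmoothMet.T {Ω : Set (ℝ × E4)} {G : ℝ → E4 → Matrix (Fin 4) (Fin 4) ℝ}
    (h : SmoothMet Ω G) : Derivation ℝ (SF Ω) (SF Ω) := dirD h.isOpen tv

theorem SmoothMet.T_comm {Ω : Set (ℝ × E4)} {G : ℝ → E4 → Matrix (Fin 4) (Fin 4) ℝ}
    (h : SmoothMet Ω G) (i : Fin 4) (a : SF Ω) : h.T (h.geo.D i a) = h.geo.D i (h.T a) :=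
  dirD_comm _ _ _ _

/-- Space derivative of a slice. -/
theorem pd_slice {Ω : Set (ℝ × E4)} (hΩ : IsOpen Ω) {f : ℝ × E4 → ℝ} (hf : ContDiffOn ℝ ∞ f Ω)
    {t : ℝ} {y : E4} (hp : (t, y) ∈ Ω) (i : Fin 4) :
    pd i (fun z => f (t, z)) y = fderiv ℝ f (t, y) (sv i) := by
  have hd : DifferentiableAt ℝ f (t, y) :=
    (hf.differentiableOn (by simp)).differentiableAt (hΩ.mem_nhds hp)
  have h1 : HasFDerivAt (fun z : E4 => (t, z)) (ContinuousLinearMap.inr ℝ ℝ E4) y :=
    hasFDerivAt_prodMk_right t y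
  have := (hd.hasFDerivAt.comp y h1).fderiv
  unfold pd
  have e : (fun z => f (t, z)) = f ∘ fun z => (t, z) := rfl
  rw [e, this]
  simp [sv]

/-- Time derivative of a slice. -/
theorem hasDerivAt_slice {Ω : Set (ℝ × E4)} (hΩ : IsOpen Ω) {f : ℝ × E4 → ℝ}
    (hf : ContDiffOn ℝ ∞ f Ω) {t : ℝ} {y : E4} (hp : (t, y) ∈ Ω) :
    HasDerivAt (fun s => f (s, y)) (fderiv ℝ f (t, y) tv) t := by
  have hd : DifferentiableAt ℝ f (t, y) :=
    (hf.differentiableOn (by simp)).differentiableAt (hΩ.mem_nhds hp)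
  have h1 : HasFDerivAt (fun s : ℝ => (s, y)) (ContinuousLinearMap.inl ℝ ℝ E4) t :=
    hasFDerivAt_prodMk_left t y
  have h2 := (hd.hasFDerivAt.comp t h1).hasDerivAt
  have e : ((fderiv ℝ f (t, y)).comp (ContinuousLinearMap.inl ℝ ℝ E4)) 1 =
      fderiv ℝ f (t, y) tv := by simp [tv]
  rw [e] at h2
  exact h2

/-- `f : SF Ω` represents the function `F` on `Ω`. -/
def Rep {Ω : Set (ℝ × E4)} (f : SF Ω) (F : ℝ → E4 → ℝ) : Prop :=
  ∀ p : Ω, f.1 p = F p.1.1 p.1.2

theorem Rep.contDiffOn {Ω : Set (ℝ × E4)} {f : SF Ω} {F : ℝ → E4 → ℝ} (h : Rep f F) :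
    ContDiffOn ℝ ∞ (fun p : ℝ × E4 => F p.1 p.2) Ω :=
  f.2.congr fun p hp => by rw [ext0_mem _ hp]; exact (h ⟨p, hp⟩).symm

theorem Rep.mk' {Ω : Set (ℝ × E4)} {F : ℝ → E4 → ℝ}
    (hF : ContDiffOn ℝ ∞ (fun p : ℝ × E4 => F p.1 p.2) Ω) : Rep (SF.mk' _ hF) F := fun _ => rfl

theorem Rep.eq_mk' {Ω : Set (ℝ × E4)} {f : SF Ω} {F : ℝ → E4 → ℝ} (h : Rep f F) :
    f = SF.mk' _ h.contDiffOn := SF.ext_val fun p => h p

theorem Rep.add {Ω : Set (ℝ × E4)} {f g : SF Ω} {F G : ℝ → E4 → ℝ} (h : Rep f F) (h' : Rep g G) :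
    Rep (f + g) (fun t y => F t y + G t y) := fun p => by
  have := h p; have := h' p
  simp_all

theorem Rep.sub {Ω : Set (ℝ × E4)} {f g : SF Ω} {F G : ℝ → E4 → ℝ} (h : Rep f F) (h' : Rep g G) :
    Rep (f - g) (fun t y => F t y - G t y) := fun p => by
  have := h p; have := h' p
  simp_all

theorem Rep.mul {Ω : Set (ℝ × E4)} {f g : SF Ω} {F G : ℝ → E4 → ℝ} (h : Rep f F) (h' : Rep g G) :
    Rep (f * g) (fun t y => F t y * G t y) := fun p => by
  have := h p; have := h' p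
  simp_all

theorem Rep.smul {Ω : Set (ℝ × E4)} {f : SF Ω} {F : ℝ → E4 → ℝ} (c : ℝ) (h : Rep f F) :
    Rep (c • f) (fun t y => c * F t y) := fun p => by
  have := h p
  simp_all

theorem Rep.sum {Ω : Set (ℝ × E4)} {ι : Type} {s : Finset ι} {f : ι → SF Ω}
    {F : ι → ℝ → E4 → ℝ} (h : ∀ i ∈ s, Rep (f i) (F i)) :
    Rep (∑ i ∈ s, f i) (fun t y => ∑ i ∈ s, F i t y) := fun p => by
  rw [← SF.ev_apply, map_sum]
  exact Finset.sum_congr rfl fun i hi => h i hi p

/-- Space derivative. -/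
theorem Rep.D {Ω : Set (ℝ × E4)} {G : ℝ → E4 → Matrix (Fin 4) (Fin 4) ℝ} (hG : SmoothMet Ω G)
    {f : SF Ω} {F : ℝ → E4 → ℝ} (h : Rep f F) (i : Fin 4) :
    Rep (hG.geo.D i f) (fun t y => pd i (F t) y) := fun p => by
  have e : f = SF.mk' _ h.contDiffOn := h.eq_mk'
  have h1 : (hG.geo.D i f).1 p = fderiv ℝ (fun q : ℝ × E4 => F q.1 q.2) p.1 (sv i) := by
    rw [e]
    change (dirD hG.isOpen (sv i) (SF.mk' _ h.contDiffOn)).1 p = _
    rw [dirD_mk']
    rfl
  rw [h1]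
  exact (pd_slice hG.isOpen h.contDiffOn p.2 i).symm

/-- Time derivative. -/
theorem Rep.T {Ω : Set (ℝ × E4)} {G : ℝ → E4 → Matrix (Fin 4) (Fin 4) ℝ} (hG : SmoothMet Ω G)
    {f : SF Ω} {F : ℝ → E4 → ℝ} (h : Rep f F) (p : Ω) :
    HasDerivAt (fun s => F s p.1.2) ((hG.T f).1 p) p.1.1 := by
  have e : f = SF.mk' _ h.contDiffOn := h.eq_mk'
  have h1 : (hG.T f).1 p = fderiv ℝ (fun q : ℝ × E4 => F q.1 q.2) p.1 tv := by
    rw [e]
    change (dirD hG.isOpen tv (SF.mk' _ h.contDiffOn)).1 p = _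
    rw [dirD_mk']
    rfl
  rw [h1]
  exact hasDerivAt_slice hG.isOpen h.contDiffOn p.2

theorem Rep.g {Ω : Set (ℝ × E4)} {G : ℝ → E4 → Matrix (Fin 4) (Fin 4) ℝ} (hG : SmoothMet Ω G)
    (i j : Fin 4) : Rep (hG.geo.g i j) (fun t y => G t y i j) := fun _ => rfl

theorem Rep.h {Ω : Set (ℝ × E4)} {G : ℝ → E4 → Matrix (Fin 4) (Fin 4) ℝ} (hG : SmoothMet Ω G)
    (i j : Fin 4) : Rep (hG.geo.h i j) (fun t y => (G t y)⁻¹ i j) := fun _ => rfl

theorem Rep.chr {Ω : Set (ℝ × E4)} {G : ℝ → E4 → Matrix (Fin 4) (Fin 4) ℝ} (hG : SmoothMet Ω G)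
    (k i j : Fin 4) : Rep (hG.geo.chr k i j) (fun t y => NRF.chr (G t) k i j y) :=
  Rep.smul _ (Rep.sum fun l _ => (Rep.h hG k l).mul
    ((((Rep.g hG j l).D hG i).add ((Rep.g hG i l).D hG j)).sub ((Rep.g hG i j).D hG l)))

theorem Rep.ric {Ω : Set (ℝ × E4)} {G : ℝ → E4 → Matrix (Fin 4) (Fin 4) ℝ} (hG : SmoothMet Ω G)
    (i j : Fin 4) : Rep (hG.geo.ric i j) (fun t y => ricci (G t) i j y) :=
  Rep.sum fun k _ => ((((Rep.chr hG k i j).D hG k).sub ((Rep.chr hG k i k).D hG j)).add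
    (Rep.sum fun l _ => ((Rep.chr hG k k l).mul (Rep.chr hG l i j)).sub
      ((Rep.chr hG k j l).mul (Rep.chr hG l i k))))

theorem Rep.scal {Ω : Set (ℝ × E4)} {G : ℝ → E4 → Matrix (Fin 4) (Fin 4) ℝ}
    (hG : SmoothMet Ω G) : Rep hG.geo.scal (fun t y => scalC (G t) y) :=
  Rep.sum fun i _ => Rep.sum fun j _ => (Rep.h hG i j).mul (Rep.ric hG i j)

end NRF
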