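import Pool.Agent.Work.MP_7f974f_gt.Stmts_B
import Pool.Agent.Work.MP_7f974f_gt.Bridge

/-!
# Module A, function level definitions
Laplacian, inner product of gradients, frames, Dirac operator as functions on `E4`; coefficients of a
metric in an arbitrary chart of the maximal atlas; bridge lemmas.
-/

open scoped Manifold ContDiff Topology
open MeasureTheory Set

noncomputable section

namespace NRF

/-- Hessian in coordinates. -/
def hessC (G : E4 → Matrix (Fin 4) (Fin 4) ℝ) (u : E4 → ℝ) (i j : Fin 4) (y : E4) : ℝ :=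
  pd i (pd j u) y - ∑ k, chr G k i j y * pd k u y

/-- Laplacian in coordinates, `g^ij (∂_i ∂_j u - Γ^k_ij ∂_k u)`. -/
def laplC (G : E4 → Matrix (Fin 4) (Fin 4) ℝ) (u : E4 → ℝ) (y : E4) : ℝ :=
  ∑ i, ∑ j, (G y)⁻¹ i j * hessC G u i j y

/-- Inner product of two gradients, `g^ij ∂_i u ∂_j v`. -/
def gradInC (G : E4 → Matrix (Fin 4) (Fin 4) ℝ) (u v : E4 → ℝ) (y : E4) : ℝ :=
  ∑ i, ∑ j, (G y)⁻¹ i j * (pd i u y * pd j v y)

/-- Inner product of covariant 2-tensors with respect to the inverse matrix `H` of the metric. -/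
def in2 (H A B : Matrix (Fin 4) (Fin 4) ℝ) : ℝ :=
  ∑ i, ∑ j, ∑ k, ∑ l, H i k * H j l * (A i j * B k l)

/-- The Ricci tensor as a matrix. -/
def ricM (G : E4 → Matrix (Fin 4) (Fin 4) ℝ) (y : E4) : Matrix (Fin 4) (Fin 4) ℝ :=
  Matrix.of fun i j => ricci G i j y

/-- The Hessian as a matrix. -/
def hessM (G : E4 → Matrix (Fin 4) (Fin 4) ℝ) (u : E4 → ℝ) (y : E4) :
    Matrix (Fin 4) (Fin 4) ℝ :=
  Matrix.of fun i j => hessC G u i j y

/-- A smooth metric on an open set `U`. -/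
structure MetOn (U : Set E4) (G : E4 → Matrix (Fin 4) (Fin 4) ℝ) : Prop where
  isOpen : IsOpen U
  smooth : ∀ i j, ContDiffOn ℝ ∞ (fun y => G y i j) U
  posDef : ∀ y ∈ U, (G y).PosDef

/-- Pull back of a matrix valued function (covariant 2-tensor) under a map. -/
def pullM (φ : E4 → E4) (G : E4 → Matrix (Fin 4) (Fin 4) ℝ) (y : E4) :
    Matrix (Fin 4) (Fin 4) ℝ :=
  Matrix.of fun i j => ∑ k, ∑ l, (pd i φ y) k * (pd j φ y) l * G (φ y) k l

/-! ## Frames at function level -/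

/-- A smooth positively oriented orthonormal frame over `U`; `f y k a` is the k-th coordinate of the
a-th frame vector. -/
structure FrameOn (U : Set E4) (G f : E4 → Matrix (Fin 4) (Fin 4) ℝ) : Prop where
  met : MetOn U G
  smooth : ∀ i j, ContDiffOn ℝ ∞ (fun y => f y i j) U
  orth : ∀ y ∈ U, (f y).transpose * G y * f y = 1
  det_pos : ∀ y ∈ U, 0 < (f y).det

/-- Connection matrices in a frame. -/
def omC (G f : E4 → Matrix (Fin 4) (Fin 4) ℝ) (i : Fin 4) (y : E4) :
    Matrix (Fin 4) (Fin 4) ℝ :=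
  (f y)⁻¹ * ((Matrix.of fun k a => pd i (fun z => f z k a) y) +
    (Matrix.of fun k j => chr G k i j y) * f y)

/-- Curvature matrices in a frame. -/
def OmC (G f : E4 → Matrix (Fin 4) (Fin 4) ℝ) (i j : Fin 4) (y : E4) :
    Matrix (Fin 4) (Fin 4) ℝ :=
  (Matrix.of fun a b => pd i (fun z => omC G f j z a b) y) -
    (Matrix.of fun a b => pd j (fun z => omC G f i z a b) y) +
    omC G f i y * omC G f j y - omC G f j y * omC G f i y

/-- Curvature components in a frame, `R_abcd = (Ω(f_a, f_b))_cd`. -/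
def R4C (G f : E4 → Matrix (Fin 4) (Fin 4) ℝ) (a b c d : Fin 4) (y : E4) : ℝ :=
  ∑ i, ∑ j, f y i a * f y j b * OmC G f i j y c d

/-- Covariant derivative of a form given by its frame components. -/
def nabC (G f : E4 → Matrix (Fin 4) (Fin 4) ℝ) (i : Fin 4) (α : E4 → Lam → ℝ) (y : E4) :
    Lam → ℝ :=
  (fun s => pd i (fun z => α z s) y) + (rho (omC G f i y)).mulVec (α y)

/-- Exterior derivative in frame components. -/
def dFC (G f : E4 → Matrix (Fin 4) (Fin 4) ℝ) (α : E4 → Lam → ℝ) (y : E4) : Lam → ℝ :=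
  ∑ i, ∑ a, f y i a • (eps ℝ a).mulVec (nabC G f i α y)

/-- Codifferential in frame components. -/
def delFC (G f : E4 → Matrix (Fin 4) (Fin 4) ℝ) (α : E4 → Lam → ℝ) (y : E4) : Lam → ℝ :=
  -∑ i, ∑ a, f y i a • (iot ℝ a).mulVec (nabC G f i α y)

/-- `D = d + δ` in frame components. -/
def diracC (G f : E4 → Matrix (Fin 4) (Fin 4) ℝ) (α : E4 → Lam → ℝ) (y : E4) : Lam → ℝ :=
  ∑ i, ∑ a, f y i a • (clf ℝ a).mulVec (nabC G f i α y)

/-- The a-th frame vector at `y`. -/
def fvec (f : E4 → Matrix (Fin 4) (Fin 4) ℝ) (a : Fin 4) (y : E4) : E4 := ∑ k, f y k a • bv k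

/-- Frame components of a k-form: the component at `s` is the value on the frame vectors with
indices in `s`, in increasing order (zero unless `s` has `k` elements). -/
def comp (f : E4 → Matrix (Fin 4) (Fin 4) ℝ) {k : ℕ} (w : E4 → E4 [⋀^Fin k]→L[ℝ] ℝ) (y : E4) :
    Lam → ℝ :=
  fun s => if h : s.card = k then w y (fun j => fvec f (s.orderEmbOfFin h j) y) else 0

/-! ## Metrics in charts of the maximal atlas -/

section
variable {X : Type} [TopologicalSpace X] [ChartedSpace E4 X]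

/-- The coefficients of the metric in an arbitrary chart `ψ` (`Metric.mcoef` of `Stmts_B.lean`) as a
pull back. -/
theorem Metric.mcoef_eq_pullM (g : Metric X) (ψ : OpenPartialHomeomorph X E4) (y : E4) :
    g.mcoef ψ y = pullM (ψ.symm.trans (chartAt E4 (ψ.symm y))) (g.coef (chAt (ψ.symm y))) y := rfl

/-- Laplacian of a function on `X`. -/
def Metric.lapl (g : Metric X) (u : X → ℝ) (x : X) : ℝ :=
  laplC (g.coef (chAt x)) (u ∘ (chartAt E4 x).symm) (chartAt E4 x x)

/-- Inner product of the gradients of two functions on `X`. -/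
def Metric.gradIn (g : Metric X) (u v : X → ℝ) (x : X) : ℝ :=
  gradInC (g.coef (chAt x)) (u ∘ (chartAt E4 x).symm) (v ∘ (chartAt E4 x).symm) (chartAt E4 x x)

end

/-! ## Bridge lemmas -/

theorem smoothMet_static {U : Set E4} {G : E4 → Matrix (Fin 4) (Fin 4) ℝ} (h : MetOn U G) :
    SmoothMet (univ ×ˢ U) (fun _ => G) where
  isOpen := isOpen_univ.prod h.isOpen
  smooth := fun i j => (h.smooth i j).comp contDiffOn_snd fun _ hp => hp.2
  posDef := fun p hp => h.posDef p.2 hp.2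

section
variable {Ω : Set (ℝ × E4)} {G : ℝ → E4 → Matrix (Fin 4) (Fin 4) ℝ} (hG : SmoothMet Ω G)
include hG

theorem Rep.hess {f : SF Ω} {F : ℝ → E4 → ℝ} (h : Rep f F) (i j : Fin 4) :
    Rep (hG.geo.hess f i j) (fun t y => hessC (G t) (F t) i j y) :=
  ((h.D hG j).D hG i).sub (Rep.sum fun k _ => (Rep.chr hG k i j).mul (h.D hG k))

theorem Rep.lap {f : SF Ω} {F : ℝ → E4 → ℝ} (h : Rep f F) :
    Rep (hG.geo.lap f) (fun t y => laplC (G t) (F t) y) :=
  Rep.sum fun i _ => Rep.sum fun j _ => (Rep.h hG i j).mul (h.hess hG i j)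

theorem Rep.grad2 {f f' : SF Ω} {F F' : ℝ → E4 → ℝ} (h : Rep f F) (h' : Rep f' F') :
    Rep (hG.geo.grad2 f f') (fun t y => gradInC (G t) (F t) (F' t) y) :=
  Rep.sum fun i _ => Rep.sum fun j _ => (Rep.h hG i j).mul ((h.D hG i).mul (h'.D hG j))

theorem Rep.inner2 {a b : Fin 4 → Fin 4 → SF Ω}
    {A B : ℝ → E4 → Matrix (Fin 4) (Fin 4) ℝ} (ha : ∀ i j, Rep (a i j) fun t y => A t y i j)
    (hb : ∀ i j, Rep (b i j) fun t y => B t y i j) :
    Rep (hG.geo.inner2 a b) (fun t y => in2 (G t y)⁻¹ (A t y) (B t y)) :=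
  Rep.sum fun i _ => Rep.sum fun j _ => Rep.sum fun k _ => Rep.sum fun l _ =>
    ((Rep.h hG i k).mul (Rep.h hG j l)).mul ((ha i j).mul (hb k l))

end

theorem gradInC_self (G : E4 → Matrix (Fin 4) (Fin 4) ℝ) (u : E4 → ℝ) :
    gradInC G u u = gradSqC G u := rfl

theorem ric0SqC_eq (G : E4 → Matrix (Fin 4) (Fin 4) ℝ) (y : E4) :
    ric0SqC G y = in2 (G y)⁻¹ (ricM G y) (ricM G y) - (scalC G y) ^ 2 / 4 := by
  unfold ric0SqC in2 ricM
  simp only [Matrix.of_apply, mul_assoc]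

end NRF
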