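import Pool.Agent.Work.MP_7f974f_gt.Stmts_B

/-!
# B1: a Riemannian metric in the charts of the maximal atlas
-/

open scoped Manifold ContDiff Topology
open MeasureTheory Set

noncomputable section

namespace NRF

namespace B1

/-- Jacobian matrix. -/
def jac (τ : E4 → E4) (y : E4) : Matrix (Fin 4) (Fin 4) ℝ := Matrix.of fun k i => (pd i τ y) k

theorem pull_eq (τ : E4 → E4) (y : E4) (G : Matrix (Fin 4) (Fin 4) ℝ) (i j : Fin 4) :
    ∑ k, ∑ l, (pd i τ y) k * (pd j τ y) l * G k l =
      ((jac τ y).transpose * G * jac τ y) i j := by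
  simp only [Matrix.mul_apply, jac, Matrix.transpose_apply, Matrix.of_apply, Finset.sum_mul]
  rw [Finset.sum_comm]
  refine Finset.sum_congr rfl fun l _ => Finset.sum_congr rfl fun k _ => ?_
  ring

theorem vec_eq_sum (v : E4) : v = ∑ k, v k • bv k := by
  ext i
  simp [bv, Finset.sum_apply, Pi.single_apply]

theorem jac_comp {σ τ : E4 → E4} {y : E4} (hσ : DifferentiableAt ℝ σ (τ y))
    (hτ : DifferentiableAt ℝ τ y) : jac (σ ∘ τ) y = jac σ (τ y) * jac τ y := by
  ext k i
  simp only [jac, Matrix.mul_apply, Matrix.of_apply, pd]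
  rw [fderiv_comp y hσ hτ]
  change (fderiv ℝ σ (τ y) (fderiv ℝ τ y (bv i))) k = _
  conv_lhs => rw [vec_eq_sum (fderiv ℝ τ y (bv i))]
  rw [map_sum]
  simp only [map_smul, PiLp.smul_apply, WithLp.ofLp_sum, Finset.sum_apply, smul_eq_mul]
  exact Finset.sum_congr rfl fun l _ => mul_comm _ _

theorem jac_congr {σ τ : E4 → E4} {y : E4} (h : σ =ᶠ[𝓝 y] τ) : jac σ y = jac τ y := by
  ext k i
  simp only [jac, Matrix.of_apply, pd]
  rw [h.fderiv_eq]

theorem jac_id (y : E4) : jac id y = 1 := by
  ext k i
  simp only [jac, Matrix.of_apply, pd, fderiv_id, Matrix.one_apply]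
  change (bv i) k = _
  simp [bv, Pi.single_apply]

section

variable {X : Type} [TopologicalSpace X] [ChartedSpace E4 X] [IsManifold (𝓡 4) ∞ X]

theorem ch_mem (e : Ch X) : e.1 ∈ SmCh X := IsManifold.subset_maximalAtlas e.2

omit [IsManifold (𝓡 4) ∞ X] in
/-- Transition maps between smooth charts are smooth. -/
theorem trans_smooth {psi psi' : OpenPartialHomeomorph X E4} (h : psi ∈ SmCh X)
    (h' : psi' ∈ SmCh X) :
    ContDiffOn ℝ ∞ (psi.symm.trans psi') (psi.symm.trans psi').source := by
  have h1 : ContMDiffOn (𝓡 4) (𝓡 4) ∞ psi.symm psi.target :=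
    contMDiffOn_symm_of_mem_maximalAtlas h
  have h2 : ContMDiffOn (𝓡 4) (𝓡 4) ∞ psi' psi'.source := contMDiffOn_of_mem_maximalAtlas h'
  have h3 : ContMDiffOn (𝓡 4) (𝓡 4) ∞ (psi.symm.trans psi') (psi.symm.trans psi').source := by
    refine h2.comp (h1.mono fun y hy => hy.1) fun y hy => hy.2
  exact contMDiffOn_iff_contDiffOn.1 h3

theorem trans_diffAt {psi psi' : OpenPartialHomeomorph X E4} (h : psi ∈ SmCh X)
    (h' : psi' ∈ SmCh X) {y : E4} (hy : y ∈ (psi.symm.trans psi').source) :
    DifferentiableAt ℝ (psi.symm.trans psi') y :=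
  ((trans_smooth h h').differentiableOn (by simp)).differentiableAt
    ((psi.symm.trans psi').open_source.mem_nhds hy)

/-- Chain rule for transition maps. -/
theorem jac_chain {psi psi' psi'' : OpenPartialHomeomorph X E4} (h : psi ∈ SmCh X)
    (h' : psi' ∈ SmCh X) (h'' : psi'' ∈ SmCh X) {y : E4}
    (hy : y ∈ (psi.symm.trans psi').source) (hy' : psi.symm y ∈ psi''.source) :
    jac (psi.symm.trans psi'') y =
      jac (psi'.symm.trans psi'') (psi' (psi.symm y)) * jac (psi.symm.trans psi') y := by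
  have hyt : y ∈ psi.target := hy.1
  have hys : psi.symm y ∈ psi'.source := hy.2
  have hz : psi' (psi.symm y) ∈ (psi'.symm.trans psi'').source := by
    refine ⟨psi'.map_source hys, ?_⟩
    change psi'.symm (psi' (psi.symm y)) ∈ psi''.source
    rw [psi'.left_inv hys]
    exact hy'
  have h1 := jac_comp (σ := psi'.symm.trans psi'') (τ := psi.symm.trans psi') (y := y)
    (trans_diffAt h' h'' hz) (trans_diffAt h h' hy)
  have h2 : ((psi'.symm.trans psi'') ∘ (psi.symm.trans psi') : E4 → E4) =ᶠ[𝓝 y]
      (psi.symm.trans psi'') := by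
    filter_upwards [(psi.symm.trans psi').open_source.mem_nhds hy] with z hz
    change psi'' (psi'.symm (psi' (psi.symm z))) = psi'' (psi.symm z)
    have hz2 : psi.symm z ∈ psi'.source := hz.2
    rw [psi'.left_inv hz2]
  rw [← jac_congr h2, h1]
  rfl

omit [ChartedSpace E4 X] [IsManifold (𝓡 4) ∞ X] in
theorem jac_self {psi : OpenPartialHomeomorph X E4} {y : E4} (hy : y ∈ psi.target) :
    jac (psi.symm.trans psi) y = 1 := by
  have h : ((psi.symm.trans psi : OpenPartialHomeomorph E4 E4) : E4 → E4) =ᶠ[𝓝 y] id := by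
    filter_upwards [psi.open_target.mem_nhds hy] with z hz
    exact psi.right_inv hz
  rw [jac_congr h, jac_id]

omit [IsManifold (𝓡 4) ∞ X] in
theorem mcoef_eq (g : Metric X) (psi : OpenPartialHomeomorph X E4) (y : E4) :
    g.mcoef psi y = (jac (psi.symm.trans (chAt (psi.symm y)).1) y).transpose *
      g.coef (chAt (psi.symm y)) ((chAt (psi.symm y)).1 (psi.symm y)) *
      jac (psi.symm.trans (chAt (psi.symm y)).1) y := by
  ext i j
  rw [← pull_eq]
  rfl

/-- The preferred chart may be replaced by any chart of the atlas. -/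
theorem mcoef_eq' (g : Metric X) {psi : OpenPartialHomeomorph X E4} (h : psi ∈ SmCh X)
    (e : Ch X) {y : E4} (hy : y ∈ (psi.symm.trans e.1).source) :
    g.mcoef psi y = (jac (psi.symm.trans e.1) y).transpose * g.coef e (e.1 (psi.symm y)) *
      jac (psi.symm.trans e.1) y := by
  have hyt : y ∈ psi.target := hy.1
  have hys : psi.symm y ∈ e.1.source := hy.2
  set x := psi.symm y with hx
  have hxs : x ∈ (chAt x).1.source := mem_chart_source E4 x
  have hy0 : y ∈ (psi.symm.trans (chAt x).1).source := ⟨hyt, hxs⟩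
  have h1 := jac_chain h (ch_mem (chAt x)) (ch_mem e) hy0 hys
  have hz : (chAt x).1 x ∈ ((chAt x).1.symm.trans e.1).source := by
    refine ⟨(chAt x).1.map_source hxs, ?_⟩
    change (chAt x).1.symm ((chAt x).1 x) ∈ e.1.source
    rw [(chAt x).1.left_inv hxs]
    exact hys
  have h2 : g.coef (chAt x) ((chAt x).1 x) =
      (jac ((chAt x).1.symm.trans e.1) ((chAt x).1 x)).transpose * g.coef e (e.1 x) *
        jac ((chAt x).1.symm.trans e.1) ((chAt x).1 x) := by
    ext i j
    rw [← pull_eq, g.transf (chAt x) e _ hz i j]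
    have : ((chAt x).1.symm.trans e.1) ((chAt x).1 x) = e.1 x := by
      change e.1 ((chAt x).1.symm ((chAt x).1 x)) = e.1 x
      rw [(chAt x).1.left_inv hxs]
    rw [this]
  rw [mcoef_eq, ← hx, h2, h1, ← hx]
  simp only [Matrix.transpose_mul, Matrix.mul_assoc]

theorem jac_inv {psi psi' : OpenPartialHomeomorph X E4} (h : psi ∈ SmCh X)
    (h' : psi' ∈ SmCh X) {y : E4} (hy : y ∈ (psi.symm.trans psi').source) :
    jac (psi'.symm.trans psi) (psi' (psi.symm y)) * jac (psi.symm.trans psi') y = 1 := by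
  have hyt : y ∈ psi.target := hy.1
  rw [← jac_chain h h' h hy (psi.map_target hyt), jac_self hyt]

/-- Smoothness of the partial derivatives of a transition map. -/
theorem pd_smooth {psi psi' : OpenPartialHomeomorph X E4} (h : psi ∈ SmCh X)
    (h' : psi' ∈ SmCh X) (i k : Fin 4) :
    ContDiffOn ℝ ∞ (fun y => (pd i (psi.symm.trans psi') y) k) (psi.symm.trans psi').source := by
  have h1 : ContDiffOn ℝ ∞ (fderiv ℝ (psi.symm.trans psi')) (psi.symm.trans psi').source :=
    (trans_smooth h h').fderiv_of_isOpen (psi.symm.trans psi').open_source (by simp)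
  have h2 : ContDiffOn ℝ ∞ (fun y => fderiv ℝ (psi.symm.trans psi') y (bv i))
      (psi.symm.trans psi').source := h1.clm_apply contDiffOn_const
  exact (EuclideanSpace.proj k : E4 →L[ℝ] ℝ).contDiff.comp_contDiffOn h2

end

end B1

open B1 in
theorem claimMcoef_proof : claimMcoef := by
  intro X _ _ _ g psi hpsi
  refine ⟨?_, ?_, ?_, ?_⟩
  · intro i j y0 hy0
    set e := chAt (psi.symm y0) with he
    have hys : y0 ∈ (psi.symm.trans e.1).source := ⟨hy0, mem_chart_source E4 (psi.symm y0)⟩
    have hopen := (psi.symm.trans e.1).open_source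
    have h1 : ContDiffOn ℝ ∞ (fun y => ∑ k, ∑ l, (pd i (psi.symm.trans e.1) y) k *
        (pd j (psi.symm.trans e.1) y) l * g.coef e ((psi.symm.trans e.1) y) k l)
        (psi.symm.trans e.1).source := by
      refine ContDiffOn.sum fun k _ => ContDiffOn.sum fun l _ => ?_
      refine ((pd_smooth hpsi (ch_mem e) i k).mul (pd_smooth hpsi (ch_mem e) j l)).mul ?_
      refine (g.smooth e k l).comp (trans_smooth hpsi (ch_mem e)) fun y hy => ?_
      exact e.1.map_source hy.2
    have h2 : (fun y => g.mcoef psi y i j) =ᶠ[𝓝 y0] fun y => ∑ k, ∑ l,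
        (pd i (psi.symm.trans e.1) y) k * (pd j (psi.symm.trans e.1) y) l *
          g.coef e ((psi.symm.trans e.1) y) k l := by
      filter_upwards [hopen.mem_nhds hys] with y hy
      rw [mcoef_eq' g hpsi e hy, pull_eq]
      rfl
    exact ((h1.contDiffAt (hopen.mem_nhds hys)).congr_of_eventuallyEq h2).contDiffWithinAt
  · intro y hy
    set e := chAt (psi.symm y) with he
    have hys : y ∈ (psi.symm.trans e.1).source := ⟨hy, mem_chart_source E4 (psi.symm y)⟩
    rw [mcoef_eq' g hpsi e hys]
    have hinj : Function.Injective (jac (psi.symm.trans e.1) y).mulVec := by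
      have h1 := jac_inv hpsi (ch_mem e) hys
      intro v w hvw
      have h2 := congrArg (jac (e.1.symm.trans psi) (e.1 (psi.symm y))).mulVec hvw
      simp only [Matrix.mulVec_mulVec, h1, Matrix.one_mulVec] at h2
      exact h2
    have h3 := (g.posDef e (e.1 (psi.symm y)) (e.1.map_source hys.2)).conjTranspose_mul_mul_same
      hinj
    rwa [Matrix.conjTranspose_eq_transpose_of_trivial] at h3
  · intro e y hy
    have hys : y ∈ (e.1.symm.trans e.1).source := ⟨hy, e.1.map_target hy⟩
    rw [mcoef_eq' g (ch_mem e) e hys, jac_self hy, e.1.right_inv hy]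
    simp
  · intro psi' hpsi' y hy i j
    set e := chAt (psi.symm y) with he
    have hyt : y ∈ psi.target := hy.1
    have hys' : psi.symm y ∈ psi'.source := hy.2
    have hys : y ∈ (psi.symm.trans e.1).source := ⟨hy.1, mem_chart_source E4 (psi.symm y)⟩
    have hz : psi' (psi.symm y) ∈ (psi'.symm.trans e.1).source := by
      refine ⟨psi'.map_source hys', ?_⟩
      change psi'.symm (psi' (psi.symm y)) ∈ e.1.source
      rw [psi'.left_inv hys']
      exact hys.2
    rw [pull_eq, mcoef_eq' g hpsi e hys]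
    change _ = ((jac (psi.symm.trans psi') y).transpose * g.mcoef psi' (psi' (psi.symm y)) *
      jac (psi.symm.trans psi') y) i j
    rw [mcoef_eq' g hpsi' e hz, jac_chain hpsi hpsi' (ch_mem e) hy hys.2, psi'.left_inv hys']
    simp only [Matrix.transpose_mul, Matrix.mul_assoc]

end NRF
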