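import Pool.Agent.Work.MP_7f974f_gt.Stmts_B

/-!
# B4: finite good atlases with a smooth partition of unity
-/

open scoped Manifold ContDiff Topology
open MeasureTheory Set

noncomputable section

namespace NRF

namespace B4

variable {X : Type} [TopologicalSpace X] [ChartedSpace E4 X]

/-- a function on `E4` transplanted to `X` -/
def tr (psi : OpenPartialHomeomorph X E4) (f : E4 → ℝ) (x : X) : ℝ :=
  psi.source.indicator (fun x => f (psi x)) x

omit [ChartedSpace E4 X] in
theorem tr_mem {psi : OpenPartialHomeomorph X E4} {f : E4 → ℝ} {x : X} (hx : x ∈ psi.source) :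
    tr psi f x = f (psi x) := indicator_of_mem hx _

omit [ChartedSpace E4 X] in
theorem tr_notMem {psi : OpenPartialHomeomorph X E4} {f : E4 → ℝ} {x : X} (hx : x ∉ psi.source) :
    tr psi f x = 0 := indicator_of_notMem hx _

/-- smooth functions on `X`, read in charts -/
def SmX (F : X → ℝ) : Prop :=
  ∀ psi ∈ SmCh X, ∀ y ∈ psi.target, ContDiffAt ℝ ∞ (fun y => F (psi.symm y)) y

theorem SmX.const (c : ℝ) : SmX (fun _ : X => c) := fun _ _ _ _ => contDiffAt_const

theorem SmX.mul {F G : X → ℝ} (hF : SmX F) (hG : SmX G) : SmX (fun x => F x * G x) :=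
  fun psi h y hy => (hF psi h y hy).mul (hG psi h y hy)

theorem SmX.sub {F G : X → ℝ} (hF : SmX F) (hG : SmX G) : SmX (fun x => F x - G x) :=
  fun psi h y hy => (hF psi h y hy).sub (hG psi h y hy)

theorem SmX.sum {ι : Type} (s : Finset ι) {F : ι → X → ℝ} (hF : ∀ i, SmX (F i)) :
    SmX (fun x => ∑ i ∈ s, F i x) :=
  fun psi h y hy => ContDiffAt.sum fun i _ => hF i psi h y hy

theorem SmX.div {F G : X → ℝ} (hF : SmX F) (hG : SmX G) (h0 : ∀ x, G x ≠ 0) :
    SmX (fun x => F x / G x) :=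
  fun psi h y hy => (hF psi h y hy).div (hG psi h y hy) (h0 _)

theorem SmX.sqrt {F : X → ℝ} (hF : SmX F) (h0 : ∀ x, F x ≠ 0) :
    SmX (fun x => Real.sqrt (F x)) :=
  fun psi h y hy => (hF psi h y hy).sqrt (h0 _)

theorem SmX.pow {F : X → ℝ} (hF : SmX F) (k : ℕ) : SmX (fun x => F x ^ k) :=
  fun psi h y hy => (hF psi h y hy).pow k

theorem trans_smooth {psi psi' : OpenPartialHomeomorph X E4} (h : psi ∈ SmCh X)
    (h' : psi' ∈ SmCh X) :
    ContDiffOn ℝ ∞ (fun y => psi' (psi.symm y)) (psi.target ∩ psi.symm ⁻¹' psi'.source) := by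
  have h1 : ContMDiffOn (𝓡 4) (𝓡 4) ∞ psi.symm psi.target :=
    contMDiffOn_symm_of_mem_maximalAtlas h
  have h2 : ContMDiffOn (𝓡 4) (𝓡 4) ∞ psi' psi'.source := contMDiffOn_of_mem_maximalAtlas h'
  exact (h2.comp (h1.mono inter_subset_left) (fun y hy => hy.2)).contDiffOn

theorem smX_tr [T2Space X] {psi : OpenPartialHomeomorph X E4} (h : psi ∈ SmCh X) {f : E4 → ℝ}
    (hf : ContDiff ℝ ∞ f) {r : ℝ} (hr : Metric.closedBall 0 r ⊆ psi.target)
    (hs : ∀ z, r ≤ ‖z‖ → f z = 0) : SmX (tr psi f) := by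
  intro psi' h' y hy
  by_cases hy' : psi'.symm y ∈ psi.source
  · have hopen : IsOpen (psi'.target ∩ psi'.symm ⁻¹' psi.source) :=
      psi'.isOpen_inter_preimage_symm psi.open_source
    have h1 : ContDiffAt ℝ ∞ (fun y => psi (psi'.symm y)) y :=
      (trans_smooth h' h).contDiffAt (hopen.mem_nhds ⟨hy, hy'⟩)
    have h2 : ContDiffAt ℝ ∞ (fun y => f (psi (psi'.symm y))) y :=
      ContDiffAt.comp y hf.contDiffAt h1
    refine h2.congr_of_eventuallyEq ?_
    filter_upwards [hopen.mem_nhds ⟨hy, hy'⟩] with z hz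
    exact tr_mem hz.2
  · have hK : IsCompact (psi.symm '' Metric.closedBall 0 r) :=
      (isCompact_closedBall (0 : E4) r).image_of_continuousOn (psi.continuousOn_symm.mono hr)
    have hopen : IsOpen (psi'.target ∩ psi'.symm ⁻¹' (psi.symm '' Metric.closedBall 0 r)ᶜ) :=
      psi'.isOpen_inter_preimage_symm hK.isClosed.isOpen_compl
    have hmem : y ∈ psi'.target ∩ psi'.symm ⁻¹' (psi.symm '' Metric.closedBall 0 r)ᶜ := by
      refine ⟨hy, ?_⟩
      rintro ⟨w, hw, hw'⟩
      apply hy'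
      rw [← hw']
      exact psi.map_target (hr hw)
    refine contDiffAt_const (c := (0 : ℝ)) |>.congr_of_eventuallyEq ?_
    filter_upwards [hopen.mem_nhds hmem] with z hz
    by_cases hz' : psi'.symm z ∈ psi.source
    · rw [tr_mem hz']
      apply hs
      by_contra hlt
      push Not at hlt
      apply hz.2
      refine ⟨psi (psi'.symm z), ?_, psi.left_inv hz'⟩
      rw [mem_closedBall_zero_iff]
      exact hlt.le
    · exact tr_notMem hz'

/-- a function on `X` read in a chart, extended by zero -/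
def pull (psi : OpenPartialHomeomorph X E4) (Q : X → ℝ) (z : E4) : ℝ :=
  if ‖z‖ < 1 then Q (psi.symm z) else 0

omit [ChartedSpace E4 X] in
theorem pull_apply {psi : OpenPartialHomeomorph X E4} {Q : X → ℝ}
    (h0 : ∀ x ∈ psi.source, 3 / 4 ≤ ‖psi x‖ → Q x = 0) {x : X} (hx : x ∈ psi.source) :
    pull psi Q (psi x) = Q x := by
  unfold pull
  split_ifs with h
  · rw [psi.left_inv hx]
  · rw [h0 x hx]
    push Not at h
    linarith

theorem pull_smooth {psi : OpenPartialHomeomorph X E4} (h : psi ∈ SmCh X)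
    (hb : Metric.closedBall 0 3 ⊆ psi.target) {Q : X → ℝ} (hQ : SmX Q)
    (h0 : ∀ x ∈ psi.source, 3 / 4 ≤ ‖psi x‖ → Q x = 0) : ContDiff ℝ ∞ (pull psi Q) := by
  rw [contDiff_iff_contDiffAt]
  intro z
  by_cases hz : ‖z‖ < 1
  · have hzt : z ∈ psi.target := hb (by rw [mem_closedBall_zero_iff]; linarith)
    refine (hQ psi h z hzt).congr_of_eventuallyEq ?_
    have : Metric.ball (0 : E4) 1 ∈ 𝓝 z :=
      Metric.isOpen_ball.mem_nhds (by rw [mem_ball_zero_iff]; exact hz)
    filter_upwards [this] with w hw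
    unfold pull
    rw [if_pos (mem_ball_zero_iff.1 hw)]
  · refine contDiffAt_const (c := (0 : ℝ)) |>.congr_of_eventuallyEq ?_
    have hopen : IsOpen {w : E4 | 3 / 4 < ‖w‖} := isOpen_lt continuous_const continuous_norm
    have hzm : z ∈ {w : E4 | 3 / 4 < ‖w‖} := by
      push Not at hz
      show 3 / 4 < ‖z‖
      linarith
    filter_upwards [hopen.mem_nhds hzm] with w hw
    unfold pull
    split_ifs with hw1
    · have hwt : w ∈ psi.target := hb (by rw [mem_closedBall_zero_iff]; linarith)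
      have hw' : 3 / 4 < ‖w‖ := hw
      apply h0 _ (psi.map_target hwt)
      rw [psi.right_inv hwt]
      exact hw'.le
    · rfl

omit [ChartedSpace E4 X] in
theorem pull_nonneg {psi : OpenPartialHomeomorph X E4} {Q : X → ℝ} (hQ : ∀ x, 0 ≤ Q x) (z : E4) :
    0 ≤ pull psi Q z := by
  unfold pull
  split_ifs
  · exact hQ _
  · exact le_rfl

omit [ChartedSpace E4 X] in
theorem pull_zero {psi : OpenPartialHomeomorph X E4} {Q : X → ℝ} {z : E4} (hz : 1 ≤ ‖z‖) :
    pull psi Q z = 0 := by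
  unfold pull
  rw [if_neg (not_lt.2 hz)]

/-- the large bump -/
def bumpA : ContDiffBump (0 : E4) := ⟨1 / 2, 3 / 4, by norm_num, by norm_num⟩

/-- the small bump -/
def bumpB : ContDiffBump (0 : E4) := ⟨1 / 8, 1 / 4, by norm_num, by norm_num⟩

theorem bumpA_one {z : E4} (hz : ‖z‖ ≤ 1 / 2) : bumpA z = 1 :=
  bumpA.one_of_mem_closedBall (by rw [mem_closedBall_zero_iff]; exact hz)

theorem bumpA_zero {z : E4} (hz : 3 / 4 ≤ ‖z‖) : bumpA z = 0 :=
  bumpA.zero_of_le_dist (by rw [dist_zero_right]; exact hz)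

theorem bumpB_one {z : E4} (hz : ‖z‖ ≤ 1 / 8) : bumpB z = 1 :=
  bumpB.one_of_mem_closedBall (by rw [mem_closedBall_zero_iff]; exact hz)

theorem bumpB_zero {z : E4} (hz : 1 / 4 ≤ ‖z‖) : bumpB z = 0 :=
  bumpB.zero_of_le_dist (by rw [dist_zero_right]; exact hz)

omit [ChartedSpace E4 X] in
theorem tr_nonneg (psi : OpenPartialHomeomorph X E4) {f : E4 → ℝ} (hf : ∀ z, 0 ≤ f z) (x : X) :
    0 ≤ tr psi f x := indicator_nonneg (fun _ _ => hf _) x

omit [ChartedSpace E4 X] in
theorem tr_le_one (psi : OpenPartialHomeomorph X E4) {f : E4 → ℝ} (hf : ∀ z, f z ≤ 1) (x : X) :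
    tr psi f x ≤ 1 := by
  unfold tr
  by_cases hx : x ∈ psi.source
  · rw [indicator_of_mem hx]; exact hf _
  · rw [indicator_of_notMem hx]; norm_num

/-- the unnormalised bumps -/
def bb {n : ℕ} (psi : Fin (n + 1) → OpenPartialHomeomorph X E4) (i : Fin (n + 1)) (x : X) : ℝ :=
  tr (psi i) bumpA x * (if i = 0 then 1 else 1 - tr (psi 0) bumpB x)

section

variable {n : ℕ} {psi : Fin (n + 1) → OpenPartialHomeomorph X E4}

omit [ChartedSpace E4 X] in
theorem bb_nonneg (i : Fin (n + 1)) (x : X) : 0 ≤ bb psi i x := by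
  unfold bb
  apply mul_nonneg (tr_nonneg _ (fun z => bumpA.nonneg) x)
  split_ifs
  · norm_num
  · have := tr_le_one (psi 0) (f := bumpB) (fun z => bumpB.le_one) x
    linarith

omit [ChartedSpace E4 X] in
theorem bb_zero_of_norm (i : Fin (n + 1)) {x : X} (hx : x ∈ (psi i).source)
    (h : 3 / 4 ≤ ‖psi i x‖) : bb psi i x = 0 := by
  unfold bb
  rw [tr_mem hx, bumpA_zero h, zero_mul]

omit [ChartedSpace E4 X] in
theorem bb_notMem (i : Fin (n + 1)) {x : X} (hx : x ∉ (psi i).source) : bb psi i x = 0 := by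
  unfold bb
  rw [tr_notMem hx, zero_mul]

omit [ChartedSpace E4 X] in
/-- some bump is positive -/
theorem bb_pos (hcov : ∀ x : X, ∃ i, i ≠ 0 ∧ x ∈ (psi i).source ∧ ‖psi i x‖ < 1 / 2) (x : X) :
    ∃ i, 0 < bb psi i x := by
  by_cases h : tr (psi 0) bumpB x < 1
  · obtain ⟨i, hi, hx, hn⟩ := hcov x
    refine ⟨i, ?_⟩
    unfold bb
    rw [if_neg hi, tr_mem hx, bumpA_one hn.le, one_mul]
    linarith
  · refine ⟨0, ?_⟩
    unfold bb
    rw [if_pos rfl, mul_one]
    by_cases hx : x ∈ (psi 0).source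
    · have hn : ‖psi 0 x‖ < 1 / 4 := by
        by_contra hge
        push Not at hge
        rw [tr_mem hx, bumpB_zero hge] at h
        exact h one_pos
      rw [tr_mem hx, bumpA_one (by linarith)]
      exact one_pos
    · rw [tr_notMem hx] at h
      exact absurd one_pos h

theorem bb_smooth [T2Space X] (hS : ∀ i, psi i ∈ SmCh X)
    (hb : ∀ i, Metric.closedBall 0 3 ⊆ (psi i).target) (i : Fin (n + 1)) : SmX (bb psi i) := by
  have h1 : ∀ i, SmX (tr (psi i) bumpA) := fun i =>
    smX_tr (hS i) bumpA.contDiff (r := 3 / 4)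
      ((Metric.closedBall_subset_closedBall (by norm_num)).trans (hb i)) (fun z hz => bumpA_zero hz)
  have h2 : SmX (tr (psi 0) bumpB) :=
    smX_tr (hS 0) bumpB.contDiff (r := 1 / 4)
      ((Metric.closedBall_subset_closedBall (by norm_num)).trans (hb 0)) (fun z hz => bumpB_zero hz)
  unfold bb
  by_cases hi : i = 0
  · simp only [if_pos hi]
    exact (h1 i).mul (SmX.const 1)
  · simp only [if_neg hi]
    exact (h1 i).mul ((SmX.const 1).sub h2)

omit [ChartedSpace E4 X] in
/-- near the centre of the first chart only the first bump is seen -/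
theorem bb_near (hb : Metric.closedBall 0 3 ⊆ (psi 0).target) {z : E4} (hz : ‖z‖ < 1 / 8)
    (i : Fin (n + 1)) : bb psi i ((psi 0).symm z) = if i = 0 then 1 else 0 := by
  have hzt : z ∈ (psi 0).target := hb (by rw [mem_closedBall_zero_iff]; linarith)
  have hx : (psi 0).symm z ∈ (psi 0).source := (psi 0).map_target hzt
  unfold bb
  split_ifs with hi
  · subst hi
    rw [tr_mem hx, (psi 0).right_inv hzt, bumpA_one (by linarith), one_mul]
  · rw [tr_mem (psi := psi 0) hx, (psi 0).right_inv hzt, bumpB_one (by linarith), sub_self,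
      mul_zero]

end

end B4

open B4 in
theorem claimAtlas_proof : claimAtlas := by
  intro X _ _ _ _ _ S hS hex psi0 h0 hb0
  choose ch hchS hchx hch0 hchb using hex
  -- the finite subcover
  obtain ⟨t, ht⟩ := isCompact_univ.elim_finite_subcover
    (fun x : X => (ch x).source ∩ (ch x) ⁻¹' Metric.ball 0 (1 / 2))
    (fun x => (ch x).isOpen_inter_preimage Metric.isOpen_ball)
    (fun x _ => mem_iUnion.2 ⟨x, hchx x, by
      show ch x x ∈ Metric.ball 0 (1 / 2)
      rw [hch0 x]
      exact Metric.mem_ball_self (by norm_num)⟩)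
  let e := t.equivFin
  let psi : Fin (t.card + 1) → OpenPartialHomeomorph X E4 :=
    Fin.cons psi0 (fun k => ch (e.symm k : X))
  have hpsi0 : psi 0 = psi0 := rfl
  have hpsiS : ∀ i, psi i ∈ S := by
    intro i
    refine Fin.cases ?_ (fun k => ?_) i
    · exact h0
    · exact hchS _
  have hpsib : ∀ i, Metric.closedBall 0 3 ⊆ (psi i).target := by
    intro i
    refine Fin.cases ?_ (fun k => ?_) i
    · exact hb0
    · exact hchb _
  have hSm : ∀ i, psi i ∈ SmCh X := fun i => hS (hpsiS i)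
  have hcov : ∀ x : X, ∃ i, i ≠ 0 ∧ x ∈ (psi i).source ∧ ‖psi i x‖ < 1 / 2 := by
    intro x
    obtain ⟨y, hyt, hxy⟩ := mem_iUnion₂.1 (ht (mem_univ x))
    refine ⟨Fin.succ (e ⟨y, hyt⟩), Fin.succ_ne_zero _, ?_, ?_⟩
    · have : psi (Fin.succ (e ⟨y, hyt⟩)) = ch y := by
        show ch (e.symm (e ⟨y, hyt⟩) : X) = ch y
        rw [Equiv.symm_apply_apply]
      rw [this]
      exact hxy.1
    · have : psi (Fin.succ (e ⟨y, hyt⟩)) = ch y := by
        show ch (e.symm (e ⟨y, hyt⟩) : X) = ch y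
        rw [Equiv.symm_apply_apply]
      rw [this]
      have h2 : ch y x ∈ Metric.ball 0 (1 / 2) := hxy.2
      rwa [mem_ball_zero_iff] at h2
  have hbs := bb_smooth hSm hpsib
  have hN1 : ∀ x : X, 0 < ∑ j, bb psi j x := by
    intro x
    obtain ⟨i, hi⟩ := bb_pos hcov x
    exact Finset.sum_pos' (fun j _ => bb_nonneg j x) ⟨i, Finset.mem_univ i, hi⟩
  have hN2 : ∀ x : X, 0 < ∑ j, bb psi j x ^ 2 := by
    intro x
    obtain ⟨i, hi⟩ := bb_pos hcov x
    exact Finset.sum_pos' (fun j _ => sq_nonneg _) ⟨i, Finset.mem_univ i, by positivity⟩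
  let Q1 : Fin (t.card + 1) → X → ℝ := fun i x => bb psi i x / ∑ j, bb psi j x
  let Q2 : Fin (t.card + 1) → X → ℝ := fun i x => bb psi i x / Real.sqrt (∑ j, bb psi j x ^ 2)
  have hQ1s : ∀ i, SmX (Q1 i) := fun i =>
    (hbs i).div (SmX.sum _ hbs) (fun x => (hN1 x).ne')
  have hQ2s : ∀ i, SmX (Q2 i) := fun i =>
    (hbs i).div ((SmX.sum _ (fun j => (hbs j).pow 2)).sqrt (fun x => (hN2 x).ne'))
      (fun x => (Real.sqrt_pos.2 (hN2 x)).ne')
  have hQ1z : ∀ i, ∀ x ∈ (psi i).source, 3 / 4 ≤ ‖psi i x‖ → Q1 i x = 0 := by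
    intro i x hx h
    show bb psi i x / _ = 0
    rw [bb_zero_of_norm i hx h, zero_div]
  have hQ2z : ∀ i, ∀ x ∈ (psi i).source, 3 / 4 ≤ ‖psi i x‖ → Q2 i x = 0 := by
    intro i x hx h
    show bb psi i x / _ = 0
    rw [bb_zero_of_norm i hx h, zero_div]
  refine ⟨t.card, psi, fun i => pull (psi i) (Q1 i), fun i => pull (psi i) (Q2 i), hpsi0, hpsiS,
    hpsib, ?_, ⟨1 / 8, by norm_num, ?_⟩, ?_, ?_⟩
  · intro i
    refine ⟨pull_smooth (hSm i) (hpsib i) (hQ1s i) (hQ1z i),
      pull_smooth (hSm i) (hpsib i) (hQ2s i) (hQ2z i),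
      fun z => pull_nonneg (fun x => div_nonneg (bb_nonneg i x) (hN1 x).le) z,
      fun z => pull_nonneg (fun x => div_nonneg (bb_nonneg i x) (Real.sqrt_nonneg _)) z,
      fun z hz => ⟨pull_zero hz, pull_zero hz⟩⟩
  · intro z hz
    have hz1 : ‖z‖ < 1 := by linarith
    have hnear := bb_near (psi := psi) (hpsib 0) hz
    constructor
    · show pull (psi 0) (Q1 0) z = 1
      unfold pull
      rw [if_pos hz1]
      show bb psi 0 ((psi 0).symm z) / ∑ j, bb psi j ((psi 0).symm z) = 1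
      simp only [hnear]
      simp
    · show pull (psi 0) (Q2 0) z = 1
      unfold pull
      rw [if_pos hz1]
      show bb psi 0 ((psi 0).symm z) / Real.sqrt (∑ j, bb psi j ((psi 0).symm z) ^ 2) = 1
      simp only [hnear]
      simp
  · intro x
    have h1 : ∀ i, (psi i).source.indicator (fun x => pull (psi i) (Q1 i) (psi i x)) x = Q1 i x := by
      intro i
      by_cases hx : x ∈ (psi i).source
      · rw [indicator_of_mem hx, pull_apply (hQ1z i) hx]
      · rw [indicator_of_notMem hx]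
        show 0 = bb psi i x / _
        rw [bb_notMem i hx, zero_div]
    show ∑ i, (psi i).source.indicator (fun x => pull (psi i) (Q1 i) (psi i x)) x = 1
    simp only [h1]
    show ∑ i, bb psi i x / ∑ j, bb psi j x = 1
    rw [← Finset.sum_div, div_self (hN1 x).ne']
  · intro x
    have h1 : ∀ i, (psi i).source.indicator (fun x => pull (psi i) (Q2 i) (psi i x) ^ 2) x
        = Q2 i x ^ 2 := by
      intro i
      by_cases hx : x ∈ (psi i).source
      · rw [indicator_of_mem hx, pull_apply (hQ2z i) hx]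
      · rw [indicator_of_notMem hx]
        show 0 = (bb psi i x / _) ^ 2
        rw [bb_notMem i hx, zero_div]
        norm_num
    show ∑ i, (psi i).source.indicator (fun x => pull (psi i) (Q2 i) (psi i x) ^ 2) x = 1
    simp only [h1]
    show ∑ i, (bb psi i x / Real.sqrt (∑ j, bb psi j x ^ 2)) ^ 2 = 1
    simp only [div_pow, Real.sq_sqrt (hN2 x).le]
    rw [← Finset.sum_div, div_self (hN2 x).ne']

end NRF
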