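import Pool.Agent.Work.MP_7f974f_gt.Defs

/-!
# Module C: the heat machine (statements)
Kernels are functions `H (s, r, y, ζ)`; the corresponding heat type kernel is
`k(t, x; s, y) = r^(-4) H (s, r, y, (x - y) / r)`, `r = sqrt (t - s)`.
-/

open scoped Manifold ContDiff Topology
open MeasureTheory Set

noncomputable section

namespace NRF

/-- Parameter space `(s, r, y, ζ)` of kernels. -/
abbrev KP := ℝ × ℝ × E4 × E4

section classes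

variable {W : Type} [NormedAddCommGroup W] [NormedSpace ℝ W]

/-- All derivatives have at most polynomial growth in `ζ`, locally uniformly in `(s, r, y)`. -/
def PG (f : KP → W) : Prop :=
  ContDiff ℝ ∞ f ∧ ∀ (k : ℕ) (T : ℝ), ∃ (C : ℝ) (M : ℕ), ∀ (s r : ℝ) (y z : E4),
    |s| ≤ T → |r| ≤ T → ‖y‖ ≤ T → ‖iteratedFDeriv ℝ k f (s, r, y, z)‖ ≤ C * (1 + ‖z‖) ^ M

/-- All derivatives decay rapidly in `ζ`, locally uniformly in `(s, r, y)`. -/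
def RD (f : KP → W) : Prop :=
  ContDiff ℝ ∞ f ∧ ∀ (k M : ℕ) (T : ℝ), ∃ C : ℝ, ∀ (s r : ℝ) (y z : E4),
    |s| ≤ T → |r| ≤ T → ‖y‖ ≤ T → ‖iteratedFDeriv ℝ k f (s, r, y, z)‖ * (1 + ‖z‖) ^ M ≤ C

/-- Derivative of a kernel in the `r` direction. -/
def drK (H : KP → W) (q : KP) : W := fderiv ℝ H q (0, 1, 0, 0)

/-- Derivative of a kernel in the direction `v` of the variable `ζ`. -/
def dzK (v : E4) (H : KP → W) (q : KP) : W := fderiv ℝ H q (0, 0, 0, v)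

/-- `P s y ζ` is a polynomial in `ζ` with coefficients smooth in `(s, y)`. -/
def IsPoly (P : ℝ → E4 → E4 → W) : Prop :=
  ∃ (A : Finset (Fin 4 → ℕ)) (p : (Fin 4 → ℕ) → ℝ × E4 → W), (∀ α, ContDiff ℝ ∞ (p α)) ∧
    ∀ s y z, P s y z = ∑ α ∈ A, (∏ i, z i ^ α i) • p α (s, y)

/-- Coefficient of `r^j` of `r ↦ f (s + r², y + r ζ)`. -/
def tayC (f : ℝ × E4 → W) (j : ℕ) (s : ℝ) (y z : E4) : W :=
  (1 / (j.factorial : ℝ)) • iteratedDeriv j (fun r : ℝ => f (s + r ^ 2, y + r • z)) 0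

/-- Functions on `[0,T] × ℝ⁴` which are `C^k` in space, with all space derivatives of order `≤ k`
continuous in `(t,x)` and bounded by `C`. -/
def NiceE (k : ℕ) (T C : ℝ) (u : ℝ → E4 → W) : Prop :=
  (∀ t ∈ Icc 0 T, ContDiff ℝ k (u t)) ∧
  (∀ j ≤ k, ContinuousOn (fun p : ℝ × E4 => iteratedFDeriv ℝ j (u p.1) p.2) (Icc 0 T ×ˢ univ)) ∧
  ∀ j ≤ k, ∀ t ∈ Icc 0 T, ∀ x, ‖iteratedFDeriv ℝ j (u t) x‖ ≤ C

/-- Continuous functions on `[0,T] × ℝ⁴` bounded by `A`. -/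
def CBE (T A : ℝ) (u : ℝ → E4 → W) : Prop :=
  ContinuousOn (fun p : ℝ × E4 => u p.1 p.2) (Icc 0 T ×ˢ univ) ∧
  ∀ t ∈ Icc 0 T, ∀ x, ‖u t x‖ ≤ A

end classes

/-- The universal cutoff: 1 for `‖x‖ ≤ 3/2`, 0 for `‖x‖ ≥ 2`. -/
def etaBump : ContDiffBump (0 : E4) := ⟨3 / 2, 2, by norm_num, by norm_num⟩

/-- The universal cutoff as a function. -/
def etaC (x : E4) : ℝ := etaBump x

/-- Gaussian `(4π)^(-2) (det a)^(-1/2) exp (- a⁻¹(z,z)/4)`. -/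
def gaussK (a : Matrix (Fin 4) (Fin 4) ℝ) (z : E4) : ℝ :=
  ((4 * Real.pi) ^ 2 * Real.sqrt a.det)⁻¹ * Real.exp (-(∑ i, ∑ j, a⁻¹ i j * z i * z j) / 4)

/-- A local model: the operator `-a^ij ∂_i ∂_j + b^i ∂_i + c` on `V`-valued functions on `ℝ⁴`, with
coefficients depending smoothly on time and trivial outside of the ball of radius 3, and a cutoff
function `χ` supported in the unit ball. -/
structure Model (V : Type) [NormedAddCommGroup V] [InnerProductSpace ℝ V] where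
  a : ℝ × E4 → Matrix (Fin 4) (Fin 4) ℝ
  b : ℝ × E4 → Fin 4 → V →L[ℝ] V
  c : ℝ × E4 → V →L[ℝ] V
  chi : E4 → ℝ
  a_smooth : ∀ i j, ContDiff ℝ ∞ fun q => a q i j
  b_smooth : ∀ i, ContDiff ℝ ∞ fun q => b q i
  c_smooth : ContDiff ℝ ∞ c
  chi_smooth : ContDiff ℝ ∞ chi
  a_pos : ∀ q, (a q).PosDef
  a_out : ∀ q : ℝ × E4, 3 ≤ ‖q.2‖ → a q = 1
  b_out : ∀ q : ℝ × E4, 3 ≤ ‖q.2‖ → ∀ i, b q i = 0
  c_out : ∀ q : ℝ × E4, 3 ≤ ‖q.2‖ → c q = 0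
  chi_nonneg : ∀ z, 0 ≤ chi z
  chi_supp : ∀ z, 1 ≤ ‖z‖ → chi z = 0

variable {V : Type} [NormedAddCommGroup V] [InnerProductSpace ℝ V] [FiniteDimensional ℝ V]

/-- The operator of a model. -/
def Model.op (m : Model V) (t : ℝ) (u : E4 → V) (x : E4) : V :=
  -(∑ i, ∑ j, m.a (t, x) i j • pd i (pd j u) x) + (∑ i, m.b (t, x) i (pd i u x)) +
    m.c (t, x) (u x)

/-- The operator `2 r² r⁴ (∂_t + L) r^(-4)` of kernels (up to the factor 2), in the variables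
`(s, r, y, ζ)`: if `k = r^(-4) H(s, r, y, (x-y)/r)`, then `(∂_t + L_x) k = r^(-6) (calL H)`. -/
def Model.calL (m : Model V) (H : KP → (V →L[ℝ] V)) (q : KP) : V →L[ℝ] V :=
  (1 / 2 : ℝ) • (q.2.1 • drK H q - dzK q.2.2.2 H q - (4 : ℝ) • H q)
  - (∑ i, ∑ j, m.a (q.1 + q.2.1 ^ 2, q.2.2.1 + q.2.1 • q.2.2.2) i j •
      dzK (bv i) (dzK (bv j) H) q)
  + (∑ i, q.2.1 • (m.b (q.1 + q.2.1 ^ 2, q.2.2.1 + q.2.1 • q.2.2.2) i).comp (dzK (bv i) H q))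
  + q.2.1 ^ 2 • (m.c (q.1 + q.2.1 ^ 2, q.2.2.1 + q.2.1 • q.2.2.2)).comp (H q)

/-- The coefficient of `r^j` (`j ≥ 1`) in the expansion of the operator
`-a(s+r²,y+rζ) ∂∂ + r b(s+r²,y+rζ) ∂ + r² c(s+r²,y+rζ)` applied to a function `G` of `ζ`. -/
def Model.opTay (m : Model V) (j : ℕ) (G : E4 → (V →L[ℝ] V)) (s : ℝ) (y z : E4) : V →L[ℝ] V :=
  -(∑ i, ∑ l, tayC (fun q => m.a q i l) j s y z • pd i (pd l G) z)
  + (∑ i, (tayC (fun q => m.b q i) (j - 1) s y z).comp (pd i G z))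
  + (if 2 ≤ j then (tayC m.c (j - 2) s y z).comp (G z) else 0)

/-- Formal solution `Σ r^w F_w`, `F_w = Gaussian * P_w`, of `calL F = 0`. -/
structure Model.IsFormal (m : Model V) (P : ℕ → ℝ → E4 → E4 → (V →L[ℝ] V)) : Prop where
  poly : ∀ w, IsPoly (P w)
  zero : ∀ s y z, P 0 s y z = ContinuousLinearMap.id ℝ V
  recur : ∀ (w : ℕ) (s : ℝ) (y z : E4),
    (1 / 2 : ℝ) • (((w : ℝ) - 4) • (gaussK (m.a (s, y)) z • P w s y z)
        - fderiv ℝ (fun x => gaussK (m.a (s, y)) x • P w s y x) z z)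
    - (∑ i, ∑ j, m.a (s, y) i j • pd i (pd j fun x => gaussK (m.a (s, y)) x • P w s y x) z)
    + ∑ k ∈ Finset.range w, m.opTay (w - k) (fun x => gaussK (m.a (s, y)) x • P k s y x) s y z = 0

/-- The truncated and localised kernel of a formal solution. -/
def Model.kerH (m : Model V) (P : ℕ → ℝ → E4 → E4 → (V →L[ℝ] V)) (N : ℕ) (q : KP) : V →L[ℝ] V :=
  (etaC (q.2.2.1 + q.2.1 • q.2.2.2) * m.chi q.2.2.1 * gaussK (m.a (q.1, q.2.2.1)) q.2.2.2) •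
    ∑ w ∈ Finset.range (N + 1), q.2.1 ^ w • P w q.1 q.2.2.1 q.2.2.2

/-! ## C1-C6: the parametrix -/

/-- C1: Taylor coefficients and remainder of `f (s + r², y + r ζ)`. -/
def claimTay : Prop :=
  ∀ (W : Type) [NormedAddCommGroup W] [NormedSpace ℝ W] [FiniteDimensional ℝ W]
    (f : ℝ × E4 → W), ContDiff ℝ ∞ f → (∃ c0 : W, ∀ q : ℝ × E4, 3 ≤ ‖q.2‖ → f q = c0) →
    PG (fun q : KP => f (q.1 + q.2.1 ^ 2, q.2.2.1 + q.2.1 • q.2.2.2)) ∧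
    (∀ j, IsPoly (tayC f j)) ∧
    ∀ J : ℕ, ∃ rem : KP → W, PG rem ∧ ∀ q : KP,
      f (q.1 + q.2.1 ^ 2, q.2.2.1 + q.2.1 • q.2.2.2) =
        (∑ j ∈ Finset.range (J + 1), q.2.1 ^ j • tayC f j q.1 q.2.2.1 q.2.2.2) +
          q.2.1 ^ (J + 1) • rem q

/-- C2: inversion of `(w + ζ∂_ζ)/2 - a^ij(s,y) ∂_i ∂_j` on polynomials, `w ≥ 1`. -/
def claimInv : Prop :=
  ∀ (W : Type) [NormedAddCommGroup W] [NormedSpace ℝ W] [FiniteDimensional ℝ W]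
    (a : ℝ × E4 → Matrix (Fin 4) (Fin 4) ℝ), (∀ i j, ContDiff ℝ ∞ fun q => a q i j) →
    ∀ (w : ℕ), 1 ≤ w → ∀ P : ℝ → E4 → E4 → W, IsPoly P → ∃ Q : ℝ → E4 → E4 → W, IsPoly Q ∧
      ∀ s y z, (1 / 2 : ℝ) • ((w : ℝ) • Q s y z + fderiv ℝ (Q s y) z z)
        - (∑ i, ∑ j, a (s, y) i j • pd i (pd j (Q s y)) z) = P s y z

/-- C3: existence of the formal solution. -/
def claimFormal : Prop :=
  ∀ (V : Type) [NormedAddCommGroup V] [InnerProductSpace ℝ V] [FiniteDimensional ℝ V]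
    (m : Model V), ∃ P : ℕ → ℝ → E4 → E4 → (V →L[ℝ] V), m.IsFormal P

/-- C4a: calculus of the classes `PG` and `RD`. -/
def claimRD : Prop :=
  (∀ (W W' W'' : Type) [NormedAddCommGroup W] [NormedSpace ℝ W] [NormedAddCommGroup W']
    [NormedSpace ℝ W'] [NormedAddCommGroup W''] [NormedSpace ℝ W''] (B : W →L[ℝ] W' →L[ℝ] W'')
    (f : KP → W) (g : KP → W'),
    (PG f → PG g → PG fun q => B (f q) (g q)) ∧ (PG f → RD g → RD fun q => B (f q) (g q))) ∧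
  (∀ (W : Type) [NormedAddCommGroup W] [NormedSpace ℝ W] (f g : KP → W) (v : KP),
    (PG f → PG g → PG fun q => f q + g q) ∧ (RD f → RD g → RD fun q => f q + g q) ∧
    (PG f → PG fun q => fderiv ℝ f q v) ∧ (RD f → RD fun q => fderiv ℝ f q v) ∧
    (RD f → PG f)) ∧
  (∀ (W : Type) [NormedAddCommGroup W] [NormedSpace ℝ W] (P : ℝ → E4 → E4 → W), IsPoly P →
    PG fun q : KP => P q.1 q.2.2.1 q.2.2.2)

/-- C4b: Gaussians. -/
def claimGauss : Prop :=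
  (∀ a : ℝ × E4 → Matrix (Fin 4) (Fin 4) ℝ, (∀ i j, ContDiff ℝ ∞ fun q => a q i j) →
    (∀ q, (a q).PosDef) → RD fun q : KP => gaussK (a (q.1, q.2.2.1)) q.2.2.2) ∧
  (∀ a : Matrix (Fin 4) (Fin 4) ℝ, a.PosDef → ∫ z, gaussK a z = 1)

/-- C5: properties of the localised kernel and of its error. -/
def claimParam : Prop :=
  ∀ (V : Type) [NormedAddCommGroup V] [InnerProductSpace ℝ V] [FiniteDimensional ℝ V]
    (m : Model V) (P : ℕ → ℝ → E4 → E4 → (V →L[ℝ] V)), m.IsFormal P → ∀ N : ℕ,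
    RD (m.kerH P N) ∧
    (∀ s y, ∫ z, m.kerH P N (s, 0, y, z) = m.chi y • ContinuousLinearMap.id ℝ V) ∧
    ∃ H' : KP → (V →L[ℝ] V), RD H' ∧ (∀ q : KP, 1 ≤ ‖q.2.2.1‖ → H' q = 0) ∧
      (∀ q : KP, 2 ≤ ‖q.2.2.1 + q.2.1 • q.2.2.2‖ → H' q = 0) ∧
      ∀ q : KP, m.calL (m.kerH P N) q = q.2.1 ^ (N + 1) • H' q

/-! ## C7: operators with kernels in `ℝ⁴` -/

/-- The operator `g ↦ ∫ H(s, r, x - rζ, ζ) g(x - rζ) dζ`. -/
def Tker (H : KP → (V →L[ℝ] V)) (s r : ℝ) (g : E4 → V) (x : E4) : V :=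
  ∫ z, H (s, r, x - r • z, z) (g (x - r • z))

/-- `H` vanishes for `‖y‖ ≥ 1` and for `‖y + rζ‖ ≥ 2`. -/
def KSupp (H : KP → (V →L[ℝ] V)) : Prop :=
  (∀ q : KP, 1 ≤ ‖q.2.2.1‖ → H q = 0) ∧ ∀ q : KP, 2 ≤ ‖q.2.2.1 + q.2.1 • q.2.2.2‖ → H q = 0

/-- `Q w (t,x) = ∫_0^t T_H(σ, sqrt(t-σ)) w_σ dσ`. -/
def Qop (H : KP → (V →L[ℝ] V)) (w : ℝ → E4 → V) (t : ℝ) (x : E4) : V :=
  ∫ σ in (0 : ℝ)..t, Tker H σ (Real.sqrt (t - σ)) (w σ) x

/-- `R w (t,x) = ∫_0^t (t-σ)^((N-1)/2) T_{H'}(σ, sqrt(t-σ)) w_σ dσ`. -/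
def Rop (H' : KP → (V →L[ℝ] V)) (N : ℕ) (w : ℝ → E4 → V) (t : ℝ) (x : E4) : V :=
  ∫ σ in (0 : ℝ)..t, Real.sqrt (t - σ) ^ (N - 1) • Tker H' σ (Real.sqrt (t - σ)) (w σ) x

/-- C7a: `Q` preserves `C^k`. -/
def claimQop : Prop :=
  ∀ (V : Type) [NormedAddCommGroup V] [InnerProductSpace ℝ V] [FiniteDimensional ℝ V]
    (H : KP → (V →L[ℝ] V)), RD H → KSupp H → ∀ (k : ℕ) (T : ℝ), 0 < T →
    ∃ K : ℝ, ∀ (w : ℝ → E4 → V) (A : ℝ), NiceE k T A w → NiceE k T (K * A) (Qop H w)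

/-- C7b: `R` maps bounded continuous functions to `C^k` functions if `N ≥ k + 6`, and it satisfies a
causal estimate. -/
def claimRop : Prop :=
  ∀ (V : Type) [NormedAddCommGroup V] [InnerProductSpace ℝ V] [FiniteDimensional ℝ V]
    (H : KP → (V →L[ℝ] V)), RD H → KSupp H → ∀ (k N : ℕ) (T : ℝ), 0 < T → k + 6 ≤ N →
    ∃ K : ℝ, 0 ≤ K ∧ ∀ (w : ℝ → E4 → V) (A : ℝ), CBE T A w →
      NiceE k T (K * A) (Rop H N w) ∧
      ∀ φ : ℝ → ℝ, ContinuousOn φ (Icc 0 T) → (∀ t ∈ Icc 0 T, ∀ x, ‖w t x‖ ≤ φ t) →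
        ∀ j ≤ k, ∀ t ∈ Icc 0 T, ∀ x,
          ‖iteratedFDeriv ℝ j (Rop H N w t) x‖ ≤ K * ∫ σ in (0 : ℝ)..t, φ σ

/-- C7c: the differential equation in integrated form. -/
def claimPde : Prop :=
  ∀ (V : Type) [NormedAddCommGroup V] [InnerProductSpace ℝ V] [FiniteDimensional ℝ V]
    (m : Model V) (H H' : KP → (V →L[ℝ] V)) (N : ℕ), RD H → KSupp H → RD H' → KSupp H' →
    8 ≤ N → (∀ s y, ∫ z, H (s, 0, y, z) = m.chi y • ContinuousLinearMap.id ℝ V) →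
    (∀ q : KP, m.calL H q = q.2.1 ^ (N + 1) • H' q) →
    ∀ (T : ℝ), 0 < T → ∀ (w : ℝ → E4 → V) (A : ℝ), NiceE 2 T A w → ∀ t ∈ Icc 0 T, ∀ x,
      Qop H w t x =
        ∫ τ in (0 : ℝ)..t, (m.chi x • w τ x - m.op τ (Qop H w τ) x + Rop H' N w τ x)

/-- Local operators of a model: the output of the Euclidean theory. -/
structure LocalOps (m : Model V) (k : ℕ) (T K : ℝ) (Q R : (ℝ → E4 → V) → ℝ → E4 → V) : Prop where
  nonneg : 0 ≤ K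
  Rnice : ∀ w A, CBE T A w → NiceE k T (K * A) (R w)
  Rcausal : ∀ w A, CBE T A w → ∀ φ : ℝ → ℝ, ContinuousOn φ (Icc 0 T) →
    (∀ t ∈ Icc 0 T, ∀ x, ‖w t x‖ ≤ φ t) → ∀ j ≤ k, ∀ t ∈ Icc 0 T, ∀ x,
      ‖iteratedFDeriv ℝ j (R w t) x‖ ≤ K * ∫ σ in (0 : ℝ)..t, φ σ
  Radd : ∀ w w' A, CBE T A w → CBE T A w' → ∀ t ∈ Icc 0 T, ∀ x,
    R (fun s y => w s y + w' s y) t x = R w t x + R w' t x
  Rsmul : ∀ (c : ℝ) w t x, R (fun s y => c • w s y) t x = c • R w t x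
  Rlocal : ∀ w w', (∀ t ∈ Icc 0 T, ∀ x, ‖x‖ ≤ 1 → w t x = w' t x) → ∀ t ∈ Icc 0 T, ∀ x,
    R w t x = R w' t x
  Rsupp : ∀ w t x, 2 ≤ ‖x‖ → R w t x = 0
  Qnice : ∀ w A, NiceE k T A w → NiceE k T (K * A) (Q w)
  Qadd : ∀ w w' A, NiceE k T A w → NiceE k T A w' → ∀ t ∈ Icc 0 T, ∀ x,
    Q (fun s y => w s y + w' s y) t x = Q w t x + Q w' t x
  Qsmul : ∀ (c : ℝ) w t x, Q (fun s y => c • w s y) t x = c • Q w t x
  Qlocal : ∀ w w', (∀ t ∈ Icc 0 T, ∀ x, ‖x‖ ≤ 1 → w t x = w' t x) → ∀ t ∈ Icc 0 T, ∀ x,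
    Q w t x = Q w' t x
  Qsupp : ∀ w t x, 2 ≤ ‖x‖ → Q w t x = 0
  pde : ∀ w A, NiceE k T A w → ∀ t ∈ Icc 0 T, ∀ x,
    Q w t x = ∫ τ in (0 : ℝ)..t, (m.chi x • w τ x - m.op τ (Q w τ) x + R w τ x)

/-- C7: existence of local operators (follows from C3, C5, C7a, C7b, C7c). -/
def claimLocal : Prop :=
  ∀ (V : Type) [NormedAddCommGroup V] [InnerProductSpace ℝ V] [FiniteDimensional ℝ V]
    (m : Model V) (k : ℕ) (T : ℝ), 2 ≤ k → 0 < T →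
    ∃ (K : ℝ) (Q R : (ℝ → E4 → V) → ℝ → E4 → V), LocalOps m k T K Q R

/-! ## C8-C10: bounded geometry -/

/-- An atlas of bounded geometry for a second order operator on `V`-valued functions on `Y`: every
chart carries one of finitely many local models, which describe one and the same operator. -/
structure Geom (Y : Type) [TopologicalSpace Y] (V : Type) [NormedAddCommGroup V]
    [InnerProductSpace ℝ V] where
  I : Type
  J : Type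
  finJ : Finite J
  mod : I → J
  model : J → Model V
  psi : I → OpenPartialHomeomorph Y E4
  target : ∀ i, Metric.closedBall 0 3 ⊆ (psi i).target
  locfin : LocallyFinite fun i => (psi i).symm '' Metric.closedBall 0 2
  mult : ∃ N0 : ℕ, ∀ y : Y, {i | y ∈ (psi i).symm '' Metric.closedBall 0 2}.ncard ≤ N0
  part : ∀ y : Y, ∑ᶠ i, (psi i).source.indicator (fun y => (model (mod i)).chi (psi i y)) y = 1
  trans_smooth : ∀ i i', ContDiffOn ℝ ∞ ((psi i).symm.trans (psi i'))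
    ((psi i).symm.trans (psi i')).source
  trans_bound : ∀ k : ℕ, ∃ C : ℝ, ∀ i i' (x : E4), ‖x‖ ≤ 2 →
    (psi i).symm x ∈ (psi i').symm '' Metric.closedBall 0 2 →
    ‖iteratedFDeriv ℝ k ((psi i).symm.trans (psi i')) x‖ ≤ C
  compat : ∀ i i' (x : E4) (u : E4 → V) (t : ℝ), x ∈ Metric.ball 0 (5 / 2) →
    (psi i).symm x ∈ (psi i').symm '' Metric.ball 0 (5 / 2) →
    ContDiffAt ℝ 2 u (psi i' ((psi i).symm x)) →
    (model (mod i)).op t (fun z => u (psi i' ((psi i).symm z))) x =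
      (model (mod i')).op t u (psi i' ((psi i).symm x))

section geom

variable {Y : Type} [TopologicalSpace Y]

/-- The model of the chart `i`. -/
def Geom.mdl (g : Geom Y V) (i : g.I) : Model V := g.model (g.mod i)

/-- Functions on `[0,T] × Y` which are `C^k` in space, uniformly in the charts. -/
def Geom.Nice (g : Geom Y V) (k : ℕ) (T C : ℝ) (u : ℝ → Y → V) : Prop :=
  ∀ i, NiceE k T C fun t x => etaC x • u t ((g.psi i).symm x)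

/-- `U` solves `∂_t U + L_t U = r`, `U(0) = 0` on `[0,T]`. -/
def Geom.Solves (g : Geom Y V) (T : ℝ) (r U : ℝ → Y → V) : Prop :=
  ∀ i, ∀ t ∈ Icc 0 T, ∀ x : E4, ‖x‖ < 3 / 2 → U t ((g.psi i).symm x) =
    ∫ τ in (0 : ℝ)..t, (r τ ((g.psi i).symm x) -
      (g.mdl i).op τ (fun z => U τ ((g.psi i).symm z)) x)

end geom

/-- C8a: patching. -/
def claimPatch : Prop :=
  ∀ (Y : Type) [TopologicalSpace Y] [T2Space Y] (V : Type) [NormedAddCommGroup V]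
    [InnerProductSpace ℝ V] [FiniteDimensional ℝ V] (g : Geom Y V) (k : ℕ) (T : ℝ),
    ∃ K : ℝ, 0 ≤ K ∧ ∀ (C : ℝ) (v : g.I → ℝ → E4 → V), 0 ≤ C → (∀ i, NiceE k T C (v i)) →
      (∀ i t x, 2 ≤ ‖x‖ → v i t x = 0) →
      g.Nice k T (K * C) fun t y => ∑ᶠ i, (g.psi i).source.indicator (fun y => v i t (g.psi i y)) y

/-- C9: the Duhamel operator, with the tail property. -/
def claimDuhamel : Prop :=
  ∀ (Y : Type) [TopologicalSpace Y] [T2Space Y] (V : Type) [NormedAddCommGroup V]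
    [InnerProductSpace ℝ V] [FiniteDimensional ℝ V] (g : Geom Y V) (k : ℕ) (T : ℝ), 2 ≤ k → 0 < T →
    ∃ (S : (ℝ → Y → V) → ℝ → Y → V) (K : ℝ), 0 ≤ K ∧
      (∀ r C, g.Nice k T C r → g.Nice k T (K * C) (S r) ∧ g.Solves T r (S r)) ∧
      ∀ (D : Set Y), IsCompact D → ∀ δ > 0, ∀ C : ℝ, ∃ D' : Set Y, IsCompact D' ∧
        ∀ r, g.Nice k T C r → (∀ t ∈ Icc 0 T, ∀ y ∈ D', r t y = 0) →
          ∀ i, ∀ t ∈ Icc 0 T, ∀ x : E4, ‖x‖ < 3 / 2 → (g.psi i).symm x ∈ D → ∀ j ≤ k,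
            ‖iteratedFDeriv ℝ j (fun z => S r t ((g.psi i).symm z)) x‖ ≤ δ

/-- C10: the maximum principle for scalar functions. -/
def claimMax : Prop :=
  ∀ (Y : Type) [TopologicalSpace Y] [T2Space Y] (g : Geom Y ℝ), (∀ i q, (g.mdl i).c q = 0) →
    ∀ (T : ℝ), 0 < T → ∀ (q : ℝ → Y → ℝ) (B M : ℝ), (∀ t ∈ Icc 0 T, ∀ y, q t y ≤ B) →
      (∀ i, ContinuousOn (fun p : ℝ × E4 => q p.1 ((g.psi i).symm p.2))
        (Icc 0 T ×ˢ Metric.ball 0 (3 / 2))) →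
      (∀ i, ∀ t ∈ Ioc 0 T, ∀ x ∈ Metric.ball (0 : E4) (3 / 2),
        ContDiffAt ℝ 2 (fun z => q t ((g.psi i).symm z)) x ∧
        ∃ q', HasDerivWithinAt (fun s => q s ((g.psi i).symm x)) q' (Iic t) t ∧
          q' ≤ -(g.mdl i).op t (fun z => q t ((g.psi i).symm z)) x) →
      (∀ y, q 0 y ≤ M) → ∀ t ∈ Icc 0 T, ∀ y, q t y ≤ M

/-- C11: uniqueness in the scalar case. -/
def claimUniq : Prop :=
  ∀ (Y : Type) [TopologicalSpace Y] [T2Space Y] (g : Geom Y ℝ), (∀ i q, (g.mdl i).c q = 0) →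
    ∀ (T C : ℝ), 0 < T → ∀ U : ℝ → Y → ℝ, g.Nice 2 T C U → g.Solves T (fun _ _ => 0) U →
      ∀ t ∈ Icc 0 T, ∀ y, U t y = 0

end NRF
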