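import Pool.Agent.Work.MP_7f974f_gt.Top

/-!
# Module I: the mapping theorem (statements)
Semi-simplicial sets, connectivity, the tower of extensions by cochains, invariant means, transfers,
contractions of bounded cochains, the homotopy addition theorem, Ivanov's comparison.
-/

open scoped Topology unitInterval Topology.Homotopy
open Set

noncomputable section

namespace NRF

/-- Semi-simplicial sets, as contravariant functors on order embeddings. -/
structure DSet where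
  obj : ℕ → Type
  res : ∀ {k m : ℕ}, (Fin (k + 1) ↪o Fin (m + 1)) → obj m → obj k
  res_id : ∀ {m : ℕ} (x : obj m), res (RelEmbedding.refl _) x = x
  res_comp : ∀ {k l m : ℕ} (f : Fin (k + 1) ↪o Fin (l + 1)) (g : Fin (l + 1) ↪o Fin (m + 1))
    (x : obj m), res f (res g x) = res (f.trans g) x

/-- Face maps. -/
def DSet.d (E : DSet) {m : ℕ} (i : Fin (m + 2)) (x : E.obj (m + 1)) : E.obj m :=
  E.res (Fin.succAboveOrderEmb i) x

/-- The embedding of `Fin 1` with value `i`. -/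
def vtxEmb {m : ℕ} (i : Fin (m + 1)) : Fin (0 + 1) ↪o Fin (m + 1) :=
  OrderEmbedding.ofStrictMono (fun _ => i) (by
    intro a b h
    exact absurd h (by have ha := a.isLt; have hb := b.isLt; rw [Fin.lt_def]; omega))

/-- The i-th vertex of a simplex. -/
def DSet.vtx (E : DSet) {m : ℕ} (i : Fin (m + 1)) (x : E.obj m) : E.obj 0 := E.res (vtxEmb i) x

/-- Coboundary of real cochains. -/
def DSet.delta (E : DSet) {m : ℕ} (f : E.obj m → ℝ) (x : E.obj (m + 1)) : ℝ :=
  ∑ i : Fin (m + 2), (-1 : ℝ) ^ (i : ℕ) * f (E.d i x)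

/-- The affine map of standard simplices induced by a map of vertices. -/
def simpMap {k m : ℕ} (f : Fin (k + 1) → Fin (m + 1)) :
    C(stdSimplex ℝ (Fin (k + 1)), stdSimplex ℝ (Fin (m + 1))) :=
  ⟨stdSimplex.map f, stdSimplex.continuous_map _⟩

/-- The singular semi-simplicial set. -/
def sing (Y : Type) [TopologicalSpace Y] : DSet where
  obj m := Simp m Y
  res f s := s.comp (simpMap f)
  res_id s := by
    ext x
    simp only [ContinuousMap.comp_apply, simpMap, ContinuousMap.coe_mk]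
    congr 1
    exact stdSimplex.map_id_apply x
  res_comp f g s := by
    ext x
    simp only [ContinuousMap.comp_apply, simpMap, ContinuousMap.coe_mk]
    congr 1
    rw [stdSimplex.map_comp_apply]
    rfl

/-- Maps of semi-simplicial sets. -/
structure DMap (E E' : DSet) where
  f : ∀ {m : ℕ}, E.obj m → E'.obj m
  nat : ∀ {k m : ℕ} (F : Fin (k + 1) ↪o Fin (m + 1)) (x : E.obj m), E'.res F (f x) = f (E.res F x)

/-- `n`-spheres: compatible families of `n`-simplices on the boundary of an `n+1`-simplex. -/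
structure Sphere (E : DSet) (n : ℕ) where
  x : Fin (n + 2) → E.obj n
  compat : ∀ (i j : Fin (n + 2)) (k : ℕ) (f g : Fin (k + 1) ↪o Fin (n + 1)),
    (∀ t, i.succAbove (f t) = j.succAbove (g t)) → E.res f (x i) = E.res g (x j)

/-- The simplex `w` fills the sphere `S`. -/
def Fills {E : DSet} {n : ℕ} (w : E.obj (n + 1)) (S : Sphere E n) : Prop := ∀ j, E.d j w = S.x j

/-- All `n`-spheres can be filled. -/
def Conn (E : DSet) (n : ℕ) : Prop := ∀ S : Sphere E n, ∃ w, Fills w S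

/-- Image of a sphere. -/
def DMap.sphere {E E' : DSet} (π : DMap E E') {n : ℕ} (S : Sphere E n) : Sphere E' n where
  x j := π.f (S.x j)
  compat i j k f g h := by rw [π.nat, π.nat, S.compat i j k f g h]

/-- Fillings can be lifted. -/
def Lifts {E E' : DSet} (π : DMap E E') (m : ℕ) : Prop :=
  ∀ (S : Sphere E m) (w : E'.obj (m + 1)), Fills w (π.sphere S) → ∃ e, Fills e S ∧ π.f e = w

/-- Bounded functions. -/
def BddBy {α : Type} (B : ℝ) (f : α → ℝ) : Prop := 0 ≤ B ∧ ∀ x, |f x| ≤ B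

/-- Norm one transfers on bounded functions, compatible with faces. -/
structure Transfer {E E' : DSet} (π : DMap E E') where
  T : ∀ {m : ℕ}, (E.obj m → ℝ) → E'.obj m → ℝ
  add : ∀ {m : ℕ} (f g : E.obj m → ℝ) (B : ℝ), BddBy B f → BddBy B g → ∀ y,
    T (fun x => f x + g x) y = T f y + T g y
  smul : ∀ {m : ℕ} (c : ℝ) (f : E.obj m → ℝ) (B : ℝ), BddBy B f → ∀ y,
    T (fun x => c * f x) y = c * T f y
  bound : ∀ {m : ℕ} (f : E.obj m → ℝ) (B : ℝ), BddBy B f → BddBy B (T f)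
  sec : ∀ {m : ℕ} (f : E'.obj m → ℝ) (B : ℝ), BddBy B f → ∀ y, T (fun x => f (π.f x)) y = f y
  nat : ∀ {k m : ℕ} (F : Fin (k + 1) ↪o Fin (m + 1)) (f : E.obj k → ℝ) (B : ℝ), BddBy B f →
    ∀ y : E'.obj m, T (fun x => f (E.res F x)) y = T f (E'.res F y)

/-- Contractions of norm one of the bounded cochains in degrees at most `N`. -/
structure Contr (E : DSet) (N : ℕ) where
  k0 : (E.obj 0 → ℝ) → ℝ
  k : ∀ m : ℕ, (E.obj (m + 1) → ℝ) → E.obj m → ℝ
  k0_add : ∀ (f g : E.obj 0 → ℝ) (B : ℝ), BddBy B f → BddBy B g →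
    k0 (fun x => f x + g x) = k0 f + k0 g
  k0_smul : ∀ (c : ℝ) (f : E.obj 0 → ℝ) (B : ℝ), BddBy B f → k0 (fun x => c * f x) = c * k0 f
  k0_bound : ∀ (f : E.obj 0 → ℝ) (B : ℝ), BddBy B f → |k0 f| ≤ B
  k_add : ∀ (m : ℕ) (f g : E.obj (m + 1) → ℝ) (B : ℝ), BddBy B f → BddBy B g → ∀ y,
    k m (fun x => f x + g x) y = k m f y + k m g y
  k_smul : ∀ (m : ℕ) (c : ℝ) (f : E.obj (m + 1) → ℝ) (B : ℝ), BddBy B f → ∀ y,
    k m (fun x => c * f x) y = c * k m f y
  k_bound : ∀ (m : ℕ) (f : E.obj (m + 1) → ℝ) (B : ℝ), BddBy B f → BddBy B (k m f)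
  zero : ∀ (f : E.obj 0 → ℝ) (B : ℝ), BddBy B f → ∀ e, f e = k0 f + k 0 (E.delta f) e
  succ : ∀ (m : ℕ), m + 1 ≤ N → ∀ (f : E.obj (m + 1) → ℝ) (B : ℝ), BddBy B f → ∀ e,
    f e = E.delta (k m f) e + k (m + 1) (E.delta f) e

/-- Invariant means on bounded functions on an abelian group. -/
structure InvMean (A : Type) [AddCommGroup A] where
  m : (A → ℝ) → ℝ
  add : ∀ (f g : A → ℝ) (B : ℝ), BddBy B f → BddBy B g → m (fun x => f x + g x) = m f + m g
  smul : ∀ (c : ℝ) (f : A → ℝ) (B : ℝ), BddBy B f → m (fun x => c * f x) = c * m f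
  bound : ∀ (f : A → ℝ) (B : ℝ), BddBy B f → |m f| ≤ B
  one : m (fun _ => 1) = 1
  inv : ∀ (a : A) (f : A → ℝ) (B : ℝ), BddBy B f → m (fun x => f (a + x)) = m f

/-- I1: existence of invariant means. -/
def claimMean : Prop := ∀ (A : Type) [AddCommGroup A], Nonempty (InvMean A)

/-- I1': consistent invariant means on the groups of `A`-valued functions on the finite sets of
order embeddings `Fin q ↪o Fin (m+1)`: the restriction along a face pushes the mean forward. -/
def claimMeans : Prop :=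
  ∀ (A : Type) [AddCommGroup A] (q : ℕ), 1 ≤ q →
    ∃ M : ∀ m : ℕ, InvMean ((Fin q ↪o Fin (m + 1)) → A),
      ∀ (k m : ℕ) (F : Fin (k + 1) ↪o Fin (m + 1)) (f : ((Fin q ↪o Fin (k + 1)) → A) → ℝ) (B : ℝ),
        BddBy B f → (M m).m (fun c => f fun G => c (G.trans F)) = (M k).m f

/-! ## Extension by cochains -/

section ext

variable {A : Type} [AddCommGroup A]

/-- Coboundary of `A`-valued cochains on the standard simplex (a cochain with `q+1` vertices is a
function on `Fin (q+1) ↪o Fin (m+1)`). -/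
def cobd {q m : ℕ} (c : (Fin (q + 1) ↪o Fin (m + 1)) → A) (F : Fin (q + 2) ↪o Fin (m + 1)) : A :=
  ∑ i : Fin (q + 2), ((-1 : ℤ) ^ (i : ℕ)) • c ((Fin.succAboveOrderEmb i).trans F)

/-- The extension of `E` by a cochain `z` with values in `A`: simplices `e` of `E` together with an
`A`-valued cochain `c` of degree `q` on the standard simplex with `δ c = e^* z`. -/
def ext (E : DSet) (q : ℕ) (z : E.obj (q + 1) → A) : DSet where
  obj m := {p : E.obj m × ((Fin (q + 1) ↪o Fin (m + 1)) → A) //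
    ∀ F : Fin (q + 2) ↪o Fin (m + 1), cobd p.2 F = z (E.res F p.1)}
  res {k m} f p := ⟨(E.res f p.1.1, fun G => p.1.2 (G.trans f)), by
    intro F
    have h := p.2 (F.trans f)
    rw [← E.res_comp] at h
    exact h⟩
  res_id p := by
    apply Subtype.ext
    apply Prod.ext
    · exact E.res_id _
    · rfl
  res_comp f g p := by
    apply Subtype.ext
    apply Prod.ext
    · exact E.res_comp _ _ _
    · rfl

/-- The projection of the extension. -/
def extProj (E : DSet) (q : ℕ) (z : E.obj (q + 1) → A) : DMap (ext E q z) E where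
  f p := p.1.1
  nat _ _ := rfl

/-- `z` detects fillability of `(q+1)`-spheres. -/
def ZProp (E : DSet) (q : ℕ) (z : E.obj (q + 1) → A) : Prop :=
  ∀ S : Sphere E (q + 1), (∃ w, Fills w S) ↔
    ∑ j : Fin (q + 3), ((-1 : ℤ) ^ (j : ℕ)) • z (S.x j) = 0

/-- Every `q`-sphere has fillings with arbitrary value of `z`. -/
def SProp (E : DSet) (q : ℕ) (z : E.obj (q + 1) → A) : Prop :=
  ∀ (S : Sphere E q) (a : A), ∃ w : E.obj (q + 1), Fills w S ∧ z w = a

end ext

/-- I2: connectivity of the extension. -/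
def claimExtConn : Prop :=
  ∀ (E : DSet) (A : Type) [AddCommGroup A] (q : ℕ) (z : E.obj (q + 1) → A), 1 ≤ q →
    (∀ m ≤ q, Conn E m) → ZProp E q z → SProp E q z → ∀ m ≤ q + 1, Conn (ext E q z) m

/-- I3: lifting of fillings to the extension. -/
def claimExtLift : Prop :=
  ∀ (E E0 : DSet) (π : DMap E E0) (A : Type) [AddCommGroup A] (q : ℕ) (z : E.obj (q + 1) → A),
    (∀ m, q ≤ m → Lifts π m) → ∀ m, q + 1 ≤ m → ∀ (S : Sphere (ext E q z) m)
      (w : E0.obj (m + 1)), Fills w (π.sphere ((extProj E q z).sphere S)) →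
      ∃ e : (ext E q z).obj (m + 1), Fills e S ∧ π.f ((extProj E q z).f e) = w

/-- I4: transfer for the extension. -/
def claimExtTransfer : Prop :=
  ∀ (E : DSet) (A : Type) [AddCommGroup A] (q : ℕ) (z : E.obj (q + 1) → A), 1 ≤ q →
    ZProp E q z → Nonempty (Transfer (extProj E q z))

/-- I5: contraction from connectivity. -/
def claimContrOf : Prop :=
  ∀ (E : DSet) (N : ℕ), Nonempty (E.obj 0) → (∀ m ≤ N, Conn E m) → Nonempty (Contr E N)

/-- I6: contractions descend along transfers. -/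
def claimContrDown : Prop :=
  ∀ (E E0 : DSet) (π : DMap E E0) (_ : Transfer π) (N : ℕ), Nonempty (Contr E N) →
    Nonempty (Contr E0 N)

/-! ## Homotopy addition theorem -/

/-- The vertex 0 of a singular sphere. -/
def Sphere.apex {Y : Type} [TopologicalSpace Y] {n : ℕ} (S : Sphere (sing Y) n) : Y :=
  (show Simp n Y from S.x 1) (stdSimplex.vertex 0)

/-- Obstruction classes for spheres with a given vertex 0. In `add`, `S0` is a sphere and `S j` is
the sphere consisting of the j-th face of `S0` and of cones over its faces with apex `p`. -/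
structure HAT (Y : Type) [TopologicalSpace Y] (p : Y) (n : ℕ) (A : Type) [AddCommGroup A]
    (ob : Sphere (sing Y) n → A) : Prop where
  fill : ∀ S : Sphere (sing Y) n, S.apex = p → (ob S = 0 ↔ ∃ w, Fills w S)
  add : ∀ (S0 : Sphere (sing Y) n) (S : Fin (n + 2) → Sphere (sing Y) n),
    (∀ j, (S j).apex = p) → (∀ j, (S j).x 0 = S0.x j) →
    (∀ (j j' : Fin (n + 2)) (i i' : Fin (n + 1)),
      (∀ t : Fin n, j.succAbove (i.succAbove t) = j'.succAbove (i'.succAbove t)) →
      (S j).x i.succ = (S j').x i'.succ) →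
    ((∃ w, Fills w S0) ↔ ∑ j : Fin (n + 2), ((-1 : ℤ) ^ (j : ℕ)) • ob (S j) = 0)
  real : ∀ S : Sphere (sing Y) n, S.apex = p → ∀ a : A, ∃ S' : Sphere (sing Y) n,
    (∀ j : Fin (n + 1), S'.x j.succ = S.x j.succ) ∧ ob S' = a

/-- The (abelian) homotopy group `π_(k+2)(Y,p)`, written additively. -/
abbrev PiA (Y : Type) [TopologicalSpace Y] (p : Y) (k : ℕ) : Type :=
  Additive (HomotopyGroup (Fin (k + 2)) Y p)

/-- The class of a cubical loop. -/
def cls {Y : Type} [TopologicalSpace Y] {p : Y} {k : ℕ} (g : GenLoop (Fin (k + 2)) Y p) :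
    PiA Y p k :=
  Additive.ofMul (Quotient.mk _ g : HomotopyGroup (Fin (k + 2)) Y p)

/-- I7a: the homotopy addition theorem for cubes (with constant bottom faces except the last one). -/
def claimCube : Prop :=
  ∀ (Y : Type) [TopologicalSpace Y] (p : Y) (k : ℕ) (a : Fin (k + 3) → GenLoop (Fin (k + 2)) Y p)
    (b : GenLoop (Fin (k + 2)) Y p),
    (∃ w : C(Fin (k + 3) → I, Y), (∀ j t, w (j.insertNth 1 t) = a j t) ∧
      (∀ t, w ((Fin.last (k + 2)).insertNth 0 t) = b t) ∧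
      ∀ j, j ≠ Fin.last (k + 2) → ∀ t, w (j.insertNth 0 t) = p) ↔
    (∑ j : Fin (k + 3), ((-1 : ℤ) ^ (j : ℕ)) • cls (a j)) + ((-1 : ℤ) ^ (k + 3)) • cls b = 0

/-- The properties of the standard maps from cubes onto simplices. -/
structure IsQ (q : ∀ n : ℕ, C(Fin n → I, stdSimplex ℝ (Fin (n + 1)))) : Prop where
  surj : ∀ n, Function.Surjective (q n)
  face : ∀ (n : ℕ) (j : Fin (n + 1)) (t : Fin n → I),
    q (n + 1) (j.insertNth 1 t) = simpMap j.castSucc.succAbove (q n t)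
  last : ∀ (n : ℕ) (t : Fin n → I),
    q (n + 1) ((Fin.last n).insertNth 0 t) = simpMap (Fin.last (n + 1)).succAbove (q n t)
  inj : ∀ (n : ℕ) (t t' : Fin n → I), q n t = q n t' → (∀ i, (q n t) i ≠ 0) → t = t'
  bdry : ∀ (n : ℕ) (t : Fin n → I), (∃ i, (q n t) i = 0) ↔ t ∈ Cube.boundary (Fin n)
  low : ∀ (n : ℕ) (t : Fin (n + 1) → I) (j : Fin (n + 1)), j ≠ Fin.last n → t j = 0 →
    ∃ i i', i ≠ i' ∧ (q (n + 1) t) i = 0 ∧ (q (n + 1) t) i' = 0

/-- I7b: existence of the maps from cubes to simplices: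
`q(t) = (1 - t_0, t_0 (1 - t_1), ..., t_0 ... t_(n-2) (1 - t_(n-1)), t_0 ... t_(n-1))`. -/
def claimQ : Prop := ∃ q, IsQ q

/-- I7c: the homotopy addition theorem for simplices with trivial boundaries. -/
def claimSph : Prop :=
  ∀ q, IsQ q → ∀ (Y : Type) [TopologicalSpace Y] (p : Y) (k : ℕ) (S : Sphere (sing Y) (k + 2))
    (g : Fin (k + 4) → GenLoop (Fin (k + 2)) Y p),
    (∀ (j : Fin (k + 4)) (x : stdSimplex ℝ (Fin (k + 3))), (∃ i, x i = 0) →
      (show Simp (k + 2) Y from S.x j) x = p) →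
    (∀ j t, g j t = (show Simp (k + 2) Y from S.x j) (q (k + 2) t)) →
    ((∃ w, Fills w S) ↔ ∑ j : Fin (k + 4), ((-1 : ℤ) ^ (j : ℕ)) • cls (g j) = 0)

/-- I7: the homotopy addition theorem. -/
def claimHAT : Prop :=
  ∀ (Y : Type) [TopologicalSpace Y] (p : Y) (n : ℕ), 2 ≤ n →
    ∃ (A : Type) (_ : AddCommGroup A) (ob : Sphere (sing Y) n → A), HAT Y p n A ob

/-- Stage `n` of the tower over the singular semi-simplicial set. -/
structure Stage (Y : Type) [TopologicalSpace Y] (n : ℕ) where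
  E : DSet
  π : DMap E (sing Y)
  tr : Transfer π
  pt : E.obj 0
  conn : ∀ m, m < n → Conn E m
  lifts : ∀ m, n ≤ m + 1 → Lifts π m

/-- I8: the cocycle of a stage. -/
def claimZS : Prop :=
  ∀ (Y : Type) [TopologicalSpace Y] (q : ℕ) (s : Stage Y (q + 1)) (A : Type) [AddCommGroup A]
    (ob : Sphere (sing Y) (q + 1) → A), 1 ≤ q →
    HAT Y ((show Simp 0 Y from s.π.f s.pt) (stdSimplex.vertex 0)) (q + 1) A ob →
    ∃ z : s.E.obj (q + 1) → A, ZProp s.E q z ∧ SProp s.E q z

/-- I9: one step of the tower. -/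
def claimStep : Prop :=
  ∀ (Y : Type) [TopologicalSpace Y] (q : ℕ), 1 ≤ q → Nonempty (Stage Y (q + 1)) →
    Nonempty (Stage Y (q + 2))

/-- I10: the start of the tower. -/
def claimStart : Prop :=
  ∀ (Y : Type) [TopologicalSpace Y] [SimplyConnectedSpace Y], Nonempty (Stage Y 2)

/-- I11: contraction of the bounded cochains of a simply connected space. -/
def claimContr : Prop :=
  ∀ (Y : Type) [TopologicalSpace Y] [SimplyConnectedSpace Y] (N : ℕ), Nonempty (Contr (sing Y) N)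

/-! ## Ivanov's comparison, alternation, and the mapping theorem -/

/-- Group actions on semi-simplicial sets. -/
structure DAct (G : Type) [Group G] (E : DSet) where
  a : ∀ {m : ℕ}, G → E.obj m → E.obj m
  one : ∀ {m : ℕ} (x : E.obj m), a 1 x = x
  mul : ∀ {m : ℕ} (g h : G) (x : E.obj m), a (g * h) x = a g (a h x)
  nat : ∀ {k m : ℕ} (F : Fin (k + 1) ↪o Fin (m + 1)) (g : G) (x : E.obj m),
    E.res F (a g x) = a g (E.res F x)

/-- I12: comparison with the group. -/
def claimIvanov : Prop :=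
  ∀ (E : DSet) (G : Type) [Group G] (α : DAct G E) (m : ℕ), Nonempty (Contr E (m + 1)) →
    ∀ (r : E.obj 0 → G), (∀ g v, r (α.a g v) = g * r v) →
    ∀ β : E.obj (m + 1) → ℝ, BddBy 1 β → (∀ g e, β (α.a g e) = β e) → (∀ e, E.delta β e = 0) →
    ∃ (b : (Fin (m + 2) → G) → ℝ) (h : E.obj m → ℝ), BddBy 1 b ∧
      (∀ (g : G) v, b (fun i => g * v i) = b v) ∧
      (∀ v : Fin (m + 3) → G, ∑ i : Fin (m + 3), (-1 : ℝ) ^ (i : ℕ) * b (fun t => v (i.succAbove t))
        = 0) ∧
      (∀ g e, h (α.a g e) = h e) ∧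
      ∀ e, β e = b (fun i => r (E.vtx i e)) + E.delta h e

/-- I13: alternation of homogeneous group cocycles. -/
def claimAlt : Prop :=
  ∀ (G : Type) [Group G] (m : ℕ) (b : (Fin (m + 2) → G) → ℝ), BddBy 1 b →
    (∀ (g : G) v, b (fun i => g * v i) = b v) →
    (∀ v : Fin (m + 3) → G, ∑ i : Fin (m + 3), (-1 : ℝ) ^ (i : ℕ) * b (fun t => v (i.succAbove t))
      = 0) →
    ∃ (b' : (Fin (m + 2) → G) → ℝ) (c : (Fin (m + 1) → G) → ℝ), BddBy 1 b' ∧
      (∀ (g : G) v, b' (fun i => g * v i) = b' v) ∧ (∀ (g : G) v, c (fun i => g * v i) = c v) ∧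
      (∀ v : Fin (m + 3) → G, ∑ i : Fin (m + 3), (-1 : ℝ) ^ (i : ℕ) *
        b' (fun t => v (i.succAbove t)) = 0) ∧
      (∀ (s : Equiv.Perm (Fin (m + 2))) v, b' (fun i => v (s i)) = ((Equiv.Perm.sign s : ℤ) : ℝ) * b' v) ∧
      ∀ v : Fin (m + 2) → G, b v = b' v +
        ∑ i : Fin (m + 2), (-1 : ℝ) ^ (i : ℕ) * c (fun t => v (i.succAbove t))

/-- I14: lifting singular simplices to the universal covering. -/
def claimLiftSimp : Prop :=
  ∀ (X : Type) [TopologicalSpace X] (U : UCover X) (k : ℕ) (s : Simp k X),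
    (∃ t : Simp k U.Y, ∀ x, U.p (t x) = s x) ∧
    ∀ t t' : Simp k U.Y, (∀ x, U.p (t x) = s x) → (∀ x, U.p (t' x) = s x) →
      ∃ a : U.G, ∀ x, t' x = a • t x

/-- I15: the mapping theorem in degree 4. -/
def claimMapping : Prop :=
  ∀ (X : Type) [TopologicalSpace X] (U : UCover X) (β : Chain 4 X →ₗ[ℝ] ℝ) (r : U.Y → U.G),
    (∀ (a : U.G) y, r (a • y) = a * r y) →
    (∀ s : Simp 4 X, |β (Finsupp.single s 1)| ≤ 1) → (∀ c : Chain 5 X, β (bdry c) = 0) →
    ∃ (b : (Fin 5 → U.G) → ℝ) (h : Chain 3 X →ₗ[ℝ] ℝ), BddBy 1 b ∧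
      (∀ (g : U.G) v, b (fun i => g * v i) = b v) ∧
      (∀ v : Fin 6 → U.G, ∑ i : Fin 6, (-1 : ℝ) ^ (i : ℕ) * b (fun t => v (i.succAbove t)) = 0) ∧
      (∀ (s : Equiv.Perm (Fin 5)) v, b (fun i => v (s i)) = ((Equiv.Perm.sign s : ℤ) : ℝ) * b v) ∧
      ∀ (s : Simp 4 X) (t : Simp 4 U.Y), (∀ x, U.p (t x) = s x) →
        β (Finsupp.single s 1) =
          b (fun i => r (t (stdSimplex.vertex i))) + h (bdry (Finsupp.single s 1))

end NRF
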