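import Pool.Agent.Work.MP_7f974f_gt.Stmts_B
import Pool.Agent.Work.MP_7f974f_gt.Stmts_I

/-!
# Module H: upper bound for the simplicial volume (definitions and statements)
Integrals over cubes and simplices, the cochains of a group cocycle, Bernstein smoothing of singular
simplices, local degrees.
-/

open scoped Manifold ContDiff Topology
open MeasureTheory Set

noncomputable section

namespace NRF.H

/-! ## Calculus on cubes and simplices -/

/-- The closed unit cube. -/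
abbrev cube (k : ℕ) : Set (Fin k → ℝ) := Icc 0 1

/-- Partial derivative within the cube. -/
def cd {k : ℕ} (f : (Fin k → ℝ) → ℝ) (i : Fin k) (t : Fin k → ℝ) : ℝ :=
  fderivWithin ℝ f (cube k) t (Pi.single i 1)

/-- Jacobian determinant of `k` functions on the `k`-cube. -/
def jac {k : ℕ} (f : Fin k → (Fin k → ℝ) → ℝ) (t : Fin k → ℝ) : ℝ :=
  Matrix.det (Matrix.of fun i j => cd (f j) i t)

/-- The integral of `f0 df_1 ∧ … ∧ df_k` over the cube. -/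
def cint {k : ℕ} (f0 : (Fin k → ℝ) → ℝ) (f : Fin k → (Fin k → ℝ) → ℝ) : ℝ :=
  ∫ t in cube k, f0 t * jac f t

/-- Insert the value `a` at place `i`. -/
def ins {k : ℕ} (i : Fin (k + 1)) (a : ℝ) (t : Fin k → ℝ) : Fin (k + 1) → ℝ := i.insertNth a t

/-- The map from the cube to the simplex,
`(1 - t_0, t_0 (1 - t_1), …, t_0 … t_(k-2) (1 - t_(k-1)), t_0 … t_(k-1))`. -/
def qR : (k : ℕ) → (Fin k → ℝ) → Fin (k + 1) → ℝ
  | 0, _ => fun _ => 1
  | k + 1, t => Fin.cons (1 - t 0) (fun i => t 0 * qR k (Fin.tail t) i)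

theorem qR_nonneg (k : ℕ) (t : Fin k → ℝ) (h : ∀ i, 0 ≤ t i ∧ t i ≤ 1) (i : Fin (k + 1)) :
    0 ≤ qR k t i := by
  induction k with
  | zero => simp [qR]
  | succ k ih =>
    refine Fin.cases ?_ (fun j => ?_) i
    · simp only [qR, Fin.cons_zero]
      linarith [(h 0).2]
    · simp only [qR, Fin.cons_succ]
      exact mul_nonneg (h 0).1 (ih (Fin.tail t) (fun i => h i.succ) j)

theorem qR_sum (k : ℕ) (t : Fin k → ℝ) : ∑ i, qR k t i = 1 := by
  induction k with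
  | zero => simp [qR]
  | succ k ih =>
    rw [Fin.sum_univ_succ]
    simp only [qR, Fin.cons_zero, Fin.cons_succ]
    rw [← Finset.mul_sum, ih]
    ring

/-- Clamping to the cube. -/
def clamp {k : ℕ} (t : Fin k → ℝ) : Fin k → ℝ := fun i => max 0 (min 1 (t i))

/-- The map from the cube to the simplex, as a total map with values in the standard simplex. -/
def qS (k : ℕ) (t : Fin k → ℝ) : stdSimplex ℝ (Fin (k + 1)) :=
  ⟨qR k (clamp t), qR_nonneg k (clamp t) (fun i => ⟨le_max_left _ _,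
    max_le (by norm_num) (min_le_left _ _)⟩), qR_sum k (clamp t)⟩

/-- A function on a prism over a simplex, in the coordinates `(u, t)` of the cube. -/
def prT {β : Type} {k : ℕ} (F : stdSimplex ℝ (Fin (k + 1)) → ℝ → β) (T : Fin (k + 1) → ℝ) : β :=
  F (qS k (Fin.tail T)) (T 0)

/-- H1: integrability. -/
def claimCint : Prop :=
  ∀ (k : ℕ) (f0 : (Fin k → ℝ) → ℝ) (f : Fin k → (Fin k → ℝ) → ℝ),
    ContinuousOn f0 (cube k) → (∀ j, ContDiffOn ℝ 1 (f j) (cube k)) →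
    IntegrableOn (fun t => f0 t * jac f t) (cube k)

/-- H2: Stokes on cubes. -/
def claimStokes : Prop :=
  ∀ (k : ℕ) (f0 : (Fin (k + 1) → ℝ) → ℝ) (f : Fin k → (Fin (k + 1) → ℝ) → ℝ),
    ContDiffOn ℝ 1 f0 (cube (k + 1)) → (∀ j, ContDiffOn ℝ 2 (f j) (cube (k + 1))) →
    ∫ t in cube (k + 1), jac (Fin.cons f0 f : Fin (k + 1) → (Fin (k + 1) → ℝ) → ℝ) t =
      ∑ i : Fin (k + 1), (-1 : ℝ) ^ (i : ℕ) *
        (cint (fun t => f0 (ins i 1 t)) (fun j t => f j (ins i 1 t)) -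
          cint (fun t => f0 (ins i 0 t)) (fun j t => f j (ins i 0 t)))

/-- H3: the map from the cube to the simplex: regularity and faces. -/
def claimQS : Prop :=
  (∀ k i, ContDiff ℝ ∞ (fun t : Fin k → ℝ => qR k t i)) ∧
  (∀ k, ∀ t ∈ cube k, ∀ i, (qS k t) i = qR k t i) ∧
  (∀ k, Continuous (qS k)) ∧
  (∀ k, ∀ t ∈ cube k, ∀ i : Fin (k + 1), ins i 1 t ∈ cube (k + 1) ∧ ins i 0 t ∈ cube (k + 1)) ∧
  (∀ k, ∀ t ∈ cube k, ∀ i : Fin (k + 1),
    qS (k + 1) (ins i 1 t) = faceIncl k i.castSucc (qS k t)) ∧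
  (∀ k, ∀ t ∈ cube k, qS (k + 1) (ins (Fin.last k) 0 t) = faceIncl k (Fin.last (k + 1)) (qS k t)) ∧
  (∀ k, ∀ t ∈ cube (k + 1), ∀ a ∈ Icc (0 : ℝ) 1, ∀ i : Fin (k + 2), i ≠ Fin.last (k + 1) →
    qS (k + 2) (ins i 0 (Function.update t (Fin.last k) a)) = qS (k + 2) (ins i 0 t))

/-- H4: Stokes on simplices. -/
def claimStokesSimp : Prop :=
  ∀ (k : ℕ) (f0 : stdSimplex ℝ (Fin (k + 2)) → ℝ) (f : Fin k → stdSimplex ℝ (Fin (k + 2)) → ℝ),
    ContDiffOn ℝ 1 (fun t => f0 (qS (k + 1) t)) (cube (k + 1)) →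
    (∀ j, ContDiffOn ℝ 2 (fun t => f j (qS (k + 1) t)) (cube (k + 1))) →
    ∫ t in cube (k + 1), jac (Fin.cons (fun t => f0 (qS (k + 1) t)) (fun j t => f j (qS (k + 1) t)) :
        Fin (k + 1) → (Fin (k + 1) → ℝ) → ℝ) t =
      ∑ i : Fin (k + 2), (-1 : ℝ) ^ (i : ℕ) *
        cint (fun t => f0 (faceIncl k i (qS k t))) (fun j t => f j (faceIncl k i (qS k t)))

/-- H5: Stokes on prisms. -/
def claimStokesPrism : Prop :=
  ∀ (k : ℕ) (f0 : stdSimplex ℝ (Fin (k + 2)) → ℝ → ℝ)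
    (f : Fin (k + 1) → stdSimplex ℝ (Fin (k + 2)) → ℝ → ℝ),
    ContDiffOn ℝ 1 (prT f0) (cube (k + 2)) → (∀ j, ContDiffOn ℝ 2 (prT (f j)) (cube (k + 2))) →
    ∫ T in cube (k + 2), jac (Fin.cons (prT f0) (fun j => prT (f j)) :
        Fin (k + 2) → (Fin (k + 2) → ℝ) → ℝ) T =
      cint (fun t => f0 (qS (k + 1) t) 1) (fun j t => f j (qS (k + 1) t) 1) -
        cint (fun t => f0 (qS (k + 1) t) 0) (fun j t => f j (qS (k + 1) t) 0) -
        ∑ i : Fin (k + 2), (-1 : ℝ) ^ (i : ℕ) *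
          cint (prT fun x u => f0 (faceIncl k i x) u)
            (fun j => prT fun x u => f j (faceIncl k i x) u)

/-! ## Group cocycles -/

section group

variable {G : Type}

/-- Homogeneous cocycles. -/
def Cocyc (b : (Fin 5 → G) → ℝ) : Prop :=
  ∀ v : Fin 6 → G, ∑ i : Fin 6, (-1 : ℝ) ^ (i : ℕ) * b (fun t => v (i.succAbove t)) = 0

/-- Alternating cochains. -/
def Altern (b : (Fin 5 → G) → ℝ) : Prop :=
  ∀ (s : Equiv.Perm (Fin 5)) v, b (fun i => v (s i)) = ((Equiv.Perm.sign s : ℤ) : ℝ) * b v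

/-- The function `∑ b(v) Ψ_{v_0} det(∂Ψ_{v_1}, …, ∂Ψ_{v_4})`. -/
def bform (b : (Fin 5 → G) → ℝ) (Ψ : G → (Fin 4 → ℝ) → ℝ) (t : Fin 4 → ℝ) : ℝ :=
  ∑ᶠ v : Fin 5 → G, b v * (Ψ (v 0) t * jac (fun j : Fin 4 => Ψ (v j.succ)) t)

/-- Its integral over the cube. -/
def bint (b : (Fin 5 → G) → ℝ) (Ψ : G → (Fin 4 → ℝ) → ℝ) : ℝ := ∫ t in cube 4, bform b Ψ t

/-- The prism functional for a 3-simplex. -/
def bJ (b : (Fin 5 → G) → ℝ) (ψ : G → stdSimplex ℝ (Fin 4) → ℝ) : ℝ :=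
  bint b (fun g => prT fun x u => (1 - u) * ψ g x + u * ∑ i, x i * ψ g (stdSimplex.vertex i))

/-- Evaluation at the vertices. -/
def bW (b : (Fin 5 → G) → ℝ) (a : G → Fin 5 → ℝ) : ℝ := ∑ᶠ v : Fin 5 → G, b v * ∏ i, a (v i) i

end group

/-- H6: the closed form of a cocycle on the 5-cube. -/
def claimBStokes : Prop :=
  ∀ (G : Type) (b : (Fin 5 → G) → ℝ) (S : Finset G) (Ψ : G → (Fin 5 → ℝ) → ℝ), Cocyc b →
    (∀ g, ContDiffOn ℝ 2 (Ψ g) (cube 5)) → (∀ g, g ∉ S → ∀ t ∈ cube 5, Ψ g t = 0) →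
    (∀ t ∈ cube 5, ∑ g ∈ S, Ψ g t = 1) →
    ∑ i : Fin 5, (-1 : ℝ) ^ (i : ℕ) * (bint b (fun g t => Ψ g (ins i 1 t)) -
      bint b (fun g t => Ψ g (ins i 0 t))) = 0

/-- H7: the integral for affine functions. -/
def claimBLin : Prop :=
  ∀ (G : Type) (b : (Fin 5 → G) → ℝ) (S : Finset G) (a : G → Fin 5 → ℝ), Altern b →
    (∀ g, g ∉ S → a g = 0) → bint b (fun g t => ∑ i, (qS 4 t) i * a g i) = bW b a

/-- H8: comparison of the integral of the form with the evaluation at the vertices. -/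
def claimPrismB : Prop :=
  ∀ (G : Type) (b : (Fin 5 → G) → ℝ) (S : Finset G) (ψ : G → stdSimplex ℝ (Fin 5) → ℝ),
    Cocyc b → Altern b → (∀ g, ContDiffOn ℝ 2 (fun t => ψ g (qS 4 t)) (cube 4)) →
    (∀ g, g ∉ S → ∀ x, ψ g x = 0) → (∀ x, ∑ g ∈ S, ψ g x = 1) →
    bint b (fun g t => ψ g (qS 4 t)) = bW b (fun g i => ψ g (stdSimplex.vertex i)) -
      ∑ i : Fin 5, (-1 : ℝ) ^ (i : ℕ) * bJ b (fun g x => ψ g (faceIncl 3 i x))

/-- H9: invariance under the group. -/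
def claimBInv : Prop :=
  ∀ (G : Type) [Group G] (b : (Fin 5 → G) → ℝ), (∀ (g : G) v, b (fun i => g * v i) = b v) →
    (∀ (a : G) (Ψ : G → (Fin 4 → ℝ) → ℝ) t, bform b (fun g => Ψ (a * g)) t = bform b Ψ t) ∧
    (∀ (a : G) (Ψ : G → (Fin 4 → ℝ) → ℝ), bint b (fun g => Ψ (a * g)) = bint b Ψ) ∧
    (∀ (a : G) (ψ : G → stdSimplex ℝ (Fin 4) → ℝ), bJ b (fun g => ψ (a * g)) = bJ b ψ) ∧
    (∀ (a : G) (A : G → Fin 5 → ℝ), bW b (fun g => A (a * g)) = bW b A)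

/-- H10: the averaging of a group cocycle is cohomologous to its values. -/
def claimWR : Prop :=
  ∀ (Y G : Type) [Group G] [MulAction G Y] (b : (Fin 5 → G) → ℝ) (phi : Y → ℝ) (r : Y → G),
    Cocyc b → (∀ (g : G) v, b (fun i => g * v i) = b v) → (∀ (a : G) y, r (a • y) = a * r y) →
    (∀ y, {a : G | phi (a⁻¹ • y) ≠ 0}.Finite) → (∀ y, ∑ᶠ a : G, phi (a⁻¹ • y) = 1) →
    ∃ H : (Fin 4 → Y) → ℝ, (∀ (a : G) y, H (fun i => a • y i) = H y) ∧
      ∀ y : Fin 5 → Y, b (fun i => r (y i)) = bW b (fun g i => phi (g⁻¹ • y i)) +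
        ∑ i : Fin 5, (-1 : ℝ) ^ (i : ℕ) * H (fun j => y (i.succAbove j))

/-! ## The universal covering, lifted charts and the local coefficient -/

section cover

variable {X : Type} [TopologicalSpace X] [ChartedSpace E4 X]

/-- The coefficient of the 4-form in a lifted chart. -/
def wloc (U : UCover X) (b : (Fin 5 → U.G) → ℝ) (phi : U.Y → ℝ) (c : LCh U) (z : E4) : ℝ :=
  ∑ᶠ v : Fin 5 → U.G, b v * (phi ((v 0)⁻¹ • c.psi.symm z) *
    Matrix.det (Matrix.of fun i j : Fin 4 =>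
      fderiv ℝ (fun w => phi ((v j.succ)⁻¹ • c.psi.symm w)) z (bv i)))

open scoped Classical in
/-- The coefficient of the 4-form in a chart of `X`. -/
def wcoef (U : UCover X) (b : (Fin 5 → U.G) → ℝ) (phi : U.Y → ℝ) (e : Ch X) (z : E4) : ℝ :=
  if h : ∃ c : LCh U, c.e = e ∧ z ∈ c.psi.target then wloc U b phi h.choose z else 0

/-- Smooth maps from a cube to `X`. -/
def Sm {k : ℕ} (f : (Fin k → ℝ) → X) : Prop :=
  ContMDiffOn 𝓘(ℝ, Fin k → ℝ) (𝓡 4) ∞ f (cube k)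

/-- Smooth singular simplices. -/
def SmS {k : ℕ} (s : Simp k X) : Prop := Sm fun t => s (qS k t)

/-- The integral of `f dq_1 ∧ … ∧ dq_4` over a singular simplex. -/
def FS (f : X → ℝ) (q : Fin 4 → X → ℝ) (s : Simp 4 X) : ℝ :=
  cint (fun t => f (s (qS 4 t))) (fun j t => q j (s (qS 4 t)))

/-- Extension by zero of a function on the domain of a chart, multiplied by a cutoff function. -/
def cutoff (e : Ch X) (κ : X → ℝ) (F : E4 → ℝ) (x : X) : ℝ :=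
  e.1.source.indicator (fun x => κ x * F (e.1 x)) x

end cover

/-- H11: lifted charts exist, can be made small, and can be translated. -/
def claimLCh : Prop :=
  ∀ (X : Type) [TopologicalSpace X] [ChartedSpace E4 X] (U : UCover X),
    (∀ (y : U.Y) (e : Ch X) (O : Set U.Y), IsOpen O → y ∈ O → U.p y ∈ e.1.source →
      ∃ c : LCh U, c.e = e ∧ y ∈ c.psi.source ∧ c.psi.source ⊆ O ∧
        ∀ y ∈ c.psi.source, ∀ y' ∈ c.psi.source, U.p y = U.p y' → y = y') ∧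
    ∀ (c : LCh U) (a : U.G), ∃ c' : LCh U, c'.e = c.e ∧ c'.psi.target = c.psi.target ∧
      ∀ z ∈ c.psi.target, c'.psi.symm z = a • c.psi.symm z

/-- H12: continuity and local finiteness of the translates of `phi`. -/
def claimLocFin : Prop :=
  ∀ (X : Type) [TopologicalSpace X] [T2Space X] [ChartedSpace E4 X] (U : UCover X)
    (g : Metric X) (K : ℝ) (phi : U.Y → ℝ), IsEqPart U g K phi → Continuous phi ∧
    ∀ C : Set U.Y, IsCompact C →
      ∃ O : Set U.Y, IsOpen O ∧ C ⊆ O ∧ {a : U.G | ∃ y ∈ O, phi (a⁻¹ • y) ≠ 0}.Finite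

/-- H13: the local coefficient does not depend on the lift. -/
def claimWcoef : Prop :=
  ∀ (X : Type) [TopologicalSpace X] [T2Space X] [ChartedSpace E4 X] (U : UCover X)
    (b : (Fin 5 → U.G) → ℝ) (phi : U.Y → ℝ), (∀ (g : U.G) v, b (fun i => g * v i) = b v) →
    ∀ (e : Ch X) (c : LCh U), c.e = e → ∀ z ∈ c.psi.target, wcoef U b phi e z = wloc U b phi c z

/-- H14: regularity of the local coefficient. -/
def claimWsmooth : Prop :=
  ∀ (X : Type) [TopologicalSpace X] [T2Space X] [ChartedSpace E4 X] [IsManifold (𝓡 4) ∞ X]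
    (U : UCover X) (g : Metric X) (K : ℝ) (b : (Fin 5 → U.G) → ℝ) (phi : U.Y → ℝ),
    (∀ (g : U.G) v, b (fun i => g * v i) = b v) → IsEqPart U g K phi →
    ∀ e : Ch X, ContDiffOn ℝ 1 (wcoef U b phi e) e.1.target

/-- H15: bound for the local coefficient. -/
def claimWbound : Prop :=
  ∀ (X : Type) [TopologicalSpace X] [T2Space X] [ChartedSpace E4 X] [IsManifold (𝓡 4) ∞ X]
    (U : UCover X) (g : Metric X) (K : ℝ) (b : (Fin 5 → U.G) → ℝ) (phi : U.Y → ℝ),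
    (∀ (g : U.G) v, b (fun i => g * v i) = b v) → BddBy 1 b → IsEqPart U g K phi →
    ∀ e : Ch X, ∀ z ∈ e.1.target, |wcoef U b phi e z| ≤ 24 * K ^ 4 * Real.sqrt (g.coef e z).det

/-- H16: the pull back of the partition of unity to a smooth lifted simplex. -/
def claimPsi : Prop :=
  ∀ (X : Type) [TopologicalSpace X] [T2Space X] [ChartedSpace E4 X] [IsManifold (𝓡 4) ∞ X]
    (U : UCover X) (g : Metric X) (K : ℝ) (phi : U.Y → ℝ), IsEqPart U g K phi →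
    ∀ (k : ℕ) (s : Simp k X) (τ : Simp k U.Y), (∀ x, U.p (τ x) = s x) →
      (∃ S : Finset U.G, ∀ x, (∀ a, a ∉ S → phi (a⁻¹ • τ x) = 0) ∧
        ∑ a ∈ S, phi (a⁻¹ • τ x) = 1) ∧
      (SmS s → ∀ a : U.G, ContDiffOn ℝ 2 (fun t => phi (a⁻¹ • τ (qS k t))) (cube k))

/-- H17: the pull back of the 4-form to a smooth lifted simplex. -/
def claimPull : Prop :=
  ∀ (X : Type) [TopologicalSpace X] [T2Space X] [ChartedSpace E4 X] [IsManifold (𝓡 4) ∞ X]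
    (U : UCover X) (g : Metric X) (K : ℝ) (b : (Fin 5 → U.G) → ℝ) (phi : U.Y → ℝ),
    (∀ (g : U.G) v, b (fun i => g * v i) = b v) → IsEqPart U g K phi →
    ∀ (s : Simp 4 X) (τ : Simp 4 U.Y), (∀ x, U.p (τ x) = s x) → SmS s →
    ∀ (e : Ch X), ∀ t ∈ cube 4, s (qS 4 t) ∈ e.1.source →
      bform b (fun a t => phi (a⁻¹ • τ (qS 4 t))) t =
        wcoef U b phi e (e.1 (s (qS 4 t))) * jac (fun j t => (e.1 (s (qS 4 t))) j) t

/-- H18: cutoff functions. -/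
def claimCut : Prop :=
  ∀ (X : Type) [TopologicalSpace X] [T2Space X] [ChartedSpace E4 X] [IsManifold (𝓡 4) ∞ X]
    (n : ℕ∞) (e : Ch X) (κ : X → ℝ) (F : E4 → ℝ), ContMDiff (𝓡 4) 𝓘(ℝ, ℝ) n κ →
    tsupport κ ⊆ e.1.source → ContDiffOn ℝ n F e.1.target →
    ContMDiff (𝓡 4) 𝓘(ℝ, ℝ) n (cutoff e κ F)

/-- H19: decomposition of the pull back of the form by a partition of unity. -/
def claimSum : Prop :=
  ∀ (X : Type) [TopologicalSpace X] [T2Space X] [ChartedSpace E4 X] [IsManifold (𝓡 4) ∞ X]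
    (U : UCover X) (g : Metric X) (K : ℝ) (b : (Fin 5 → U.G) → ℝ) (phi : U.Y → ℝ),
    (∀ (g : U.G) v, b (fun i => g * v i) = b v) → IsEqPart U g K phi →
    ∀ (m : ℕ) (e : Fin m → Ch X) (χ κ : Fin m → X → ℝ) (O : Fin m → Set X),
    (∀ j, IsOpen (O j)) → (∀ j, tsupport (χ j) ⊆ O j) → (∀ j, O j ⊆ (e j).1.source) →
    (∀ j, ∀ x ∈ O j, κ j x = 1) → (∀ x, ∑ j, χ j x = 1) →
    ∀ (s : Simp 4 X) (τ : Simp 4 U.Y), (∀ x, U.p (τ x) = s x) → SmS s → ∀ t ∈ cube 4,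
      bform b (fun a t => phi (a⁻¹ • τ (qS 4 t))) t =
        ∑ j, cutoff (e j) (χ j) (wcoef U b phi (e j)) (s (qS 4 t)) *
          jac (fun k t => cutoff (e j) (κ j) (fun z => z k) (s (qS 4 t))) t

/-- H20: five functions on a 4-manifold are dependent. -/
def claimJac0 : Prop :=
  ∀ (X : Type) [TopologicalSpace X] [ChartedSpace E4 X] [IsManifold (𝓡 4) ∞ X]
    (s : (Fin 5 → ℝ) → X) (f : Fin 5 → X → ℝ), Sm s →
    (∀ i, ContMDiff (𝓡 4) 𝓘(ℝ, ℝ) 1 (f i)) → ∀ t ∈ cube 5, jac (fun j t => f j (s t)) t = 0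

/-- H21: the localised cochains are closed. -/
def claimFclosed : Prop :=
  ∀ (X : Type) [TopologicalSpace X] [ChartedSpace E4 X] [IsManifold (𝓡 4) ∞ X]
    (f : X → ℝ) (q : Fin 4 → X → ℝ), ContMDiff (𝓡 4) 𝓘(ℝ, ℝ) 1 f →
    (∀ j, ContMDiff (𝓡 4) 𝓘(ℝ, ℝ) ∞ (q j)) →
    (∀ s : Simp 5 X, SmS s → ∑ i : Fin 6, (-1 : ℝ) ^ (i : ℕ) * FS f q (s.comp (faceIncl 4 i)) = 0) ∧
    ∀ (s s' : Simp 4 X) (H : stdSimplex ℝ (Fin 5) → ℝ → X), Sm (prT H) →
      (∀ x, H x 0 = s x) → (∀ x, H x 1 = s' x) →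
      (∀ x : stdSimplex ℝ (Fin 5), (∃ i, x i = 0) → ∀ u ∈ Icc (0 : ℝ) 1, f (H x u) = 0) →
      FS f q s' = FS f q s

/-- H22: the localised cochain on an affine simplex. -/
def claimAff : Prop :=
  ∀ (X : Type) [TopologicalSpace X] [T2Space X] [ChartedSpace E4 X] [IsManifold (𝓡 4) ∞ X]
    (e : Ch X) (p : Fin 5 → E4) (s : Simp 4 X) (χ κ : X → ℝ) (O : Set X) (F : E4 → ℝ),
    convexHull ℝ (range p) ⊆ e.1.target →
    0 < Matrix.det (Matrix.of fun i j : Fin 4 => (p j.succ - p 0) i) →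
    (∀ t : stdSimplex ℝ (Fin 5), s t = e.1.symm (∑ i, t.1 i • p i)) →
    Continuous χ → (∀ x ∈ tsupport χ, e.1 x ∈ interior (convexHull ℝ (range p))) →
    IsOpen O → tsupport χ ⊆ O → O ⊆ e.1.source → (∀ x ∈ O, κ x = 1) →
    ContinuousOn F e.1.target →
    FS (cutoff e χ F) (fun j => cutoff e κ (fun z => z j)) s = ∫ z in e.1.target, χ (e.1.symm z) * F z

/-- H22': affine simplices are smooth. -/
def claimAffSm : Prop :=
  ∀ (X : Type) [TopologicalSpace X] [ChartedSpace E4 X] [IsManifold (𝓡 4) ∞ X]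
    (e : Ch X) (p : Fin 5 → E4) (s : Simp 4 X), convexHull ℝ (range p) ⊆ e.1.target →
    (∀ t : stdSimplex ℝ (Fin 5), s t = e.1.symm (∑ i, t.1 i • p i)) → SmS s

/-- H23: sum of the local integrals. -/
def claimVolSum : Prop :=
  ∀ (X : Type) [TopologicalSpace X] [T2Space X] [CompactSpace X] [ChartedSpace E4 X]
    [IsManifold (𝓡 4) ∞ X] [MeasurableSpace X] [BorelSpace X] (g : Metric X) (m : ℕ)
    (e : Fin m → Ch X) (χ : Fin m → X → ℝ) (F : Fin m → E4 → ℝ) (B : ℝ), 0 ≤ B →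
    (∀ j, Continuous (χ j)) → (∀ j x, 0 ≤ χ j x) → (∀ x, ∑ j, χ j x = 1) →
    (∀ j, tsupport (χ j) ⊆ (e j).1.source) →
    (∀ j, ContinuousOn (F j) (e j).1.target) →
    (∀ j, ∀ z ∈ (e j).1.target, |F j z| ≤ B * Real.sqrt (g.coef (e j) z).det) →
    ∑ j, ∫ z in (e j).1.target, χ j ((e j).1.symm z) * F j z ≤ B * g.volume

/-! ## Smoothing of singular simplices -/

section bern

/-- The empirical distribution of a sample. -/
def emp {k n : ℕ} (v : Fin (n + 1) → Fin (k + 1)) : stdSimplex ℝ (Fin (k + 1)) :=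
  ⟨fun i => (∑ j, if v j = i then 1 else 0) / (n + 1), fun i => by positivity, by
    rw [← Finset.sum_div, Finset.sum_comm]
    have h : (n : ℝ) + 1 ≠ 0 := by positivity
    simp [h]⟩

/-- Bernstein polynomials on the simplex. -/
def bern {E : Type} [NormedAddCommGroup E] [NormedSpace ℝ E] {k : ℕ} (n : ℕ)
    (f : stdSimplex ℝ (Fin (k + 1)) → E) (x : Fin (k + 1) → ℝ) : E :=
  ∑ v : Fin (n + 1) → Fin (k + 1), (∏ j, x (v j)) • f (emp v)

end bern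

/-- H24: properties of the Bernstein polynomials. -/
def claimBern : Prop :=
  ∀ (E : Type) [NormedAddCommGroup E] [NormedSpace ℝ E] (k : ℕ)
    (f : stdSimplex ℝ (Fin (k + 1)) → E), Continuous f →
    (∀ n, ContDiff ℝ ∞ (bern n f)) ∧
    (∀ (n l : ℕ) (g : Fin (l + 1) → Fin (k + 1)) (x : stdSimplex ℝ (Fin (l + 1))),
      bern n f (stdSimplex.map g x).1 = bern n (fun y => f (stdSimplex.map g y)) x.1) ∧
    (∀ n i, bern n f (stdSimplex.vertex i : stdSimplex ℝ (Fin (k + 1))).1 =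
      f (stdSimplex.vertex i)) ∧
    ∀ ε > 0, ∃ n0, ∀ n, n0 ≤ n → ∀ x : stdSimplex ℝ (Fin (k + 1)), ‖bern n f x.1 - f x‖ < ε

/-- H25: an embedding with a smooth retraction of a neighbourhood. -/
def claimRetr : Prop :=
  ∀ (X : Type) [TopologicalSpace X] [T2Space X] [CompactSpace X] [Nonempty X] [ChartedSpace E4 X]
    [IsManifold (𝓡 4) ∞ X],
    ∃ (N : ℕ) (ι : X → EuclideanSpace ℝ (Fin N)) (r : EuclideanSpace ℝ (Fin N) → X) (δ : ℝ),
      0 < δ ∧ ContMDiff (𝓡 4) (𝓡 N) ∞ ι ∧ (∀ x, r (ι x) = x) ∧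
      ContMDiffOn (𝓡 N) (𝓡 4) ∞ r {q | ∃ x, ‖q - ι x‖ < δ}

/-- H26: smoothing of finitely many singular simplices. -/
def claimSmoothing : Prop :=
  ∀ (X : Type) [TopologicalSpace X] [T2Space X] [CompactSpace X] [Nonempty X] [ChartedSpace E4 X]
    [IsManifold (𝓡 4) ∞ X] (V : Set (X × X)), IsOpen V → (∀ x, (x, x) ∈ V) →
    ∀ A : Finset (Σ k : ℕ, Simp k X),
    ∃ (S : (k : ℕ) → Simp k X → Simp k X)
      (H : (k : ℕ) → Simp k X → stdSimplex ℝ (Fin (k + 1)) → ℝ → X),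
      (∀ (k : ℕ) (s : Simp k X), (⟨k, s⟩ : Σ k : ℕ, Simp k X) ∈ A →
        SmS (S k s) ∧
        ContinuousOn (fun p : stdSimplex ℝ (Fin (k + 1)) × ℝ => H k s p.1 p.2)
          (univ ×ˢ Icc 0 1) ∧
        (∀ x, H k s x 0 = s x) ∧ (∀ x, H k s x 1 = S k s x) ∧
        (∀ i, ∀ u ∈ Icc (0 : ℝ) 1, H k s (stdSimplex.vertex i) u = s (stdSimplex.vertex i)) ∧
        (∀ x, ∀ u ∈ Icc (0 : ℝ) 1, (s x, H k s x u) ∈ V) ∧
        (SmS s → Sm (prT (H k s)))) ∧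
      ∀ (k : ℕ) (s : Simp (k + 1) X), (⟨k + 1, s⟩ : Σ k : ℕ, Simp k X) ∈ A →
        ∀ i, S k (s.comp (faceIncl k i)) = (S (k + 1) s).comp (faceIncl k i)

/-! ## Topology -/

/-- H27: homotopy lifting with fixed vertices. -/
def claimHomLift : Prop :=
  ∀ (X : Type) [TopologicalSpace X] (U : UCover X) (k : ℕ) (s s' : Simp k X)
    (H : stdSimplex ℝ (Fin (k + 1)) → ℝ → X),
    ContinuousOn (fun p : stdSimplex ℝ (Fin (k + 1)) × ℝ => H p.1 p.2) (univ ×ˢ Icc 0 1) →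
    (∀ x, H x 0 = s x) → (∀ x, H x 1 = s' x) →
    (∀ i, ∀ u ∈ Icc (0 : ℝ) 1, H (stdSimplex.vertex i) u = s (stdSimplex.vertex i)) →
    ∀ t : Simp k U.Y, (∀ x, U.p (t x) = s x) →
      ∃ t' : Simp k U.Y, (∀ x, U.p (t' x) = s' x) ∧
        ∀ i, t' (stdSimplex.vertex i) = t (stdSimplex.vertex i)

/-- H28: invariant cochains on the covering descend. -/
def claimDescend : Prop :=
  ∀ (X : Type) [TopologicalSpace X] (U : UCover X) (k : ℕ) (A : Simp k U.Y → ℝ),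
    (∀ (a : U.G) (t t' : Simp k U.Y), (∀ x, t' x = a • t x) → A t' = A t) →
    ∃ B : Chain k X →ₗ[ℝ] ℝ, ∀ (s : Simp k X) (t : Simp k U.Y), (∀ x, U.p (t x) = s x) →
      B (Finsupp.single s 1) = A t

/-- H29: `∂∂ = 0`, and fundamental cycles can be changed by boundaries. -/
def claimBdry : Prop :=
  (∀ (X : Type) [TopologicalSpace X] (k : ℕ) (c : Chain (k + 2) X), bdry (bdry c) = 0) ∧
  ∀ (X : Type) [TopologicalSpace X] [ChartedSpace E4 X] [MeasurableSpace X] [BorelSpace X]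
    (c : Chain 4 X) (b : Chain 5 X), IsFundamentalCycle c → IsFundamentalCycle (c + bdry b)

/-- H30: duality (Hahn-Banach). -/
def claimDual : Prop :=
  ∀ (X : Type) [TopologicalSpace X] (c : Chain 4 X), ∃ β : Chain 4 X →ₗ[ℝ] ℝ,
    (∀ s : Simp 4 X, |β (Finsupp.single s 1)| ≤ 1) ∧ (∀ b : Chain 5 X, β (bdry b) = 0) ∧
    ∀ B : ℝ, (∀ b : Chain 5 X, B ≤ norm1 (c + bdry b)) → B ≤ β c

/-- H31: equivariant maps to the group. -/
def claimEquiv : Prop :=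
  ∀ (X : Type) [TopologicalSpace X] (U : UCover X),
    ∃ r : U.Y → U.G, ∀ (a : U.G) y, r (a • y) = a * r y

/-- Local comparison of a fundamental cycle with affine simplices. -/
structure DegData (X : Type) [TopologicalSpace X] [ChartedSpace E4 X] (c : Chain 4 X) (m : ℕ) where
  e : Fin m → Ch X
  p : Fin m → Fin 5 → E4
  s : Fin m → Simp 4 X
  b : Fin m → Chain 5 X
  d : Fin m → Chain 4 X
  N : Fin m → Set X
  N' : Fin m → Set X
  openN : ∀ j, IsOpen (N j)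
  openN' : ∀ j, IsOpen (N' j)
  clos : ∀ j, closure (N' j) ⊆ N j
  cover : ∀ x, ∃ j, x ∈ N' j
  src : ∀ j, N j ⊆ (e j).1.source
  int : ∀ j, ∀ x ∈ N j, (e j).1 x ∈ interior (convexHull ℝ (range (p j)))
  tgt : ∀ j, convexHull ℝ (range (p j)) ⊆ (e j).1.target
  pos : ∀ j, 0 < Matrix.det (Matrix.of fun i k : Fin 4 => (p j k.succ - p j 0) i)
  eq_s : ∀ j, ∀ t : stdSimplex ℝ (Fin 5), s j t = (e j).1.symm (∑ i, t.1 i • p j i)
  rel : ∀ j, c - Finsupp.single (s j) 1 = bdry (b j) + d j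
  avoid : ∀ j, ∀ r ∈ (d j).support, Disjoint (N j) (range r)
  face : ∀ j, ∀ t : stdSimplex ℝ (Fin 5), (∃ i, t i = 0) → s j t ∉ N j

/-- H32: existence of such data. -/
def claimDeg : Prop :=
  ∀ (X : Type) [TopologicalSpace X] [T2Space X] [CompactSpace X] [ChartedSpace E4 X]
    [IsManifold (𝓡 4) ∞ X] [MeasurableSpace X] [BorelSpace X] (c : Chain 4 X),
    IsFundamentalCycle c → ∃ m, Nonempty (DegData X c m)

/-- H33: partitions of unity. -/
def claimPart : Prop :=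
  ∀ (X : Type) [TopologicalSpace X] [T2Space X] [CompactSpace X] [ChartedSpace E4 X]
    [IsManifold (𝓡 4) ∞ X] (m : ℕ) (N N' : Fin m → Set X), (∀ j, IsOpen (N j)) →
    (∀ j, IsOpen (N' j)) → (∀ j, closure (N' j) ⊆ N j) → (∀ x, ∃ j, x ∈ N' j) →
    ∃ (χ κ : Fin m → X → ℝ) (O : Fin m → Set X),
      (∀ j, ContMDiff (𝓡 4) 𝓘(ℝ, ℝ) ∞ (χ j) ∧ ContMDiff (𝓡 4) 𝓘(ℝ, ℝ) ∞ (κ j)) ∧
      (∀ j x, 0 ≤ χ j x) ∧ (∀ x, ∑ j, χ j x = 1) ∧ (∀ j, IsOpen (O j)) ∧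
      (∀ j, tsupport (χ j) ⊆ O j ∩ N' j) ∧ (∀ j, O j ⊆ N j) ∧
      (∀ j, tsupport (κ j) ⊆ N j) ∧ ∀ j, ∀ x ∈ O j, κ j x = 1

end NRF.H
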