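import Pool.Agent.Work.MP_7f974f_gt.Defs

/-!
# Top level decomposition of the proof of `NRF.Target`
`claimIndex` (modules A, B, C, D, E), `claimFlow` (A, B, F), `claimCover` (I), `claimSimp` (B, H, I),
`claimGrad` (A, C, G); the assembly of `Target` from these five is `Assembly.lean`.
-/

open scoped Manifold ContDiff Topology
open MeasureTheory Set

noncomputable section

namespace NRF

/-- `|Ric₀|²` in coordinates: `g^ik g^jl R_ij R_kl - s²/4`. -/
def ric0SqC (G : E4 → Matrix (Fin 4) (Fin 4) ℝ) (y : E4) : ℝ :=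
  (∑ i, ∑ j, ∑ k, ∑ l, (G y)⁻¹ i k * (G y)⁻¹ j l * ricci G i j y * ricci G k l y) -
    (scalC G y) ^ 2 / 4

/-- Squared norm of the trace free Ricci tensor of a metric, as a function on `X`. -/
def Metric.ric0Sq {X : Type} [TopologicalSpace X] [ChartedSpace E4 X] (g : Metric X) (x : X) : ℝ :=
  ric0SqC (g.coef (chAt x)) (chartAt E4 x x)

/-- A universal covering of `X`, with its group of deck transformations. -/
structure UCover (X : Type) [TopologicalSpace X] where
  Y : Type
  G : Type
  [topY : TopologicalSpace Y]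
  [t2Y : T2Space Y]
  [scY : SimplyConnectedSpace Y]
  [grp : Group G]
  [act : MulAction G Y]
  p : Y → X
  cov : IsCoveringMap p
  surj : Function.Surjective p
  cont_smul : ∀ a : G, Continuous (fun y : Y => a • y)
  p_smul : ∀ (a : G) (y : Y), p (a • y) = p y
  trans : ∀ y y' : Y, p y = p y' → ∃ a : G, a • y = y'
  free : ∀ (a : G) (y : Y), a • y = y → a = 1

attribute [instance] UCover.topY UCover.t2Y UCover.scY UCover.grp UCover.act

/-- A lifted chart: a partial homeomorphism of the covering space which on its source coincides with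
`e ∘ p` for a chart `e` of the atlas of `X`. -/
structure LCh {X : Type} [TopologicalSpace X] [ChartedSpace E4 X] (U : UCover X) where
  e : Ch X
  psi : OpenPartialHomeomorph U.Y E4
  mem : ∀ y ∈ psi.source, U.p y ∈ e.1.source
  eq : ∀ y ∈ psi.source, psi y = e.1 (U.p y)

/-- An equivariant partition of unity on the covering space: `φ` is `C²`, compactly supported,
nonnegative, its translates sum up to 1, and the sum of the absolute values of the derivatives of
its translates in a direction `v` is at most `K |v|_g`. -/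
structure IsEqPart {X : Type} [TopologicalSpace X] [ChartedSpace E4 X] (U : UCover X)
    (g : Metric X) (K : ℝ) (phi : U.Y → ℝ) : Prop where
  smooth : ∀ c : LCh U, ContDiffOn ℝ 2 (phi ∘ c.psi.symm) c.psi.target
  supp : HasCompactSupport phi
  nonneg : ∀ y, 0 ≤ phi y
  sum_one : ∀ y, ∑ᶠ a : U.G, phi (a⁻¹ • y) = 1
  grad : ∀ c : LCh U, ∀ z ∈ c.psi.target, ∀ v : E4,
    ∑ᶠ a : U.G, |fderiv ℝ (fun w => phi (a⁻¹ • c.psi.symm w)) z v| ≤
      K * Real.sqrt (∑ i, ∑ j, g.coef c.e z i j * v i * v j)

/-- Basic facts on the scalar functions and the measure of a metric. -/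
def claimBasic : Prop :=
  ∀ (X : Type) [TopologicalSpace X] [T2Space X] [CompactSpace X] [ConnectedSpace X]
    [ChartedSpace E4 X] [IsManifold (𝓡 4) ∞ X] [MeasurableSpace X] [BorelSpace X],
    OrientedAtlas X → ∀ g : Metric X,
    Continuous g.scal ∧ Continuous g.ric0Sq ∧ IsFiniteMeasure g.vol ∧ 0 < g.volume

/-- Gauss-Bonnet-Chern and Hirzebruch signature theorem in dimension four, in the form of an
inequality. -/
def claimIndex : Prop :=
  ∀ (X : Type) [TopologicalSpace X] [T2Space X] [CompactSpace X] [ConnectedSpace X]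
    [ChartedSpace E4 X] [IsManifold (𝓡 4) ∞ X] [MeasurableSpace X] [BorelSpace X],
    OrientedAtlas X → ∀ g : Metric X,
    (1 / (4 * Real.pi ^ 2)) * ∫ x, (g.scal x ^ 2 / 24 - g.ric0Sq x / 2) ∂g.vol ≤
      2 * (eulerChar X : ℝ) - 3 * |(signature X : ℝ)|

/-- Facts about the normalised Ricci flow. -/
def claimFlow : Prop :=
  ∀ (X : Type) [TopologicalSpace X] [T2Space X] [CompactSpace X] [ConnectedSpace X]
    [ChartedSpace E4 X] [IsManifold (𝓡 4) ∞ X] [MeasurableSpace X] [BorelSpace X],
    OrientedAtlas X → lamBar X < 0 → ∀ g : ℝ → Metric X, IsQuasiNonSingular g →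
    ∃ V m : ℝ, 0 < V ∧ m < 0 ∧ (∀ t, 0 < t → (g t).volume = V) ∧
      (∀ ε > 0, ∃ t0 > 0, ∀ t, t0 ≤ t → m - ε ≤ (g t).meanScal) ∧
      (∀ ε > 0, ∃ t, 0 < t ∧ |(g t).meanScal - m| < ε ∧ ∫ x, (g t).ric0Sq x ∂(g t).vol < ε)

/-- Existence of the universal covering. -/
def claimCover : Prop :=
  ∀ (X : Type) [TopologicalSpace X] [T2Space X] [CompactSpace X] [ConnectedSpace X]
    [ChartedSpace E4 X] [IsManifold (𝓡 4) ∞ X], Nonempty (UCover X)

/-- Upper bound for the simplicial volume by an equivariant partition of unity. -/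
def claimSimp : Prop :=
  ∀ (X : Type) [TopologicalSpace X] [T2Space X] [CompactSpace X] [ConnectedSpace X]
    [ChartedSpace E4 X] [IsManifold (𝓡 4) ∞ X] [MeasurableSpace X] [BorelSpace X],
    OrientedAtlas X → ∀ (U : UCover X) (g : Metric X) (K : ℝ) (phi : U.Y → ℝ),
    IsEqPart U g K phi → simplicialVolume X ≤ 24 * K ^ 4 * g.volume

/-- The heat flow along the normalised Ricci flow produces good partitions of unity: if the mean
scalar curvature is at least `-κ` from time `t0` on, then for all `T > 0` there are partitions for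
the metric `g (t0 + T)` with constant `K` as close as we like to `a(T)^(-1/2)`,
`a(T) = (4/κ) (1 - exp(-κ T/2))`. -/
def claimGrad : Prop :=
  ∀ (X : Type) [TopologicalSpace X] [T2Space X] [CompactSpace X] [ConnectedSpace X]
    [ChartedSpace E4 X] [IsManifold (𝓡 4) ∞ X] [MeasurableSpace X] [BorelSpace X],
    OrientedAtlas X → ∀ (U : UCover X) (g : ℝ → Metric X), IsNormalizedRicciFlow g →
    ∀ (t0 κ : ℝ), 0 < t0 → 0 < κ → (∀ t, t0 ≤ t → -κ ≤ (g t).meanScal) →
    ∀ T > 0, ∀ K : ℝ, ((4 / κ) * (1 - Real.exp (-κ * T / 2))) ^ (-(1 / 2) : ℝ) < K →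
    ∃ phi : U.Y → ℝ, IsEqPart U (g (t0 + T)) K phi

/-- Assembly. -/
def claimAssembly : Prop :=
  claimBasic → claimIndex → claimFlow → claimCover → claimSimp → claimGrad → Target

end NRF
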