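import Pool.Agent.Work.MP_7f974f_gt.Stmts_C
import Pool.Agent.Work.MP_7f974f_gt.Top

/-!
# Module B, first part: metrics and measures in smooth charts, good atlases, building `Geom`
-/

open scoped Manifold ContDiff Topology
open MeasureTheory Set

noncomputable section

namespace NRF

section defs

variable {X : Type} [TopologicalSpace X] [ChartedSpace E4 X]

variable (X) in
/-- Smooth charts: the maximal atlas. -/
def SmCh : Set (OpenPartialHomeomorph X E4) := IsManifold.maximalAtlas (𝓡 4) ∞ X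

/-- Positively oriented charts. -/
def PosCh (psi : OpenPartialHomeomorph X E4) : Prop :=
  ∀ e : Ch X, ∀ y ∈ (psi.symm.trans e.1).source, 0 < (fderiv ℝ (psi.symm.trans e.1) y).det

/-- Coefficient matrix of a metric in an arbitrary smooth chart. -/
def Metric.mcoef (g : Metric X) (psi : OpenPartialHomeomorph X E4) (y : E4) :
    Matrix (Fin 4) (Fin 4) ℝ :=
  Matrix.of fun i j => ∑ k, ∑ l, (pd i (psi.symm.trans (chAt (psi.symm y)).1) y) k *
    (pd j (psi.symm.trans (chAt (psi.symm y)).1) y) l *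
      g.coef (chAt (psi.symm y)) ((chAt (psi.symm y)).1 (psi.symm y)) k l

end defs

/-- B1: the metric in smooth charts. -/
def claimMcoef : Prop :=
  ∀ (X : Type) [TopologicalSpace X] [ChartedSpace E4 X] [IsManifold (𝓡 4) ∞ X] (g : Metric X),
    ∀ psi ∈ SmCh X,
      (∀ i j, ContDiffOn ℝ ∞ (fun y => g.mcoef psi y i j) psi.target) ∧
      (∀ y ∈ psi.target, (g.mcoef psi y).PosDef) ∧
      (∀ e : Ch X, ∀ y ∈ e.1.target, g.mcoef e.1 y = g.coef e y) ∧
      ∀ psi' ∈ SmCh X, ∀ y ∈ (psi.symm.trans psi').source, ∀ i j,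
        g.mcoef psi y i j = ∑ k, ∑ l, (pd i (psi.symm.trans psi') y) k *
          (pd j (psi.symm.trans psi') y) l * g.mcoef psi' ((psi.symm.trans psi') y) k l

/-- Naturality of the curvature quantities, in `ℝ⁴` (from module A): `G` on `U` is the pull back of
`G'` on `U'` by a smooth map with invertible derivative. -/
def claimNat : Prop :=
  ∀ (G G' : E4 → Matrix (Fin 4) (Fin 4) ℝ) (τ : E4 → E4) (U U' : Set E4), IsOpen U → IsOpen U' →
    ContDiffOn ℝ ∞ τ U → MapsTo τ U U' → (∀ i j, ContDiffOn ℝ ∞ (fun y => G' y i j) U') →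
    (∀ y ∈ U', (G' y).PosDef) → (∀ y ∈ U, (fderiv ℝ τ y).det ≠ 0) →
    (∀ y ∈ U, ∀ i j, G y i j = ∑ k, ∑ l, (pd i τ y) k * (pd j τ y) l * G' (τ y) k l) →
    (∀ y ∈ U, scalC G y = scalC G' (τ y)) ∧ (∀ y ∈ U, ric0SqC G y = ric0SqC G' (τ y)) ∧
    (∀ y ∈ U, ∀ i j, ricci G i j y = ∑ k, ∑ l, (pd i τ y) k * (pd j τ y) l * ricci G' k l (τ y)) ∧
    (∀ u : E4 → ℝ, ∀ y ∈ U, DifferentiableAt ℝ u (τ y) →
      gradSqC G (fun z => u (τ z)) y = gradSqC G' u (τ y))

/-- B1': scalar quantities of a metric read in smooth charts. -/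
def claimScalCh : Prop :=
  ∀ (X : Type) [TopologicalSpace X] [ChartedSpace E4 X] [IsManifold (𝓡 4) ∞ X] (g : Metric X),
    (∀ psi ∈ SmCh X, ∀ y ∈ psi.target, g.scal (psi.symm y) = scalC (g.mcoef psi) y ∧
      g.ric0Sq (psi.symm y) = ric0SqC (g.mcoef psi) y ∧
      ∀ u : X → ℝ, DifferentiableAt ℝ (fun z => u (psi.symm z)) y →
        g.gradSq u (psi.symm y) = gradSqC (g.mcoef psi) (fun z => u (psi.symm z)) y) ∧
    Continuous g.scal ∧ Continuous g.ric0Sq

/-- B2: the Riemannian measure in smooth charts. -/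
def claimVol : Prop :=
  ∀ (X : Type) [TopologicalSpace X] [T2Space X] [CompactSpace X] [ChartedSpace E4 X]
    [IsManifold (𝓡 4) ∞ X] [MeasurableSpace X] [BorelSpace X] (g : Metric X),
    IsFiniteMeasure g.vol ∧ (∀ U : Set X, IsOpen U → U.Nonempty → 0 < g.vol U) ∧
    ∀ psi ∈ SmCh X,
      g.vol.restrict psi.source = Measure.map psi.symm ((volume.restrict psi.target).withDensity
        fun y => ENNReal.ofReal (Real.sqrt (g.mcoef psi y).det)) ∧
      ∀ f : X → ℝ, ContinuousOn f psi.source →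
        ∫ x in psi.source, f x ∂g.vol =
          ∫ y in psi.target, Real.sqrt (g.mcoef psi y).det * f (psi.symm y)

/-- B3: the integral of a top degree form is the integral of its density with respect to a metric. -/
def claimIntTop : Prop :=
  ∀ (X : Type) [TopologicalSpace X] [T2Space X] [CompactSpace X] [ChartedSpace E4 X]
    [IsManifold (𝓡 4) ∞ X] [MeasurableSpace X] [BorelSpace X], OrientedAtlas X →
    ∀ (g : Metric X) (D : Ch X → E4 → ℝ), (∀ e : Ch X, ContinuousOn (D e) e.1.target) →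
    (∀ e e' : Ch X, ∀ y ∈ (e.1.symm.trans e'.1).source,
      D e y = (fderiv ℝ (e.1.symm.trans e'.1) y).det * D e' ((e.1.symm.trans e'.1) y)) →
    Continuous (fun x : X => D (chAt x) (chartAt E4 x x) /
      Real.sqrt (g.coef (chAt x) (chartAt E4 x x)).det) ∧
    (∀ e : Ch X, ∀ y ∈ e.1.target, D (chAt (e.1.symm y)) (chartAt E4 (e.1.symm y) (e.1.symm y)) /
      Real.sqrt (g.coef (chAt (e.1.symm y)) (chartAt E4 (e.1.symm y) (e.1.symm y))).det =
        D e y / Real.sqrt (g.coef e y).det) ∧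
    integralTop D = ∫ x, D (chAt x) (chartAt E4 x x) /
      Real.sqrt (g.coef (chAt x) (chartAt E4 x x)).det ∂g.vol

/-- B4: finite good atlases, with charts from a given family `S`, a prescribed first chart, a smooth
partition of unity `chi` and a smooth family `rho` with `∑ rho² = 1`. -/
def claimAtlas : Prop :=
  ∀ (X : Type) [TopologicalSpace X] [T2Space X] [CompactSpace X] [ChartedSpace E4 X]
    [IsManifold (𝓡 4) ∞ X] (S : Set (OpenPartialHomeomorph X E4)), S ⊆ SmCh X →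
    (∀ x : X, ∃ psi ∈ S, x ∈ psi.source ∧ psi x = 0 ∧ Metric.closedBall 0 3 ⊆ psi.target) →
    ∀ psi0 ∈ S, Metric.closedBall 0 3 ⊆ psi0.target →
    ∃ (n : ℕ) (psi : Fin (n + 1) → OpenPartialHomeomorph X E4) (chi rho : Fin (n + 1) → E4 → ℝ),
      psi 0 = psi0 ∧ (∀ i, psi i ∈ S) ∧ (∀ i, Metric.closedBall 0 3 ⊆ (psi i).target) ∧
      (∀ i, ContDiff ℝ ∞ (chi i) ∧ ContDiff ℝ ∞ (rho i) ∧ (∀ z, 0 ≤ chi i z) ∧
        (∀ z, 0 ≤ rho i z) ∧ ∀ z, 1 ≤ ‖z‖ → chi i z = 0 ∧ rho i z = 0) ∧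
      (∃ δ > 0, ∀ z : E4, ‖z‖ < δ → chi 0 z = 1 ∧ rho 0 z = 1) ∧
      (∀ x : X, ∑ i, (psi i).source.indicator (fun x => chi i (psi i x)) x = 1) ∧
      (∀ x : X, ∑ i, (psi i).source.indicator (fun x => rho i (psi i x) ^ 2) x = 1)

/-- B4': there are enough (positively oriented) smooth charts of this kind: rescaled charts of the
atlas; any smooth chart around a point can be rescaled. -/
def claimScaled : Prop :=
  ∀ (X : Type) [TopologicalSpace X] [ChartedSpace E4 X] [IsManifold (𝓡 4) ∞ X],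
    ∀ psi ∈ SmCh X, ∀ x ∈ psi.source, ∀ U : Set X, IsOpen U → x ∈ U →
      ∃ (c : ℝ) (psi' : OpenPartialHomeomorph X E4), 0 < c ∧ psi' ∈ SmCh X ∧ x ∈ psi'.source ∧
        psi'.source ⊆ psi.source ∩ U ∧ (∀ y ∈ psi'.source, psi' y = c⁻¹ • (psi y - psi x)) ∧
        psi' x = 0 ∧ Metric.closedBall 0 3 ⊆ psi'.target ∧ (PosCh psi → PosCh psi')

/-- B5: extension of local coefficients to a model. -/
def claimModelExt : Prop :=
  ∀ (V : Type) [NormedAddCommGroup V] [InnerProductSpace ℝ V] [FiniteDimensional ℝ V]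
    (O : Set E4) (a : ℝ × E4 → Matrix (Fin 4) (Fin 4) ℝ) (b : ℝ × E4 → Fin 4 → V →L[ℝ] V)
    (c : ℝ × E4 → V →L[ℝ] V) (chi : E4 → ℝ), IsOpen O → Metric.closedBall 0 3 ⊆ O →
    (∀ i j, ContDiffOn ℝ ∞ (fun q => a q i j) (univ ×ˢ O)) →
    (∀ i, ContDiffOn ℝ ∞ (fun q => b q i) (univ ×ˢ O)) → ContDiffOn ℝ ∞ c (univ ×ˢ O) →
    (∀ t, ∀ x ∈ O, (a (t, x)).PosDef) → ContDiff ℝ ∞ chi → (∀ z, 0 ≤ chi z) →
    (∀ z, 1 ≤ ‖z‖ → chi z = 0) →
    ∃ m : Model V, m.chi = chi ∧ ∀ t, ∀ x ∈ Metric.ball (0 : E4) (5 / 2),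
      m.a (t, x) = a (t, x) ∧ m.b (t, x) = b (t, x) ∧ m.c (t, x) = c (t, x)

/-- B6: building a bounded geometry on a compact manifold from an operator on functions which has
smooth coefficients in the charts of a finite good atlas. -/
def claimGeomX : Prop :=
  ∀ (X : Type) [TopologicalSpace X] [T2Space X] [CompactSpace X] [ChartedSpace E4 X]
    [IsManifold (𝓡 4) ∞ X] (V : Type) [NormedAddCommGroup V] [InnerProductSpace ℝ V]
    [FiniteDimensional ℝ V] (n : ℕ) (psi : Fin (n + 1) → OpenPartialHomeomorph X E4)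
    (chi : Fin (n + 1) → E4 → ℝ) (a : Fin (n + 1) → E4 → Matrix (Fin 4) (Fin 4) ℝ)
    (b : Fin (n + 1) → E4 → Fin 4 → V →L[ℝ] V) (c : Fin (n + 1) → E4 → V →L[ℝ] V)
    (Lop : (X → V) → X → V),
    (∀ i, psi i ∈ SmCh X) → (∀ i, Metric.closedBall 0 3 ⊆ (psi i).target) →
    (∀ i, ContDiff ℝ ∞ (chi i) ∧ (∀ z, 0 ≤ chi i z) ∧ ∀ z, 1 ≤ ‖z‖ → chi i z = 0) →
    (∀ x : X, ∑ i, (psi i).source.indicator (fun x => chi i (psi i x)) x = 1) →
    (∀ i, (∀ j l, ContDiffOn ℝ ∞ (fun z => a i z j l) (psi i).target) ∧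
      (∀ z ∈ (psi i).target, (a i z).PosDef) ∧
      (∀ j, ContDiffOn ℝ ∞ (fun z => b i z j) (psi i).target) ∧
      ContDiffOn ℝ ∞ (c i) (psi i).target) →
    (∀ i, ∀ z ∈ (psi i).target, ∀ f : X → V, ContDiffAt ℝ 2 (fun w => f ((psi i).symm w)) z →
      Lop f ((psi i).symm z) =
        -(∑ j, ∑ l, a i z j l • pd j (pd l fun w => f ((psi i).symm w)) z) +
          (∑ j, b i z j (pd j (fun w => f ((psi i).symm w)) z)) + c i z (f ((psi i).symm z))) →
    ∃ (g : Geom X V) (ι : g.I ≃ Fin (n + 1)), (∀ i, g.psi i = psi (ι i)) ∧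
      (∀ i, (g.mdl i).chi = chi (ι i)) ∧
      ∀ i t, ∀ x ∈ Metric.ball (0 : E4) (5 / 2), (g.mdl i).a (t, x) = a (ι i) x ∧
        (g.mdl i).b (t, x) = b (ι i) x ∧ (g.mdl i).c (t, x) = c (ι i) x

/-- B7: Euclidean divergence theorem. -/
def claimDiv0 : Prop :=
  ∀ W : Fin 4 → E4 → ℝ, (∀ i, ContDiff ℝ 1 (W i)) → (∀ i, HasCompactSupport (W i)) →
    ∫ x, ∑ i, pd i (W i) x = 0

/-- B8: `claimBasic` follows from B1', B2. -/
def claimBasicOf : Prop := claimScalCh → claimVol → claimBasic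

end NRF
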