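import Pool.Agent.Work.MP_7f974f_gt.Stmts_C

/-!
# Module K: the heat kernel on a compact space (statements)
-/

open scoped Manifold ContDiff Topology
open MeasureTheory Set

noncomputable section

namespace NRF

section

variable {X : Type} [TopologicalSpace X] {V : Type} [NormedAddCommGroup V] [InnerProductSpace ℝ V]

/-- Every point lies in the unit ball of some chart. -/
theorem Geom.exists_chart (g : Geom X V) (y : X) :
    ∃ i, y ∈ (g.psi i).source ∧ ‖g.psi i y‖ < 1 := by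
  by_contra h
  push Not at h
  have h1 := g.part y
  have h2 : ∀ i, (g.psi i).source.indicator
      (fun y => (g.model (g.mod i)).chi (g.psi i y)) y = 0 := by
    intro i
    by_cases hi : y ∈ (g.psi i).source
    · rw [Set.indicator_of_mem hi]
      exact (g.model (g.mod i)).chi_supp _ (h i hi)
    · exact Set.indicator_of_notMem hi _
  simp [h2] at h1

/-- A chosen chart around a point. -/
def Geom.ch (g : Geom X V) (y : X) : g.I := (g.exists_chart y).choose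

/-- The operator of the geometry as an operator on functions on `X`. -/
def Geom.L [FiniteDimensional ℝ V] (g : Geom X V) (t : ℝ) (f : X → V) (y : X) : V :=
  (g.mdl (g.ch y)).op t (fun z => f ((g.psi (g.ch y)).symm z)) (g.psi (g.ch y) y)

/-- Smooth functions on `X`. -/
def Geom.Smooth (g : Geom X V) (f : X → V) : Prop :=
  ∀ i, ContDiff ℝ ∞ fun x => etaC x • f ((g.psi i).symm x)

/-- `C²` functions on `X`. -/
def Geom.C2 (g : Geom X V) (f : X → V) : Prop :=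
  ∀ i, ContDiff ℝ 2 fun x => etaC x • f ((g.psi i).symm x)

end

open scoped RealInnerProductSpace

/-- Data for the heat kernel: compact space, time independent operator, finite measure with smooth
positive densities in the charts; the operator is symmetric and nonnegative. -/
structure HeatData (X : Type) [TopologicalSpace X] [MeasurableSpace X] (V : Type)
    [NormedAddCommGroup V] [InnerProductSpace ℝ V] [FiniteDimensional ℝ V] where
  g : Geom X V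
  mu : Measure X
  fin : IsFiniteMeasure mu
  a_const : ∀ j t x, (g.model j).a (t, x) = (g.model j).a (0, x)
  b_const : ∀ j t x, (g.model j).b (t, x) = (g.model j).b (0, x)
  c_const : ∀ j t x, (g.model j).c (t, x) = (g.model j).c (0, x)
  dens : g.I → E4 → ℝ
  dens_smooth : ∀ i, ContDiffOn ℝ ∞ (dens i) (Metric.ball 0 3)
  dens_pos : ∀ i, ∀ x ∈ Metric.ball (0 : E4) 3, 0 < dens i x
  dens_eq : ∀ i (f : X → ℝ), Continuous f →
    (∀ y, y ∉ (g.psi i).symm '' Metric.closedBall 0 2 → f y = 0) →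
    ∫ y, f y ∂mu = ∫ x in Metric.ball 0 3, f ((g.psi i).symm x) * dens i x
  symm : ∀ f h : X → V, g.C2 f → g.C2 h →
    ∫ y, ⟪g.L 0 f y, h y⟫ ∂mu = ∫ y, ⟪f y, g.L 0 h y⟫ ∂mu
  nonneg : ∀ f : X → V, g.C2 f → 0 ≤ ∫ y, ⟪g.L 0 f y, f y⟫ ∂mu

variable {X : Type} [TopologicalSpace X] [MeasurableSpace X] {V : Type}
  [NormedAddCommGroup V] [InnerProductSpace ℝ V] [FiniteDimensional ℝ V]

/-- `T` is the heat semigroup on smooth functions. -/
structure HeatData.IsSemigroup (D : HeatData X V) (T : ℝ → (X → V) → X → V) : Prop where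
  smooth : ∀ t, 0 ≤ t → ∀ f, D.g.Smooth f → D.g.Smooth (T t f)
  zero : ∀ f, D.g.Smooth f → T 0 f = f
  nice : ∀ f, D.g.Smooth f → ∀ (k : ℕ) (T0 : ℝ), 0 < T0 → ∃ C, D.g.Nice k T0 C fun t => T t f
  deriv : ∀ f, D.g.Smooth f → ∀ t, 0 ≤ t → ∀ y,
    HasDerivWithinAt (fun s => T s f y) (-D.g.L 0 (T t f) y) (Ici 0) t
  unique : ∀ (T0 C : ℝ) (u : ℝ → X → V), 0 < T0 → D.g.Nice 2 T0 C u → D.g.Smooth (u 0) →
    (∀ t ∈ Icc 0 T0, ∀ y, HasDerivWithinAt (fun s => u s y) (-D.g.L 0 (u t) y) (Icc 0 T0) t) →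
    ∀ t ∈ Icc 0 T0, u t = T t (u 0)
  add : ∀ f h, D.g.Smooth f → D.g.Smooth h → ∀ t, 0 ≤ t →
    T t (fun y => f y + h y) = fun y => T t f y + T t h y
  smul : ∀ (c : ℝ) f, D.g.Smooth f → ∀ t, 0 ≤ t → T t (fun y => c • f y) = fun y => c • T t f y
  comp : ∀ f, D.g.Smooth f → ∀ s t, 0 ≤ s → 0 ≤ t → T (s + t) f = T s (T t f)
  symm : ∀ f h, D.g.Smooth f → D.g.Smooth h → ∀ t, 0 ≤ t →
    ∫ y, ⟪T t f y, h y⟫ ∂D.mu = ∫ y, ⟪f y, T t h y⟫ ∂D.mu
  contr : ∀ f, D.g.Smooth f → ∀ t, 0 ≤ t → ∫ y, ‖T t f y‖ ^ 2 ∂D.mu ≤ ∫ y, ‖f y‖ ^ 2 ∂D.mu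

/-- `h` is an approximate solution of the heat equation on `(0,T0]` with error `e` and with initial
value the delta function at `y0` times the vector `v`. -/
structure HeatData.IsApprox (D : HeatData X V) (T0 : ℝ) (y0 : X) (v : V)
    (h e : ℝ → X → V) : Prop where
  nice : ∀ δ, 0 < δ → δ < T0 → ∃ C, D.g.Nice 2 (T0 - δ) C fun t => h (t + δ)
  deriv : ∀ t ∈ Ioc 0 T0, ∀ y,
    HasDerivWithinAt (fun s => h s y) (-D.g.L 0 (h t) y + e t y) (Ioc 0 T0) t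
  bound : ∃ E : ℝ, ∀ t ∈ Ioc 0 T0, ∀ y, ‖e t y‖ ≤ E
  cont : ContinuousOn (fun p : ℝ × X => e p.1 p.2) (Ioc 0 T0 ×ˢ univ)
  l1 : ∃ C : ℝ, ∀ t ∈ Ioc 0 T0, ∫ y, ‖h t y‖ ∂D.mu ≤ C
  init : ∀ f, D.g.Smooth f →
    Filter.Tendsto (fun t => ∫ y, ⟪h t y, f y⟫ ∂D.mu) (𝓝[>] 0) (𝓝 ⟪v, f y0⟫)

/-- `K` is the heat kernel. -/
structure HeatData.IsKernel (D : HeatData X V) (T : ℝ → (X → V) → X → V)
    (K : ℝ → X → X → V →L[ℝ] V) : Prop where
  cont : ContinuousOn (fun p : ℝ × X × X => K p.1 p.2.1 p.2.2) (Ioi 0 ×ˢ univ)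
  repr : ∀ t, 0 < t → ∀ f, D.g.Smooth f → ∀ x, T t f x = ∫ y, K t x y (f y) ∂D.mu
  symm : ∀ t, 0 < t → ∀ x y v w, ⟪K t x y v, w⟫ = ⟪v, K t y x w⟫
  comp : ∀ s t, 0 < s → 0 < t → ∀ x z v, K (s + t) x z v = ∫ y, K s x y (K t y z v) ∂D.mu
  smoothing : ∀ t, 0 < t → ∀ f : X → V, MemLp f 2 D.mu →
    D.g.Smooth fun x => ∫ y, K t x y (f y) ∂D.mu
  l1 : ∀ T0, 0 < T0 → ∃ C : ℝ, ∀ t ∈ Ioc 0 T0, ∀ y, ∫ x, ‖K t x y‖ ∂D.mu ≤ C
  compare : ∀ T0, 0 < T0 → ∃ C : ℝ, ∀ (y0 : X) (v : V) (h e : ℝ → X → V),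
    D.IsApprox T0 y0 v h e → ∀ t ∈ Ioc 0 T0, ∀ E : ℝ, (∀ s ∈ Ioc 0 t, ∀ y, ‖e s y‖ ≤ E) →
      ∀ x, ‖h t x - K t x y0 v‖ ≤ C * t * E
  diag : ∃ (c : ℕ → X → V →L[ℝ] V) (C : ℝ), (∀ w, Continuous (c w)) ∧
    ∀ t ∈ Ioc (0 : ℝ) 1, ∀ y,
      ‖t ^ 2 • K t y y - ∑ w ∈ Finset.range 5, Real.sqrt t ^ w • c w y‖ ≤ C * Real.sqrt t ^ 5

/-- K1: the heat semigroup on smooth functions. -/
def claimSemigroup : Prop :=
  ∀ (X : Type) [TopologicalSpace X] [CompactSpace X] [T2Space X] [MeasurableSpace X] [BorelSpace X]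
    (V : Type) [NormedAddCommGroup V] [InnerProductSpace ℝ V] [FiniteDimensional ℝ V]
    (D : HeatData X V), ∃ T : ℝ → (X → V) → X → V, D.IsSemigroup T

/-- K2: the parametrix with a pole. For every `k` there are, for every pole `y` and vector `v`,
approximate solutions with `C^k`-small errors, depending linearly on `v` and continuously on `y`,
with an expansion on the diagonal. -/
def claimPole : Prop :=
  ∀ (X : Type) [TopologicalSpace X] [CompactSpace X] [T2Space X] [MeasurableSpace X] [BorelSpace X]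
    (V : Type) [NormedAddCommGroup V] [InnerProductSpace ℝ V] [FiniteDimensional ℝ V]
    (D : HeatData X V) (k : ℕ) (T0 : ℝ), 0 < T0 →
    ∃ (h e : X → V → ℝ → X → V) (C : ℝ),
      (∀ y v, D.IsApprox T0 y v (h y v) (e y v)) ∧
      (∀ y v w t x, h y (v + w) t x = h y v t x + h y w t x) ∧
      (∀ y (c : ℝ) v t x, h y (c • v) t x = c • h y v t x) ∧
      (∀ y v, D.g.Nice k T0 (C * ‖v‖) (e y v)) ∧
      (∀ y v, ∀ t ∈ Icc 0 T0, ∀ x, ‖e y v t x‖ ≤ C * ‖v‖ * t ^ 2) ∧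
      (∀ v, ContinuousOn (fun p : ℝ × X × X => h p.2.2 v p.1 p.2.1) (Ioi 0 ×ˢ univ)) ∧
      (∀ v y, ∀ ε > 0, ∀ᶠ y' in 𝓝 y, D.g.Nice k T0 ε fun t x => e y' v t x - e y v t x) ∧
      (∀ y v, ∀ t ∈ Ioc 0 T0, ∫ x, ‖h y v t x‖ ∂D.mu ≤ C * ‖v‖) ∧
      (∀ δ > 0, ∃ C', ∀ y v, D.g.Nice k (T0 - δ) (C' * ‖v‖) fun t => h y v (t + δ)) ∧
      ∃ (c : ℕ → X → V →L[ℝ] V), (∀ w, Continuous (c w)) ∧
        ∀ t ∈ Ioc (0 : ℝ) T0, ∀ y v,
          ‖t ^ 2 • h y v t y - ∑ w ∈ Finset.range 5, Real.sqrt t ^ w • c w y v‖ ≤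
            C * ‖v‖ * Real.sqrt t ^ 5

/-- K2': the same with exact solutions. -/
def claimPole0 : Prop :=
  ∀ (X : Type) [TopologicalSpace X] [CompactSpace X] [T2Space X] [MeasurableSpace X] [BorelSpace X]
    (V : Type) [NormedAddCommGroup V] [InnerProductSpace ℝ V] [FiniteDimensional ℝ V]
    (D : HeatData X V) (k : ℕ) (T0 : ℝ), 2 ≤ k → 0 < T0 →
    ∃ (h : X → V → ℝ → X → V) (C : ℝ),
      (∀ y v, D.IsApprox T0 y v (h y v) (fun _ _ => 0)) ∧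
      (∀ y v w, ∀ t ∈ Ioc 0 T0, ∀ x, h y (v + w) t x = h y v t x + h y w t x) ∧
      (∀ y (c : ℝ) v, ∀ t ∈ Ioc 0 T0, ∀ x, h y (c • v) t x = c • h y v t x) ∧
      (∀ v, ContinuousOn (fun p : ℝ × X × X => h p.2.2 v p.1 p.2.1) (Ioc 0 T0 ×ˢ univ)) ∧
      (∀ y v, ∀ t ∈ Ioc 0 T0, ∫ x, ‖h y v t x‖ ∂D.mu ≤ C * ‖v‖) ∧
      (∀ δ > 0, ∃ C', ∀ y v, D.g.Nice k (T0 - δ) (C' * ‖v‖) fun t => h y v (t + δ)) ∧
      ∃ (c : ℕ → X → V →L[ℝ] V), (∀ w, Continuous (c w)) ∧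
        ∀ t ∈ Ioc (0 : ℝ) T0, ∀ y v,
          ‖t ^ 2 • h y v t y - ∑ w ∈ Finset.range 5, Real.sqrt t ^ w • c w y v‖ ≤
            C * ‖v‖ * Real.sqrt t ^ 5

/-- K3: the pairing of an approximate solution with the semigroup. -/
def claimPairing : Prop :=
  ∀ (X : Type) [TopologicalSpace X] [CompactSpace X] [T2Space X] [MeasurableSpace X] [BorelSpace X]
    (V : Type) [NormedAddCommGroup V] [InnerProductSpace ℝ V] [FiniteDimensional ℝ V]
    (D : HeatData X V) (T : ℝ → (X → V) → X → V), D.IsSemigroup T →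
    ∀ (T0 : ℝ) (y0 : X) (v : V) (h e : ℝ → X → V), 0 < T0 → D.IsApprox T0 y0 v h e →
    ∀ f, D.g.Smooth f → ∀ t ∈ Ioc 0 T0,
      ∫ x, ⟪h t x, f x⟫ ∂D.mu =
        ⟪v, T t f y0⟫ + ∫ s in (0 : ℝ)..t, ∫ x, ⟪e s x, T (t - s) f x⟫ ∂D.mu

/-- K4: existence of the heat kernel with all its properties. -/
def claimKernel : Prop :=
  ∀ (X : Type) [TopologicalSpace X] [CompactSpace X] [T2Space X] [MeasurableSpace X] [BorelSpace X]
    (V : Type) [NormedAddCommGroup V] [InnerProductSpace ℝ V] [FiniteDimensional ℝ V]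
    (D : HeatData X V), ∃ (T : ℝ → (X → V) → X → V) (K : ℝ → X → X → V →L[ℝ] V),
      D.IsSemigroup T ∧ D.IsKernel T K

end NRF
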