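import Pool.Agent.Work.MP_7f974f_gt.Top

/-!
# Existence of the universal covering (`claimCover`)

The universal covering of a path connected, locally path connected Hausdorff space `X` in which
every point `x` has an open simply connected neighbourhood `U x` is constructed as the total space
of a `FiberBundleCore` with fibre the fundamental group (discrete topology).
-/

open scoped Manifold ContDiff Topology unitInterval
open MeasureTheory Set

noncomputable section

namespace NRF

namespace Cov

/-- Homotopy classes of paths. -/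
abbrev Cl {X : Type} [TopologicalSpace X] (x y : X) : Type := Path.Homotopic.Quotient x y

/-- A base point and a family of simply connected open neighbourhoods. -/
structure Dat (X : Type) [TopologicalSpace X] where
  x0 : X
  U : X → Set X
  isOpen : ∀ x, IsOpen (U x)
  mem : ∀ x, x ∈ U x
  sc : ∀ x, IsSimplyConnected (U x)

variable {X : Type} [TopologicalSpace X]

/-- The fundamental group at the base point as a type of its own, to be given the discrete
topology. -/
structure Grp (D : Dat X) : Type where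
  cl : Cl D.x0 D.x0

variable (D : Dat X)

instance : TopologicalSpace (Grp D) := ⊥
instance : DiscreteTopology (Grp D) := ⟨rfl⟩

theorem Grp.ext' {D : Dat X} {a b : Grp D} (h : a.cl = b.cl) : a = b := by
  cases a; cases b; cases h; rfl

instance : Group (Grp D) where
  mul a b := ⟨a.cl.trans b.cl⟩
  one := ⟨Path.Homotopic.Quotient.refl _⟩
  inv a := ⟨a.cl.symm⟩
  mul_assoc a b c := Grp.ext' (Path.Homotopic.Quotient.trans_assoc _ _ _)
  one_mul a := Grp.ext' (Path.Homotopic.Quotient.refl_trans _)
  mul_one a := Grp.ext' (Path.Homotopic.Quotient.trans_refl _)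
  inv_mul_cancel a := Grp.ext' (Path.Homotopic.Quotient.symm_trans _)

theorem Grp.mul_cl (a b : Grp D) : (a * b).cl = a.cl.trans b.cl := rfl

theorem trans_symm_cancel {x y z : X} (a : Cl x y) (b : Cl z y) :
    (a.trans b.symm).trans b = a := by
  rw [Path.Homotopic.Quotient.trans_assoc, Path.Homotopic.Quotient.symm_trans,
    Path.Homotopic.Quotient.trans_refl]

theorem trans_right_cancel {x y z : X} {a b : Cl x y} (c : Cl y z) (h : a.trans c = b.trans c) :
    a = b := by
  have := congrArg (fun q => Path.Homotopic.Quotient.trans q c.symm) h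
  simpa [Path.Homotopic.Quotient.trans_assoc] using this

theorem trans_left_self {x y : X} {a : Cl x y} {b : Cl y y} (h : a = a.trans b) :
    b = Path.Homotopic.Quotient.refl y := by
  have := congrArg (fun q => Path.Homotopic.Quotient.trans a.symm q) h
  simp only [← Path.Homotopic.Quotient.trans_assoc, Path.Homotopic.Quotient.symm_trans,
    Path.Homotopic.Quotient.refl_trans] at this
  exact this.symm

variable [PathConnectedSpace X]

/-- The class of the path from `i` to `y` inside `U i`. -/
def cc (i y : X) : Cl i y := by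
  classical
  exact if h : y ∈ D.U i then
    haveI := (D.sc i).simplyConnectedSpace
    Path.Homotopic.Quotient.map (x₀ := (⟨i, D.mem i⟩ : D.U i)) (x₁ := ⟨y, h⟩)
      (.mk (PathConnectedSpace.somePath _ _)) ⟨Subtype.val, continuous_subtype_val⟩
  else .mk (PathConnectedSpace.somePath i y)

/-- The class of the path from the base point to `y` through `i` and then inside `U i`. -/
def ss (i y : X) : Cl D.x0 y :=
  (Path.Homotopic.Quotient.mk (PathConnectedSpace.somePath D.x0 i)).trans (cc D i y)

theorem cc_trans (i : X) {y z : X} (hy : y ∈ D.U i) (hz : z ∈ D.U i) (e : Path y z)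
    (he : ∀ t, e t ∈ D.U i) : (cc D i y).trans (.mk e) = cc D i z := by
  have := (D.sc i).simplyConnectedSpace
  let e' : Path (⟨y, hy⟩ : D.U i) ⟨z, hz⟩ :=
    { toFun := fun t => ⟨e t, he t⟩
      continuous_toFun := by fun_prop
      source' := by simp
      target' := by simp }
  have h1 : Path.Homotopic.Quotient.mk e =
      Path.Homotopic.Quotient.map (.mk e') ⟨Subtype.val, continuous_subtype_val⟩ := by
    rw [← Path.Homotopic.Quotient.mk_map]
    rfl
  rw [cc, cc, dif_pos hy, dif_pos hz, h1]
  rw [← Path.Homotopic.Quotient.mk_map, ← Path.Homotopic.Quotient.mk_map,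
    ← Path.Homotopic.Quotient.mk_map, ← Path.Homotopic.Quotient.mk_trans, ← Path.map_trans]
  rw [Path.Homotopic.Quotient.mk_map, Path.Homotopic.Quotient.mk_map]
  congr 1
  exact Subsingleton.elim _ _

theorem ss_trans (i : X) {y z : X} (hy : y ∈ D.U i) (hz : z ∈ D.U i) (e : Path y z)
    (he : ∀ t, e t ∈ D.U i) : (ss D i y).trans (.mk e) = ss D i z := by
  rw [ss, ss, Path.Homotopic.Quotient.trans_assoc, cc_trans D i hy hz e he]

/-- The coordinate changes. -/
def chg (i j y : X) (g : Grp D) : Grp D := ⟨(g.cl.trans (ss D i y)).trans (ss D j y).symm⟩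

theorem chg_ss (i j y : X) (g : Grp D) :
    (chg D i j y g).cl.trans (ss D j y) = g.cl.trans (ss D i y) :=
  trans_symm_cancel _ _

theorem chg_mul (i j y : X) (a g : Grp D) : chg D i j y (a * g) = a * chg D i j y g := by
  apply Grp.ext'
  rw [Grp.mul_cl]
  simp only [chg, Grp.mul_cl, Path.Homotopic.Quotient.trans_assoc]

theorem chg_const (i j : X) {y z : X} (hyi : y ∈ D.U i) (hyj : y ∈ D.U j) (hzi : z ∈ D.U i)
    (hzj : z ∈ D.U j) (e : Path y z) (he : ∀ t, e t ∈ D.U i ∩ D.U j) (g : Grp D) :
    chg D i j z g = chg D i j y g := by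
  apply Grp.ext'
  apply trans_right_cancel (ss D j z)
  rw [chg_ss, ← ss_trans D i hyi hzi e fun t => (he t).1,
    ← ss_trans D j hyj hzj e fun t => (he t).2, ← Path.Homotopic.Quotient.trans_assoc,
    ← Path.Homotopic.Quotient.trans_assoc, chg_ss]

variable [LocallyPathConnectedSpace X]

/-- The fibre bundle core of the universal covering. -/
def core : FiberBundleCore X X (Grp D) where
  baseSet := D.U
  isOpen_baseSet := D.isOpen
  indexAt := id
  mem_baseSet_at := D.mem
  coordChange := chg D
  coordChange_self i x hx v := by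
    apply Grp.ext'
    apply trans_right_cancel (ss D i x)
    rw [chg_ss]
  continuousOn_coordChange i j := by
    rintro ⟨y, g⟩ ⟨⟨hi, hj⟩, -⟩
    apply ContinuousAt.continuousWithinAt
    have hO : IsOpen (D.U i ∩ D.U j) := (D.isOpen i).inter (D.isOpen j)
    obtain ⟨V, ⟨hV, hVp⟩, hVU⟩ :=
      (path_connected_basis y).mem_iff.1 (hO.mem_nhds ⟨hi, hj⟩)
    have hev : ∀ᶠ p : X × Grp D in 𝓝 (y, g), chg D i j p.1 p.2 = chg D i j y g := by
      have h1 : ∀ᶠ p : X × Grp D in 𝓝 (y, g), p.1 ∈ V := by
        rw [nhds_prod_eq]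
        exact Filter.tendsto_fst hV
      have h2 : ∀ᶠ p : X × Grp D in 𝓝 (y, g), p.2 = g := by
        have h3 : ({g} : Set (Grp D)) ∈ 𝓝 g := by rw [nhds_discrete]; exact rfl
        rw [nhds_prod_eq]
        exact Filter.tendsto_snd h3
      filter_upwards [h1, h2] with p hp1 hp2
      rw [hp2]
      obtain ⟨γ, hγ⟩ := hVp.joinedIn y (mem_of_mem_nhds hV) p.1 hp1
      exact chg_const D i j hi hj (hVU hp1).1 (hVU hp1).2 γ (fun t => hVU (hγ t)) g
    exact (continuousAt_const (y := chg D i j y g)).congr (hev.mono fun p hp => hp.symm)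
  coordChange_comp i j k x hx v := by
    apply Grp.ext'
    apply trans_right_cancel (ss D k x)
    rw [chg_ss, chg_ss, chg_ss]

/-- The universal covering space. -/
abbrev Yc : Type := Bundle.TotalSpace (Grp D) (core D).Fiber

/-- The point of the covering space over `x` with coordinate `g`. -/
def pt (x : X) (g : Grp D) : Yc D := ⟨x, g⟩

/-- The projection. -/
def pr (e : Yc D) : X := e.1

theorem cov : IsCoveringMap (pr D) :=
  FiberBundle.isCoveringMap (F := Grp D) (E := (core D).Fiber)

/-- The coordinate. -/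
def co (e : Yc D) : Grp D := e.2

theorem pt_eq (e : Yc D) : pt D (pr D e) (co D e) = e := rfl

/-- The class of paths from the base point attached to a point of the covering space. -/
def cls (e : Yc D) : Cl D.x0 (pr D e) := (co D e).cl.trans (ss D (pr D e) (pr D e))

theorem cls_eq (e : Yc D) (i : X) :
    ((core D).localTriv i e).2.cl.trans (ss D i (pr D e)) = cls D e :=
  chg_ss D _ _ _ _

theorem eq_of_cls (e e' : Yc D) (h : pr D e = pr D e') (hc : cls D e = (cls D e').cast rfl h) :
    e = e' := by
  obtain ⟨x, g⟩ := e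
  obtain ⟨x', g'⟩ := e'
  change x = x' at h
  subst h
  have hc' : cls D ⟨x, g⟩ = cls D ⟨x, g'⟩ :=
    hc.trans (Path.Homotopic.Quotient.cast_rfl_rfl _)
  have h1 : g = g' := Grp.ext' (trans_right_cancel _ hc')
  rw [h1]

/-- The action of the group. -/
instance act : MulAction (Grp D) (Yc D) where
  smul a e := pt D (pr D e) (a * co D e)
  one_smul e := by
    change pt D (pr D e) (1 * co D e) = e
    rw [one_mul]; rfl
  mul_smul a b e := by
    change pt D (pr D e) ((a * b) * co D e) = pt D (pr D e) (a * (b * co D e))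
    rw [mul_assoc]

theorem smul_def (a : Grp D) (e : Yc D) : a • e = pt D (pr D e) (a * co D e) := rfl

theorem pr_smul (a : Grp D) (e : Yc D) : pr D (a • e) = pr D e := rfl

theorem continuous_pr : Continuous (pr D) := (cov D).continuous

theorem continuous_smul' (a : Grp D) : Continuous (fun e : Yc D => a • e) := by
  rw [continuous_iff_continuousAt]
  intro e
  let T := (core D).localTriv (pr D e)
  have hs : e ∈ T.source := by
    rw [FiberBundleCore.mem_localTriv_source]
    exact D.mem _
  refine (T.toOpenPartialHomeomorph.continuousAt_iff_continuousAt_comp_left ?_).2 ?_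
  · have h1 : pr D ⁻¹' (D.U (pr D e)) ∈ 𝓝 e :=
      (continuous_pr D).continuousAt.preimage_mem_nhds ((D.isOpen _).mem_nhds (D.mem _))
    exact h1
  · have h2 : ContinuousAt (fun e' : Yc D => T e') e :=
      T.toOpenPartialHomeomorph.continuousAt hs
    have h3 : Continuous (fun q : X × Grp D => (q.1, a * q.2)) := by
      have : Continuous (fun g : Grp D => a * g) := continuous_of_discreteTopology
      exact continuous_fst.prodMk (this.comp continuous_snd)
    have h4 := h3.continuousAt.comp h2
    refine h4.congr (Filter.Eventually.of_forall fun e' => ?_)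
    change (pr D e', a * chg D (pr D e') (pr D e) (pr D e') (co D e')) =
      (pr D e', chg D (pr D e') (pr D e) (pr D e') (a * co D e'))
    rw [chg_mul]

theorem key_aux (Γ : C(I, Yc D)) (γ : Path (pr D (Γ 0)) (pr D (Γ 1)))
    (hγ : ∀ t, γ t = pr D (Γ t)) :
    cls D (Γ 1) = (cls D (Γ 0)).trans (.mk γ) := by
  obtain ⟨γ, hγ0, hγ1⟩ := γ
  obtain rfl : γ = ⟨fun t => pr D (Γ t), (continuous_pr D).comp Γ.continuous⟩ := by
    ext t; exact hγ t
  set γ : Path (pr D (Γ 0)) (pr D (Γ 1)) :=
    ⟨⟨fun t => pr D (Γ t), (continuous_pr D).comp Γ.continuous⟩, hγ0, hγ1⟩ with hγdef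
  let φ : I → Cl D.x0 (γ 0) := fun t =>
    Path.Homotopic.Quotient.trans (x₁ := γ t) (cls D (Γ t)) (.mk (γ.subpath t 0))
  have hφ : IsLocallyConstant φ := by
    rw [IsLocallyConstant.iff_eventually_eq]
    intro t0
    let i : X := γ t0
    let T := (core D).localTriv i
    have hs : Γ t0 ∈ T.source := by
      rw [FiberBundleCore.mem_localTriv_source]
      exact D.mem _
    have h2 : ContinuousAt (fun t : I => (T (Γ t)).2) t0 := by
      have h3 : ContinuousAt (fun e' : Yc D => T e') (Γ t0) :=
        T.toOpenPartialHomeomorph.continuousAt hs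
      exact (continuous_snd.continuousAt.comp h3).comp Γ.continuous.continuousAt
    have h4 : ∀ᶠ t in 𝓝 t0, (T (Γ t)).2 = (T (Γ t0)).2 := by
      have h5 : ({(T (Γ t0)).2} : Set (Grp D)) ∈ 𝓝 (T (Γ t0)).2 := by
        rw [nhds_discrete]; exact rfl
      exact h2 h5
    have h6 : ∀ᶠ t in 𝓝 t0, uIcc t0 t ⊆ γ ⁻¹' (D.U i) := by
      have h7 : Filter.Tendsto (fun t => uIcc t0 t) (𝓝 t0) (𝓝 t0).smallSets :=
        (tendsto_const_nhds (x := t0)).uIcc Filter.tendsto_id
      exact Filter.tendsto_smallSets_iff.1 h7 _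
        (γ.continuous.continuousAt.preimage_mem_nhds ((D.isOpen _).mem_nhds (D.mem _)))
    filter_upwards [h4, h6] with t ht4 ht6
    have hm : ∀ s, γ.subpath t0 t s ∈ D.U i := by
      intro s
      have h8 : γ.subpath t0 t s ∈ range (γ.subpath t0 t) := mem_range_self s
      rw [Path.range_subpath] at h8
      obtain ⟨r, hr, hr'⟩ := h8
      rw [← hr']
      exact ht6 hr
    have hmt : γ t ∈ D.U i := by
      have := hm 1
      simpa using this
    have hmt0 : γ t0 ∈ D.U i := D.mem _
    have e1 : cls D (Γ t) = (T (Γ t)).2.cl.trans (ss D i (γ t)) := (cls_eq D (Γ t) i).symm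
    have e2 : cls D (Γ t0) = (T (Γ t0)).2.cl.trans (ss D i (γ t0)) :=
      (cls_eq D (Γ t0) i).symm
    have e3 : (ss D i (γ t0)).trans (.mk (γ.subpath t0 t)) = ss D i (γ t) :=
      ss_trans D i hmt0 hmt _ hm
    have e4 : Path.Homotopic.Quotient.trans (.mk (γ.subpath t0 t)) (.mk (γ.subpath t 0)) =
        Path.Homotopic.Quotient.mk (γ.subpath t0 0) := by
      rw [← Path.Homotopic.Quotient.mk_trans, Path.Homotopic.Quotient.eq]
      exact ⟨Path.Homotopy.subpathTransSubpath γ t0 t 0⟩
    change Path.Homotopic.Quotient.trans (x₁ := γ t) (cls D (Γ t)) (.mk (γ.subpath t 0)) =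
      Path.Homotopic.Quotient.trans (x₁ := γ t0) (cls D (Γ t0)) (.mk (γ.subpath t0 0))
    rw [e1, e2, ht4, ← e3, ← e4]
    simp only [Path.Homotopic.Quotient.trans_assoc]
  have h01 : φ 1 = φ 0 := hφ.apply_eq_of_preconnectedSpace 1 0
  have h02 : Path.Homotopic.Quotient.trans (x₁ := γ 1) (cls D (Γ 1)) (.mk (γ.subpath 1 0)) =
      Path.Homotopic.Quotient.trans (x₁ := γ 0) (cls D (Γ 0)) (.mk (γ.subpath 0 0)) := h01
  have h03 : Path.Homotopic.Quotient.trans (.mk (γ.subpath 1 0)) (.mk (γ.subpath 0 1)) =
        Path.Homotopic.Quotient.mk (γ.subpath 1 1) := by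
      rw [← Path.Homotopic.Quotient.mk_trans, Path.Homotopic.Quotient.eq]
      exact ⟨Path.Homotopy.subpathTransSubpath γ 1 0 1⟩
  have h04 := congrArg (fun q => Path.Homotopic.Quotient.trans q (.mk (γ.subpath 0 1))) h02
  simp only [Path.Homotopic.Quotient.trans_assoc] at h04
  rw [h03, Path.subpath_self, Path.subpath_self, Path.Homotopic.Quotient.mk_refl,
    Path.Homotopic.Quotient.mk_refl, Path.Homotopic.Quotient.refl_trans,
    Path.Homotopic.Quotient.trans_refl] at h04
  have h05 : γ.subpath 0 1 = γ := by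
    ext s
    simp [Path.subpath]
  rw [h05] at h04
  exact h04

theorem key {e0 e1 : Yc D} (Γ : Path e0 e1) :
    cls D e1 = (cls D e0).trans (.mk (Γ.map (continuous_pr D))) := by
  obtain ⟨Γ, rfl, rfl⟩ := Γ
  exact key_aux D Γ _ fun t => rfl

theorem exists_lift (e0 : Yc D) {x : X} (γ : Path (pr D e0) x) :
    ∃ (e1 : Yc D) (h : pr D e1 = x) (Γ : Path e0 e1),
      Γ.map (continuous_pr D) = γ.cast rfl h := by
  have h0 : γ.toContinuousMap 0 = pr D e0 := γ.source
  let L := (cov D).liftPath γ.toContinuousMap e0 h0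
  have hL : pr D ∘ L = γ.toContinuousMap := (cov D).liftPath_lifts γ.toContinuousMap e0 h0
  have hL0 : L 0 = e0 := (cov D).liftPath_zero γ.toContinuousMap e0 h0
  refine ⟨L 1, ?_, ⟨L, hL0, rfl⟩, ?_⟩
  · have := congrFun hL 1
    simpa using this
  · ext t
    exact congrFun hL t

/-- The base point of the covering space. -/
def e0 : Yc D := pt D D.x0 ⟨(ss D D.x0 D.x0).symm⟩

theorem cls_e0 : cls D (e0 D) = Path.Homotopic.Quotient.refl D.x0 :=
  Path.Homotopic.Quotient.symm_trans _

theorem joined (e : Yc D) : Joined (e0 D) e := by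
  obtain ⟨γ, hγ⟩ := Path.Homotopic.Quotient.mk_surjective (cls D e)
  obtain ⟨e1, h, Γ, hΓ⟩ := exists_lift D (e0 D) γ
  have h1 := key D Γ
  rw [hΓ, cls_e0] at h1
  have h2 : cls D e1 = (cls D e).cast rfl h := by
    rw [h1, ← hγ, ← Path.Homotopic.Quotient.mk_cast]
    exact Path.Homotopic.Quotient.refl_trans _
  have h3 := eq_of_cls D e1 e h h2
  subst h3
  exact ⟨Γ⟩

theorem simply : SimplyConnectedSpace (Yc D) := by
  rw [simply_connected_iff_loops_nullhomotopic]
  refine ⟨⟨⟨e0 D⟩, fun a b => (joined D a).symm.trans (joined D b)⟩, fun e Γ => ?_⟩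
  have h1 := trans_left_self (key D Γ)
  have h2 := (cov D).injective_path_homotopic_map e e
  rw [← Path.Homotopic.Quotient.eq]
  apply h2
  exact h1

theorem t2 [T2Space X] : T2Space (Yc D) := by
  refine ⟨fun a b hab => ?_⟩
  by_cases h : pr D a = pr D b
  · obtain ⟨s, t, hs, ht, ha, hb, hd⟩ := (cov D).isSeparatedMap a b h hab
    exact ⟨s, t, hs, ht, ha, hb, hd⟩
  · obtain ⟨s, t, hs, ht, ha, hb, hd⟩ := t2_separation h
    exact ⟨pr D ⁻¹' s, pr D ⁻¹' t, hs.preimage (continuous_pr D), ht.preimage (continuous_pr D),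
      ha, hb, hd.preimage _⟩

theorem pt_trans (x : X) (g g' : Grp D) : (g' * g⁻¹) • pt D x g = pt D x g' := by
  change pt D x (g' * g⁻¹ * g) = _
  rw [inv_mul_cancel_right]

theorem pt_free (x : X) (a g : Grp D) (h : a • pt D x g = pt D x g) : a = 1 := by
  have h1 : a * g = g := congrArg (co D) h
  exact mul_eq_right.1 h1

theorem transit (y y' : Yc D) (h : pr D y = pr D y') : ∃ a : Grp D, a • y = y' := by
  obtain ⟨x, g⟩ := y
  obtain ⟨x', g'⟩ := y'
  change x = x' at h
  subst h
  exact ⟨_, pt_trans D x g g'⟩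

/-- The universal covering. -/
def ucover [T2Space X] : UCover X :=
  haveI := t2 D
  haveI := simply D
  { Y := Yc D
    G := Grp D
    p := pr D
    cov := cov D
    surj := fun x => ⟨pt D x 1, rfl⟩
    cont_smul := continuous_smul' D
    p_smul := fun _ _ => rfl
    trans := transit D
    free := fun a _ h => pt_free D _ a _ h }

end Cov

theorem claimCover_proof : claimCover := by
  intro X _ _ _ _ _ _
  have : LocallyPathConnectedSpace X := ChartedSpace.locallyPathConnectedSpace E4 X
  have : PathConnectedSpace X := PathConnectedSpace.of_locallyPathConnectedSpace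
  have hloc : ∀ x : X, ∃ U : Set X, IsOpen U ∧ x ∈ U ∧ IsSimplyConnected U := by
    intro x
    let e := chartAt E4 x
    have hx : e x ∈ e.target := mem_chart_target E4 x
    obtain ⟨r, hr, hball⟩ := Metric.isOpen_iff.1 e.open_target (e x) hx
    refine ⟨e.symm '' Metric.ball (e x) r, ?_, ?_, ?_⟩
    · exact e.symm.isOpen_image_of_subset_source Metric.isOpen_ball hball
    · exact ⟨e x, Metric.mem_ball_self hr, e.left_inv (mem_chart_source E4 x)⟩
    · have hc : ContractibleSpace (Metric.ball (e x) r) :=
        (convex_ball (e x) r).contractibleSpace ⟨e x, Metric.mem_ball_self hr⟩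
      let H : Metric.ball (e x) r ≃ₜ (e.symm '' Metric.ball (e x) r) :=
        e.symm.homeomorphOfImageSubsetSource hball rfl
      exact H.symm.toHomotopyEquiv.simplyConnectedSpace
  choose U hU hxU hsc using hloc
  obtain ⟨x0⟩ : Nonempty X := inferInstance
  exact ⟨Cov.ucover ⟨x0, U, hU, hxU, hsc⟩⟩

end NRF
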