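import Pool.Agent.Work.MP_7f974f_gt.Stmts_I

/-!
# Item I10: the start of the tower
-/

open scoped Topology unitInterval Topology.Homotopy
open Set

noncomputable section

namespace NRF

namespace I10

variable {Y : Type} [TopologicalSpace Y]

/-- The coordinate of an edge. -/
def co : C(stdSimplex ℝ (Fin 2), I) := ⟨stdSimplexHomeomorphUnitInterval,
  stdSimplexHomeomorphUnitInterval.continuous⟩

/-- The parametrisation of the edge. -/
def seg : C(I, stdSimplex ℝ (Fin 2)) := ⟨stdSimplexHomeomorphUnitInterval.symm,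
  stdSimplexHomeomorphUnitInterval.symm.continuous⟩

lemma seg_co (y : stdSimplex ℝ (Fin 2)) : seg (co y) = y :=
  stdSimplexHomeomorphUnitInterval.symm_apply_apply y

lemma co_val (y : stdSimplex ℝ (Fin 2)) : ((co y : I) : ℝ) = y 1 := rfl

lemma co_vertex0 : co (stdSimplex.vertex 0) = 0 := rfl
lemma co_vertex1 : co (stdSimplex.vertex 1) = 1 := rfl

lemma seg_zero : seg 0 = stdSimplex.vertex 0 := by rw [← co_vertex0, seg_co]
lemma seg_one : seg 1 = stdSimplex.vertex 1 := by rw [← co_vertex1, seg_co]

/-- The path of a 1-simplex. -/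
def pth (s : Simp 1 Y) : Path (s (stdSimplex.vertex 0)) (s (stdSimplex.vertex 1)) where
  toFun t := s (seg t)
  continuous_toFun := s.continuous.comp seg.continuous
  source' := by rw [seg_zero]
  target' := by rw [seg_one]

lemma pth_co (s : Simp 1 Y) (y : stdSimplex ℝ (Fin 2)) : pth s (co y) = s y := by
  change s (seg (co y)) = s y
  rw [seg_co]

lemma res_vtx {m : ℕ} (i : Fin (m + 1)) (s : Simp m Y) (x : stdSimplex ℝ (Fin 1)) :
    (show Simp 0 Y from (sing Y).res (vtxEmb i) s) x = s (stdSimplex.vertex i) := by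
  have hx : x = stdSimplex.vertex 0 := Subsingleton.elim _ _
  rw [hx]
  change s (stdSimplex.map (vtxEmb i) (stdSimplex.vertex 0)) = _
  rw [stdSimplex.map_vertex]
  rfl

lemma conn_zero [PathConnectedSpace Y] : Conn (sing Y) 0 := by
  intro S
  let x0 : Simp 0 Y := S.x 0
  let x1 : Simp 0 Y := S.x 1
  let γ : Path (x1 (stdSimplex.vertex 0)) (x0 (stdSimplex.vertex 0)) :=
    PathConnectedSpace.somePath _ _
  let w : Simp 1 Y := ⟨fun y => γ (co y), γ.continuous.comp co.continuous⟩
  refine ⟨w, ?_⟩
  intro j
  apply ContinuousMap.ext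
  intro x
  have hx : x = stdSimplex.vertex 0 := Subsingleton.elim _ _
  rw [hx]
  change γ (co (stdSimplex.map (Fin.succAboveOrderEmb j) (stdSimplex.vertex 0))) = _
  rw [stdSimplex.map_vertex]
  fin_cases j
  · change γ (co (stdSimplex.vertex 1)) = x0 _
    rw [co_vertex1, γ.target]
  · change γ (co (stdSimplex.vertex 0)) = x1 _
    rw [co_vertex0, γ.source]

lemma continuousAt_collapse {X : Type*} [TopologicalSpace X] {F : I × I → Y} (hF : Continuous F)
    {t s : X → I} {x : X} (hs : ContinuousAt s x) {P : Y} (hP : ∀ t, F (t, s x) = P) :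
    ContinuousAt (fun x => F (t x, s x)) x := by
  unfold ContinuousAt
  have e0 : (fun x => F (t x, s x)) x = P := hP _
  rw [e0, tendsto_nhds]
  intro V hV hPV
  have h1 : IsOpen {z : I | ∀ t : I, F (t, z) ∈ V} := by
    have h2 : {z : I | ∀ t : I, F (t, z) ∈ V}ᶜ = Prod.snd '' (F ⁻¹' Vᶜ) := by
      ext z
      simp only [mem_compl_iff, mem_ofPred_eq, not_forall, mem_image, mem_preimage, Prod.exists]
      constructor
      · rintro ⟨t, ht⟩
        exact ⟨t, z, ht, rfl⟩
      · rintro ⟨t, z', ht, rfl⟩
        exact ⟨t, ht⟩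
    rw [← isClosed_compl_iff, h2]
    exact (((hV.isClosed_compl.preimage hF).isCompact).image continuous_snd).isClosed
  have h3 : {z : I | ∀ t : I, F (t, z) ∈ V} ∈ 𝓝 (s x) :=
    h1.mem_nhds fun t => by rw [hP]; exact hPV
  filter_upwards [hs h3] with y hy
  exact hy _

/-- First coordinate of the map from the triangle to the square. -/
def tt (x : stdSimplex ℝ (Fin 3)) : I :=
  Set.projIcc (0 : ℝ) 1 zero_le_one (2 * min (x 0) (x 2) / (x 1 + 2 * min (x 0) (x 2)))

/-- Second coordinate of the map from the triangle to the square. -/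
def ss (x : stdSimplex ℝ (Fin 3)) : I :=
  Set.projIcc (0 : ℝ) 1 zero_le_one (x 1 / 2 + x 2)

lemma continuous_coord {n : ℕ} (i : Fin n) : Continuous fun x : stdSimplex ℝ (Fin n) => x i :=
  (continuous_apply i).comp continuous_subtype_val

lemma continuous_ss : Continuous ss :=
  continuous_projIcc.comp (((continuous_coord 1).div_const 2).add (continuous_coord 2))

lemma sum3 (x : stdSimplex ℝ (Fin 3)) : x 0 + x 1 + x 2 = 1 := by
  have := stdSimplex.sum_eq_one x
  rwa [Fin.sum_univ_three] at this

lemma continuous_tri {F : I × I → Y} (hF : Continuous F) {P Q : Y} (hP : ∀ t, F (t, 0) = P)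
    (hQ : ∀ t, F (t, 1) = Q) : Continuous fun x => F (tt x, ss x) := by
  rw [continuous_iff_continuousAt]
  intro x
  have h0 := stdSimplex.zero_le x 0
  have h1 := stdSimplex.zero_le x 1
  have h2 := stdSimplex.zero_le x 2
  have h3 := sum3 x
  by_cases hx : x 1 + 2 * min (x 0) (x 2) = 0
  · have hm : 0 ≤ min (x 0) (x 2) := le_min h0 h2
    have h4 : x 1 = 0 := by linarith
    have h5 : min (x 0) (x 2) = 0 := by linarith
    rcases min_choice (x 0) (x 2) with h6 | h6
    · have h7 : ss x = 1 := by
        unfold ss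
        rw [h4]
        have : (0 : ℝ) / 2 + x 2 = 1 := by linarith
        rw [this]
        exact Set.projIcc_right zero_le_one
      exact continuousAt_collapse hF continuous_ss.continuousAt (P := Q) fun t => by rw [h7, hQ]
    · have h7 : ss x = 0 := by
        unfold ss
        rw [h4]
        have : (0 : ℝ) / 2 + x 2 = 0 := by linarith
        rw [this]
        exact Set.projIcc_left zero_le_one
      exact continuousAt_collapse hF continuous_ss.continuousAt (P := P) fun t => by rw [h7, hP]
  · have h4 : Continuous fun x : stdSimplex ℝ (Fin 3) => 2 * min (x 0) (x 2) :=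
      continuous_const.mul ((continuous_coord 0).min (continuous_coord 2))
    have h5 : ContinuousAt tt x := by
      unfold tt
      refine continuous_projIcc.continuousAt.comp ?_
      exact ContinuousAt.div h4.continuousAt ((continuous_coord 1).add h4).continuousAt hx
    exact hF.continuousAt.comp (h5.prodMk continuous_ss.continuousAt)

lemma map_apply3 (j : Fin 3) (y : stdSimplex ℝ (Fin 2)) (k : Fin 2) :
    (stdSimplex.map (Fin.succAboveOrderEmb j) y) (j.succAbove k) = y k := by
  rw [stdSimplex.map_coe, FunOnFinite.linearMap_apply_apply]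
  rw [Finset.sum_eq_single k]
  · intro b hb hbk
    exfalso
    apply hbk
    rw [Finset.mem_filter] at hb
    exact (Fin.succAboveOrderEmb j).injective hb.2
  · intro h
    exfalso
    apply h
    rw [Finset.mem_filter]
    exact ⟨Finset.mem_univ _, rfl⟩

lemma map_apply_self (j : Fin 3) (y : stdSimplex ℝ (Fin 2)) :
    (stdSimplex.map (Fin.succAboveOrderEmb j) y) j = 0 := by
  rw [stdSimplex.map_coe, FunOnFinite.linearMap_apply_apply]
  apply Finset.sum_eq_zero
  intro b hb
  rw [Finset.mem_filter] at hb
  exact absurd hb.2 (Fin.succAbove_ne j b)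

lemma trans_lo {u v w : Y} (a : Path u v) (b : Path v w) (s r : I) (h : (s : ℝ) = r / 2) :
    (a.trans b) s = a r := by
  rw [Path.trans_apply, dif_pos (by rw [h]; have := r.2.2; linarith)]
  congr 1
  apply Subtype.ext
  change 2 * (s : ℝ) = r
  linarith

lemma trans_hi {u v w : Y} (a : Path u v) (b : Path v w) (s r : I) (h : (s : ℝ) = (1 + r) / 2) :
    (a.trans b) s = b r := by
  rw [Path.trans_apply]
  split_ifs with hs
  · have h0 := r.2.1
    have hr : r = 0 := by
      apply Subtype.ext
      change (r : ℝ) = 0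
      linarith
    have h1 : (⟨2 * (s : ℝ), (unitInterval.mul_pos_mem_iff zero_lt_two).2 ⟨s.2.1, hs⟩⟩ : I) = 1 := by
      apply Subtype.ext
      change 2 * (s : ℝ) = 1
      rw [h, hr]
      norm_num
    rw [h1, hr, a.target, b.source]
  · congr 1
    apply Subtype.ext
    change 2 * (s : ℝ) - 1 = r
    linarith

lemma sum2 (y : stdSimplex ℝ (Fin 2)) : y 0 + y 1 = 1 := stdSimplex.add_eq_one y

lemma conn_one [SimplyConnectedSpace Y] : Conn (sing Y) 1 := by
  intro S
  let x0 : Simp 1 Y := S.x 0
  let x1 : Simp 1 Y := S.x 1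
  let x2 : Simp 1 Y := S.x 2
  have e1 : x0 (stdSimplex.vertex 0) = x2 (stdSimplex.vertex 1) := by
    have h := S.compat 0 2 0 (vtxEmb 0) (vtxEmb 1) (fun t => rfl)
    have h2 := congrArg (fun s : Simp 0 Y => s (stdSimplex.vertex 0)) h
    exact (res_vtx 0 x0 _).symm.trans (h2.trans (res_vtx 1 x2 _))
  have e2 : x0 (stdSimplex.vertex 1) = x1 (stdSimplex.vertex 1) := by
    have h := S.compat 0 1 0 (vtxEmb 1) (vtxEmb 1) (fun t => rfl)
    have h2 := congrArg (fun s : Simp 0 Y => s (stdSimplex.vertex 0)) h
    exact (res_vtx 1 x0 _).symm.trans (h2.trans (res_vtx 1 x1 _))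
  have e3 : x2 (stdSimplex.vertex 0) = x1 (stdSimplex.vertex 0) := by
    have h := S.compat 2 1 0 (vtxEmb 0) (vtxEmb 0) (fun t => rfl)
    have h2 := congrArg (fun s : Simp 0 Y => s (stdSimplex.vertex 0)) h
    exact (res_vtx 0 x2 _).symm.trans (h2.trans (res_vtx 0 x1 _))
  let a := pth x2
  let b : Path (x2 (stdSimplex.vertex 1)) (x0 (stdSimplex.vertex 1)) := (pth x0).cast e1.symm rfl
  let c : Path (x2 (stdSimplex.vertex 0)) (x0 (stdSimplex.vertex 1)) := (pth x1).cast e3 e2
  obtain ⟨H⟩ : (a.trans b).Homotopic c := SimplyConnectedSpace.paths_homotopic _ _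
  have hP : ∀ t, H (t, 0) = x2 (stdSimplex.vertex 0) := fun t => H.source t
  have hQ : ∀ t, H (t, 1) = x0 (stdSimplex.vertex 1) := fun t => H.target t
  have h0 : ∀ s, H (0, s) = (a.trans b) s := fun s => H.apply_zero s
  have h1 : ∀ s, H (1, s) = c s := fun s => H.apply_one s
  let w : Simp 2 Y := ⟨fun x => H (tt x, ss x), continuous_tri H.continuous hP hQ⟩
  refine ⟨w, ?_⟩
  intro j
  apply ContinuousMap.ext
  intro y
  change H (tt (stdSimplex.map (Fin.succAboveOrderEmb j) y),
    ss (stdSimplex.map (Fin.succAboveOrderEmb j) y)) = _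
  have hy0 := stdSimplex.zero_le y 0
  have hy1 := stdSimplex.zero_le y 1
  have hy := sum2 y
  have proj : ∀ r : ℝ, 0 ≤ r → r ≤ 1 →
      ((Set.projIcc (0 : ℝ) 1 zero_le_one r : I) : ℝ) = r := by
    intro r hr0 hr1
    rw [Set.coe_projIcc, min_eq_right hr1, max_eq_right hr0]
  fin_cases j
  · -- the face opposite to the vertex 0
    have z0 := map_apply_self 0 y
    have z1 : (stdSimplex.map (Fin.succAboveOrderEmb 0) y) (1 : Fin 3) = y 0 := map_apply3 0 y 0
    have z2 : (stdSimplex.map (Fin.succAboveOrderEmb 0) y) (2 : Fin 3) = y 1 := map_apply3 0 y 1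
    change H (tt (stdSimplex.map (Fin.succAboveOrderEmb 0) y),
      ss (stdSimplex.map (Fin.succAboveOrderEmb 0) y)) = x0 y
    have ht : tt (stdSimplex.map (Fin.succAboveOrderEmb 0) y) = 0 := by
      unfold tt
      rw [z0, z1, z2, min_eq_left hy1, mul_zero, zero_div]
      exact Set.projIcc_left zero_le_one
    have hs : ((ss (stdSimplex.map (Fin.succAboveOrderEmb 0) y) : I) : ℝ) = (1 + co y) / 2 := by
      unfold ss
      rw [z1, z2, proj _ (by linarith) (by linarith), co_val]
      linarith
    rw [ht, h0, trans_hi _ _ _ _ hs]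
    exact pth_co x0 y
  · have z0 := map_apply_self 1 y
    have z1 : (stdSimplex.map (Fin.succAboveOrderEmb 1) y) (0 : Fin 3) = y 0 := map_apply3 1 y 0
    have z2 : (stdSimplex.map (Fin.succAboveOrderEmb 1) y) (2 : Fin 3) = y 1 := map_apply3 1 y 1
    change H (tt (stdSimplex.map (Fin.succAboveOrderEmb 1) y),
      ss (stdSimplex.map (Fin.succAboveOrderEmb 1) y)) = x1 y
    have hs : ss (stdSimplex.map (Fin.succAboveOrderEmb 1) y) = co y := by
      apply Subtype.ext
      unfold ss
      rw [z0, z2, proj _ (by linarith) (by linarith), co_val]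
      linarith
    have hc : H (1, co y) = x1 y := (h1 _).trans (pth_co x1 y)
    rw [hs]
    rcases eq_or_lt_of_le hy0 with h | h
    · have : co y = 1 := by
        apply Subtype.ext
        rw [co_val]
        change y 1 = (1 : ℝ)
        linarith
      rw [this] at hc ⊢
      rw [hQ, ← hc, hQ]
    · rcases eq_or_lt_of_le hy1 with h' | h'
      · have : co y = 0 := by
          apply Subtype.ext
          rw [co_val]
          exact h'.symm
        rw [this] at hc ⊢
        rw [hP, ← hc, hP]
      · have ht : tt (stdSimplex.map (Fin.succAboveOrderEmb 1) y) = 1 := by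
          unfold tt
          rw [z0, z1, z2, zero_add, div_self]
          · exact Set.projIcc_right zero_le_one
          · have := lt_min h h'
            positivity
        rw [ht, hc]
  · have z0 := map_apply_self 2 y
    have z1 : (stdSimplex.map (Fin.succAboveOrderEmb 2) y) (0 : Fin 3) = y 0 := map_apply3 2 y 0
    have z2 : (stdSimplex.map (Fin.succAboveOrderEmb 2) y) (1 : Fin 3) = y 1 := map_apply3 2 y 1
    change H (tt (stdSimplex.map (Fin.succAboveOrderEmb 2) y),
      ss (stdSimplex.map (Fin.succAboveOrderEmb 2) y)) = x2 y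
    have ht : tt (stdSimplex.map (Fin.succAboveOrderEmb 2) y) = 0 := by
      unfold tt
      rw [z0, z1, z2, min_eq_right hy0, mul_zero, zero_div]
      exact Set.projIcc_left zero_le_one
    have hs : ((ss (stdSimplex.map (Fin.succAboveOrderEmb 2) y) : I) : ℝ) = co y / 2 := by
      unfold ss
      rw [z0, z2, proj _ (by linarith) (by linarith), co_val]
      linarith
    rw [ht, h0, trans_lo _ _ _ _ hs]
    exact pth_co x2 y

end I10

theorem claimStart_proof : claimStart := by
  intro Y _ _
  have h0 : Conn (sing Y) 0 := I10.conn_zero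
  have h1 : Conn (sing Y) 1 := I10.conn_one
  refine ⟨{ E := sing Y, π := ⟨fun x => x, fun _ _ => rfl⟩, tr := ?_, pt := ?_, conn := ?_, lifts := ?_ }⟩
  · exact
      { T := fun f => f
        add := fun _ _ _ _ _ _ => rfl
        smul := fun _ _ _ _ _ => rfl
        bound := fun _ _ h => h
        sec := fun _ _ _ _ => rfl
        nat := fun _ _ _ _ _ => rfl }
  · exact (ContinuousMap.const _ (Classical.arbitrary Y) : Simp 0 Y)
  · intro m hm
    interval_cases m
    · exact h0
    · exact h1
  · intro m _ S w hw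
    exact ⟨w, hw, rfl⟩

end NRF
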