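import Pool.Agent.Work.MP_7f974f_gt.Stmts_I

/-!
# I12: Ivanov's comparison with the group
-/

set_option autoImplicit false

open Set

noncomputable section

namespace NRF

namespace I12

/-- The alternating sum over double faces vanishes. -/
theorem dd_zero {n : ℕ} {X : Type} (f : (Fin n → X) → ℝ) (v : Fin (n + 2) → X) :
    ∑ i : Fin (n + 2), (-1 : ℝ) ^ (i : ℕ) * ∑ l : Fin (n + 1), (-1 : ℝ) ^ (l : ℕ) *
      f (fun t => v (i.succAbove (l.succAbove t))) = 0 := by
  have h1 : ∑ i : Fin (n + 2), (-1 : ℝ) ^ (i : ℕ) * ∑ l : Fin (n + 1), (-1 : ℝ) ^ (l : ℕ) *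
      f (fun t => v (i.succAbove (l.succAbove t))) =
      ∑ p ∈ (Finset.univ ×ˢ Finset.univ : Finset (Fin (n + 2) × Fin (n + 1))),
        (-1 : ℝ) ^ ((p.1 : ℕ) + (p.2 : ℕ)) *
          f (fun t => v (p.1.succAbove (p.2.succAbove t))) := by
    rw [Finset.sum_product]
    refine Finset.sum_congr rfl fun i _ => ?_
    rw [Finset.mul_sum]
    refine Finset.sum_congr rfl fun l _ => ?_
    rw [pow_add, mul_assoc]
  rw [h1]
  refine Finset.sum_involution (fun p _ => (p.1.succAbove p.2, p.2.predAbove p.1)) ?_ ?_ ?_ ?_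
  · intro p _
    simp only [Fin.succAbove_succAbove_succAbove_predAbove]
    rw [Fin.neg_one_pow_succAbove_add_predAbove]
    ring
  · intro p _ _ h
    exact Fin.succAbove_ne p.1 p.2 (congrArg Prod.fst h)
  · intro p _
    simp
  · intro p _
    exact Prod.ext (Fin.succAbove_succAbove_predAbove _ _) (Fin.predAbove_predAbove_succAbove _ _)

section

variable {E : DSet} {G : Type} [Group G] (α : DAct G E)

theorem act_inv_act (g : G) {m : ℕ} (x : E.obj m) : α.a g (α.a g⁻¹ x) = x := by
  rw [← α.mul, mul_inv_cancel, α.one]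

theorem d_act (g : G) {m : ℕ} (i : Fin (m + 2)) (x : E.obj (m + 1)) :
    E.d i (α.a g x) = α.a g (E.d i x) := α.nat _ _ _

theorem delta_act (g : G) {m : ℕ} (f : E.obj m → ℝ) (x : E.obj (m + 1)) :
    E.delta f (α.a g x) = E.delta (fun y => f (α.a g y)) x := by
  simp only [DSet.delta, d_act]

variable {N : ℕ} (C : Contr E N)

/-- The translated contraction. -/
def kg (g : G) (q : ℕ) (f : E.obj (q + 1) → ℝ) (e : E.obj q) : ℝ :=
  C.k q (fun x => f (α.a g x)) (α.a g⁻¹ e)

theorem bdd_act {α' : Type} {β' : Type} {B : ℝ} {f : α' → ℝ} (hf : BddBy B f) (u : β' → α') :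
    BddBy B (fun x => f (u x)) := ⟨hf.1, fun _ => hf.2 _⟩

theorem kg_bound (g : G) (q : ℕ) (f : E.obj (q + 1) → ℝ) (B : ℝ) (hf : BddBy B f) :
    BddBy B (kg α C g q f) :=
  ⟨hf.1, fun _ => (C.k_bound q _ B (bdd_act hf _)).2 _⟩

theorem delta_bdd {m : ℕ} (f : E.obj m → ℝ) (B : ℝ) (hf : BddBy B f) :
    BddBy ((m + 2) * B) (E.delta f) := by
  refine ⟨mul_nonneg (by positivity) hf.1, fun x => ?_⟩
  refine (Finset.abs_sum_le_sum_abs _ _).trans ?_
  have h1 : ∀ i ∈ (Finset.univ : Finset (Fin (m + 2))),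
      |(-1 : ℝ) ^ (i : ℕ) * f (E.d i x)| ≤ B := by
    intro i _
    rw [abs_mul, abs_pow, abs_neg, abs_one, one_pow, one_mul]
    exact hf.2 _
  refine (Finset.sum_le_sum h1).trans (le_of_eq ?_)
  simp

theorem kg_succ (g : G) (q : ℕ) (hq : q + 1 ≤ N) (f : E.obj (q + 1) → ℝ) (B : ℝ)
    (hf : BddBy B f) (e : E.obj (q + 1)) :
    E.delta (kg α C g q f) e = f e - kg α C g (q + 1) (E.delta f) e := by
  have h := C.succ q hq (fun x => f (α.a g x)) B (bdd_act hf _) (α.a g⁻¹ e)
  simp only [act_inv_act] at h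
  rw [h]
  have h1 : E.delta (C.k q fun x => f (α.a g x)) (α.a g⁻¹ e) = E.delta (kg α C g q f) e := by
    rw [delta_act]
    rfl
  have h2 : (fun x => E.delta f (α.a g x)) = E.delta (fun x => f (α.a g x)) := by
    funext x
    exact delta_act α g f x
  rw [h1]
  unfold kg
  rw [h2]
  ring

/-- The translated contraction in degree `0`. -/
theorem kg_zero (g : G) (f : E.obj 0 → ℝ) (B : ℝ) (hf : BddBy B f) (e : E.obj 0) :
    C.k0 (fun x => f (α.a g x)) = f e - kg α C g 0 (E.delta f) e := by
  have h := C.zero (fun x => f (α.a g x)) B (bdd_act hf _) (α.a g⁻¹ e)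
  simp only [act_inv_act] at h
  rw [h]
  have h2 : (fun x => E.delta f (α.a g x)) = E.delta (fun x => f (α.a g x)) := by
    funext x
    exact delta_act α g f x
  unfold kg
  rw [h2]
  ring

theorem bdd_mono {X : Type} {f : X → ℝ} {B B' : ℝ} (h : BddBy B f) (hB : B ≤ B') :
    BddBy B' f := ⟨h.1.trans hB, fun x => (h.2 x).trans hB⟩

theorem kg_sum (g : G) (q : ℕ) {ι : Type} (s : Finset ι) (c : ι → ℝ)
    (f : ι → E.obj (q + 1) → ℝ) (hf : ∀ l, BddBy 1 (f l)) (e : E.obj q) :
    kg α C g q (fun x => ∑ l ∈ s, c l * f l x) e = ∑ l ∈ s, c l * kg α C g q (f l) e := by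
  classical
  have hb : ∀ s : Finset ι, BddBy (∑ l ∈ s, |c l|) (fun x => ∑ l ∈ s, c l * f l x) := by
    intro s
    refine ⟨Finset.sum_nonneg fun _ _ => abs_nonneg _, fun x => ?_⟩
    refine (Finset.abs_sum_le_sum_abs _ _).trans (Finset.sum_le_sum fun l _ => ?_)
    rw [abs_mul]
    exact mul_le_of_le_one_right (abs_nonneg _) ((hf l).2 x)
  induction s using Finset.induction_on with
  | empty =>
    simp only [Finset.sum_empty]
    have h := C.k_smul q 0 (fun _ => (0 : ℝ)) 0 ⟨le_refl _, fun _ => by simp⟩ (α.a g⁻¹ e)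
    simp only [zero_mul] at h
    exact h
  | insert a s ha ih =>
    simp only [Finset.sum_insert ha]
    rw [← ih]
    unfold kg
    have h1 : BddBy (|c a|) (fun x => c a * f a (α.a g x)) := by
      refine ⟨abs_nonneg _, fun x => ?_⟩
      rw [abs_mul]
      exact mul_le_of_le_one_right (abs_nonneg _) ((hf a).2 _)
    have h2 := bdd_act (hb s) (fun x : E.obj (q + 1) => α.a g x)
    rw [C.k_add q (fun x => c a * f a (α.a g x)) (fun x => ∑ l ∈ s, c l * f l (α.a g x))
      (max (|c a|) (∑ l ∈ s, |c l|)) (bdd_mono h1 (le_max_left _ _))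
      (bdd_mono h2 (le_max_right _ _))]
    rw [C.k_smul q (c a) (fun x => f a (α.a g x)) 1 (bdd_act (hf a) _)]

variable {m : ℕ} (β : E.obj (m + 1) → ℝ)

/-- The iterated translated contractions of the cochain `β`, as families of cochains in all
degrees. -/
def Fj : ∀ j : ℕ, (Fin j → G) → ∀ q : ℕ, E.obj q → ℝ
  | 0, _ => Function.update (fun _ _ => 0) (m + 1) β
  | j + 1, v => fun q => kg α C (v 0) q (Fj j (fun t => v t.succ) (q + 1))

theorem Fj_bdd (hβ : BddBy 1 β) : ∀ (j : ℕ) (v : Fin j → G) (q : ℕ),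
    BddBy 1 (Fj α C β j v q) := by
  intro j
  induction j with
  | zero =>
    intro v q
    unfold Fj
    by_cases h : q = m + 1
    · subst h
      rw [Function.update_self]
      exact hβ
    · rw [Function.update_of_ne h]
      exact ⟨zero_le_one, fun x => by simp⟩
  | succ j ih =>
    intro v q
    exact kg_bound α C _ _ _ _ (ih _ _)

theorem Fj_equiv (hβ : ∀ g e, β (α.a g e) = β e) : ∀ (j : ℕ) (v : Fin j → G) (q : ℕ) (g : G)
    (x : E.obj q), Fj α C β j (fun t => g * v t) q (α.a g x) = Fj α C β j v q x := by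
  intro j
  induction j with
  | zero =>
    intro v q g x
    unfold Fj
    by_cases h : q = m + 1
    · subst h
      rw [Function.update_self]
      exact hβ g x
    · rw [Function.update_of_ne h]
  | succ j ih =>
    intro v q g x
    show kg α C (g * v 0) q (Fj α C β j (fun t => g * v t.succ) (q + 1)) (α.a g x) =
      kg α C (v 0) q (Fj α C β j (fun t => v t.succ) (q + 1)) x
    unfold kg
    have h1 : (fun y => Fj α C β j (fun t => g * v t.succ) (q + 1) (α.a (g * v 0) y)) =
        fun y => Fj α C β j (fun t => v t.succ) (q + 1) (α.a (v 0) y) := by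
      funext y
      rw [α.mul]
      exact ih _ _ _ _
    have h2 : α.a (g * v 0)⁻¹ (α.a g x) = α.a (v 0)⁻¹ x := by
      rw [← α.mul, mul_inv_rev, inv_mul_cancel_right]
    rw [h1, h2]

theorem Fj_zero_delta (hc : ∀ e, E.delta β e = 0) (v : Fin 0 → G) (q : ℕ) (e : E.obj (q + 1)) :
    E.delta (Fj α C β 0 v q) e = 0 := by
  unfold Fj
  by_cases h : q = m + 1
  · subst h
    rw [Function.update_self]
    exact hc e
  · rw [Function.update_of_ne h]
    simp [DSet.delta]

theorem Fj_rel (hβ : BddBy 1 β) (hc : ∀ e, E.delta β e = 0) : ∀ (j : ℕ) (v : Fin (j + 1) → G)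
    (q : ℕ), q + j + 1 ≤ N → ∀ e : E.obj (q + 1), E.delta (Fj α C β (j + 1) v q) e =
      ∑ l : Fin (j + 1), (-1 : ℝ) ^ (l : ℕ) *
        Fj α C β j (fun t => v (l.succAbove t)) (q + 1) e := by
  intro j
  induction j with
  | zero =>
    intro v q hq e
    show E.delta (kg α C (v 0) q (Fj α C β 0 (fun t => v t.succ) (q + 1))) e = _
    rw [kg_succ α C (v 0) q (by omega) _ 1 (Fj_bdd α C β hβ _ _ _)]
    have h1 : E.delta (Fj α C β 0 (fun t => v t.succ) (q + 1)) = fun _ => 0 := by
      funext x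
      exact Fj_zero_delta α C β hc _ _ _
    have h2 : kg α C (v 0) (q + 1) (fun _ => (0 : ℝ)) e = 0 := by
      have := kg_sum α C (v 0) (q + 1) (∅ : Finset Unit) (fun _ => 0) (fun _ _ => 0)
        (fun _ => ⟨zero_le_one, fun _ => by simp⟩) e
      simpa using this
    rw [h1, h2, sub_zero]
    show _ = ∑ l : Fin 1, (-1 : ℝ) ^ (l : ℕ) *
      Fj α C β 0 (fun t => v (l.succAbove t)) (q + 1) e
    rw [Fin.sum_univ_one, Fin.val_zero, pow_zero, one_mul]
    rfl
  | succ j ih =>
    intro v q hq e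
    show E.delta (kg α C (v 0) q (Fj α C β (j + 1) (fun t => v t.succ) (q + 1))) e = _
    rw [kg_succ α C (v 0) q (by omega) _ 1 (Fj_bdd α C β hβ _ _ _)]
    have h1 : E.delta (Fj α C β (j + 1) (fun t => v t.succ) (q + 1)) = fun x =>
        ∑ l : Fin (j + 1), (-1 : ℝ) ^ (l : ℕ) *
          Fj α C β j (fun t => v (l.succAbove t).succ) (q + 1 + 1) x := by
      funext x
      exact ih (fun t => v t.succ) (q + 1) (by omega) x
    rw [h1, kg_sum α C (v 0) (q + 1) _ _ _ (fun l => Fj_bdd α C β hβ _ _ _),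
      Fin.sum_univ_succ (n := j + 1)]
    have h3 : ∀ l : Fin (j + 1), (-1 : ℝ) ^ (l.succ : ℕ) *
        Fj α C β (j + 1) (fun t => v (l.succ.succAbove t)) (q + 1) e =
        -((-1 : ℝ) ^ (l : ℕ) * kg α C (v 0) (q + 1)
          (Fj α C β j (fun t => v (l.succAbove t).succ) (q + 1 + 1)) e) := by
      intro l
      have h4 : Fj α C β (j + 1) (fun t => v (l.succ.succAbove t)) (q + 1) e =
          kg α C (v 0) (q + 1) (Fj α C β j (fun t => v (l.succAbove t).succ) (q + 1 + 1)) e := by
        show kg α C (v (l.succ.succAbove 0)) (q + 1)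
          (Fj α C β j (fun t => v (l.succ.succAbove t.succ)) (q + 1 + 1)) e = _
        simp only [Fin.succ_succAbove_zero, Fin.succ_succAbove_succ]
      rw [h4, Fin.val_succ, pow_succ]
      ring
    simp only [h3]
    rw [Finset.sum_neg_distrib, ← sub_eq_add_neg]
    simp only [Fin.val_zero, pow_zero, one_mul, Fin.zero_succAbove]

/-- The number `k0 (F_(m+1))`. -/
theorem k0_rel (C : Contr E (m + 1)) (hβ : BddBy 1 β) (hc : ∀ e, E.delta β e = 0)
    (v : Fin (m + 2) → G) (e : E.obj 0) :
    C.k0 (fun x => Fj α C β (m + 1) (fun t => v t.succ) 0 (α.a (v 0) x)) =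
      ∑ l : Fin (m + 2), (-1 : ℝ) ^ (l : ℕ) *
        Fj α C β (m + 1) (fun t => v (l.succAbove t)) 0 e := by
  rw [kg_zero α C (v 0) _ 1 (Fj_bdd α C β hβ _ _ _) e]
  have h1 : E.delta (Fj α C β (m + 1) (fun t => v t.succ) 0) = fun x =>
      ∑ l : Fin (m + 1), (-1 : ℝ) ^ (l : ℕ) *
        Fj α C β m (fun t => v (l.succAbove t).succ) (0 + 1) x := by
    funext x
    exact Fj_rel α C β hβ hc m (fun t => v t.succ) 0 (by omega) x
  rw [h1, kg_sum α C (v 0) 0 _ _ _ (fun l => Fj_bdd α C β hβ _ _ _),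
    Fin.sum_univ_succ (n := m + 1)]
  have h3 : ∀ l : Fin (m + 1), (-1 : ℝ) ^ (l.succ : ℕ) *
      Fj α C β (m + 1) (fun t => v (l.succ.succAbove t)) 0 e =
      -((-1 : ℝ) ^ (l : ℕ) * kg α C (v 0) 0
        (Fj α C β m (fun t => v (l.succAbove t).succ) (0 + 1)) e) := by
    intro l
    have h4 : Fj α C β (m + 1) (fun t => v (l.succ.succAbove t)) 0 e =
        kg α C (v 0) 0 (Fj α C β m (fun t => v (l.succAbove t).succ) (0 + 1)) e := by
      show kg α C (v (l.succ.succAbove 0)) 0
        (Fj α C β m (fun t => v (l.succ.succAbove t.succ)) (0 + 1)) e = _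
      simp only [Fin.succ_succAbove_zero, Fin.succ_succAbove_succ]
    rw [h4, Fin.val_succ, pow_succ]
    ring
  simp only [h3]
  rw [Finset.sum_neg_distrib, ← sub_eq_add_neg]
  simp only [Fin.val_zero, pow_zero, one_mul, Fin.zero_succAbove]

/-! ### Evaluation on front and back faces -/

/-- The back face `[v_p, ..., v_(p+q)]`. -/
def backEmb {p q n : ℕ} (h : p + q = n) : Fin (q + 1) ↪o Fin (n + 1) :=
  OrderEmbedding.ofStrictMono (fun t => ⟨p + t, by have := t.isLt; omega⟩) (by
    intro a b hab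
    rw [Fin.lt_def] at hab ⊢
    simp only
    omega)

/-- Evaluation. -/
def ev (r : E.obj 0 → G) {p q n : ℕ} (h : p + q = n) (F : (Fin (p + 1) → G) → E.obj q → ℝ)
    (e : E.obj n) : ℝ :=
  F (fun i => r (E.vtx ⟨i, by have := i.isLt; omega⟩ e)) (E.res (backEmb h) e)

theorem res_congr {k n : ℕ} (f f' : Fin (k + 1) ↪o Fin (n + 1)) (x : E.obj n)
    (h : ∀ t, (f t : ℕ) = f' t) : E.res f x = E.res f' x := by
  have : f = f' := by
    ext t
    exact h t
  rw [this]

theorem vtx_d {n : ℕ} (t : Fin (n + 1)) (i : Fin (n + 2)) (e : E.obj (n + 1)) :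
    E.vtx t (E.d i e) = E.vtx (i.succAbove t) e := by
  unfold DSet.vtx DSet.d
  rw [E.res_comp]
  exact res_congr _ _ _ fun s => rfl

theorem succAbove_val_lt {n : ℕ} (i : Fin (n + 1)) (t : Fin n) (h : (t : ℕ) < i) :
    ((i.succAbove t : Fin (n + 1)) : ℕ) = t := by
  rw [Fin.succAbove_of_castSucc_lt _ _ (by rw [Fin.lt_def]; simpa using h)]
  rfl

theorem succAbove_val_ge {n : ℕ} (i : Fin (n + 1)) (t : Fin n) (h : (i : ℕ) ≤ t) :
    ((i.succAbove t : Fin (n + 1)) : ℕ) = t + 1 := by
  rw [Fin.succAbove_of_le_castSucc _ _ (by rw [Fin.le_def]; simpa using h)]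
  rfl

theorem ev_delta (r : E.obj 0 → G) {p q n : ℕ} (h : p + q = n)
    (F : (Fin (p + 1) → G) → E.obj q → ℝ) (e : E.obj (n + 1)) :
    E.delta (ev r h F) e =
      ev r (show (p + 1) + q = n + 1 by omega) (fun v x => ∑ l : Fin (p + 2),
        (-1 : ℝ) ^ (l : ℕ) * F (fun t => v (l.succAbove t)) x) e +
      (-1 : ℝ) ^ p * ev r (show p + (q + 1) = n + 1 by omega) (fun v => E.delta (F v)) e := by
  subst h
  -- the terms
  set w : Fin (p + 2) → G := fun i => r (E.vtx ⟨i, by have := i.isLt; omega⟩ e) with hw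
  set w' : Fin (p + 1) → G := fun i => r (E.vtx ⟨i, by have := i.isLt; omega⟩ e) with hw'
  set X : E.obj q := E.res (backEmb (show (p + 1) + q = p + q + 1 by omega)) e with hX
  set Y : E.obj (q + 1) := E.res (backEmb (show p + (q + 1) = p + q + 1 by omega)) e with hY
  have hlow : ∀ i : Fin (p + 1), ev r rfl F (E.d (⟨i, by have := i.isLt; omega⟩ : Fin (p + q + 2)) e)
      = F (fun t => w ((⟨i, by have := i.isLt; omega⟩ : Fin (p + 2)).succAbove t)) X := by
    intro i
    unfold ev
    have h1 : (fun t : Fin (p + 1) => r (E.vtx (⟨t, by have := t.isLt; omega⟩ : Fin (p + q + 1))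
        (E.d (⟨i, by have := i.isLt; omega⟩ : Fin (p + q + 2)) e))) =
        fun t => w ((⟨i, by have := i.isLt; omega⟩ : Fin (p + 2)).succAbove t) := by
      funext t
      rw [vtx_d, hw]
      simp only
      congr 2
      apply Fin.ext
      rcases lt_or_ge (t : ℕ) (i : ℕ) with hti | hti
      · rw [succAbove_val_lt _ _ hti]
        simp only
        rw [succAbove_val_lt _ _ hti]
      · rw [succAbove_val_ge _ _ hti]
        simp only
        rw [succAbove_val_ge _ _ hti]
    have h2 : E.res (backEmb rfl) (E.d (⟨i, by have := i.isLt; omega⟩ : Fin (p + q + 2)) e) =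
        X := by
      unfold DSet.d
      rw [E.res_comp, hX]
      refine res_congr _ _ _ fun t => ?_
      show (((⟨i, _⟩ : Fin (p + q + 2)).succAbove ⟨p + t, _⟩ : Fin (p + q + 2)) : ℕ) = p + 1 + t
      rw [succAbove_val_ge _ _ (by have := i.isLt; simp only; omega)]
      simp only
      omega
    rw [h1, h2]
  have hhigh : ∀ i : Fin (q + 1), ev r rfl F (E.d (⟨p + 1 + i, by have := i.isLt; omega⟩ :
      Fin (p + q + 2)) e) = F w' (E.d i.succ Y) := by
    intro i
    unfold ev
    have h1 : (fun t : Fin (p + 1) => r (E.vtx (⟨t, by have := t.isLt; omega⟩ : Fin (p + q + 1))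
        (E.d (⟨p + 1 + i, by have := i.isLt; omega⟩ : Fin (p + q + 2)) e))) = w' := by
      funext t
      rw [vtx_d, hw']
      simp only
      congr 2
      apply Fin.ext
      rw [succAbove_val_lt _ _ (by have := t.isLt; simp only; omega)]
    have h2 : E.res (backEmb rfl) (E.d (⟨p + 1 + i, by have := i.isLt; omega⟩ :
        Fin (p + q + 2)) e) = E.d i.succ Y := by
      unfold DSet.d
      rw [E.res_comp, hY, E.res_comp]
      refine res_congr _ _ _ fun t => ?_
      show (((⟨p + 1 + i, _⟩ : Fin (p + q + 2)).succAbove ⟨p + t, _⟩ : Fin (p + q + 2)) : ℕ) =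
        p + ((i.succ.succAbove t : Fin (q + 2)) : ℕ)
      rcases lt_or_ge (t : ℕ) (i + 1 : ℕ) with hti | hti
      · rw [succAbove_val_lt _ _ (by simp only; omega),
          succAbove_val_lt i.succ t (by rw [Fin.val_succ]; exact hti)]
      · rw [succAbove_val_ge _ _ (by simp only; omega),
          succAbove_val_ge i.succ t (by rw [Fin.val_succ]; exact hti)]
        simp only
        omega
    rw [h1, h2]
  -- X is the zeroth face of Y
  have hXY : E.d 0 Y = X := by
    unfold DSet.d
    rw [hY, E.res_comp, hX]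
    refine res_congr _ _ _ fun t => ?_
    show p + (((0 : Fin (q + 2)).succAbove t : Fin (q + 2)) : ℕ) = p + 1 + t
    rw [Fin.zero_succAbove, Fin.val_succ]
    omega
  have hww : (fun t : Fin (p + 1) => w ((Fin.last (p + 1)).succAbove t)) = w' := by
    funext t
    rw [Fin.succAbove_last]
    rfl
  -- split the sum
  have hS : E.delta (ev r rfl F) e =
      (∑ i : Fin (p + 1), (-1 : ℝ) ^ (i : ℕ) *
        F (fun t => w ((⟨i, by have := i.isLt; omega⟩ : Fin (p + 2)).succAbove t)) X) +
      ∑ i : Fin (q + 1), (-1 : ℝ) ^ (p + 1 + (i : ℕ)) * F w' (E.d i.succ Y) := by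
    unfold DSet.delta
    have e1 : ∑ i : Fin (p + q + 2), (-1 : ℝ) ^ (i : ℕ) * ev r rfl F (E.d i e) =
        ∑ i ∈ Finset.range (p + q + 2), (if hi : i < p + q + 2 then
          (-1 : ℝ) ^ i * ev r rfl F (E.d (⟨i, hi⟩ : Fin (p + q + 2)) e) else 0) := by
      rw [Finset.sum_range]
      refine Finset.sum_congr rfl fun i _ => ?_
      rw [dif_pos i.isLt]
    have e2 : Finset.range (p + q + 2) = Finset.range ((p + 1) + (q + 1)) := by
      congr 1
      omega
    rw [e1, e2, Finset.sum_range_add]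
    congr 1
    · rw [Finset.sum_range]
      refine Finset.sum_congr rfl fun i _ => ?_
      rw [← hlow i, dif_pos (show (i : ℕ) < p + q + 2 by have := i.isLt; omega)]
    · rw [Finset.sum_range]
      refine Finset.sum_congr rfl fun i _ => ?_
      rw [← hhigh i, dif_pos (show p + 1 + (i : ℕ) < p + q + 2 by have := i.isLt; omega)]
  rw [hS]
  show _ = (∑ l : Fin (p + 2), (-1 : ℝ) ^ (l : ℕ) * F (fun t => w (l.succAbove t)) X) +
    (-1 : ℝ) ^ p * E.delta (F w') Y
  rw [Fin.sum_univ_castSucc (n := p + 1), hww]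
  unfold DSet.delta
  rw [Fin.sum_univ_succ (n := q + 1), hXY, mul_add, Finset.mul_sum]
  have h3 : ∀ i : Fin (q + 1), (-1 : ℝ) ^ p * ((-1 : ℝ) ^ (i.succ : ℕ) * F w' (E.d i.succ Y)) =
      (-1 : ℝ) ^ (p + 1 + (i : ℕ)) * F w' (E.d i.succ Y) := by
    intro i
    rw [Fin.val_succ, ← mul_assoc, ← pow_add]
    congr 2
    omega
  simp only [h3]
  have h4 : ((Fin.last (p + 1) : Fin (p + 2)) : ℕ) = p + 1 := rfl
  rw [h4]
  have h5 : ∀ i : Fin (p + 1), (-1 : ℝ) ^ ((i.castSucc : Fin (p + 2)) : ℕ) *
      F (fun t => w ((i.castSucc : Fin (p + 2)).succAbove t)) X = (-1 : ℝ) ^ (i : ℕ) *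
        F (fun t => w ((⟨i, by have := i.isLt; omega⟩ : Fin (p + 2)).succAbove t)) X :=
    fun i => rfl
  simp only [h5, Fin.val_zero, pow_zero, one_mul]
  ring

theorem ev_equiv (r : E.obj 0 → G) (hr : ∀ g v, r (α.a g v) = g * r v) {p q n : ℕ}
    (h : p + q = n) (F : (Fin (p + 1) → G) → E.obj q → ℝ)
    (hF : ∀ g v x, F (fun t => g * v t) (α.a g x) = F v x) (g : G) (e : E.obj n) :
    ev r h F (α.a g e) = ev r h F e := by
  unfold ev
  have h1 : ∀ i : Fin (n + 1), E.vtx i (α.a g e) = α.a g (E.vtx i e) := fun i => α.nat _ _ _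
  simp only [h1, hr]
  rw [α.nat, hF]

end

end I12

open I12 in
theorem claimIvanov_proof : claimIvanov := by
  intro E G _ α m hC r hr β hβ hinv hc
  obtain ⟨C⟩ := hC
  by_cases hne : Nonempty (E.obj 0)
  · obtain ⟨e0⟩ := hne
    -- the descending induction
    have key : ∀ j : ℕ, ∀ hj : j ≤ m + 1, ∃ (t : ℝ) (h : E.obj m → ℝ), (t = 1 ∨ t = -1) ∧
        (∀ g e, h (α.a g e) = h e) ∧ ∀ e, β e = t * ev r (show j + (m + 1 - j) = m + 1 by omega)
          (fun v x => ∑ l : Fin (j + 1), (-1 : ℝ) ^ (l : ℕ) *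
            Fj α C β j (fun s => v (l.succAbove s)) (m + 1 - j) x) e + E.delta h e := by
      intro j
      induction j with
      | zero =>
        intro hj
        refine ⟨1, fun _ => 0, Or.inl rfl, fun _ _ => rfl, fun e => ?_⟩
        have h1 : E.delta (fun _ : E.obj m => (0 : ℝ)) e = 0 := by simp [DSet.delta]
        rw [h1, add_zero, one_mul]
        have h2 : E.res (backEmb (show 0 + (m + 1 - 0) = m + 1 by omega)) e = e := by
          have h3 : backEmb (show 0 + (m + 1 - 0) = m + 1 by omega) =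
              RelEmbedding.refl _ := by
            ext t
            show 0 + (t : ℕ) = t
            omega
          rw [h3]
          exact E.res_id e
        have h4 : ∀ v : Fin 0 → G, Fj α C β 0 v (m + 1 - 0) e = β e := by
          intro v
          show Function.update (fun _ _ => (0 : ℝ)) (m + 1) β (m + 1) e = β e
          rw [Function.update_self]
        unfold ev
        erw [h2]
        show β e = ∑ l : Fin 1, (-1 : ℝ) ^ (l : ℕ) * _
        rw [Fin.sum_univ_one, Fin.val_zero, pow_zero, one_mul]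
        exact (h4 _).symm
      | succ j ih =>
        intro hj
        obtain ⟨t, h, ht, hh, he⟩ := ih (by omega)
        obtain ⟨q, hq⟩ : ∃ q, q + j = m := ⟨m - j, by omega⟩
        have hq1 : m + 1 - j = q + 1 := by omega
        have hq2 : m + 1 - (j + 1) = q := by omega
        have hjq : j + q = m := by omega
        -- transport the degrees
        have he' : ∀ e, β e = t * ev r (show j + (q + 1) = m + 1 by omega)
            (fun v x => ∑ l : Fin (j + 1), (-1 : ℝ) ^ (l : ℕ) *
              Fj α C β j (fun s => v (l.succAbove s)) (q + 1) x) e + E.delta h e := by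
          intro e
          rw [he e]
          congr 2
          have : ∀ (a : ℕ) (ha : j + a = m + 1) (b : ℕ) (hb : j + b = m + 1), a = b →
              ev r ha (fun v x => ∑ l : Fin (j + 1), (-1 : ℝ) ^ (l : ℕ) *
                Fj α C β j (fun s => v (l.succAbove s)) a x) e =
              ev r hb (fun v x => ∑ l : Fin (j + 1), (-1 : ℝ) ^ (l : ℕ) *
                Fj α C β j (fun s => v (l.succAbove s)) b x) e := by
            intro a ha b hb hab
            subst hab
            rfl
          exact this _ _ _ _ hq1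
        have hd := fun e : E.obj (m + 1) => ev_delta r hjq (fun v => Fj α C β (j + 1) v q) e
        have hrel : (fun v : Fin (j + 1) → G => E.delta (Fj α C β (j + 1) v q)) =
            fun v x => ∑ l : Fin (j + 1), (-1 : ℝ) ^ (l : ℕ) *
              Fj α C β j (fun s => v (l.succAbove s)) (q + 1) x := by
          funext v x
          exact Fj_rel α C β hβ hc j v q (by omega) x
        simp only [hrel] at hd
        have hsq : (-1 : ℝ) ^ j * (-1 : ℝ) ^ j = 1 := by
          rw [← mul_pow]
          simp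
        refine ⟨-(t * (-1) ^ j), fun e => h e + t * (-1) ^ j * ev r hjq
          (fun v => Fj α C β (j + 1) v q) e, ?_, ?_, ?_⟩
        · rcases neg_one_pow_eq_or ℝ j with h1 | h1 <;> rcases ht with h2 | h2 <;>
            simp [h1, h2]
        · intro g e
          simp only [hh]
          rw [ev_equiv α r hr hjq _ (fun g v x => Fj_equiv α C β hinv _ _ _ _ _)]
        · intro e
          have hdel : E.delta (fun e => h e + t * (-1) ^ j * ev r hjq
              (fun v => Fj α C β (j + 1) v q) e) e = E.delta h e + t * (-1) ^ j *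
                E.delta (ev r hjq (fun v => Fj α C β (j + 1) v q)) e := by
            unfold DSet.delta
            rw [Finset.mul_sum, ← Finset.sum_add_distrib]
            refine Finset.sum_congr rfl fun i _ => ?_
            ring
          rw [hdel, hd, he' e]
          have : ∀ (a : ℕ) (ha : j + 1 + a = m + 1) (b : ℕ) (hb : j + 1 + b = m + 1), a = b →
              ev r ha (fun v x => ∑ l : Fin (j + 1 + 1), (-1 : ℝ) ^ (l : ℕ) *
                Fj α C β (j + 1) (fun s => v (l.succAbove s)) a x) e =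
              ev r hb (fun v x => ∑ l : Fin (j + 1 + 1), (-1 : ℝ) ^ (l : ℕ) *
                Fj α C β (j + 1) (fun s => v (l.succAbove s)) b x) e := by
            intro a ha b hb hab
            subst hab
            rfl
          rw [this _ (show j + 1 + (m + 1 - (j + 1)) = m + 1 by omega) q (by omega) hq2]
          set A := ev r (show j + (q + 1) = m + 1 by omega)
            (fun v x => ∑ l : Fin (j + 1), (-1 : ℝ) ^ (l : ℕ) *
              Fj α C β j (fun s => v (l.succAbove s)) (q + 1) x) e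
          set B := ev r (show j + 1 + q = m + 1 by omega)
            (fun v x => ∑ l : Fin (j + 1 + 1), (-1 : ℝ) ^ (l : ℕ) *
              Fj α C β (j + 1) (fun s => v (l.succAbove s)) q x) e
          have h9 : t * (-1) ^ j * (B + (-1) ^ j * A) = t * (-1) ^ j * B + t * A := by
            rw [mul_add, show t * (-1 : ℝ) ^ j * ((-1) ^ j * A) = t * ((-1) ^ j * (-1) ^ j) * A by
              ring, hsq, mul_one]
          rw [h9]
          ring
    obtain ⟨t, h, ht, hh, he⟩ := key (m + 1) le_rfl
    have hb0 : ∀ (v : Fin (m + 2) → G) (e : E.obj 0),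
        C.k0 (fun x => Fj α C β (m + 1) (fun t => v t.succ) 0 (α.a (v 0) x)) =
          ∑ l : Fin (m + 2), (-1 : ℝ) ^ (l : ℕ) *
            Fj α C β (m + 1) (fun t => v (l.succAbove t)) 0 e :=
      fun v e => k0_rel α β C hβ hc v e
    refine ⟨fun v => t * C.k0 (fun x => Fj α C β (m + 1) (fun t => v t.succ) 0 (α.a (v 0) x)), h,
      ⟨zero_le_one, fun v => ?_⟩, ?_, ?_, hh, ?_⟩
    · rw [abs_mul]
      have h1 : |t| = 1 := by rcases ht with h | h <;> simp [h]
      rw [h1, one_mul]
      exact C.k0_bound _ 1 (bdd_act (Fj_bdd α C β hβ _ _ _) _)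
    · intro g v
      simp only
      congr 2
      funext x
      rw [α.mul]
      exact Fj_equiv α C β hinv _ _ _ _ _
    · intro v
      have h1 : ∀ i : Fin (m + 3), (-1 : ℝ) ^ (i : ℕ) *
          (t * C.k0 (fun x => Fj α C β (m + 1) (fun s => v (i.succAbove s.succ)) 0
            (α.a (v (i.succAbove 0)) x))) = t * ((-1 : ℝ) ^ (i : ℕ) *
          ∑ l : Fin (m + 2), (-1 : ℝ) ^ (l : ℕ) *
            Fj α C β (m + 1) (fun s => v (i.succAbove (l.succAbove s))) 0 e0) := by
        intro i
        rw [hb0 (fun s => v (i.succAbove s)) e0]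
        ring
      simp only [h1]
      rw [← Finset.mul_sum, dd_zero (fun u => Fj α C β (m + 1) u 0 e0) v, mul_zero]
    · intro e
      rw [he e]
      congr 2
      have : ∀ (a : ℕ) (ha : m + 1 + a = m + 1), a = 0 →
          ev r ha (fun v x => ∑ l : Fin (m + 1 + 1), (-1 : ℝ) ^ (l : ℕ) *
            Fj α C β (m + 1) (fun s => v (l.succAbove s)) a x) e =
          C.k0 (fun x => Fj α C β (m + 1) (fun t => r (E.vtx t.succ e)) 0
            (α.a (r (E.vtx 0 e)) x)) := by
        intro a ha ha0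
        subst ha0
        unfold ev
        rw [hb0 (fun i => r (E.vtx i e)) (E.res (backEmb ha) e)]
      exact this _ _ (by omega)
  · -- no vertices
    have hemp : ∀ n, IsEmpty (E.obj n) := by
      intro n
      refine ⟨fun x => hne ⟨E.vtx 0 x⟩⟩
    refine ⟨fun _ => 0, fun _ => 0, ⟨zero_le_one, fun _ => by simp⟩, fun _ _ => rfl, ?_, ?_, ?_⟩
    · intro v
      simp
    · intro g e
      rfl
    · intro e
      exact ((hemp _).false e).elim

end NRF
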