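import Pool.Agent.Work.MP_7f974f_gt.Stmts_I

/-!
# Module I, item I7: the homotopy addition theorem for singular simplices with cones
-/

open scoped Topology unitInterval Topology.Homotopy
open Set

noncomputable section

namespace NRF

namespace I7

/-! ### Standard simplices -/

/-- The standard simplex. -/
abbrev Dl (m : ℕ) := stdSimplex ℝ (Fin (m + 1))

/-- Convex combinations. -/
def comb {m : ℕ} (a : I) (x y : Dl m) : Dl m :=
  ⟨fun i => (1 - (a : ℝ)) * x i + (a : ℝ) * y i, by
    constructor
    · intro i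
      have h1 := stdSimplex.zero_le x i
      have h2 := stdSimplex.zero_le y i
      have h3 := a.2.1
      have h4 := a.2.2
      have h5 : 0 ≤ 1 - (a : ℝ) := by linarith
      positivity
    · rw [Finset.sum_add_distrib, ← Finset.mul_sum, ← Finset.mul_sum, stdSimplex.sum_eq_one,
        stdSimplex.sum_eq_one]
      ring⟩

theorem comb_apply {m : ℕ} (a : I) (x y : Dl m) (i : Fin (m + 1)) :
    comb a x y i = (1 - (a : ℝ)) * x i + (a : ℝ) * y i := rfl

theorem coe_cont {m : ℕ} (i : Fin (m + 1)) : Continuous fun x : Dl m => x i :=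
  (continuous_apply i).comp continuous_subtype_val

theorem continuous_comb {m : ℕ} {T : Type} [TopologicalSpace T] {a : T → I} {x y : T → Dl m}
    (ha : Continuous a) (hx : Continuous x) (hy : Continuous y) :
    Continuous fun t => comb (a t) (x t) (y t) := by
  refine Continuous.subtype_mk (continuous_pi fun i => ?_) _
  have h1 : Continuous fun t => ((a t : I) : ℝ) := continuous_subtype_val.comp ha
  have h2 : Continuous fun t => (x t) i := (coe_cont i).comp hx
  have h3 : Continuous fun t => (y t) i := (coe_cont i).comp hy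
  exact ((continuous_const.sub h1).mul h2).add (h1.mul h3)

theorem comb_zero {m : ℕ} (x y : Dl m) : comb 0 x y = x := by
  apply stdSimplex.ext
  funext i
  rw [comb_apply]
  simp

theorem comb_one {m : ℕ} (x y : Dl m) : comb 1 x y = y := by
  apply stdSimplex.ext
  funext i
  rw [comb_apply]
  simp

theorem comb_self {m : ℕ} (a : I) (x : Dl m) : comb a x x = x := by
  apply stdSimplex.ext
  funext i
  rw [comb_apply]
  ring

/-- The `j`-th face. -/
def face {m : ℕ} (j : Fin (m + 2)) (z : Dl m) : Dl (m + 1) := simpMap j.succAbove z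

theorem face_cont {m : ℕ} (j : Fin (m + 2)) : Continuous (face (m := m) j) :=
  (simpMap j.succAbove).continuous

theorem map_apply {k m : ℕ} (f : Fin (k + 1) → Fin (m + 1)) (z : Dl k) (i : Fin (m + 1)) :
    simpMap f z i = ∑ l with f l = i, z l := by
  show stdSimplex.map f z i = _
  rw [stdSimplex.map_coe, FunOnFinite.linearMap_apply_apply]

theorem face_self {m : ℕ} (j : Fin (m + 2)) (z : Dl m) : face j z j = 0 := by
  rw [face, map_apply]
  refine Finset.sum_eq_zero fun l hl => ?_
  exact absurd (Finset.mem_filter.1 hl).2 (Fin.succAbove_ne j l)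

theorem face_succAbove {m : ℕ} (j : Fin (m + 2)) (z : Dl m) (i : Fin (m + 1)) :
    face j z (j.succAbove i) = z i := by
  rw [face, map_apply]
  rw [Finset.sum_eq_single i]
  · intro l hl hne
    exact absurd (Fin.succAbove_right_injective (Finset.mem_filter.1 hl).2) hne
  · intro h
    exact absurd (by simp) h

theorem face_inj {m : ℕ} (j : Fin (m + 2)) {z z' : Dl m} (h : face j z = face j z') : z = z' := by
  apply stdSimplex.ext
  funext i
  have := congrArg (fun x : Dl (m + 1) => x (j.succAbove i)) h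
  simpa only [face_succAbove] using this

theorem exists_face {m : ℕ} {j : Fin (m + 2)} {x : Dl (m + 1)} (h : x j = 0) :
    ∃ z, face j z = x := by
  refine ⟨⟨fun i => x (j.succAbove i), fun i => stdSimplex.zero_le x _, ?_⟩, ?_⟩
  · have := stdSimplex.sum_eq_one x
    rw [Fin.sum_univ_succAbove _ j, h, zero_add] at this
    exact this
  · apply stdSimplex.ext
    funext i
    rcases Fin.eq_self_or_eq_succAbove j i with h1 | ⟨l, h1⟩
    · rw [h1, face_self, h]
    · rw [h1, face_succAbove]
      rfl

theorem face_comb {m : ℕ} (j : Fin (m + 2)) (a : I) (x y : Dl m) :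
    face j (comb a x y) = comb a (face j x) (face j y) := by
  apply stdSimplex.ext
  funext i
  rw [comb_apply]
  rcases Fin.eq_self_or_eq_succAbove j i with h1 | ⟨l, h1⟩
  · rw [h1, face_self, face_self, face_self]
    ring
  · rw [h1, face_succAbove, face_succAbove, face_succAbove, comb_apply]

/-- The vertex `0`. -/
def v0 (m : ℕ) : Dl m := stdSimplex.vertex 0

theorem face_v0 {m : ℕ} (j : Fin (m + 1)) : face j.succ (v0 m) = v0 (m + 1) := by
  show stdSimplex.map _ (stdSimplex.vertex 0) = _
  rw [stdSimplex.map_vertex]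
  rfl

theorem face_zero_comm {m : ℕ} (j : Fin (m + 2)) (z : Dl m) :
    face j.succ (face 0 z) = face 0 (face j z) := by
  show simpMap _ (simpMap _ z) = simpMap _ (simpMap _ z)
  show stdSimplex.map _ (stdSimplex.map _ z) = stdSimplex.map _ (stdSimplex.map _ z)
  rw [stdSimplex.map_comp_apply, stdSimplex.map_comp_apply]
  congr 1
  funext l
  simp [Function.comp]

theorem face_comm {m : ℕ} (j : Fin (m + 3)) (i : Fin (m + 2)) (z : Dl m) :
    face j (face i z) = face (j.succAbove i) (face (i.predAbove j) z) := by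
  show stdSimplex.map _ (stdSimplex.map _ z) = stdSimplex.map _ (stdSimplex.map _ z)
  rw [stdSimplex.map_comp_apply, stdSimplex.map_comp_apply]
  congr 1
  funext l
  show j.succAbove (i.succAbove l) = (j.succAbove i).succAbove ((i.predAbove j).succAbove l)
  rw [Fin.succAbove_succAbove_succAbove_predAbove]

/-- Points on two faces. -/
theorem two_faces {m : ℕ} {j j' : Fin (m + 3)} {x x' : Dl (m + 1)} (h : face j x = face j' x')
    (hne : j ≠ j') : ∃ (i : Fin (m + 2)) (z : Dl m), j' = j.succAbove i ∧ x = face i z ∧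
      x' = face (i.predAbove j) z := by
  obtain ⟨i, hi⟩ := Fin.exists_succAbove_eq (Ne.symm hne)
  have h0 : x i = 0 := by
    have h1 := congrArg (fun y : Dl (m + 2) => y j') h
    simp only [face_self] at h1
    rw [← hi, face_succAbove] at h1
    exact h1
  obtain ⟨z, hz⟩ := exists_face h0
  refine ⟨i, z, hi.symm, hz.symm, ?_⟩
  apply face_inj j'
  rw [← h, ← hz, face_comm, hi]

/-! ### Descending along quotient maps -/

theorem descend {A B Z : Type} [TopologicalSpace A] [CompactSpace A] [TopologicalSpace B]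
    [T2Space B] [TopologicalSpace Z] (q : A → B) (hq : Continuous q) (hs : Function.Surjective q)
    (f : A → Z) (hf : Continuous f) (h : ∀ a a', q a = q a' → f a = f a') :
    ∃ g : C(B, Z), ∀ a, g (q a) = f a := by
  have hqm : Topology.IsQuotientMap (ContinuousMap.mk q hq) := hq.isClosedMap.isQuotientMap hq hs
  refine ⟨hqm.lift ⟨f, hf⟩ (fun a a' haa => h a a' haa), fun a => ?_⟩
  have := hqm.lift_comp ⟨f, hf⟩ (fun a a' haa => h a a' haa)
  exact DFunLike.congr_fun this a

/-- Compatible families of maps on the faces. -/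
def Compat {Y : Type} {m : ℕ} (G : Fin (m + 2) → Dl m → Y) : Prop :=
  ∀ j j' z z', face j z = face j' z' → G j z = G j' z'

/-- The barycentre. -/
def bc (m : ℕ) : Dl m := ⟨fun _ => 1 / ((m : ℝ) + 1), fun _ => by positivity, by
  rw [Finset.sum_const, Finset.card_univ, Fintype.card_fin, nsmul_eq_mul]
  push_cast
  field_simp⟩

theorem bc_apply {m : ℕ} (i : Fin (m + 1)) : bc m i = 1 / ((m : ℝ) + 1) := rfl

/-- Polar coordinates exist. -/
theorem polar_surj {m : ℕ} (x : Dl (m + 1)) :
    ∃ (j : Fin (m + 2)) (z : Dl m) (a : I), comb a (face j z) (bc (m + 1)) = x := by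
  obtain ⟨i, -, hi⟩ := Finset.exists_min_image (Finset.univ : Finset (Fin (m + 2))) (fun i => x i)
    Finset.univ_nonempty
  have hi' : ∀ l, x i ≤ x l := fun l => hi l (Finset.mem_univ l)
  have hx0 : 0 ≤ x i := stdSimplex.zero_le x i
  have hm : (0 : ℝ) < (m : ℝ) + 2 := by positivity
  have hsum : ∑ l : Fin (m + 2), x l = 1 := stdSimplex.sum_eq_one x
  have hle : ((m : ℝ) + 2) * x i ≤ 1 := by
    have h1 : ∑ l : Fin (m + 2), x i ≤ ∑ l : Fin (m + 2), x l := Finset.sum_le_sum fun l _ => hi' l
    rw [Finset.sum_const, Finset.card_univ, Fintype.card_fin, nsmul_eq_mul, hsum] at h1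
    push_cast at h1
    linarith
  rcases eq_or_lt_of_le hle with h1 | h1
  · -- the barycentre
    have hxi : x i = 1 / ((m : ℝ) + 2) := by field_simp; linarith
    have h2 : ∀ l, x l = x i := by
      intro l
      by_contra hne
      have hlt : x i < x l := lt_of_le_of_ne (hi' l) (Ne.symm hne)
      have h3 : ∑ l : Fin (m + 2), x i < ∑ l : Fin (m + 2), x l :=
        Finset.sum_lt_sum (fun l _ => hi' l) ⟨l, Finset.mem_univ l, hlt⟩
      rw [Finset.sum_const, Finset.card_univ, Fintype.card_fin, nsmul_eq_mul, hsum] at h3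
      push_cast at h3
      linarith
    refine ⟨0, v0 m, 1, ?_⟩
    rw [comb_one]
    apply stdSimplex.ext
    funext l
    rw [h2 l, hxi, bc_apply]
    push_cast
    ring_nf
  · set a : ℝ := ((m : ℝ) + 2) * x i with ha
    have ha0 : 0 ≤ a := by positivity
    have h1a : 0 < 1 - a := by linarith
    let y : Dl (m + 1) := ⟨fun l => (x l - x i) / (1 - a), fun l =>
        div_nonneg (sub_nonneg.2 (hi' l)) h1a.le, by
      rw [← Finset.sum_div, Finset.sum_sub_distrib, hsum, Finset.sum_const, Finset.card_univ,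
        Fintype.card_fin, nsmul_eq_mul, div_eq_one_iff_eq h1a.ne']
      push_cast
      rw [ha]
      ring⟩
    have hyi : y i = 0 := by
      show (x i - x i) / (1 - a) = 0
      rw [sub_self, zero_div]
    obtain ⟨z, hz⟩ := exists_face hyi
    refine ⟨i, z, ⟨a, ha0, h1.le⟩, ?_⟩
    rw [hz]
    apply stdSimplex.ext
    funext l
    rw [comb_apply, bc_apply]
    show (1 - a) * ((x l - x i) / (1 - a)) + a * (1 / (((m + 1 : ℕ) : ℝ) + 1)) = x l
    rw [mul_div_cancel₀ _ h1a.ne', ha]
    push_cast
    field_simp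
    ring

theorem polar_le {m : ℕ} {j j' : Fin (m + 2)} {z z' : Dl m} {a a' : I}
    (h : comb a (face j z) (bc (m + 1)) = comb a' (face j' z') (bc (m + 1))) :
    (a' : ℝ) ≤ a := by
  have h1 := congrArg (fun x : Dl (m + 1) => x j) h
  simp only [comb_apply, face_self, bc_apply] at h1
  have h2 := stdSimplex.zero_le (face j' z') j
  have h3 := a'.2.2
  have hm : (0 : ℝ) < 1 / (((m + 1 : ℕ) : ℝ) + 1) := by positivity
  have h4 : 0 ≤ (1 - (a' : ℝ)) * (face j' z') j := mul_nonneg (by linarith) h2
  have h5 : (a' : ℝ) * (1 / (((m + 1 : ℕ) : ℝ) + 1)) ≤ (a : ℝ) * (1 / (((m + 1 : ℕ) : ℝ) + 1)) := by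
    linarith
  exact le_of_mul_le_mul_right h5 hm

theorem polar_inj {m : ℕ} {j j' : Fin (m + 2)} {z z' : Dl m} {a a' : I}
    (h : comb a (face j z) (bc (m + 1)) = comb a' (face j' z') (bc (m + 1))) :
    a = a' ∧ (a ≠ 1 → face j z = face j' z') := by
  have ha : a = a' := Subtype.ext (le_antisymm (polar_le h.symm) (polar_le h))
  refine ⟨ha, fun hne => ?_⟩
  subst ha
  have h1 : (0 : ℝ) < 1 - a := by
    have := a.2.2
    have h2 : (a : ℝ) ≠ 1 := fun h => hne (Subtype.ext h)
    exact sub_pos.2 (lt_of_le_of_ne this h2)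
  apply stdSimplex.ext
  funext l
  have h3 := congrArg (fun x : Dl (m + 1) => x l) h
  simp only [comb_apply] at h3
  have h4 : (1 - (a : ℝ)) * (face j z) l = (1 - (a : ℝ)) * (face j' z') l := by linarith
  exact mul_left_cancel₀ h1.ne' h4

/-- The homotopy extension property of `(Δ, ∂Δ)`. -/
theorem hep {Y : Type} [TopologicalSpace Y] {m : ℕ} (G : Fin (m + 2) → Dl m → I → Y)
    (hc : ∀ j, Continuous fun p : Dl m × I => G j p.1 p.2) (hG : ∀ t, Compat fun j z => G j z t)
    (w0 : Dl (m + 1) → Y) (hw0 : Continuous w0) (h0 : ∀ j z, w0 (face j z) = G j z 0) :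
    ∃ W : Dl (m + 1) → I → Y, (Continuous fun p : Dl (m + 1) × I => W p.1 p.2) ∧
      (∀ x, W x 0 = w0 x) ∧ ∀ j z t, W (face j z) t = G j z t := by
  -- the function `φ = a - t (1 - a)`
  set φ : I → I → ℝ := fun a t => (a : ℝ) - t * (1 - a) with hφ
  set f : Fin (m + 2) × (Dl m × I × I) → Y := fun p =>
    if 0 ≤ φ p.2.2.1 p.2.2.2 then
      w0 (comb (projIcc 0 1 zero_le_one (φ p.2.2.1 p.2.2.2)) (face p.1 p.2.1) (bc (m + 1)))
    else G p.1 p.2.1 (projIcc 0 1 zero_le_one (-(φ p.2.2.1 p.2.2.2))) with hf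
  have hφc : Continuous fun p : Dl m × I × I => φ p.2.1 p.2.2 := by
    have h1 : Continuous fun p : Dl m × I × I => ((p.2.1 : I) : ℝ) := by fun_prop
    have h2 : Continuous fun p : Dl m × I × I => ((p.2.2 : I) : ℝ) := by fun_prop
    exact h1.sub (h2.mul (continuous_const.sub h1))
  have hpr0 : projIcc (0 : ℝ) 1 zero_le_one 0 = (0 : I) := projIcc_left _
  have hpc : Continuous (projIcc (0 : ℝ) 1 zero_le_one) := continuous_projIcc
  have hfc : Continuous f := by
    rw [continuous_prod_of_discrete_left]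
    intro j
    refine Continuous.if_le ?_ ?_ continuous_const hφc ?_
    · exact hw0.comp (continuous_comb (hpc.comp hφc)
        ((face_cont j).comp continuous_fst) continuous_const)
    · exact (hc j).comp (continuous_fst.prodMk (hpc.comp hφc.neg))
    · intro p hp
      show w0 (comb (projIcc 0 1 zero_le_one (φ p.2.1 p.2.2)) (face j p.1) (bc (m + 1))) =
        G j p.1 (projIcc 0 1 zero_le_one (-(φ p.2.1 p.2.2)))
      rw [← hp, neg_zero, hpr0, comb_zero, h0]
  set q : Fin (m + 2) × (Dl m × I × I) → Dl (m + 1) × I := fun p =>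
    (comb p.2.2.1 (face p.1 p.2.1) (bc (m + 1)), p.2.2.2) with hq
  have hqc : Continuous q := by
    rw [continuous_prod_of_discrete_left]
    intro j
    refine Continuous.prodMk ?_ (by fun_prop)
    exact continuous_comb (by fun_prop) ((face_cont j).comp continuous_fst) continuous_const
  have hqs : Function.Surjective q := by
    rintro ⟨x, t⟩
    obtain ⟨j, z, a, h⟩ := polar_surj x
    exact ⟨(j, z, a, t), by rw [hq]; simp only [h]⟩
  have hcf : ∀ p p', q p = q p' → f p = f p' := by
    rintro ⟨j, z, a, t⟩ ⟨j', z', a', t'⟩ h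
    simp only [hq, Prod.mk.injEq] at h
    obtain ⟨h1, rfl⟩ := h
    obtain ⟨rfl, h3⟩ := polar_inj h1
    by_cases ha : a = 1
    · subst ha
      have hφ1 : φ 1 t = 1 := by simp [hφ]
      simp only [hf, hφ1, zero_le_one, if_true]
      have : projIcc (0 : ℝ) 1 zero_le_one 1 = (1 : I) := projIcc_right _
      rw [this, comb_one, comb_one]
    · have h4 := h3 ha
      simp only [hf]
      rw [h4]
      split_ifs
      · rfl
      · exact hG _ j j' z z' h4
  obtain ⟨g, hg⟩ := descend q hqc hqs f hfc hcf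
  refine ⟨fun x t => g (x, t), g.continuous, fun x => ?_, fun j z t => ?_⟩
  · obtain ⟨j, z, a, h⟩ := polar_surj x
    have h1 : q (j, z, a, 0) = (x, 0) := by simp only [hq, h]
    show g (x, 0) = w0 x
    rw [← h1, hg]
    have h2 : φ a 0 = a := by simp [hφ]
    simp only [hf, h2]
    rw [if_pos a.2.1, projIcc_val, h]
  · have h1 : q (j, z, 0, t) = (face j z, t) := by simp only [hq, comb_zero]
    show g (face j z, t) = G j z t
    rw [← h1, hg]
    have h2 : φ 0 t = -t := by simp [hφ]
    simp only [hf, h2]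
    by_cases ht : t = 0
    · subst ht
      rw [if_pos (by simp)]
      have : projIcc (0 : ℝ) 1 zero_le_one (-((0 : I) : ℝ)) = (0 : I) := by
        simp
      rw [this, comb_zero, h0]
    · rw [if_neg, neg_neg, projIcc_val]
      have : (0 : ℝ) < t := lt_of_le_of_ne t.2.1 fun h => ht (Subtype.ext h.symm)
      linarith

/-! ### The boundary of the simplex, realisation -/

/-- The boundary of the standard simplex. -/
abbrev Bd (m : ℕ) := {x : Dl (m + 1) // ∃ i, x i = 0}

/-- The faces as maps to the boundary. -/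
def faceB {m : ℕ} (j : Fin (m + 2)) (z : Dl m) : Bd m := ⟨face j z, j, face_self j z⟩

theorem faceB_cont {m : ℕ} (j : Fin (m + 2)) : Continuous (faceB (m := m) j) :=
  Continuous.subtype_mk (face_cont j) _

theorem faceB_eq {m : ℕ} {j j' : Fin (m + 2)} {z z' : Dl m} (h : face j z = face j' z') :
    faceB j z = faceB j' z' := Subtype.ext h

theorem realise {Y T : Type} [TopologicalSpace Y] [TopologicalSpace T] [CompactSpace T]
    [T2Space T] {m : ℕ} (G : Fin (m + 2) → Dl m → T → Y)
    (hc : ∀ j, Continuous fun p : Dl m × T => G j p.1 p.2) (hG : ∀ t, Compat fun j z => G j z t) :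
    ∃ R : Bd m → T → Y, (Continuous fun p : Bd m × T => R p.1 p.2) ∧
      ∀ j z t, R (faceB j z) t = G j z t := by
  set f : Fin (m + 2) × (Dl m × T) → Y := fun p => G p.1 p.2.1 p.2.2 with hf
  have hfc : Continuous f := by
    rw [continuous_prod_of_discrete_left]
    intro j
    exact hc j
  set q : Fin (m + 2) × (Dl m × T) → Bd m × T := fun p => (faceB p.1 p.2.1, p.2.2) with hq
  have hqc : Continuous q := by
    rw [continuous_prod_of_discrete_left]
    intro j
    exact ((faceB_cont j).comp continuous_fst).prodMk continuous_snd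
  have hqs : Function.Surjective q := by
    rintro ⟨⟨x, j, hx⟩, t⟩
    obtain ⟨z, hz⟩ := exists_face hx
    refine ⟨(j, z, t), ?_⟩
    simp only [hq, Prod.mk.injEq, and_true]
    exact Subtype.ext hz
  have hcf : ∀ p p', q p = q p' → f p = f p' := by
    rintro ⟨j, z, t⟩ ⟨j', z', t'⟩ h
    simp only [hq, Prod.mk.injEq] at h
    obtain ⟨h1, rfl⟩ := h
    exact hG t j j' z z' (congrArg Subtype.val h1)
  obtain ⟨g, hg⟩ := descend q hqc hqs f hfc hcf
  exact ⟨fun x t => g (x, t), g.continuous, fun j z t => hg (j, z, t)⟩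

theorem bd_cases {m : ℕ} (x : Bd m) : ∃ j z, x = faceB j z := by
  obtain ⟨x, j, hx⟩ := x
  obtain ⟨z, hz⟩ := exists_face hx
  exact ⟨j, z, Subtype.ext hz.symm⟩

/-! ### Spheres -/

section

variable {Y : Type} [TopologicalSpace Y]

/-- Evaluation of a sphere. -/
def ev {m : ℕ} (S : Sphere (sing Y) m) (j : Fin (m + 2)) (z : Dl m) : Y :=
  (show Simp m Y from S.x j) z

theorem ev_cont {m : ℕ} (S : Sphere (sing Y) m) (j : Fin (m + 2)) : Continuous (ev S j) :=
  (show Simp m Y from S.x j).continuous

theorem ev_compat {m : ℕ} (S : Sphere (sing Y) (m + 1)) : Compat (ev S) := by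
  intro j j' x x' h
  by_cases hne : j = j'
  · subst hne
    rw [face_inj j h]
  · obtain ⟨i, z, hj, rfl, rfl⟩ := two_faces h hne
    have h1 := S.compat j j' m (Fin.succAboveOrderEmb i) (Fin.succAboveOrderEmb (i.predAbove j)) (by
      intro t
      show j.succAbove (i.succAbove t) = j'.succAbove ((i.predAbove j).succAbove t)
      rw [hj, Fin.succAbove_succAbove_succAbove_predAbove])
    exact congrArg (fun s : Simp m Y => s z) h1

/-- Spheres from compatible families. -/
def mkS {m : ℕ} (G : Fin (m + 2) → Dl m → Y) (hc : ∀ j, Continuous (G j)) (h : Compat G) :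
    Sphere (sing Y) m where
  x j := (⟨G j, hc j⟩ : Simp m Y)
  compat j j' k f g hfg := by
    show (ContinuousMap.mk (G j) (hc j)).comp (simpMap f) =
      (ContinuousMap.mk (G j') (hc j')).comp (simpMap g)
    ext z
    show G j (simpMap f z) = G j' (simpMap g z)
    apply h
    show stdSimplex.map _ (stdSimplex.map _ z) = stdSimplex.map _ (stdSimplex.map _ z)
    rw [stdSimplex.map_comp_apply, stdSimplex.map_comp_apply]
    congr 1
    funext t
    exact hfg t

theorem ev_mkS {m : ℕ} (G : Fin (m + 2) → Dl m → Y) (hc : ∀ j, Continuous (G j)) (h : Compat G) :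
    ev (mkS G hc h) = G := rfl

/-- Fillability of families. -/
def Fill {m : ℕ} (G : Fin (m + 2) → Dl m → Y) : Prop :=
  ∃ w : Dl (m + 1) → Y, Continuous w ∧ ∀ j z, w (face j z) = G j z

theorem fills_iff {m : ℕ} (S : Sphere (sing Y) m) : (∃ w, Fills w S) ↔ Fill (ev S) := by
  constructor
  · rintro ⟨w, hw⟩
    refine ⟨(show Simp (m + 1) Y from w), (show Simp (m + 1) Y from w).continuous, fun j z => ?_⟩
    exact congrArg (fun s : Simp m Y => s z) (hw j)
  · rintro ⟨w, hwc, hw⟩
    refine ⟨(⟨w, hwc⟩ : Simp (m + 1) Y), fun j => ?_⟩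
    show (ContinuousMap.mk w hwc).comp (simpMap (Fin.succAboveOrderEmb j)) =
      (show Simp m Y from S.x j)
    ext z
    exact hw j z

/-- Fillability is invariant under homotopy. -/
theorem fill_homotopy {m : ℕ} (G : Fin (m + 2) → Dl m → I → Y)
    (hc : ∀ j, Continuous fun p : Dl m × I => G j p.1 p.2) (hG : ∀ t, Compat fun j z => G j z t) :
    Fill (fun j z => G j z 0) ↔ Fill (fun j z => G j z 1) := by
  constructor
  · rintro ⟨w, hwc, hw⟩
    obtain ⟨W, hW, -, hW1⟩ := hep G hc hG w hwc hw
    exact ⟨fun x => W x 1, hW.comp (continuous_id.prodMk continuous_const), fun j z => hW1 j z 1⟩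
  · rintro ⟨w, hwc, hw⟩
    obtain ⟨W, hW, -, hW1⟩ := hep (fun j z t => G j z (unitInterval.symm t))
      (fun j => (hc j).comp (continuous_fst.prodMk
        (unitInterval.continuous_symm.comp continuous_snd))) (fun t => hG _) w hwc
      (fun j z => by rw [hw, unitInterval.symm_zero])
    exact ⟨fun x => W x 1, hW.comp (continuous_id.prodMk continuous_const), fun j z => by
      show W (face j z) 1 = G j z 0
      rw [hW1, unitInterval.symm_one]⟩

/-! ### Contraction of the cones -/

/-- The cone point of a point of the base of a cone. -/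
def cn {m : ℕ} (z : Dl m) (t : I) : Dl (m + 1) := comb t (face 0 z) (v0 (m + 1))

theorem cn_cont {m : ℕ} : Continuous fun p : Dl m × I => cn p.1 p.2 :=
  continuous_comb continuous_snd ((face_cont 0).comp continuous_fst) continuous_const

theorem cn_zero {m : ℕ} (z : Dl m) : cn z 0 = face 0 z := comb_zero _ _

theorem cn_one {m : ℕ} (z : Dl m) : cn z 1 = v0 (m + 1) := comb_one _ _

theorem face_cn {m : ℕ} (j : Fin (m + 2)) (z : Dl m) (t : I) :
    face j.succ (cn z t) = comb t (face 0 (face j z)) (v0 (m + 2)) := by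
  rw [cn, face_comb, face_v0, face_zero_comm]

theorem face_cn_eq {m : ℕ} {j j' : Fin (m + 2)} {z z' : Dl m} (h : face j z = face j' z') (t : I) :
    face j.succ (cn z t) = face j'.succ (cn z' t) := by
  rw [face_cn, face_cn, h]

/-- The deformation of the face `0` of the boundary: it collapses the boundary of the face along the
cones. -/
theorem exists_Q (m : ℕ) : ∃ Q : Dl (m + 1) → I → Bd (m + 1),
    (Continuous fun p : Dl (m + 1) × I => Q p.1 p.2) ∧ (∀ x, Q x 0 = faceB 0 x) ∧
      ∀ j z t, Q (face j z) t = faceB j.succ (cn z t) := by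
  refine hep (Y := Bd (m + 1)) (fun j z t => faceB j.succ (cn z t))
    (fun j => (faceB_cont _).comp cn_cont) (fun t j j' z z' h => ?_) (faceB 0) (faceB_cont 0)
    (fun j z => ?_)
  · exact faceB_eq (face_cn_eq h t)
  · show faceB 0 (face j z) = faceB j.succ (cn z 0)
    rw [cn_zero]
    exact faceB_eq (face_zero_comm j z).symm

theorem ev_apex {m : ℕ} (S : Sphere (sing Y) (m + 1)) (j : Fin (m + 2)) :
    ev S j.succ (v0 (m + 1)) = S.apex := by
  show ev S j.succ (v0 (m + 1)) = ev S 1 (v0 (m + 1))
  apply ev_compat S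
  have h := face_v0 (m := m + 1) (0 : Fin (m + 2))
  rw [face_v0]
  exact h.symm

theorem static {m : ℕ} (S : Sphere (sing Y) (m + 1)) :
    ∃ R : Bd (m + 1) → Y, Continuous R ∧ ∀ j z, R (faceB j z) = ev S j z := by
  obtain ⟨R, hRc, hR⟩ := realise (T := Unit) (fun j z _ => ev S j z)
    (fun j => (ev_cont S j).comp continuous_fst) (fun _ => ev_compat S)
  exact ⟨fun x => R x (), hRc.comp (continuous_id.prodMk continuous_const), fun j z => hR j z ()⟩

theorem compat_cons {m : ℕ} (A : Dl (m + 1) → Y) (B : Fin (m + 2) → Dl (m + 1) → Y)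
    (h1 : ∀ (l : Fin (m + 2)) (z : Dl m), A (face l z) = B l (face 0 z))
    (h2 : ∀ (i i' : Fin (m + 2)) (x x' : Dl (m + 1)), face i.succ x = face i'.succ x' →
      B i x = B i' x') :
    Compat (fun (j : Fin (m + 3)) z => Fin.cases (motive := fun _ => Y) (A z) (fun i => B i z) j)
    := by
  have h3 : ∀ (i : Fin (m + 2)) (x x' : Dl (m + 1)), face 0 x = face i.succ x' → A x = B i x' := by
    intro i x x' h
    obtain ⟨l, z, h4, rfl, rfl⟩ := two_faces h (Fin.succ_ne_zero i).symm
    rw [Fin.zero_succAbove] at h4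
    have h5 : i = l := Fin.succ_injective _ h4
    subst h5
    rw [h1]
    have h6 : i.predAbove (0 : Fin (m + 3)) = 0 := by simp
    rw [h6]
  intro j j' x x' h
  show (Fin.cases (motive := fun _ => Y) (A x) (fun i => B i x) j : Y) =
    Fin.cases (motive := fun _ => Y) (A x') (fun i => B i x') j'
  rcases Fin.eq_zero_or_eq_succ j with rfl | ⟨i, rfl⟩
  · rcases Fin.eq_zero_or_eq_succ j' with rfl | ⟨i', rfl⟩
    · rw [face_inj 0 h]
    · rw [Fin.cases_zero, Fin.cases_succ]
      exact h3 i' x x' h
  · rcases Fin.eq_zero_or_eq_succ j' with rfl | ⟨i', rfl⟩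
    · rw [Fin.cases_zero, Fin.cases_succ]
      exact (h3 i x' x h.symm).symm
    · rw [Fin.cases_succ, Fin.cases_succ]
      exact h2 i i' x x' h

theorem compat_const {m : ℕ} {p : Y} (G : Fin (m + 2) → Dl m → Y)
    (hb : ∀ j x, (∃ i, x i = 0) → G j x = p) : Compat G := by
  intro j j' x x' h
  by_cases hne : j = j'
  · subst hne
    rw [face_inj j h]
  · have h1 : ∀ (j j' : Fin (m + 2)) (x x' : Dl m), face j x = face j' x' → j ≠ j' →
        ∃ i, x i = 0 := by
      intro j j' x x' h hne
      obtain ⟨i, hi⟩ := Fin.exists_succAbove_eq (Ne.symm hne)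
      refine ⟨i, ?_⟩
      have h1 := congrArg (fun y : Dl (m + 1) => y j') h
      simp only [face_self] at h1
      rw [← hi, face_succAbove] at h1
      exact h1
    rw [hb j x (h1 j j' x x' h hne), hb j' x' (h1 j' j x' x h.symm (Ne.symm hne))]

/-! ### Loops -/

/-- The cubical loop of a map of a simplex. -/
def loopOf {q : ∀ n : ℕ, C(Fin n → I, stdSimplex ℝ (Fin (n + 1)))} (hq : IsQ q) {p : Y} {k : ℕ}
    (g : Dl (k + 2) → Y) (hc : Continuous g) (hb : ∀ x : Dl (k + 2), (∃ i, x i = 0) → g x = p) :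
    GenLoop (Fin (k + 2)) Y p :=
  ⟨⟨fun t => g (q (k + 2) t), hc.comp (q (k + 2)).continuous⟩,
    fun t ht => hb _ ((hq.bdry _ t).2 ht)⟩

theorem loop_eq {q : ∀ n : ℕ, C(Fin n → I, stdSimplex ℝ (Fin (n + 1)))} (hq : IsQ q) {p : Y}
    {k : ℕ} (γ0 γ1 : GenLoop (Fin (k + 2)) Y p) (h : Dl (k + 2) → I → Y)
    (hc : Continuous fun x : Dl (k + 2) × I => h x.1 x.2)
    (hb : ∀ x t, (∃ i, x i = 0) → h x t = p) (h0 : ∀ t, γ0 t = h (q (k + 2) t) 0)
    (h1 : ∀ t, γ1 t = h (q (k + 2) t) 1) : cls γ0 = cls γ1 := by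
  refine congrArg Additive.ofMul (Quotient.sound ?_)
  refine ⟨⟨⟨⟨fun x => h (q (k + 2) x.2) x.1, ?_⟩, fun t => (h0 t).symm, fun t => (h1 t).symm⟩,
    fun t x hx => ?_⟩⟩
  · exact hc.comp ((((q (k + 2)).continuous).comp continuous_snd).prodMk continuous_fst)
  · show h (q (k + 2) x) t = γ0 x
    rw [GenLoop.boundary γ0 x hx]
    exact hb _ _ ((hq.bdry _ x).2 hx)

theorem sph (h2 : claimSph) {q : ∀ n : ℕ, C(Fin n → I, stdSimplex ℝ (Fin (n + 1)))} (hq : IsQ q)
    {p : Y} {k : ℕ} (G : Fin (k + 4) → Dl (k + 2) → Y) (hc : ∀ j, Continuous (G j))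
    (hb : ∀ j x, (∃ i, x i = 0) → G j x = p) (γ : Fin (k + 4) → GenLoop (Fin (k + 2)) Y p)
    (hγ : ∀ j t, γ j t = G j (q (k + 2) t)) :
    Fill G ↔ ∑ j : Fin (k + 4), ((-1 : ℤ) ^ (j : ℕ)) • cls (γ j) = 0 := by
  have h := h2 q hq Y p k (mkS G hc (compat_const G hb)) γ hb hγ
  rw [fills_iff, ev_mkS] at h
  exact h

theorem cls_const {p : Y} {k : ℕ} : cls (GenLoop.const : GenLoop (Fin (k + 2)) Y p) = 0 := rfl

end

/-! ### The theorem -/

theorem main (h1 : claimQ) (h2 : claimSph) : claimHAT := by
  intro Y _ p n hn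
  obtain ⟨k, rfl⟩ : ∃ k, n = k + 2 := ⟨n - 2, by omega⟩
  obtain ⟨q, hq⟩ := h1
  obtain ⟨Q, hQc, hQ0, hQ1⟩ := exists_Q (k + 1)
  have hQt : ∀ t, Continuous fun x => Q x t := fun t =>
    hQc.comp (continuous_id.prodMk continuous_const)
  -- values on the boundary
  have hbd : ∀ (S : Sphere (sing Y) (k + 2)), S.apex = p → ∀ R : Bd (k + 2) → Y,
      (∀ j z, R (faceB j z) = ev S j z) → ∀ x : Dl (k + 2), (∃ i, x i = 0) → R (Q x 1) = p := by
    intro S hS R hR x hx
    obtain ⟨i, hi⟩ := hx
    obtain ⟨z, rfl⟩ := exists_face hi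
    rw [hQ1, cn_one, hR, ev_apex, hS]
  have key : ∀ S : Sphere (sing Y) (k + 2), ∃ a : PiA Y p k, S.apex = p →
      ∀ R : Bd (k + 2) → Y, Continuous R → (∀ j z, R (faceB j z) = ev S j z) →
        ∃ γ : GenLoop (Fin (k + 2)) Y p, (∀ t, γ t = R (Q (q (k + 2) t) 1)) ∧ cls γ = a := by
    intro S
    by_cases hS : S.apex = p
    · obtain ⟨R, hRc, hR⟩ := static S
      refine ⟨cls (loopOf hq (fun x => R (Q x 1)) (hRc.comp (hQt 1)) (hbd S hS R hR)),
        fun _ R' hRc' hR' => ⟨_, fun t => ?_, rfl⟩⟩
      have hRR : R = R' := by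
        funext x
        obtain ⟨j, z, rfl⟩ := bd_cases x
        rw [hR, hR']
      rw [← hRR]
      rfl
    · exact ⟨0, fun h => absurd h hS⟩
  choose ob hob using key
  refine ⟨PiA Y p k, inferInstance, ob, ⟨?_, ?_, ?_⟩⟩
  · -- fill
    intro S hS
    obtain ⟨R, hRc, hR⟩ := static S
    obtain ⟨γ, hγ, hγa⟩ := hob S hS R hRc hR
    set G : Fin (k + 4) → Dl (k + 2) → I → Y := fun j z t =>
      Fin.cases (motive := fun _ => Y) (R (Q z t)) (fun i => ev S i.succ (comb t z (v0 (k + 2)))) j
      with hG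
    have hGc : ∀ j, Continuous fun x : Dl (k + 2) × I => G j x.1 x.2 := by
      intro j
      rcases Fin.eq_zero_or_eq_succ j with rfl | ⟨i, rfl⟩
      · exact hRc.comp hQc
      · exact (ev_cont S _).comp (continuous_comb continuous_snd continuous_fst continuous_const)
    have hGC : ∀ t, Compat fun j z => G j z t := by
      intro t
      refine compat_cons (fun z => R (Q z t)) (fun i z => ev S i.succ (comb t z (v0 (k + 2))))
        (fun l z => ?_) (fun i i' x x' h => ?_)
      · show R (Q (face l z) t) = ev S l.succ (comb t (face 0 z) (v0 (k + 2)))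
        rw [hQ1, hR]
        rfl
      · apply ev_compat S
        rw [face_comb, face_comb, face_v0, face_v0, h]
    have hG0 : (fun j z => G j z 0) = ev S := by
      funext j z
      rcases Fin.eq_zero_or_eq_succ j with rfl | ⟨i, rfl⟩
      · show R (Q z 0) = ev S 0 z
        rw [hQ0, hR]
      · show ev S i.succ (comb 0 z (v0 (k + 2))) = ev S i.succ z
        rw [comb_zero]
    have hG1 : ∀ (i : Fin (k + 3)) z, G i.succ z 1 = p := by
      intro i z
      show ev S i.succ (comb 1 z (v0 (k + 2))) = p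
      rw [comb_one, ev_apex, hS]
    rw [fills_iff, ← hG0, fill_homotopy G hGc hGC,
      sph h2 hq (p := p) (fun j z => G j z 1)
        (fun j => (hGc j).comp (continuous_id.prodMk continuous_const)) (fun j x hx => ?_)
        (fun j => Fin.cases (motive := fun _ => GenLoop (Fin (k + 2)) Y p) γ
          (fun _ => GenLoop.const) j) (fun j t => ?_)]
    · rw [Fin.sum_univ_succ]
      have h3 : ∑ i : Fin (k + 3), ((-1 : ℤ) ^ ((i.succ : Fin (k + 4)) : ℕ)) •
          cls (Fin.cases (motive := fun _ => GenLoop (Fin (k + 2)) Y p) γ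
            (fun _ => GenLoop.const) i.succ) = 0 := by
        refine Finset.sum_eq_zero fun i _ => ?_
        rw [Fin.cases_succ, cls_const, smul_zero]
      rw [h3, add_zero, Fin.cases_zero, hγa]
      simp
    · rcases Fin.eq_zero_or_eq_succ j with rfl | ⟨i, rfl⟩
      · exact hbd S hS R hR x hx
      · exact hG1 i x
    · rcases Fin.eq_zero_or_eq_succ j with rfl | ⟨i, rfl⟩
      · exact hγ t
      · exact (hG1 i _).symm
  · -- add
    intro S0 S hS hS0 hcone
    have h3 := fun j => static (S j)
    choose R hRc hR using h3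
    have h4 := fun j => hob (S j) (hS j) (R j) (hRc j) (hR j)
    choose γ hγ hγa using h4
    have hGc : ∀ j, Continuous fun x : Dl (k + 2) × I => R j (Q x.1 x.2) := fun j =>
      (hRc j).comp hQc
    have hGC : ∀ t, Compat fun j z => R j (Q z t) := by
      intro t j j' x x' h
      by_cases hne : j = j'
      · subst hne
        rw [face_inj j h]
      · obtain ⟨i, z, hj, rfl, rfl⟩ := two_faces h hne
        show R j (Q (face i z) t) = R j' (Q (face (i.predAbove j) z) t)
        rw [hQ1, hQ1, hR, hR]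
        have h5 := hcone j j' i (i.predAbove j) (by
          intro t
          rw [hj, Fin.succAbove_succAbove_succAbove_predAbove])
        exact congrArg (fun s : Simp (k + 2) Y => s (cn z t)) h5
    have hG0 : (fun j z => R j (Q z 0)) = ev S0 := by
      funext j z
      rw [hQ0, hR]
      exact congrArg (fun s : Simp (k + 2) Y => s z) (hS0 j)
    rw [fills_iff, ← hG0, fill_homotopy (fun j z t => R j (Q z t)) hGc hGC,
      sph h2 hq (p := p) (fun j z => R j (Q z 1)) (fun j => (hRc j).comp (hQt 1))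
        (fun j x hx => hbd (S j) (hS j) (R j) (hR j) x hx) γ hγ]
    simp only [hγa]
  · -- real
    intro S hS a
    obtain ⟨γ, hγ⟩ : ∃ γ : GenLoop (Fin (k + 2)) Y p, cls γ = a := by
      obtain ⟨γ, hγ⟩ := Quotient.exists_rep (Additive.toMul a)
      exact ⟨γ, congrArg Additive.ofMul hγ⟩
    -- descend `γ` to the simplex
    obtain ⟨g, hg⟩ := descend (q (k + 2)) (q (k + 2)).continuous (hq.surj _) γ γ.1.continuous
      (by
        intro t t' h
        by_cases hb : ∃ i, (q (k + 2) t) i = 0
        · have hb' : ∃ i, (q (k + 2) t') i = 0 := by rw [← h]; exact hb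
          rw [GenLoop.boundary γ t ((hq.bdry _ _).1 hb), GenLoop.boundary γ t' ((hq.bdry _ _).1 hb')]
        · rw [hq.inj _ t t' h (fun i hi => hb ⟨i, hi⟩)])
    have hgb : ∀ x : Dl (k + 2), (∃ i, x i = 0) → g x = p := by
      intro x hx
      obtain ⟨t, rfl⟩ := hq.surj (k + 2) x
      rw [hg]
      exact GenLoop.boundary γ t ((hq.bdry _ _).1 hx)
    obtain ⟨W, hWc, hW0, hW1⟩ := hep (fun j z t => ev S j.succ (cn z (unitInterval.symm t)))
      (fun j => (ev_cont S _).comp (cn_cont.comp (continuous_fst.prodMk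
        (unitInterval.continuous_symm.comp continuous_snd))))
      (fun t j j' z z' h => ev_compat S _ _ _ _ (face_cn_eq h _)) g g.continuous
      (fun j z => by
        rw [unitInterval.symm_zero, cn_one, ev_apex, hS]
        exact hgb _ ⟨j, face_self j z⟩)
    -- the new sphere
    set E : Fin (k + 4) → Dl (k + 2) → I → Y := fun j z t =>
      Fin.cases (motive := fun _ => Y) (W z (unitInterval.symm t))
        (fun i => ev S i.succ (comb t z (v0 (k + 2)))) j with hE
    have hEc : ∀ j, Continuous fun x : Dl (k + 2) × I => E j x.1 x.2 := by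
      intro j
      rcases Fin.eq_zero_or_eq_succ j with rfl | ⟨i, rfl⟩
      · exact hWc.comp (continuous_fst.prodMk (unitInterval.continuous_symm.comp continuous_snd))
      · exact (ev_cont S _).comp (continuous_comb continuous_snd continuous_fst continuous_const)
    have hEC : ∀ t, Compat fun j z => E j z t := by
      intro t
      refine compat_cons (fun z => W z (unitInterval.symm t))
        (fun i z => ev S i.succ (comb t z (v0 (k + 2)))) (fun l z => ?_) (fun i i' x x' h => ?_)
      · show W (face l z) (unitInterval.symm t) = ev S l.succ (comb t (face 0 z) (v0 (k + 2)))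
        rw [hW1, unitInterval.symm_symm]
        rfl
      · apply ev_compat S
        rw [face_comb, face_comb, face_v0, face_v0, h]
    have hEs : ∀ (i : Fin (k + 3)) z, E i.succ z 0 = ev S i.succ z := by
      intro i z
      show ev S i.succ (comb 0 z (v0 (k + 2))) = ev S i.succ z
      rw [comb_zero]
    obtain ⟨R, hRc, hR⟩ := realise E hEc hEC
    have hRt : ∀ t, Continuous fun x => R x t := fun t =>
      hRc.comp (continuous_id.prodMk continuous_const)
    have hEt : ∀ t j, Continuous fun x => E j x t := fun t j =>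
      (hEc j).comp (continuous_id.prodMk continuous_const)
    refine ⟨mkS (fun j z => E j z 0) (hEt 0) (hEC 0), fun j => ?_, ?_⟩
    · show (ContinuousMap.mk (fun z => E j.succ z 0) (hEt 0 j.succ)) =
        (show Simp (k + 2) Y from S.x j.succ)
      ext z
      exact hEs j z
    · have hap : (mkS (fun j z => E j z 0) (hEt 0) (hEC 0)).apex = p := by
        rw [← hS]
        exact hEs 0 (v0 (k + 2))
      obtain ⟨γ', hγ', hγa'⟩ := hob _ hap (fun x => R x 0) (hRt 0) (fun j z => hR j z 0)
      rw [← hγa', ← hγ]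
      have hE1 : ∀ (i : Fin (k + 3)) z, E i.succ z 1 = p := by
        intro i z
        show ev S i.succ (comb 1 z (v0 (k + 2))) = p
        rw [comb_one, ev_apex, hS]
      have hEv : ∀ (i : Fin (k + 3)) t, E i.succ (v0 (k + 2)) t = p := by
        intro i t
        show ev S i.succ (comb t (v0 (k + 2)) (v0 (k + 2))) = p
        rw [comb_self, ev_apex, hS]
      have hb1 : ∀ (x : Dl (k + 2)) (t : I), (∃ i, x i = 0) → R (Q x 1) t = p := by
        rintro x t ⟨i, hi⟩
        obtain ⟨z, rfl⟩ := exists_face hi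
        rw [hQ1, cn_one, hR, hEv]
      have hb2 : ∀ (x : Dl (k + 2)) (t : I), (∃ i, x i = 0) →
          R (Q x (unitInterval.symm t)) 1 = p := by
        rintro x t ⟨i, hi⟩
        obtain ⟨z, rfl⟩ := exists_face hi
        rw [hQ1, hR, hE1]
      refine (loop_eq hq γ' (loopOf hq (fun x => R (Q x 1) 1) ((hRt 1).comp (hQt 1))
        (fun x hx => hb1 x 1 hx)) (fun x t => R (Q x 1) t) ?_ hb1 hγ' (fun _ => rfl)).trans
        (loop_eq hq _ γ (fun x t => R (Q x (unitInterval.symm t)) 1) ?_ hb2 (fun t => ?_)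
          (fun t => ?_))
      · exact hRc.comp (((hQt 1).comp continuous_fst).prodMk continuous_snd)
      · exact (hRt 1).comp (hQc.comp (continuous_fst.prodMk
          (unitInterval.continuous_symm.comp continuous_snd)))
      · show R (Q (q (k + 2) t) 1) 1 = R (Q (q (k + 2) t) (unitInterval.symm 0)) 1
        rw [unitInterval.symm_zero]
      · rw [unitInterval.symm_one, hQ0, hR]
        show γ t = W (q (k + 2) t) (unitInterval.symm 1)
        rw [unitInterval.symm_one, hW0, hg]

end I7

theorem claimHAT_proof (h1 : claimQ) (h2 : claimSph) : claimHAT := I7.main h1 h2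

end NRF
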