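import Pool.Agent.Work.MP_7f974f_gt.Stmts_I

/-!
# I7a: the homotopy addition theorem for cubes
-/

open scoped Topology unitInterval Topology.Homotopy
open Set

noncomputable section

namespace NRF

namespace I7a

/-! ## Replacing a face of a cube by a homotopic one -/

section geometry

variable {M : ℕ}

/-- Centred coordinates. -/
def ctr (t : Fin M → I) : Fin M → ℝ := fun i => (t i : ℝ) - 1 / 2

lemma ctr_cont : Continuous (ctr (M := M)) := by unfold ctr; fun_prop

/-- The dilation factor. -/
def lam (t : Fin M → I) : ℝ := 1 / max (1 / 2) (2 * ‖ctr t‖)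

lemma lam_cont : Continuous (lam (M := M)) := by
  unfold lam
  refine continuous_const.div (continuous_const.max (continuous_const.mul ctr_cont.norm)) ?_
  intro t
  have := le_max_left (1 / 2 : ℝ) (2 * ‖ctr t‖)
  linarith

/-- The dilated point. -/
def uu (t : Fin M → I) : Fin M → I := fun i => projIcc 0 1 zero_le_one (1 / 2 + lam t * ctr t i)

lemma uu_cont : Continuous (uu (M := M)) := by
  unfold uu
  refine continuous_pi fun i => continuous_projIcc.comp ?_
  exact continuous_const.add (lam_cont.mul ((continuous_apply i).comp ctr_cont))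

/-- The time. -/
def g0 (t : Fin M → I) : I := projIcc 0 1 zero_le_one (2 - lam t)

lemma g0_cont : Continuous (g0 (M := M)) := by
  unfold g0
  exact continuous_projIcc.comp (continuous_const.sub lam_cont)

lemma ctr_abs (t : Fin M → I) (i : Fin M) : |ctr t i| ≤ ‖ctr t‖ := by
  have := norm_le_pi_norm (ctr t) i
  rwa [Real.norm_eq_abs] at this

lemma ctr_le (t : Fin M → I) : ‖ctr t‖ ≤ 1 / 2 := by
  refine (pi_norm_le_iff_of_nonneg (by norm_num)).2 fun i => ?_
  rw [Real.norm_eq_abs, abs_le]
  have h1 := (t i).2.1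
  have h2 := (t i).2.2
  unfold ctr
  constructor <;> linarith

lemma ctr_bdry {t : Fin M → I} {i : Fin M} (h : t i = 0 ∨ t i = 1) : ‖ctr t‖ = 1 / 2 := by
  apply le_antisymm (ctr_le t)
  refine le_trans ?_ (ctr_abs t i)
  unfold ctr
  rcases h with h | h <;> rw [h] <;> norm_num

lemma lam_one {t : Fin M → I} (h : ‖ctr t‖ = 1 / 2) : lam t = 1 := by
  unfold lam
  rw [h, max_eq_right (by norm_num)]
  norm_num

lemma lam_big {t : Fin M → I} (h : 1 / 4 ≤ ‖ctr t‖) : lam t = 1 / (2 * ‖ctr t‖) := by
  unfold lam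
  rw [max_eq_right (by linarith)]

lemma uu_bdry {t : Fin M → I} (h : ‖ctr t‖ = 1 / 2) : uu t = t := by
  funext i
  unfold uu
  rw [lam_one h]
  have : 1 / 2 + 1 * ctr t i = (t i : ℝ) := by unfold ctr; ring
  rw [this]
  exact projIcc_val _ _

lemma g0_bdry {t : Fin M → I} (h : ‖ctr t‖ = 1 / 2) : g0 t = 1 := by
  unfold g0
  rw [lam_one h]
  exact projIcc_of_right_le _ (by norm_num)

lemma g0_zero {t : Fin M → I} (h : ‖ctr t‖ = 1 / 4) : g0 t = 0 := by
  unfold g0
  rw [lam_big h.ge, h]
  exact projIcc_of_le_left _ (by norm_num)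

lemma uu_one {t : Fin M → I} (h : 1 / 4 ≤ ‖ctr t‖) {i : Fin M} (hi : ctr t i = ‖ctr t‖) :
    uu t i = 1 := by
  unfold uu
  rw [lam_big h, hi]
  apply projIcc_of_right_le
  have : ‖ctr t‖ ≠ 0 := by linarith
  have : 1 / (2 * ‖ctr t‖) * ‖ctr t‖ = 1 / 2 := by field_simp
  rw [this]
  norm_num

lemma uu_zero {t : Fin M → I} (h : 1 / 4 ≤ ‖ctr t‖) {i : Fin M} (hi : ctr t i = -‖ctr t‖) :
    uu t i = 0 := by
  unfold uu
  rw [lam_big h, hi]
  apply projIcc_of_le_left
  have : ‖ctr t‖ ≠ 0 := by linarith
  have : 1 / (2 * ‖ctr t‖) * -‖ctr t‖ = -(1 / 2) := by field_simp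
  rw [this]
  norm_num

end geometry

variable {Y : Type} [TopologicalSpace Y] {p : Y}

/-- Replacing one face of a cube by a homotopic one, keeping the other faces. -/
theorem face_replace {M : ℕ} (w : C(Fin (M + 1) → I, Y)) (j : Fin (M + 1)) (ε : I)
    (hε : ε = 0 ∨ ε = 1) (f g : GenLoop (Fin M) Y p)
    (hf : ∀ x : Fin (M + 1) → I, x j = ε → w x = f (j.removeNth x))
    (H : GenLoop.Homotopic f g) :
    ∃ w' : C(Fin (M + 1) → I, Y), (∀ x : Fin (M + 1) → I, x j = ε → w' x = g (j.removeNth x)) ∧
      ∀ x : Fin (M + 1) → I, (∃ i, (x i = 0 ∨ x i = 1) ∧ ¬ (i = j ∧ x j = ε)) → w' x = w x := by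
  classical
  obtain ⟨H⟩ := H
  obtain ⟨s, hs, hs1⟩ : ∃ s : ℝ, s = 2 * (ε : ℝ) - 1 ∧ (s = -1 ∨ s = 1) := by
    refine ⟨_, rfl, ?_⟩
    rcases hε with h | h <;> rw [h] <;> norm_num
  have hs2 : s * s = 1 := by rcases hs1 with h | h <;> rw [h] <;> norm_num
  have hbd : ∀ x : Fin (M + 1) → I, (∃ i, i ≠ j ∧ (x i = 0 ∨ x i = 1)) →
      j.removeNth x ∈ Cube.boundary (Fin M) := by
    rintro x ⟨i, hij, hi⟩
    obtain ⟨i', rfl⟩ := Fin.exists_succAbove_eq hij
    exact ⟨i', hi⟩
  -- a point of the cone over the face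
  have hB : ∀ x : Fin (M + 1) → I, 1 / 4 ≤ s * ctr x j → ‖ctr x‖ ≤ s * ctr x j →
      ‖ctr x‖ = s * ctr x j ∧ uu x j = ε := by
    intro x h1 h2
    have h3 := ctr_abs x j
    have h4 : ‖ctr x‖ = s * ctr x j := by
      apply le_antisymm h2
      refine le_trans ?_ h3
      rcases hs1 with h | h <;> rw [h]
      · linarith [neg_abs_le (ctr x j)]
      · linarith [le_abs_self (ctr x j)]
    refine ⟨h4, ?_⟩
    have h5 : 1 / 4 ≤ ‖ctr x‖ := by linarith
    rcases hε with h | h
    · rw [h] at hs ⊢
      have : s = -1 := by rw [hs]; norm_num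
      apply uu_zero h5
      rw [h4, this]; ring
    · rw [h] at hs ⊢
      have : s = 1 := by rw [hs]; norm_num
      apply uu_one h5
      rw [h4, this]; ring
  let B : Set (Fin (M + 1) → I) := {x | 1 / 4 ≤ s * ctr x j ∧ ‖ctr x‖ ≤ s * ctr x j}
  have hcj : Continuous fun x : Fin (M + 1) → I => s * ctr x j :=
    continuous_const.mul ((continuous_apply j).comp ctr_cont)
  have hBc : IsClosed B :=
    (isClosed_le continuous_const hcj).inter (isClosed_le ctr_cont.norm hcj)
  let F : (Fin (M + 1) → I) → Y := fun x => H (g0 x, j.removeNth (uu x))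
  have hFc : Continuous F := by
    refine H.continuous.comp (g0_cont.prodMk ?_)
    exact continuous_pi fun i => (continuous_apply _).comp uu_cont
  have hwc : Continuous fun x => w (uu x) := w.continuous.comp uu_cont
  have hfr : ∀ x ∈ frontier {x | x ∈ B}, F x = w (uu x) := by
    intro x hx
    have hxB : x ∈ B := hBc.frontier_subset hx
    obtain ⟨h1, h2⟩ := hB x hxB.1 hxB.2
    have hw : w (uu x) = f (j.removeNth (uu x)) := hf _ h2
    rw [hw]
    have hopen : IsOpen {x : Fin (M + 1) → I | 1 / 4 < s * ctr x j ∧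
        ∀ i, i ≠ j → |ctr x i| < s * ctr x j} := by
      have he : {x : Fin (M + 1) → I | 1 / 4 < s * ctr x j ∧
        ∀ i, i ≠ j → |ctr x i| < s * ctr x j} = {x | 1 / 4 < s * ctr x j} ∩
          ⋂ i : Fin (M + 1), {x | i ≠ j → |ctr x i| < s * ctr x j} := by
        ext x; simp
      rw [he]
      refine (isOpen_lt continuous_const hcj).inter (isOpen_iInter_of_finite fun i => ?_)
      by_cases hij : i = j
      · simp [hij]
      · simp only [ne_eq, hij, not_false_eq_true, forall_const]
        exact isOpen_lt ((continuous_apply i).comp ctr_cont).abs hcj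
    have hsub : {x : Fin (M + 1) → I | 1 / 4 < s * ctr x j ∧
        ∀ i, i ≠ j → |ctr x i| < s * ctr x j} ⊆ B := by
      intro y hy
      refine ⟨hy.1.le, ?_⟩
      refine (pi_norm_le_iff_of_nonneg (by linarith [hy.1])).2 fun i => ?_
      rw [Real.norm_eq_abs]
      by_cases hij : i = j
      · rw [hij]
        have h5 : |s * ctr y j| = |ctr y j| := by
          rw [abs_mul]
          rcases hs1 with h | h <;> rw [h] <;> norm_num
        rw [← h5, abs_of_pos (by linarith [hy.1])]
      · exact (hy.2 i hij).le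
    have hnot : x ∉ {x : Fin (M + 1) → I | 1 / 4 < s * ctr x j ∧
        ∀ i, i ≠ j → |ctr x i| < s * ctr x j} := by
      intro hin
      have : x ∈ interior B := interior_mono hsub (by rwa [hopen.interior_eq])
      exact hx.2 this
    by_cases hq : 1 / 4 < s * ctr x j
    · have : ∃ i, i ≠ j ∧ s * ctr x j ≤ |ctr x i| := by
        by_contra hcon
        push Not at hcon
        exact hnot ⟨hq, hcon⟩
      obtain ⟨i, hij, hi⟩ := this
      have h3 := ctr_abs x i
      have h4 : |ctr x i| = ‖ctr x‖ := le_antisymm h3 (by rw [h1]; exact hi)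
      have h5 : 1 / 4 ≤ ‖ctr x‖ := by rw [h1]; exact hxB.1
      have h6 : uu x i = 0 ∨ uu x i = 1 := by
        rcases abs_choice (ctr x i) with h | h
        · right; exact uu_one h5 (by rw [← h4, h])
        · left
          apply uu_zero h5
          rw [← h4, h, neg_neg]
      exact H.eq_fst _ (hbd _ ⟨i, hij, h6⟩)
    · have h3 : ‖ctr x‖ = 1 / 4 := by
        rw [h1]
        exact le_antisymm (not_lt.1 hq) hxB.1
      show H (g0 x, _) = _
      rw [g0_zero h3]
      exact H.apply_zero _
  let w' : C(Fin (M + 1) → I, Y) :=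
    ⟨fun x => if x ∈ B then F x else w (uu x), Continuous.if hfr hFc hwc⟩
  refine ⟨w', ?_, ?_⟩
  · intro x hx
    have hx' : x j = 0 ∨ x j = 1 := by rw [hx]; exact hε
    have h1 := ctr_bdry hx'
    have h2 : s * ctr x j = 1 / 2 := by
      unfold ctr
      rw [hx]
      have : (ε : ℝ) = (s + 1) / 2 := by rw [hs]; ring
      rw [this]
      nlinarith
    have h3 : x ∈ B := ⟨by rw [h2]; norm_num, by rw [h1, h2]⟩
    show (if x ∈ B then F x else w (uu x)) = _
    rw [if_pos h3]
    show H (g0 x, _) = _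
    rw [g0_bdry h1, uu_bdry h1]
    exact H.apply_one _
  · rintro x ⟨i, hi, hij⟩
    have h1 := ctr_bdry hi
    show (if x ∈ B then F x else w (uu x)) = _
    rw [uu_bdry h1]
    split_ifs with h
    · obtain ⟨h3, h4⟩ := hB x h.1 h.2
      rw [uu_bdry h1] at h4
      have hne : i ≠ j := fun h5 => hij ⟨h5, h4⟩
      show H (g0 x, _) = _
      rw [uu_bdry h1, hf x h4]
      exact H.eq_fst _ (hbd _ ⟨i, hne, hi⟩)
    · rfl

/-! ## Cubes with prescribed faces -/

/-- A cube of dimension `k + 3` with given faces; the faces `t_j = 0`, `j` not the last index, are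
constant. -/
structure Wit {k : ℕ} (s : Fin (k + 2) → GenLoop (Fin (k + 2)) Y p)
    (b c : GenLoop (Fin (k + 2)) Y p) (w : C(Fin (k + 3) → I, Y)) : Prop where
  top : ∀ (j : Fin (k + 2)) (x : Fin (k + 3) → I), x j.castSucc = 1 →
    w x = s j (j.castSucc.removeNth x)
  zero : ∀ (j : Fin (k + 2)) (x : Fin (k + 3) → I), x j.castSucc = 0 → w x = p
  bot : ∀ x : Fin (k + 3) → I, x (Fin.last (k + 2)) = 0 → w x = b ((Fin.last (k + 2)).removeNth x)
  cap : ∀ x : Fin (k + 3) → I, x (Fin.last (k + 2)) = 1 → w x = c ((Fin.last (k + 2)).removeNth x)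

variable {k : ℕ} {s s' : Fin (k + 2) → GenLoop (Fin (k + 2)) Y p}
  {b c d b' c' : GenLoop (Fin (k + 2)) Y p} {w w' : C(Fin (k + 3) → I, Y)}

theorem rep_top (h : Wit s b c w) (j : Fin (k + 2)) (g : GenLoop (Fin (k + 2)) Y p)
    (H : GenLoop.Homotopic (s j) g) : ∃ w', Wit (Function.update s j g) b c w' := by
  obtain ⟨w', h1, h2⟩ := face_replace w j.castSucc 1 (Or.inr rfl) (s j) g (h.top j) H
  refine ⟨w', ?_, ?_, ?_, ?_⟩
  · intro i x hx
    by_cases hij : i = j
    · subst hij
      rw [Function.update_self]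
      exact h1 x hx
    · rw [Function.update_of_ne hij, h2 x ⟨i.castSucc, Or.inr hx, fun hh => hij
        (Fin.castSucc_injective _ hh.1)⟩]
      exact h.top i x hx
  · intro i x hx
    rw [h2 x ⟨i.castSucc, Or.inl hx, fun hh => by
      rw [← hh.1] at hh
      exact zero_ne_one (hx.symm.trans hh.2)⟩]
    exact h.zero i x hx
  · intro x hx
    rw [h2 x ⟨_, Or.inl hx, fun hh => Fin.castSucc_ne_last j hh.1.symm⟩]
    exact h.bot x hx
  · intro x hx
    rw [h2 x ⟨_, Or.inr hx, fun hh => Fin.castSucc_ne_last j hh.1.symm⟩]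
    exact h.cap x hx

theorem rep_bot (h : Wit s b c w) (H : GenLoop.Homotopic b b') : ∃ w', Wit s b' c w' := by
  obtain ⟨w', h1, h2⟩ := face_replace w (Fin.last (k + 2)) 0 (Or.inl rfl) b b' h.bot H
  refine ⟨w', ?_, ?_, ?_, ?_⟩
  · intro i x hx
    rw [h2 x ⟨i.castSucc, Or.inr hx, fun hh => Fin.castSucc_ne_last i hh.1⟩]
    exact h.top i x hx
  · intro i x hx
    rw [h2 x ⟨i.castSucc, Or.inl hx, fun hh => Fin.castSucc_ne_last i hh.1⟩]
    exact h.zero i x hx
  · exact h1
  · intro x hx
    rw [h2 x ⟨_, Or.inr hx, fun hh => zero_ne_one (hh.2.symm.trans hx)⟩]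
    exact h.cap x hx

theorem rep_cap (h : Wit s b c w) (H : GenLoop.Homotopic c c') : ∃ w', Wit s b c' w' := by
  obtain ⟨w', h1, h2⟩ := face_replace w (Fin.last (k + 2)) 1 (Or.inr rfl) c c' h.cap H
  refine ⟨w', ?_, ?_, ?_, ?_⟩
  · intro i x hx
    rw [h2 x ⟨i.castSucc, Or.inr hx, fun hh => Fin.castSucc_ne_last i hh.1⟩]
    exact h.top i x hx
  · intro i x hx
    rw [h2 x ⟨i.castSucc, Or.inl hx, fun hh => Fin.castSucc_ne_last i hh.1⟩]
    exact h.zero i x hx
  · intro x hx
    rw [h2 x ⟨_, Or.inl hx, fun hh => zero_ne_one (hx.symm.trans hh.2)⟩]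
    exact h.bot x hx
  · exact h1

theorem rep_tops (h : Wit s b c w) (H : ∀ j, GenLoop.Homotopic (s j) (s' j)) :
    ∃ w', Wit s' b c w' := by
  classical
  have key : ∀ T : Finset (Fin (k + 2)), ∃ w', Wit (fun j => if j ∈ T then s' j else s j) b c w' := by
    intro T
    induction T using Finset.induction_on with
    | empty => exact ⟨w, by simpa using h⟩
    | insert j T hj ih =>
      obtain ⟨w1, h1⟩ := ih
      obtain ⟨w2, h2⟩ := rep_top h1 j (s' j) (by simpa [hj] using H j)
      refine ⟨w2, ?_⟩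
      convert h2 using 1
      funext i
      by_cases hij : i = j
      · subst hij; simp
      · rw [Function.update_of_ne hij]
        simp [hij]
  obtain ⟨w', h'⟩ := key Finset.univ
  exact ⟨w', by simpa using h'⟩

theorem rep_all (h : Wit s b c w) (H : ∀ j, GenLoop.Homotopic (s j) (s' j))
    (Hb : GenLoop.Homotopic b b') (Hc : GenLoop.Homotopic c c') : ∃ w', Wit s' b' c' w' := by
  obtain ⟨w1, h1⟩ := rep_tops h H
  obtain ⟨w2, h2⟩ := rep_bot h1 Hb
  exact rep_cap h2 Hc

theorem succAbove_last (j : Fin (k + 2)) (i : Fin (k + 2)) :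
    j.castSucc.succAbove i = Fin.last (k + 2) ↔ i = Fin.last (k + 1) := by
  unfold Fin.succAbove
  split_ifs with h
  · constructor
    · intro h1
      exact absurd h1 (Fin.castSucc_ne_last i)
    · intro h1
      rw [h1, Fin.lt_def] at h
      have := j.2
      simp at h
      omega
  · rw [← Fin.succ_last, Fin.succ_inj]

theorem removeNth_update_last (j : Fin (k + 2)) (x : Fin (k + 3) → I) (r : I) :
    j.castSucc.removeNth (Function.update x (Fin.last (k + 2)) r) =
      Function.update (j.castSucc.removeNth x) (Fin.last (k + 1)) r := by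
  funext i
  show Function.update x (Fin.last (k + 2)) r (j.castSucc.succAbove i) = _
  by_cases hi : i = Fin.last (k + 1)
  · rw [(succAbove_last j i).2 hi, hi, Function.update_self, Function.update_self]
  · rw [Function.update_of_ne (fun h => hi ((succAbove_last j i).1 h)), Function.update_of_ne hi]
    rfl

theorem removeNth_update_self' (x : Fin (k + 3) → I) (r : I) :
    (Fin.last (k + 2)).removeNth (Function.update x (Fin.last (k + 2)) r) =
      (Fin.last (k + 2)).removeNth x := by
  funext i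
  show Function.update x (Fin.last (k + 2)) r _ = x _
  rw [Function.update_of_ne (Fin.succAbove_ne _ _)]

theorem wit_trans (h : Wit s b c w) (h' : Wit s' c d w') :
    ∃ w'', Wit (fun j => GenLoop.transAt (Fin.last (k + 1)) (s j) (s' j)) b d w'' := by
  let W : (Fin (k + 3) → I) → Y := fun x =>
    if ((x (Fin.last (k + 2)) : I) : ℝ) ≤ 1 / 2 then
      w (Function.update x (Fin.last (k + 2)) (projIcc 0 1 zero_le_one (2 * x (Fin.last (k + 2)))))
    else
      w' (Function.update x (Fin.last (k + 2))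
        (projIcc 0 1 zero_le_one (2 * x (Fin.last (k + 2)) - 1)))
  have hc : Continuous fun x : Fin (k + 3) → I => ((x (Fin.last (k + 2)) : I) : ℝ) := by fun_prop
  have hW : Continuous W := by
    refine Continuous.if_le ?_ ?_ hc continuous_const ?_
    · exact w.continuous.comp (continuous_id.update _ (continuous_projIcc.comp
        (continuous_const.mul hc)))
    · exact w'.continuous.comp (continuous_id.update _ (continuous_projIcc.comp
        ((continuous_const.mul hc).sub continuous_const)))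
    · intro x hx
      rw [hx]
      have e1 : projIcc (0 : ℝ) 1 zero_le_one (2 * (1 / 2)) = 1 :=
        projIcc_of_right_le _ (by norm_num)
      have e2 : projIcc (0 : ℝ) 1 zero_le_one (2 * (1 / 2) - 1) = 0 :=
        projIcc_of_le_left _ (by norm_num)
      rw [e1, e2, h.cap _ (Function.update_self _ _ _), h'.bot _ (Function.update_self _ _ _),
        removeNth_update_self', removeNth_update_self']
  refine ⟨⟨W, hW⟩, ?_, ?_, ?_, ?_⟩
  · intro j x hx
    have hl : (j.castSucc.removeNth x) (Fin.last (k + 1)) = x (Fin.last (k + 2)) := by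
      show x (j.castSucc.succAbove _) = _
      rw [(succAbove_last j _).2 rfl]
    show W x = (if (((j.castSucc.removeNth x) (Fin.last (k + 1)) : I) : ℝ) ≤ 1 / 2 then
      (s j) (Function.update (j.castSucc.removeNth x) (Fin.last (k + 1)) (projIcc 0 1 zero_le_one
        (2 * (j.castSucc.removeNth x) (Fin.last (k + 1))))) else
      (s' j) (Function.update (j.castSucc.removeNth x) (Fin.last (k + 1)) (projIcc 0 1 zero_le_one
        (2 * (j.castSucc.removeNth x) (Fin.last (k + 1)) - 1))))
    rw [hl]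
    show (if _ then _ else _) = _
    have hu : ∀ r : I, Function.update x (Fin.last (k + 2)) r j.castSucc = 1 := by
      intro r
      rw [Function.update_of_ne (Fin.castSucc_ne_last j)]
      exact hx
    split_ifs with h1
    · rw [h.top j _ (hu _), removeNth_update_last]
    · rw [h'.top j _ (hu _), removeNth_update_last]
  · intro j x hx
    have hu : ∀ r : I, Function.update x (Fin.last (k + 2)) r j.castSucc = 0 := by
      intro r
      rw [Function.update_of_ne (Fin.castSucc_ne_last j)]
      exact hx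
    show (if _ then _ else _) = _
    split_ifs with h1
    · exact h.zero j _ (hu _)
    · exact h'.zero j _ (hu _)
  · intro x hx
    show (if _ then _ else _) = _
    rw [hx, if_pos (by norm_num)]
    have e1 : projIcc (0 : ℝ) 1 zero_le_one (2 * ((0 : I) : ℝ)) = 0 :=
      projIcc_of_le_left _ (by norm_num)
    rw [e1, h.bot _ (Function.update_self _ _ _), removeNth_update_self']
  · intro x hx
    show (if _ then _ else _) = _
    rw [hx, if_neg (by norm_num)]
    have e1 : projIcc (0 : ℝ) 1 zero_le_one (2 * ((1 : I) : ℝ) - 1) = 1 :=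
      projIcc_of_right_le _ (by norm_num)
    rw [e1, h'.cap _ (Function.update_self _ _ _), removeNth_update_self']

theorem wit_symm (h : Wit s b c w) :
    ∃ w'', Wit (fun j => GenLoop.symmAt (Fin.last (k + 1)) (s j)) c b w'' := by
  let W : (Fin (k + 3) → I) → Y := fun x =>
    w (Function.update x (Fin.last (k + 2)) (σ (x (Fin.last (k + 2)))))
  have hW : Continuous W := by
    refine w.continuous.comp (continuous_id.update _ ?_)
    fun_prop
  refine ⟨⟨W, hW⟩, ?_, ?_, ?_, ?_⟩
  · intro j x hx
    show w _ = (s j) _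
    rw [h.top j _ (by rw [Function.update_of_ne (Fin.castSucc_ne_last j)]; exact hx),
      removeNth_update_last]
    congr 1
    funext i
    by_cases hi : i = Fin.last (k + 1)
    · rw [hi, Function.update_self, if_pos rfl]
      show σ (x _) = σ (x _)
      rw [(succAbove_last j _).2 rfl]
    · rw [Function.update_of_ne hi, if_neg hi]
  · intro j x hx
    exact h.zero j _ (by rw [Function.update_of_ne (Fin.castSucc_ne_last j)]; exact hx)
  · intro x hx
    show w _ = _
    rw [hx, unitInterval.symm_zero, h.cap _ (Function.update_self _ _ _), removeNth_update_self']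
  · intro x hx
    show w _ = _
    rw [hx, unitInterval.symm_one, h.bot _ (Function.update_self _ _ _), removeNth_update_self']

theorem wit_refl (b : GenLoop (Fin (k + 2)) Y p) :
    ∃ w, Wit (fun _ => GenLoop.const) b b w := by
  refine ⟨⟨fun x => b ((Fin.last (k + 2)).removeNth x), ?_⟩, ?_, ?_, ?_, ?_⟩
  · exact b.1.continuous.comp (continuous_pi fun i => continuous_apply _)
  · intro j x hx
    show b _ = p
    refine b.2 _ ⟨j, Or.inr ?_⟩
    show x _ = 1
    rw [Fin.succAbove_last]
    exact hx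
  · intro j x hx
    show b _ = p
    refine b.2 _ ⟨j, Or.inl ?_⟩
    show x _ = 0
    rw [Fin.succAbove_last]
    exact hx
  · intro x _
    rfl
  · intro x _
    rfl

theorem wit_base (h : Wit (fun _ => GenLoop.const) b c w) : GenLoop.Homotopic b c := by
  refine ⟨⟨⟨⟨fun z => w (Fin.snoc z.2 z.1), ?_⟩, ?_, ?_⟩, ?_⟩⟩
  · refine w.continuous.comp (continuous_pi fun i => ?_)
    refine Fin.lastCases ?_ (fun i => ?_) i
    · simp only [Fin.snoc_last]
      exact continuous_fst
    · simp only [Fin.snoc_castSucc]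
      exact (continuous_apply i).comp continuous_snd
  · intro x
    show w (Fin.snoc x 0) = b x
    rw [h.bot _ (by simp)]
    congr 1
    funext i
    simp [Fin.removeNth]
  · intro x
    show w (Fin.snoc x 1) = c x
    rw [h.cap _ (by simp)]
    congr 1
    funext i
    simp [Fin.removeNth]
  · rintro t x ⟨j, hj⟩
    show w (Fin.snoc x t) = b x
    have hbx : b x = p := b.2 x ⟨j, hj⟩
    rw [hbx]
    rcases hj with hj | hj
    · exact h.zero j _ (by simpa using hj)
    · exact h.top j _ (by simpa using hj)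

/-- The connection cube. -/
theorem wit_conn (j : Fin (k + 2)) (g : GenLoop (Fin (k + 2)) Y p) :
    ∃ w, Wit (fun i => if i = j ∨ (i : ℕ) = j + 1 then g else GenLoop.const) GenLoop.const
      (if j = Fin.last (k + 1) then g else GenLoop.const) w := by
  let φ : (Fin (k + 3) → I) → Fin (k + 2) → I := fun x i =>
    if i < j then x i.castSucc else if i = j then x j.castSucc * x j.succ else x i.succ
  have hφ : Continuous φ := by
    refine continuous_pi fun i => ?_
    show Continuous fun x : Fin (k + 3) → I =>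
      if i < j then x i.castSucc else if i = j then x j.castSucc * x j.succ else x i.succ
    split_ifs <;> fun_prop
  have h1 : ∀ x, x j.castSucc = 1 → φ x = j.castSucc.removeNth x := by
    intro x hx
    funext i
    show (if i < j then x i.castSucc else if i = j then x j.castSucc * x j.succ else x i.succ) =
      x (j.castSucc.succAbove i)
    rcases lt_trichotomy i j with h | h | h
    · rw [if_pos h, Fin.succAbove_of_castSucc_lt _ _ (by simpa using h)]
    · rw [if_neg (by rw [h]; exact lt_irrefl _), if_pos h, hx, one_mul,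
        Fin.succAbove_of_le_castSucc _ _ (by rw [h]), h]
    · rw [if_neg (not_lt.2 h.le), if_neg h.ne',
        Fin.succAbove_of_le_castSucc _ _ (by simpa using h.le)]
  have h2 : ∀ x, x j.succ = 1 → φ x = j.succ.removeNth x := by
    intro x hx
    funext i
    show (if i < j then x i.castSucc else if i = j then x j.castSucc * x j.succ else x i.succ) =
      x (j.succ.succAbove i)
    rcases lt_trichotomy i j with h | h | h
    · rw [if_pos h, Fin.succAbove_of_castSucc_lt _ _ (by
        rw [Fin.lt_def] at h ⊢; simp only [Fin.val_castSucc, Fin.val_succ]; omega)]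
    · rw [if_neg (by rw [h]; exact lt_irrefl _), if_pos h, hx, mul_one,
        Fin.succAbove_of_castSucc_lt _ _ (by
          rw [h, Fin.lt_def]; simp only [Fin.val_castSucc, Fin.val_succ]; omega), h]
    · rw [if_neg (not_lt.2 h.le), if_neg h.ne',
        Fin.succAbove_of_le_castSucc _ _ (by
          rw [Fin.lt_def] at h; rw [Fin.le_def]; simp only [Fin.val_castSucc, Fin.val_succ]
          omega)]
  -- other faces
  have h3 : ∀ (i : Fin (k + 3)) x, i ≠ j.castSucc → i ≠ j.succ → (x i = 0 ∨ x i = 1) →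
      g (φ x) = p := by
    intro i x hi1 hi2 hx
    rcases lt_or_ge (i : ℕ) j with h | h
    · refine g.2 _ ⟨⟨i, by omega⟩, ?_⟩
      have e : φ x ⟨i, by omega⟩ = x i := by
        show (if (⟨i, by omega⟩ : Fin (k + 2)) < j then _ else _) = _
        rw [if_pos (by rw [Fin.lt_def]; exact h)]
        congr 1
      rw [e]; exact hx
    · have hne1 : (i : ℕ) ≠ j := fun h' => hi1 (Fin.ext h')
      have hne2 : (i : ℕ) ≠ j + 1 := fun h' => hi2 (Fin.ext h')
      refine g.2 _ ⟨⟨i - 1, by omega⟩, ?_⟩
      have e : φ x ⟨i - 1, by omega⟩ = x i := by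
        show (if (⟨i - 1, by omega⟩ : Fin (k + 2)) < j then _ else
          if (⟨i - 1, by omega⟩ : Fin (k + 2)) = j then _ else _) = _
        rw [if_neg (by rw [Fin.lt_def]; simp only; omega), if_neg (by
          rw [Fin.ext_iff]; simp only; omega)]
        congr 1
        rw [Fin.ext_iff]
        simp only [Fin.val_succ]
        omega
      rw [e]; exact hx
  have h4 : ∀ x, (x j.castSucc = 0 ∨ x j.succ = 0) → g (φ x) = p := by
    intro x hx
    refine g.2 _ ⟨j, Or.inl ?_⟩
    show (if j < j then _ else if j = j then _ else _) = _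
    rw [if_neg (lt_irrefl _), if_pos rfl]
    rcases hx with hx | hx <;> rw [hx] <;> simp
  refine ⟨⟨fun x => g (φ x), g.1.continuous.comp hφ⟩, ?_, ?_, ?_, ?_⟩
  · intro i x hx
    show g (φ x) = (if i = j ∨ (i : ℕ) = j + 1 then g else GenLoop.const) _
    by_cases hi : i = j
    · rw [if_pos (Or.inl hi), hi, h1 x (by rw [← hi]; exact hx)]
    · by_cases hi' : (i : ℕ) = j + 1
      · have hij : i.castSucc = j.succ := by
          rw [Fin.ext_iff]; simpa using hi'
        rw [if_pos (Or.inr hi'), hij, h2 x (by rw [← hij]; exact hx)]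
      · rw [if_neg (by tauto)]
        exact h3 i.castSucc x (fun h => hi (Fin.castSucc_injective _ h)) (fun h => hi' (by
          rw [Fin.ext_iff] at h; simpa using h)) (Or.inr hx)
  · intro i x hx
    show g (φ x) = p
    by_cases hi : i = j
    · exact h4 x (Or.inl (by rw [← hi]; exact hx))
    · by_cases hi' : (i : ℕ) = j + 1
      · have hij : i.castSucc = j.succ := by
          rw [Fin.ext_iff]; simpa using hi'
        exact h4 x (Or.inr (by rw [← hij]; exact hx))
      · exact h3 i.castSucc x (fun h => hi (Fin.castSucc_injective _ h)) (fun h => hi' (by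
          rw [Fin.ext_iff] at h; simpa using h)) (Or.inl hx)
  · intro x hx
    show g (φ x) = p
    by_cases hj : j = Fin.last (k + 1)
    · have : j.succ = Fin.last (k + 2) := by rw [hj, Fin.succ_last]
      exact h4 x (Or.inr (by rw [this]; exact hx))
    · refine h3 (Fin.last (k + 2)) x (Fin.castSucc_ne_last j).symm ?_ (Or.inl hx)
      intro h
      rw [← Fin.succ_last, Fin.succ_inj] at h
      exact hj h.symm
  · intro x hx
    show g (φ x) = (if j = Fin.last (k + 1) then g else GenLoop.const) _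
    by_cases hj : j = Fin.last (k + 1)
    · have : j.succ = Fin.last (k + 2) := by rw [hj, Fin.succ_last]
      rw [if_pos hj, ← this]
      rw [h2 x (by rw [this]; exact hx)]
    · rw [if_neg hj]
      refine h3 (Fin.last (k + 2)) x (Fin.castSucc_ne_last j).symm ?_ (Or.inr hx)
      intro h
      rw [← Fin.succ_last, Fin.succ_inj] at h
      exact hj h.symm

/-! ## The algebra -/

theorem abs_group {A : Type} [AddCommGroup A] {k : ℕ} (U : (Fin (k + 2) → A) → A → A → Prop)
    (htr : ∀ s s' β γ δ, U s β γ → U s' γ δ → U (s + s') β δ)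
    (hsy : ∀ s β γ, U s β γ → U (-s) γ β) (hrefl : ∀ β, U 0 β β)
    (hbase : ∀ β γ, U 0 β γ → β = γ)
    (hlast : ∀ g, U (Pi.single (Fin.last (k + 1)) g) 0 g)
    (hconn : ∀ (j : Fin (k + 1)) g, U (Pi.single j.castSucc g + Pi.single j.succ g) 0 0)
    (s : Fin (k + 2) → A) (β γ : A) :
    U s β γ ↔ ∑ j : Fin (k + 2), ((-1 : ℤ) ^ (j : ℕ)) • s j + ((-1 : ℤ) ^ (k + 2)) • γ +
      ((-1 : ℤ) ^ (k + 3)) • β = 0 := by
  classical
  let e : (Fin (k + 2) → A) → A := fun s => ∑ j : Fin (k + 2), ((-1 : ℤ) ^ (j : ℕ)) • s j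
  have e_add : ∀ s s', e (s + s') = e s + e s' := by
    intro s s'
    simp only [e, Pi.add_apply, smul_add, Finset.sum_add_distrib]
  have e_neg : ∀ s, e (-s) = -e s := by
    intro s
    simp only [e, Pi.neg_apply, smul_neg, Finset.sum_neg_distrib]
  have e_zero : e 0 = 0 := by simp [e]
  have e_single : ∀ j g, e (Pi.single j g) = ((-1 : ℤ) ^ (j : ℕ)) • g := by
    intro j g
    simp only [e]
    rw [Finset.sum_eq_single j]
    · rw [Pi.single_eq_same]
    · intro b _ hb
      rw [Pi.single_eq_of_ne hb, smul_zero]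
    · intro h
      exact absurd (Finset.mem_univ j) h
  obtain ⟨ε, hε⟩ : ∃ ε : ℤ, ε = (-1) ^ (k + 1) := ⟨_, rfl⟩
  have hεε : ε * ε = 1 := by
    rw [hε, ← pow_add, ← two_mul, pow_mul]
    norm_num
  -- translation
  have hA : ∀ g β, U (Pi.single (Fin.last (k + 1)) g) β (β + g) := by
    intro g β
    have h1 := hsy _ _ _ (hlast β)
    have h2 := hlast (β + g)
    have h3 := htr _ _ _ _ _ h1 h2
    have h4 : -(Pi.single (Fin.last (k + 1)) β : Fin (k + 2) → A) +
        Pi.single (Fin.last (k + 1)) (β + g) = Pi.single (Fin.last (k + 1)) g := by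
      rw [Pi.single_add]
      abel
    rwa [h4] at h3
  have hB : ∀ s, U s 0 0 → ∀ β, U s β β := by
    intro s h β
    have h1 := hsy _ _ _ (hlast β)
    have h2 := htr _ _ _ _ _ (htr _ _ _ _ _ h1 h) (hlast β)
    have h4 : -(Pi.single (Fin.last (k + 1)) β : Fin (k + 2) → A) + s +
        Pi.single (Fin.last (k + 1)) β = s := by abel
    rwa [h4] at h2
  let S : AddSubgroup (Fin (k + 2) → A) :=
    { carrier := {s | ∀ β, U s β (β + ε • e s)}
      zero_mem' := by
        intro β
        rw [e_zero, smul_zero, add_zero]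
        exact hrefl β
      add_mem' := by
        intro a b ha hb β
        have h1 := htr _ _ _ _ _ (ha β) (hb (β + ε • e a))
        rwa [add_assoc, ← smul_add, ← e_add] at h1
      neg_mem' := by
        intro a ha β
        have h1 := hsy _ _ _ (ha (β - ε • e a))
        rw [sub_add_cancel] at h1
        rwa [e_neg, smul_neg, ← sub_eq_add_neg] }
  have hSl : ∀ g, Pi.single (Fin.last (k + 1)) g ∈ S := by
    intro g β
    have h1 := hA g β
    have h2 : ε • e (Pi.single (Fin.last (k + 1)) g) = g := by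
      rw [e_single, Fin.val_last, ← hε, smul_smul, hεε, one_smul]
    rwa [h2]
  have hSc : ∀ (j : Fin (k + 1)) g, Pi.single j.castSucc g + Pi.single j.succ g ∈ S := by
    intro j g β
    have h1 := hB _ (hconn j g) β
    have h2 : ε • e (Pi.single j.castSucc g + Pi.single j.succ g) = 0 := by
      rw [e_add, e_single, e_single, Fin.val_castSucc, Fin.val_succ, pow_succ, mul_neg_one,
        neg_smul, add_neg_cancel, smul_zero]
    rwa [h2, add_zero]
  have hSj : ∀ (j : Fin (k + 2)) g, Pi.single j g ∈ S := by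
    intro j
    refine Fin.reverseInduction (motive := fun j => ∀ g, Pi.single j g ∈ S) hSl ?_ j
    intro j ih g
    have h1 := S.sub_mem (hSc j g) (ih g)
    rwa [add_sub_cancel_right] at h1
  have hS : ∀ s, s ∈ S := by
    intro s
    have h1 : ∑ j, Pi.single j (s j) = s := Finset.univ_sum_single s
    rw [← h1]
    exact S.sum_mem fun j _ => hSj j _
  have hmain : U s β γ ↔ γ = β + ε • e s := by
    constructor
    · intro h
      have h1 := htr _ _ _ _ _ (hsy _ _ _ h) (hS s β)
      rw [neg_add_cancel] at h1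
      exact hbase _ _ h1
    · rintro rfl
      exact hS s β
  rw [hmain]
  have e1 : ((-1 : ℤ) ^ (k + 2)) = -ε := by rw [hε, pow_succ]; ring
  have e2 : ((-1 : ℤ) ^ (k + 3)) = ε := by rw [hε]; ring
  rw [e1, e2]
  show _ ↔ e s + (-ε) • γ + ε • β = 0
  constructor
  · rintro rfl
    rw [smul_add, smul_smul, neg_mul, hεε]
    rw [neg_smul, neg_smul, one_smul]
    abel
  · intro h
    have h1 : ε • (e s + (-ε) • γ + ε • β) = 0 := by rw [h, smul_zero]
    rw [smul_add, smul_add, smul_smul, smul_smul, mul_neg, hεε, neg_smul, one_smul, one_smul] at h1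
    have h2 : γ = ε • e s + β := by
      rw [← sub_eq_zero]
      rw [← neg_eq_zero, ← h1]
      abel
    rw [h2]; abel

/-- The relation on classes. -/
def U (s : Fin (k + 2) → PiA Y p k) (β γ : PiA Y p k) : Prop :=
  ∃ (s' : Fin (k + 2) → GenLoop (Fin (k + 2)) Y p) (b c : GenLoop (Fin (k + 2)) Y p)
    (w : C(Fin (k + 3) → I, Y)), (∀ j, cls (s' j) = s j) ∧ cls b = β ∧ cls c = γ ∧ Wit s' b c w

/-- The class in the multiplicative group. -/
def mkq (f : GenLoop (Fin (k + 2)) Y p) : HomotopyGroup (Fin (k + 2)) Y p := Quotient.mk _ f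

theorem cls_eq {f g : GenLoop (Fin (k + 2)) Y p} : cls f = cls g ↔ GenLoop.Homotopic f g := by
  unfold cls
  rw [Additive.ofMul.apply_eq_iff_eq]
  exact Quotient.eq

theorem cls_trans (f g : GenLoop (Fin (k + 2)) Y p) :
    cls (GenLoop.transAt (Fin.last (k + 1)) f g) = cls f + cls g := by
  have h : mkq (GenLoop.transAt (Fin.last (k + 1)) f g) = mkq f * mkq g := by
    rw [mul_comm]
    exact (HomotopyGroup.mul_spec (i := Fin.last (k + 1)) (p := g) (q := f)).symm
  exact congrArg Additive.ofMul h

theorem cls_symm (f : GenLoop (Fin (k + 2)) Y p) :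
    cls (GenLoop.symmAt (Fin.last (k + 1)) f) = -cls f := by
  have h : mkq (GenLoop.symmAt (Fin.last (k + 1)) f) = (mkq f)⁻¹ :=
    (HomotopyGroup.inv_spec (i := Fin.last (k + 1)) (p := f)).symm
  exact congrArg Additive.ofMul h

theorem cls_const : cls (GenLoop.const : GenLoop (Fin (k + 2)) Y p) = 0 := rfl

theorem U_iff (s : Fin (k + 2) → GenLoop (Fin (k + 2)) Y p) (b c : GenLoop (Fin (k + 2)) Y p) :
    (∃ w, Wit s b c w) ↔ U (fun j => cls (s j)) (cls b) (cls c) := by
  constructor
  · rintro ⟨w, h⟩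
    exact ⟨s, b, c, w, fun _ => rfl, rfl, rfl, h⟩
  · rintro ⟨s', b', c', w, h1, h2, h3, h⟩
    exact rep_all h (fun j => cls_eq.1 (h1 j)) (cls_eq.1 h2) (cls_eq.1 h3)

theorem U_formula (s : Fin (k + 2) → PiA Y p k) (β γ : PiA Y p k) :
    U s β γ ↔ ∑ j : Fin (k + 2), ((-1 : ℤ) ^ (j : ℕ)) • s j + ((-1 : ℤ) ^ (k + 2)) • γ +
      ((-1 : ℤ) ^ (k + 3)) • β = 0 := by
  apply abs_group
  · rintro s s' β γ δ ⟨s1, b1, c1, w1, h1, h2, h3, h⟩ ⟨s2, b2, c2, w2, h1', h2', h3', h'⟩
    obtain ⟨w3, h4⟩ := rep_bot h' (cls_eq.1 (h2'.trans h3.symm))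
    obtain ⟨w4, h5⟩ := wit_trans h h4
    refine ⟨_, _, _, w4, ?_, h2, h3', h5⟩
    intro j
    rw [cls_trans, h1 j, h1' j]
    rfl
  · rintro s β γ ⟨s1, b1, c1, w1, h1, h2, h3, h⟩
    obtain ⟨w4, h5⟩ := wit_symm h
    refine ⟨_, _, _, w4, ?_, h3, h2, h5⟩
    intro j
    rw [cls_symm, h1 j]
    rfl
  · intro β
    obtain ⟨b, hb⟩ : ∃ b : GenLoop (Fin (k + 2)) Y p, cls b = β := by
      obtain ⟨b, hb⟩ := Quotient.exists_rep (Additive.toMul β)
      exact ⟨b, congrArg Additive.ofMul hb⟩
    obtain ⟨w, h⟩ := wit_refl b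
    exact ⟨_, _, _, w, fun _ => cls_const, hb, hb, h⟩
  · rintro β γ ⟨s1, b1, c1, w1, h1, h2, h3, h⟩
    obtain ⟨w2, h4⟩ := rep_tops h (s' := fun _ => GenLoop.const)
      (fun j => cls_eq.1 ((h1 j).trans cls_const.symm))
    rw [← h2, ← h3]
    exact cls_eq.2 (wit_base h4)
  · intro γ
    obtain ⟨b, hb⟩ : ∃ b : GenLoop (Fin (k + 2)) Y p, cls b = γ := by
      obtain ⟨b, hb⟩ := Quotient.exists_rep (Additive.toMul γ)
      exact ⟨b, congrArg Additive.ofMul hb⟩
    obtain ⟨w, h⟩ := wit_conn (Fin.last (k + 1)) b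
    refine ⟨_, _, _, w, ?_, cls_const, ?_, h⟩
    · intro j
      by_cases hj : j = Fin.last (k + 1)
      · subst hj
        rw [if_pos (Or.inl rfl), Pi.single_eq_same, hb]
      · rw [if_neg, Pi.single_eq_of_ne hj]
        · exact cls_const
        · rintro (h | h)
          · exact hj h
          · have := j.2
            simp only [Fin.val_last] at h
            omega
    · rw [if_pos rfl, hb]
  · intro j γ
    obtain ⟨b, hb⟩ : ∃ b : GenLoop (Fin (k + 2)) Y p, cls b = γ := by
      obtain ⟨b, hb⟩ := Quotient.exists_rep (Additive.toMul γ)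
      exact ⟨b, congrArg Additive.ofMul hb⟩
    obtain ⟨w, h⟩ := wit_conn j.castSucc b
    refine ⟨_, _, _, w, ?_, cls_const, ?_, h⟩
    · intro i
      have hne : j.castSucc ≠ j.succ := (Fin.castSucc_lt_succ).ne
      by_cases hi : i = j.castSucc
      · rw [if_pos (Or.inl hi), hi, Pi.add_apply, Pi.single_eq_same,
          Pi.single_eq_of_ne hne, add_zero, hb]
      · by_cases hi' : i = j.succ
        · rw [if_pos (Or.inr (by rw [hi']; simp)), hi', Pi.add_apply, Pi.single_eq_same,
            Pi.single_eq_of_ne hne.symm, zero_add, hb]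
        · rw [if_neg, Pi.add_apply, Pi.single_eq_of_ne hi, Pi.single_eq_of_ne hi', add_zero]
          · exact cls_const
          · rintro (h | h)
            · exact hi h
            · exact hi' (by rw [Fin.ext_iff]; simpa using h)
    · rw [if_neg (Fin.castSucc_ne_last j)]
      exact cls_const

end I7a

open I7a in
theorem claimCube_proof : claimCube := by
  intro Y _ p k a b
  have h1 : (∃ w : C(Fin (k + 3) → I, Y), (∀ j t, w (j.insertNth 1 t) = a j t) ∧
      (∀ t, w ((Fin.last (k + 2)).insertNth 0 t) = b t) ∧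
      ∀ j, j ≠ Fin.last (k + 2) → ∀ t, w (j.insertNth 0 t) = p) ↔
      ∃ w, Wit (fun j => a j.castSucc) b (a (Fin.last (k + 2))) w := by
    apply exists_congr
    intro w
    constructor
    · rintro ⟨h1, h2, h3⟩
      refine ⟨?_, ?_, ?_, ?_⟩
      · intro j x hx
        rw [← h1 j.castSucc, ← hx, Fin.insertNth_self_removeNth]
      · intro j x hx
        have := h3 j.castSucc (Fin.castSucc_ne_last j) (j.castSucc.removeNth x)
        rwa [← hx, Fin.insertNth_self_removeNth] at this
      · intro x hx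
        rw [← h2, ← hx, Fin.insertNth_self_removeNth]
      · intro x hx
        rw [← h1, ← hx, Fin.insertNth_self_removeNth]
    · rintro ⟨h1, h2, h3, h4⟩
      refine ⟨?_, ?_, ?_⟩
      · intro j
        refine Fin.lastCases ?_ (fun j => ?_) j
        · intro t
          rw [h4 _ (by simp), Fin.removeNth_insertNth]
        · intro t
          rw [h1 j _ (by simp), Fin.removeNth_insertNth]
      · intro t
        rw [h3 _ (by simp), Fin.removeNth_insertNth]
      · intro j hj t
        obtain ⟨j', rfl⟩ := Fin.exists_castSucc_eq.2 hj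
        exact h2 j' _ (by simp)
  rw [h1, U_iff, U_formula]
  conv_rhs => rw [Fin.sum_univ_castSucc]
  rfl

end NRF
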