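import Pool.Agent.Work.MP_7f974f_gt.Stmts_I

/-!
# I7b: the standard maps from cubes onto simplices
-/

open scoped Topology unitInterval
open Set

noncomputable section

namespace NRF

namespace I7b

/-- Extension of `t` by zero. -/
def te {n : ℕ} (t : Fin n → I) (j : ℕ) : ℝ := if h : j < n then (t ⟨j, h⟩ : ℝ) else 0

/-- Partial products. -/
def P {n : ℕ} (t : Fin n → I) (m : ℕ) : ℝ := ∏ j ∈ Finset.range m, te t j

/-- Coordinates. -/
def Q {n : ℕ} (t : Fin n → I) (i : ℕ) : ℝ := P t i * (1 - te t i)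

variable {n : ℕ} (t : Fin n → I)

theorem te_lt {j : ℕ} (h : j < n) : te t j = (t ⟨j, h⟩ : ℝ) := dif_pos h

theorem te_ge {j : ℕ} (h : n ≤ j) : te t j = 0 := dif_neg (not_lt.2 h)

theorem te_nonneg (j : ℕ) : 0 ≤ te t j := by
  unfold te
  split_ifs
  · exact (t _).2.1
  · exact le_rfl

theorem te_le_one (j : ℕ) : te t j ≤ 1 := by
  unfold te
  split_ifs
  · exact (t _).2.2
  · exact zero_le_one

theorem P_zero : P t 0 = 1 := by simp [P]

theorem P_succ (m : ℕ) : P t (m + 1) = P t m * te t m := Finset.prod_range_succ _ _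

theorem P_nonneg (m : ℕ) : 0 ≤ P t m := Finset.prod_nonneg fun j _ => te_nonneg t j

theorem P_big {m : ℕ} (h : n < m) : P t m = 0 :=
  Finset.prod_eq_zero (Finset.mem_range.2 h) (te_ge t le_rfl)

theorem P_zero_of {m j : ℕ} (h : j < m) (hj : te t j = 0) : P t m = 0 :=
  Finset.prod_eq_zero (Finset.mem_range.2 h) hj

theorem Q_eq (i : ℕ) : Q t i = P t i - P t (i + 1) := by
  rw [Q, P_succ]
  ring

theorem Q_nonneg (i : ℕ) : 0 ≤ Q t i :=
  mul_nonneg (P_nonneg t i) (by linarith [te_le_one t i])

theorem Q_sum : ∑ i : Fin (n + 1), Q t i = 1 := by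
  rw [Fin.sum_univ_eq_sum_range (fun i => Q t i) (n + 1)]
  simp_rw [Q_eq]
  rw [Finset.sum_range_sub', P_zero, P_big t (Nat.lt_succ_self n), sub_zero]

theorem continuous_te (j : ℕ) : Continuous fun t : Fin n → I => te t j := by
  unfold te
  by_cases h : j < n
  · simp only [h, dite_true]
    fun_prop
  · simp only [h, dite_false]
    exact continuous_const

theorem continuous_Q (i : ℕ) : Continuous fun t : Fin n → I => Q t i := by
  unfold Q P
  exact (continuous_finsetProd _ fun j _ => continuous_te j).mul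
    (continuous_const.sub (continuous_te i))

/-- The map from the cube onto the simplex. -/
def q (n : ℕ) : C(Fin n → I, stdSimplex ℝ (Fin (n + 1))) where
  toFun t := ⟨fun i => Q t i, fun i => Q_nonneg t i, Q_sum t⟩
  continuous_toFun := Continuous.subtype_mk (f := fun (t : Fin n → I) (i : Fin (n + 1)) =>
    Q t (i : ℕ)) (continuous_pi fun i => continuous_Q (i : ℕ)) _

theorem q_apply (i : Fin (n + 1)) : (q n t) i = Q t i := rfl

theorem map_inj {k m : ℕ} {f : Fin (k + 1) → Fin (m + 1)} (hf : Function.Injective f)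
    (x : stdSimplex ℝ (Fin (k + 1))) (i : Fin (k + 1)) : (simpMap f x) (f i) = x i := by
  show (stdSimplex.map f x) (f i) = x i
  rw [stdSimplex.map_coe, FunOnFinite.linearMap_apply_apply]
  rw [Finset.sum_eq_single i]
  · intro b hb hbi
    rw [Finset.mem_filter] at hb
    exact absurd (hf hb.2) hbi
  · intro h
    exact absurd (by simp) h

theorem map_not {k m : ℕ} {f : Fin (k + 1) → Fin (m + 1)}
    (x : stdSimplex ℝ (Fin (k + 1))) (i : Fin (m + 1)) (hi : ∀ j, f j ≠ i) :
    (simpMap f x) i = 0 := by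
  show (stdSimplex.map f x) i = 0
  rw [stdSimplex.map_coe, FunOnFinite.linearMap_apply_apply]
  apply Finset.sum_eq_zero
  intro b hb
  rw [Finset.mem_filter] at hb
  exact absurd hb.2 (hi b)

theorem te_insert (j : Fin (n + 1)) (a : I) (l : ℕ) :
    te (j.insertNth a t : Fin (n + 1) → I) l =
      if l < j then te t l else if l = j then (a : ℝ) else te t (l - 1) := by
  have hj := j.isLt
  by_cases h1 : l < j
  · rw [if_pos h1, te_lt _ (by omega), te_lt _ (by omega)]
    have e : (⟨l, by omega⟩ : Fin (n + 1)) = j.succAbove ⟨l, by omega⟩ := by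
      rw [Fin.succAbove_of_castSucc_lt _ _ (by rw [Fin.lt_def]; exact h1)]
      rfl
    rw [e, Fin.insertNth_apply_succAbove]
  · rw [if_neg h1]
    by_cases h2 : l = j
    · rw [if_pos h2, te_lt _ (by omega)]
      have e : (⟨l, by omega⟩ : Fin (n + 1)) = j := Fin.ext h2
      rw [e, Fin.insertNth_apply_same]
    · rw [if_neg h2]
      by_cases h3 : l < n + 1
      · rw [te_lt _ h3, te_lt _ (by omega)]
        have e : (⟨l, h3⟩ : Fin (n + 1)) = j.succAbove ⟨l - 1, by omega⟩ := by
          rw [Fin.succAbove_of_le_castSucc _ _ (by rw [Fin.le_def]; show (j : ℕ) ≤ l - 1; omega)]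
          apply Fin.ext
          show l = l - 1 + 1
          omega
        rw [e, Fin.insertNth_apply_succAbove]
      · rw [te_ge _ (by omega), te_ge _ (by omega)]

theorem P_insert_le (j : Fin (n + 1)) (a : I) {l : ℕ} (h : l ≤ j) :
    P (j.insertNth a t : Fin (n + 1) → I) l = P t l := by
  unfold P
  apply Finset.prod_congr rfl
  intro i hi
  rw [Finset.mem_range] at hi
  rw [te_insert, if_pos (by omega)]

theorem P_insert_ge (j : Fin (n + 1)) (a : I) {l : ℕ} (h : (j : ℕ) ≤ l) :
    P (j.insertNth a t : Fin (n + 1) → I) (l + 1) = a * P t l := by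
  induction l, h using Nat.le_induction with
  | base =>
    rw [P_succ, P_insert_le t j a le_rfl, te_insert, if_neg (lt_irrefl _), if_pos rfl, mul_comm]
  | succ l hl ih =>
    rw [P_succ, ih, te_insert, if_neg (by omega), if_neg (by omega), Nat.add_sub_cancel, P_succ,
      mul_assoc]

theorem te_last (l : ℕ) : te ((Fin.last n).insertNth 0 t : Fin (n + 1) → I) l = te t l := by
  rw [te_insert]
  split_ifs with h1 h2
  · rfl
  · rw [te_ge t (by rw [h2]; exact le_rfl)]
    rfl
  · rw [Fin.val_last] at h1 h2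
    rw [te_ge t (by omega), te_ge t (by omega)]

theorem Q_last (l : ℕ) : Q ((Fin.last n).insertNth 0 t : Fin (n + 1) → I) l = Q t l := by
  unfold Q P
  simp only [te_last]

theorem face (j : Fin (n + 1)) :
    q (n + 1) (j.insertNth 1 t) = simpMap j.castSucc.succAbove (q n t) := by
  apply stdSimplex.ext
  funext i
  have hj := j.isLt
  by_cases hi : i = j.castSucc
  · rw [map_not (q n t) i (fun k hk => Fin.succAbove_ne _ k (hk.trans hi)), q_apply, hi]
    show Q (j.insertNth 1 t : Fin (n + 1) → I) (j : ℕ) = 0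
    rw [Q, te_insert, if_neg (lt_irrefl _), if_pos rfl]
    simp
  · obtain ⟨k, rfl⟩ := Fin.exists_succAbove_eq hi
    rw [map_inj Fin.succAbove_right_injective, q_apply, q_apply]
    by_cases hk : (k : ℕ) < j
    · have e : ((j.castSucc.succAbove k : Fin (n + 2)) : ℕ) = k := by
        rw [Fin.succAbove_of_castSucc_lt _ _ (by rw [Fin.lt_def]; exact hk)]
        rfl
      rw [e, Q, Q, P_insert_le t j 1 (by omega), te_insert, if_pos hk]
    · have e : ((j.castSucc.succAbove k : Fin (n + 2)) : ℕ) = k + 1 := by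
        rw [Fin.succAbove_of_le_castSucc _ _ (by rw [Fin.le_def]; exact not_lt.1 hk)]
        rfl
      rw [e, Q, Q, P_insert_ge t j 1 (not_lt.1 hk), te_insert, if_neg (by omega),
        if_neg (by omega), Nat.add_sub_cancel]
      simp

theorem last : q (n + 1) ((Fin.last n).insertNth 0 t) =
    simpMap (Fin.last (n + 1)).succAbove (q n t) := by
  apply stdSimplex.ext
  funext i
  rw [q_apply, Q_last]
  by_cases hi : i = Fin.last (n + 1)
  · rw [map_not (q n t) i (fun k hk => Fin.succAbove_ne _ k (hk.trans hi)), hi, Fin.val_last, Q,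
      P_big t (Nat.lt_succ_self n), zero_mul]
  · obtain ⟨k, rfl⟩ := Fin.exists_succAbove_eq hi
    rw [map_inj Fin.succAbove_right_injective, q_apply]
    rw [Fin.succAbove_last_apply]
    rfl

/-- Partial products are tail sums. -/
theorem P_eq_tail {i : ℕ} (hi : i ≤ n + 1) : P t i = ∑ j ∈ Finset.Ico i (n + 1), Q t j := by
  simp_rw [Q_eq]
  rw [Finset.sum_Ico_eq_sub _ hi, Finset.sum_range_sub', Finset.sum_range_sub',
    P_big t (Nat.lt_succ_self n)]
  ring

theorem inj (t' : Fin n → I) (h : q n t = q n t') (h0 : ∀ i, (q n t) i ≠ 0) : t = t' := by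
  have hQ : ∀ i < n + 1, Q t i = Q t' i := by
    intro i hi
    have := congrArg (fun x : stdSimplex ℝ (Fin (n + 1)) => x ⟨i, hi⟩) h
    exact this
  have hP : ∀ i ≤ n + 1, P t i = P t' i := by
    intro i hi
    rw [P_eq_tail t hi, P_eq_tail t' hi]
    apply Finset.sum_congr rfl
    intro j hj
    exact hQ j (Finset.mem_Ico.1 hj).2
  have hne : ∀ i < n + 1, P t i ≠ 0 := by
    intro i hi hP0
    apply h0 ⟨i, hi⟩
    rw [q_apply, Q, hP0, zero_mul]
  funext i
  have h1 := hP (i + 1) (by have := i.isLt; omega)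
  rw [P_succ, P_succ, ← hP i (by have := i.isLt; omega)] at h1
  have h2 := mul_left_cancel₀ (hne i (by have := i.isLt; omega)) h1
  rw [te_lt t i.isLt, te_lt t' i.isLt] at h2
  exact Subtype.ext h2

theorem bdry : (∃ i, (q n t) i = 0) ↔ t ∈ Cube.boundary (Fin n) := by
  constructor
  · rintro ⟨i, hi⟩
    by_contra hb
    have hpos : ∀ j : Fin n, 0 < te t j ∧ te t j < 1 := by
      intro j
      rw [te_lt t j.isLt]
      constructor
      · refine lt_of_le_of_ne (t _).2.1 (fun h => hb ⟨j, Or.inl (Subtype.ext h.symm)⟩)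
      · refine lt_of_le_of_ne (t _).2.2 (fun h => hb ⟨j, Or.inr (Subtype.ext h)⟩)
    have h1 : 0 < P t i := by
      apply Finset.prod_pos
      intro j hj
      rw [Finset.mem_range] at hj
      exact (hpos ⟨j, by have := i.isLt; omega⟩).1
    have h2 : te t i < 1 := by
      by_cases h : (i : ℕ) < n
      · exact (hpos ⟨i, h⟩).2
      · rw [te_ge t (not_lt.1 h)]
        exact zero_lt_one
    rw [q_apply, Q] at hi
    have := mul_pos h1 (sub_pos.2 h2)
    linarith
  · rintro ⟨j, hj | hj⟩
    · refine ⟨Fin.last n, ?_⟩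
      rw [q_apply, Q, Fin.val_last, P_zero_of t j.isLt (by rw [te_lt t j.isLt, hj]; rfl), zero_mul]
    · refine ⟨j.castSucc, ?_⟩
      rw [q_apply, Q, Fin.val_castSucc, te_lt t j.isLt, hj]
      simp

theorem low (t : Fin (n + 1) → I) (j : Fin (n + 1)) (hj : j ≠ Fin.last n) (h0 : t j = 0) :
    ∃ i i', i ≠ i' ∧ (q (n + 1) t) i = 0 ∧ (q (n + 1) t) i' = 0 := by
  have h1 : (j : ℕ) < n := by
    have := j.isLt
    have h2 : (j : ℕ) ≠ n := fun h => hj (Fin.ext h)
    omega
  have ht : te t j = 0 := by rw [te_lt t j.isLt, h0]; rfl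
  refine ⟨⟨j + 1, by omega⟩, Fin.last (n + 1), ?_, ?_, ?_⟩
  · intro h
    have := congrArg Fin.val h
    simp at this
    omega
  · rw [q_apply, Q, P_zero_of t (Nat.lt_succ_self _) ht, zero_mul]
  · rw [q_apply, Q, Fin.val_last, P_zero_of t j.isLt ht, zero_mul]

theorem surj : Function.Surjective (q n) := by
  intro x
  -- tail sums
  set y : ℕ → ℝ := fun j => if h : j < n + 1 then x ⟨j, h⟩ else 0 with hy
  have hy0 : ∀ j, 0 ≤ y j := by
    intro j
    simp only [hy]
    split_ifs
    · exact stdSimplex.zero_le x _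
    · exact le_rfl
  set T : ℕ → ℝ := fun i => ∑ j ∈ Finset.Ico i (n + 1), y j with hT
  have hTs : ∀ i < n + 1, T i = y i + T (i + 1) := by
    intro i hi
    simp only [hT]
    exact Finset.sum_eq_sum_Ico_succ_bot hi _
  have hT0 : T 0 = 1 := by
    simp only [hT]
    rw [← Finset.range_eq_Ico, ← Fin.sum_univ_eq_sum_range y (n + 1), ← stdSimplex.sum_eq_one x]
    apply Finset.sum_congr rfl
    intro i _
    simp only [hy, i.isLt, dite_true]
  have hTn : T (n + 1) = 0 := by simp [hT]
  have hTnn : ∀ i, 0 ≤ T i := fun i => Finset.sum_nonneg fun j _ => hy0 j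
  have hTle : ∀ i < n + 1, T (i + 1) ≤ T i := by
    intro i hi
    rw [hTs i hi]
    linarith [hy0 i]
  set t : Fin n → I := fun i => ⟨T (i + 1) / T i, div_nonneg (hTnn _) (hTnn _),
    div_le_one_of_le₀ (hTle i (by have := i.isLt; omega)) (hTnn _)⟩ with ht
  have hP : ∀ i ≤ n + 1, P t i = T i := by
    intro i
    induction i with
    | zero => intro _; rw [P_zero, hT0]
    | succ i ih =>
      intro hi
      rw [P_succ, ih (by omega)]
      by_cases h : i < n
      · rw [te_lt t h]
        simp only [ht]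
        by_cases hz : T i = 0
        · have h1 := hTle i (by omega)
          have h2 := hTnn (i + 1)
          rw [hz] at h1 ⊢
          linarith
        · exact mul_div_cancel₀ _ hz
      · have : i = n := by omega
        subst this
        rw [te_ge t le_rfl, mul_zero, hTn]
  refine ⟨t, ?_⟩
  apply stdSimplex.ext
  funext i
  have hi := i.isLt
  rw [q_apply, Q_eq, hP i (by omega), hP (i + 1) (by omega), hTs i hi]
  simp only [hy, hi, dite_true]
  ring

end I7b

/-- The standard maps from cubes onto simplices. -/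
theorem claimQ_proof : claimQ :=
  ⟨I7b.q, ⟨fun _ => I7b.surj, fun _ j t => I7b.face t j, fun _ t => I7b.last t,
    fun _ t t' h h0 => I7b.inj t t' h h0, fun _ t => I7b.bdry t, fun _ t j hj h0 =>
    I7b.low t j hj h0⟩⟩

end NRF
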