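import Pool.Agent.Work.MP_7f974f_gt.Stmts_I

/-!
# I8: the cocycle of a stage
Cones over simplices of a highly connected semi-simplicial set, the cone spheres, and the cocycle
given by the obstruction classes of the cone spheres.
-/

open scoped Topology unitInterval Topology.Homotopy
open Set

noncomputable section

namespace NRF

namespace ZS

theorem ne_of_ne {k m : ℕ} (F : Fin (k + 1) ↪o Fin (m + 2)) (h : F 0 ≠ 0) (t : Fin (k + 1)) :
    F t ≠ 0 := by
  intro h0
  apply h
  have h1 : F 0 ≤ F t := F.monotone (Fin.zero_le t)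
  rw [h0] at h1
  exact Fin.le_zero_iff.1 h1

theorem tail_ne {k m : ℕ} (F : Fin (k + 2) ↪o Fin (m + 2)) (t : Fin (k + 1)) :
    F t.succ ≠ 0 := by
  intro h0
  have h1 : F 0 < F t.succ := F.strictMono (Fin.succ_pos t)
  rw [h0] at h1
  exact absurd h1 (Fin.not_lt_zero _)

/-- Shift down an embedding that misses `0`. -/
def predEmb {k m : ℕ} (F : Fin (k + 1) ↪o Fin (m + 2)) (h : F 0 ≠ 0) :
    Fin (k + 1) ↪o Fin (m + 1) :=
  OrderEmbedding.ofStrictMono (fun t => (F t).pred (ne_of_ne F h t)) (by
    intro a b hab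
    rw [Fin.pred_lt_pred_iff]
    exact F.strictMono hab)

/-- The tail of an embedding, shifted down. -/
def tailEmb {k m : ℕ} (F : Fin (k + 2) ↪o Fin (m + 2)) : Fin (k + 1) ↪o Fin (m + 1) :=
  OrderEmbedding.ofStrictMono (fun t => (F t.succ).pred (tail_ne F t)) (by
    intro a b hab
    rw [Fin.pred_lt_pred_iff]
    exact F.strictMono (Fin.succ_lt_succ_iff.2 hab))

theorem predEmb_succ {k m : ℕ} (F : Fin (k + 1) ↪o Fin (m + 2)) (h : F 0 ≠ 0) (t : Fin (k + 1)) :
    (predEmb F h t).succ = F t := by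
  change Fin.succ (Fin.pred (F t) (ne_of_ne F h t)) = F t
  exact Fin.succ_pred _ _

theorem tailEmb_succ {k m : ℕ} (F : Fin (k + 2) ↪o Fin (m + 2)) (t : Fin (k + 1)) :
    (tailEmb F t).succ = F t.succ := by
  change Fin.succ (Fin.pred (F t.succ) (tail_ne F t)) = F t.succ
  exact Fin.succ_pred _ _

variable {E : DSet}

/-- The faces of a cone. -/
def coneV {n : ℕ} (c : ∀ m, m < n → E.obj m → E.obj (m + 1)) (pt : E.obj 0) {m : ℕ}
    (e : E.obj m) : ∀ {k : ℕ}, k ≤ n → (Fin (k + 1) ↪o Fin (m + 2)) → E.obj k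
  | 0, _, F => if h : F 0 = 0 then pt else E.res (predEmb F h) e
  | k + 1, hk, F => if h : F 0 = 0 then c k hk (E.res (tailEmb F) e) else E.res (predEmb F h) e

theorem coneV_ne {n : ℕ} (c : ∀ m, m < n → E.obj m → E.obj (m + 1)) (pt : E.obj 0) {m : ℕ}
    (e : E.obj m) {k : ℕ} (hk : k ≤ n) (F : Fin (k + 1) ↪o Fin (m + 2)) (h : F 0 ≠ 0) :
    coneV c pt e hk F = E.res (predEmb F h) e := by
  cases k with
  | zero => simp only [coneV]; rw [dif_neg h]
  | succ k => simp only [coneV]; rw [dif_neg h]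

theorem coneV_zero {n : ℕ} (c : ∀ m, m < n → E.obj m → E.obj (m + 1)) (pt : E.obj 0) {m : ℕ}
    (e : E.obj m) (hk : 0 ≤ n) (F : Fin (0 + 1) ↪o Fin (m + 2)) (h : F 0 = 0) :
    coneV c pt e hk F = pt := by
  simp only [coneV]; rw [dif_pos h]

theorem coneV_succ {n : ℕ} (c : ∀ m, m < n → E.obj m → E.obj (m + 1)) (pt : E.obj 0) {m : ℕ}
    (e : E.obj m) {k : ℕ} (hk : k + 1 ≤ n) (F : Fin (k + 2) ↪o Fin (m + 2)) (h : F 0 = 0) :
    coneV c pt e hk F = c k hk (E.res (tailEmb F) e) := by
  simp only [coneV]; rw [dif_pos h]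

/-- Systems of cones below level `n`. -/
def IsCones {n : ℕ} (c : ∀ m, m < n → E.obj m → E.obj (m + 1)) (pt : E.obj 0) : Prop :=
  ∀ (m : ℕ) (hm : m < n) (e : E.obj m) (k : ℕ) (hk : k ≤ n) (F : Fin (k + 1) ↪o Fin (m + 2)),
    E.res F (c m hm e) = coneV c pt e hk F

theorem le_of_emb {k m : ℕ} (F : Fin (k + 1) ↪o Fin (m + 1)) : k ≤ m := by
  have := Fintype.card_le_of_injective F F.injective
  simp only [Fintype.card_fin] at this
  omega

theorem emb_eq_refl {m : ℕ} (F : Fin (m + 1) ↪o Fin (m + 1)) : F = RelEmbedding.refl _ := by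
  apply RelEmbedding.ext
  intro t
  have h : ⇑F = id := by
    have h1 : Function.Surjective F := Finite.injective_iff_surjective.1 F.injective
    have h2 : StrictMono F := F.strictMono
    have h3 := Subsingleton.elim (h2.orderIsoOfSurjective F h1) (OrderIso.refl _)
    funext s
    have h4 := congrArg (fun (u : Fin (m + 1) ≃o Fin (m + 1)) => u s) h3
    simpa using h4
  rw [h]
  rfl

theorem res_coneV {n : ℕ} (c : ∀ m, m < n → E.obj m → E.obj (m + 1)) (pt : E.obj 0)
    (hc : IsCones c pt) {m : ℕ} (e : E.obj m) {k l : ℕ} (hk : k ≤ n) (hl : l ≤ n)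
    (f : Fin (l + 1) ↪o Fin (k + 1)) (F : Fin (k + 1) ↪o Fin (m + 2)) :
    E.res f (coneV c pt e hk F) = coneV c pt e hl (f.trans F) := by
  by_cases h : F 0 = 0
  · cases k with
    | zero =>
      rw [coneV_zero c pt e hk F h]
      obtain rfl : l = 0 := by
        have := le_of_emb f
        omega
      have hf : f = RelEmbedding.refl _ := emb_eq_refl f
      subst hf
      rw [E.res_id]
      exact (coneV_zero c pt e hl _ h).symm
    | succ k =>
      rw [coneV_succ c pt e hk F h, hc k hk _ l hl f]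
      by_cases h0 : f 0 = 0
      · have h1 : (f.trans F) 0 = 0 := by
          change F (f 0) = 0
          rw [h0, h]
        cases l with
        | zero => rw [coneV_zero c pt _ hl _ h0, coneV_zero c pt _ hl _ h1]
        | succ l =>
          rw [coneV_succ c pt _ hl _ h0, coneV_succ c pt _ hl _ h1, E.res_comp]
          congr 2
          apply RelEmbedding.ext
          intro t
          apply Fin.succ_injective
          rw [tailEmb_succ]
          change (tailEmb F (tailEmb f t)).succ = F (f t.succ)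
          rw [tailEmb_succ, tailEmb_succ]
      · have h1 : (f.trans F) 0 ≠ 0 := by
          change F (f 0) ≠ 0
          intro h2
          rw [← h] at h2
          exact h0 (F.injective h2)
        rw [coneV_ne c pt _ hl _ h0, coneV_ne c pt _ hl _ h1, E.res_comp]
        congr 1
        apply RelEmbedding.ext
        intro t
        apply Fin.succ_injective
        rw [predEmb_succ]
        change (tailEmb F (predEmb f h0 t)).succ = F (f t)
        rw [tailEmb_succ, predEmb_succ]
  · have h1 : (f.trans F) 0 ≠ 0 := by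
      change F (f 0) ≠ 0
      intro h2
      have h3 : F 0 ≤ F (f 0) := F.monotone (Fin.zero_le _)
      rw [h2] at h3
      exact h (Fin.le_zero_iff.1 h3)
    rw [coneV_ne c pt _ hk _ h, coneV_ne c pt _ hl _ h1, E.res_comp]
    congr 1

/-- The cone sphere of a simplex. -/
def sph {n : ℕ} (c : ∀ m, m < n → E.obj m → E.obj (m + 1)) (pt : E.obj 0)
    (hc : IsCones c pt) (e : E.obj n) : Sphere E n where
  x j := coneV c pt e le_rfl (Fin.succAboveOrderEmb j)
  compat i j k f g h := by
    have hk : k ≤ n := le_of_emb f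
    rw [res_coneV c pt hc e le_rfl hk, res_coneV c pt hc e le_rfl hk]
    congr 1
    apply RelEmbedding.ext
    intro t
    exact h t

theorem sph_zero {n : ℕ} (c : ∀ m, m < n → E.obj m → E.obj (m + 1)) (pt : E.obj 0)
    (hc : IsCones c pt) (e : E.obj n) : (sph c pt hc e).x 0 = e := by
  change coneV c pt e le_rfl (Fin.succAboveOrderEmb 0) = e
  have h : (Fin.succAboveOrderEmb (0 : Fin (n + 2))) 0 ≠ 0 := by
    change Fin.succAbove (0 : Fin (n + 2)) (0 : Fin (n + 1)) ≠ 0
    rw [Fin.succAbove_zero]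
    exact Fin.succ_ne_zero _
  rw [coneV_ne c pt e _ _ h, emb_eq_refl (predEmb _ h), E.res_id]

theorem sph_succ {q : ℕ} (c : ∀ m, m < q + 1 → E.obj m → E.obj (m + 1)) (pt : E.obj 0)
    (hc : IsCones c pt) (e : E.obj (q + 1)) (j : Fin (q + 2)) :
    (sph c pt hc e).x j.succ = c q (Nat.lt_succ_self q) (E.d j e) := by
  change coneV c pt e le_rfl (Fin.succAboveOrderEmb j.succ) = _
  have h : (Fin.succAboveOrderEmb j.succ : Fin (q + 2) ↪o Fin (q + 3)) 0 = 0 :=
    Fin.succ_succAbove_zero j
  rw [coneV_succ c pt e _ _ h]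
  congr 1
  change E.res _ e = E.res _ e
  congr 1
  apply RelEmbedding.ext
  intro t
  apply Fin.succ_injective
  rw [tailEmb_succ]
  exact Fin.succ_succAbove_succ j t

theorem factor {k n : ℕ} (F : Fin (k + 1) ↪o Fin (n + 2)) (hk : k ≤ n) :
    ∃ (j : Fin (n + 2)) (f : Fin (k + 1) ↪o Fin (n + 1)), F = f.trans (Fin.succAboveOrderEmb j) := by
  have h1 : ¬ Function.Surjective F := by
    intro h
    have := Fintype.card_le_of_surjective F h
    simp only [Fintype.card_fin] at this
    omega
  obtain ⟨j, hj⟩ := not_forall.1 h1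
  have h2 : ∀ t, ∃ y, j.succAbove y = F t := fun t =>
    Fin.exists_succAbove_eq (fun h => hj ⟨t, h⟩)
  choose f hf using h2
  have h3 : StrictMono f := by
    intro a b hab
    have h4 := F.strictMono hab
    rw [← hf a, ← hf b] at h4
    exact (Fin.strictMono_succAbove j).lt_iff_lt.1 h4
  refine ⟨j, OrderEmbedding.ofStrictMono f h3, ?_⟩
  apply RelEmbedding.ext
  intro t
  exact (hf t).symm

theorem exists_cones (pt : E.obj 0) : ∀ n : ℕ, (∀ m, m < n → Conn E m) →
    ∃ c : ∀ m, m < n → E.obj m → E.obj (m + 1), IsCones c pt := by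
  intro n
  induction n with
  | zero =>
    intro _
    exact ⟨fun m hm => absurd hm (Nat.not_lt_zero m), fun m hm => absurd hm (Nat.not_lt_zero m)⟩
  | succ n ih =>
    intro hn
    obtain ⟨c, hc⟩ := ih fun m hm => hn m (Nat.lt_succ_of_lt hm)
    have h1 : ∀ e : E.obj n, ∃ w, Fills w (sph c pt hc e) := fun e =>
      hn n (Nat.lt_succ_self n) (sph c pt hc e)
    choose w hw using h1
    let c' : ∀ m, m < n + 1 → E.obj m → E.obj (m + 1) := fun m hm e =>
      if h : m < n then c m h e else (show m = n by omega) ▸ w ((show m = n by omega) ▸ e)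
    have c'lt : ∀ m (hm : m < n + 1) (h : m < n) e, c' m hm e = c m h e := by
      intro m hm h e
      simp only [c']
      rw [dif_pos h]
    have c'eq : ∀ (hm : n < n + 1) e, c' n hm e = w e := by
      intro hm e
      simp only [c']
      rw [dif_neg (lt_irrefl n)]
    have hV : ∀ {m : ℕ} (e : E.obj m) {k : ℕ} (hk : k ≤ n) (hk' : k ≤ n + 1)
        (F : Fin (k + 1) ↪o Fin (m + 2)), coneV c' pt e hk' F = coneV c pt e hk F := by
      intro m e k hk hk' F
      by_cases h : F 0 = 0
      · cases k with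
        | zero => rw [coneV_zero c pt _ _ _ h, coneV_zero c' pt _ _ _ h]
        | succ k => rw [coneV_succ c pt _ hk _ h, coneV_succ c' pt _ hk' _ h, c'lt k hk' hk]
      · rw [coneV_ne c pt _ _ _ h, coneV_ne c' pt _ _ _ h]
    refine ⟨c', ?_⟩
    intro m hm e k hk F
    by_cases h : m < n
    · have hkm : k ≤ m + 1 := le_of_emb F
      rw [c'lt m hm h, hV e (by omega) hk F]
      exact hc m h e k (by omega) F
    · obtain rfl : m = n := by omega
      rw [c'eq hm]
      have hkm : k ≤ m + 1 := le_of_emb F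
      rcases Nat.lt_or_ge k (m + 1) with h2 | h2
      · have hk2 : k ≤ m := Nat.lt_succ_iff.1 h2
        rw [hV e hk2 hk F]
        obtain ⟨j, f, hf⟩ := factor F hk2
        rw [hf, ← E.res_comp]
        have h3 := hw e j
        change E.res (Fin.succAboveOrderEmb j) (w e) = _ at h3
        rw [h3]
        exact res_coneV c pt hc e le_rfl hk2 f _
      · obtain rfl : k = m + 1 := by omega
        have hF : F = RelEmbedding.refl _ := emb_eq_refl F
        subst hF
        rw [E.res_id, coneV_succ c' pt e hk _ rfl, c'eq hk]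
        rw [emb_eq_refl (tailEmb _), E.res_id]

/-- The apex of the image of a cone sphere. -/
theorem apex_sph {Y : Type} [TopologicalSpace Y] {E : DSet} (π : DMap E (sing Y)) {q : ℕ}
    (c : ∀ m, m < q + 1 → E.obj m → E.obj (m + 1)) (pt : E.obj 0)
    (hc : IsCones c pt) (e : E.obj (q + 1)) :
    (π.sphere (sph c pt hc e)).apex = (show Simp 0 Y from π.f pt) (stdSimplex.vertex 0) := by
  have h1 : E.res (vtxEmb 0) ((sph c pt hc e).x 1) = pt := by
    have h2 : (sph c pt hc e).x 1 = c q (Nat.lt_succ_self q) (E.d 0 e) := by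
      have := sph_succ c pt hc e 0
      rw [Fin.succ_zero_eq_one'] at this
      exact this
    rw [h2, hc q _ _ 0 (Nat.zero_le _)]
    exact coneV_zero c pt _ _ _ rfl
  have h3 := π.nat (vtxEmb 0) ((sph c pt hc e).x 1)
  rw [h1] at h3
  have h4 := congrArg (fun (s : Simp 0 Y) => s (stdSimplex.vertex 0)) h3
  rw [← show _ = (show Simp 0 Y from π.f pt) (stdSimplex.vertex 0) from h4]
  change (show Simp (q + 1) Y from π.f ((sph c pt hc e).x 1)) (stdSimplex.vertex 0) =
    (show Simp (q + 1) Y from π.f ((sph c pt hc e).x 1))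
      (stdSimplex.map (vtxEmb (0 : Fin (q + 1 + 1))) (stdSimplex.vertex 0))
  rw [stdSimplex.map_vertex]
  rfl

end ZS

open ZS in
theorem claimZS_proof : claimZS := by
  intro Y _ q s A _ ob _ H
  obtain ⟨c, hc⟩ := exists_cones s.pt (q + 1) s.conn
  refine ⟨fun e => ob (s.π.sphere (sph c s.pt hc e)), ?_, ?_⟩
  · intro S
    have h1 := H.add (s.π.sphere S) (fun j => s.π.sphere (sph c s.pt hc (S.x j)))
      (fun j => apex_sph s.π c s.pt hc (S.x j))
      (fun j => congrArg s.π.f (sph_zero c s.pt hc (S.x j))) (by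
        intro j j' i i' h
        change s.π.f ((sph c s.pt hc (S.x j)).x i.succ) =
          s.π.f ((sph c s.pt hc (S.x j')).x i'.succ)
        rw [sph_succ, sph_succ]
        congr 2
        exact S.compat j j' q (Fin.succAboveOrderEmb i) (Fin.succAboveOrderEmb i') h)
    rw [← h1]
    constructor
    · rintro ⟨w, hw⟩
      refine ⟨s.π.f w, fun j => ?_⟩
      change (sing Y).res _ (s.π.f w) = s.π.f (S.x j)
      rw [s.π.nat]
      exact congrArg s.π.f (hw j)
    · rintro ⟨w, hw⟩
      obtain ⟨e, he, -⟩ := s.lifts (q + 1) (by omega) S w hw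
      exact ⟨e, he⟩
  · intro S a
    obtain ⟨w0, hw0⟩ := s.conn q (Nat.lt_succ_self q) S
    obtain ⟨S', h1, h2⟩ := H.real (s.π.sphere (sph c s.pt hc w0))
      (apex_sph s.π c s.pt hc w0) a
    have h3 : ∀ j, S'.x j.succ = s.π.f (c q (Nat.lt_succ_self q) (S.x j)) := by
      intro j
      rw [h1 j]
      change s.π.f ((sph c s.pt hc w0).x j.succ) = _
      rw [sph_succ, hw0 j]
    have h4 : Fills (E := sing Y) (S'.x 0) (s.π.sphere S) := by
      intro j
      have h5 := S'.compat 0 j.succ q (Fin.succAboveOrderEmb j) (Fin.succAboveOrderEmb 0) (by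
        intro t
        change Fin.succAbove 0 (j.succAbove t) = j.succ.succAbove (Fin.succAbove 0 t)
        rw [Fin.succAbove_zero, Fin.succAbove_zero, Fin.succ_succAbove_succ])
      change (sing Y).res (Fin.succAboveOrderEmb j) (S'.x 0) = s.π.f (S.x j)
      rw [h5, h3, s.π.nat]
      congr 1
      have h6 : (Fin.succAboveOrderEmb (0 : Fin (q + 2)) : Fin (q + 1) ↪o Fin (q + 2)) 0 ≠ 0 := by
        change Fin.succAbove (0 : Fin (q + 2)) (0 : Fin (q + 1)) ≠ 0
        rw [Fin.succAbove_zero]
        exact Fin.succ_ne_zero _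
      rw [hc q _ _ q (Nat.le_succ q), coneV_ne c s.pt _ _ _ h6, emb_eq_refl (predEmb _ h6),
        s.E.res_id]
    obtain ⟨e, he, he'⟩ := s.lifts q le_rfl S (S'.x 0) h4
    refine ⟨e, he, ?_⟩
    rw [← h2]
    change ob (s.π.sphere (sph c s.pt hc e)) = ob S'
    congr 1
    have h7 : (s.π.sphere (sph c s.pt hc e)).x = S'.x := by
      funext j
      refine Fin.cases ?_ (fun j => ?_) j
      · change s.π.f ((sph c s.pt hc e).x 0) = _
        rw [sph_zero, he']
      · change s.π.f ((sph c s.pt hc e).x j.succ) = _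
        rw [sph_succ, h3, he j]
    cases S'
    cases h7
    rfl

end NRF
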