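import Pool.Agent.Work.MP_7f974f_gt.DA

/-!
# Module A, part 1: statements in differential algebra (purely algebraic)
-/

noncomputable section

namespace NRF

/-- Basic identities: symmetry of `h` and of the Christoffel symbols, `∇g = 0`, `∇h = 0`. -/
def claimDA1 : Prop :=
  ∀ (ι R : Type) [Fintype ι] [DecidableEq ι] [CommRing R] [Algebra ℝ R] (S : Geo ι R),
    (∀ i j, S.h i j = S.h j i) ∧ S.g * S.h = 1 ∧ (∀ k i j, S.chr k i j = S.chr k j i) ∧
    (∀ l i j, S.D l (S.g i j) = ∑ m, (S.g i m * S.chr m l j + S.g j m * S.chr m l i)) ∧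
    (∀ l i j, S.D l (S.h i j) = -∑ m, (S.chr i l m * S.h m j + S.chr j l m * S.h i m))

/-- Uniqueness of the Levi-Civita connection. -/
def claimDA2 : Prop :=
  ∀ (ι R : Type) [Fintype ι] [DecidableEq ι] [CommRing R] [Algebra ℝ R] (S : Geo ι R)
    (C : ι → ι → ι → R), (∀ k i j, C k i j = C k j i) →
    (∀ l i j, S.D l (S.g i j) = ∑ m, (S.g i m * C m l j + S.g j m * C m l i)) →
    ∀ k i j, C k i j = S.chr k i j

/-- Algebraic symmetries of the curvature tensor. -/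
def claimDA3 : Prop :=
  ∀ (ι R : Type) [Fintype ι] [DecidableEq ι] [CommRing R] [Algebra ℝ R] (S : Geo ι R),
    (∀ k l i j, S.rm k l i j = -S.rm k l j i) ∧
    (∀ k l i j, S.rm k l i j + S.rm k i j l + S.rm k j l i = 0) ∧
    (∀ a l i j, S.rmL a l i j = -S.rmL l a i j) ∧
    (∀ a l i j, S.rmL a l i j = S.rmL i j a l) ∧
    (∀ i j, S.ric i j = ∑ k, S.rm k i k j) ∧
    (∀ i j, S.ric i j = S.ric j i)

/-- Contracted second Bianchi identity: `∇^k Ric_kj = (1/2) ∂_j s`. -/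
def claimDA4 : Prop :=
  ∀ (ι R : Type) [Fintype ι] [DecidableEq ι] [CommRing R] [Algebra ℝ R] (S : Geo ι R) (j : ι),
    ∑ i, ∑ k, S.h i k * S.cov2 S.ric k i j = (1 / 2 : ℝ) • S.D j S.scal

/-- Bochner formula for functions. -/
def claimDA5 : Prop :=
  ∀ (ι R : Type) [Fintype ι] [DecidableEq ι] [CommRing R] [Algebra ℝ R] (S : Geo ι R) (u : R),
    S.lap (S.grad2 u u) = (2 : ℝ) • S.inner2 (S.hess u) (S.hess u) +
      (2 : ℝ) • S.grad2 u (S.lap u) +
      (2 : ℝ) • ∑ i, ∑ j, ∑ k, ∑ l, S.h i k * S.h j l * (S.ric i j * (S.D k u * S.D l u))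

/-- First variation of the Christoffel symbols. -/
def claimDA6a : Prop :=
  ∀ (ι R : Type) [Fintype ι] [DecidableEq ι] [CommRing R] [Algebra ℝ R] (S : Geo ι R)
    (T : Derivation ℝ R R), (∀ i a, T (S.D i a) = S.D i (T a)) → ∀ k i j,
    T (S.chr k i j) = (1 / 2 : ℝ) • ∑ l, S.h k l *
      (S.cov2 (fun a b => T (S.g a b)) i j l + S.cov2 (fun a b => T (S.g a b)) j i l -
        S.cov2 (fun a b => T (S.g a b)) l i j)

/-- The vector field `W^k = h^ij C^k_ij - h^kj C^i_ij`, `C = T Γ`. -/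
def Geo.palV {ι R : Type} [Fintype ι] [DecidableEq ι] [CommRing R] [Algebra ℝ R] (S : Geo ι R)
    (T : Derivation ℝ R R) (k : ι) : R :=
  ∑ i, ∑ j, (S.h i j * T (S.chr k i j) - S.h k j * T (S.chr i i j))

/-- Palatini identity, contracted with the metric: `h^ij T(Ric_ij) = div W`. -/
def claimDA6b : Prop :=
  ∀ (ι R : Type) [Fintype ι] [DecidableEq ι] [CommRing R] [Algebra ℝ R] (S : Geo ι R)
    (T : Derivation ℝ R R), (∀ i a, T (S.D i a) = S.D i (T a)) →
    ∑ i, ∑ j, S.h i j * T (S.ric i j) =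
      ∑ k, (S.D k (S.palV T k) + ∑ m, S.chr k k m * S.palV T m)

/-- Evolution of the scalar curvature: if `T g = -2 Ric + c g`, `c` constant in space, then
`T s = Lap s + 2 |Ric|² - c s`. -/
def claimDA6c : Prop :=
  ∀ (ι R : Type) [Fintype ι] [DecidableEq ι] [CommRing R] [Algebra ℝ R] (S : Geo ι R)
    (T : Derivation ℝ R R) (c : R), (∀ i a, T (S.D i a) = S.D i (T a)) → (∀ i, S.D i c = 0) →
    (∀ i j, T (S.g i j) = (-2 : ℝ) • S.ric i j + c * S.g i j) →
    T S.scal = S.lap S.scal + (2 : ℝ) • S.inner2 S.ric S.ric - c * S.scal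

/-- Volume density `w = sqrt(det g)`: derivatives, divergence form of the Laplacian. -/
def claimDA7 : Prop :=
  ∀ (ι R : Type) [Fintype ι] [DecidableEq ι] [CommRing R] [Algebra ℝ R] (S : Geo ι R)
    (w w' : R), w * w = S.g.det → w * w' = 1 →
    (∀ k, S.D k w = w * ∑ i, S.chr i i k) ∧
    (∀ u, ∑ k, S.D k (w * ∑ l, S.h k l * S.D l u) = w * S.lap u) ∧
    (∀ T : Derivation ℝ R R, T w = (1 / 2 : ℝ) • (w * ∑ i, ∑ j, S.h i j * T (S.g i j)))

/-- Behaviour under a change of coordinates. `ψ` is composition with the coordinate change and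
`J a i` its Jacobi matrix. -/
def claimDA8 : Prop :=
  ∀ (ι R R' : Type) [Fintype ι] [DecidableEq ι] [CommRing R] [Algebra ℝ R] [CommRing R']
    [Algebra ℝ R'] (S : Geo ι R) (S' : Geo ι R') (ψ : R →ₐ[ℝ] R') (J K : Matrix ι ι R'),
    K * J = 1 → (∀ a u, S'.D a (ψ u) = ∑ i, J a i * ψ (S.D i u)) →
    (∀ a b i, S'.D a (J b i) = S'.D b (J a i)) →
    (∀ a b, S'.g a b = ∑ i, ∑ j, J a i * J b j * ψ (S.g i j)) →
    (∀ a b, S'.ric a b = ∑ i, ∑ j, J a i * J b j * ψ (S.ric i j)) ∧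
    S'.scal = ψ S.scal ∧
    (∀ u, S'.lap (ψ u) = ψ (S.lap u)) ∧
    (∀ u v, S'.grad2 (ψ u) (ψ v) = ψ (S.grad2 u v)) ∧
    S'.inner2 S'.ric S'.ric = ψ (S.inner2 S.ric S.ric)

/-- Orthonormal frames: inverse, `h = f fᵀ`, the connection matrices are skew, torsion free. -/
def claimFR1 : Prop :=
  ∀ (ι R : Type) [Fintype ι] [DecidableEq ι] [CommRing R] [Algebra ℝ R] (S : Geo ι R)
    (F : Frame S),
    F.f * F.fi = 1 ∧ S.h = F.f * F.f.transpose ∧ (∀ i, (F.om i).transpose = -F.om i) ∧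
    (∀ a i j, S.D i (F.fi a j) - S.D j (F.fi a i) +
      ∑ b, (F.om i a b * F.fi b j - F.om j a b * F.fi b i) = 0)

/-- Orthonormal frames: the curvature, its symmetries, Ricci and scalar curvature. -/
def claimFR2 : Prop :=
  ∀ (ι R : Type) [Fintype ι] [DecidableEq ι] [CommRing R] [Algebra ℝ R] (S : Geo ι R)
    (F : Frame S),
    (∀ i j, F.Om i j = F.fi * (Matrix.of fun k l => S.rm k l i j) * F.f) ∧
    (∀ a b c d, F.R4 a b c d = -F.R4 b a c d) ∧
    (∀ a b c d, F.R4 a b c d = -F.R4 a b d c) ∧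
    (∀ a b c d, F.R4 a b c d = F.R4 c d a b) ∧
    (∀ a b c d, F.R4 a b c d + F.R4 a c d b + F.R4 a d b c = 0) ∧
    (∀ a b, ∑ k, F.R4 k a k b = ∑ i, ∑ j, F.f i a * F.f j b * S.ric i j) ∧
    S.scal = ∑ a, ∑ k, F.R4 k a k a ∧
    S.inner2 S.ric S.ric = ∑ a, ∑ b, (∑ k, F.R4 k a k b) ^ 2

/-- Algebra of the exterior and Clifford multiplications on `Lam → R`. -/
def claimFR3 : Prop :=
  ∀ (R : Type) [CommRing R] [Algebra ℝ R],
    (∀ a b, eps R a * eps R b + eps R b * eps R a = 0) ∧ (∀ a, eps R a * eps R a = 0) ∧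
    (∀ a b, eps R a * iot R b + iot R b * eps R a = if a = b then 1 else 0) ∧
    (∀ a b, clf R a * clf R b + clf R b * clf R a = if a = b then -2 else 0) ∧
    (∀ a, clf R a * clf R a = -1) ∧
    (∀ a, evenOdd R * clf R a = -(clf R a * evenOdd R)) ∧ evenOdd R * evenOdd R = 1 ∧
    (∀ a, gam R * clf R a = -(clf R a * gam R)) ∧ gam R * gam R = 1 ∧
    (∀ A : Matrix (Fin 4) (Fin 4) R, evenOdd R * rho A = rho A * evenOdd R) ∧
    (∀ A : Matrix (Fin 4) (Fin 4) R, A.transpose = -A → gam R * rho A = rho A * gam R) ∧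
    (∀ (A : Matrix (Fin 4) (Fin 4) R) (c : Fin 4),
      rho A * eps R c - eps R c * rho A = ∑ a, A a c • eps R a) ∧
    (∀ (A : Matrix (Fin 4) (Fin 4) R) (c : Fin 4),
      rho A * iot R c - iot R c * rho A = -∑ b, A c b • iot R b) ∧
    (∀ (A : Matrix (Fin 4) (Fin 4) R), A.transpose = -A → ∀ c : Fin 4,
      rho A * clf R c - clf R c * rho A = ∑ a, A a c • clf R a) ∧
    (∀ A B : Matrix (Fin 4) (Fin 4) R, rho A * rho B - rho B * rho A = rho (A * B - B * A)) ∧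
    (∀ A : Matrix (Fin 4) (Fin 4) R, (rho A).transpose = rho A.transpose)

/-- `D = d + δ`, `d d = 0`, `δ δ = 0` in an orthonormal frame. -/
def claimFR4 : Prop :=
  ∀ (R : Type) [CommRing R] [Algebra ℝ R] (S : Geo (Fin 4) R) (F : Frame S) (α : Lam → R),
    F.dirac α = F.dF α + F.delF α ∧ F.dF (F.dF α) = 0 ∧ F.delF (F.delF α) = 0

/-- Weitzenböck formula for `D² = (d + δ)²` in an orthonormal frame. -/
def claimFR5 : Prop :=
  ∀ (R : Type) [CommRing R] [Algebra ℝ R] (S : Geo (Fin 4) R) (F : Frame S) (α : Lam → R),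
    F.dirac (F.dirac α) =
      -(∑ i, ∑ j, S.h i j • (F.nab i (F.nab j α) - ∑ k, S.chr k i j • F.nab k α)) +
        (weitz F.R4).mulVec α

end NRF
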