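import Pool.Agent.Work.MP_7f974f_gt.ADefs
import Pool.Agent.Work.MP_7f974f_gt.Stmts_DA

/-!
# Module A, part 2: function level statements and naturality layer
-/

open scoped Manifold ContDiff Topology
open MeasureTheory Set

noncomputable section

namespace NRF

/-! ## Local statements (open subsets of `ℝ⁴`) -/

/-- All coordinate expressions are local. -/
def claimL0 : Prop :=
  ∀ (U : Set E4) (G G' : E4 → Matrix (Fin 4) (Fin 4) ℝ) (u u' v v' : E4 → ℝ), IsOpen U →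
    EqOn G G' U → EqOn u u' U → EqOn v v' U → ∀ y ∈ U,
    (∀ k i j, chr G k i j y = chr G' k i j y) ∧ (∀ i j, ricci G i j y = ricci G' i j y) ∧
    scalC G y = scalC G' y ∧ ric0SqC G y = ric0SqC G' y ∧
    (∀ i j, hessC G u i j y = hessC G' u' i j y) ∧ laplC G u y = laplC G' u' y ∧
    gradInC G u v y = gradInC G' u' v' y

/-- Naturality under smooth maps with invertible differential. -/
def claimL1 : Prop :=
  ∀ (U V : Set E4) (φ : E4 → E4) (G : E4 → Matrix (Fin 4) (Fin 4) ℝ), IsOpen U → MetOn V G →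
    MapsTo φ U V → ContDiffOn ℝ ∞ φ U → (∀ y ∈ U, (fderiv ℝ φ y).det ≠ 0) →
    MetOn U (pullM φ G) ∧ ∀ y ∈ U,
      (pullM φ G y).det = (fderiv ℝ φ y).det ^ 2 * (G (φ y)).det ∧
      (∀ i j, ricci (pullM φ G) i j y = pullM φ (ricM G) y i j) ∧
      scalC (pullM φ G) y = scalC G (φ y) ∧
      ric0SqC (pullM φ G) y = ric0SqC G (φ y) ∧
      (∀ u, ContDiffAt ℝ 2 u (φ y) → laplC (pullM φ G) (u ∘ φ) y = laplC G u (φ y)) ∧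
      (∀ u v, DifferentiableAt ℝ u (φ y) → DifferentiableAt ℝ v (φ y) →
        gradInC (pullM φ G) (u ∘ φ) (v ∘ φ) y = gradInC G u v (φ y))

/-- A `C²` (`C³`) function has the same 2-jet (3-jet) at a point as some smooth function. -/
def claimJet : Prop :=
  (∀ (u : E4 → ℝ) (y : E4), ContDiffAt ℝ 2 u y → ∃ v : E4 → ℝ, ContDiff ℝ ∞ v ∧ v y = u y ∧
    (∀ i, pd i v y = pd i u y) ∧ (∀ i j, pd i (pd j v) y = pd i (pd j u) y)) ∧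
  (∀ (u : E4 → ℝ) (y : E4), ContDiffAt ℝ 3 u y → ∃ v : E4 → ℝ, ContDiff ℝ ∞ v ∧ v y = u y ∧
    (∀ i, pd i v y = pd i u y) ∧ (∀ i j, pd i (pd j v) y = pd i (pd j u) y) ∧
    (∀ i j k, pd i (pd j (pd k v)) y = pd i (pd j (pd k u)) y))

/-- Bochner formula for `C³` functions. -/
def claimL2 : Prop :=
  ∀ (U : Set E4) (G : E4 → Matrix (Fin 4) (Fin 4) ℝ) (u : E4 → ℝ), MetOn U G → ∀ y ∈ U,
    ContDiffAt ℝ 3 u y →
    laplC G (gradSqC G u) y = 2 * in2 (G y)⁻¹ (hessM G u y) (hessM G u y) +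
      2 * gradInC G u (laplC G u) y +
      2 * in2 (G y)⁻¹ (ricM G y) (Matrix.of fun i j => pd i u y * pd j u y)

/-- Positivity: `|A|² ≥ 0` and `(tr A)² ≤ 4 |A|²`; symmetry of the Ricci tensor; `|Ric₀|² ≥ 0`. -/
def claimL3 : Prop :=
  (∀ H A : Matrix (Fin 4) (Fin 4) ℝ, H.PosDef → 0 ≤ in2 H A A ∧
    (∑ i, ∑ j, H i j * A i j) ^ 2 ≤ 4 * in2 H A A) ∧
  (∀ (H : Matrix (Fin 4) (Fin 4) ℝ) (v : Fin 4 → ℝ), H.PosDef → 0 ≤ ∑ i, ∑ j, H i j * (v i * v j)) ∧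
  (∀ (U : Set E4) (G : E4 → Matrix (Fin 4) (Fin 4) ℝ), MetOn U G → ∀ y ∈ U,
    (∀ i j, ricci G i j y = ricci G j i y) ∧ 0 ≤ ric0SqC G y)

/-- Divergence form of the Laplacian. -/
def claimL4 : Prop :=
  ∀ (U : Set E4) (G : E4 → Matrix (Fin 4) (Fin 4) ℝ) (u : E4 → ℝ), MetOn U G → ∀ y ∈ U,
    ContDiffAt ℝ 2 u y →
    ∑ k, pd k (fun z => Real.sqrt (G z).det * ∑ l, (G z)⁻¹ k l * pd l u z) y =
      Real.sqrt (G y).det * laplC G u y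

/-- Smoothness of the coordinate expressions. -/
def claimL5 : Prop :=
  (∀ (Ω : Set (ℝ × E4)) (G : ℝ → E4 → Matrix (Fin 4) (Fin 4) ℝ), SmoothMet Ω G →
    (∀ i j, ContDiffOn ℝ ∞ (fun p : ℝ × E4 => (G p.1 p.2)⁻¹ i j) Ω) ∧
    (∀ k i j, ContDiffOn ℝ ∞ (fun p : ℝ × E4 => chr (G p.1) k i j p.2) Ω) ∧
    (∀ i j, ContDiffOn ℝ ∞ (fun p : ℝ × E4 => ricci (G p.1) i j p.2) Ω) ∧
    ContDiffOn ℝ ∞ (fun p : ℝ × E4 => scalC (G p.1) p.2) Ω ∧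
    ContDiffOn ℝ ∞ (fun p : ℝ × E4 => ric0SqC (G p.1) p.2) Ω ∧
    ContDiffOn ℝ ∞ (fun p : ℝ × E4 => Real.sqrt (G p.1 p.2).det) Ω) ∧
  (∀ (U : Set E4) (G : E4 → Matrix (Fin 4) (Fin 4) ℝ), MetOn U G →
    (∀ i j, ContDiffOn ℝ ∞ (fun y => (G y)⁻¹ i j) U) ∧
    (∀ k i j, ContDiffOn ℝ ∞ (chr G k i j) U) ∧ (∀ i j, ContDiffOn ℝ ∞ (ricci G i j) U) ∧
    ContDiffOn ℝ ∞ (scalC G) U ∧ ContDiffOn ℝ ∞ (ric0SqC G) U ∧
    ContDiffOn ℝ ∞ (fun y => Real.sqrt (G y).det) U ∧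
    ∀ u v, ContDiffOn ℝ ∞ u U → ContDiffOn ℝ ∞ v U →
      ContDiffOn ℝ ∞ (laplC G u) U ∧ ContDiffOn ℝ ∞ (gradInC G u v) U)

/-- The flow equation `∂_t G = -2 Ric + c(t) G` on an open subset of space time. -/
structure FlowOn (Ω : Set (ℝ × E4)) (G : ℝ → E4 → Matrix (Fin 4) (Fin 4) ℝ) (c : ℝ → ℝ) :
    Prop where
  met : SmoothMet Ω G
  eqn : ∀ p ∈ Ω, ∀ i j, HasDerivAt (fun s => G s p.2 i j)
    (-2 * ricci (G p.1) i j p.2 + c p.1 * G p.1 p.2 i j) p.1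

/-- Evolution of the volume density. -/
def claimLF1 : Prop :=
  ∀ (Ω : Set (ℝ × E4)) (G : ℝ → E4 → Matrix (Fin 4) (Fin 4) ℝ) (c : ℝ → ℝ), FlowOn Ω G c →
    ∀ p ∈ Ω, HasDerivAt (fun s => Real.sqrt (G s p.2).det)
      ((2 * c p.1 - scalC (G p.1) p.2) * Real.sqrt (G p.1 p.2).det) p.1

/-- Evolution of the scalar curvature. -/
def claimLF2 : Prop :=
  ∀ (Ω : Set (ℝ × E4)) (G : ℝ → E4 → Matrix (Fin 4) (Fin 4) ℝ) (c : ℝ → ℝ), FlowOn Ω G c →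
    ∀ p ∈ Ω, HasDerivAt (fun s => scalC (G s) p.2)
      (laplC (G p.1) (scalC (G p.1)) p.2 + 2 * ric0SqC (G p.1) p.2 +
        (scalC (G p.1) p.2) ^ 2 / 2 - c p.1 * scalC (G p.1) p.2) p.1

/-- Evolution of `|∇u|²` for a solution `u` of the heat equation along the flow. -/
def claimLF3 : Prop :=
  ∀ (Ω : Set (ℝ × E4)) (G : ℝ → E4 → Matrix (Fin 4) (Fin 4) ℝ) (c : ℝ → ℝ)
    (u : ℝ → E4 → ℝ), FlowOn Ω G c → ContDiffOn ℝ 3 (fun p : ℝ × E4 => u p.1 p.2) Ω →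
    (∀ p ∈ Ω, HasDerivAt (fun s => u s p.2) (laplC (G p.1) (u p.1) p.2) p.1) →
    ∀ p ∈ Ω, ∃ d, HasDerivAt (fun s => gradSqC (G s) (u s) p.2) d p.1 ∧
      d ≤ laplC (G p.1) (gradSqC (G p.1) (u p.1)) p.2 -
        c p.1 * gradSqC (G p.1) (u p.1) p.2

/-! ## Frames at function level -/

/-- Existence of positively oriented orthonormal frames. -/
def claimFC1 : Prop :=
  ∀ (U : Set E4) (G : E4 → Matrix (Fin 4) (Fin 4) ℝ), MetOn U G → ∃ f, FrameOn U G f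

/-- Connection matrices and curvature in a frame. -/
def claimFC2 : Prop :=
  ∀ (U : Set E4) (G f : E4 → Matrix (Fin 4) (Fin 4) ℝ), FrameOn U G f →
    (∀ i a b, ContDiffOn ℝ ∞ (fun y => omC G f i y a b) U) ∧
    (∀ a b c d, ContDiffOn ℝ ∞ (R4C G f a b c d) U) ∧
    ∀ y ∈ U, (∀ i, (omC G f i y).transpose = -omC G f i y) ∧
      (G y)⁻¹ = f y * (f y).transpose ∧
      (∀ a b c d, R4C G f a b c d y = -R4C G f b a c d y) ∧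
      (∀ a b c d, R4C G f a b c d y = -R4C G f a b d c y) ∧
      (∀ a b c d, R4C G f a b c d y = R4C G f c d a b y) ∧
      (∀ a b c d, R4C G f a b c d y + R4C G f a c d b y + R4C G f a d b c y = 0) ∧
      (∀ i j, OmC G f i j y = Matrix.of fun c d => ∑ a, ∑ b,
        (f y)⁻¹ a i * (f y)⁻¹ b j * R4C G f a b c d y) ∧
      scalC G y = ∑ a, ∑ k, R4C G f k a k a y ∧
      ric0SqC G y = (∑ a, ∑ b, (∑ k, R4C G f k a k b y) ^ 2) - scalC G y ^ 2 / 4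

/-- Smoothness of `∇`, `d`, `δ`, `D`; `D = d + δ`, `d d = 0`, `δ δ = 0`, Weitzenböck. -/
def claimFC3 : Prop :=
  ∀ (U : Set E4) (G f : E4 → Matrix (Fin 4) (Fin 4) ℝ), FrameOn U G f →
    (∀ α : E4 → Lam → ℝ, (∀ s, ContDiffOn ℝ ∞ (fun z => α z s) U) → ∀ s,
      (∀ i, ContDiffOn ℝ ∞ (fun z => nabC G f i α z s) U) ∧
      ContDiffOn ℝ ∞ (fun z => dFC G f α z s) U ∧ ContDiffOn ℝ ∞ (fun z => delFC G f α z s) U ∧
      ContDiffOn ℝ ∞ (fun z => diracC G f α z s) U) ∧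
    (∀ (α : E4 → Lam → ℝ) (y : E4), diracC G f α y = dFC G f α y + delFC G f α y) ∧
    (∀ (α : E4 → Lam → ℝ), ∀ y ∈ U, (∀ s, ContDiffAt ℝ 2 (fun z => α z s) y) →
      dFC G f (dFC G f α) y = 0 ∧ delFC G f (delFC G f α) y = 0 ∧
      diracC G f (diracC G f α) y =
        -(∑ i, ∑ j, (G y)⁻¹ i j • (nabC G f i (nabC G f j α) y -
          ∑ k, chr G k i j y • nabC G f k α y)) +
        (weitz (fun a b c d => R4C G f a b c d y)).mulVec (α y))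

/-- The exterior derivative in an orthonormal frame. -/
def claimFC4 : Prop :=
  ∀ (U : Set E4) (G f : E4 → Matrix (Fin 4) (Fin 4) ℝ), FrameOn U G f →
    ∀ (k : ℕ) (w : E4 → E4 [⋀^Fin k]→L[ℝ] ℝ), ∀ y ∈ U, DifferentiableAt ℝ w y →
      comp f (extDeriv w) y = dFC G f (comp f w) y

/-- Special coordinates and frame at a point. -/
def claimFC5 : Prop :=
  ∀ (U : Set E4) (G : E4 → Matrix (Fin 4) (Fin 4) ℝ), MetOn U G → ∀ y0 ∈ U,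
    ∃ (φ : OpenPartialHomeomorph E4 E4) (f : E4 → Matrix (Fin 4) (Fin 4) ℝ),
      (0 : E4) ∈ φ.source ∧ φ 0 = y0 ∧ φ.target ⊆ U ∧ ContDiffOn ℝ ∞ φ φ.source ∧
      ContDiffOn ℝ ∞ φ.symm φ.target ∧ (∀ z ∈ φ.source, 0 < (fderiv ℝ φ z).det) ∧
      FrameOn φ.source (pullM φ G) f ∧ pullM φ G 0 = 1 ∧
      (∀ i k l, pd i (fun z => pullM φ G z k l) 0 = 0) ∧ f 0 = 1 ∧
      (∀ i k l, pd i (fun z => f z k l) 0 = 0) ∧ (∀ i, omC (pullM φ G) f i 0 = 0)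

/-! ## Naturality layer: charts of the maximal atlas -/

/-- Coordinate changes of charts of the maximal atlas. -/
def claimN0 : Prop :=
  ∀ (X : Type) [TopologicalSpace X] [ChartedSpace E4 X] [IsManifold (𝓡 4) ∞ X],
    ∀ ψ ∈ IsManifold.maximalAtlas (𝓡 4) ∞ X, ∀ ψ' ∈ IsManifold.maximalAtlas (𝓡 4) ∞ X,
      ContDiffOn ℝ ∞ (ψ.symm.trans ψ') (ψ.symm.trans ψ').source ∧
      ∀ y ∈ (ψ.symm.trans ψ').source, (fderiv ℝ (ψ.symm.trans ψ') y).det ≠ 0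

/-- Coefficients in charts of the maximal atlas. -/
def claimN1 : Prop :=
  ∀ (X : Type) [TopologicalSpace X] [ChartedSpace E4 X] [IsManifold (𝓡 4) ∞ X] (g : Metric X),
    (∀ e : Ch X, ∀ y ∈ e.1.target, g.mcoef e.1 y = g.coef e y) ∧
    (∀ ψ ∈ IsManifold.maximalAtlas (𝓡 4) ∞ X, MetOn ψ.target (g.mcoef ψ)) ∧
    (∀ ψ ∈ IsManifold.maximalAtlas (𝓡 4) ∞ X, ∀ ψ' ∈ IsManifold.maximalAtlas (𝓡 4) ∞ X,
      ∀ y ∈ (ψ.symm.trans ψ').source,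
        g.mcoef ψ y = pullM (ψ.symm.trans ψ') (g.mcoef ψ') y)

/-- The scalar functions of a metric in charts of the maximal atlas. -/
def claimN2 : Prop :=
  ∀ (X : Type) [TopologicalSpace X] [ChartedSpace E4 X] [IsManifold (𝓡 4) ∞ X] (g : Metric X),
    ∀ ψ ∈ IsManifold.maximalAtlas (𝓡 4) ∞ X, ∀ x ∈ ψ.source,
      g.scal x = scalC (g.mcoef ψ) (ψ x) ∧ g.ric0Sq x = ric0SqC (g.mcoef ψ) (ψ x) ∧
      (∀ u : X → ℝ, ContDiffAt ℝ 2 (u ∘ ψ.symm) (ψ x) →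
        g.lapl u x = laplC (g.mcoef ψ) (u ∘ ψ.symm) (ψ x)) ∧
      (∀ u v : X → ℝ, DifferentiableAt ℝ (u ∘ ψ.symm) (ψ x) →
        DifferentiableAt ℝ (v ∘ ψ.symm) (ψ x) →
        g.gradIn u v x = gradInC (g.mcoef ψ) (u ∘ ψ.symm) (v ∘ ψ.symm) (ψ x)) ∧
      (∀ u : X → ℝ, DifferentiableAt ℝ (u ∘ ψ.symm) (ψ x) →
        g.gradSq u x = gradSqC (g.mcoef ψ) (u ∘ ψ.symm) (ψ x))

/-- Smoothness of the scalar functions. -/
def claimN3 : Prop :=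
  ∀ (X : Type) [TopologicalSpace X] [ChartedSpace E4 X] [IsManifold (𝓡 4) ∞ X] (g : Metric X),
    ContMDiff (𝓡 4) 𝓘(ℝ, ℝ) ∞ g.scal ∧ ContMDiff (𝓡 4) 𝓘(ℝ, ℝ) ∞ g.ric0Sq ∧
    (∀ x, 0 ≤ g.ric0Sq x) ∧
    ∀ u v : X → ℝ, ContMDiff (𝓡 4) 𝓘(ℝ, ℝ) ∞ u → ContMDiff (𝓡 4) 𝓘(ℝ, ℝ) ∞ v →
      ContMDiff (𝓡 4) 𝓘(ℝ, ℝ) ∞ (g.lapl u) ∧ ContMDiff (𝓡 4) 𝓘(ℝ, ℝ) ∞ (g.gradIn u v) ∧
      ContMDiff (𝓡 4) 𝓘(ℝ, ℝ) ∞ (g.gradSq u) ∧ ∀ x, 0 ≤ g.gradSq u x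

/-- Green's formula on a closed manifold. -/
def claimGreen : Prop :=
  ∀ (X : Type) [TopologicalSpace X] [T2Space X] [CompactSpace X] [ChartedSpace E4 X]
    [IsManifold (𝓡 4) ∞ X] [MeasurableSpace X] [BorelSpace X] (g : Metric X) (u v : X → ℝ),
    ContMDiff (𝓡 4) 𝓘(ℝ, ℝ) 2 u → ContMDiff (𝓡 4) 𝓘(ℝ, ℝ) 1 v →
    ∫ x, v x * g.lapl u x ∂g.vol = -∫ x, g.gradIn v u x ∂g.vol

end NRF
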