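import Pool.Agent.Work.MP_7f974f_gt.Stmts_K

/-!
# Module D, part 2: spectral theory of the heat semigroup, McKean-Singer (abstract statements)
-/

open scoped Manifold ContDiff Topology RealInnerProductSpace
open MeasureTheory Set

noncomputable section

namespace NRF

/-- Trace of an endomorphism. -/
def trC {V : Type} [NormedAddCommGroup V] [InnerProductSpace ℝ V] (A : V →L[ℝ] V) : ℝ :=
  LinearMap.trace ℝ V (A : V →ₗ[ℝ] V)

section

variable {X : Type} [TopologicalSpace X] [MeasurableSpace X] {V : Type}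
  [NormedAddCommGroup V] [InnerProductSpace ℝ V] [FiniteDimensional ℝ V]

/-- Orthonormal smooth eigenfunctions which diagonalise the heat kernel. -/
structure HeatData.IsEigen (D : HeatData X V) (T : ℝ → (X → V) → X → V)
    (K : ℝ → X → X → V →L[ℝ] V) {ι : Type} (e : ι → X → V) (lam : ι → ℝ) : Prop where
  smooth : ∀ i, D.g.Smooth (e i)
  norm : ∀ i, ∫ y, ⟪e i y, e i y⟫ ∂D.mu = 1
  orth : ∀ i j, i ≠ j → ∫ y, ⟪e i y, e j y⟫ ∂D.mu = 0
  nonneg : ∀ i, 0 ≤ lam i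
  heat : ∀ i t, 0 ≤ t → ∀ y, T t (e i) y = Real.exp (-lam i * t) • e i y
  eig : ∀ i y, D.g.L 0 (e i) y = lam i • e i y
  diag : ∀ t, 0 < t → ∀ x v w,
    HasSum (fun i => Real.exp (-lam i * t) * (⟪v, e i x⟫ * ⟪w, e i x⟫)) ⟪K t x x v, w⟫
  finite : ∀ r, {i | lam i ≤ r}.Finite
  complete : ∀ f, D.g.Smooth f → ∀ r : ℝ, (∀ y, D.g.L 0 f y = r • f y) →
    ∀ y, f y = ∑ᶠ i ∈ {i | lam i = r}, (∫ z, ⟪f z, e i z⟫ ∂D.mu) • e i y

/-- `TT t` is the heat operator on `L²`. -/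
structure HeatData.IsL2 (D : HeatData X V) (K : ℝ → X → X → V →L[ℝ] V)
    (TT : ℝ → Lp V 2 D.mu →L[ℝ] Lp V 2 D.mu) : Prop where
  repr : ∀ t, 0 < t → ∀ f : Lp V 2 D.mu, TT t f =ᵐ[D.mu] fun x => ∫ y, K t x y (f y) ∂D.mu
  compact : ∀ t, 0 < t → IsCompactOperator (TT t)
  symm : ∀ t, 0 < t → ∀ f h : Lp V 2 D.mu, ⟪TT t f, h⟫ = ⟪f, TT t h⟫
  comp : ∀ s t, 0 < s → 0 < t → ∀ f, TT (s + t) f = TT s (TT t f)
  pos : ∀ t, 0 < t → ∀ f : Lp V 2 D.mu, 0 ≤ ⟪TT t f, f⟫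

end

/-- SP1: the heat operators on `L²`. -/
def claimHeatL2 : Prop :=
  ∀ (X : Type) [TopologicalSpace X] [CompactSpace X] [T2Space X] [MeasurableSpace X] [BorelSpace X]
    (V : Type) [NormedAddCommGroup V] [InnerProductSpace ℝ V] [FiniteDimensional ℝ V]
    (D : HeatData X V) (T : ℝ → (X → V) → X → V) (K : ℝ → X → X → V →L[ℝ] V),
    D.IsSemigroup T → D.IsKernel T K → ∃ TT, D.IsL2 K TT

/-- SP2: existence of the eigenfunctions. -/
def claimEigen : Prop :=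
  ∀ (X : Type) [TopologicalSpace X] [CompactSpace X] [T2Space X] [MeasurableSpace X] [BorelSpace X]
    (V : Type) [NormedAddCommGroup V] [InnerProductSpace ℝ V] [FiniteDimensional ℝ V]
    (D : HeatData X V) (T : ℝ → (X → V) → X → V) (K : ℝ → X → X → V →L[ℝ] V),
    D.IsSemigroup T → D.IsKernel T K →
    ∃ (ι : Type) (e : ι → X → V) (lam : ι → ℝ), D.IsEigen T K e lam

/-- SP3: the trace formula. -/
def claimTrace : Prop :=
  ∀ (X : Type) [TopologicalSpace X] [CompactSpace X] [T2Space X] [MeasurableSpace X] [BorelSpace X]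
    (V : Type) [NormedAddCommGroup V] [InnerProductSpace ℝ V] [FiniteDimensional ℝ V]
    (D : HeatData X V) (T : ℝ → (X → V) → X → V) (K : ℝ → X → X → V →L[ℝ] V),
    D.IsSemigroup T → D.IsKernel T K →
    ∀ (ι : Type) (e : ι → X → V) (lam : ι → ℝ), D.IsEigen T K e lam →
    ∀ t, 0 < t → Summable (fun i => Real.exp (-lam i * t)) ∧
      ∀ A : X → V →L[ℝ] V, Continuous A →
        HasSum (fun i => Real.exp (-lam i * t) * ∫ y, ⟪A y (e i y), e i y⟫ ∂D.mu)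
          (∫ y, trC ((A y).comp (K t y y)) ∂D.mu)

/-- SP4: `1 - T_1` is in the range of the operator. -/
def claimIntT : Prop :=
  ∀ (X : Type) [TopologicalSpace X] [CompactSpace X] [T2Space X] [MeasurableSpace X] [BorelSpace X]
    (V : Type) [NormedAddCommGroup V] [InnerProductSpace ℝ V] [FiniteDimensional ℝ V]
    (D : HeatData X V) (T : ℝ → (X → V) → X → V), D.IsSemigroup T →
    ∀ f, D.g.Smooth f → ∃ u, D.g.Smooth u ∧ ∀ y, D.g.L 0 u y = f y - T 1 f y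

/-- SP5: the Green operator. -/
def claimGreenOp : Prop :=
  ∀ (X : Type) [TopologicalSpace X] [CompactSpace X] [T2Space X] [MeasurableSpace X] [BorelSpace X]
    (V : Type) [NormedAddCommGroup V] [InnerProductSpace ℝ V] [FiniteDimensional ℝ V]
    (D : HeatData X V) (T : ℝ → (X → V) → X → V) (K : ℝ → X → X → V →L[ℝ] V),
    D.IsSemigroup T → D.IsKernel T K →
    ∀ (ι : Type) (e : ι → X → V) (lam : ι → ℝ), D.IsEigen T K e lam →
    ∀ f, D.g.Smooth f → (∀ i, lam i = 0 → ∫ y, ⟪f y, e i y⟫ ∂D.mu = 0) →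
      ∃ u, D.g.Smooth u ∧ ∀ y, D.g.L 0 u y = f y

section

variable {X : Type} [TopologicalSpace X] [MeasurableSpace X] {V : Type}
  [NormedAddCommGroup V] [InnerProductSpace ℝ V] [FiniteDimensional ℝ V]

/-- An odd first order square root of the operator on the range of a projection field `p`:
`L = Q²` on sections of the range of `p`. -/
structure HeatData.IsDirac (D : HeatData X V) (p : X → V →L[ℝ] V) (Q : (X → V) → X → V) :
    Prop where
  p_smooth : ∀ f, D.g.Smooth f → D.g.Smooth fun y => p y (f y)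
  p_proj : ∀ y v, p y (p y v) = p y v
  p_symm : ∀ y v w, ⟪p y v, w⟫ = ⟪v, p y w⟫
  Q_smooth : ∀ f, D.g.Smooth f → D.g.Smooth (Q f)
  Q_add : ∀ f h, D.g.Smooth f → D.g.Smooth h → Q (fun y => f y + h y) = fun y => Q f y + Q h y
  Q_smul : ∀ (c : ℝ) f, D.g.Smooth f → Q (fun y => c • f y) = fun y => c • Q f y
  Q_symm : ∀ f h, D.g.Smooth f → D.g.Smooth h →
    ∫ y, ⟪Q f y, h y⟫ ∂D.mu = ∫ y, ⟪f y, Q h y⟫ ∂D.mu
  Q_p : ∀ f, D.g.Smooth f → Q (fun y => p y (f y)) = Q f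
  p_Q : ∀ f, D.g.Smooth f → ∀ y, p y (Q f y) = Q f y
  L_p : ∀ f, D.g.Smooth f → ∀ y, D.g.L 0 (fun z => p z (f z)) y = Q (Q f) y
  p_L : ∀ f, D.g.Smooth f → ∀ y, p y (D.g.L 0 f y) = Q (Q f) y

/-- `ε` is an odd symmetric endomorphism field of the range of `p`. -/
structure HeatData.IsOdd (D : HeatData X V) (p : X → V →L[ℝ] V) (Q : (X → V) → X → V)
    (eps : X → V →L[ℝ] V) : Prop where
  cont : Continuous eps
  smooth : ∀ f, D.g.Smooth f → D.g.Smooth fun y => eps y (f y)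
  symm : ∀ y v w, ⟪eps y v, w⟫ = ⟪v, eps y w⟫
  eps_p : ∀ y v, eps y (p y v) = eps y v
  p_eps : ∀ y v, p y (eps y v) = eps y v
  anti : ∀ f, D.g.Smooth f → ∀ y, Q (fun z => eps z (f z)) y = -eps y (Q f y)

end

/-- MS1: McKean-Singer: the kernel of `Q` on sections of the range of `p` has a finite
orthonormal basis `h`, and `∫ tr (ε K_t(x,x))` is the trace of `ε` on this kernel, for all `t > 0`. -/
def claimMS : Prop :=
  ∀ (X : Type) [TopologicalSpace X] [CompactSpace X] [T2Space X] [MeasurableSpace X] [BorelSpace X]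
    (V : Type) [NormedAddCommGroup V] [InnerProductSpace ℝ V] [FiniteDimensional ℝ V]
    (D : HeatData X V) (T : ℝ → (X → V) → X → V) (K : ℝ → X → X → V →L[ℝ] V),
    D.IsSemigroup T → D.IsKernel T K → ∀ (p : X → V →L[ℝ] V) (Q : (X → V) → X → V),
    D.IsDirac p Q → ∃ (m : ℕ) (h : Fin m → X → V), (∀ j, D.g.Smooth (h j)) ∧
      (∀ j y, p y (h j y) = h j y) ∧ (∀ j y, Q (h j) y = 0) ∧
      (∀ i j, ∫ y, ⟪h i y, h j y⟫ ∂D.mu = if i = j then 1 else 0) ∧
      (∀ f, D.g.Smooth f → (∀ y, p y (f y) = f y) → (∀ y, Q f y = 0) →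
        ∀ y, f y = ∑ j, (∫ z, ⟪f z, h j z⟫ ∂D.mu) • h j y) ∧
      ∀ eps, D.IsOdd p Q eps → ∀ t, 0 < t →
        ∫ y, trC ((eps y).comp (K t y y)) ∂D.mu = ∑ j, ∫ y, ⟪eps y (h j y), h j y⟫ ∂D.mu

/-- MS2: solvability of `Q² u = f` on sections. -/
def claimQQ : Prop :=
  ∀ (X : Type) [TopologicalSpace X] [CompactSpace X] [T2Space X] [MeasurableSpace X] [BorelSpace X]
    (V : Type) [NormedAddCommGroup V] [InnerProductSpace ℝ V] [FiniteDimensional ℝ V]
    (D : HeatData X V) (T : ℝ → (X → V) → X → V) (K : ℝ → X → X → V →L[ℝ] V),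
    D.IsSemigroup T → D.IsKernel T K → ∀ (p : X → V →L[ℝ] V) (Q : (X → V) → X → V),
    D.IsDirac p Q → ∀ f, D.g.Smooth f → (∀ y, p y (f y) = f y) →
      (∀ h, D.g.Smooth h → (∀ y, p y (h y) = h y) → (∀ y, Q h y = 0) →
        ∫ y, ⟪f y, h y⟫ ∂D.mu = 0) →
      ∃ u, D.g.Smooth u ∧ (∀ y, p y (u y) = u y) ∧ ∀ y, Q (Q u) y = f y

/-- MS3: the limit `t → 0` in the trace: only the coefficient of `t²` of the diagonal expansion
contributes. -/
def claimSmallTime : Prop :=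
  ∀ (X : Type) [TopologicalSpace X] [CompactSpace X] [T2Space X] [MeasurableSpace X] [BorelSpace X]
    (V : Type) [NormedAddCommGroup V] [InnerProductSpace ℝ V] [FiniteDimensional ℝ V]
    (mu : Measure X) [IsFiniteMeasure mu] (k : ℝ → X → V →L[ℝ] V) (c : ℕ → X → V →L[ℝ] V)
    (eps : X → V →L[ℝ] V) (C s : ℝ), (∀ t, 0 < t → Continuous (k t)) → (∀ w, Continuous (c w)) →
    Continuous eps →
    (∀ t ∈ Ioc (0 : ℝ) 1, ∀ y,
      ‖t ^ 2 • k t y - ∑ w ∈ Finset.range 5, Real.sqrt t ^ w • c w y‖ ≤ C * Real.sqrt t ^ 5) →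
    (∀ t, 0 < t → ∫ y, trC ((eps y).comp (k t y)) ∂mu = s) →
    ∫ y, trC ((eps y).comp (c 4 y)) ∂mu = s

end NRF
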