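import Pool.Agent.Work.MP_7f974f_gt.K2

/-!
# K2: the parametrix with a pole, the heat equation
-/

open scoped ContDiff Topology RealInnerProductSpace
open MeasureTheory Set Filter

noncomputable section

set_option linter.unusedSectionVars false

namespace NRF

namespace K2

section opcalc

variable {V : Type} [NormedAddCommGroup V] [InnerProductSpace ℝ V] [FiniteDimensional ℝ V]

theorem pd_congr {u u' : E4 → V} {x : E4} (h : u =ᶠ[𝓝 x] u') (i : Fin 4) :
    pd i u =ᶠ[𝓝 x] pd i u' := by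
  filter_upwards [h.fderiv (𝕜 := ℝ)] with z hz
  rw [pd, pd, hz]

theorem op_congr (m : Model V) (t : ℝ) {u u' : E4 → V} {x : E4} (h : u =ᶠ[𝓝 x] u') :
    m.op t u x = m.op t u' x := by
  have h1 : ∀ i, pd i u x = pd i u' x := fun i => (pd_congr h i).eq_of_nhds
  have h2 : ∀ i j, pd i (pd j u) x = pd i (pd j u') x := fun i j =>
    (pd_congr (pd_congr h j) i).eq_of_nhds
  simp only [Model.op, h1, h2, h.eq_of_nhds]

theorem cd_diff {u : E4 → V} {x : E4} (h : ContDiffAt ℝ 2 u x) :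
    ∀ᶠ z in 𝓝 x, DifferentiableAt ℝ u z := by
  filter_upwards [h.eventually (by simp)] with z hz
  exact hz.differentiableAt (by simp)

theorem cd_pd {u : E4 → V} {x : E4} (h : ContDiffAt ℝ 2 u x) (j : Fin 4) :
    DifferentiableAt ℝ (pd j u) x := by
  have h1 : ContDiffAt ℝ 1 (fderiv ℝ u) x := h.fderiv_right (m := 1) (by norm_num)
  exact (h1.differentiableAt (by simp)).clm_apply (differentiableAt_const _)

theorem op_sum {ι : Type} (s : Finset ι) (m : Model V) (t : ℝ) {u : ι → E4 → V} {x : E4}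
    (h : ∀ k, ContDiffAt ℝ 2 (u k) x) :
    m.op t (fun z => ∑ k ∈ s, u k z) x = ∑ k ∈ s, m.op t (u k) x := by
  have h1 : ∀ z, (∀ k ∈ s, DifferentiableAt ℝ (u k) z) → ∀ i,
      pd i (fun z => ∑ k ∈ s, u k z) z = ∑ k ∈ s, pd i (u k) z := by
    intro z hz i
    simp only [pd]
    rw [fderiv_fun_sum hz, sum_apply]
  have h2 : ∀ᶠ z in 𝓝 x, ∀ k ∈ s, DifferentiableAt ℝ (u k) z := by
    rw [Finset.eventually_all]
    exact fun k _ => cd_diff (h k)
  have h3 : ∀ i j, pd i (pd j (fun z => ∑ k ∈ s, u k z)) x = ∑ k ∈ s, pd i (pd j (u k)) x := by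
    intro i j
    have e : pd j (fun z => ∑ k ∈ s, u k z) =ᶠ[𝓝 x] fun z => ∑ k ∈ s, pd j (u k) z := by
      filter_upwards [h2] with z hz
      exact h1 z hz j
    rw [(pd_congr e i).eq_of_nhds]
    show fderiv ℝ (fun z => ∑ k ∈ s, pd j (u k) z) x (bv i) =
      ∑ k ∈ s, fderiv ℝ (pd j (u k)) x (bv i)
    rw [fderiv_fun_sum (fun k _ => cd_pd (h k) j), sum_apply]
  simp only [Model.op, h1 x (fun k _ => (h k).differentiableAt (by simp)), h3, map_sum,
    Finset.smul_sum]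
  rw [Finset.sum_add_distrib, Finset.sum_add_distrib, Finset.sum_neg_distrib]
  congr 1
  congr 1
  · congr 1
    calc ∑ i, ∑ j, ∑ k ∈ s, m.a (t, x) i j • pd i (pd j (u k)) x =
        ∑ i, ∑ k ∈ s, ∑ j, m.a (t, x) i j • pd i (pd j (u k)) x :=
          Finset.sum_congr rfl fun i _ => Finset.sum_comm
      _ = _ := Finset.sum_comm
  · rw [Finset.sum_comm]

theorem op_zero (m : Model V) (t : ℝ) (x : E4) : m.op t (fun _ => (0 : V)) x = 0 := by
  have h1 : ∀ i, pd i (fun _ : E4 => (0 : V)) = fun _ => 0 := by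
    intro i
    funext z
    simp [pd]
  simp [Model.op, h1]

end opcalc

section kernel

variable {V : Type} [NormedAddCommGroup V] [InnerProductSpace ℝ V] [FiniteDimensional ℝ V]

theorem hasFDerivAt_ker {H : KP → (V →L[ℝ] V)} (hH : ContDiff ℝ ∞ H) (c s r : ℝ) (z : E4) (w : V)
    (x : E4) :
    HasFDerivAt (fun x => c • H (s, r, z, r⁻¹ • (x - z)) w)
      (c • ((ContinuousLinearMap.apply ℝ V w).comp
        ((fderiv ℝ H (s, r, z, r⁻¹ • (x - z))).comp (r⁻¹ • C7b.injz)))) x := by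
  have h1 : HasFDerivAt (fun x : E4 => ((s, r, z, r⁻¹ • (x - z)) : KP)) (r⁻¹ • C7b.injz) x := by
    have e : (fun x : E4 => ((s, r, z, r⁻¹ • (x - z)) : KP)) =
        fun x => (r⁻¹ • C7b.injz) x + (s, r, z, -(r⁻¹ • z)) := by
      funext x
      simp [C7b.injz_apply, sub_eq_add_neg]
    rw [e]
    exact (ContinuousLinearMap.hasFDerivAt _).add_const _
  have h2 : HasFDerivAt H (fderiv ℝ H (s, r, z, r⁻¹ • (x - z))) (s, r, z, r⁻¹ • (x - z)) :=
    (hH.differentiable (by simp)).differentiableAt.hasFDerivAt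
  have h3 := (ContinuousLinearMap.apply ℝ V w).hasFDerivAt.comp x (h2.comp x h1)
  exact h3.const_smul c

theorem pd_ker {H : KP → (V →L[ℝ] V)} (hH : ContDiff ℝ ∞ H) (c s r : ℝ) (z : E4) (w : V)
    (x : E4) (j : Fin 4) :
    pd j (fun x => c • H (s, r, z, r⁻¹ • (x - z)) w) x =
      (c * r⁻¹) • dzK (bv j) H (s, r, z, r⁻¹ • (x - z)) w := by
  rw [pd, (hasFDerivAt_ker hH c s r z w x).fderiv]
  simp only [smul_apply, ContinuousLinearMap.comp_apply, ContinuousLinearMap.apply_apply, dzK,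
    map_smul, smul_smul]
  rfl

theorem contDiff_dzK {H : KP → (V →L[ℝ] V)} (hH : ContDiff ℝ ∞ H) (v : E4) :
    ContDiff ℝ ∞ (dzK v H) :=
  (hH.fderiv_right (m := ∞) (by simp)).clm_apply contDiff_const

theorem pd_pd_ker {H : KP → (V →L[ℝ] V)} (hH : ContDiff ℝ ∞ H) (c s r : ℝ) (z : E4) (w : V)
    (x : E4) (i j : Fin 4) :
    pd i (pd j (fun x => c • H (s, r, z, r⁻¹ • (x - z)) w)) x =
      (c * r⁻¹ * r⁻¹) • dzK (bv i) (dzK (bv j) H) (s, r, z, r⁻¹ • (x - z)) w := by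
  have e : pd j (fun x => c • H (s, r, z, r⁻¹ • (x - z)) w) =
      fun x => (c * r⁻¹) • dzK (bv j) H (s, r, z, r⁻¹ • (x - z)) w :=
    funext fun x => pd_ker hH c s r z w x j
  rw [e, pd_ker (contDiff_dzK hH (bv j))]

/-- The derivative in time. -/
theorem hasDerivAt_ker {H : KP → (V →L[ℝ] V)} (hH : ContDiff ℝ ∞ H) (z : E4) (w : V)
    {t : ℝ} (ht : 0 < t) (x : E4) :
    HasDerivAt (fun s => (Real.sqrt s ^ 4)⁻¹ • H (0, Real.sqrt s, z, (Real.sqrt s)⁻¹ • (x - z)) w)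
      ((Real.sqrt t ^ 6)⁻¹ • ((1 / 2 : ℝ) • (Real.sqrt t •
        drK H (0, Real.sqrt t, z, (Real.sqrt t)⁻¹ • (x - z)) w -
        dzK ((Real.sqrt t)⁻¹ • (x - z)) H (0, Real.sqrt t, z, (Real.sqrt t)⁻¹ • (x - z)) w
        - (4 : ℝ) • H (0, Real.sqrt t, z, (Real.sqrt t)⁻¹ • (x - z)) w))) t := by
  set r := Real.sqrt t with hr
  have hr0 : 0 < r := Real.sqrt_pos.2 ht
  have h1 : HasDerivAt Real.sqrt (1 / (2 * r)) t := Real.hasDerivAt_sqrt ht.ne'
  have h2 : HasDerivAt (fun s => (Real.sqrt s)⁻¹) (-(1 / (2 * r)) / r ^ 2) t := h1.fun_inv hr0.ne'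
  have h3 : HasDerivAt (fun s => (Real.sqrt s ^ 4)⁻¹) (-(4 * r ^ 3 * (1 / (2 * r))) / (r ^ 4) ^ 2) t := by
    have := (h1.fun_pow 4).fun_inv (pow_ne_zero 4 hr0.ne')
    simpa using this
  have h4 : HasDerivAt (fun s => ((0, Real.sqrt s, z, (Real.sqrt s)⁻¹ • (x - z)) : KP))
      (0, 1 / (2 * r), 0, (-(1 / (2 * r)) / r ^ 2) • (x - z)) t :=
    (hasDerivAt_const t (0 : ℝ)).prodMk (h1.prodMk ((hasDerivAt_const t z).prodMk
      (h2.smul_const (x - z))))
  have h5 : HasFDerivAt H (fderiv ℝ H (0, r, z, r⁻¹ • (x - z))) (0, r, z, r⁻¹ • (x - z)) :=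
    (hH.differentiable (by simp)).differentiableAt.hasFDerivAt
  have h6 := h5.comp_hasDerivAt t h4
  have h7 : HasDerivAt (fun s => H (0, Real.sqrt s, z, (Real.sqrt s)⁻¹ • (x - z)) w)
      ((fderiv ℝ H (0, r, z, r⁻¹ • (x - z)) (0, 1 / (2 * r), 0, (-(1 / (2 * r)) / r ^ 2) • (x - z))) w) t :=
    (ContinuousLinearMap.apply ℝ V w).hasFDerivAt.comp_hasDerivAt t h6
  have h8 := h3.smul h7
  refine h8.congr_deriv ?_
  have e : ((0, 1 / (2 * r), 0, (-(1 / (2 * r)) / r ^ 2) • (x - z)) : KP) =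
      (1 / (2 * r)) • ((0, 1, 0, 0) : KP) - (1 / (2 * r ^ 2)) • ((0, 0, 0, r⁻¹ • (x - z)) : KP) := by
    simp only [Prod.smul_mk, smul_zero, smul_eq_mul, mul_one, mul_zero, Prod.mk_sub_mk, sub_zero,
      smul_smul, zero_sub, ← neg_smul]
    congr 4
    field_simp
  rw [e, map_sub, map_smul, map_smul]
  simp only [drK, dzK, sub_apply, smul_apply]
  set A := (fderiv ℝ H (0, r, z, r⁻¹ • (x - z)) (0, 1, 0, 0)) w
  set B := (fderiv ℝ H (0, r, z, r⁻¹ • (x - z)) (0, 0, 0, r⁻¹ • (x - z))) w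
  set C := H (0, r, z, r⁻¹ • (x - z)) w
  simp only [smul_sub, smul_smul]
  have e1 : (r ^ 4)⁻¹ * (1 / (2 * r)) = (r ^ 6)⁻¹ * (1 / 2 * r) := by field_simp
  have e2 : (r ^ 4)⁻¹ * (1 / (2 * r ^ 2)) = (r ^ 6)⁻¹ * (1 / 2) := by field_simp
  have e3 : -(4 * r ^ 3 * (1 / (2 * r))) / (r ^ 4) ^ 2 = -((r ^ 6)⁻¹ * (1 / 2 * 4)) := by
    field_simp
  rw [← hr, e1, e2, e3, neg_smul]
  abel

/-- The kernel function. -/
def ku (H : KP → (V →L[ℝ] V)) (z : E4) (w : V) (t : ℝ) (x : E4) : V :=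
  (Real.sqrt t ^ 4)⁻¹ • H (0, Real.sqrt t, z, (Real.sqrt t)⁻¹ • (x - z)) w

/-- The heat equation for the kernel function. -/
theorem ku_deriv {H : KP → (V →L[ℝ] V)} (hH : ContDiff ℝ ∞ H) (m : Model V) (z : E4) (w : V)
    {t : ℝ} (ht : 0 < t) (x : E4) :
    HasDerivAt (fun s => ku H z w s x) (-m.op t (ku H z w t) x + (Real.sqrt t ^ 6)⁻¹ •
      m.calL H (0, Real.sqrt t, z, (Real.sqrt t)⁻¹ • (x - z)) w) t := by
  refine (hasDerivAt_ker hH z w ht x).congr_deriv ?_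
  have hr0 : 0 < Real.sqrt t := Real.sqrt_pos.2 ht
  have hrt : (0 : ℝ) + Real.sqrt t ^ 2 = t := by rw [zero_add, Real.sq_sqrt ht.le]
  have hx : z + Real.sqrt t • (Real.sqrt t)⁻¹ • (x - z) = x := by
    rw [smul_smul, mul_inv_cancel₀ hr0.ne', one_smul, add_sub_cancel]
  have h1 : m.op t (ku H z w t) x =
      -(∑ i, ∑ j, m.a (t, x) i j • (((Real.sqrt t ^ 4)⁻¹ * (Real.sqrt t)⁻¹ * (Real.sqrt t)⁻¹) •
          dzK (bv i) (dzK (bv j) H) (0, Real.sqrt t, z, (Real.sqrt t)⁻¹ • (x - z)) w)) +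
      (∑ i, m.b (t, x) i (((Real.sqrt t ^ 4)⁻¹ * (Real.sqrt t)⁻¹) •
          dzK (bv i) H (0, Real.sqrt t, z, (Real.sqrt t)⁻¹ • (x - z)) w)) +
      m.c (t, x) ((Real.sqrt t ^ 4)⁻¹ • H (0, Real.sqrt t, z, (Real.sqrt t)⁻¹ • (x - z)) w) := by
    have e1 : ∀ i, pd i (ku H z w t) x = _ := fun i =>
      pd_ker hH (Real.sqrt t ^ 4)⁻¹ 0 (Real.sqrt t) z w x i
    have e2 : ∀ i j, pd i (pd j (ku H z w t)) x = _ := fun i j =>
      pd_pd_ker hH (Real.sqrt t ^ 4)⁻¹ 0 (Real.sqrt t) z w x i j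
    simp only [Model.op, e1, e2]
    rfl
  have h2 : m.calL H (0, Real.sqrt t, z, (Real.sqrt t)⁻¹ • (x - z)) w =
      (1 / 2 : ℝ) • (Real.sqrt t •
        drK H (0, Real.sqrt t, z, (Real.sqrt t)⁻¹ • (x - z)) w -
        dzK ((Real.sqrt t)⁻¹ • (x - z)) H (0, Real.sqrt t, z, (Real.sqrt t)⁻¹ • (x - z)) w
        - (4 : ℝ) • H (0, Real.sqrt t, z, (Real.sqrt t)⁻¹ • (x - z)) w)
      - (∑ i, ∑ j, m.a (t, x) i j •
          dzK (bv i) (dzK (bv j) H) (0, Real.sqrt t, z, (Real.sqrt t)⁻¹ • (x - z)) w)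
      + (∑ i, Real.sqrt t • m.b (t, x) i
          (dzK (bv i) H (0, Real.sqrt t, z, (Real.sqrt t)⁻¹ • (x - z)) w))
      + Real.sqrt t ^ 2 • m.c (t, x) (H (0, Real.sqrt t, z, (Real.sqrt t)⁻¹ • (x - z)) w) := by
    simp only [Model.calL, hrt, hx, add_apply, sub_apply, smul_apply, sum_apply,
      ContinuousLinearMap.comp_apply]
  rw [h1, h2]
  simp only [map_smul, smul_add, smul_sub, neg_add, neg_neg, Finset.smul_sum, smul_smul]
  set r := Real.sqrt t
  have e1 : ∀ a : ℝ, a * ((r ^ 4)⁻¹ * r⁻¹ * r⁻¹) = (r ^ 6)⁻¹ * a := fun a => by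
    have := hr0.ne'
    field_simp
  have e2 : (r ^ 4)⁻¹ * r⁻¹ = (r ^ 6)⁻¹ * r := by
    have := hr0.ne'
    field_simp
  have e3 : (r ^ 4)⁻¹ = (r ^ 6)⁻¹ * r ^ 2 := by
    have := hr0.ne'
    field_simp
  simp only [e1]
  simp only [e2]
  rw [e3]
  abel

/-- The space operator. -/
theorem op_const (m : Model V) (ha : ∀ t x, m.a (t, x) = m.a (0, x))
    (hb : ∀ t x, m.b (t, x) = m.b (0, x)) (hc : ∀ t x, m.c (t, x) = m.c (0, x)) (t : ℝ)
    (u : E4 → V) (x : E4) : m.op t u x = m.op 0 u x := by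
  simp only [Model.op, ha t x, hb t x, hc t x]

theorem contDiff_ku {H : KP → (V →L[ℝ] V)} (hH : ContDiff ℝ ∞ H) (z : E4) (w : V) (t : ℝ) :
    ContDiff ℝ ∞ (ku H z w t) := by
  have h1 : ContDiff ℝ ∞ (fun x : E4 => H (0, Real.sqrt t, z, (Real.sqrt t)⁻¹ • (x - z))) :=
    hH.comp (by fun_prop : ContDiff ℝ ∞ fun x : E4 =>
      (((0 : ℝ), Real.sqrt t, z, (Real.sqrt t)⁻¹ • (x - z)) : KP))
  exact contDiff_const.smul (h1.clm_apply contDiff_const)

theorem Et_ku {M : ℕ} (H : KP → (V →L[ℝ] V)) (θ : E4 → ℝ) (v : V) (z : E4) {t : ℝ} (ht : 0 < t)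
    (x : E4) : (Real.sqrt t ^ (4 + M))⁻¹ • Et M H θ v z t x = ku H z (θ z • v) t x := by
  have hr0 : 0 < Real.sqrt t := Real.sqrt_pos.2 ht
  rw [Et, ku, smul_smul]
  congr 1
  rw [pow_add]
  field_simp

end kernel

section manifold

variable {X : Type} [TopologicalSpace X] {V : Type} [NormedAddCommGroup V] [InnerProductSpace ℝ V]
  [FiniteDimensional ℝ V]

variable {g : Geom X V}

/-- A function on `X` carried by the chart `i`. -/
def lift (g : Geom X V) (i : g.I) (u : E4 → V) (x : X) : V :=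
  (g.psi i).source.indicator (fun x => u (g.psi i x)) x

theorem lift_zero {i : g.I} {u : E4 → V} (hu : ∀ x, 2 ≤ ‖x‖ → u x = 0) {x : X} (hx : x ∉ Kc g i) :
    lift g i u x = 0 := by
  by_cases h : x ∈ (g.psi i).source
  · rw [lift, indicator_of_mem h]
    exact hu _ (notMem_Kc g h hx).le
  · exact indicator_of_notMem h _

theorem lift_cd [T2Space X] {i : g.I} {u : E4 → V} (hc : ContDiff ℝ 2 u)
    (hu : ∀ x, 2 ≤ ‖x‖ → u x = 0) (i0 : g.I) {x : X} (hx0 : x ∈ (g.psi i0).source) :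
    ContDiffAt ℝ 2 (fun z => lift g i u ((g.psi i0).symm z)) (g.psi i0 x) := by
  have htar : g.psi i0 x ∈ (g.psi i0).target := (g.psi i0).map_source hx0
  have hcs : ContinuousAt (g.psi i0).symm (g.psi i0 x) := (g.psi i0).continuousAt_symm htar
  have hsx : (g.psi i0).symm (g.psi i0 x) = x := (g.psi i0).left_inv hx0
  by_cases hx : x ∈ (g.psi i).source
  · have h1 : ∀ᶠ z in 𝓝 (g.psi i0 x), (g.psi i0).symm z ∈ (g.psi i).source :=
      hcs.eventually ((g.psi i).open_source.mem_nhds (by rw [hsx]; exact hx))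
    have h2 : g.psi i0 x ∈ ((g.psi i0).symm.trans (g.psi i)).source := by
      rw [OpenPartialHomeomorph.trans_source]
      exact ⟨htar, by rw [mem_preimage, hsx]; exact hx⟩
    have h3 : ContDiffAt ℝ 2 ((g.psi i0).symm.trans (g.psi i)) (g.psi i0 x) :=
      ((g.trans_smooth i0 i).contDiffAt
        (((g.psi i0).symm.trans (g.psi i)).open_source.mem_nhds h2)).of_le
          ENat.LEInfty.out
    have h4 : ContDiffAt ℝ 2 (fun z => u (((g.psi i0).symm.trans (g.psi i)) z)) (g.psi i0 x) :=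
      hc.contDiffAt.comp _ h3
    refine h4.congr_of_eventuallyEq ?_
    filter_upwards [h1] with z hz
    rw [lift, indicator_of_mem hz]
    rfl
  · have hx2 : x ∉ Kc g i := fun h => hx (Kc_sub_source g i h)
    have h1 : ∀ᶠ z in 𝓝 (g.psi i0 x), (g.psi i0).symm z ∈ (Kc g i)ᶜ :=
      hcs.eventually ((isClosed_Kc g i).isOpen_compl.mem_nhds (by rw [hsx]; exact hx2))
    refine (contDiffAt_const (c := (0 : V))).congr_of_eventuallyEq ?_
    filter_upwards [h1] with z hz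
    exact lift_zero hu hz

theorem ch_mem (g : Geom X V) (x : X) : x ∈ (g.psi (g.ch x)).source ∧ ‖g.psi (g.ch x) x‖ < 1 :=
  (g.exists_chart x).choose_spec

/-- The operator on a function which is carried by a chart. -/
theorem L_lift [T2Space X] {i : g.I} {u : E4 → V} (hc : ContDiff ℝ 2 u)
    (hu : ∀ x, 2 ≤ ‖x‖ → u x = 0) (t : ℝ) (x : X) :
    g.L t (lift g i u) x = lift g i (fun z => (g.mdl i).op t u z) x := by
  have hx0 := (ch_mem g x).1
  have hn := (ch_mem g x).2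
  have htar : g.psi (g.ch x) x ∈ (g.psi (g.ch x)).target := (g.psi (g.ch x)).map_source hx0
  have hcs : ContinuousAt (g.psi (g.ch x)).symm (g.psi (g.ch x) x) :=
    (g.psi (g.ch x)).continuousAt_symm htar
  have hsx : (g.psi (g.ch x)).symm (g.psi (g.ch x) x) = x := (g.psi (g.ch x)).left_inv hx0
  by_cases hx : x ∈ (g.psi i).source ∧ ‖g.psi i x‖ < 5 / 2
  · have h1 : ∀ᶠ z in 𝓝 (g.psi (g.ch x) x), (g.psi (g.ch x)).symm z ∈ (g.psi i).source :=
      hcs.eventually ((g.psi i).open_source.mem_nhds (by rw [hsx]; exact hx.1))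
    have h2 : (fun z => lift g i u ((g.psi (g.ch x)).symm z)) =ᶠ[𝓝 (g.psi (g.ch x) x)]
        fun z => u (g.psi i ((g.psi (g.ch x)).symm z)) := by
      filter_upwards [h1] with z hz
      rw [lift, indicator_of_mem hz]
    rw [Geom.L, op_congr _ t h2]
    have h3 := g.compat (g.ch x) i (g.psi (g.ch x) x) u t (by
      rw [mem_ball_zero_iff]; linarith) (by
      rw [hsx]
      exact ⟨g.psi i x, mem_ball_zero_iff.2 hx.2, (g.psi i).left_inv hx.1⟩) hc.contDiffAt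
    rw [hsx] at h3
    rw [lift, indicator_of_mem hx.1]
    exact h3
  · have hx2 : x ∉ Kc g i := by
      rintro ⟨z, hz, rfl⟩
      have hz' := closedBall_sub_target g i hz
      refine hx ⟨(g.psi i).map_target hz', ?_⟩
      rw [(g.psi i).right_inv hz']
      have := mem_closedBall_zero_iff.1 hz
      linarith
    have h1 : ∀ᶠ z in 𝓝 (g.psi (g.ch x) x), (g.psi (g.ch x)).symm z ∈ (Kc g i)ᶜ :=
      hcs.eventually ((isClosed_Kc g i).isOpen_compl.mem_nhds (by rw [hsx]; exact hx2))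
    have h2 : (fun z => lift g i u ((g.psi (g.ch x)).symm z)) =ᶠ[𝓝 (g.psi (g.ch x) x)]
        fun _ => 0 := by
      filter_upwards [h1] with z hz
      exact lift_zero hu hz
    rw [Geom.L, op_congr _ t h2, op_zero]
    by_cases hs : x ∈ (g.psi i).source
    · rw [lift, indicator_of_mem hs]
      have h3 : 2 < ‖g.psi i x‖ := notMem_Kc g hs hx2
      have h4 : u =ᶠ[𝓝 (g.psi i x)] fun _ => 0 := by
        have h5 : ∀ᶠ z in 𝓝 (g.psi i x), 2 < ‖z‖ :=
          continuous_norm.continuousAt.eventually (lt_mem_nhds h3)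
        filter_upwards [h5] with z hz using hu z hz.le
      rw [op_congr _ t h4, op_zero]
    · rw [lift, indicator_of_notMem hs]

variable {M : ℕ} {Hf Hf' : g.I → KP → (V →L[ℝ] V)} {θ : g.I → E4 → ℝ}

/-- The approximate solution. -/
def hs (g : Geom X V) (M : ℕ) (Hf : g.I → KP → (V →L[ℝ] V)) (θ : g.I → E4 → ℝ)
    (y : X) (v : V) (t : ℝ) (x : X) : V :=
  (Real.sqrt t ^ (4 + M))⁻¹ • S g M Hf θ y v t x

/-- Its value in the chart `i`. -/
def hU (g : Geom X V) (Hf : g.I → KP → (V →L[ℝ] V)) (θ : g.I → E4 → ℝ) (i : g.I)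
    (y : X) (v : V) (t : ℝ) (z : E4) : V :=
  (g.psi i).source.indicator (fun y => ku (Hf i) (g.psi i y) (θ i (g.psi i y) • v) t z) y

theorem hU_eq (i : g.I) (y : X) (v : V) {t : ℝ} (ht : 0 < t) (z : E4) :
    hU g Hf θ i y v t z = (Real.sqrt t ^ (4 + M))⁻¹ • U g M Hf θ i y v t z := by
  by_cases hy : y ∈ (g.psi i).source
  · rw [hU, indicator_of_mem hy, U_of_mem hy, Et_ku _ _ _ _ ht]
  · rw [hU, indicator_of_notMem hy, U_of_notMem hy, smul_zero]

theorem hs_eq [Fintype g.I] (y : X) (v : V) {t : ℝ} (ht : 0 < t) (x : X) :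
    hs g M Hf θ y v t x = ∑ i, lift g i (hU g Hf θ i y v t) x := by
  rw [hs, S_eq, Finset.smul_sum]
  refine Finset.sum_congr rfl fun i _ => ?_
  by_cases hx : x ∈ (g.psi i).source
  · rw [term_of_mem hx, lift, indicator_of_mem hx, hU_eq i y v ht]
  · rw [term, lift, indicator_of_notMem hx, indicator_of_notMem hx, smul_zero]

theorem hU_cd (hH : ∀ i, RD (Hf i)) (i : g.I) (y : X) (v : V) (t : ℝ) :
    ContDiff ℝ 2 (hU g Hf θ i y v t) := by
  by_cases hy : y ∈ (g.psi i).source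
  · have e : hU g Hf θ i y v t = ku (Hf i) (g.psi i y) (θ i (g.psi i y) • v) t := by
      funext z
      rw [hU, indicator_of_mem hy]
    rw [e]
    exact (contDiff_ku (hH i).1 _ _ t).of_le ENat.LEInfty.out
  · have e : hU g Hf θ i y v t = fun _ => 0 := by
      funext z
      rw [hU, indicator_of_notMem hy]
    rw [e]
    exact contDiff_const

theorem hU_supp (hS : ∀ i, KSupp (Hf i)) (i : g.I) (y : X) (v : V) {t : ℝ} (ht : 0 < t)
    {z : E4} (hz : 2 ≤ ‖z‖) : hU g Hf θ i y v t z = 0 := by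
  rw [hU_eq (M := 1) i y v ht, U_zero_x hS one_pos i y v t hz, smul_zero]

/-- The heat equation in a chart. -/
theorem hU_deriv (hH : ∀ i, RD (Hf i)) {N : ℕ} (hN : 5 ≤ N)
    (hL : ∀ i q, (g.mdl i).calL (Hf i) q = q.2.1 ^ (N + 1) • Hf' i q)
    (i : g.I) (y : X) (v : V) {t : ℝ} (ht : 0 < t) (z : E4) :
    HasDerivAt (fun s => hU g Hf θ i y v s z)
      (-(g.mdl i).op t (hU g Hf θ i y v t) z + U g (N - 5) Hf' θ i y v t z) t := by
  by_cases hy : y ∈ (g.psi i).source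
  · have e : ∀ s, hU g Hf θ i y v s = ku (Hf i) (g.psi i y) (θ i (g.psi i y) • v) s := by
      intro s
      funext z
      rw [hU, indicator_of_mem hy]
    simp only [e]
    refine (ku_deriv (hH i).1 (g.mdl i) _ _ ht z).congr_deriv ?_
    have hr0 : 0 < Real.sqrt t := Real.sqrt_pos.2 ht
    rw [hL, U_of_mem hy, Et]
    congr 1
    rw [smul_apply, smul_smul]
    congr 1
    have h1 : Real.sqrt t ^ (N + 1) = Real.sqrt t ^ 6 * Real.sqrt t ^ (N - 5) := by
      rw [← pow_add]; congr 1; omega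
    simp only [h1]
    field_simp
  · have e : ∀ s, hU g Hf θ i y v s = fun _ => 0 := by
      intro s
      funext z
      rw [hU, indicator_of_notMem hy]
    simp only [e, op_zero, U_of_notMem hy, neg_zero, add_zero]
    exact hasDerivAt_const _ _

/-- The heat equation with error. -/
theorem hs_deriv [CompactSpace X] [T2Space X] (hH : ∀ i, RD (Hf i)) (hS : ∀ i, KSupp (Hf i))
    {N : ℕ} (hN : 6 ≤ N)
    (hL : ∀ i q, (g.mdl i).calL (Hf i) q = q.2.1 ^ (N + 1) • Hf' i q)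
    (y : X) (v : V) {t : ℝ} (ht : 0 < t) (x : X) :
    HasDerivAt (fun s => hs g M Hf θ y v s x)
      (-g.L t (hs g M Hf θ y v t) x + S g (N - 5) Hf' θ y v t x) t := by
  have := finite_I g
  have := Fintype.ofFinite g.I
  have h1 : ∀ i ∈ (Finset.univ : Finset g.I), HasDerivAt (fun s => lift g i (hU g Hf θ i y v s) x)
      (-g.L t (lift g i (hU g Hf θ i y v t)) x + term g (N - 5) Hf' θ i y v t x) t := by
    intro i _
    rw [L_lift (hU_cd hH i y v t) (fun z hz => hU_supp hS i y v ht hz)]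
    by_cases hx : x ∈ (g.psi i).source
    · simp only [lift, indicator_of_mem hx]
      rw [term_of_mem hx]
      exact hU_deriv hH (by omega) hL i y v ht _
    · simp only [lift, indicator_of_notMem hx, term, neg_zero, add_zero]
      exact hasDerivAt_const _ _
  have h2 := HasDerivAt.fun_sum h1
  have h3 : (fun s => hs g M Hf θ y v s x) =ᶠ[𝓝 t]
      fun s => ∑ i, lift g i (hU g Hf θ i y v s) x := by
    filter_upwards [lt_mem_nhds ht] with s hs
    exact hs_eq y v hs x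
  refine (h2.congr_of_eventuallyEq h3).congr_deriv ?_
  rw [Finset.sum_add_distrib, Finset.sum_neg_distrib, S_eq]
  congr 1
  congr 1
  have h4 : hs g M Hf θ y v t = fun x => ∑ i, lift g i (hU g Hf θ i y v t) x :=
    funext fun x => hs_eq y v ht x
  rw [h4]
  simp only [Geom.L]
  rw [op_sum]
  intro i
  exact lift_cd (hU_cd hH i y v t) (fun z hz => hU_supp hS i y v ht hz) _ (ch_mem g x).1

end manifold

end K2

end NRF
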