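import Pool.Agent.Work.MP_7f974f_gt.Stmts_A

/-!
# Evolution of the volume density
-/

open scoped Manifold ContDiff Topology
open Set

noncomputable section

namespace NRF

namespace LF1

variable {Ω : Set (ℝ × E4)} {G : ℝ → E4 → Matrix (Fin 4) (Fin 4) ℝ}

theorem det_smooth (hG : SmoothMet Ω G) :
    ContDiffOn ℝ ∞ (fun p : ℝ × E4 => (G p.1 p.2).det) Ω := by
  simp only [Matrix.det_apply]
  refine ContDiffOn.sum fun σ _ => ?_
  exact ContDiffOn.const_smul _ (contDiffOn_prod fun k _ => hG.smooth _ _)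

theorem sqrt_smooth (hG : SmoothMet Ω G) :
    ContDiffOn ℝ ∞ (fun p : ℝ × E4 => Real.sqrt (G p.1 p.2).det) Ω :=
  (det_smooth hG).sqrt fun _ hp => (hG.det_pos hp).ne'

theorem inv_smooth (hG : SmoothMet Ω G) :
    ContDiffOn ℝ ∞ (fun p : ℝ × E4 => (Real.sqrt (G p.1 p.2).det)⁻¹) Ω :=
  (sqrt_smooth hG).inv fun _ hp => (Real.sqrt_pos.2 (hG.det_pos hp)).ne'

/-- the density as an element of the ring -/
def w (hG : SmoothMet Ω G) : SF Ω := SF.mk' _ (sqrt_smooth hG)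
def w' (hG : SmoothMet Ω G) : SF Ω := SF.mk' _ (inv_smooth hG)

theorem repw (hG : SmoothMet Ω G) : Rep (w hG) (fun t y => Real.sqrt (G t y).det) := fun _ => rfl

theorem ww (hG : SmoothMet Ω G) : w hG * w hG = hG.geo.g.det := by
  refine SF.ext_val fun p => ?_
  have e : (hG.geo.g.det).1 p = (G p.1.1 p.1.2).det := by
    rw [← SF.ev_apply, AlgHom.map_det]
    congr 1
  rw [e]
  exact Real.mul_self_sqrt (hG.det_pos p.2).le

theorem ww' (hG : SmoothMet Ω G) : w hG * w' hG = 1 := by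
  refine SF.ext_val fun p => ?_
  exact mul_inv_cancel₀ (Real.sqrt_pos.2 (hG.det_pos p.2)).ne'

theorem tr4 (H A : Matrix (Fin 4) (Fin 4) ℝ) (hs : ∀ i j, A i j = A j i) (h : H * A = 1) :
    ∑ i, ∑ j, H i j * A i j = 4 := by
  have : ∀ i, ∑ j, H i j * A i j = 1 := by
    intro i
    have := congrFun (congrFun h i) i
    rw [Matrix.mul_apply, Matrix.one_apply_eq] at this
    rw [← this]
    exact Finset.sum_congr rfl fun j _ => by rw [hs i j]
  simp only [this]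
  simp

end LF1

open LF1 in
theorem thm_LF1 (h7 : claimDA7) : claimLF1 := by
  intro Ω G c hF p hp
  have hG := hF.met
  have h1 := (h7 (Fin 4) (SF Ω) hG.geo (w hG) (w' hG) (ww hG) (ww' hG)).2.2 hG.T
  have h2 := Rep.T hG (repw hG) ⟨p, hp⟩
  rw [h1] at h2
  convert h2 using 1
  have e1 : ∀ i j, (hG.T (hG.geo.g i j)).1 ⟨p, hp⟩ =
      -2 * ricci (G p.1) i j p.2 + c p.1 * G p.1 p.2 i j := fun i j =>
    (Rep.T hG (Rep.g hG i j) ⟨p, hp⟩).unique (hF.eqn p hp i j)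
  have e2 : (∑ i, ∑ j, hG.geo.h i j * hG.T (hG.geo.g i j)).1 ⟨p, hp⟩ =
      ∑ i, ∑ j, (G p.1 p.2)⁻¹ i j * (-2 * ricci (G p.1) i j p.2 + c p.1 * G p.1 p.2 i j) := by
    rw [← SF.ev_apply, map_sum]
    refine Finset.sum_congr rfl fun i _ => ?_
    rw [map_sum]
    refine Finset.sum_congr rfl fun j _ => ?_
    rw [map_mul, SF.ev_apply, SF.ev_apply, e1]
    rfl
  have e3 : ((1 / 2 : ℝ) • (w hG * ∑ i, ∑ j, hG.geo.h i j * hG.T (hG.geo.g i j))).1 ⟨p, hp⟩ =
      1 / 2 * (Real.sqrt (G p.1 p.2).det *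
        (∑ i, ∑ j, hG.geo.h i j * hG.T (hG.geo.g i j)).1 ⟨p, hp⟩) := rfl
  rw [e3, e2]
  have hd : IsUnit (G p.1 p.2).det := (hG.det_pos hp).ne'.isUnit
  have e4 := tr4 (G p.1 p.2)⁻¹ (G p.1 p.2)
    (fun i j => by simpa using ((hG.posDef p hp).isHermitian.apply i j).symm)
    (Matrix.nonsing_inv_mul _ hd)
  have e5 : ∑ i, ∑ j, (G p.1 p.2)⁻¹ i j *
      (-2 * ricci (G p.1) i j p.2 + c p.1 * G p.1 p.2 i j) =
      -2 * scalC (G p.1) p.2 + c p.1 * 4 := by
    rw [← e4]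
    unfold scalC
    simp only [Finset.mul_sum, ← Finset.sum_add_distrib]
    refine Finset.sum_congr rfl fun i _ => Finset.sum_congr rfl fun j _ => ?_
    ring
  rw [e5]
  ring

end NRF
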