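import Pool.Agent.Work.MP_7f974f_gt.Stmts_A
import Pool.Agent.Work.MP_7f974f_gt.Stmts_K

/-!
# Module E: local index computation (interface statements)
-/

open scoped Manifold ContDiff Topology RealInnerProductSpace
open MeasureTheory Set

noncomputable section

namespace NRF

section

variable {V : Type} [NormedAddCommGroup V] [InnerProductSpace ℝ V] [FiniteDimensional ℝ V]

/-- Covariant derivative with connection coefficients `A`. -/
def nabE (A : Fin 4 → E4 → V →L[ℝ] V) (i : Fin 4) (u : E4 → V) (z : E4) : V :=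
  pd i u z + A i z (u z)

/-- Local data of a Laplace type operator near `0`, in special coordinates up to the scale `κ`. -/
structure LocData (κ δ : ℝ) (G : E4 → Matrix (Fin 4) (Fin 4) ℝ) (A : Fin 4 → E4 → V →L[ℝ] V)
    (W : E4 → V →L[ℝ] V) : Prop where
  kpos : 0 < κ
  dpos : 0 < δ
  met : MetOn (Metric.ball 0 δ) G
  G0 : G 0 = κ⁻¹ • (1 : Matrix (Fin 4) (Fin 4) ℝ)
  dG0 : ∀ i k l, pd i (fun z => G z k l) 0 = 0
  A_smooth : ∀ i, ContDiffOn ℝ ∞ (A i) (Metric.ball 0 δ)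
  W_smooth : ContDiffOn ℝ ∞ W (Metric.ball 0 δ)
  A0 : ∀ i, A i 0 = 0

/-- A functional on `End V` which vanishes on the identity, the connection and the potential. -/
structure LocFun (δ : ℝ) (A : Fin 4 → E4 → V →L[ℝ] V) (W : E4 → V →L[ℝ] V)
    (l : (V →L[ℝ] V) →ₗ[ℝ] ℝ) : Prop where
  one : l (ContinuousLinearMap.id ℝ V) = 0
  onA : ∀ i, ∀ z ∈ Metric.ball (0 : E4) δ, l (A i z) = 0
  onW : ∀ z ∈ Metric.ball (0 : E4) δ, l (W z) = 0
  comm : ∀ i, ∀ z ∈ Metric.ball (0 : E4) δ, ∀ z' ∈ Metric.ball (0 : E4) δ,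
    l ((A i z).comp (W z')) = l ((W z').comp (A i z))

end

/-- E1: a model with given operator near `0` has the expected coefficients. -/
def claimOpCoef : Prop :=
  ∀ (V : Type) [NormedAddCommGroup V] [InnerProductSpace ℝ V] [FiniteDimensional ℝ V]
    (m : Model V) (κ δ : ℝ) (G : E4 → Matrix (Fin 4) (Fin 4) ℝ) (A : Fin 4 → E4 → V →L[ℝ] V)
    (W : E4 → V →L[ℝ] V), LocData κ δ G A W →
    (∀ t, ∀ z ∈ Metric.ball (0 : E4) δ, m.a (t, z) = (G z)⁻¹ ∧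
      ∀ u : E4 → V, ContDiffAt ℝ 2 u z → m.op t u z =
        -(∑ k, ∑ l, (G z)⁻¹ k l • (nabE A k (nabE A l u) z -
          ∑ j, chr G j k l z • nabE A j u z)) + W z (u z)) →
    ∀ t, ∀ z ∈ Metric.ball (0 : E4) δ,
      (∀ j, m.b (t, z) j = -(∑ k, (2 * (G z)⁻¹ k j) • A k z) +
        (∑ k, ∑ l, (G z)⁻¹ k l * chr G j k l z) • ContinuousLinearMap.id ℝ V) ∧
      m.c (t, z) = W z - ∑ k, ∑ l, (G z)⁻¹ k l • (pd k (A l) z + (A k z).comp (A l z) -
        ∑ j, chr G j k l z • A j z)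

/-- E2: the coefficient `P 4` of the formal solution at the pole, under the functional `l`. -/
def claimLocalP : Prop :=
  ∀ (V : Type) [NormedAddCommGroup V] [InnerProductSpace ℝ V] [FiniteDimensional ℝ V]
    (m : Model V) (κ δ : ℝ) (G : E4 → Matrix (Fin 4) (Fin 4) ℝ) (A : Fin 4 → E4 → V →L[ℝ] V)
    (W : E4 → V →L[ℝ] V) (l : (V →L[ℝ] V) →ₗ[ℝ] ℝ), LocData κ δ G A W → LocFun δ A W l →
    (∀ t, ∀ z ∈ Metric.ball (0 : E4) δ, m.a (t, z) = (G z)⁻¹ ∧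
      ∀ u : E4 → V, ContDiffAt ℝ 2 u z → m.op t u z =
        -(∑ k, ∑ l, (G z)⁻¹ k l • (nabE A k (nabE A l u) z -
          ∑ j, chr G j k l z • nabE A j u z)) + W z (u z)) →
    ∀ P : ℕ → ℝ → E4 → E4 → (V →L[ℝ] V), m.IsFormal P →
      l (P 4 0 0 0) = (1 / 2) * l ((W 0).comp (W 0)) + (κ ^ 2 / 12) * ∑ i, ∑ j,
        l ((pd i (A j) 0 - pd j (A i) 0).comp (pd i (A j) 0 - pd j (A i) 0))

/-- The algebraic symmetries of a curvature tensor. -/
structure IsCurv (Q : Fin 4 → Fin 4 → Fin 4 → Fin 4 → ℝ) : Prop where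
  anti1 : ∀ a b c d, Q a b c d = -Q b a c d
  anti2 : ∀ a b c d, Q a b c d = -Q a b d c
  pair : ∀ a b c d, Q a b c d = Q c d a b
  bianchi : ∀ a b c d, Q a b c d + Q a c d b + Q a d b c = 0

/-- E3a: vanishing traces. -/
def claimE3a : Prop :=
  (evenOdd ℝ).trace = 0 ∧ (gam ℝ).trace = 0 ∧
  (∀ A : Matrix (Fin 4) (Fin 4) ℝ, A.transpose = -A →
    (evenOdd ℝ * rho A).trace = 0 ∧ (gam ℝ * rho A).trace = 0) ∧
  ∀ Q, IsCurv Q → (evenOdd ℝ * weitz Q).trace = 0 ∧ (gam ℝ * weitz Q).trace = 0 ∧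
    ∀ A : Matrix (Fin 4) (Fin 4) ℝ, A.transpose = -A →
      (evenOdd ℝ * (rho A * weitz Q)).trace = (evenOdd ℝ * (weitz Q * rho A)).trace ∧
      (gam ℝ * (rho A * weitz Q)).trace = (gam ℝ * (weitz Q * rho A)).trace

/-- The endomorphism whose traces give the local index densities. -/
def p4Q (Q : Fin 4 → Fin 4 → Fin 4 → Fin 4 → ℝ) : Matrix Lam Lam ℝ :=
  (1 / 2 : ℝ) • (weitz Q * weitz Q) + (1 / 12 : ℝ) • ∑ a, ∑ b,
    rho (Matrix.of fun c d => Q a b c d) * rho (Matrix.of fun c d => Q a b c d)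

/-- E3b: the algebraic inequality behind `2χ ± 3τ`. -/
def claimE3b : Prop :=
  ∀ Q, IsCurv Q → ∀ σ : ℝ, (σ = 1 ∨ σ = -1) →
    (∑ a, ∑ k, Q k a k a) ^ 2 / 6 -
        2 * ((∑ a, ∑ b, (∑ k, Q k a k b) ^ 2) - (∑ a, ∑ k, Q k a k a) ^ 2 / 4) ≤
      2 * (evenOdd ℝ * p4Q Q).trace + 3 * σ * (gam ℝ * p4Q Q).trace

end NRF
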