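import Pool.Agent.Work.MP_7f974f_gt.Stmts_E
import Pool.Agent.Work.MP_7f974f_gt.Stmts_C

/-!
# Module E: local index computation (sub-items)
-/

open scoped Manifold ContDiff Topology RealInnerProductSpace
open MeasureTheory Set

noncomputable section

namespace NRF

section

variable {W : Type} [NormedAddCommGroup W] [NormedSpace ℝ W]

/-- Polynomial functions on `ℝ⁴`. -/
def IsPolF (f : E4 → W) : Prop :=
  ∃ (A : Finset (Fin 4 → ℕ)) (p : (Fin 4 → ℕ) → W), ∀ z, f z = ∑ α ∈ A, (∏ i, z i ^ α i) • p α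

/-- The operator `(w + z ∂_z)/2 - κ Δ`. -/
def opA (κ : ℝ) (w : ℕ) (f : E4 → W) (z : E4) : W :=
  (1 / 2 : ℝ) • ((w : ℝ) • f z + fderiv ℝ f z z) - κ • ∑ i, pd i (pd i f) z

/-- Partial derivative, conjugated by the Gaussian `exp (-|z|²/(4κ))`. -/
def cjD (κ : ℝ) (i : Fin 4) (f : E4 → W) (z : E4) : W := pd i f z - (z i / (2 * κ)) • f z

end

section

variable {V : Type} [NormedAddCommGroup V] [InnerProductSpace ℝ V] [FiniteDimensional ℝ V]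

/-- The operator `opTay` at the pole, conjugated by the Gaussian. -/
def Model.opC (m : Model V) (κ : ℝ) (j : ℕ) (f : E4 → (V →L[ℝ] V)) (z : E4) : V →L[ℝ] V :=
  -(∑ i, ∑ l, tayC (fun q => m.a q i l) j 0 0 z • cjD κ i (cjD κ l f) z)
  + (∑ i, (tayC (fun q => m.b q i) (j - 1) 0 0 z).comp (cjD κ i f z))
  + (if 2 ≤ j then (tayC m.c (j - 2) 0 0 z).comp (f z) else 0)

/-- Taylor data of a model at the pole, as far as they are needed. `B j k = ∂_j A_k (0)`. -/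
structure TayData (m : Model V) (κ : ℝ) (B : Fin 4 → Fin 4 → V →L[ℝ] V) (W0 : V →L[ℝ] V)
    (l : (V →L[ℝ] V) →ₗ[ℝ] ℝ) (β : Fin 4 → E4 → ℝ) : Prop where
  kpos : 0 < κ
  a0 : m.a (0, 0) = κ • (1 : Matrix (Fin 4) (Fin 4) ℝ)
  a1 : ∀ i j z, tayC (fun q => m.a q i j) 1 0 0 z = 0
  b0 : ∀ i z, tayC (fun q => m.b q i) 0 0 0 z = 0
  b1 : ∀ i z, tayC (fun q => m.b q i) 1 0 0 z =
    β i z • ContinuousLinearMap.id ℝ V - (2 * κ) • ∑ j, z j • B j i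
  b3 : ∀ i z, l (tayC (fun q => m.b q i) 3 0 0 z) = 0
  c0 : ∀ z, tayC m.c 0 0 0 z = W0 - κ • ∑ k, B k k
  c2 : ∀ z, l (tayC m.c 2 0 0 z) =
    -(κ * ∑ k, l ((∑ j, z j • B j k).comp (∑ j, z j • B j k)))
  l1 : l (ContinuousLinearMap.id ℝ V) = 0
  lB : ∀ j k, l (B j k) = 0
  lW : l W0 = 0
  comm : ∀ j k, l ((B j k).comp W0) = l (W0.comp (B j k))

end

/-- E4: a polynomial in the kernel of `(w + z ∂_z)/2 - κ Δ`, `w ≥ 1`, is zero. -/
def claimPolUniq : Prop :=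
  ∀ (W : Type) [NormedAddCommGroup W] [NormedSpace ℝ W] (κ : ℝ) (w : ℕ) (f : E4 → W),
    1 ≤ w → IsPolF f → (∀ z, opA κ w f z = 0) → ∀ z, f z = 0

/-- E5: value at `0` of the polynomial solution of `((4 + z ∂_z)/2 - κ Δ) f = right hand side`. -/
def claimPolVal : Prop :=
  ∀ (κ c : ℝ) (q : Fin 4 → Fin 4 → ℝ) (T : Fin 4 → Fin 4 → Fin 4 → Fin 4 → ℝ) (f : E4 → ℝ),
    IsPolF f →
    (∀ z, opA κ 4 f z = c + (∑ i, ∑ j, q i j * (z i * z j)) +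
      ∑ i, ∑ j, ∑ k, ∑ l, T i j k l * (z i * z j * (z k * z l))) →
    f 0 = c / 2 + κ / 3 * (∑ i, q i i) +
      κ ^ 2 / 3 * ∑ i, ∑ j, (T i i j j + T i j i j + T i j j i)

/-- E6: calculus with the Gaussian. -/
def claimGaussC : Prop :=
  ∀ (W : Type) [NormedAddCommGroup W] [NormedSpace ℝ W] (κ : ℝ) (f : E4 → W), 0 < κ →
    ContDiff ℝ ∞ f → ∀ z : E4,
    0 < gaussK (κ • (1 : Matrix (Fin 4) (Fin 4) ℝ)) z ∧
    (∀ i, pd i (fun x => gaussK (κ • (1 : Matrix (Fin 4) (Fin 4) ℝ)) x • f x) z =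
      gaussK (κ • (1 : Matrix (Fin 4) (Fin 4) ℝ)) z • cjD κ i f z) ∧
    (∀ i j, pd i (pd j fun x => gaussK (κ • (1 : Matrix (Fin 4) (Fin 4) ℝ)) x • f x) z =
      gaussK (κ • (1 : Matrix (Fin 4) (Fin 4) ℝ)) z • cjD κ i (cjD κ j f) z) ∧
    ∀ w : ℕ, (1 / 2 : ℝ) • (((w : ℝ) - 4) •
          (gaussK (κ • (1 : Matrix (Fin 4) (Fin 4) ℝ)) z • f z)
        - fderiv ℝ (fun x => gaussK (κ • (1 : Matrix (Fin 4) (Fin 4) ℝ)) x • f x) z z)
      - (∑ i, ∑ j, (κ • (1 : Matrix (Fin 4) (Fin 4) ℝ)) i j •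
        pd i (pd j fun x => gaussK (κ • (1 : Matrix (Fin 4) (Fin 4) ℝ)) x • f x) z) =
      gaussK (κ • (1 : Matrix (Fin 4) (Fin 4) ℝ)) z • opA κ w f z

/-- E7: the recursion of a formal solution at the pole, without the Gaussian. -/
def claimConj : Prop :=
  ∀ (V : Type) [NormedAddCommGroup V] [InnerProductSpace ℝ V] [FiniteDimensional ℝ V]
    (m : Model V) (κ : ℝ), 0 < κ → m.a (0, 0) = κ • (1 : Matrix (Fin 4) (Fin 4) ℝ) →
    ∀ P : ℕ → ℝ → E4 → E4 → (V →L[ℝ] V), m.IsFormal P →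
      (∀ w, IsPolF (P w 0 0)) ∧
      ∀ w z, opA κ w (P w 0 0) z + ∑ k ∈ Finset.range w, m.opC κ (w - k) (P k 0 0) z = 0

/-- E8: Taylor coefficients at the pole. -/
def claimTayE : Prop :=
  ∀ (V : Type) [NormedAddCommGroup V] [InnerProductSpace ℝ V] [FiniteDimensional ℝ V]
    (m : Model V) (κ δ : ℝ) (G : E4 → Matrix (Fin 4) (Fin 4) ℝ) (A : Fin 4 → E4 → V →L[ℝ] V)
    (W : E4 → V →L[ℝ] V) (l : (V →L[ℝ] V) →ₗ[ℝ] ℝ), LocData κ δ G A W → LocFun δ A W l →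
    (∀ t, ∀ z ∈ Metric.ball (0 : E4) δ, m.a (t, z) = (G z)⁻¹ ∧
      (∀ j, m.b (t, z) j = -(∑ k, (2 * (G z)⁻¹ k j) • A k z) +
        (∑ k, ∑ l, (G z)⁻¹ k l * chr G j k l z) • ContinuousLinearMap.id ℝ V) ∧
      m.c (t, z) = W z - ∑ k, ∑ l, (G z)⁻¹ k l • (pd k (A l) z + (A k z).comp (A l z) -
        ∑ j, chr G j k l z • A j z)) →
    ∃ β : Fin 4 → E4 → ℝ, TayData m κ (fun j k => pd j (A k) 0) (W 0) l β

/-- E9: `P 1` and `P 2` at the pole. -/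
def claimP2E : Prop :=
  ∀ (V : Type) [NormedAddCommGroup V] [InnerProductSpace ℝ V] [FiniteDimensional ℝ V]
    (m : Model V) (κ : ℝ) (B : Fin 4 → Fin 4 → V →L[ℝ] V) (W0 : V →L[ℝ] V)
    (l : (V →L[ℝ] V) →ₗ[ℝ] ℝ) (β : Fin 4 → E4 → ℝ), TayData m κ B W0 l β →
    ∀ P : ℕ → ℝ → E4 → E4 → (V →L[ℝ] V), m.IsFormal P →
      (∀ z, P 1 0 0 z = 0) ∧
      ∃ p : E4 → ℝ, ContDiff ℝ ∞ p ∧ ∀ z, P 2 0 0 z =
        p z • ContinuousLinearMap.id ℝ V - (1 / 2 : ℝ) • (∑ i, ∑ j, (z i * z j) • B i j) - W0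

/-- E10: the equation for `l (P 4)` at the pole. -/
def claimP4E : Prop :=
  ∀ (V : Type) [NormedAddCommGroup V] [InnerProductSpace ℝ V] [FiniteDimensional ℝ V]
    (m : Model V) (κ : ℝ) (B : Fin 4 → Fin 4 → V →L[ℝ] V) (W0 : V →L[ℝ] V)
    (l : (V →L[ℝ] V) →ₗ[ℝ] ℝ) (β : Fin 4 → E4 → ℝ), TayData m κ B W0 l β →
    ∀ P : ℕ → ℝ → E4 → E4 → (V →L[ℝ] V), m.IsFormal P → (∀ z, P 1 0 0 z = 0) →
      ∀ p : E4 → ℝ, ContDiff ℝ ∞ p → (∀ z, P 2 0 0 z =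
        p z • ContinuousLinearMap.id ℝ V - (1 / 2 : ℝ) • (∑ i, ∑ j, (z i * z j) • B i j) - W0) →
      ∀ z, opA κ 4 (fun z => l (P 4 0 0 z)) z =
        (l (W0.comp W0) - κ * ∑ k, l ((B k k).comp W0)) +
        (∑ i, ∑ j, (κ * (∑ k, l ((B i k).comp (B j k))) -
          κ * (∑ k, l ((B i k).comp (B k j + B j k))) + l ((B i j).comp W0) +
          (1 / 2) * l (W0.comp (B i j)) - κ / 2 * ∑ k, l ((B k k).comp (B i j))) * (z i * z j)) +
        ∑ i, ∑ j, ∑ k, ∑ r, ((1 / 2) * l ((B i j).comp (B k r))) * (z i * z j * (z k * z r))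

/-- The wedge product of two 2-forms in dimension 4 (`x`, `y` skew). -/
def pf2 (x y : Fin 4 → Fin 4 → ℝ) : ℝ :=
  x 0 1 * y 2 3 - x 0 2 * y 1 3 + x 0 3 * y 1 2 + x 1 2 * y 0 3 - x 1 3 * y 0 2 + x 2 3 * y 0 1

/-- E11: traces with the square of the action of a skew matrix. -/
def claimTrRho : Prop :=
  ∀ A : Matrix (Fin 4) (Fin 4) ℝ, A.transpose = -A →
    (evenOdd ℝ * (rho A * rho A)).trace = 0 ∧
    (gam ℝ * (rho A * rho A)).trace = 4 * pf2 A A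

/-- E12: the supertrace of the square of the curvature term. -/
def claimTrW1 : Prop :=
  ∀ Q, IsCurv Q → (evenOdd ℝ * (weitz Q * weitz Q)).trace =
    8 * (pf2 (fun a b => Q a b 0 1) (fun a b => Q a b 2 3) -
      pf2 (fun a b => Q a b 0 2) (fun a b => Q a b 1 3) +
      pf2 (fun a b => Q a b 0 3) (fun a b => Q a b 1 2))

/-- E13: the trace of the square of the curvature term with `gam`. -/
def claimTrW2 : Prop :=
  ∀ Q, IsCurv Q → (gam ℝ * (weitz Q * weitz Q)).trace =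
    -2 * ∑ c, ∑ d, pf2 (fun a b => Q a b c d) (fun a b => Q a b c d)

/-- E14: the inequality for curvature tensors. -/
def claimCurvIneq : Prop :=
  ∀ Q, IsCurv Q → ∀ σ : ℝ, (σ = 1 ∨ σ = -1) →
    (∑ a, ∑ k, Q k a k a) ^ 2 / 6 -
        2 * ((∑ a, ∑ b, (∑ k, Q k a k b) ^ 2) - (∑ a, ∑ k, Q k a k a) ^ 2 / 4) ≤
      8 * (pf2 (fun a b => Q a b 0 1) (fun a b => Q a b 2 3) -
        pf2 (fun a b => Q a b 0 2) (fun a b => Q a b 1 3) +
        pf2 (fun a b => Q a b 0 3) (fun a b => Q a b 1 2)) -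
      2 * σ * ∑ c, ∑ d, pf2 (fun a b => Q a b c d) (fun a b => Q a b c d)

/-- E15: assembly of the local computation. -/
def claimAsmE : Prop :=
  claimOpCoef → claimPolVal → claimConj → claimTayE → claimP2E → claimP4E → claimLocalP

/-- E16: assembly of the algebraic inequality. -/
def claimAsmE3 : Prop :=
  claimTrRho → claimTrW1 → claimTrW2 → claimCurvIneq → claimE3b

end NRF
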