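import Pool.Agent.Work.MP_7f974f_gt.Stmts_D1
import Pool.Agent.Work.MP_7f974f_gt.Stmts_D2
import Pool.Agent.Work.MP_7f974f_gt.Bd.B01

/-!
# Module D, part 4: the bundle of forms as a subbundle of a trivial bundle
A section of the exterior bundle of the cotangent bundle of `X` is a function `u : X → VV n` with
values in the range of the projection field `pV`.
-/

open scoped Manifold ContDiff Topology RealInnerProductSpace
open MeasureTheory Set

noncomputable section

namespace NRF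

section

variable {X : Type} [TopologicalSpace X] [ChartedSpace E4 X]

/-- `C^k` at a point, in all smooth charts. -/
def CkAt {W : Type} [NormedAddCommGroup W] [NormedSpace ℝ W] (k : WithTop ℕ∞) (u : X → W)
    (x : X) : Prop :=
  ∀ psi ∈ SmCh X, x ∈ psi.source → ContDiffAt ℝ k (fun z => u (psi.symm z)) (psi x)

/-- `C^k` functions on `X`. -/
def CkX {W : Type} [NormedAddCommGroup W] [NormedSpace ℝ W] (k : WithTop ℕ∞) (u : X → W) : Prop :=
  ∀ x, CkAt k u x

end

/-- A positively oriented smooth chart with a positively oriented orthonormal frame. -/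
structure FChart (X : Type) [TopologicalSpace X] [ChartedSpace E4 X] (g : Metric X) where
  psi : OpenPartialHomeomorph X E4
  f : E4 → Matrix (Fin 4) (Fin 4) ℝ
  sm : psi ∈ SmCh X
  pos : PosCh psi
  frame : FrameOn psi.target (g.mcoef psi) f

section

variable {X : Type} [TopologicalSpace X] [ChartedSpace E4 X] {g : Metric X}

/-- The matrix `O` with (frame of `c'`) = (frame of `c`) `O`, at the point `x`. -/
def FChart.O (c c' : FChart X g) (x : X) : Matrix (Fin 4) (Fin 4) ℝ :=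
  frO (c'.psi.symm.trans c.psi) c'.f c.f (c'.psi x)

/-- The metric coefficients in the chart. -/
def FChart.G (c : FChart X g) : E4 → Matrix (Fin 4) (Fin 4) ℝ := g.mcoef c.psi

end

/-- The trivial bundle. -/
abbrev VV (n : ℕ) := EuclideanSpace ℝ (Fin (n + 1) × Lam)

/-- A finite atlas with frames, a partition of unity `chi` and a family `rho` with `∑ rho² = 1`. -/
structure FAtlas (X : Type) [TopologicalSpace X] [ChartedSpace E4 X] (g : Metric X) (n : ℕ) where
  c : Fin (n + 1) → FChart X g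
  ball : ∀ i, Metric.closedBall 0 3 ⊆ (c i).psi.target
  chi : Fin (n + 1) → E4 → ℝ
  rho : Fin (n + 1) → E4 → ℝ
  chi_smooth : ∀ i, ContDiff ℝ ∞ (chi i)
  rho_smooth : ∀ i, ContDiff ℝ ∞ (rho i)
  chi_nonneg : ∀ i z, 0 ≤ chi i z
  rho_nonneg : ∀ i z, 0 ≤ rho i z
  chi_supp : ∀ i z, 1 ≤ ‖z‖ → chi i z = 0
  rho_supp : ∀ i z, 1 ≤ ‖z‖ → rho i z = 0
  chi_sum : ∀ x : X, ∑ i, (c i).psi.source.indicator (fun x => chi i ((c i).psi x)) x = 1
  rho_sum : ∀ x : X, ∑ i, (c i).psi.source.indicator (fun x => rho i ((c i).psi x) ^ 2) x = 1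

namespace FAtlas

section

variable {X : Type} [TopologicalSpace X] [ChartedSpace E4 X] {g : Metric X} {n : ℕ}
  (A : FAtlas X g n)

/-- `ρ_j` as a function on `X`. -/
def rhoX (j : Fin (n + 1)) (x : X) : ℝ :=
  (A.c j).psi.source.indicator (fun x => A.rho j ((A.c j).psi x)) x

/-- The projection of the trivial bundle to the forms, in the frame of the chart `c`. -/
def Bm (c : FChart X g) (x : X) : Matrix Lam (Fin (n + 1) × Lam) ℝ :=
  Matrix.of fun s q => A.rhoX q.1 x * LamM (c.O (A.c q.1) x) s q.2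

/-- Components of a function `u : X → VV n` in the frame of the chart `c`. -/
def loc (c : FChart X g) (u : X → VV n) (z : E4) : Lam → ℝ :=
  (A.Bm c (c.psi.symm z)).mulVec (WithLp.ofLp (u (c.psi.symm z)))

/-- The vector of the trivial bundle with given components in the frame of `c`. -/
def emb (c : FChart X g) (x : X) (α : Lam → ℝ) : VV n :=
  WithLp.toLp 2 ((A.Bm c x).transpose.mulVec α)

theorem exists_index (x : X) : ∃ i, x ∈ (A.c i).psi.source ∧ ‖(A.c i).psi x‖ < 1 := by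
  by_contra h
  push Not at h
  have h1 := A.rho_sum x
  have h2 : ∀ i, (A.c i).psi.source.indicator (fun x => A.rho i ((A.c i).psi x) ^ 2) x = 0 := by
    intro i
    by_cases hi : x ∈ (A.c i).psi.source
    · rw [Set.indicator_of_mem hi, A.rho_supp i _ (h i hi)]
      norm_num
    · exact Set.indicator_of_notMem hi _
  simp [h2] at h1

/-- A chosen chart of the atlas around `x`. -/
def cx (x : X) : FChart X g := A.c (A.exists_index x).choose

/-- `d + δ` on functions with values in the trivial bundle. -/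
def dirV (u : X → VV n) (x : X) : VV n :=
  A.emb (A.cx x) x (diracC (A.cx x).G (A.cx x).f (A.loc (A.cx x) u) ((A.cx x).psi x))

/-- The exterior derivative. -/
def dV (u : X → VV n) (x : X) : VV n :=
  A.emb (A.cx x) x (dFC (A.cx x).G (A.cx x).f (A.loc (A.cx x) u) ((A.cx x).psi x))

/-- The codifferential. -/
def delV (u : X → VV n) (x : X) : VV n :=
  A.emb (A.cx x) x (delFC (A.cx x).G (A.cx x).f (A.loc (A.cx x) u) ((A.cx x).psi x))

/-- The endomorphism given by the matrix `M` in oriented orthonormal frames. -/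
def mulV (M : Matrix Lam Lam ℝ) (x : X) : VV n →L[ℝ] VV n :=
  Matrix.toEuclideanCLM (𝕜 := ℝ) ((A.Bm (A.cx x) x).transpose * M * A.Bm (A.cx x) x)

/-- The projection to the bundle of forms. -/
def pV (x : X) : VV n →L[ℝ] VV n := A.mulV 1 x

/-- The component of a function orthogonal to the bundle of forms. -/
def qV (u : X → VV n) (x : X) : VV n := u x - A.pV x (u x)

/-- Laplacian of all the components. -/
def lapV (_ : FAtlas X g n) (u : X → VV n) (x : X) : VV n :=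
  WithLp.toLp 2 fun q => g.lapl (fun y => u y q) x

/-- The operator: `(d + δ)²` on forms, minus the Laplacian of functions on the complement. -/
def LV (u : X → VV n) (x : X) : VV n :=
  A.dirV (A.dirV u) x - A.qV (A.lapV (A.qV u)) x

/-- Smooth sections of the bundle of forms. -/
def Sec : Submodule ℝ (X → VV n) where
  carrier := {u | CkX ∞ u ∧ ∀ x, A.pV x (u x) = u x}
  add_mem' := by
    rintro a b ⟨ha1, ha2⟩ ⟨hb1, hb2⟩
    refine ⟨fun x psi hpsi hx => (ha1 x psi hpsi hx).add (hb1 x psi hpsi hx), fun x => ?_⟩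
    rw [Pi.add_apply, map_add, ha2, hb2]
  zero_mem' := ⟨fun x psi hpsi hx => contDiffAt_const, fun x => by
    rw [Pi.zero_apply, map_zero]⟩
  smul_mem' := by
    rintro c a ⟨ha1, ha2⟩
    refine ⟨fun x psi hpsi hx => (contDiffAt_const (c := c)).smul (ha1 x psi hpsi hx), fun x => ?_⟩
    rw [Pi.smul_apply, map_smul, ha2]

end

end FAtlas

/-- Constant matrices which commute with the action of `SO(4)`. -/
def LamInv (M : Matrix Lam Lam ℝ) : Prop :=
  ∀ O : Matrix (Fin 4) (Fin 4) ℝ, O.transpose * O = 1 → O.det = 1 → LamM O * M = M * LamM O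

/-- G0: `C^k` functions. -/
def claimCk : Prop :=
  ∀ (X : Type) [TopologicalSpace X] [ChartedSpace E4 X] [IsManifold (𝓡 4) ∞ X] (W : Type)
    [NormedAddCommGroup W] [NormedSpace ℝ W] (k : WithTop ℕ∞) (u : X → W), k ≤ ∞ →
    (CkX k u ↔ ContMDiff (𝓡 4) (modelWithCornersSelf ℝ W) k u) ∧
    ∀ psi ∈ SmCh X, ∀ x ∈ psi.source,
      ContDiffAt ℝ k (fun z => u (psi.symm z)) (psi x) → CkAt k u x

/-- G1: frames of two charts. -/
def claimFCh : Prop :=
  ∀ (X : Type) [TopologicalSpace X] [ChartedSpace E4 X] [IsManifold (𝓡 4) ∞ X],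
    OrientedAtlas X → ∀ (g : Metric X) (c c' : FChart X g),
    (∀ x ∈ c.psi.source ∩ c'.psi.source,
      (c.O c' x).transpose * c.O c' x = 1 ∧ (c.O c' x).det = 1 ∧ c'.O c x = (c.O c' x).transpose ∧
      ∀ c'' : FChart X g, x ∈ c''.psi.source → c.O c' x * c'.O c'' x = c.O c'' x) ∧
    (∀ x ∈ c.psi.source, c.O c x = 1) ∧
    (∀ a b, ContDiffOn ℝ ∞ (fun z => c.O c' (c.psi.symm z) a b) (c.psi.symm.trans c'.psi).source) ∧
    ∀ z ∈ (c.psi.symm.trans c'.psi).source,
      c.G z = pullM (c.psi.symm.trans c'.psi) c'.G z ∧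
      0 < (fderiv ℝ (c.psi.symm.trans c'.psi) z).det

/-- G2: existence of finite atlases with frames. -/
def claimFAt : Prop :=
  ∀ (X : Type) [TopologicalSpace X] [T2Space X] [CompactSpace X] [ConnectedSpace X]
    [ChartedSpace E4 X] [IsManifold (𝓡 4) ∞ X], OrientedAtlas X → ∀ g : Metric X,
    ∃ n, Nonempty (FAtlas X g n)

/-- The atlas is adapted to the point `x0`: the first chart is, up to the scale `κ`, given by special
coordinates with a special frame. -/
structure FAtlas.Adapted {X : Type} [TopologicalSpace X] [ChartedSpace E4 X] {g : Metric X} {n : ℕ}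
    (A : FAtlas X g n) (x0 : X) (κ : ℝ) : Prop where
  kpos : 0 < κ
  mem : x0 ∈ (A.c 0).psi.source
  zero : (A.c 0).psi x0 = 0
  one : ∃ δ > 0, ∀ z : E4, ‖z‖ < δ → A.chi 0 z = 1 ∧ A.rho 0 z = 1
  met : (A.c 0).G 0 = κ⁻¹ • (1 : Matrix (Fin 4) (Fin 4) ℝ)
  dmet : ∀ i k l, pd i (fun z => (A.c 0).G z k l) 0 = 0
  om : ∀ i, omC (A.c 0).G (A.c 0).f i 0 = 0

/-- G2': existence of adapted atlases. -/
def claimFAt0 : Prop :=
  ∀ (X : Type) [TopologicalSpace X] [T2Space X] [CompactSpace X] [ConnectedSpace X]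
    [ChartedSpace E4 X] [IsManifold (𝓡 4) ∞ X], OrientedAtlas X → ∀ (g : Metric X) (x0 : X),
    ∃ (n : ℕ) (A : FAtlas X g n) (κ : ℝ), A.Adapted x0 κ

/-- G3: the embedding. -/
def claimEmb : Prop :=
  ∀ (X : Type) [TopologicalSpace X] [T2Space X] [CompactSpace X]
    [ChartedSpace E4 X] [IsManifold (𝓡 4) ∞ X], OrientedAtlas X → ∀ (g : Metric X) (n : ℕ)
    (A : FAtlas X g n),
    (∀ c : FChart X g, (∀ x ∈ c.psi.source, A.Bm c x * (A.Bm c x).transpose = 1) ∧
      (∀ s q, ContDiffOn ℝ ∞ (fun z => A.Bm c (c.psi.symm z) s q) c.psi.target) ∧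
      (∀ c' : FChart X g, ∀ x ∈ c.psi.source ∩ c'.psi.source,
        A.Bm c' x = LamM (c'.O c x) * A.Bm c x)) ∧
    (LamInv 1 ∧ LamInv (evenOdd ℝ) ∧ LamInv (gam ℝ) ∧ ∀ k, LamInv (degP ℝ k)) ∧
    (∀ M, LamInv M →
      (∀ c : FChart X g, ∀ x ∈ c.psi.source,
        A.mulV M x = Matrix.toEuclideanCLM (𝕜 := ℝ) ((A.Bm c x).transpose * M * A.Bm c x) ∧
        ∀ u : X → VV n, A.loc c (fun y => A.mulV M y (u y)) (c.psi x) =
          M.mulVec (A.loc c u (c.psi x))) ∧
      (∀ M', LamInv M' → ∀ x v, A.mulV M x (A.mulV M' x v) = A.mulV (M * M') x v) ∧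
      Continuous (A.mulV M) ∧ (∀ x v, A.pV x (A.mulV M x v) = A.mulV M x v) ∧
      (∀ x v, A.mulV M x (A.pV x v) = A.mulV M x v) ∧
      (∀ (k : WithTop ℕ∞) (u : X → VV n) (x : X), k ≤ ∞ → CkAt k u x →
        CkAt k (fun y => A.mulV M y (u y)) x)) ∧
    (∀ (M : Matrix Lam Lam ℝ) (x : X) (v w : VV n),
      ⟪A.mulV M x v, w⟫ = ⟪v, A.mulV M.transpose x w⟫)

/-- G4a: the operators do not depend on the chart. -/
def claimOpV1 : Prop :=
  ∀ (X : Type) [TopologicalSpace X] [T2Space X] [CompactSpace X]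
    [ChartedSpace E4 X] [IsManifold (𝓡 4) ∞ X], OrientedAtlas X → ∀ (g : Metric X) (n : ℕ)
    (A : FAtlas X g n) (u : X → VV n) (x : X), CkAt 1 u x →
    ∀ c : FChart X g, x ∈ c.psi.source →
      A.dirV u x = A.emb c x (diracC c.G c.f (A.loc c u) (c.psi x)) ∧
      A.dV u x = A.emb c x (dFC c.G c.f (A.loc c u) (c.psi x)) ∧
      A.delV u x = A.emb c x (delFC c.G c.f (A.loc c u) (c.psi x)) ∧
      A.loc c (A.dirV u) (c.psi x) = diracC c.G c.f (A.loc c u) (c.psi x) ∧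
      A.loc c (A.dV u) (c.psi x) = dFC c.G c.f (A.loc c u) (c.psi x) ∧
      A.loc c (A.delV u) (c.psi x) = delFC c.G c.f (A.loc c u) (c.psi x)

/-- G4: the operators do not depend on the chart; first properties. -/
def claimOpV : Prop :=
  ∀ (X : Type) [TopologicalSpace X] [T2Space X] [CompactSpace X]
    [ChartedSpace E4 X] [IsManifold (𝓡 4) ∞ X], OrientedAtlas X → ∀ (g : Metric X) (n : ℕ)
    (A : FAtlas X g n) (u : X → VV n) (x : X), CkAt 1 u x →
    (∀ c : FChart X g, x ∈ c.psi.source →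
      A.dirV u x = A.emb c x (diracC c.G c.f (A.loc c u) (c.psi x)) ∧
      A.dV u x = A.emb c x (dFC c.G c.f (A.loc c u) (c.psi x)) ∧
      A.delV u x = A.emb c x (delFC c.G c.f (A.loc c u) (c.psi x)) ∧
      A.loc c (A.dirV u) (c.psi x) = diracC c.G c.f (A.loc c u) (c.psi x) ∧
      A.loc c (A.dV u) (c.psi x) = dFC c.G c.f (A.loc c u) (c.psi x) ∧
      A.loc c (A.delV u) (c.psi x) = delFC c.G c.f (A.loc c u) (c.psi x)) ∧
    A.dirV u x = A.dV u x + A.delV u x ∧
    A.pV x (A.dirV u x) = A.dirV u x ∧ A.pV x (A.dV u x) = A.dV u x ∧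
    A.pV x (A.delV u x) = A.delV u x ∧
    A.dirV (fun y => A.pV y (u y)) x = A.dirV u x ∧ A.dV (fun y => A.pV y (u y)) x = A.dV u x ∧
    A.delV (fun y => A.pV y (u y)) x = A.delV u x ∧
    (∀ v : X → VV n, CkAt 1 v x → A.dirV (fun y => u y + v y) x = A.dirV u x + A.dirV v x ∧
      A.dV (fun y => u y + v y) x = A.dV u x + A.dV v x ∧
      A.delV (fun y => u y + v y) x = A.delV u x + A.delV v x) ∧
    (∀ r : ℝ, A.dirV (fun y => r • u y) x = r • A.dirV u x ∧
      A.dV (fun y => r • u y) x = r • A.dV u x ∧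
      A.delV (fun y => r • u y) x = r • A.delV u x) ∧
    (∀ k : ℕ, CkAt (k + 1) u x → CkAt k (A.dirV u) x ∧ CkAt k (A.dV u) x ∧ CkAt k (A.delV u) x) ∧
    (CkAt ∞ u x → CkAt ∞ (A.dirV u) x ∧ CkAt ∞ (A.dV u) x ∧ CkAt ∞ (A.delV u) x) ∧
    (CkAt 2 u x → A.dV (A.dV u) x = 0 ∧ A.delV (A.delV u) x = 0) ∧
    (∀ k : ℕ, A.dV (fun y => A.mulV (degP ℝ k) y (u y)) x =
      A.mulV (degP ℝ (k + 1)) x (A.dV u x)) ∧
    A.dirV (fun y => A.mulV (evenOdd ℝ) y (u y)) x = -A.mulV (evenOdd ℝ) x (A.dirV u x) ∧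
    A.dirV (fun y => A.mulV (gam ℝ) y (u y)) x = -A.mulV (gam ℝ) x (A.dirV u x) ∧
    A.dV (fun y => A.mulV (gam ℝ) y (u y)) x = -A.mulV (gam ℝ) x (A.delV u x) ∧
    A.delV (fun y => A.mulV (gam ℝ) y (u y)) x = -A.mulV (gam ℝ) x (A.dV u x)

/-- G5: integration by parts. -/
def claimSymV : Prop :=
  ∀ (X : Type) [TopologicalSpace X] [T2Space X] [CompactSpace X]
    [ChartedSpace E4 X] [IsManifold (𝓡 4) ∞ X] [MeasurableSpace X] [BorelSpace X],
    OrientedAtlas X → ∀ (g : Metric X) (n : ℕ) (A : FAtlas X g n) (u v : X → VV n),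
    CkX 1 u → CkX 1 v →
    ∫ x, ⟪A.dirV u x, v x⟫ ∂g.vol = ∫ x, ⟪u x, A.dirV v x⟫ ∂g.vol ∧
    ∫ x, ⟪A.dV u x, v x⟫ ∂g.vol = ∫ x, ⟪u x, A.delV v x⟫ ∂g.vol

/-- G6: the operator `LV` in a chart. -/
def claimLocV : Prop :=
  ∀ (X : Type) [TopologicalSpace X] [T2Space X] [CompactSpace X]
    [ChartedSpace E4 X] [IsManifold (𝓡 4) ∞ X], OrientedAtlas X → ∀ (g : Metric X) (n : ℕ)
    (A : FAtlas X g n) (c : FChart X g),
    ∃ (b : E4 → Fin 4 → VV n →L[ℝ] VV n) (cc : E4 → VV n →L[ℝ] VV n),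
      (∀ j, ContDiffOn ℝ ∞ (fun z => b z j) c.psi.target) ∧ ContDiffOn ℝ ∞ cc c.psi.target ∧
      ∀ z ∈ c.psi.target, ∀ u : X → VV n, ContDiffAt ℝ 2 (fun w => u (c.psi.symm w)) z →
        A.LV u (c.psi.symm z) =
          -(∑ j, ∑ l, (c.G z)⁻¹ j l • pd j (pd l fun w => u (c.psi.symm w)) z) +
            (∑ j, b z j (pd j (fun w => u (c.psi.symm w)) z)) + cc z (u (c.psi.symm z))

/-- Block endomorphism of the trivial bundle: `M` on the first summand, zero on the others. -/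
def blk (n : ℕ) (M : Matrix Lam Lam ℝ) : VV n →L[ℝ] VV n :=
  Matrix.toEuclideanCLM (𝕜 := ℝ) (Matrix.of fun p q : Fin (n + 1) × Lam =>
    if p.1 = 0 ∧ q.1 = 0 then M p.2 q.2 else 0)

/-- Covariant derivative on functions with values in the trivial bundle in the first chart, near a
point where `rho 0 = 1`. -/
def nabB {n : ℕ} (G f : E4 → Matrix (Fin 4) (Fin 4) ℝ) (i : Fin 4) (u : E4 → VV n) (z : E4) :
    VV n :=
  pd i u z + blk n (rho (omC G f i z)) (u z)

/-- G6': the operator `LV` in the first chart, where `rho 0 = 1`. -/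
def claimLocV0 : Prop :=
  ∀ (X : Type) [TopologicalSpace X] [T2Space X] [CompactSpace X]
    [ChartedSpace E4 X] [IsManifold (𝓡 4) ∞ X], OrientedAtlas X → ∀ (g : Metric X) (n : ℕ)
    (A : FAtlas X g n) (δ : ℝ), 0 < δ → δ ≤ 1 → (∀ z : E4, ‖z‖ < δ → A.rho 0 z = 1) →
    ∀ z : E4, ‖z‖ < δ →
      (∀ M, LamInv M → A.mulV M ((A.c 0).psi.symm z) = blk n M) ∧
      ∀ u : E4 → VV n, ContDiffAt ℝ 2 u z →
        A.LV (fun y => u ((A.c 0).psi y)) ((A.c 0).psi.symm z) =
          -(∑ k, ∑ l, ((A.c 0).G z)⁻¹ k l • (nabB (A.c 0).G (A.c 0).f k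
            (nabB (A.c 0).G (A.c 0).f l u) z -
              ∑ m, chr (A.c 0).G m k l z • nabB (A.c 0).G (A.c 0).f m u z)) +
            blk n (weitz (fun a b c d => R4C (A.c 0).G (A.c 0).f a b c d z)) (u z)

/-- The heat data `D` belongs to the atlas `A`. -/
structure FAtlas.Fits {X : Type} [TopologicalSpace X] [ChartedSpace E4 X] [MeasurableSpace X]
    [BorelSpace X] {g : Metric X} {n : ℕ} (A : FAtlas X g n) (D : HeatData X (VV n)) : Prop where
  mu : D.mu = g.vol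
  smooth : ∀ f, D.g.Smooth f ↔ CkX ∞ f
  c2 : ∀ f, D.g.C2 f ↔ CkX 2 f
  L : ∀ f, CkX 2 f → ∀ y, D.g.L 0 f y = A.LV f y
  chart : ∃ i0 : D.g.I, D.g.psi i0 = (A.c 0).psi ∧ (D.g.mdl i0).chi = A.chi 0 ∧
    (∀ x ∈ Metric.ball (0 : E4) 3, D.dens i0 x = Real.sqrt ((A.c 0).G x).det) ∧
    ∀ t, ∀ x ∈ Metric.ball (0 : E4) (5 / 2), (D.g.mdl i0).a (t, x) = ((A.c 0).G x)⁻¹ ∧
      ∀ u : E4 → VV n, ContDiffAt ℝ 2 u x →
        (D.g.mdl i0).op t u x = A.LV (fun y => u ((A.c 0).psi y)) ((A.c 0).psi.symm x)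

/-- G7: existence of the heat data. -/
def claimHeatV : Prop :=
  ∀ (X : Type) [TopologicalSpace X] [T2Space X] [CompactSpace X] [ConnectedSpace X]
    [ChartedSpace E4 X] [IsManifold (𝓡 4) ∞ X] [MeasurableSpace X] [BorelSpace X],
    OrientedAtlas X → ∀ (g : Metric X) (n : ℕ) (A : FAtlas X g n),
    ∃ D : HeatData X (VV n), A.Fits D

/-- G8: `d + δ` is a square root of the operator. -/
def claimDirV : Prop :=
  ∀ (X : Type) [TopologicalSpace X] [T2Space X] [CompactSpace X]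
    [ChartedSpace E4 X] [IsManifold (𝓡 4) ∞ X] [MeasurableSpace X] [BorelSpace X],
    OrientedAtlas X → ∀ (g : Metric X) (n : ℕ) (A : FAtlas X g n) (D : HeatData X (VV n)),
    A.Fits D → D.IsDirac A.pV A.dirV ∧ D.IsOdd A.pV A.dirV (A.mulV (evenOdd ℝ)) ∧
      D.IsOdd A.pV A.dirV (A.mulV (gam ℝ))

end NRF
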