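import Pool.Agent.Work.MP_7f974f_gt.Stmts_C

/-!
# C9: the Duhamel operator on a manifold of bounded geometry
-/

open scoped Manifold ContDiff Topology
open MeasureTheory Set

noncomputable section

namespace NRF

namespace C9

variable {V : Type} [NormedAddCommGroup V] [InnerProductSpace ℝ V] [FiniteDimensional ℝ V]

/-! ## the cutoff -/

lemma etaC_nonneg (x : E4) : 0 ≤ etaC x := etaBump.nonneg

lemma etaC_le_one (x : E4) : etaC x ≤ 1 := etaBump.le_one

lemma etaC_one {x : E4} (hx : ‖x‖ ≤ 3 / 2) : etaC x = 1 := by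
  apply etaBump.one_of_mem_closedBall
  rw [Metric.mem_closedBall, dist_zero_right]
  exact hx

lemma etaC_zero {x : E4} (hx : 2 ≤ ‖x‖) : etaC x = 0 := by
  apply etaBump.zero_of_le_dist
  rw [dist_zero_right]
  exact hx

/-! ## classes of functions -/

section classes

omit [FiniteDimensional ℝ V]

lemma NiceE.norm_le {k : ℕ} {T C : ℝ} {u : ℝ → E4 → V} (h : NiceE k T C u) {t : ℝ}
    (ht : t ∈ Icc 0 T) (x : E4) : ‖u t x‖ ≤ C := by
  have := h.2.2 0 (Nat.zero_le _) t ht x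
  rwa [norm_iteratedFDeriv_zero] at this

lemma NiceE.nonneg {k : ℕ} {T C : ℝ} {u : ℝ → E4 → V} (h : NiceE k T C u) (hT : 0 < T) :
    0 ≤ C :=
  (norm_nonneg _).trans (NiceE.norm_le h (left_mem_Icc.2 hT.le) 0)

lemma NiceE.mono {k : ℕ} {T C C' : ℝ} {u : ℝ → E4 → V} (h : NiceE k T C u) (hC : C ≤ C') :
    NiceE k T C' u :=
  ⟨h.1, h.2.1, fun j hj t ht x => (h.2.2 j hj t ht x).trans hC⟩

lemma NiceE.congr {k : ℕ} {T C : ℝ} {u u' : ℝ → E4 → V} (h : NiceE k T C u)
    (he : ∀ t ∈ Icc 0 T, ∀ x, u t x = u' t x) : NiceE k T C u' := by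
  have he' : ∀ t ∈ Icc 0 T, u t = u' t := fun t ht => funext (he t ht)
  refine ⟨fun t ht => he' t ht ▸ h.1 t ht, fun j hj => ?_, fun j hj t ht x => ?_⟩
  · refine (h.2.1 j hj).congr ?_
    rintro ⟨t, x⟩ ⟨ht, -⟩
    simp only [he' t ht]
  · rw [← he' t ht]
    exact h.2.2 j hj t ht x

lemma NiceE.continuousOn {k : ℕ} {T C : ℝ} {u : ℝ → E4 → V} (h : NiceE k T C u) :
    ContinuousOn (fun p : ℝ × E4 => u p.1 p.2) (Icc 0 T ×ˢ univ) := by
  have h0 := h.2.1 0 (Nat.zero_le _)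
  have := (continuousMultilinearCurryFin0 ℝ E4 V).continuous.comp_continuousOn h0
  refine this.congr ?_
  rintro ⟨t, x⟩ -
  simp [iteratedFDeriv_zero_eq_comp]

lemma NiceE.cbe {k : ℕ} {T C : ℝ} {u : ℝ → E4 → V} (h : NiceE k T C u) : CBE T C u :=
  ⟨NiceE.continuousOn h, fun _ ht x => NiceE.norm_le h ht x⟩

lemma NiceE.tsum' [CompleteSpace V] {k : ℕ} {T : ℝ} {c : ℕ → ℝ} {u : ℕ → ℝ → E4 → V}
    (hu : ∀ n, NiceE k T (c n) (u n)) (hc : Summable c) :
    NiceE k T (∑' n, c n) fun t x => ∑' n, u n t x := by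
  have hb : ∀ t ∈ Icc 0 T, ∀ (j : ℕ) (n : ℕ) (x : E4), (j : ℕ∞) ≤ (k : ℕ∞) →
      ‖iteratedFDeriv ℝ j (u n t) x‖ ≤ c n := by
    intro t ht j n x hj
    exact (hu n).2.2 j (by exact_mod_cast hj) t ht x
  have hd : ∀ t ∈ Icc 0 T, ∀ j ≤ k, iteratedFDeriv ℝ j (fun x => ∑' n, u n t x) =
      fun x => ∑' n, iteratedFDeriv ℝ j (u n t) x := by
    intro t ht j hj
    exact iteratedFDeriv_tsum (N := (k : ℕ∞)) (v := fun _ n => c n)
      (fun n => by exact_mod_cast (hu n).1 t ht)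
      (fun _ _ => hc) (fun j n x hj => hb t ht j n x hj) (by exact_mod_cast hj)
  refine ⟨fun t ht => ?_, fun j hj => ?_, fun j hj t ht x => ?_⟩
  · have := contDiff_tsum (𝕜 := ℝ) (N := (k : ℕ∞)) (v := fun _ n => c n)
      (f := fun n => u n t)
      (fun n => by exact_mod_cast (hu n).1 t ht)
      (fun _ _ => hc) (fun j n x hj => hb t ht j n x hj)
    exact_mod_cast this
  · have := continuousOn_tsum (s := Icc 0 T ×ˢ univ)
      (f := fun n (p : ℝ × E4) => iteratedFDeriv ℝ j (u n p.1) p.2)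
      (fun n => (hu n).2.1 j hj) hc
      (fun n p hp => (hu n).2.2 j hj p.1 hp.1 p.2)
    refine this.congr ?_
    rintro ⟨t, x⟩ ⟨ht, -⟩
    simp only [hd t ht j hj]
  · rw [hd t ht j hj]
    exact tsum_of_norm_bounded hc.hasSum fun n => (hu n).2.2 j hj t ht x

end classes

/-! ## geometry -/

section geometry

variable {Y : Type} [TopologicalSpace Y]

omit [FiniteDimensional ℝ V]

/-- Localisation of a function on `Y` to the chart `i`. -/
def loc (g : Geom Y V) (i : g.I) (w : ℝ → Y → V) : ℝ → E4 → V :=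
  fun t x => etaC x • w t ((g.psi i).symm x)

/-- Patching. -/
def patch (g : Geom Y V) (v : g.I → ℝ → E4 → V) : ℝ → Y → V :=
  fun t y => ∑ᶠ i, (g.psi i).source.indicator (fun y => v i t (g.psi i y)) y

/-- Closed chart balls of radius 2. -/
def cb (g : Geom Y V) (i : g.I) : Set Y := (g.psi i).symm '' Metric.closedBall 0 2

lemma ball_sub {g : Geom Y V} {i : g.I} {x : E4} (hx : ‖x‖ ≤ 3) : x ∈ (g.psi i).target :=
  g.target i (by simpa [Metric.mem_closedBall, dist_zero_right] using hx)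

lemma mem_cb_iff {g : Geom Y V} {i : g.I} {y : Y} :
    y ∈ cb g i ↔ y ∈ (g.psi i).source ∧ ‖g.psi i y‖ ≤ 2 := by
  constructor
  · rintro ⟨x, hx, rfl⟩
    have hx' : ‖x‖ ≤ 2 := by simpa [Metric.mem_closedBall, dist_zero_right] using hx
    have ht : x ∈ (g.psi i).target := ball_sub (hx'.trans (by norm_num))
    refine ⟨(g.psi i).map_target ht, ?_⟩
    rwa [(g.psi i).right_inv ht]
  · rintro ⟨hs, hx⟩
    exact ⟨g.psi i y, by simpa [Metric.mem_closedBall, dist_zero_right] using hx,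
      (g.psi i).left_inv hs⟩

lemma isCompact_cb (g : Geom Y V) (i : g.I) : IsCompact (cb g i) := by
  refine (isCompact_closedBall (0 : E4) 2).image_of_continuousOn ?_
  exact (g.psi i).continuousOn_symm.mono
    ((Metric.closedBall_subset_closedBall (by norm_num)).trans (g.target i))

lemma finite_cb (g : Geom Y V) (y : Y) : {i | y ∈ cb g i}.Finite := g.locfin.point_finite y

/-- The finite set of the charts at a point. -/
def chs (g : Geom Y V) (y : Y) : Finset g.I := (finite_cb g y).toFinset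

lemma mem_chs {g : Geom Y V} {y : Y} {i : g.I} : i ∈ chs g y ↔ y ∈ cb g i := by
  simp [chs]

lemma patch_eq (g : Geom Y V) (v : g.I → ℝ → E4 → V) (t : ℝ)
    (hv : ∀ i x, 2 ≤ ‖x‖ → v i t x = 0) (y : Y) :
    patch g v t y = ∑ i ∈ chs g y, v i t (g.psi i y) := by
  unfold patch
  rw [finsum_eq_sum_of_support_subset (s := chs g y)]
  · refine Finset.sum_congr rfl fun i hi => ?_
    rw [indicator_of_mem (mem_cb_iff.1 (mem_chs.1 hi)).1]
  · intro i hi
    rw [Function.mem_support] at hi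
    have hs : y ∈ (g.psi i).source := by
      by_contra h
      exact hi (indicator_of_notMem h _)
    rw [indicator_of_mem hs] at hi
    rw [Finset.mem_coe, mem_chs, mem_cb_iff]
    refine ⟨hs, ?_⟩
    by_contra h
    exact hi (hv i _ (not_le.1 h).le)

/-- As `patch_eq`, with a larger finite set of charts. -/
lemma patch_eq' (g : Geom Y V) (v : g.I → ℝ → E4 → V) (t : ℝ)
    (hv : ∀ i x, 2 ≤ ‖x‖ → v i t x = 0) (y : Y) (F : Finset g.I) (hF : chs g y ⊆ F)
    (hs : ∀ i ∈ F, y ∈ (g.psi i).source) :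
    patch g v t y = ∑ i ∈ F, v i t (g.psi i y) := by
  rw [patch_eq g v t hv y]
  refine Finset.sum_subset hF fun i hi hn => ?_
  apply hv
  by_contra h
  exact hn (mem_chs.2 (mem_cb_iff.2 ⟨hs i hi, (not_le.1 h).le⟩))

lemma exists_chart (g : Geom Y V) (y : Y) : ∃ i, y ∈ (g.psi i).source ∧ ‖g.psi i y‖ < 1 := by
  by_contra hcon
  push Not at hcon
  have h1 := g.part y
  rw [finsum_eq_zero_of_forall_eq_zero] at h1
  · exact zero_ne_one h1
  · intro i
    by_cases hs : y ∈ (g.psi i).source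
    · rw [indicator_of_mem hs]
      exact (g.model (g.mod i)).chi_supp _ (hcon i hs)
    · exact indicator_of_notMem hs _

lemma sum_chi (g : Geom Y V) (y : Y) : ∑ i ∈ chs g y, (g.mdl i).chi (g.psi i y) = 1 := by
  rw [← g.part y, finsum_eq_sum_of_support_subset (s := chs g y)]
  · refine Finset.sum_congr rfl fun i hi => ?_
    rw [indicator_of_mem (mem_cb_iff.1 (mem_chs.1 hi)).1]
    rfl
  · intro i hi
    rw [Function.mem_support] at hi
    have hs : y ∈ (g.psi i).source := by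
      by_contra h
      exact hi (indicator_of_notMem h _)
    rw [indicator_of_mem hs] at hi
    rw [Finset.mem_coe, mem_chs, mem_cb_iff]
    refine ⟨hs, ?_⟩
    by_contra h
    exact hi ((g.model (g.mod i)).chi_supp _ (by linarith [(not_le.1 h).le]))

lemma card_chs_le (g : Geom Y V) {N0 : ℕ}
    (hN : ∀ y : Y, {i | y ∈ (g.psi i).symm '' Metric.closedBall 0 2}.ncard ≤ N0) (y : Y) :
    (chs g y).card ≤ N0 := by
  have h1 : {i | y ∈ cb g i}.ncard ≤ N0 := hN y
  rw [Set.ncard_eq_toFinset_card _ (finite_cb g y)] at h1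
  exact h1

lemma patch_norm_le (g : Geom Y V) {N0 : ℕ}
    (hN : ∀ y : Y, {i | y ∈ (g.psi i).symm '' Metric.closedBall 0 2}.ncard ≤ N0)
    (v : g.I → ℝ → E4 → V) (t : ℝ) (hv : ∀ i x, 2 ≤ ‖x‖ → v i t x = 0) {B : ℝ} (hB0 : 0 ≤ B)
    (hB : ∀ i x, ‖v i t x‖ ≤ B) (y : Y) : ‖patch g v t y‖ ≤ N0 * B := by
  rw [patch_eq g v t hv y]
  calc ‖∑ i ∈ chs g y, v i t (g.psi i y)‖ ≤ ∑ i ∈ chs g y, B :=
        norm_sum_le_of_le _ fun i _ => hB i _
    _ = (chs g y).card * B := by rw [Finset.sum_const, nsmul_eq_mul]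
    _ ≤ N0 * B := by
        apply mul_le_mul_of_nonneg_right _ hB0
        exact_mod_cast card_chs_le g hN y

lemma loc_psi {g : Geom Y V} {w : ℝ → Y → V} {i : g.I} {t : ℝ} {y : Y}
    (hs : y ∈ (g.psi i).source) (hy : ‖g.psi i y‖ ≤ 3 / 2) : loc g i w t (g.psi i y) = w t y := by
  simp only [loc]
  rw [etaC_one hy, (g.psi i).left_inv hs, one_smul]

lemma Nice.norm_le {g : Geom Y V} {k : ℕ} {T C : ℝ} {w : ℝ → Y → V} (h : g.Nice k T C w) {t : ℝ}
    (ht : t ∈ Icc 0 T) (y : Y) : ‖w t y‖ ≤ C := by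
  obtain ⟨i, hs, hi⟩ := exists_chart g y
  have h1 := NiceE.norm_le (h i) ht (g.psi i y)
  have h2 : loc g i w t (g.psi i y) = w t y := loc_psi hs (by linarith)
  rw [← h2]
  exact h1

lemma loc_norm_le {g : Geom Y V} {w : ℝ → Y → V} {t : ℝ} {B : ℝ} (hB : ∀ y, ‖w t y‖ ≤ B) (i : g.I)
    (x : E4) : ‖loc g i w t x‖ ≤ B := by
  simp only [loc]
  rw [norm_smul, Real.norm_of_nonneg (etaC_nonneg x)]
  calc etaC x * ‖w t ((g.psi i).symm x)‖ ≤ 1 * ‖w t ((g.psi i).symm x)‖ :=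
        mul_le_mul_of_nonneg_right (etaC_le_one x) (norm_nonneg _)
    _ ≤ B := by rw [one_mul]; exact hB _

/-- Neighbourhood of a set: union of the chart balls meeting it. -/
def nb (g : Geom Y V) (D : Set Y) : Set Y := ⋃ i ∈ {i | (cb g i ∩ D).Nonempty}, cb g i

lemma cb_sub_nb {g : Geom Y V} {D : Set Y} {i : g.I} {y : Y} (hy : y ∈ cb g i) (hD : y ∈ D) :
    cb g i ⊆ nb g D :=
  subset_biUnion_of_mem (u := fun i => cb g i) (show i ∈ {i | (cb g i ∩ D).Nonempty} from ⟨y, hy, hD⟩)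

lemma isCompact_nb {g : Geom Y V} {D : Set Y} (hD : IsCompact D) : IsCompact (nb g D) := by
  refine (LocallyFinite.finite_nonempty_inter_compact (f := fun i => cb g i) g.locfin hD).isCompact_biUnion ?_
  exact fun i _ => isCompact_cb g i

lemma nb_mem_nhds {g : Geom Y V} {D : Set Y} {y : Y} (hy : y ∈ D) : nb g D ∈ 𝓝 y := by
  obtain ⟨i, hs, hi⟩ := exists_chart g y
  have ho : IsOpen ((g.psi i).source ∩ (g.psi i) ⁻¹' Metric.ball 0 1) :=
    (g.psi i).isOpen_inter_preimage Metric.isOpen_ball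
  have hm : y ∈ (g.psi i).source ∩ (g.psi i) ⁻¹' Metric.ball 0 1 := by
    refine ⟨hs, ?_⟩
    simpa [Metric.mem_ball, dist_zero_right] using hi
  refine Filter.mem_of_superset (ho.mem_nhds hm) ?_
  have hc : y ∈ cb g i := mem_cb_iff.2 ⟨hs, by linarith⟩
  refine Subset.trans ?_ (cb_sub_nb hc hy)
  rintro z ⟨hz, hz1⟩
  refine mem_cb_iff.2 ⟨hz, ?_⟩
  have : ‖g.psi i z‖ < 1 := by simpa [Metric.mem_ball, dist_zero_right] using hz1
  linarith

lemma subset_nb (g : Geom Y V) (D : Set Y) : D ⊆ nb g D := fun _ hy => mem_of_mem_nhds (nb_mem_nhds hy)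

lemma isCompact_iter {g : Geom Y V} {D : Set Y} (hD : IsCompact D) (n : ℕ) :
    IsCompact ((nb g)^[n] D) := by
  induction n with
  | zero => exact hD
  | succ n ih =>
    rw [Function.iterate_succ_apply']
    exact isCompact_nb ih

lemma iter_mono (g : Geom Y V) (D : Set Y) {n m : ℕ} (h : n ≤ m) :
    (nb g)^[n] D ⊆ (nb g)^[m] D := by
  have : Monotone fun n => (nb g)^[n] D := by
    refine monotone_nat_of_le_succ fun n => ?_
    rw [Function.iterate_succ_apply']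
    exact subset_nb g _
  exact this h

/-! ## patched operators -/

/-- The patched operator. -/
def OO (g : Geom Y V) (O : g.I → (ℝ → E4 → V) → ℝ → E4 → V) (w : ℝ → Y → V) : ℝ → Y → V :=
  patch g fun i => O i (loc g i w)

lemma OO_congr {g : Geom Y V} {T : ℝ} {O : g.I → (ℝ → E4 → V) → ℝ → E4 → V}
    (hloc : ∀ i w w', (∀ t ∈ Icc 0 T, ∀ x, ‖x‖ ≤ 1 → w t x = w' t x) → ∀ t ∈ Icc 0 T, ∀ x,
      O i w t x = O i w' t x)
    (hsupp : ∀ i w t x, 2 ≤ ‖x‖ → O i w t x = 0) {D : Set Y} {w w' : ℝ → Y → V}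
    (h : ∀ t ∈ Icc 0 T, ∀ y ∈ nb g D, w t y = w' t y) :
    ∀ t ∈ Icc 0 T, ∀ y ∈ D, OO g O w t y = OO g O w' t y := by
  intro t ht y hy
  unfold OO
  rw [patch_eq g _ t (fun i x hx => hsupp i _ t x hx), patch_eq g _ t (fun i x hx => hsupp i _ t x hx)]
  refine Finset.sum_congr rfl fun i hi => ?_
  apply hloc i _ _ _ t ht
  intro s hs x hx
  simp only [loc]
  rw [h s hs]
  apply cb_sub_nb (mem_chs.1 hi) hy
  exact ⟨x, by simpa [Metric.mem_closedBall, dist_zero_right] using (by linarith : ‖x‖ ≤ 2), rfl⟩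

lemma OO_smul {g : Geom Y V} {O : g.I → (ℝ → E4 → V) → ℝ → E4 → V}
    (hsmul : ∀ i (c : ℝ) w t x, O i (fun s y => c • w s y) t x = c • O i w t x)
    (hsupp : ∀ i w t x, 2 ≤ ‖x‖ → O i w t x = 0) (c : ℝ) (w : ℝ → Y → V) (t : ℝ) (y : Y) :
    OO g O (fun s y => c • w s y) t y = c • OO g O w t y := by
  unfold OO
  rw [patch_eq g _ t (fun i x hx => hsupp i _ t x hx), patch_eq g _ t (fun i x hx => hsupp i _ t x hx),
    Finset.smul_sum]
  refine Finset.sum_congr rfl fun i _ => ?_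
  rw [← hsmul]
  congr 1
  ext s x
  simp only [loc]
  rw [smul_comm]

lemma OO_zero {g : Geom Y V} {O : g.I → (ℝ → E4 → V) → ℝ → E4 → V}
    (hsmul : ∀ i (c : ℝ) w t x, O i (fun s y => c • w s y) t x = c • O i w t x)
    (hsupp : ∀ i w t x, 2 ≤ ‖x‖ → O i w t x = 0) (t : ℝ) (y : Y) :
    OO g O (fun _ _ => 0) t y = 0 := by
  have := OO_smul (g := g) hsmul hsupp 0 (fun _ _ => 0) t y
  simpa using this

lemma OO_add {g : Geom Y V} {T : ℝ} {P : ℝ → (ℝ → E4 → V) → Prop}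
    {O : g.I → (ℝ → E4 → V) → ℝ → E4 → V}
    (hadd : ∀ i w w' A, P A w → P A w' → ∀ t ∈ Icc 0 T, ∀ x,
      O i (fun s y => w s y + w' s y) t x = O i w t x + O i w' t x)
    (hsupp : ∀ i w t x, 2 ≤ ‖x‖ → O i w t x = 0) {w w' : ℝ → Y → V} {A : ℝ}
    (hw : ∀ i, P A (loc g i w)) (hw' : ∀ i, P A (loc g i w')) :
    ∀ t ∈ Icc 0 T, ∀ y, OO g O (fun s y => w s y + w' s y) t y = OO g O w t y + OO g O w' t y := by
  intro t ht y
  unfold OO
  rw [patch_eq g _ t (fun i x hx => hsupp i _ t x hx), patch_eq g _ t (fun i x hx => hsupp i _ t x hx),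
    patch_eq g _ t (fun i x hx => hsupp i _ t x hx), ← Finset.sum_add_distrib]
  refine Finset.sum_congr rfl fun i _ => ?_
  rw [← hadd i _ _ A (hw i) (hw' i) t ht]
  congr 1
  ext s x
  simp only [loc]
  rw [smul_add]

end geometry

/-! ## the Neumann series -/

section series

set_option linter.unusedSectionVars false

variable {Y : Type} [TopologicalSpace Y]

/-- All the data of the construction. -/
structure Dat (g : Geom Y V) (k : ℕ) (T : ℝ) where
  hT : 0 < T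
  hk : 2 ≤ k
  K : ℝ
  Q : g.I → (ℝ → E4 → V) → ℝ → E4 → V
  R : g.I → (ℝ → E4 → V) → ℝ → E4 → V
  ops : ∀ i, LocalOps (g.mdl i) k T K (Q i) (R i)
  K0 : 0 ≤ K
  K' : ℝ
  K'0 : 0 ≤ K'
  hK' : ∀ (C : ℝ) (v : g.I → ℝ → E4 → V), 0 ≤ C → (∀ i, NiceE k T C (v i)) →
    (∀ i t x, 2 ≤ ‖x‖ → v i t x = 0) → g.Nice k T (K' * C) (patch g v)
  N0 : ℕ
  hN0 : ∀ y : Y, {i | y ∈ (g.psi i).symm '' Metric.closedBall 0 2}.ncard ≤ N0

variable {g : Geom Y V} {k : ℕ} {T : ℝ}

namespace Dat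

variable (d : Dat g k T)

/-- The error operator. -/
def RR (w : ℝ → Y → V) : ℝ → Y → V := OO g d.R w

/-- The parametrix. -/
def QQ (w : ℝ → Y → V) : ℝ → Y → V := OO g d.Q w

/-- The constant of the exponential series. -/
def M : ℝ := d.N0 * d.K + 1

/-- Terms of the Neumann series. -/
def W (r : ℝ → Y → V) : ℕ → ℝ → Y → V
  | 0 => r
  | n + 1 => fun t y => (-1 : ℝ) • d.RR (W r n) t y

/-- Constants of the Neumann series. -/
def cc : ℕ → ℝ
  | 0 => 1
  | n + 1 => d.K' * (d.K * (d.M ^ n * T ^ (n + 1) / (n + 1).factorial))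

lemma M_one : 1 ≤ d.M := by
  unfold M
  have : 0 ≤ (d.N0 : ℝ) * d.K := mul_nonneg (Nat.cast_nonneg _) d.K0
  linarith

lemma M_nonneg : 0 ≤ d.M := zero_le_one.trans d.M_one

lemma cc_nonneg (n : ℕ) : 0 ≤ d.cc n := by
  cases n with
  | zero => exact zero_le_one
  | succ n =>
    have := d.hT.le
    have := d.K0
    have := d.K'0
    have := d.M_nonneg
    simp only [cc]
    positivity

lemma cc_summable : Summable d.cc := by
  rw [← summable_nat_add_iff 1]
  have h1 : Summable fun n : ℕ => (d.M * T) ^ (n + 1) / (n + 1).factorial :=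
    (summable_nat_add_iff 1).2 (Real.summable_pow_div_factorial (d.M * T))
  have h2 : Summable fun n : ℕ => d.K' * (d.K * ((d.M * T) ^ (n + 1) / (n + 1).factorial)) :=
    (h1.mul_left _).mul_left _
  refine Summable.of_nonneg_of_le (fun n => d.cc_nonneg (n + 1)) (fun n => ?_) h2
  simp only [cc]
  refine mul_le_mul_of_nonneg_left (mul_le_mul_of_nonneg_left ?_ d.K0) d.K'0
  refine div_le_div_of_nonneg_right ?_ (by positivity)
  rw [mul_pow]
  refine mul_le_mul_of_nonneg_right ?_ (pow_nonneg d.hT.le _)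
  exact pow_le_pow_right₀ d.M_one (Nat.le_succ n)

lemma integral_pow_term (C : ℝ) (n : ℕ) (t : ℝ) :
    ∫ σ in (0 : ℝ)..t, C * (d.M * σ) ^ n / n.factorial =
      C * (d.M ^ n * t ^ (n + 1) / (n + 1).factorial) := by
  have h1 : (fun σ : ℝ => C * (d.M * σ) ^ n / n.factorial) =
      fun σ => (C * d.M ^ n / n.factorial) * σ ^ n := by
    ext σ
    rw [mul_pow]
    ring
  rw [h1, intervalIntegral.integral_const_mul, integral_pow]
  rw [Nat.factorial_succ]
  push_cast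
  have h2 : (n.factorial : ℝ) ≠ 0 := by positivity
  have h3 : ((n : ℝ) + 1) ≠ 0 := by positivity
  field_simp
  ring

/-- The main estimate of the error operator. -/
lemma RR_est {w : ℝ → Y → V} {A : ℝ} (hw : g.Nice k T A w) {φ : ℝ → ℝ}
    (hφ : ContinuousOn φ (Icc 0 T)) (hb : ∀ t ∈ Icc 0 T, ∀ y, ‖w t y‖ ≤ φ t) :
    (∀ i, ∀ j ≤ k, ∀ t ∈ Icc 0 T, ∀ x,
      ‖iteratedFDeriv ℝ j (d.R i (loc g i w) t) x‖ ≤ d.K * ∫ σ in (0 : ℝ)..t, φ σ) := by
  intro i j hj t ht x
  exact (d.ops i).Rcausal _ A (NiceE.cbe (hw i)) φ hφ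
    (fun t ht x => loc_norm_le (hb t ht) i x) j hj t ht x

lemma RR_nice {w : ℝ → Y → V} {A B : ℝ} (hw : g.Nice k T A w) {φ : ℝ → ℝ}
    (hφ : ContinuousOn φ (Icc 0 T)) (hb : ∀ t ∈ Icc 0 T, ∀ y, ‖w t y‖ ≤ φ t) (hB0 : 0 ≤ B)
    (hB : ∀ t ∈ Icc 0 T, d.K * ∫ σ in (0 : ℝ)..t, φ σ ≤ B) :
    g.Nice k T (d.K' * B) (d.RR w) := by
  refine d.hK' B _ hB0 (fun i => ?_) (fun i t x hx => (d.ops i).Rsupp _ _ _ hx)
  have h1 := (d.ops i).Rnice _ A (NiceE.cbe (hw i))
  exact ⟨h1.1, h1.2.1, fun j hj t ht x => (d.RR_est hw hφ hb i j hj t ht x).trans (hB t ht)⟩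

lemma RR_norm {w : ℝ → Y → V} {A : ℝ} (hw : g.Nice k T A w) {φ : ℝ → ℝ}
    (hφ : ContinuousOn φ (Icc 0 T)) (hb : ∀ t ∈ Icc 0 T, ∀ y, ‖w t y‖ ≤ φ t) {t : ℝ}
    (ht : t ∈ Icc 0 T) (h0 : 0 ≤ ∫ σ in (0 : ℝ)..t, φ σ) (y : Y) :
    ‖d.RR w t y‖ ≤ d.M * ∫ σ in (0 : ℝ)..t, φ σ := by
  have h1 : ‖d.RR w t y‖ ≤ d.N0 * (d.K * ∫ σ in (0 : ℝ)..t, φ σ) := by
    refine patch_norm_le g d.hN0 _ t (fun i x hx => (d.ops i).Rsupp _ _ _ hx)
      (mul_nonneg d.K0 h0) (fun i x => ?_) y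
    have := d.RR_est hw hφ hb i 0 (Nat.zero_le _) t ht x
    rwa [norm_iteratedFDeriv_zero] at this
  refine h1.trans ?_
  unfold M
  nlinarith

lemma W_est {r : ℝ → Y → V} {C : ℝ} (hC : 0 ≤ C) (hr : g.Nice k T C r) (n : ℕ) :
    g.Nice k T (d.cc n * C) (d.W r n) ∧
      ∀ t ∈ Icc 0 T, ∀ y, ‖d.W r n t y‖ ≤ C * (d.M * t) ^ n / n.factorial := by
  induction n with
  | zero =>
    refine ⟨?_, fun t ht y => ?_⟩
    · simpa [cc, W] using hr
    · simpa [W] using Nice.norm_le hr ht y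
  | succ n ih =>
    have hφ : ContinuousOn (fun t : ℝ => C * (d.M * t) ^ n / n.factorial) (Icc 0 T) := by
      fun_prop
    have hM := d.M_nonneg
    have hTm : ∀ t ∈ Icc 0 T, C * (d.M ^ n * t ^ (n + 1) / (n + 1).factorial) ≤
        C * (d.M ^ n * T ^ (n + 1) / (n + 1).factorial) := by
      intro t ht
      have : t ^ (n + 1) ≤ T ^ (n + 1) := pow_le_pow_left₀ ht.1 ht.2 _
      gcongr
    constructor
    · have h1 := d.RR_nice (B := d.K * (C * (d.M ^ n * T ^ (n + 1) / (n + 1).factorial)))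
        ih.1 hφ ih.2 (by have := d.K0; have := d.hT.le; positivity) (by
          intro t ht
          rw [integral_pow_term]
          exact mul_le_mul_of_nonneg_left (hTm t ht) d.K0)
      have h2 : d.K' * (d.K * (C * (d.M ^ n * T ^ (n + 1) / (n + 1).factorial))) =
          d.cc (n + 1) * C := by
        simp only [cc]
        ring
      rw [h2] at h1
      intro i
      have h3 := h1 i
      have h4 : (fun t x => etaC x • d.W r (n + 1) t ((g.psi i).symm x)) =
          fun t x => -(etaC x • d.RR (d.W r n) t ((g.psi i).symm x)) := by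
        ext t x
        simp [W]
      rw [h4]
      refine ⟨fun t ht => (h3.1 t ht).neg, fun j hj => ?_, fun j hj t ht x => ?_⟩
      · refine (h3.2.1 j hj).neg.congr ?_
        rintro ⟨t, x⟩ -
        exact iteratedFDeriv_neg_apply
      · have h5 := h3.2.2 j hj t ht x
        rw [← norm_neg] at h5
        have h6 : iteratedFDeriv ℝ j (fun x => -(etaC x • d.RR (d.W r n) t ((g.psi i).symm x))) x =
          -iteratedFDeriv ℝ j (fun x => etaC x • d.RR (d.W r n) t ((g.psi i).symm x)) x :=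
          iteratedFDeriv_neg_apply
        rw [h6]
        exact h5
    · intro t ht y
      have h1 := d.RR_norm ih.1 hφ ih.2 ht (by
        rw [integral_pow_term]
        have := ht.1
        positivity) y
      rw [integral_pow_term] at h1
      simp only [W, norm_smul, norm_neg, norm_one, one_mul]
      refine h1.trans (le_of_eq ?_)
      rw [mul_pow]
      ring

lemma W_summable {r : ℝ → Y → V} {C : ℝ} (hC : 0 ≤ C) (hr : g.Nice k T C r) {t : ℝ}
    (ht : t ∈ Icc 0 T) (y : Y) (m : ℕ) : Summable fun n => d.W r (n + m) t y := by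
  have : CompleteSpace V := FiniteDimensional.complete ℝ V
  refine Summable.of_norm_bounded (g := fun n => d.cc (n + m) * C)
    (((summable_nat_add_iff m).2 d.cc_summable).mul_right C) fun n => ?_
  exact Nice.norm_le (d.W_est hC hr (n + m)).1 ht y

/-- Tails of the Neumann series. -/
def ser (r : ℝ → Y → V) (m : ℕ) : ℝ → Y → V := fun t y => ∑' n, d.W r (n + m) t y

/-- Tails of the constants. -/
def tl (m : ℕ) : ℝ := ∑' n, d.cc (n + m)

lemma tl_nonneg (m : ℕ) : 0 ≤ d.tl m := tsum_nonneg fun _ => d.cc_nonneg _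

lemma tl_tendsto : Filter.Tendsto d.tl Filter.atTop (𝓝 0) := tendsto_sum_nat_add d.cc

lemma ser_nice {r : ℝ → Y → V} {C : ℝ} (hC : 0 ≤ C) (hr : g.Nice k T C r) (m : ℕ) :
    g.Nice k T (d.tl m * C) (d.ser r m) := by
  have : CompleteSpace V := FiniteDimensional.complete ℝ V
  intro i
  have h1 := NiceE.tsum' (k := k) (T := T) (c := fun n => d.cc (n + m) * C)
    (u := fun n t x => etaC x • d.W r (n + m) t ((g.psi i).symm x))
    (fun n => (d.W_est hC hr (n + m)).1 i)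
    (((summable_nat_add_iff m).2 d.cc_summable).mul_right C)
  rw [tsum_mul_right] at h1
  refine NiceE.congr h1 fun t ht x => ?_
  rw [(d.W_summable hC hr ht _ m).tsum_const_smul]
  rfl

lemma ser_step {r : ℝ → Y → V} {C : ℝ} (hC : 0 ≤ C) (hr : g.Nice k T C r) (m : ℕ) {t : ℝ}
    (ht : t ∈ Icc 0 T) (y : Y) : d.ser r m t y = d.W r m t y + d.ser r (m + 1) t y := by
  simp only [ser]
  rw [(d.W_summable hC hr ht y m).tsum_eq_zero_add]
  congr 1
  · simp
  · refine tsum_congr fun n => ?_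
    rw [add_right_comm, add_assoc]

lemma RR_congr {w w' : ℝ → Y → V} {D : Set Y} (h : ∀ t ∈ Icc 0 T, ∀ y ∈ nb g D, w t y = w' t y) :
    ∀ t ∈ Icc 0 T, ∀ y ∈ D, d.RR w t y = d.RR w' t y :=
  OO_congr (fun i => (d.ops i).Rlocal) (fun i => (d.ops i).Rsupp) h

lemma QQ_congr {w w' : ℝ → Y → V} {D : Set Y} (h : ∀ t ∈ Icc 0 T, ∀ y ∈ nb g D, w t y = w' t y) :
    ∀ t ∈ Icc 0 T, ∀ y ∈ D, d.QQ w t y = d.QQ w' t y :=
  OO_congr (fun i => (d.ops i).Qlocal) (fun i => (d.ops i).Qsupp) h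

lemma RR_zero {w : ℝ → Y → V} {D : Set Y} (h : ∀ t ∈ Icc 0 T, ∀ y ∈ nb g D, w t y = 0) :
    ∀ t ∈ Icc 0 T, ∀ y ∈ D, d.RR w t y = 0 := by
  intro t ht y hy
  rw [d.RR_congr (w' := fun _ _ => 0) h t ht y hy]
  exact OO_zero (fun i => (d.ops i).Rsmul) (fun i => (d.ops i).Rsupp) t y

lemma RR_ser {r : ℝ → Y → V} {C : ℝ} (hC : 0 ≤ C) (hr : g.Nice k T C r) (m : ℕ) {t : ℝ}
    (ht : t ∈ Icc 0 T) (y : Y) :
    d.RR (d.ser r 0) t y = ∑ n ∈ Finset.range m, d.RR (d.W r n) t y + d.RR (d.ser r m) t y := by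
  induction m with
  | zero => simp
  | succ m ih =>
    rw [ih, Finset.sum_range_succ, add_assoc]
    congr 1
    rw [d.RR_congr (D := univ) (w' := fun s z => d.W r m s z + d.ser r (m + 1) s z)
      (fun s hs z _ => d.ser_step hC hr m hs z) t ht y (mem_univ y)]
    refine OO_add (P := fun A w => CBE T A w) (T := T) (fun i => (d.ops i).Radd)
      (fun i => (d.ops i).Rsupp) (A := d.cc m * C + d.tl (m + 1) * C) (fun i => ?_) (fun i => ?_)
      t ht y
    · exact NiceE.cbe (NiceE.mono ((d.W_est hC hr m).1 i)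
        (le_add_of_nonneg_right (mul_nonneg (d.tl_nonneg _) hC)))
    · exact NiceE.cbe (NiceE.mono (d.ser_nice hC hr (m + 1) i)
        (le_add_of_nonneg_left (mul_nonneg (d.cc_nonneg _) hC)))

lemma RR_const {w : ℝ → Y → V} {A : ℝ} (hA : 0 ≤ A) (hw : g.Nice k T A w) {t : ℝ}
    (ht : t ∈ Icc 0 T) (y : Y) : ‖d.RR w t y‖ ≤ d.M * (T * A) := by
  have h1 := d.RR_norm hw (φ := fun _ => A) continuousOn_const
    (fun s hs z => Nice.norm_le hw hs z) ht (by
      rw [intervalIntegral.integral_const, smul_eq_mul]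
      have := ht.1
      rw [sub_zero]
      positivity) y
  rw [intervalIntegral.integral_const, smul_eq_mul, sub_zero] at h1
  exact h1.trans (mul_le_mul_of_nonneg_left (mul_le_mul_of_nonneg_right ht.2 hA) d.M_nonneg)

/-- The integral equation. -/
lemma ser_eq {r : ℝ → Y → V} {C : ℝ} (hC : 0 ≤ C) (hr : g.Nice k T C r) {t : ℝ}
    (ht : t ∈ Icc 0 T) (y : Y) : d.ser r 0 t y + d.RR (d.ser r 0) t y = r t y := by
  have h1 : Filter.Tendsto (fun m => d.RR (d.ser r m) t y) Filter.atTop (𝓝 0) := by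
    have h2 : Filter.Tendsto (fun m => d.M * (T * (d.tl m * C))) Filter.atTop (𝓝 0) := by
      have := ((d.tl_tendsto.mul_const C).const_mul T).const_mul d.M
      simpa using this
    refine squeeze_zero_norm (fun m => ?_) h2
    exact d.RR_const (mul_nonneg (d.tl_nonneg m) hC) (d.ser_nice hC hr m) ht y
  have h3 : Filter.Tendsto (fun m => ∑ n ∈ Finset.range m, d.RR (d.W r n) t y) Filter.atTop
      (𝓝 (d.RR (d.ser r 0) t y)) := by
    have h4 : (fun m => ∑ n ∈ Finset.range m, d.RR (d.W r n) t y) =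
        fun m => d.RR (d.ser r 0) t y - d.RR (d.ser r m) t y := by
      ext m
      rw [d.RR_ser hC hr m ht y]
      abel
    rw [h4]
    simpa using (tendsto_const_nhds (x := d.RR (d.ser r 0) t y)).sub h1
  have h5 : Filter.Tendsto (fun m => ∑ n ∈ Finset.range m, d.RR (d.W r n) t y) Filter.atTop
      (𝓝 (-d.ser r 1 t y)) := by
    have h6 := (d.W_summable hC hr ht y 1).hasSum.tendsto_sum_nat.neg
    refine h6.congr fun m => ?_
    rw [← Finset.sum_neg_distrib]
    refine Finset.sum_congr rfl fun n _ => ?_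
    simp [W]
  rw [tendsto_nhds_unique h3 h5, d.ser_step hC hr 0 ht y]
  simp [W]

lemma QQ_nice {w : ℝ → Y → V} {A : ℝ} (hA : 0 ≤ A) (hw : g.Nice k T A w) :
    g.Nice k T (d.K' * (d.K * A)) (d.QQ w) :=
  d.hK' _ _ (mul_nonneg d.K0 hA) (fun i => (d.ops i).Qnice _ A (hw i))
    (fun i _ _ hx => (d.ops i).Qsupp _ _ _ hx)

lemma W_zero {r : ℝ → Y → V} (n : ℕ) : ∀ D : Set Y,
    (∀ t ∈ Icc 0 T, ∀ y ∈ (nb g)^[n] D, r t y = 0) → ∀ t ∈ Icc 0 T, ∀ y ∈ D, d.W r n t y = 0 := by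
  induction n with
  | zero => exact fun D h => h
  | succ n ih =>
    intro D h t ht y hy
    have h1 := ih (nb g D) (by
      intro t ht y hy
      exact h t ht y (by rwa [Function.iterate_succ_apply]))
    simp only [W]
    rw [d.RR_zero h1 t ht y hy, smul_zero]

lemma ser_tail {r : ℝ → Y → V} {C : ℝ} (hC : 0 ≤ C) (hr : g.Nice k T C r) (D : Set Y) (m : ℕ)
    (h : ∀ t ∈ Icc 0 T, ∀ y ∈ (nb g)^[m] D, r t y = 0) :
    ∀ t ∈ Icc 0 T, ∀ y ∈ D, d.ser r 0 t y = d.ser r m t y := by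
  intro t ht y hy
  induction m with
  | zero => rfl
  | succ m ih =>
    have h1 : ∀ t ∈ Icc 0 T, ∀ y ∈ (nb g)^[m] D, r t y = 0 := fun t ht y hy =>
      h t ht y (iter_mono g D (Nat.le_succ m) hy)
    rw [ih h1, d.ser_step hC hr m ht y, d.W_zero m D h1 t ht y hy, zero_add]

end Dat

end series

/-! ## operators of the models -/

section ops

omit [FiniteDimensional ℝ V]

lemma pd_congr {u u' : E4 → V} {x : E4} (h : u =ᶠ[𝓝 x] u') (i : Fin 4) : pd i u x = pd i u' x := by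
  simp only [pd, h.fderiv_eq]

lemma pd_eventually {u u' : E4 → V} {x : E4} (h : u =ᶠ[𝓝 x] u') (i : Fin 4) :
    pd i u =ᶠ[𝓝 x] pd i u' := by
  filter_upwards [h.fderiv (𝕜 := ℝ)] with y hy
  simp only [pd, hy]

lemma op_congr (m : Model V) (t : ℝ) {u u' : E4 → V} {x : E4} (h : u =ᶠ[𝓝 x] u') :
    m.op t u x = m.op t u' x := by
  simp only [Model.op, pd_congr h, pd_congr (pd_eventually h _), h.eq_of_nhds]

lemma diff_pd {u : E4 → V} {x : E4} (h : ContDiffAt ℝ 2 u x) (j : Fin 4) :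
    DifferentiableAt ℝ (pd j u) x := by
  have h1 : ContDiffAt ℝ 1 (fderiv ℝ u) x := h.fderiv_right (by norm_num)
  have h2 : DifferentiableAt ℝ (fderiv ℝ u) x := h1.differentiableAt (by norm_num)
  show DifferentiableAt ℝ (fun z => fderiv ℝ u z (bv j)) x
  exact h2.clm_apply (differentiableAt_const (bv j))

lemma op_sum (m : Model V) (t : ℝ) {ι : Type} (F : Finset ι) (u : ι → E4 → V) (x : E4)
    (h : ∀ s ∈ F, ContDiffAt ℝ 2 (u s) x) :
    m.op t (fun z => ∑ s ∈ F, u s z) x = ∑ s ∈ F, m.op t (u s) x := by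
  have h1 : ∀ i, pd i (fun z => ∑ s ∈ F, u s z) =ᶠ[𝓝 x] fun z => ∑ s ∈ F, pd i (u s) z := by
    intro i
    have h2 : ∀ᶠ z in 𝓝 x, ∀ s ∈ F, ContDiffAt ℝ 2 (u s) z := by
      rw [Filter.eventually_all_finset]
      exact fun s hs => (h s hs).eventually (by norm_num)
    filter_upwards [h2] with z hz
    simp only [pd]
    rw [fderiv_fun_sum fun s hs => (hz s hs).differentiableAt (by norm_num)]
    simp
  have h3 : ∀ i j, pd i (pd j fun z => ∑ s ∈ F, u s z) x = ∑ s ∈ F, pd i (pd j (u s)) x := by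
    intro i j
    rw [pd_congr (h1 j)]
    show fderiv ℝ (fun z => ∑ s ∈ F, pd j (u s) z) x (bv i) = _
    rw [fderiv_fun_sum fun s hs => diff_pd (h s hs) j]
    simp [pd]
  simp only [Model.op]
  simp only [h3, (h1 _).eq_of_nhds, map_sum, Finset.smul_sum]
  rw [Finset.sum_add_distrib, Finset.sum_add_distrib, Finset.sum_neg_distrib]
  congr 2
  · congr 1
    conv_rhs => rw [Finset.sum_comm]
    refine Finset.sum_congr rfl fun i _ => ?_
    rw [Finset.sum_comm]
  · rw [Finset.sum_comm]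

lemma pd2_eq {u : E4 → V} {x : E4} (h : ContDiffAt ℝ 2 u x) (i j : Fin 4) :
    pd i (pd j u) x = iteratedFDeriv ℝ 2 u x ![bv i, bv j] := by
  rw [iteratedFDeriv_two_apply]
  have h1 : ContDiffAt ℝ 1 (fderiv ℝ u) x := h.fderiv_right (by norm_num)
  have h2 : DifferentiableAt ℝ (fderiv ℝ u) x := h1.differentiableAt (by norm_num)
  have h3 := (h2.hasFDerivAt.clm_apply (hasFDerivAt_const (bv j) x)).fderiv
  show fderiv ℝ (fun y => fderiv ℝ u y (bv j)) x (bv i) = _
  rw [h3]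
  simp

lemma op_cont (m : Model V) {k : ℕ} (hk : 2 ≤ k) {T C : ℝ} {u : ℝ → E4 → V}
    (h : NiceE k T C u) (x : E4) : ContinuousOn (fun t => m.op t (u t) x) (Icc 0 T) := by
  have h0 : ∀ j ≤ k, ContinuousOn (fun t => iteratedFDeriv ℝ j (u t) x) (Icc 0 T) := by
    intro j hj
    exact (h.2.1 j hj).comp (f := fun t : ℝ => (t, x)) (by fun_prop) (fun t ht => ⟨ht, mem_univ _⟩)
  have h1 : ∀ i, ContinuousOn (fun t => pd i (u t) x) (Icc 0 T) := by
    intro i
    have h2 : ContinuousOn (fun t => iteratedFDeriv ℝ 1 (u t) x ![bv i]) (Icc 0 T) :=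
      (ContinuousMultilinearMap.apply ℝ (fun _ : Fin 1 => E4) V ![bv i]).continuous.comp_continuousOn
        (h0 1 (by omega))
    refine h2.congr fun t ht => ?_
    simp [iteratedFDeriv_one_apply, pd]
  have h2 : ∀ i j, ContinuousOn (fun t => pd i (pd j (u t)) x) (Icc 0 T) := by
    intro i j
    have h2 : ContinuousOn (fun t => iteratedFDeriv ℝ 2 (u t) x ![bv i, bv j]) (Icc 0 T) :=
      (ContinuousMultilinearMap.apply ℝ (fun _ : Fin 2 => E4) V
        ![bv i, bv j]).continuous.comp_continuousOn (h0 2 hk)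
    refine h2.congr fun t ht => ?_
    exact pd2_eq ((h.1 t ht).contDiffAt.of_le (by exact_mod_cast hk)) i j
  have h3 : ContinuousOn (fun t => u t x) (Icc 0 T) :=
    (NiceE.continuousOn h).comp (f := fun t : ℝ => (t, x)) (by fun_prop)
      (fun t ht => ⟨ht, mem_univ _⟩)
  have ha : ∀ i j, ContinuousOn (fun t => m.a (t, x) i j) (Icc 0 T) := fun i j =>
    ((m.a_smooth i j).continuous.comp (f := fun t : ℝ => (t, x)) (by fun_prop)).continuousOn
  have hb : ∀ i, ContinuousOn (fun t => m.b (t, x) i) (Icc 0 T) := fun i =>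
    ((m.b_smooth i).continuous.comp (f := fun t : ℝ => (t, x)) (by fun_prop)).continuousOn
  have hc : ContinuousOn (fun t => m.c (t, x)) (Icc 0 T) :=
    (m.c_smooth.continuous.comp (f := fun t : ℝ => (t, x)) (by fun_prop)).continuousOn
  unfold Model.op
  refine ContinuousOn.add (ContinuousOn.add (ContinuousOn.neg ?_) ?_) ?_
  · exact continuousOn_finsetSum _ fun i _ => continuousOn_finsetSum _ fun j _ =>
      (ha i j).smul (h2 i j)
  · exact continuousOn_finsetSum _ fun i _ => (hb i).clm_apply (h1 i)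
  · exact hc.clm_apply h3

end ops

/-! ## the equation -/

section solve

variable {Y : Type} [TopologicalSpace Y] [T2Space Y] {g : Geom Y V} {k : ℕ} {T : ℝ}

omit [FiniteDimensional ℝ V] in
lemma chs_nhds (g : Geom Y V) (y : Y) :
    ∀ᶠ z in 𝓝 y, chs g z ⊆ chs g y ∧ ∀ i ∈ chs g y, z ∈ (g.psi i).source := by
  have h1 := LocallyFinite.iInter_compl_mem_nhds (f := fun i => cb g i) g.locfin
    (fun i => (isCompact_cb g i).isClosed) y
  have h2 : ∀ᶠ z in 𝓝 y, ∀ i ∈ chs g y, z ∈ (g.psi i).source := by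
    rw [Filter.eventually_all_finset]
    exact fun i hi => (g.psi i).open_source.mem_nhds (mem_cb_iff.1 (mem_chs.1 hi)).1
  filter_upwards [h1, h2] with z hz1 hz2
  refine ⟨fun i hi => ?_, hz2⟩
  rw [mem_chs] at hi ⊢
  by_contra hn
  simp only [mem_iInter] at hz1
  exact hz1 i hn hi

namespace Dat

variable (d : Dat g k T)

omit [FiniteDimensional ℝ V] in
lemma QQ_germ (w : ℝ → Y → V) (i : g.I) (τ : ℝ) {x : E4} (hx : ‖x‖ < 3 / 2) :
    (fun z => d.QQ w τ ((g.psi i).symm z)) =ᶠ[𝓝 x] fun z => ∑ i' ∈ chs g ((g.psi i).symm x),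
      d.Q i' (loc g i' w) τ (g.psi i' ((g.psi i).symm z)) := by
  have hx3 : x ∈ (g.psi i).target := ball_sub (by linarith)
  have h1 := ((g.psi i).continuousAt_symm hx3).eventually (chs_nhds g ((g.psi i).symm x))
  filter_upwards [h1] with z hz
  exact patch_eq' g _ τ (fun i x hx => (d.ops i).Qsupp _ _ _ hx) _ _ hz.1 hz.2

omit [FiniteDimensional ℝ V] in
lemma op_QQ {w : ℝ → Y → V} {A : ℝ} (hw : g.Nice k T A w) (i : g.I) {τ : ℝ} (hτ : τ ∈ Icc 0 T)
    {x : E4} (hx : ‖x‖ < 3 / 2) :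
    (g.mdl i).op τ (fun z => d.QQ w τ ((g.psi i).symm z)) x =
      ∑ i' ∈ chs g ((g.psi i).symm x),
        (g.mdl i').op τ (d.Q i' (loc g i' w) τ) (g.psi i' ((g.psi i).symm x)) := by
  have hx3 : x ∈ (g.psi i).target := ball_sub (by linarith)
  have hu : ∀ i' z, ContDiffAt ℝ 2 (d.Q i' (loc g i' w) τ) z := fun i' z =>
    ((((d.ops i').Qnice _ A (hw i')).1 τ hτ).contDiffAt).of_le (by exact_mod_cast d.hk)
  rw [op_congr _ _ (d.QQ_germ w i τ hx), op_sum]
  · refine Finset.sum_congr rfl fun i' hi' => ?_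
    have hi2 := mem_cb_iff.1 (mem_chs.1 hi')
    refine g.compat i i' x (d.Q i' (loc g i' w) τ) τ ?_ ?_ (hu i' _)
    · rw [Metric.mem_ball, dist_zero_right]
      linarith
    · refine ⟨g.psi i' ((g.psi i).symm x), ?_, (g.psi i').left_inv hi2.1⟩
      rw [Metric.mem_ball, dist_zero_right]
      linarith [hi2.2]
  · intro i' hi'
    have hi2 := mem_cb_iff.1 (mem_chs.1 hi')
    have hs : x ∈ ((g.psi i).symm.trans (g.psi i')).source := by
      rw [OpenPartialHomeomorph.trans_source]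
      exact ⟨hx3, hi2.1⟩
    have h1 : ContDiffAt ℝ 2 ((g.psi i).symm.trans (g.psi i')) x :=
      (((g.trans_smooth i i').contDiffAt
        (((g.psi i).symm.trans (g.psi i')).open_source.mem_nhds hs))).of_le (WithTop.coe_le_coe.2 le_top :
          ((2 : ℕ∞) : WithTop ℕ∞) ≤ ((⊤ : ℕ∞) : WithTop ℕ∞))
    exact (hu i' _).comp x h1

omit [FiniteDimensional ℝ V] in
lemma solves {w r : ℝ → Y → V} {A : ℝ} (hw : g.Nice k T A w)
    (he : ∀ t ∈ Icc 0 T, ∀ y, w t y + d.RR w t y = r t y) : g.Solves T r (d.QQ w) := by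
  intro i t ht x hx
  set y := (g.psi i).symm x with hy
  have h1 : d.QQ w t y = ∑ i' ∈ chs g y, ∫ τ in (0 : ℝ)..t,
      ((g.mdl i').chi (g.psi i' y) • loc g i' w τ (g.psi i' y) -
        (g.mdl i').op τ (d.Q i' (loc g i' w) τ) (g.psi i' y) +
        d.R i' (loc g i' w) τ (g.psi i' y)) := by
    unfold QQ OO
    rw [patch_eq g _ t (fun i x hx => (d.ops i).Qsupp _ _ _ hx)]
    refine Finset.sum_congr rfl fun i' _ => ?_
    exact (d.ops i').pde _ A (hw i') t ht _
  rw [h1, ← intervalIntegral.integral_finsetSum]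
  · refine intervalIntegral.integral_congr fun τ hτ => ?_
    rw [uIcc_of_le ht.1] at hτ
    have hτ' : τ ∈ Icc 0 T := ⟨hτ.1, hτ.2.trans ht.2⟩
    show ∑ i' ∈ chs g y, ((g.mdl i').chi (g.psi i' y) • loc g i' w τ (g.psi i' y) -
        (g.mdl i').op τ (d.Q i' (loc g i' w) τ) (g.psi i' y) +
        d.R i' (loc g i' w) τ (g.psi i' y)) =
      r τ y - (g.mdl i).op τ (fun z => d.QQ w τ ((g.psi i).symm z)) x
    rw [Finset.sum_add_distrib, Finset.sum_sub_distrib, ← he τ hτ' y, d.op_QQ hw i hτ' hx]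
    have h2 : ∑ i' ∈ chs g y, (g.mdl i').chi (g.psi i' y) • loc g i' w τ (g.psi i' y) = w τ y := by
      have h3 : ∀ i' ∈ chs g y, (g.mdl i').chi (g.psi i' y) • loc g i' w τ (g.psi i' y) =
          (g.mdl i').chi (g.psi i' y) • w τ y := by
        intro i' hi'
        by_cases h4 : ‖g.psi i' y‖ < 1
        · rw [loc_psi (mem_cb_iff.1 (mem_chs.1 hi')).1 (by linarith)]
        · rw [(g.mdl i').chi_supp _ (not_lt.1 h4), zero_smul, zero_smul]
      rw [Finset.sum_congr rfl h3, ← Finset.sum_smul, sum_chi, one_smul]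
    have h5 : ∑ i' ∈ chs g y, d.R i' (loc g i' w) τ (g.psi i' y) = d.RR w τ y := by
      unfold RR OO
      rw [patch_eq g _ τ (fun i x hx => (d.ops i).Rsupp _ _ _ hx)]
    rw [h2, h5]
    abel
  · intro i' _
    apply ContinuousOn.intervalIntegrable
    rw [uIcc_of_le ht.1]
    have hsub : Icc 0 t ⊆ Icc 0 T := Icc_subset_Icc_right ht.2
    refine ContinuousOn.mono ?_ hsub
    have hc1 : ∀ z, ContinuousOn (fun τ => loc g i' w τ z) (Icc 0 T) := fun z =>
      (NiceE.continuousOn (hw i')).comp (f := fun t : ℝ => (t, z)) (by fun_prop)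
        (fun t ht => ⟨ht, mem_univ _⟩)
    have hc2 : ∀ z, ContinuousOn (fun τ => d.R i' (loc g i' w) τ z) (Icc 0 T) := fun z =>
      (NiceE.continuousOn ((d.ops i').Rnice _ A (NiceE.cbe (hw i')))).comp
        (f := fun t : ℝ => (t, z)) (by fun_prop) (fun t ht => ⟨ht, mem_univ _⟩)
    exact (((hc1 _).const_smul _).sub
      (op_cont (g.mdl i') d.hk ((d.ops i').Qnice _ A (hw i')) _)).add (hc2 _)

end Dat

omit [FiniteDimensional ℝ V] in
lemma LocalOps.mono {m : Model V} {K K' : ℝ} {Q R : (ℝ → E4 → V) → ℝ → E4 → V}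
    (h : LocalOps m k T K Q R) (hK : K ≤ K') (hT : 0 < T) : LocalOps m k T K' Q R where
  nonneg := h.nonneg.trans hK
  Rnice := fun w A hw => NiceE.mono (h.Rnice w A hw) (mul_le_mul_of_nonneg_right hK
    ((norm_nonneg _).trans (hw.2 0 (left_mem_Icc.2 hT.le) 0)))
  Rcausal := by
    intro w A hw φ hφ hb j hj t ht x
    refine (h.Rcausal w A hw φ hφ hb j hj t ht x).trans (mul_le_mul_of_nonneg_right hK ?_)
    refine intervalIntegral.integral_nonneg ht.1 fun s hs => ?_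
    exact (norm_nonneg _).trans (hb s ⟨hs.1, hs.2.trans ht.2⟩ 0)
  Radd := h.Radd
  Rsmul := h.Rsmul
  Rlocal := h.Rlocal
  Rsupp := h.Rsupp
  Qnice := fun w A hw => NiceE.mono (h.Qnice w A hw) (mul_le_mul_of_nonneg_right hK
    (NiceE.nonneg hw hT))
  Qadd := h.Qadd
  Qsmul := h.Qsmul
  Qlocal := h.Qlocal
  Qsupp := h.Qsupp
  pde := h.pde

lemma exists_dat (h7 : claimLocal) (h8 : claimPatch) (g : Geom Y V) (hk : 2 ≤ k) (hT : 0 < T) :
    Nonempty (Dat g k T) := by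
  obtain ⟨N0, hN0⟩ := g.mult
  obtain ⟨K', hK'0, hK'⟩ := h8 Y V g k T
  have hex : ∀ j : g.J, ∃ (K : ℝ) (Q R : (ℝ → E4 → V) → ℝ → E4 → V),
      LocalOps (g.model j) k T K Q R := fun j => h7 V (g.model j) k T hk hT
  choose KK QJ RJ hJ using hex
  have := g.finJ
  obtain ⟨K, hK⟩ := (Set.finite_range KK).bddAbove
  exact ⟨{
    hT := hT
    hk := hk
    K := max K 0
    Q := fun i => QJ (g.mod i)
    R := fun i => RJ (g.mod i)
    ops := fun i => LocalOps.mono (hJ (g.mod i)) ((hK ⟨_, rfl⟩).trans (le_max_left _ _)) hT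
    K0 := le_max_right _ _
    K' := K'
    K'0 := hK'0
    hK' := hK'
    N0 := N0
    hN0 := hN0 }⟩

end solve

end C9

open C9 in
theorem claimDuhamel_proof (h7 : claimLocal) (h8 : claimPatch) : claimDuhamel := by
  intro Y _ _ V _ _ _ g k T hk hT
  obtain ⟨d⟩ := exists_dat h7 h8 g hk hT
  refine ⟨fun r => d.QQ (d.ser r 0), d.K' * (d.K * d.tl 0), ?_, ?_, ?_⟩
  · exact mul_nonneg d.K'0 (mul_nonneg d.K0 (d.tl_nonneg 0))
  · intro r C hr
    refine ⟨fun i => ?_, fun i => ?_⟩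
    · have hC := NiceE.nonneg (hr i) hT
      have h1 := d.QQ_nice (mul_nonneg (d.tl_nonneg 0) hC) (d.ser_nice hC hr 0) i
      refine NiceE.mono h1 (le_of_eq ?_)
      ring
    · have hC := NiceE.nonneg (hr i) hT
      exact d.solves (d.ser_nice hC hr 0) (fun t ht y => d.ser_eq hC hr ht y) i
  · intro D hD δ hδ C
    have h2 : Filter.Tendsto (fun m => d.K' * (d.K * (d.tl m * C))) Filter.atTop (𝓝 0) := by
      have := ((d.tl_tendsto.mul_const C).const_mul d.K).const_mul d.K'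
      simpa using this
    obtain ⟨m, hm⟩ := ((tendsto_order.1 h2).2 δ hδ).exists
    have hc : IsCompact (nb g (nb g D)) := isCompact_nb (g := g) (isCompact_nb (g := g) hD)
    refine ⟨(nb g)^[m] (nb g (nb g D)), isCompact_iter (g := g) hc m, ?_⟩
    intro r hr hz i t ht x hx hxD j hj
    have hC := NiceE.nonneg (hr i) hT
    have h3 : ∀ t ∈ Icc 0 T, ∀ y ∈ nb g D, d.QQ (d.ser r 0) t y = d.QQ (d.ser r m) t y :=
      d.QQ_congr (d.ser_tail hC hr _ m hz)
    have hx3 : x ∈ (g.psi i).target := ball_sub (by linarith)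
    have h4 : (fun z => d.QQ (d.ser r 0) t ((g.psi i).symm z)) =ᶠ[𝓝 x]
        fun z => etaC z • d.QQ (d.ser r m) t ((g.psi i).symm z) := by
      have h5 := ((g.psi i).continuousAt_symm hx3).eventually (nb_mem_nhds (g := g) hxD)
      have h6 : ∀ᶠ z in 𝓝 x, ‖z‖ < 3 / 2 := (isOpen_lt continuous_norm continuous_const).mem_nhds hx
      filter_upwards [h5, h6] with z hz5 hz6
      rw [h3 t ht _ hz5, etaC_one hz6.le, one_smul]
    rw [(h4.iteratedFDeriv ℝ j).eq_of_nhds]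
    exact ((d.QQ_nice (mul_nonneg (d.tl_nonneg m) hC) (d.ser_nice hC hr m) i).2.2 j hj t ht x).trans
      hm.le

end NRF
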