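import Pool.Agent.Work.MP_7f974f_gt.Stmts_C
import Pool.Agent.Work.MP_7f974f_gt.Bd.B08
import Pool.Agent.Work.MP_7f974f_gt.Stmts_B

/-!
# Module G: the gradient estimate on the universal covering (statements)
-/

open scoped Manifold ContDiff Topology
open MeasureTheory Set

noncomputable section

namespace NRF

/-! ## G0. Bochner inequality along the flow, pointwise version -/

/-- G0: evolution inequality for `|∇u|²` at one point; `u t` is `C³` in space and the first space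
derivatives are differentiable in time. -/
def claimLF3p : Prop :=
  ∀ (Ω : Set (ℝ × E4)) (G : ℝ → E4 → Matrix (Fin 4) (Fin 4) ℝ) (c : ℝ → ℝ) (u : ℝ → E4 → ℝ)
    (t : ℝ) (x : E4) (S : Set ℝ), FlowOn Ω G c → (t, x) ∈ Ω → ContDiffAt ℝ 3 (u t) x →
    (∀ i, HasDerivWithinAt (fun s => pd i (u s) x) (pd i (laplC (G t) (u t)) x) S t) →
    ∃ d, HasDerivWithinAt (fun s => gradSqC (G s) (u s) x) d S t ∧
      d ≤ laplC (G t) (gradSqC (G t) (u t)) x - c t * gradSqC (G t) (u t) x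

/-! ## G1. Bounded geometry on the universal covering -/

/-- A bounded geometry on the universal covering, made of the lifts of finitely many charts of `X`,
for the operator `-Δ_{h(t)}`. -/
structure GeomCov {X : Type} [TopologicalSpace X] [ChartedSpace E4 X] (U : UCover X)
    (h : ℝ → Metric X) where
  γ : Geom U.Y ℝ
  n : ℕ
  idx : γ.I ≃ U.G × Fin (n + 1)
  base : Fin (n + 1) → OpenPartialHomeomorph X E4
  base_mem : ∀ j, base j ∈ SmCh X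
  c0 : ∀ i q, (γ.mdl i).c q = 0
  lift : ∀ i, ∀ y ∈ (γ.psi i).source, U.p y ∈ (base (idx i).2).source ∧
    γ.psi i y = base (idx i).2 (U.p y)
  tgt : ∀ i, (γ.psi i).target = (base (idx i).2).target
  mod_eq : ∀ a b j, γ.mod (idx.symm (a, j)) = γ.mod (idx.symm (b, j))
  act : ∀ (a b : U.G) j, ∀ x ∈ (base j).target,
    (γ.psi (idx.symm (a * b, j))).symm x = a • (γ.psi (idx.symm (b, j))).symm x
  op : ∀ i t, ∀ x ∈ Metric.ball (0 : E4) (5 / 2), ∀ u : E4 → ℝ, ContDiffAt ℝ 2 u x →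
    (γ.mdl i).op t u x = -laplC ((h t).mcoef (base (idx i).2)) u x

/-- The family of metrics is smooth in time. -/
def SmoothFam {X : Type} [TopologicalSpace X] [ChartedSpace E4 X] (h : ℝ → Metric X) : Prop :=
  ∀ e : Ch X, ∀ i j, ContDiffOn ℝ ∞ (fun p : ℝ × E4 => (h p.1).coef e p.2 i j)
    (univ ×ˢ e.1.target)

/-- G1: construction of the geometry. -/
def claimGeomCov : Prop :=
  ∀ (X : Type) [TopologicalSpace X] [T2Space X] [CompactSpace X] [ConnectedSpace X]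
    [ChartedSpace E4 X] [IsManifold (𝓡 4) ∞ X] (U : UCover X) (h : ℝ → Metric X), SmoothFam h →
    Nonempty (GeomCov U h)

/-- G2: a smooth equivariant partition of unity. -/
def claimPart0 : Prop :=
  ∀ (X : Type) [TopologicalSpace X] [T2Space X] [CompactSpace X] [ConnectedSpace X]
    [ChartedSpace E4 X] [IsManifold (𝓡 4) ∞ X] (U : UCover X) (h : ℝ → Metric X)
    (Γ : GeomCov U h) (g : Metric X),
    ∃ (phi0 : U.Y → ℝ) (K0 : ℝ), IsEqPart U g K0 phi0 ∧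
      (∀ D : Set U.Y, IsCompact D → {a : U.G | ∃ y ∈ D, phi0 (a⁻¹ • y) ≠ 0}.Finite) ∧
      ∀ (k : ℕ) (T : ℝ), ∃ C : ℝ, ∀ σ : U.G → ℝ, (∀ a, |σ a| ≤ 1) →
        Γ.γ.Nice k T C (fun _ y => ∑ᶠ a : U.G, σ a * phi0 (a⁻¹ • y))

/-! ## G3-G5. Solutions of the heat equation with initial values -/

/-- `u` solves `∂_t u + L_t u = 0`, `u(0) = F` on `[0,T]`. -/
structure Sol {Y : Type} [TopologicalSpace Y] (γ : Geom Y ℝ) (k : ℕ) (T C : ℝ) (F : Y → ℝ)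
    (u : ℝ → Y → ℝ) : Prop where
  nice : γ.Nice k T C u
  eqn : ∀ i, ∀ t ∈ Icc 0 T, ∀ x : E4, ‖x‖ < 3 / 2 → u t ((γ.psi i).symm x) =
    F ((γ.psi i).symm x) -
      ∫ τ in (0 : ℝ)..t, (γ.mdl i).op τ (fun z => u τ ((γ.psi i).symm z)) x

/-- G3: existence and tail estimate. -/
def claimSolEx : Prop :=
  ∀ (Y : Type) [TopologicalSpace Y] [T2Space Y] (γ : Geom Y ℝ), (∀ i q, (γ.mdl i).c q = 0) →
    ∀ (k : ℕ) (T C : ℝ), 2 ≤ k → 0 < T → 0 ≤ C → ∃ C' : ℝ, 0 ≤ C' ∧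
      (∀ F, γ.Nice (k + 2) T C (fun _ => F) → ∃ u, Sol γ k T C' F u) ∧
      ∀ D : Set Y, IsCompact D → ∀ δ > 0, ∃ D' : Set Y, IsCompact D' ∧
        ∀ F, γ.Nice (k + 2) T C (fun _ => F) → (∀ y ∈ D', F y = 0) →
        ∀ u, Sol γ k T C' F u →
          ∀ i, ∀ t ∈ Icc 0 T, ∀ x : E4, ‖x‖ < 3 / 2 → (γ.psi i).symm x ∈ D → ∀ j ≤ k,
            ‖iteratedFDeriv ℝ j (fun z => u t ((γ.psi i).symm z)) x‖ ≤ δ

/-- G3': sums, multiples, uniqueness. -/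
def claimSolAlg : Prop :=
  ∀ (Y : Type) [TopologicalSpace Y] [T2Space Y] (γ : Geom Y ℝ), (∀ i q, (γ.mdl i).c q = 0) →
    ∀ (k : ℕ) (T : ℝ), 2 ≤ k → 0 < T →
    (∀ C C' F F' u u', Sol γ k T C F u → Sol γ k T C' F' u' →
      Sol γ k T (C + C') (fun y => F y + F' y) (fun t y => u t y + u' t y)) ∧
    (∀ C F u (c : ℝ), Sol γ k T C F u →
      Sol γ k T (|c| * C) (fun y => c * F y) (fun t y => c * u t y)) ∧
    (∀ C C' F u u', Sol γ k T C F u → Sol γ k T C' F u' → ∀ t ∈ Icc 0 T, ∀ y, u t y = u' t y) ∧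
    ∃ C, Sol γ k T C (fun _ => 1) (fun _ _ => 1)

/-- G4: regularity in time. -/
def claimSolTime : Prop :=
  ∀ (Y : Type) [TopologicalSpace Y] [T2Space Y] (γ : Geom Y ℝ) (k : ℕ) (T C : ℝ) (F : Y → ℝ)
    (u : ℝ → Y → ℝ), 2 ≤ k → 0 < T → Sol γ k T C F u →
    (∀ y, u 0 y = F y) ∧ (∀ t ∈ Icc 0 T, ∀ y, |u t y| ≤ C) ∧
    ∀ i,
      (∀ t ∈ Icc 0 T, ContDiffOn ℝ k (fun z => u t ((γ.psi i).symm z)) (Metric.ball 0 (3 / 2))) ∧
      ContinuousOn (fun p : ℝ × E4 => u p.1 ((γ.psi i).symm p.2))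
        (Icc 0 T ×ˢ Metric.ball 0 (3 / 2)) ∧
      (∀ l, ContinuousOn (fun p : ℝ × E4 => pd l (fun z => u p.1 ((γ.psi i).symm z)) p.2)
        (Icc 0 T ×ˢ Metric.ball 0 (3 / 2))) ∧
      (∀ l, ∀ t ∈ Icc 0 T, ∀ x ∈ Metric.ball (0 : E4) (3 / 2),
        |pd l (fun z => u t ((γ.psi i).symm z)) x| ≤ C) ∧
      (∀ t ∈ Icc 0 T, ∀ x ∈ Metric.ball (0 : E4) (3 / 2),
        HasDerivWithinAt (fun s => u s ((γ.psi i).symm x))
          (-(γ.mdl i).op t (fun z => u t ((γ.psi i).symm z)) x) (Icc 0 T) t) ∧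
      (3 ≤ k → ∀ l, ∀ t ∈ Icc 0 T, ∀ x ∈ Metric.ball (0 : E4) (3 / 2),
        HasDerivWithinAt (fun s => pd l (fun z => u s ((γ.psi i).symm z)) x)
          (-pd l (fun w => (γ.mdl i).op t (fun z => u t ((γ.psi i).symm z)) w) x) (Icc 0 T) t)

/-- G5: the maximum principle for solutions. -/
def claimSolMax : Prop :=
  ∀ (Y : Type) [TopologicalSpace Y] [T2Space Y] (γ : Geom Y ℝ), (∀ i q, (γ.mdl i).c q = 0) →
    ∀ (k : ℕ) (T C : ℝ) (F : Y → ℝ) (u : ℝ → Y → ℝ), 2 ≤ k → 0 < T → Sol γ k T C F u →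
    ∀ M : ℝ, ((∀ y, F y ≤ M) → ∀ t ∈ Icc 0 T, ∀ y, u t y ≤ M) ∧
      ((∀ y, M ≤ F y) → ∀ t ∈ Icc 0 T, ∀ y, M ≤ u t y)

/-- G6: equivariance. -/
def claimSolEquiv : Prop :=
  ∀ (X : Type) [TopologicalSpace X] [ChartedSpace E4 X] [IsManifold (𝓡 4) ∞ X] (U : UCover X)
    (h : ℝ → Metric X) (Γ : GeomCov U h) (k : ℕ) (T C : ℝ) (F : U.Y → ℝ) (u : ℝ → U.Y → ℝ)
    (a : U.G), Sol Γ.γ k T C F u →
      Sol Γ.γ k T C (fun y => F (a⁻¹ • y)) (fun t y => u t (a⁻¹ • y))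

/-! ## G7. The gradient estimate -/

/-- The function `a(t) = (4/κ) (1 - exp(-κ t/2))`. -/
def aK (κ t : ℝ) : ℝ := (4 / κ) * (1 - Real.exp (-κ * t / 2))

/-- G7: the gradient estimate. -/
def claimGradEst : Prop :=
  ∀ (X : Type) [TopologicalSpace X] [T2Space X] [CompactSpace X] [ConnectedSpace X]
    [ChartedSpace E4 X] [IsManifold (𝓡 4) ∞ X] [MeasurableSpace X] [BorelSpace X] (U : UCover X)
    (g : ℝ → Metric X), IsNormalizedRicciFlow g → ∀ (t0 κ T : ℝ), 0 < t0 → 0 < κ → 0 < T →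
    (∀ t, t0 ≤ t → -κ ≤ (g t).meanScal) → ∀ (h : ℝ → Metric X) (Γ : GeomCov U h),
    (∀ t ∈ Icc 0 T, h t = g (t0 + t)) → SmoothFam h →
    ∀ (k : ℕ) (C : ℝ) (F : U.Y → ℝ) (u : ℝ → U.Y → ℝ), 3 ≤ k → Sol Γ.γ k T C F u →
    (∀ y, |F y| ≤ 1) → ∀ t ∈ Icc 0 T, ∀ i, ∀ x ∈ Metric.ball (0 : E4) (3 / 2),
      aK κ t * gradSqC ((g (t0 + t)).mcoef (Γ.base (Γ.idx i).2))
        (fun z => u t ((Γ.γ.psi i).symm z)) x ≤ 1

/-! ## G8-G10. The partition of unity at time `T` and its truncation -/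

/-- The heat flow of a partition of unity: not compactly supported, but with small tails. -/
structure IsFam {X : Type} [TopologicalSpace X] [ChartedSpace E4 X] (U : UCover X) (g : Metric X)
    (K : ℝ) (φ : U.Y → ℝ) : Prop where
  smooth : ∀ c : LCh U, ContDiffOn ℝ 2 (φ ∘ c.psi.symm) c.psi.target
  nonneg : ∀ y, 0 ≤ φ y
  hasSum : ∀ y, HasSum (fun a : U.G => φ (a⁻¹ • y)) 1
  grad : ∀ (A : Finset U.G) (c : LCh U), ∀ z ∈ c.psi.target, ∀ v : E4,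
    ∑ a ∈ A, |fderiv ℝ (fun w => φ (a⁻¹ • c.psi.symm w)) z v| ≤
      K * Real.sqrt (∑ i, ∑ j, g.coef c.e z i j * v i * v j)
  tail : ∀ D : Set U.Y, IsCompact D → ∀ δ > 0, ∃ A0 : Finset U.G,
    (∀ A : Finset U.G, Disjoint A A0 → (∀ y ∈ D, ∑ a ∈ A, φ (a⁻¹ • y) ≤ δ) ∧
      ∀ c : LCh U, ∀ z ∈ c.psi.target, c.psi.symm z ∈ D → ∀ v : E4,
        ∑ a ∈ A, |fderiv ℝ (fun w => φ (a⁻¹ • c.psi.symm w)) z v| ≤
          δ * Real.sqrt (∑ i, ∑ j, g.coef c.e z i j * v i * v j)) ∧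
    ∀ A : Finset U.G, A0 ⊆ A → ∀ c : LCh U, ∀ z ∈ c.psi.target, c.psi.symm z ∈ D → ∀ v : E4,
      |∑ a ∈ A, fderiv ℝ (fun w => φ (a⁻¹ • c.psi.symm w)) z v| ≤
        δ * Real.sqrt (∑ i, ∑ j, g.coef c.e z i j * v i * v j)

/-- G8: the heat flow produces such functions. -/
def claimFam : Prop :=
  ∀ (X : Type) [TopologicalSpace X] [T2Space X] [CompactSpace X] [ConnectedSpace X]
    [ChartedSpace E4 X] [IsManifold (𝓡 4) ∞ X] [MeasurableSpace X] [BorelSpace X] (U : UCover X)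
    (g : ℝ → Metric X), IsNormalizedRicciFlow g → ∀ (t0 κ T : ℝ), 0 < t0 → 0 < κ → 0 < T →
    (∀ t, t0 ≤ t → -κ ≤ (g t).meanScal) →
    ∃ φ : U.Y → ℝ, IsFam U (g (t0 + T)) ((aK κ T) ^ (-(1 / 2) : ℝ)) φ

/-- G8a: the family of metrics `h`. -/
def claimTheta : Prop :=
  ∀ (X : Type) [TopologicalSpace X] [ChartedSpace E4 X] [IsManifold (𝓡 4) ∞ X]
    [MeasurableSpace X] [BorelSpace X] (g : ℝ → Metric X), IsNormalizedRicciFlow g →
    ∀ t0 : ℝ, 0 < t0 → ∃ h : ℝ → Metric X, SmoothFam h ∧ ∀ t, 0 ≤ t → h t = g (t0 + t)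

/-- G8b: from the estimates in the charts of the geometry to those in lifted charts. The functions
`u A σ` are combinations of translates of one function `φ`. -/
def claimChartEst : Prop :=
  ∀ (X : Type) [TopologicalSpace X] [T2Space X] [CompactSpace X] [ConnectedSpace X]
    [ChartedSpace E4 X] [IsManifold (𝓡 4) ∞ X] (U : UCover X) (h : ℝ → Metric X)
    (Γ : GeomCov U h) (g : Metric X),
    (∀ v : U.Y → ℝ, (∀ i, ContDiffOn ℝ 2 (fun z => v ((Γ.γ.psi i).symm z))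
        (Metric.ball 0 (3 / 2))) → ∀ c : LCh U, ContDiffOn ℝ 2 (v ∘ c.psi.symm) c.psi.target) ∧
    (∀ (v : U.Y → ℝ) (M : ℝ), 0 ≤ M → ∀ c : LCh U, ∀ z ∈ c.psi.target,
      (∀ i, ∀ x ∈ Metric.ball (0 : E4) (3 / 2), (Γ.γ.psi i).symm x = c.psi.symm z →
        DifferentiableAt ℝ (fun w => v ((Γ.γ.psi i).symm w)) x ∧
        gradSqC (g.mcoef (Γ.base (Γ.idx i).2)) (fun w => v ((Γ.γ.psi i).symm w)) x ≤ M ^ 2) →
      ∀ w : E4, |fderiv ℝ (fun r => v (c.psi.symm r)) z w| ≤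
        M * Real.sqrt (∑ i, ∑ j, g.coef c.e z i j * w i * w j)) ∧
    ∃ M : ℝ, 0 ≤ M ∧ ∀ i (v : E4 → ℝ), ∀ x ∈ Metric.ball (0 : E4) (3 / 2),
      gradSqC (g.mcoef (Γ.base (Γ.idx i).2)) v x ≤ M ^ 2 * ‖fderiv ℝ v x‖ ^ 2

/-- G9: truncation. -/
def claimTrunc : Prop :=
  ∀ (X : Type) [TopologicalSpace X] [T2Space X] [CompactSpace X] [ConnectedSpace X]
    [ChartedSpace E4 X] [IsManifold (𝓡 4) ∞ X] (U : UCover X) (g : Metric X) (K0 : ℝ)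
    (phi0 : U.Y → ℝ), IsEqPart U g K0 phi0 →
    (∀ D : Set U.Y, IsCompact D → {a : U.G | ∃ y ∈ D, phi0 (a⁻¹ • y) ≠ 0}.Finite) →
    ∀ (K1 : ℝ) (φ : U.Y → ℝ), IsFam U g K1 φ → ∀ K : ℝ, K1 < K → ∃ phi, IsEqPart U g K phi

/-- G10: conclusion. -/
def claimGradOf : Prop := claimGeomCov → claimPart0 → claimTheta → claimFam → claimTrunc → claimGrad

end NRF
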