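import Pool.Agent.Work.MP_7f974f_gt.Stmts_E2

/-!
# E5: value at `0` of the polynomial solution
-/

open scoped Manifold ContDiff Topology RealInnerProductSpace
open MeasureTheory Set

noncomputable section

namespace NRF

namespace EI5

/-- Kronecker delta. -/
def dl (i j : Fin 4) : ℝ := if i = j then 1 else 0

/-! ### Polynomial functions -/

section

variable {W : Type} [NormedAddCommGroup W] [NormedSpace ℝ W]

theorem isPolF_zero : IsPolF (fun _ : E4 => (0 : W)) := ⟨∅, fun _ => 0, fun z => by simp⟩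

theorem isPolF_mono (α : Fin 4 → ℕ) (c : W) : IsPolF (fun z : E4 => (∏ i, z i ^ α i) • c) :=
  ⟨{α}, fun _ => c, fun z => by simp⟩

theorem isPolF_add {f g : E4 → W} (hf : IsPolF f) (hg : IsPolF g) :
    IsPolF (fun z => f z + g z) := by
  classical
  obtain ⟨A, p, hp⟩ := hf
  obtain ⟨B, q, hq⟩ := hg
  refine ⟨A ∪ B, fun α => (if α ∈ A then p α else 0) + (if α ∈ B then q α else 0), fun z => ?_⟩
  change f z + g z = _
  rw [hp z, hq z]
  simp only [smul_add, Finset.sum_add_distrib]
  congr 1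
  · simp only [smul_ite, smul_zero]
    rw [← Finset.sum_filter]
    refine Finset.sum_congr ?_ fun _ _ => rfl
    ext α
    simp only [Finset.mem_filter, Finset.mem_union]
    tauto
  · simp only [smul_ite, smul_zero]
    rw [← Finset.sum_filter]
    refine Finset.sum_congr ?_ fun _ _ => rfl
    ext α
    simp only [Finset.mem_filter, Finset.mem_union]
    tauto

theorem isPolF_smul {f : E4 → W} (hf : IsPolF f) (c : ℝ) : IsPolF (fun z => c • f z) := by
  obtain ⟨A, p, hp⟩ := hf
  refine ⟨A, fun α => c • p α, fun z => ?_⟩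
  change c • f z = _
  rw [hp z, Finset.smul_sum]
  refine Finset.sum_congr rfl fun α _ => ?_
  rw [smul_comm]

theorem isPolF_sum {ι : Type} (s : Finset ι) {f : ι → E4 → W} (hf : ∀ i ∈ s, IsPolF (f i)) :
    IsPolF (fun z => ∑ i ∈ s, f i z) := by
  classical
  induction s using Finset.induction_on with
  | empty => simpa using isPolF_zero
  | insert a s ha ih =>
    have h := isPolF_add (hf a (Finset.mem_insert_self a s))
      (ih fun i hi => hf i (Finset.mem_insert_of_mem hi))
    have e : (fun z => ∑ i ∈ insert a s, f i z) = fun z => f a z + ∑ i ∈ s, f i z := by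
      funext z
      rw [Finset.sum_insert ha]
    rw [e]
    exact h

theorem IsPolF_smooth {f : E4 → W} (hf : IsPolF f) : ContDiff ℝ ∞ f := by
  obtain ⟨A, p, hp⟩ := hf
  have e : f = fun z => ∑ α ∈ A, (∏ i, z i ^ α i) • p α := funext hp
  rw [e]
  refine ContDiff.sum fun α _ => ContDiff.smul ?_ contDiff_const
  refine contDiff_prod fun i _ => ContDiff.pow ?_ _
  exact (EuclideanSpace.proj i : E4 →L[ℝ] ℝ).contDiff

end

theorem isPolF_coord_mul {f : E4 → ℝ} (hf : IsPolF f) (i : Fin 4) :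
    IsPolF (fun z => z i * f z) := by
  classical
  obtain ⟨A, p, hp⟩ := hf
  have e : (fun z : E4 => z i * f z) =
      fun z => ∑ α ∈ A, (∏ k, z k ^ (Function.update α i (α i + 1)) k) • p α := by
    funext z
    rw [hp z, Finset.mul_sum]
    refine Finset.sum_congr rfl fun α _ => ?_
    rw [smul_eq_mul, smul_eq_mul, ← mul_assoc]
    congr 1
    rw [← Finset.mul_prod_erase _ _ (Finset.mem_univ i),
      ← Finset.mul_prod_erase Finset.univ (fun k => z k ^ (Function.update α i (α i + 1)) k)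
        (Finset.mem_univ i), ← mul_assoc, Function.update_self, pow_succ']
    congr 1
    refine Finset.prod_congr rfl fun k hk => ?_
    rw [Function.update_of_ne (Finset.ne_of_mem_erase hk)]
  rw [e]
  exact isPolF_sum A fun α _ => isPolF_mono _ _

theorem isPolF_const (c : ℝ) : IsPolF (fun _ : E4 => c) := by
  have h := isPolF_mono (W := ℝ) (fun _ => 0) c
  simpa using h

theorem isPolF_coord (i : Fin 4) : IsPolF (fun z : E4 => z i) := by
  have h := isPolF_coord_mul (isPolF_const 1) i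
  simpa using h

theorem isPolF_two (i j : Fin 4) : IsPolF (fun z : E4 => z i * z j) :=
  isPolF_coord_mul (isPolF_coord j) i

theorem isPolF_four (i j k l : Fin 4) : IsPolF (fun z : E4 => z i * z j * (z k * z l)) := by
  have h := isPolF_coord_mul (isPolF_coord_mul (isPolF_two k l) j) i
  have e : (fun z : E4 => z i * z j * (z k * z l)) = fun z => z i * (z j * (z k * z l)) := by
    funext z
    ring
  rw [e]
  exact h

/-! ### Linearity of `opA` -/

theorem pd_add {f g : E4 → ℝ} (hf : ContDiff ℝ ∞ f) (hg : ContDiff ℝ ∞ g) (i : Fin 4) :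
    pd i (fun z => f z + g z) = fun z => pd i f z + pd i g z := by
  funext z
  have hf' : DifferentiableAt ℝ f z := (hf.differentiable (by simp)) z
  have hg' : DifferentiableAt ℝ g z := (hg.differentiable (by simp)) z
  simp only [pd]
  rw [fderiv_fun_add hf' hg']
  rfl

theorem pd_cmul {f : E4 → ℝ} (hf : ContDiff ℝ ∞ f) (c : ℝ) (i : Fin 4) :
    pd i (fun z => c * f z) = fun z => c * pd i f z := by
  funext z
  have hf' : DifferentiableAt ℝ f z := (hf.differentiable (by simp)) z
  simp only [pd]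
  rw [fderiv_const_mul hf']
  rfl

theorem pd_smooth {f : E4 → ℝ} (hf : ContDiff ℝ ∞ f) (i : Fin 4) : ContDiff ℝ ∞ (pd i f) := by
  have h : ContDiff ℝ ∞ (fderiv ℝ f) := hf.fderiv_right (by simp)
  exact h.clm_apply contDiff_const

theorem opA_add {f g : E4 → ℝ} (hf : ContDiff ℝ ∞ f) (hg : ContDiff ℝ ∞ g) (κ : ℝ) (w : ℕ)
    (z : E4) : opA κ w (fun z => f z + g z) z = opA κ w f z + opA κ w g z := by
  have hf' : DifferentiableAt ℝ f z := (hf.differentiable (by simp)) z
  have hg' : DifferentiableAt ℝ g z := (hg.differentiable (by simp)) z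
  have e : ∀ i, pd i (pd i fun z => f z + g z) z = pd i (pd i f) z + pd i (pd i g) z := by
    intro i
    rw [pd_add hf hg i, pd_add (pd_smooth hf i) (pd_smooth hg i) i]
  simp only [opA, smul_eq_mul]
  rw [fderiv_fun_add hf' hg', Finset.sum_congr rfl fun i _ => e i, Finset.sum_add_distrib]
  simp only [add_apply]
  ring

theorem opA_cmul {f : E4 → ℝ} (hf : ContDiff ℝ ∞ f) (c κ : ℝ) (w : ℕ)
    (z : E4) : opA κ w (fun z => c * f z) z = c * opA κ w f z := by
  have hf' : DifferentiableAt ℝ f z := (hf.differentiable (by simp)) z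
  have e : ∀ i, pd i (pd i fun z => c * f z) z = c * pd i (pd i f) z := by
    intro i
    rw [pd_cmul hf c i, pd_cmul (pd_smooth hf i) c i]
  simp only [opA, smul_eq_mul]
  rw [fderiv_const_mul hf', Finset.sum_congr rfl fun i _ => e i, ← Finset.mul_sum]
  simp only [smul_apply, smul_eq_mul]
  ring

theorem opA_zero (κ : ℝ) (w : ℕ) (z : E4) : opA κ w (fun _ => (0 : ℝ)) z = 0 := by
  have h := opA_cmul (f := fun _ : E4 => (0 : ℝ)) contDiff_const 0 κ w z
  simpa using h

theorem opA_sum {ι : Type} (s : Finset ι) {f : ι → E4 → ℝ} (hf : ∀ i, ContDiff ℝ ∞ (f i))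
    (κ : ℝ) (w : ℕ) (z : E4) :
    opA κ w (fun z => ∑ i ∈ s, f i z) z = ∑ i ∈ s, opA κ w (f i) z := by
  classical
  induction s using Finset.induction_on with
  | empty => simpa using opA_zero κ w z
  | insert a s ha ih =>
    rw [Finset.sum_insert ha, ← ih, ← opA_add (hf a) (ContDiff.sum fun i _ => hf i)]
    congr 1
    funext z
    rw [Finset.sum_insert ha]

/-! ### Monomials -/

theorem coord_smooth (i : Fin 4) : ContDiff ℝ ∞ (fun z : E4 => z i) :=
  (EuclideanSpace.proj i : E4 →L[ℝ] ℝ).contDiff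

theorem fderiv_coord (i : Fin 4) (z v : E4) : fderiv ℝ (fun z : E4 => z i) z v = v i := by
  have h : fderiv ℝ (fun z : E4 => z i) z = (EuclideanSpace.proj i : E4 →L[ℝ] ℝ) :=
    (EuclideanSpace.proj i : E4 →L[ℝ] ℝ).hasFDerivAt.fderiv
  rw [h]
  rfl

theorem pd_coord (m i : Fin 4) : pd m (fun z : E4 => z i) = fun _ => dl m i := by
  funext z
  rw [pd, fderiv_coord, bv, dl]
  by_cases h : m = i
  · subst h
    simp
  · simp [h, Ne.symm h]

theorem fderiv_mul_apply {f g : E4 → ℝ} (hf : ContDiff ℝ ∞ f) (hg : ContDiff ℝ ∞ g) (z v : E4) :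
    fderiv ℝ (fun z => f z * g z) z v = fderiv ℝ f z v * g z + f z * fderiv ℝ g z v := by
  have hf' : DifferentiableAt ℝ f z := (hf.differentiable (by simp)) z
  have hg' : DifferentiableAt ℝ g z := (hg.differentiable (by simp)) z
  rw [fderiv_fun_mul hf' hg']
  simp only [add_apply, smul_apply, smul_eq_mul]
  ring

theorem pd_mul {f g : E4 → ℝ} (hf : ContDiff ℝ ∞ f) (hg : ContDiff ℝ ∞ g) (m : Fin 4) :
    pd m (fun z => f z * g z) = fun z => pd m f z * g z + f z * pd m g z := by
  funext z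
  exact fderiv_mul_apply hf hg z (bv m)

theorem pd_two (m i j : Fin 4) :
    pd m (fun z : E4 => z i * z j) = fun z => dl m i * z j + dl m j * z i := by
  rw [pd_mul (coord_smooth i) (coord_smooth j), pd_coord, pd_coord]
  funext z
  ring

theorem two_smooth (i j : Fin 4) : ContDiff ℝ ∞ (fun z : E4 => z i * z j) :=
  (coord_smooth i).mul (coord_smooth j)

theorem four_smooth (i j k l : Fin 4) : ContDiff ℝ ∞ (fun z : E4 => z i * z j * (z k * z l)) :=
  (two_smooth i j).mul (two_smooth k l)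

theorem pd_pd_two (m i j : Fin 4) (z : E4) :
    pd m (pd m (fun z : E4 => z i * z j)) z = 2 * (dl m i * dl m j) := by
  rw [pd_two, pd_add (contDiff_const.mul (coord_smooth j)) (contDiff_const.mul (coord_smooth i)),
    pd_cmul (coord_smooth j), pd_cmul (coord_smooth i), pd_coord, pd_coord]
  ring

theorem pd_const (m : Fin 4) (c : ℝ) : pd m (fun _ : E4 => c) = fun _ => 0 := by
  funext z
  simp [pd]

theorem pd_pd_four (m i j k l : Fin 4) (z : E4) :
    pd m (pd m (fun z : E4 => z i * z j * (z k * z l))) z =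
      2 * (dl m i * dl m j) * (z k * z l) + 2 * (dl m i * z j + dl m j * z i) *
        (dl m k * z l + dl m l * z k) + 2 * (dl m k * dl m l) * (z i * z j) := by
  have h1 : pd m (fun z : E4 => z i * z j * (z k * z l)) = fun z =>
      pd m (fun z : E4 => z i * z j) z * (z k * z l) +
        z i * z j * pd m (fun z : E4 => z k * z l) z :=
    pd_mul (two_smooth i j) (two_smooth k l) m
  have s1 := pd_smooth (two_smooth i j) m
  have s2 := pd_smooth (two_smooth k l) m
  rw [h1, pd_add (s1.mul (two_smooth k l)) ((two_smooth i j).mul s2),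
    pd_mul s1 (two_smooth k l), pd_mul (two_smooth i j) s2]
  simp only [pd_pd_two]
  rw [pd_two, pd_two]
  ring

theorem sum_dl (i j : Fin 4) : ∑ m, dl m i * dl m j = dl i j := by
  simp [dl, eq_comm]

theorem opA_two (κ : ℝ) (i j : Fin 4) (z : E4) :
    opA κ 4 (fun z : E4 => z i * z j) z = 3 * (z i * z j) - 2 * κ * dl i j := by
  simp only [opA, smul_eq_mul]
  rw [fderiv_mul_apply (coord_smooth i) (coord_smooth j), fderiv_coord, fderiv_coord,
    Finset.sum_congr rfl fun m _ => pd_pd_two m i j z, ← Finset.mul_sum, sum_dl]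
  push_cast
  ring

theorem opA_const (κ c : ℝ) (z : E4) : opA κ 4 (fun _ : E4 => c) z = 2 * c := by
  simp only [opA, smul_eq_mul, pd_const]
  simp
  ring

theorem opA_four (κ : ℝ) (i j k l : Fin 4) (z : E4) :
    opA κ 4 (fun z : E4 => z i * z j * (z k * z l)) z = 4 * (z i * z j * (z k * z l)) -
      2 * κ * (dl i j * (z k * z l) + dl i k * (z j * z l) + dl i l * (z j * z k) +
        dl j k * (z i * z l) + dl j l * (z i * z k) + dl k l * (z i * z j)) := by
  simp only [opA, smul_eq_mul]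
  rw [fderiv_mul_apply (two_smooth i j) (two_smooth k l),
    fderiv_mul_apply (coord_smooth i) (coord_smooth j),
    fderiv_mul_apply (coord_smooth k) (coord_smooth l)]
  simp only [fderiv_coord]
  have e : ∑ m, pd m (pd m (fun z : E4 => z i * z j * (z k * z l))) z =
      2 * (∑ m, dl m i * dl m j) * (z k * z l) + 2 * ((∑ m, dl m i * dl m k) * (z j * z l) +
        (∑ m, dl m i * dl m l) * (z j * z k) + (∑ m, dl m j * dl m k) * (z i * z l) +
        (∑ m, dl m j * dl m l) * (z i * z k)) + 2 * (∑ m, dl m k * dl m l) * (z i * z j) := by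
    simp only [Fin.sum_univ_four, pd_pd_four]
    ring
  rw [e]
  simp only [sum_dl]
  push_cast
  ring

/-! ### The particular solutions -/

/-- Solution for the right hand side `z i * z j`. -/
def g2 (κ : ℝ) (i j : Fin 4) (z : E4) : ℝ := 1 / 3 * (z i * z j) + κ / 3 * dl i j

/-- Solution for the right hand side `z i * z j * (z k * z l)`. -/
def g4 (κ : ℝ) (i j k l : Fin 4) (z : E4) : ℝ :=
  1 / 4 * (z i * z j * (z k * z l)) +
    (κ / 6 * dl i j * (z k * z l) + (κ / 6 * dl i k * (z j * z l) +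
    (κ / 6 * dl i l * (z j * z k) + (κ / 6 * dl j k * (z i * z l) +
    (κ / 6 * dl j l * (z i * z k) + (κ / 6 * dl k l * (z i * z j) +
    κ ^ 2 / 3 * (dl i j * dl k l + dl i k * dl j l + dl i l * dl j k)))))))

theorem isPolF_cmul {f : E4 → ℝ} (hf : IsPolF f) (c : ℝ) : IsPolF (fun z => c * f z) :=
  isPolF_smul hf c

theorem isPolF_g2 (κ : ℝ) (i j : Fin 4) : IsPolF (g2 κ i j) :=
  isPolF_add (isPolF_cmul (isPolF_two i j) _) (isPolF_const _)

theorem isPolF_g4 (κ : ℝ) (i j k l : Fin 4) : IsPolF (g4 κ i j k l) :=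
  isPolF_add (isPolF_cmul (isPolF_four i j k l) _) <|
  isPolF_add (isPolF_cmul (isPolF_two k l) _) <|
  isPolF_add (isPolF_cmul (isPolF_two j l) _) <|
  isPolF_add (isPolF_cmul (isPolF_two j k) _) <|
  isPolF_add (isPolF_cmul (isPolF_two i l) _) <|
  isPolF_add (isPolF_cmul (isPolF_two i k) _) <|
  isPolF_add (isPolF_cmul (isPolF_two i j) _) (isPolF_const _)

theorem opA_g2 (κ : ℝ) (i j : Fin 4) (z : E4) : opA κ 4 (g2 κ i j) z = z i * z j := by
  have h : opA κ 4 (g2 κ i j) z = opA κ 4 (fun z => 1 / 3 * (z i * z j) + κ / 3 * dl i j) z := rfl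
  rw [h, opA_add (contDiff_const.mul (two_smooth i j)) contDiff_const,
    opA_cmul (two_smooth i j), opA_two, opA_const]
  ring

theorem opA_g4 (κ : ℝ) (i j k l : Fin 4) (z : E4) :
    opA κ 4 (g4 κ i j k l) z = z i * z j * (z k * z l) := by
  have s : ∀ (c : ℝ) (i j : Fin 4), ContDiff ℝ ∞ (fun z : E4 => c * (z i * z j)) :=
    fun c i j => contDiff_const.mul (two_smooth i j)
  have s0 : ContDiff ℝ ∞ (fun _ : E4 =>
      κ ^ 2 / 3 * (dl i j * dl k l + dl i k * dl j l + dl i l * dl j k)) := contDiff_const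
  have s1 := (s (κ / 6 * dl k l) i j).add s0
  have s2 := (s (κ / 6 * dl j l) i k).add s1
  have s3 := (s (κ / 6 * dl j k) i l).add s2
  have s4 := (s (κ / 6 * dl i l) j k).add s3
  have s5 := (s (κ / 6 * dl i k) j l).add s4
  have s6 := (s (κ / 6 * dl i j) k l).add s5
  unfold g4
  rw [opA_add (contDiff_const.mul (four_smooth i j k l)) s6, opA_add (s _ k l) s5,
    opA_add (s _ j l) s4, opA_add (s _ j k) s3, opA_add (s _ i l) s2, opA_add (s _ i k) s1,
    opA_add (s _ i j) s0, opA_cmul (four_smooth i j k l), opA_cmul (two_smooth k l),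
    opA_cmul (two_smooth j l), opA_cmul (two_smooth j k), opA_cmul (two_smooth i l),
    opA_cmul (two_smooth i k), opA_cmul (two_smooth i j), opA_const, opA_four]
  simp only [opA_two]
  ring

theorem g2_zero (κ : ℝ) (i j : Fin 4) : g2 κ i j 0 = κ / 3 * dl i j := by
  simp [g2]

theorem g4_zero (κ : ℝ) (i j k l : Fin 4) : g4 κ i j k l 0 =
    κ ^ 2 / 3 * (dl i j * dl k l + dl i k * dl j l + dl i l * dl j k) := by
  simp [g4]

end EI5

open EI5 in
/-- E5. -/
theorem thm_PolVal (hu : claimPolUniq) : claimPolVal := by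
  intro κ c q T f hf h
  set f' : E4 → ℝ := fun z => c / 2 + (∑ i, ∑ j, q i j * g2 κ i j z) +
    ∑ i, ∑ j, ∑ k, ∑ l, T i j k l * g4 κ i j k l z with hf'
  have p2 : ∀ i j, IsPolF (fun z => q i j * g2 κ i j z) := fun i j =>
    isPolF_cmul (isPolF_g2 κ i j) _
  have p4 : ∀ i j k l, IsPolF (fun z => T i j k l * g4 κ i j k l z) := fun i j k l =>
    isPolF_cmul (isPolF_g4 κ i j k l) _
  have P2 : IsPolF (fun z => ∑ i, ∑ j, q i j * g2 κ i j z) :=
    isPolF_sum _ fun i _ => isPolF_sum _ fun j _ => p2 i j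
  have P4 : IsPolF (fun z => ∑ i, ∑ j, ∑ k, ∑ l, T i j k l * g4 κ i j k l z) :=
    isPolF_sum _ fun i _ => isPolF_sum _ fun j _ => isPolF_sum _ fun k _ =>
      isPolF_sum _ fun l _ => p4 i j k l
  have P : IsPolF f' := isPolF_add (isPolF_add (isPolF_const _) P2) P4
  have e2 : ∀ z, opA κ 4 (fun z => ∑ i, ∑ j, q i j * g2 κ i j z) z =
      ∑ i, ∑ j, q i j * (z i * z j) := by
    intro z
    rw [opA_sum _ (fun i => IsPolF_smooth (isPolF_sum _ fun j _ => p2 i j))]
    refine Finset.sum_congr rfl fun i _ => ?_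
    rw [opA_sum _ (fun j => IsPolF_smooth (p2 i j))]
    refine Finset.sum_congr rfl fun j _ => ?_
    rw [opA_cmul (IsPolF_smooth (isPolF_g2 κ i j)), opA_g2]
  have e4 : ∀ z, opA κ 4 (fun z => ∑ i, ∑ j, ∑ k, ∑ l, T i j k l * g4 κ i j k l z) z =
      ∑ i, ∑ j, ∑ k, ∑ l, T i j k l * (z i * z j * (z k * z l)) := by
    intro z
    rw [opA_sum _ (fun i => IsPolF_smooth (isPolF_sum _ fun j _ => isPolF_sum _ fun k _ =>
      isPolF_sum _ fun l _ => p4 i j k l))]
    refine Finset.sum_congr rfl fun i _ => ?_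
    rw [opA_sum _ (fun j => IsPolF_smooth (isPolF_sum _ fun k _ =>
      isPolF_sum _ fun l _ => p4 i j k l))]
    refine Finset.sum_congr rfl fun j _ => ?_
    rw [opA_sum _ (fun k => IsPolF_smooth (isPolF_sum _ fun l _ => p4 i j k l))]
    refine Finset.sum_congr rfl fun k _ => ?_
    rw [opA_sum _ (fun l => IsPolF_smooth (p4 i j k l))]
    refine Finset.sum_congr rfl fun l _ => ?_
    rw [opA_cmul (IsPolF_smooth (isPolF_g4 κ i j k l)), opA_g4]
  have e : ∀ z, opA κ 4 f' z = c + (∑ i, ∑ j, q i j * (z i * z j)) +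
      ∑ i, ∑ j, ∑ k, ∑ l, T i j k l * (z i * z j * (z k * z l)) := by
    intro z
    rw [hf', opA_add (contDiff_const.add (IsPolF_smooth P2)) (IsPolF_smooth P4),
      opA_add contDiff_const (IsPolF_smooth P2), opA_const, e2, e4]
    ring
  have D : IsPolF (fun z => f z + (-1) * f' z) := isPolF_add hf (isPolF_cmul P _)
  have hD : ∀ z, opA κ 4 (fun z => f z + (-1) * f' z) z = 0 := by
    intro z
    rw [opA_add (IsPolF_smooth hf) (contDiff_const.mul (IsPolF_smooth P)),
      opA_cmul (IsPolF_smooth P), h z, e z]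
    ring
  have h0 := hu ℝ κ 4 _ (by norm_num) D hD 0
  have h1 : f 0 = f' 0 := by linarith
  have h2 : ∀ i, ∑ j, q i j * g2 κ i j 0 = κ / 3 * q i i := by
    intro i
    simp only [g2_zero, dl]
    simp
    ring
  have h4 : ∀ i j, ∑ k, ∑ l, T i j k l * (dl i j * dl k l) = dl i j * ∑ k, T i j k k := by
    intro i j
    simp only [dl]
    simp [Finset.mul_sum]
  have h5 : ∀ i j, ∑ k, ∑ l, T i j k l * (dl i k * dl j l) = T i j i j := by
    intro i j
    simp [dl]
  have h6 : ∀ i j, ∑ k, ∑ l, T i j k l * (dl i l * dl j k) = T i j j i := by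
    intro i j
    simp [dl]
  have h7 : ∑ i, ∑ j, dl i j * ∑ k, T i j k k = ∑ i, ∑ j, T i i j j := by
    refine Finset.sum_congr rfl fun i _ => ?_
    simp [dl]
  rw [h1, hf']
  simp only [h2]
  have h8 : ∑ i, ∑ j, ∑ k, ∑ l, T i j k l * g4 κ i j k l 0 =
      κ ^ 2 / 3 * ∑ i, ∑ j, (T i i j j + T i j i j + T i j j i) := by
    have h9 : ∀ i j, ∑ k, ∑ l, T i j k l * g4 κ i j k l 0 = κ ^ 2 / 3 *
        ((dl i j * ∑ k, T i j k k) + T i j i j + T i j j i) := by
      intro i j
      rw [← h4 i j, ← h5 i j, ← h6 i j, ← Finset.sum_add_distrib, ← Finset.sum_add_distrib,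
        Finset.mul_sum]
      refine Finset.sum_congr rfl fun k _ => ?_
      rw [← Finset.sum_add_distrib, ← Finset.sum_add_distrib, Finset.mul_sum]
      refine Finset.sum_congr rfl fun l _ => ?_
      rw [g4_zero]
      ring
    simp only [h9, ← Finset.mul_sum]
    congr 1
    simp only [Finset.sum_add_distrib]
    rw [h7]
  rw [h8, ← Finset.mul_sum]

end NRF
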