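import Pool.Agent.Work.MP_7f974f_gt.Stmts_H

set_option autoImplicit false

/-!
# H10: averaged group cocycle = cocycle + coboundary
-/

open scoped Topology
open Set

noncomputable section

namespace NRF.H

namespace AvH10

variable {G : Type}

theorem coc {b : (Fin 5 → G) → ℝ} (hb : Cocyc b) (a0 a1 a2 a3 a4 a5 : G) :
    b ![a1, a2, a3, a4, a5] - b ![a0, a2, a3, a4, a5] + b ![a0, a1, a3, a4, a5] -
      b ![a0, a1, a2, a4, a5] + b ![a0, a1, a2, a3, a5] - b ![a0, a1, a2, a3, a4] = 0 := by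
  have h := hb ![a0, a1, a2, a3, a4, a5]
  rw [Fin.sum_univ_six] at h
  have e0 : (fun t => ![a0, a1, a2, a3, a4, a5] ((0 : Fin 6).succAbove t)) =
      ![a1, a2, a3, a4, a5] := by
    funext t; fin_cases t <;> rfl
  have e1 : (fun t => ![a0, a1, a2, a3, a4, a5] ((1 : Fin 6).succAbove t)) =
      ![a0, a2, a3, a4, a5] := by
    funext t; fin_cases t <;> rfl
  have e2 : (fun t => ![a0, a1, a2, a3, a4, a5] ((2 : Fin 6).succAbove t)) =
      ![a0, a1, a3, a4, a5] := by
    funext t; fin_cases t <;> rfl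
  have e3 : (fun t => ![a0, a1, a2, a3, a4, a5] ((3 : Fin 6).succAbove t)) =
      ![a0, a1, a2, a4, a5] := by
    funext t; fin_cases t <;> rfl
  have e4 : (fun t => ![a0, a1, a2, a3, a4, a5] ((4 : Fin 6).succAbove t)) =
      ![a0, a1, a2, a3, a5] := by
    funext t; fin_cases t <;> rfl
  have e5 : (fun t => ![a0, a1, a2, a3, a4, a5] ((5 : Fin 6).succAbove t)) =
      ![a0, a1, a2, a3, a4] := by
    funext t; fin_cases t <;> rfl
  rw [e0, e1, e2, e3, e4, e5] at h
  have f0 : ((0 : Fin 6) : ℕ) = 0 := rfl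
  have f1 : ((1 : Fin 6) : ℕ) = 1 := rfl
  have f2 : ((2 : Fin 6) : ℕ) = 2 := rfl
  have f3 : ((3 : Fin 6) : ℕ) = 3 := rfl
  have f4 : ((4 : Fin 6) : ℕ) = 4 := rfl
  have f5 : ((5 : Fin 6) : ℕ) = 5 := rfl
  rw [f0, f1, f2, f3, f4, f5] at h
  linarith

/-- The prism operator. -/
def K (b : (Fin 5 → G) → ℝ) (ρ v : Fin 4 → G) : ℝ :=
  b ![ρ 0, v 0, v 1, v 2, v 3] - b ![ρ 0, ρ 1, v 1, v 2, v 3] + b ![ρ 0, ρ 1, ρ 2, v 2, v 3] -
    b ![ρ 0, ρ 1, ρ 2, ρ 3, v 3]

theorem vec5 (v : Fin 5 → G) : v = ![v 0, v 1, v 2, v 3, v 4] := by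
  funext t; fin_cases t <;> rfl

theorem prism {b : (Fin 5 → G) → ℝ} (hb : Cocyc b) (ρ v : Fin 5 → G) :
    b ρ = b v - ∑ i : Fin 5, (-1 : ℝ) ^ (i : ℕ) *
      K b (fun t => ρ (i.succAbove t)) (fun t => v (i.succAbove t)) := by
  rw [Fin.sum_univ_five]
  have f0 : ((0 : Fin 5) : ℕ) = 0 := rfl
  have f1 : ((1 : Fin 5) : ℕ) = 1 := rfl
  have f2 : ((2 : Fin 5) : ℕ) = 2 := rfl
  have f3 : ((3 : Fin 5) : ℕ) = 3 := rfl
  have f4 : ((4 : Fin 5) : ℕ) = 4 := rfl
  rw [f0, f1, f2, f3, f4]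
  have g0 : ∀ w : Fin 5 → G, (fun t => w ((0 : Fin 5).succAbove t)) = ![w 1, w 2, w 3, w 4] := by
    intro w; funext t; fin_cases t <;> rfl
  have g1 : ∀ w : Fin 5 → G, (fun t => w ((1 : Fin 5).succAbove t)) = ![w 0, w 2, w 3, w 4] := by
    intro w; funext t; fin_cases t <;> rfl
  have g2 : ∀ w : Fin 5 → G, (fun t => w ((2 : Fin 5).succAbove t)) = ![w 0, w 1, w 3, w 4] := by
    intro w; funext t; fin_cases t <;> rfl
  have g3 : ∀ w : Fin 5 → G, (fun t => w ((3 : Fin 5).succAbove t)) = ![w 0, w 1, w 2, w 4] := by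
    intro w; funext t; fin_cases t <;> rfl
  have g4 : ∀ w : Fin 5 → G, (fun t => w ((4 : Fin 5).succAbove t)) = ![w 0, w 1, w 2, w 3] := by
    intro w; funext t; fin_cases t <;> rfl
  simp only [g0, g1, g2, g3, g4]
  have hK : ∀ a0 a1 a2 a3 c0 c1 c2 c3 : G, K b ![a0, a1, a2, a3] ![c0, c1, c2, c3] =
      b ![a0, c0, c1, c2, c3] - b ![a0, a1, c1, c2, c3] + b ![a0, a1, a2, c2, c3] -
        b ![a0, a1, a2, a3, c3] := fun _ _ _ _ _ _ _ _ => rfl
  simp only [hK]
  have c0 := coc hb (ρ 0) (v 0) (v 1) (v 2) (v 3) (v 4)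
  have c1 := coc hb (ρ 0) (ρ 1) (v 1) (v 2) (v 3) (v 4)
  have c2 := coc hb (ρ 0) (ρ 1) (ρ 2) (v 2) (v 3) (v 4)
  have c3 := coc hb (ρ 0) (ρ 1) (ρ 2) (ρ 3) (v 3) (v 4)
  have c4 := coc hb (ρ 0) (ρ 1) (ρ 2) (ρ 3) (ρ 4) (v 4)
  have hρ : b ρ = b ![ρ 0, ρ 1, ρ 2, ρ 3, ρ 4] := congrArg b (vec5 ρ)
  have hv : b v = b ![v 0, v 1, v 2, v 3, v 4] := congrArg b (vec5 v)
  rw [hρ, hv]
  linarith

theorem K_inv [Group G] {b : (Fin 5 → G) → ℝ} (hb : ∀ (g : G) v, b (fun i => g * v i) = b v)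
    (a : G) (ρ v : Fin 4 → G) : K b (fun i => a * ρ i) (fun i => a * v i) = K b ρ v := by
  have h : ∀ c0 c1 c2 c3 c4 : G, b ![a * c0, a * c1, a * c2, a * c3, a * c4] =
      b ![c0, c1, c2, c3, c4] := by
    intro c0 c1 c2 c3 c4
    rw [← hb a ![c0, c1, c2, c3, c4]]
    congr 1
    funext t
    fin_cases t <;> rfl
  unfold K
  rw [h, h, h, h]

theorem finsum_fn {n : ℕ} (S : Finset G) (F : (Fin n → G) → ℝ)
    (hF : ∀ v, (∃ i, v i ∉ S) → F v = 0) :
    ∑ᶠ v, F v = ∑ u : Fin n → S, F (fun i => (u i : G)) := by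
  classical
  rw [finsum_eq_sum_of_support_subset F (s := Fintype.piFinset fun _ => S)]
  · symm
    refine Finset.sum_bij (fun u _ => fun i => (u i : G)) ?_ ?_ ?_ ?_
    · intro u _
      rw [Fintype.mem_piFinset]
      exact fun i => (u i).2
    · intro u _ u' _ h
      funext i
      exact Subtype.ext (congrFun h i)
    · intro v hv
      rw [Fintype.mem_piFinset] at hv
      exact ⟨fun i => ⟨v i, hv i⟩, Finset.mem_univ _, rfl⟩
    · intro u _
      rfl
  · intro v hv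
    rw [Finset.mem_coe, Fintype.mem_piFinset]
    intro i
    by_contra h
    exact hv (hF v ⟨i, h⟩)

theorem fact {S : Type} [Fintype S] (p : Fin 5 → S → ℝ) (hp : ∀ i, ∑ a, p i a = 1)
    (i : Fin 5) (F : (Fin 4 → S) → ℝ) :
    ∑ u : Fin 5 → S, (∏ l, p l (u l)) * F (fun t => u (i.succAbove t)) =
      ∑ u : Fin 4 → S, (∏ l, p (i.succAbove l) (u l)) * F u := by
  rw [← (Fin.insertNthEquiv (fun _ => S) i).sum_comp, Fintype.sum_prod_type]
  have h : ∀ (a : S) (u : Fin 4 → S),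
      (∏ l, p l (Fin.insertNthEquiv (fun _ => S) i (a, u) l)) *
        F (fun t => Fin.insertNthEquiv (fun _ => S) i (a, u) (i.succAbove t)) =
      p i a * ((∏ l, p (i.succAbove l) (u l)) * F u) := by
    intro a u
    rw [Fin.prod_univ_succAbove _ i]
    simp only [Fin.insertNthEquiv_apply, Fin.insertNth_apply_same, Fin.insertNth_apply_succAbove]
    ring
  simp only [h]
  rw [← Finset.sum_mul_sum, hp i, one_mul]

end AvH10

open AvH10 in
theorem claimWR_proof : claimWR := by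
  classical
  intro Y G _ _ b phi r hb hinv hr hfin hsum
  refine ⟨fun y => - ∑ᶠ v : Fin 4 → G, (∏ l, phi ((v l)⁻¹ • y l)) * K b (fun i => r (y i)) v,
    ?_, ?_⟩
  · intro a y
    dsimp only
    congr 1
    let e : (Fin 4 → G) ≃ (Fin 4 → G) :=
      { toFun := fun v i => a * v i
        invFun := fun v i => a⁻¹ * v i
        left_inv := fun v => by funext i; simp
        right_inv := fun v => by funext i; simp }
    rw [← finsum_comp_equiv e]
    apply finsum_congr
    intro v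
    change (∏ l, phi ((a * v l)⁻¹ • a • y l)) * K b (fun i => r (a • y i)) (fun i => a * v i) = _
    simp only [hr]
    rw [K_inv hinv]
    congr 1
    apply Finset.prod_congr rfl
    intro l _
    rw [mul_inv_rev, mul_smul, inv_smul_smul]
  · intro y
    let S : Finset G := Finset.univ.biUnion fun i : Fin 5 => (hfin (y i)).toFinset
    have hS : ∀ (i : Fin 5) (a : G), a ∉ S → phi (a⁻¹ • y i) = 0 := by
      intro i a ha
      by_contra h
      apply ha
      rw [Finset.mem_biUnion]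
      refine ⟨i, Finset.mem_univ _, ?_⟩
      rw [Set.Finite.mem_toFinset]
      exact h
    let p : Fin 5 → S → ℝ := fun i a => phi ((a : G)⁻¹ • y i)
    have hp : ∀ i, ∑ a, p i a = 1 := by
      intro i
      rw [← hsum (y i), finsum_eq_sum_of_support_subset _ (s := S)]
      · exact Finset.sum_coe_sort S fun a => phi (a⁻¹ • y i)
      · intro a ha
        rw [Finset.mem_coe]
        by_contra h
        exact ha (hS i a h)
    have hprod : ∑ u : Fin 5 → S, ∏ l, p l (u l) = 1 := by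
      have h1 : ∏ l, ∑ a, p l a = 1 := Finset.prod_eq_one fun l _ => hp l
      rw [Finset.prod_univ_sum, Fintype.piFinset_univ] at h1
      exact h1
    have hW : bW b (fun g i => phi (g⁻¹ • y i)) =
        ∑ u : Fin 5 → S, b (fun i => (u i : G)) * ∏ l, p l (u l) := by
      unfold bW
      rw [finsum_fn S]
      rintro v ⟨i, hi⟩
      rw [Finset.prod_eq_zero (Finset.mem_univ i) (hS i _ hi), mul_zero]
    have hH : ∀ i : Fin 5,
        (∑ᶠ v : Fin 4 → G, (∏ l, phi ((v l)⁻¹ • y (i.succAbove l))) *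
          K b (fun t => r (y (i.succAbove t))) v) =
        ∑ u : Fin 5 → S, (∏ l, p l (u l)) *
          K b (fun t => r (y (i.succAbove t))) (fun t => (u (i.succAbove t) : G)) := by
      intro i
      rw [fact p hp i (fun u => K b (fun t => r (y (i.succAbove t))) (fun t => (u t : G)))]
      rw [finsum_fn S]
      rintro v ⟨j, hj⟩
      rw [Finset.prod_eq_zero (Finset.mem_univ j) (hS _ _ hj), zero_mul]
    dsimp only
    rw [hW]
    have e1 : b (fun i => r (y i)) = ∑ u : Fin 5 → S, (∏ l, p l (u l)) * b (fun i => r (y i)) := by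
      rw [← Finset.sum_mul, hprod, one_mul]
    rw [e1]
    have e2 : ∀ u : Fin 5 → S, (∏ l, p l (u l)) * b (fun i => r (y i)) =
        b (fun i => (u i : G)) * (∏ l, p l (u l)) - ∑ i : Fin 5, (-1 : ℝ) ^ (i : ℕ) *
          ((∏ l, p l (u l)) * K b (fun t => r (y (i.succAbove t)))
            (fun t => (u (i.succAbove t) : G))) := by
      intro u
      rw [prism hb (fun i => r (y i)) (fun i => (u i : G)), mul_sub, Finset.mul_sum]
      congr 1
      · ring
      · apply Finset.sum_congr rfl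
        intro i _
        ring
    rw [Finset.sum_congr rfl fun u _ => e2 u, Finset.sum_sub_distrib, sub_eq_add_neg]
    congr 1
    rw [Finset.sum_comm, ← Finset.sum_neg_distrib]
    apply Finset.sum_congr rfl
    intro i _
    rw [← Finset.mul_sum, ← hH i]
    ring

end NRF.H
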