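import Pool.Agent.Work.MP_7f974f_gt.Stmts_H

/-!
# Item H3: the map from the cube to the simplex
-/

set_option autoImplicit false

open scoped Manifold ContDiff Topology
open MeasureTheory Set

noncomputable section

namespace NRF.H

namespace H3

theorem qR_smooth (k : ℕ) (i : Fin (k + 1)) :
    ContDiff ℝ ∞ (fun t : Fin k → ℝ => qR k t i) := by
  induction k with
  | zero =>
    simp only [qR]
    exact contDiff_const
  | succ k ih =>
    refine Fin.cases ?_ (fun j => ?_) i
    · simp only [qR, Fin.cons_zero]
      exact contDiff_const.sub (contDiff_apply ℝ ℝ (0 : Fin (k + 1)))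
    · simp only [qR, Fin.cons_succ]
      refine (contDiff_apply ℝ ℝ (0 : Fin (k + 1))).mul ?_
      refine (ih j).comp ?_
      exact contDiff_pi.2 fun l => contDiff_apply ℝ ℝ l.succ

theorem clamp_eq {k : ℕ} {t : Fin k → ℝ} (ht : t ∈ cube k) : clamp t = t := by
  funext i
  have h1 : 0 ≤ t i := ht.1 i
  have h2 : t i ≤ 1 := ht.2 i
  simp [clamp, h1, h2]

theorem clamp_cont (k : ℕ) : Continuous (clamp : (Fin k → ℝ) → Fin k → ℝ) :=
  continuous_pi fun i => continuous_const.max (continuous_const.min (continuous_apply i))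

theorem qS_cont (k : ℕ) : Continuous (qS k) :=
  Continuous.subtype_mk (continuous_pi fun i => (qR_smooth k i).continuous.comp (clamp_cont k)) _

theorem ins_mem {k : ℕ} {t : Fin k → ℝ} (ht : t ∈ cube k) (i : Fin (k + 1)) {a : ℝ}
    (ha : a ∈ Icc (0 : ℝ) 1) : ins i a t ∈ cube (k + 1) := by
  constructor
  · intro j
    refine Fin.succAboveCases i ?_ (fun l => ?_) j
    · simpa [ins] using ha.1
    · simpa [ins] using ht.1 l
  · intro j
    refine Fin.succAboveCases i ?_ (fun l => ?_) j
    · simpa [ins] using ha.2
    · simpa [ins] using ht.2 l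

theorem ins_zero_eq {k : ℕ} (a : ℝ) (t : Fin k → ℝ) : ins 0 a t = Fin.cons a t := by
  simp [ins]

theorem ins_succ_eq {k : ℕ} (j : Fin (k + 1)) (a : ℝ) (t : Fin (k + 1) → ℝ) :
    ins j.succ a t = Fin.cons (t 0) (ins j a (Fin.tail t)) := by
  unfold ins
  funext l
  refine Fin.cases ?_ (fun m => ?_) l
  · have h0 : (0 : Fin (k + 2)) = j.succ.succAbove 0 := by simp
    conv_lhs => rw [h0]
    rw [Fin.insertNth_apply_succAbove]
    simp
  · rw [Fin.cons_succ]
    refine Fin.succAboveCases j ?_ (fun n => ?_) m
    · rw [Fin.insertNth_apply_same, Fin.insertNth_apply_same]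
    · have h1 : (j.succAbove n).succ = j.succ.succAbove n.succ := by simp
      rw [h1, Fin.insertNth_apply_succAbove, Fin.insertNth_apply_succAbove]
      rfl

/-- Extension by zero along `succAbove`. -/
def ext0 {k : ℕ} (i : Fin (k + 1)) (v : Fin k → ℝ) : Fin (k + 1) → ℝ := i.insertNth 0 v

theorem qR_face1 (k : ℕ) (t : Fin k → ℝ) (i : Fin (k + 1)) :
    qR (k + 1) (ins i 1 t) = ext0 i.castSucc (qR k t) := by
  induction k with
  | zero =>
    have hi : i = 0 := Fin.ext (by have := i.2; simp at this ⊢)
    subst hi
    rw [ins_zero_eq]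
    funext l
    refine Fin.cases ?_ (fun m => ?_) l
    · simp [qR, ext0]
    · simp [qR, ext0]
  | succ k ih =>
    refine Fin.cases ?_ (fun j => ?_) i
    · rw [ins_zero_eq]
      funext l
      refine Fin.cases ?_ (fun m => ?_) l
      · simp [qR, ext0]
      · simp [qR, ext0]
    · rw [ins_succ_eq]
      funext l
      have hc : j.succ.castSucc = j.castSucc.succ := by simp
      rw [hc]
      refine Fin.cases ?_ (fun m => ?_) l
      · have h0 : (0 : Fin (k + 3)) = j.castSucc.succ.succAbove 0 := by simp
        conv_rhs => rw [h0]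
        simp only [ext0]
        rw [Fin.insertNth_apply_succAbove]
        simp [qR]
      · have h2 : qR (k + 1 + 1) (Fin.cons (t 0) (ins j 1 (Fin.tail t))) m.succ =
            t 0 * qR (k + 1) (ins j 1 (Fin.tail t)) m := by
          simp [qR]
        rw [h2, ih]
        simp only [ext0]
        refine Fin.succAboveCases j.castSucc ?_ (fun n => ?_) m
        · rw [Fin.insertNth_apply_same, Fin.insertNth_apply_same, mul_zero]
        · have h1 : (j.castSucc.succAbove n).succ = j.castSucc.succ.succAbove n.succ := by simp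
          rw [h1, Fin.insertNth_apply_succAbove, Fin.insertNth_apply_succAbove]
          simp [qR]

theorem qR_face0 (k : ℕ) (t : Fin k → ℝ) :
    qR (k + 1) (ins (Fin.last k) 0 t) = ext0 (Fin.last (k + 1)) (qR k t) := by
  induction k with
  | zero =>
    have hi : (Fin.last 0) = 0 := rfl
    rw [hi, ins_zero_eq]
    funext l
    refine Fin.cases ?_ (fun m => ?_) l
    · have h0 : (0 : Fin 2) = (Fin.last 1).succAbove 0 := by simp
      simp only [ext0]
      conv_rhs => rw [h0]
      rw [Fin.insertNth_apply_succAbove]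
      simp [qR]
    · have hm : m = 0 := Fin.ext (by have := m.2; simp at this ⊢)
      subst hm
      have h1 : (Fin.succ 0 : Fin 2) = Fin.last 1 := rfl
      simp only [ext0]
      rw [h1, Fin.insertNth_apply_same]
      simp [qR]
  | succ k ih =>
    have hl : Fin.last (k + 1) = (Fin.last k).succ := by simp
    rw [hl, ins_succ_eq]
    funext l
    have hc : Fin.last (k + 1 + 1) = (Fin.last (k + 1)).succ := by simp
    rw [hc]
    refine Fin.cases ?_ (fun m => ?_) l
    · have h0 : (0 : Fin (k + 3)) = (Fin.last (k + 1)).succ.succAbove 0 := by simp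
      conv_rhs => rw [h0]
      simp only [ext0]
      rw [Fin.insertNth_apply_succAbove]
      simp [qR]
    · have h2 : qR (k + 1 + 1) (Fin.cons (t 0) (ins (Fin.last k) 0 (Fin.tail t))) m.succ =
          t 0 * qR (k + 1) (ins (Fin.last k) 0 (Fin.tail t)) m := by
        simp [qR]
      rw [h2, ih]
      simp only [ext0]
      refine Fin.succAboveCases (Fin.last (k + 1)) ?_ (fun n => ?_) m
      · rw [Fin.insertNth_apply_same, Fin.insertNth_apply_same, mul_zero]
      · have h1 : ((Fin.last (k + 1)).succAbove n).succ =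
            (Fin.last (k + 1)).succ.succAbove n.succ := by simp
        rw [h1, Fin.insertNth_apply_succAbove, Fin.insertNth_apply_succAbove]
        simp [qR]

theorem map_eq_ext0 {k : ℕ} (i : Fin (k + 2)) (x : stdSimplex ℝ (Fin (k + 1)))
    (z : stdSimplex ℝ (Fin (k + 2))) (h : (z : Fin (k + 2) → ℝ) = ext0 i x) :
    z = faceIncl k i x := by
  apply Subtype.ext
  refine h.trans ?_
  funext l
  have hm : ((faceIncl k i x : stdSimplex ℝ (Fin (k + 2))) : Fin (k + 2) → ℝ) =
      FunOnFinite.linearMap ℝ ℝ i.succAbove x := by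
    rfl
  refine Eq.trans ?_ (congrFun hm l).symm
  rw [FunOnFinite.linearMap_apply_apply]
  refine Fin.succAboveCases i ?_ (fun n => ?_) l
  · simp only [ext0]
    rw [Fin.insertNth_apply_same]
    symm
    apply Finset.sum_eq_zero
    intro j hj
    exact absurd (Finset.mem_filter.1 hj).2 (Fin.succAbove_ne i j)
  · simp only [ext0]
    rw [Fin.insertNth_apply_succAbove]
    have : (Finset.univ.filter fun j : Fin (k + 1) => i.succAbove j = i.succAbove n) = {n} := by
      ext j
      simp
    rw [this, Finset.sum_singleton]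

theorem qR_cons (k : ℕ) (a : ℝ) (v : Fin k → ℝ) :
    qR (k + 1) (Fin.cons a v) = Fin.cons (1 - a) (fun i => a * qR k v i) := by
  simp [qR]

theorem qR_indep (k : ℕ) (t t' : Fin (k + 1) → ℝ) (h : ∀ j, j ≠ Fin.last k → t j = t' j)
    (i : Fin (k + 2)) (hi : i ≠ Fin.last (k + 1)) :
    qR (k + 2) (ins i 0 t) = qR (k + 2) (ins i 0 t') := by
  induction k with
  | zero =>
    have hi0 : i = 0 := by
      by_contra hne
      apply hi
      apply Fin.ext
      have h1 := i.2
      have h2 : (i : ℕ) ≠ 0 := fun h => hne (Fin.ext h)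
      simp only [Fin.val_last]
      omega
    subst hi0
    rw [ins_zero_eq, ins_zero_eq, qR_cons, qR_cons]
    simp
  | succ k ih =>
    revert hi
    refine Fin.cases ?_ (fun j => ?_) i
    · intro _
      rw [ins_zero_eq, ins_zero_eq, qR_cons, qR_cons]
      simp
    · intro hi
      have hj : j ≠ Fin.last (k + 1) := by
        rintro rfl
        exact hi (by simp)
      have h0 : t 0 = t' 0 := h 0 (by
        intro h
        have := congrArg Fin.val h
        simp at this)
      rw [ins_succ_eq, ins_succ_eq, qR_cons, qR_cons, h0,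
        ih (Fin.tail t) (Fin.tail t') (fun l hl => h l.succ (by
          intro h
          apply hl
          apply Fin.succ_injective
          rw [h]
          simp)) j hj]

end H3

open H3 in
theorem claimQS_proof : claimQS := by
  refine ⟨qR_smooth, ?_, qS_cont, ?_, ?_, ?_, ?_⟩
  · intro k t ht i
    change qR k (clamp t) i = qR k t i
    rw [clamp_eq ht]
  · intro k t ht i
    exact ⟨ins_mem ht i ⟨zero_le_one, le_rfl⟩, ins_mem ht i ⟨le_rfl, zero_le_one⟩⟩
  · intro k t ht i
    apply map_eq_ext0
    change qR (k + 1) (clamp (ins i 1 t)) = ext0 i.castSucc (qR k (clamp t))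
    rw [clamp_eq ht, clamp_eq (ins_mem ht i ⟨zero_le_one, le_rfl⟩), qR_face1]
  · intro k t ht
    apply map_eq_ext0
    change qR (k + 1) (clamp (ins (Fin.last k) 0 t)) = ext0 (Fin.last (k + 1)) (qR k (clamp t))
    rw [clamp_eq ht, clamp_eq (ins_mem ht (Fin.last k) ⟨le_rfl, zero_le_one⟩), qR_face0]
  · intro k t ht a ha i hi
    have ht' : Function.update t (Fin.last k) a ∈ cube (k + 1) := by
      constructor
      · intro j
        by_cases hj : j = Fin.last k
        · subst hj
          simpa using ha.1
        · simpa [Function.update_of_ne hj] using ht.1 j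
      · intro j
        by_cases hj : j = Fin.last k
        · subst hj
          simpa using ha.2
        · simpa [Function.update_of_ne hj] using ht.2 j
    apply Subtype.ext
    change qR (k + 2) (clamp (ins i 0 (Function.update t (Fin.last k) a))) =
      qR (k + 2) (clamp (ins i 0 t))
    rw [clamp_eq (ins_mem ht' i ⟨le_rfl, zero_le_one⟩),
      clamp_eq (ins_mem ht i ⟨le_rfl, zero_le_one⟩)]
    exact qR_indep k _ _ (fun j hj => Function.update_of_ne hj _ _) i hi

end NRF.H
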