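import Pool.Agent.Work.MP_7f974f_gt.Stmts_A

/-!
# Taylor polynomials
-/

open scoped Manifold ContDiff Topology
open Set

noncomputable section

namespace NRF

namespace Jet

/-- coordinates centred at `y` -/
def xx (y : E4) (j : Fin 4) (z : E4) : ℝ := (z - y) j

def P1 (y : E4) (a : Fin 4 → ℝ) (z : E4) : ℝ := ∑ j, a j * xx y j z
def P2 (y : E4) (b : Fin 4 → Fin 4 → ℝ) (z : E4) : ℝ :=
  1 / 2 * ∑ j, ∑ k, b j k * (xx y j z * xx y k z)
def P3 (y : E4) (c : Fin 4 → Fin 4 → Fin 4 → ℝ) (z : E4) : ℝ :=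
  1 / 6 * ∑ j, ∑ k, ∑ l, c j k l * (xx y j z * xx y k z * xx y l z)

theorem hx (y : E4) (j : Fin 4) (z : E4) :
    HasFDerivAt (xx y j) (EuclideanSpace.proj j : E4 →L[ℝ] ℝ) z := by
  have h1 : HasFDerivAt (fun z : E4 => z - y) (ContinuousLinearMap.id ℝ E4) z :=
    (hasFDerivAt_id z).sub_const y
  have h2 := ((EuclideanSpace.proj j : E4 →L[ℝ] ℝ).hasFDerivAt (x := z - y)).comp z h1
  rw [ContinuousLinearMap.comp_id] at h2
  exact h2

theorem projb (i j : Fin 4) : (EuclideanSpace.proj j : E4 →L[ℝ] ℝ) (bv i) = if j = i then 1 else 0 := by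
  simp [bv]

theorem xx_self (y : E4) (j : Fin 4) : xx y j y = 0 := by simp [xx]

theorem P1_self (y : E4) (a) : P1 y a y = 0 := by simp [P1, xx_self]
theorem P2_self (y : E4) (a) : P2 y a y = 0 := by simp [P2, xx_self]
theorem P3_self (y : E4) (a) : P3 y a y = 0 := by simp [P3, xx_self]

theorem xx_smooth (y : E4) (j : Fin 4) : ContDiff ℝ ∞ (xx y j) := by
  have : xx y j = fun z => (EuclideanSpace.proj j : E4 →L[ℝ] ℝ) (z - y) := rfl
  rw [this]
  exact (EuclideanSpace.proj j : E4 →L[ℝ] ℝ).contDiff.comp (contDiff_id.sub contDiff_const)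

theorem P1_smooth (y : E4) (a) : ContDiff ℝ ∞ (P1 y a) :=
  ContDiff.sum fun j _ => contDiff_const.mul (xx_smooth y j)
theorem P2_smooth (y : E4) (a) : ContDiff ℝ ∞ (P2 y a) :=
  contDiff_const.mul (ContDiff.sum fun j _ => ContDiff.sum fun k _ =>
    contDiff_const.mul ((xx_smooth y j).mul (xx_smooth y k)))
theorem P3_smooth (y : E4) (a) : ContDiff ℝ ∞ (P3 y a) :=
  contDiff_const.mul (ContDiff.sum fun j _ => ContDiff.sum fun k _ => ContDiff.sum fun l _ =>
    contDiff_const.mul (((xx_smooth y j).mul (xx_smooth y k)).mul (xx_smooth y l)))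

theorem pd_P1 (y : E4) (a : Fin 4 → ℝ) (i : Fin 4) (z : E4) : pd i (P1 y a) z = a i := by
  have h : HasFDerivAt (P1 y a) (∑ j, a j • (EuclideanSpace.proj j : E4 →L[ℝ] ℝ)) z := by
    have := HasFDerivAt.fun_sum (u := Finset.univ) fun (j : Fin 4) _ =>
      (hx y j z).const_mul (a j)
    exact this
  unfold pd
  rw [h.fderiv, sum_apply]
  simp only [smul_apply, projb, smul_eq_mul, mul_ite, mul_one, mul_zero,
    Finset.sum_ite_eq', Finset.mem_univ, if_true]

theorem pd_P2 (y : E4) (b : Fin 4 → Fin 4 → ℝ) (hb : ∀ i j, b i j = b j i) (i : Fin 4) (z : E4) :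
    pd i (P2 y b) z = P1 y (b i) z := by
  have h := (HasFDerivAt.fun_sum (u := Finset.univ) fun (j : Fin 4) _ =>
    HasFDerivAt.fun_sum (u := Finset.univ) fun (k : Fin 4) _ =>
      ((hx y j z).mul (hx y k z)).const_mul (b j k)).const_mul (1 / 2 : ℝ)
  unfold pd
  have e : P2 y b = fun x => 1 / 2 * ∑ j, ∑ k, b j k * (xx y j * xx y k) x := rfl
  rw [e, h.fderiv]
  simp only [smul_apply, sum_apply,
    add_apply, projb, smul_eq_mul, mul_add, mul_ite, mul_one, mul_zero,
    Finset.sum_add_distrib, Finset.sum_ite_eq', Finset.mem_univ, if_true]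
  have e2 : ∀ j : Fin 4, ∑ k, (if j = i then b j k * xx y k z else 0) =
      if j = i then ∑ k, b j k * xx y k z else 0 := by
    intro j; split_ifs <;> simp
  simp only [e2, Finset.sum_ite_eq', Finset.mem_univ, if_true]
  unfold P1
  have e3 : ∑ j, b j i * xx y j z = ∑ j, b i j * xx y j z :=
    Finset.sum_congr rfl fun j _ => by rw [hb j i]
  rw [e3]
  ring

theorem pd_P3 (y : E4) (c : Fin 4 → Fin 4 → Fin 4 → ℝ) (h1 : ∀ i j k, c i j k = c j i k)
    (h2 : ∀ i j k, c i j k = c i k j) (i : Fin 4) (z : E4) :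
    pd i (P3 y c) z = P2 y (c i) z := by
  have h := (HasFDerivAt.fun_sum (u := Finset.univ) fun (j : Fin 4) _ =>
    HasFDerivAt.fun_sum (u := Finset.univ) fun (k : Fin 4) _ =>
    HasFDerivAt.fun_sum (u := Finset.univ) fun (l : Fin 4) _ =>
      (((hx y j z).mul (hx y k z)).mul (hx y l z)).const_mul (c j k l)).const_mul (1 / 6 : ℝ)
  unfold pd
  have e : P3 y c = fun x => 1 / 6 * ∑ j, ∑ k, ∑ l, c j k l * (xx y j * xx y k * xx y l) x := rfl
  rw [e, h.fderiv]
  simp only [smul_apply, sum_apply,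
    add_apply, projb, smul_eq_mul, mul_add, mul_ite, mul_one, mul_zero,
    Finset.sum_add_distrib, Finset.sum_ite_eq', Finset.mem_univ, if_true, Pi.mul_apply]
  have e2 : ∀ (j : Fin 4) (f : Fin 4 → ℝ), ∑ k, (if j = i then f k else 0) =
      if j = i then ∑ k, f k else 0 := by
    intro j f; split_ifs <;> simp
  simp only [e2, Finset.sum_ite_eq', Finset.mem_univ, if_true]
  unfold P2
  have e3 : ∑ j, ∑ k, c j k i * (xx y j z * xx y k z) =
      ∑ j, ∑ k, c i j k * (xx y j z * xx y k z) :=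
    Finset.sum_congr rfl fun j _ => Finset.sum_congr rfl fun k _ => by
      rw [h2 j k i, h1 j i k]
  have e4 : ∑ j, ∑ l, c j i l * (xx y l z * xx y j z) =
      ∑ j, ∑ k, c i j k * (xx y j z * xx y k z) :=
    Finset.sum_congr rfl fun j _ => Finset.sum_congr rfl fun k _ => by
      rw [h1 j i k, mul_comm (xx y k z)]
  have e5 : ∑ k, ∑ l, c i k l * (xx y l z * xx y k z) =
      ∑ j, ∑ k, c i j k * (xx y j z * xx y k z) :=
    Finset.sum_congr rfl fun j _ => Finset.sum_congr rfl fun k _ => by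
      rw [mul_comm (xx y k z)]
  rw [e3]
  try rw [e4]
  try rw [e5]
  ring

theorem pd_add {f g : E4 → ℝ} {z : E4} (hf : DifferentiableAt ℝ f z) (hg : DifferentiableAt ℝ g z)
    (i : Fin 4) : pd i (fun x => f x + g x) z = pd i f z + pd i g z := by
  unfold pd
  rw [fderiv_fun_add hf hg]
  rfl

theorem pd_const (c : ℝ) (i : Fin 4) (z : E4) : pd i (fun _ => c) z = 0 := by
  unfold pd
  simp

theorem main (y : E4) (u0 : ℝ) (a : Fin 4 → ℝ) (b : Fin 4 → Fin 4 → ℝ)
    (c : Fin 4 → Fin 4 → Fin 4 → ℝ) (hb : ∀ i j, b i j = b j i) (h1 : ∀ i j k, c i j k = c j i k)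
    (h2 : ∀ i j k, c i j k = c i k j) :
    ∃ v : E4 → ℝ, ContDiff ℝ ∞ v ∧ v y = u0 ∧ (∀ i, pd i v y = a i) ∧
      (∀ i j, pd i (pd j v) y = b i j) ∧ (∀ i j k, pd i (pd j (pd k v)) y = c i j k) := by
  have d1 : ∀ a z, DifferentiableAt ℝ (P1 y a) z := fun a z =>
    (P1_smooth y a).differentiable (by simp) z
  have d2 : ∀ a z, DifferentiableAt ℝ (P2 y a) z := fun a z =>
    (P2_smooth y a).differentiable (by simp) z
  have d3 : ∀ a z, DifferentiableAt ℝ (P3 y a) z := fun a z =>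
    (P3_smooth y a).differentiable (by simp) z
  have d0 : ∀ (c : ℝ) z, DifferentiableAt ℝ (fun _ : E4 => c) z := fun c z =>
    differentiableAt_const c
  let v : E4 → ℝ := fun z => (u0 + P1 y a z) + (P2 y b z + P3 y c z)
  have e1 : ∀ i, pd i v = fun z => a i + (P1 y (b i) z + P2 y (c i) z) := by
    intro i
    funext z
    rw [show pd i v z = pd i (fun x => (fun x => u0 + P1 y a x) x +
        (fun x => P2 y b x + P3 y c x) x) z from rfl,
      pd_add (f := fun x => u0 + P1 y a x) (g := fun x => P2 y b x + P3 y c x)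
        ((d0 u0 z).add (d1 a z)) ((d2 b z).add (d3 c z)),
      pd_add (f := fun _ => u0) (d0 u0 z) (d1 a z),
      pd_add (d2 b z) (d3 c z), pd_const, pd_P1, pd_P2 y b hb, pd_P3 y c h1 h2]
    ring
  have e2 : ∀ i j, pd j (pd i v) = fun z => b i j + P1 y (c i j) z := by
    intro i j
    rw [e1]
    funext z
    rw [pd_add (f := fun _ => a i) (g := fun z => P1 y (b i) z + P2 y (c i) z)
        (d0 _ z) ((d1 _ z).add (d2 _ z)), pd_add (d1 _ z) (d2 _ z), pd_const, pd_P1,
      pd_P2 y (c i) (h2 i)]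
    ring
  have e3 : ∀ i j k, pd k (pd j (pd i v)) = fun z => c i j k := by
    intro i j k
    rw [e2]
    funext z
    rw [pd_add (f := fun _ => b i j) (d0 _ z) (d1 _ z), pd_const, pd_P1]
    ring
  refine ⟨v, (contDiff_const.add (P1_smooth y a)).add ((P2_smooth y b).add (P3_smooth y c)),
    ?_, ?_, ?_, ?_⟩
  · simp [v, P1_self, P2_self, P3_self]
  · intro i
    rw [e1]
    simp [P1_self, P2_self]
  · intro i j
    rw [e2]
    simp only [P1_self, add_zero]
    exact hb j i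
  · intro i j k
    rw [e3]
    show c k j i = c i j k
    rw [h1 k j i, h2 j k i, h1 j i k]

/-- symmetry of second derivatives -/
theorem pd_pd {u : E4 → ℝ} {y : E4} (h : ContDiffAt ℝ 2 u y) (i j : Fin 4) :
    pd i (pd j u) y = fderiv ℝ (fderiv ℝ u) y (bv i) (bv j) := by
  have h1 : ContDiffAt ℝ 1 (fderiv ℝ u) y := h.fderiv_right (by norm_num)
  have hd : DifferentiableAt ℝ (fderiv ℝ u) y := h1.differentiableAt (by norm_num)
  have := (hd.hasFDerivAt.clm_apply (hasFDerivAt_const (bv j) y)).fderiv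
  unfold pd
  rw [this]
  simp

theorem pd_symm {u : E4 → ℝ} {y : E4} (h : ContDiffAt ℝ 2 u y) (i j : Fin 4) :
    pd i (pd j u) y = pd j (pd i u) y := by
  rw [pd_pd h, pd_pd h]
  exact (h.isSymmSndFDerivAt (by simp [minSmoothness_of_isRCLikeNormedField])) _ _

theorem pd_contDiff {u : E4 → ℝ} {y : E4} {n m : WithTop ℕ∞} (h : ContDiffAt ℝ n u y) (hm : m + 1 ≤ n)
    (j : Fin 4) : ContDiffAt ℝ m (pd j u) y :=
  (h.fderiv_right hm).clm_apply contDiffAt_const

end Jet

open Jet in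
theorem thm_Jet : claimJet := by
  constructor
  · intro u y h
    obtain ⟨v, h1, h2, h3, h4, -⟩ := Jet.main y (u y) (fun i => pd i u y)
      (fun i j => pd i (pd j u) y) (fun _ _ _ => 0) (fun i j => pd_symm h i j)
      (fun _ _ _ => rfl) (fun _ _ _ => rfl)
    exact ⟨v, h1, h2, h3, h4⟩
  · intro u y h
    have h2' : ContDiffAt ℝ 2 u y := h.of_le (by norm_num)
    refine Jet.main y (u y) (fun i => pd i u y)
      (fun i j => pd i (pd j u) y) (fun i j k => pd i (pd j (pd k u)) y)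
      (fun i j => pd_symm h2' i j) (fun i j k => ?_) (fun i j k => ?_)
    · exact pd_symm (pd_contDiff h (by norm_num) k) i j
    · have : pd j (pd k u) =ᶠ[𝓝 y] pd k (pd j u) := by
        have h3 : ∀ᶠ z in 𝓝 y, ContDiffAt ℝ 2 u z := h2'.eventually (by simp)
        filter_upwards [h3] with z hz
        exact pd_symm hz j k
      show fderiv ℝ _ y (bv i) = fderiv ℝ _ y (bv i)
      rw [this.fderiv_eq]

end NRF
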