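import Pool.Agent.Work.MP_7f974f_gt.Stmts_C

/-!
# C2: inversion of `(w + ζ∂_ζ)/2 - a^ij ∂_i ∂_j` on polynomials
-/

open scoped Manifold ContDiff Topology
open MeasureTheory Set

noncomputable section

namespace NRF

namespace C2

variable {W : Type} [NormedAddCommGroup W] [NormedSpace ℝ W]

/-- Monomials. -/
def mono (α : Fin 4 → ℕ) (z : E4) : ℝ := ∏ i, z i ^ α i

theorem mono_contDiff (α : Fin 4 → ℕ) : ContDiff ℝ ∞ (mono α) := by
  unfold mono
  refine contDiff_prod fun i _ => ContDiff.pow ?_ _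
  exact (EuclideanSpace.proj i : E4 →L[ℝ] ℝ).contDiff

theorem mono_differentiable (α : Fin 4 → ℕ) : Differentiable ℝ (mono α) :=
  (mono_contDiff α).differentiable (by simp)

theorem mono_pd (α : Fin 4 → ℕ) (i : Fin 4) (z : E4) :
    pd i (mono α) z = (α i : ℝ) * mono (Function.update α i (α i - 1)) z := by
  have h1 : pd i (mono α) z = lineDeriv ℝ (mono α) z (bv i) :=
    ((mono_differentiable α z).lineDeriv_eq_fderiv).symm
  rw [h1, lineDeriv]
  have h2 : (fun t : ℝ => mono α (z + t • bv i)) =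
      fun t : ℝ => (z i + t) ^ α i * ∏ k ∈ Finset.univ.erase i, z k ^ α k := by
    funext t
    rw [mono, ← Finset.mul_prod_erase _ _ (Finset.mem_univ i)]
    congr 1
    · simp [bv]
    · refine Finset.prod_congr rfl fun k hk => ?_
      have hk' : k ≠ i := Finset.ne_of_mem_erase hk
      simp [bv, hk']
  have h3 : HasDerivAt (fun t : ℝ => (z i + t) ^ α i * ∏ k ∈ Finset.univ.erase i, z k ^ α k)
      ((α i : ℝ) * (z i + 0) ^ (α i - 1) * 1 * ∏ k ∈ Finset.univ.erase i, z k ^ α k) 0 := by
    refine HasDerivAt.mul_const ?_ _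
    exact ((hasDerivAt_id (0 : ℝ)).const_add (z i)).pow (α i)
  rw [h2, h3.deriv, mono, ← Finset.mul_prod_erase _ _ (Finset.mem_univ i)]
  have h4 : ∏ k ∈ Finset.univ.erase i, z k ^ (Function.update α i (α i - 1)) k =
      ∏ k ∈ Finset.univ.erase i, z k ^ α k := by
    refine Finset.prod_congr rfl fun k hk => ?_
    rw [Function.update_of_ne (Finset.ne_of_mem_erase hk)]
  rw [h4, Function.update_self]
  ring

theorem mono_euler (α : Fin 4 → ℕ) (z : E4) :
    fderiv ℝ (mono α) z z = ((∑ i, α i : ℕ) : ℝ) * mono α z := by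
  have h1 : fderiv ℝ (mono α) z z = lineDeriv ℝ (mono α) z z :=
    ((mono_differentiable α z).lineDeriv_eq_fderiv).symm
  rw [h1, lineDeriv]
  have h2 : (fun t : ℝ => mono α (z + t • z)) =
      fun t : ℝ => (1 + t) ^ (∑ i, α i) * mono α z := by
    funext t
    rw [mono, mono, ← Finset.prod_pow_eq_pow_sum, ← Finset.prod_mul_distrib]
    refine Finset.prod_congr rfl fun k _ => ?_
    rw [← mul_pow]
    congr 1
    simp only [PiLp.add_apply, PiLp.smul_apply, smul_eq_mul]
    ring
  have h3 : HasDerivAt (fun t : ℝ => (1 + t) ^ (∑ i, α i) * mono α z)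
      (((∑ i, α i : ℕ) : ℝ) * (1 + 0) ^ ((∑ i, α i) - 1) * 1 * mono α z) 0 := by
    refine HasDerivAt.mul_const ?_ _
    exact ((hasDerivAt_id (0 : ℝ)).const_add 1).pow _
  rw [h2, h3.deriv]
  simp

/-- A smooth scalar function times a constant vector. -/
theorem pd_smul_const {f : E4 → ℝ} (hf : Differentiable ℝ f) (c : W) (i : Fin 4) :
    pd i (fun z => f z • c) = fun z => pd i f z • c := by
  funext z
  simp only [pd]
  rw [fderiv_smul_const (hf z)]
  rfl

theorem pd_const_mul {f : E4 → ℝ} (hf : Differentiable ℝ f) (c : ℝ) (i : Fin 4) :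
    pd i (fun z => c * f z) = fun z => c * pd i f z := by
  funext z
  simp only [pd]
  rw [fderiv_const_mul (hf z)]
  rfl

/-- The coefficient of the second derivative of a monomial. -/
def cf (α : Fin 4 → ℕ) (i j : Fin 4) : ℝ :=
  (α j : ℝ) * ((Function.update α j (α j - 1) i : ℕ) : ℝ)

/-- The exponent of the second derivative of a monomial. -/
def ex (α : Fin 4 → ℕ) (i j : Fin 4) : Fin 4 → ℕ :=
  Function.update (Function.update α j (α j - 1)) i (Function.update α j (α j - 1) i - 1)

theorem mono_pd_pd (α : Fin 4 → ℕ) (i j : Fin 4) (z : E4) :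
    pd i (pd j (mono α)) z = cf α i j * mono (ex α i j) z := by
  have h : pd j (mono α) = fun z => (α j : ℝ) * mono (Function.update α j (α j - 1)) z := by
    funext z
    exact mono_pd α j z
  rw [h, pd_const_mul (mono_differentiable _)]
  change (α j : ℝ) * pd i (mono (Function.update α j (α j - 1))) z = _
  rw [mono_pd, cf, ex]
  ring

theorem sum_update_pred (α : Fin 4 → ℕ) (i : Fin 4) (h : α i ≠ 0) :
    ∑ k, Function.update α i (α i - 1) k + 1 = ∑ k, α k := by
  rw [← Finset.add_sum_erase _ _ (Finset.mem_univ i),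
    ← Finset.add_sum_erase _ α (Finset.mem_univ i), Function.update_self]
  have h4 : ∑ k ∈ Finset.univ.erase i, (Function.update α i (α i - 1)) k =
      ∑ k ∈ Finset.univ.erase i, α k := by
    refine Finset.sum_congr rfl fun k hk => ?_
    rw [Function.update_of_ne (Finset.ne_of_mem_erase hk)]
  rw [h4]
  omega

theorem ex_lt (α : Fin 4 → ℕ) (i j : Fin 4) (h : cf α i j ≠ 0) :
    ∑ k, ex α i j k < ∑ k, α k := by
  rw [cf] at h
  have h1 : α j ≠ 0 := by
    intro h0
    apply h
    rw [h0]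
    simp
  have h2 : Function.update α j (α j - 1) i ≠ 0 := by
    intro h0
    apply h
    rw [h0]
    simp
  have e1 := sum_update_pred α j h1
  have e2 := sum_update_pred (Function.update α j (α j - 1)) i h2
  rw [ex]
  omega

/-! ### Polynomials -/

theorem isPoly_zero : IsPoly (fun (_ : ℝ) (_ _ : E4) => (0 : W)) :=
  ⟨∅, fun _ _ => 0, fun _ => contDiff_const, fun _ _ _ => by simp⟩

theorem isPoly_mono (α : Fin 4 → ℕ) (p : ℝ × E4 → W) (hp : ContDiff ℝ ∞ p) :
    IsPoly (fun s y z => mono α z • p (s, y)) :=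
  ⟨{α}, fun _ => p, fun _ => hp, fun s y z => by simp [mono]⟩

theorem isPoly_add {P Q : ℝ → E4 → E4 → W} (hP : IsPoly P) (hQ : IsPoly Q) :
    IsPoly (fun s y z => P s y z + Q s y z) := by
  classical
  obtain ⟨A, p, hp, hP⟩ := hP
  obtain ⟨B, q, hq, hQ⟩ := hQ
  refine ⟨A ∪ B, fun α x => (if α ∈ A then p α x else 0) + (if α ∈ B then q α x else 0), ?_, ?_⟩
  · intro α
    refine ContDiff.add ?_ ?_
    · by_cases h : α ∈ A
      · simpa [h] using hp α
      · simpa [h] using contDiff_const
    · by_cases h : α ∈ B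
      · simpa [h] using hq α
      · simpa [h] using contDiff_const
  · intro s y z
    change P s y z + Q s y z = _
    rw [hP, hQ]
    simp only [smul_add, Finset.sum_add_distrib, smul_ite, smul_zero]
    congr 1
    · rw [Finset.sum_ite_mem, Finset.union_inter_cancel_left]
    · rw [Finset.sum_ite_mem, Finset.union_inter_cancel_right]

theorem isPoly_sum {ι : Type} (T : Finset ι) (P : ι → ℝ → E4 → E4 → W)
    (h : ∀ i ∈ T, IsPoly (P i)) : IsPoly (fun s y z => ∑ i ∈ T, P i s y z) := by
  classical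
  induction T using Finset.induction_on with
  | empty => simpa using isPoly_zero
  | insert i T hi ih =>
    have h1 := isPoly_add (h i (Finset.mem_insert_self i T))
      (ih fun k hk => h k (Finset.mem_insert_of_mem hk))
    have h2 : (fun s y z => ∑ k ∈ insert i T, P k s y z) =
        fun s y z => P i s y z + ∑ k ∈ T, P k s y z := by
      funext s y z
      rw [Finset.sum_insert hi]
    rw [h2]
    exact h1

theorem isPoly_contDiff {P : ℝ → E4 → E4 → W} (hP : IsPoly P) (s : ℝ) (y : E4) :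
    ContDiff ℝ ∞ (P s y) := by
  obtain ⟨A, p, hp, hP⟩ := hP
  have h : P s y = fun z => ∑ α ∈ A, mono α z • p α (s, y) := by
    funext z
    exact hP s y z
  rw [h]
  exact ContDiff.sum fun α _ => (mono_contDiff α).smul contDiff_const

/-! ### The operator -/

/-- The operator. -/
def Lop (a : Matrix (Fin 4) (Fin 4) ℝ) (w : ℕ) (Q : E4 → W) (z : E4) : W :=
  (1 / 2 : ℝ) • ((w : ℝ) • Q z + fderiv ℝ Q z z) - (∑ i, ∑ j, a i j • pd i (pd j Q) z)

theorem pd_add {f g : E4 → W} (hf : ContDiff ℝ ∞ f) (hg : ContDiff ℝ ∞ g) (i : Fin 4) :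
    pd i (fun z => f z + g z) = fun z => pd i f z + pd i g z := by
  funext z
  simp only [pd]
  have h := fderiv_add ((hf.differentiable (by simp)) z) ((hg.differentiable (by simp)) z)
  have h' : fderiv ℝ (fun z => f z + g z) z = fderiv ℝ f z + fderiv ℝ g z := h
  rw [h']
  rfl

theorem pd_contDiff {f : E4 → W} (hf : ContDiff ℝ ∞ f) (i : Fin 4) : ContDiff ℝ ∞ (pd i f) :=
  (hf.fderiv_right (m := ∞) (by simp)).clm_apply contDiff_const

theorem Lop_add (a : Matrix (Fin 4) (Fin 4) ℝ) (w : ℕ) {f g : E4 → W} (hf : ContDiff ℝ ∞ f)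
    (hg : ContDiff ℝ ∞ g) (z : E4) :
    Lop a w (fun z => f z + g z) z = Lop a w f z + Lop a w g z := by
  have h := fderiv_add ((hf.differentiable (by simp)) z) ((hg.differentiable (by simp)) z)
  have h' : fderiv ℝ (fun z => f z + g z) z = fderiv ℝ f z + fderiv ℝ g z := h
  have h2 : ∀ i j : Fin 4, pd i (pd j (fun z => f z + g z)) z =
      pd i (pd j f) z + pd i (pd j g) z := by
    intro i j
    rw [pd_add hf hg, pd_add (pd_contDiff hf j) (pd_contDiff hg j)]
  simp only [Lop, h', h2, smul_add, Finset.sum_add_distrib, add_apply]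
  abel

theorem Lop_zero (a : Matrix (Fin 4) (Fin 4) ℝ) (w : ℕ) (z : E4) :
    Lop a w (fun _ : E4 => (0 : W)) z = 0 := by
  have h : ∀ i : Fin 4, pd i (fun _ : E4 => (0 : W)) = fun _ => 0 := by
    intro i
    funext z
    simp [pd]
  simp [Lop, h]

theorem Lop_sum {ι : Type} (a : Matrix (Fin 4) (Fin 4) ℝ) (w : ℕ) (T : Finset ι)
    (f : ι → E4 → W) (hf : ∀ i ∈ T, ContDiff ℝ ∞ (f i)) (z : E4) :
    Lop a w (fun z => ∑ i ∈ T, f i z) z = ∑ i ∈ T, Lop a w (f i) z := by
  classical
  induction T using Finset.induction_on with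
  | empty => simpa using Lop_zero a w z
  | insert i T hi ih =>
    rw [Finset.sum_insert hi, ← ih fun k hk => hf k (Finset.mem_insert_of_mem hk),
      ← Lop_add a w (hf i (Finset.mem_insert_self i T))
        (ContDiff.sum fun k hk => hf k (Finset.mem_insert_of_mem hk))]
    congr 1
    funext z
    rw [Finset.sum_insert hi]

theorem Lop_mono (a : Matrix (Fin 4) (Fin 4) ℝ) (w : ℕ) (α : Fin 4 → ℕ) (c : W) (z : E4) :
    Lop a w (fun z => mono α z • c) z =
      (((w : ℝ) + ((∑ i, α i : ℕ) : ℝ)) / 2) • (mono α z • c) -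
        ∑ i, ∑ j, (a i j * cf α i j) • (mono (ex α i j) z • c) := by
  have h1 : fderiv ℝ (fun z => mono α z • c) z z = (((∑ i, α i : ℕ) : ℝ) * mono α z) • c := by
    rw [fderiv_smul_const (mono_differentiable α z)]
    change (fderiv ℝ (mono α) z z) • c = _
    rw [mono_euler]
  have h2 : ∀ i j : Fin 4, pd i (pd j (fun z => mono α z • c)) z =
      cf α i j • (mono (ex α i j) z • c) := by
    intro i j
    have hd : Differentiable ℝ (pd j (mono α)) :=
      (pd_contDiff (mono_contDiff α) j).differentiable (by simp)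
    rw [pd_smul_const (mono_differentiable α), pd_smul_const hd]
    change pd i (pd j (mono α)) z • c = _
    rw [mono_pd_pd, mul_smul]
  simp only [Lop, h1, h2, smul_smul]
  congr 1
  · rw [← add_smul, smul_smul]
    congr 1
    ring
  · simp only [mul_assoc]

/-- Solution for one monomial. -/
theorem solve_mono (a : ℝ × E4 → Matrix (Fin 4) (Fin 4) ℝ)
    (ha : ∀ i j, ContDiff ℝ ∞ fun q => a q i j) (w : ℕ) (hw : 1 ≤ w) (N : ℕ) :
    ∀ α : Fin 4 → ℕ, ∑ k, α k ≤ N → ∀ p : ℝ × E4 → W, ContDiff ℝ ∞ p →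
      ∃ Q : ℝ → E4 → E4 → W, IsPoly Q ∧
        ∀ s y z, Lop (a (s, y)) w (Q s y) z = mono α z • p (s, y) := by
  induction N using Nat.strong_induction_on with
  | _ N ih =>
    intro α hα p hp
    have hstep : ∀ i j : Fin 4, ∃ Q : ℝ → E4 → E4 → W, IsPoly Q ∧ ∀ s y z,
        Lop (a (s, y)) w (Q s y) z =
          (a (s, y) i j * cf α i j) • (mono (ex α i j) z • p (s, y)) := by
      intro i j
      by_cases hc : cf α i j = 0
      · refine ⟨fun _ _ _ => 0, isPoly_zero, fun s y z => ?_⟩
        rw [Lop_zero, hc, mul_zero, zero_smul]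
      · have hlt := ex_lt α i j hc
        obtain ⟨Q, hQ, hQL⟩ := ih (∑ k, ex α i j k) (by omega) (ex α i j) le_rfl
          (fun q => (a q i j * cf α i j) • p q) (((ha i j).mul contDiff_const).smul hp)
        refine ⟨Q, hQ, fun s y z => ?_⟩
        rw [hQL, smul_comm]
    choose Q hQ hQL using hstep
    set κ : ℝ := 2 / ((w : ℝ) + ((∑ i, α i : ℕ) : ℝ)) with hκ
    have hpos : (0 : ℝ) < (w : ℝ) + ((∑ i, α i : ℕ) : ℝ) := by
      have h1 : (1 : ℝ) ≤ (w : ℝ) := by exact_mod_cast hw
      have h2 : (0 : ℝ) ≤ ((∑ i, α i : ℕ) : ℝ) := Nat.cast_nonneg _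
      linarith
    -- rescale the coefficient first
    obtain ⟨Q', hQ', hQL'⟩ : ∃ Q' : ℝ → E4 → E4 → W, IsPoly Q' ∧ ∀ s y z,
        Lop (a (s, y)) w (Q' s y) z =
          ∑ i, ∑ j, (a (s, y) i j * cf α i j) • (mono (ex α i j) z • p (s, y)) := by
      refine ⟨fun s y z => ∑ i, ∑ j, Q i j s y z, ?_, ?_⟩
      · exact isPoly_sum _ _ fun i _ => isPoly_sum _ _ fun j _ => hQ i j
      · intro s y z
        rw [Lop_sum _ _ _ (fun i z => ∑ j, Q i j s y z)
          fun i _ => ContDiff.sum fun j _ => isPoly_contDiff (hQ i j) s y]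
        refine Finset.sum_congr rfl fun i _ => ?_
        rw [Lop_sum _ _ _ (fun j z => Q i j s y z) fun j _ => isPoly_contDiff (hQ i j) s y]
        exact Finset.sum_congr rfl fun j _ => hQL i j s y z
    refine ⟨fun s y z => κ • (mono α z • p (s, y) + Q' s y z), ?_, ?_⟩
    · have h1 := isPoly_add (isPoly_mono α p hp) hQ'
      obtain ⟨A, q, hq, hP⟩ := h1
      refine ⟨A, fun β x => κ • q β x, fun β => (hq β).const_smul κ, fun s y z => ?_⟩
      have h2 : mono α z • p (s, y) + Q' s y z = ∑ β ∈ A, (∏ i, z i ^ β i) • q β (s, y) := hP s y z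
      change κ • (mono α z • p (s, y) + Q' s y z) = _
      rw [h2, Finset.smul_sum]
      exact Finset.sum_congr rfl fun β _ => smul_comm _ _ _
    · intro s y z
      have hc1 : ContDiff ℝ ∞ fun z => mono α z • p (s, y) := (mono_contDiff α).smul contDiff_const
      have hc2 := isPoly_contDiff hQ' s y
      have hsc : ∀ f : E4 → W, ContDiff ℝ ∞ f →
          Lop (a (s, y)) w (fun z => κ • f z) z = κ • Lop (a (s, y)) w f z := by
        intro f hf
        have e1 : ∀ (g : E4 → W), ContDiff ℝ ∞ g → ∀ i : Fin 4,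
            pd i (fun z => κ • g z) = fun z => κ • pd i g z := by
          intro g hg i
          funext z
          simp only [pd]
          rw [fderiv_fun_const_smul ((hg.differentiable (by simp)) z)]
          rfl
        have e2 : fderiv ℝ (fun z => κ • f z) z z = κ • fderiv ℝ f z z := by
          rw [fderiv_fun_const_smul ((hf.differentiable (by simp)) z)]
          rfl
        have e3 : ∀ i j : Fin 4, pd i (pd j (fun z => κ • f z)) z = κ • pd i (pd j f) z := by
          intro i j
          rw [e1 f hf, e1 _ (pd_contDiff hf j)]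
        simp only [Lop, e2, e3]
        rw [smul_sub, Finset.smul_sum]
        congr 1
        · rw [smul_comm (w : ℝ) κ, ← smul_add, smul_comm]
        · refine Finset.sum_congr rfl fun i _ => ?_
          rw [Finset.smul_sum]
          exact Finset.sum_congr rfl fun j _ => smul_comm _ _ _
      rw [hsc _ (hc1.add hc2), Lop_add _ _ hc1 hc2, Lop_mono, hQL', sub_add_cancel, smul_smul]
      have : κ * (((w : ℝ) + ((∑ i, α i : ℕ) : ℝ)) / 2) = 1 := by
        rw [hκ]
        field_simp
      rw [this, one_smul]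

end C2

theorem claimInv_proof : claimInv := by
  intro W _ _ _ a ha w hw P hP
  obtain ⟨A, p, hp, hP⟩ := hP
  have h : ∀ α : Fin 4 → ℕ, ∃ Q : ℝ → E4 → E4 → W, IsPoly Q ∧
      ∀ s y z, C2.Lop (a (s, y)) w (Q s y) z = C2.mono α z • p α (s, y) := fun α =>
    C2.solve_mono a ha w hw _ α le_rfl (p α) (hp α)
  choose Q hQ hQL using h
  refine ⟨fun s y z => ∑ α ∈ A, Q α s y z, C2.isPoly_sum _ _ fun α _ => hQ α, ?_⟩
  intro s y z
  have h1 := C2.Lop_sum (a (s, y)) w A (fun α z => Q α s y z)
    (fun α _ => C2.isPoly_contDiff (hQ α) s y) z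
  rw [hP]
  have h2 : ∑ α ∈ A, C2.Lop (a (s, y)) w (fun z => Q α s y z) z =
      ∑ α ∈ A, (∏ i, z i ^ α i) • p α (s, y) :=
    Finset.sum_congr rfl fun α _ => hQL α s y z
  rw [← h2, ← h1]
  rfl

end NRF
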