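import Pool.Agent.Work.MP_7f974f_gt.Stmts_C
import Pool.Agent.Work.MP_7f974f_gt.Bd.B01

/-!
# C7b: the operator `R` smoothes
-/

open scoped ContDiff Topology
open MeasureTheory Set Filter

noncomputable section

namespace NRF

namespace C7b

/-- Inclusion of the variable `ζ`. -/
def injz : E4 →L[ℝ] KP :=
  (ContinuousLinearMap.inr ℝ ℝ (ℝ × E4 × E4)).comp
    ((ContinuousLinearMap.inr ℝ ℝ (E4 × E4)).comp (ContinuousLinearMap.inr ℝ E4 E4))

theorem injz_apply (z : E4) : injz z = (0, 0, 0, z) := rfl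

theorem norm_injz_le : ‖injz‖ ≤ 1 := by
  refine ContinuousLinearMap.opNorm_le_bound _ zero_le_one fun z => ?_
  rw [injz_apply]
  simp [Prod.norm_def]

section general

variable {V : Type} [NormedAddCommGroup V] [NormedSpace ℝ V]

/-- Derivatives in the variable `ζ`, applied to a vector. -/
def Bz (j : ℕ) (m : KP [×j]→L[ℝ] (V →L[ℝ] V)) (v : V) : E4 [×j]→L[ℝ] V :=
  (ContinuousLinearMap.apply ℝ V v).compContinuousMultilinearMap
    (m.compContinuousLinearMap fun _ => injz)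

theorem continuous_Bz (j : ℕ) :
    Continuous fun p : (KP [×j]→L[ℝ] (V →L[ℝ] V)) × V => Bz j p.1 p.2 := by
  have h := (isBoundedBilinearMap_compMultilinear (𝕜 := ℝ) (E := fun _ : Fin j => E4)
    (F := V →L[ℝ] V) (G := V)).continuous
  have h1 : Continuous fun p : (KP [×j]→L[ℝ] (V →L[ℝ] V)) × V =>
      (ContinuousLinearMap.apply ℝ V p.2, p.1.compContinuousLinearMap fun _ => injz) := by
    refine Continuous.prodMk ?_ ?_
    · exact (ContinuousLinearMap.apply ℝ V (E := V)).continuous.comp continuous_snd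
    · exact (ContinuousMultilinearMap.continuous_precomp (fun _ => injz)).comp continuous_fst
  exact h.comp h1

theorem norm_Bz_le (j : ℕ) (m : KP [×j]→L[ℝ] (V →L[ℝ] V)) (v : V) :
    ‖Bz j m v‖ ≤ ‖m‖ * ‖v‖ := by
  refine ContinuousMultilinearMap.opNorm_le_bound (by positivity) fun u => ?_
  have h1 : Bz j m v u = m (fun i => injz (u i)) v := rfl
  rw [h1]
  calc ‖m (fun i => injz (u i)) v‖ ≤ ‖m (fun i => injz (u i))‖ * ‖v‖ :=
        ContinuousLinearMap.le_opNorm _ _
    _ ≤ (‖m‖ * ∏ i, ‖injz (u i)‖) * ‖v‖ := by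
        gcongr
        exact m.le_opNorm _
    _ ≤ (‖m‖ * ∏ i, ‖u i‖) * ‖v‖ := by
        gcongr with i
        refine (injz.le_opNorm _).trans ?_
        have := norm_injz_le
        nlinarith [norm_nonneg (u i)]
    _ = ‖m‖ * ‖v‖ * ∏ i, ‖u i‖ := by ring

/-- Derivatives of the kernels in `x`. -/
theorem iter_ker {H : KP → (V →L[ℝ] V)} (hH : ContDiff ℝ ∞ H) (M j : ℕ) (hj : j < M)
    (s r : ℝ) (y : E4) (v : V) (x : E4) :
    iteratedFDeriv ℝ j (fun x => r ^ M • H (s, r, y, r⁻¹ • (x - y)) v) x =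
      r ^ (M - j) • Bz j (iteratedFDeriv ℝ j H (s, r, y, r⁻¹ • (x - y))) v := by
  rcases eq_or_ne r 0 with hr | hr
  · subst hr
    have h1 : (fun x : E4 => (0 : ℝ) ^ M • H (s, 0, y, (0 : ℝ)⁻¹ • (x - y)) v) = fun _ => 0 := by
      funext x
      rw [zero_pow (by omega), zero_smul]
    rw [h1, zero_pow (by omega), zero_smul]
    simp
  · set A : E4 →L[ℝ] KP := r⁻¹ • injz with hA
    set L : (V →L[ℝ] V) →L[ℝ] V := r ^ M • ContinuousLinearMap.apply ℝ V v with hL
    set c : KP := (s, r, y, - (r⁻¹ • y)) with hc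
    have hAc : ∀ x : E4, A x + c = (s, r, y, r⁻¹ • (x - y)) := by
      intro x
      simp [hA, hc, injz_apply, sub_eq_add_neg]
    have h1 : (fun x : E4 => r ^ M • H (s, r, y, r⁻¹ • (x - y)) v) =
        L ∘ ((fun q => H (q + c)) ∘ A) := by
      funext x
      simp only [Function.comp_apply, hAc]
      rfl
    have hHc : ContDiff ℝ ∞ (fun q => H (q + c)) := hH.comp (contDiff_id.add contDiff_const)
    rw [h1, L.iteratedFDeriv_comp_left (n := ∞) ((hHc.comp A.contDiff).contDiffAt)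
      (by exact_mod_cast le_top), A.iteratedFDeriv_comp_right (n := ∞) hHc x
      (by exact_mod_cast le_top), iteratedFDeriv_comp_add_right, hAc]
    ext u
    simp only [ContinuousLinearMap.compContinuousMultilinearMap_coe, Function.comp_apply,
      ContinuousMultilinearMap.compContinuousLinearMap_apply]
    have h2 : (fun i => A (u i)) = fun i => r⁻¹ • injz (u i) := rfl
    rw [h2, ContinuousMultilinearMap.map_smul_univ]
    simp only [Finset.prod_const, Finset.card_univ, Fintype.card_fin]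
    have h3 : ∀ m : V →L[ℝ] V, L m = r ^ M • m v := fun m => rfl
    rw [h3]
    have h4 : (r ^ (M - j) • Bz j (iteratedFDeriv ℝ j H (s, r, y, r⁻¹ • (x - y))) v) u =
      r ^ (M - j) • (iteratedFDeriv ℝ j H (s, r, y, r⁻¹ • (x - y)) (fun i => injz (u i)) v) := rfl
    rw [h4]
    simp only [smul_apply, smul_smul]
    congr 1
    have h5 : r ^ M = r ^ (M - j) * r ^ j := by
      rw [← pow_add]; congr 1; omega
    rw [h5, inv_pow, mul_assoc, mul_inv_cancel₀ (pow_ne_zero _ hr), mul_one]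

theorem cont_pow_smul {Z W : Type*} [TopologicalSpace Z] [NormedAddCommGroup W] [NormedSpace ℝ W]
    {ρ : Z → ℝ} {g : Z → W} {m : ℕ} (hm : 1 ≤ m) (hρ : Continuous ρ)
    (hg : ∀ z, ρ z ≠ 0 → ContinuousAt g z)
    (hb : ∀ z, ρ z = 0 → ∃ C, ∀ᶠ z' in 𝓝 z, ‖g z'‖ ≤ C) :
    Continuous fun z => ρ z ^ m • g z := by
  rw [continuous_iff_continuousAt]
  intro z
  by_cases h : ρ z = 0
  · obtain ⟨C, hC⟩ := hb z h
    have h0 : ρ z ^ m • g z = 0 := by rw [h, zero_pow (by omega), zero_smul]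
    show Tendsto (fun z => ρ z ^ m • g z) (𝓝 z) (𝓝 (ρ z ^ m • g z))
    rw [h0]
    refine squeeze_zero_norm' (a := fun z' => |ρ z'| ^ m * C) ?_ ?_
    · filter_upwards [hC] with z' hz'
      rw [norm_smul, norm_pow, Real.norm_eq_abs]
      gcongr
    · have h1 : Tendsto (fun z' => |ρ z'| ^ m * C) (𝓝 z) (𝓝 (|ρ z| ^ m * C)) :=
        ((hρ.abs.pow m).mul continuous_const).continuousAt
      rw [h, abs_zero, zero_pow (by omega), zero_mul] at h1
      exact h1
  · exact (hρ.continuousAt.pow m).smul (hg z h)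

/-- The derivatives of the integrand. -/
def Psi (H : KP → (V →L[ℝ] V)) (M j : ℕ) (w : ℝ → E4 → V) (t : ℝ) (x : E4) (p : ℝ × E4) :
    E4 [×j]→L[ℝ] V :=
  Real.sqrt (t - p.1) ^ (M - j) • Bz j (iteratedFDeriv ℝ j H
    (p.1, Real.sqrt (t - p.1), p.2, (Real.sqrt (t - p.1))⁻¹ • (x - p.2))) (w p.1 p.2)

theorem continuous_Psi {H : KP → (V →L[ℝ] V)} (hH : RD H) (M j : ℕ) (hj : j < M)
    {w : ℝ → E4 → V} (hw : Continuous fun p : ℝ × E4 => w p.1 p.2) :
    Continuous fun q : (ℝ × E4) × (ℝ × E4) => Psi H M j w q.1.1 q.1.2 q.2 := by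
  have hcD : Continuous (iteratedFDeriv ℝ j H) :=
    hH.1.continuous_iteratedFDeriv (by exact_mod_cast le_top)
  have hρ : Continuous fun q : (ℝ × E4) × (ℝ × E4) => Real.sqrt (q.1.1 - q.2.1) := by fun_prop
  refine cont_pow_smul (ρ := fun q : (ℝ × E4) × (ℝ × E4) => Real.sqrt (q.1.1 - q.2.1))
    (g := fun q => Bz j (iteratedFDeriv ℝ j H
    (q.2.1, Real.sqrt (q.1.1 - q.2.1), q.2.2, (Real.sqrt (q.1.1 - q.2.1))⁻¹ • (q.1.2 - q.2.2)))
      (w q.2.1 q.2.2)) (by omega) hρ ?_ ?_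
  · intro q hq
    have h1 : ContinuousAt (fun q : (ℝ × E4) × (ℝ × E4) =>
        (q.2.1, Real.sqrt (q.1.1 - q.2.1), q.2.2,
          (Real.sqrt (q.1.1 - q.2.1))⁻¹ • (q.1.2 - q.2.2))) q := by
      refine ContinuousAt.prodMk (by fun_prop) (ContinuousAt.prodMk hρ.continuousAt
        (ContinuousAt.prodMk (by fun_prop) ?_))
      exact (hρ.continuousAt.inv₀ hq).smul (by fun_prop)
    have h2 : ContinuousAt (fun q : (ℝ × E4) × (ℝ × E4) =>
        (iteratedFDeriv ℝ j H (q.2.1, Real.sqrt (q.1.1 - q.2.1), q.2.2,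
          (Real.sqrt (q.1.1 - q.2.1))⁻¹ • (q.1.2 - q.2.2)), w q.2.1 q.2.2)) q := by
      refine ContinuousAt.prodMk ?_ ?_
      · exact ContinuousAt.comp (g := iteratedFDeriv ℝ j H) hcD.continuousAt h1
      · exact (hw.comp continuous_snd).continuousAt
    have h3 : ContinuousAt (fun p : (KP [×j]→L[ℝ] (V →L[ℝ] V)) × V => Bz j p.1 p.2)
      (iteratedFDeriv ℝ j H (q.2.1, Real.sqrt (q.1.1 - q.2.1), q.2.2,
          (Real.sqrt (q.1.1 - q.2.1))⁻¹ • (q.1.2 - q.2.2)), w q.2.1 q.2.2) :=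
      (continuous_Bz j).continuousAt
    have h4 := ContinuousAt.comp (f := fun q : (ℝ × E4) × (ℝ × E4) =>
        (iteratedFDeriv ℝ j H (q.2.1, Real.sqrt (q.1.1 - q.2.1), q.2.2,
          (Real.sqrt (q.1.1 - q.2.1))⁻¹ • (q.1.2 - q.2.2)), w q.2.1 q.2.2)) h3 h2
    simpa only [Function.comp_def] using h4
  · intro q _
    set T : ℝ := max (|q.2.1|) (max (|Real.sqrt (q.1.1 - q.2.1)|) ‖q.2.2‖) + 1 with hT
    obtain ⟨C, hC⟩ := hH.2 j 0 T
    refine ⟨C * (‖w q.2.1 q.2.2‖ + 1), ?_⟩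
    have e1 : ∀ᶠ q' : (ℝ × E4) × (ℝ × E4) in 𝓝 q, |q'.2.1| < T :=
      (continuous_abs.comp (continuous_fst.comp continuous_snd)).continuousAt.eventually_lt
        continuousAt_const (by
          have := le_max_left (|q.2.1|) (max (|Real.sqrt (q.1.1 - q.2.1)|) ‖q.2.2‖)
          simp only [Function.comp_apply]
          linarith)
    have e2 : ∀ᶠ q' : (ℝ × E4) × (ℝ × E4) in 𝓝 q, |Real.sqrt (q'.1.1 - q'.2.1)| < T :=
      (continuous_abs.comp hρ).continuousAt.eventually_lt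
        continuousAt_const (by
          have := le_max_right (|q.2.1|) (max (|Real.sqrt (q.1.1 - q.2.1)|) ‖q.2.2‖)
          have := le_max_left (|Real.sqrt (q.1.1 - q.2.1)|) ‖q.2.2‖
          simp only [Function.comp_apply]
          linarith)
    have e3 : ∀ᶠ q' : (ℝ × E4) × (ℝ × E4) in 𝓝 q, ‖q'.2.2‖ < T :=
      (continuous_norm.comp (continuous_snd.comp continuous_snd)).continuousAt.eventually_lt
        continuousAt_const (by
          have := le_max_right (|q.2.1|) (max (|Real.sqrt (q.1.1 - q.2.1)|) ‖q.2.2‖)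
          have := le_max_right (|Real.sqrt (q.1.1 - q.2.1)|) ‖q.2.2‖
          simp only [Function.comp_apply]
          linarith)
    have e4 : ∀ᶠ q' : (ℝ × E4) × (ℝ × E4) in 𝓝 q, ‖w q'.2.1 q'.2.2‖ < ‖w q.2.1 q.2.2‖ + 1 :=
      (continuous_norm.comp (hw.comp continuous_snd)).continuousAt.eventually_lt
        continuousAt_const (by
          simp only [Function.comp_apply]
          linarith)
    filter_upwards [e1, e2, e3, e4] with q' h1 h2 h3 h4
    refine (norm_Bz_le _ _ _).trans ?_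
    have h5 := hC q'.2.1 (Real.sqrt (q'.1.1 - q'.2.1)) q'.2.2
      ((Real.sqrt (q'.1.1 - q'.2.1))⁻¹ • (q'.1.2 - q'.2.2)) h1.le h2.le h3.le
    rw [pow_zero, mul_one] at h5
    have hC0 : 0 ≤ C := (norm_nonneg _).trans h5
    gcongr

/-- Bound of the integrand. -/
theorem norm_Psi_le {H : KP → (V →L[ℝ] V)} (hH : RD H) (M j : ℕ) (hj : j < M) (T : ℝ) :
    ∃ D : ℝ, 0 ≤ D ∧ ∀ (w : ℝ → E4 → V) (t : ℝ) (x : E4) (p : ℝ × E4), t ≤ T →
      p.1 ∈ Ioc 0 T → p.2 ∈ Metric.closedBall (0 : E4) 1 →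
      ‖Psi H M j w t x p‖ ≤ D * (Iic t).indicator (fun s => ‖w s p.2‖) p.1 := by
  obtain ⟨C, hC⟩ := hH.2 j 0 (max T (max (Real.sqrt T) 1))
  refine ⟨Real.sqrt T ^ (M - j) * |C|, by positivity, fun w t x p ht hp1 hp2 => ?_⟩
  by_cases h : p.1 ≤ t
  · have h0 : (Iic t).indicator (fun s => ‖w s p.2‖) p.1 = ‖w p.1 p.2‖ :=
      indicator_of_mem (show p.1 ∈ Iic t from h) _
    rw [h0, Psi, norm_smul, norm_pow, Real.norm_of_nonneg (Real.sqrt_nonneg _)]
    have hs : Real.sqrt (t - p.1) ≤ Real.sqrt T := Real.sqrt_le_sqrt (by linarith [hp1.1])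
    have h5 := hC p.1 (Real.sqrt (t - p.1)) p.2 ((Real.sqrt (t - p.1))⁻¹ • (x - p.2))
      (by rw [abs_of_pos hp1.1]; exact hp1.2.trans (le_max_left _ _))
      (by rw [abs_of_nonneg (Real.sqrt_nonneg _)]
          exact hs.trans ((le_max_left _ _).trans (le_max_right _ _)))
      ((mem_closedBall_zero_iff.1 hp2).trans ((le_max_right _ _).trans (le_max_right _ _)))
    rw [pow_zero, mul_one] at h5
    have h6 := h5.trans (le_abs_self C)
    calc _ ≤ Real.sqrt T ^ (M - j) * (|C| * ‖w p.1 p.2‖) := by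
          gcongr
          refine (norm_Bz_le _ _ _).trans ?_
          gcongr
      _ = _ := by ring
  · have h0 : (Iic t).indicator (fun s => ‖w s p.2‖) p.1 = 0 :=
      indicator_of_notMem (show p.1 ∉ Iic t from h) _
    have h1 : Real.sqrt (t - p.1) = 0 := Real.sqrt_eq_zero_of_nonpos (by linarith)
    rw [h0, mul_zero, Psi, h1, zero_pow (by omega), zero_smul, norm_zero]

/-- Change of variables. -/
theorem Tker_eq {V : Type} [NormedAddCommGroup V] [InnerProductSpace ℝ V] [FiniteDimensional ℝ V]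
    {H : KP → (V →L[ℝ] V)} (hS : KSupp H) (N : ℕ) (hN : 6 ≤ N) (s r : ℝ) (hr : 0 < r)
    (g : E4 → V) (x : E4) :
    r ^ (N - 1) • Tker H s r g x = ∫ y in Metric.closedBall (0 : E4) 1,
      r ^ (N - 5) • H (s, r, y, r⁻¹ • (x - y)) (g y) := by
  set F : E4 → V := fun y => H (s, r, y, r⁻¹ • (x - y)) (g y) with hF
  have h1 : Tker H s r g x = ∫ z, F (x - r • z) := by
    refine integral_congr_ae (Eventually.of_forall fun z => ?_)
    have : r⁻¹ • (x - (x - r • z)) = z := by
      rw [sub_sub_cancel, smul_smul, inv_mul_cancel₀ hr.ne', one_smul]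
    simp only [hF, this]
  have h2 : ∫ z, F (x - r • z) = |(r ^ 4)⁻¹| • ∫ u, F (x - u) := by
    have := Measure.integral_comp_smul (volume : Measure E4) (fun u => F (x - u)) r
    rwa [finrank_euclideanSpace_fin] at this
  have h3 : ∫ u, F (x - u) = ∫ u, F u := integral_sub_left_eq_self F volume x
  have h4 : ∫ y in Metric.closedBall (0 : E4) 1, F y = ∫ y, F y := by
    refine setIntegral_eq_integral_of_forall_compl_eq_zero fun y hy => ?_
    have : 1 ≤ ‖y‖ := by
      rw [mem_closedBall_zero_iff, not_le] at hy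
      exact hy.le
    simp only [hF]
    rw [hS.1 (s, r, y, _) this]
    rfl
  rw [h1, h2, h3, ← h4, integral_smul, smul_smul]
  congr 1
  rw [abs_of_pos (by positivity)]
  have : r ^ (N - 1) = r ^ (N - 5) * r ^ 4 := by
    rw [← pow_add]; congr 1; omega
  rw [this, mul_assoc, mul_inv_cancel₀ (by positivity), mul_one]

/-- The integrand. -/
def Fi (H : KP → (V →L[ℝ] V)) (M : ℕ) (w : ℝ → E4 → V) (t : ℝ) (p : ℝ × E4) (x : E4) : V :=
  Real.sqrt (t - p.1) ^ M • H
    (p.1, Real.sqrt (t - p.1), p.2, (Real.sqrt (t - p.1))⁻¹ • (x - p.2)) (w p.1 p.2)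

theorem iter_Fi {H : KP → (V →L[ℝ] V)} (hH : RD H) (M j : ℕ) (hj : j < M)
    (w : ℝ → E4 → V) (t : ℝ) (x : E4) (p : ℝ × E4) :
    iteratedFDeriv ℝ j (Fi H M w t p) x = Psi H M j w t x p :=
  iter_ker hH.1 M j hj p.1 (Real.sqrt (t - p.1)) p.2 (w p.1 p.2) x

theorem contDiff_Fi {H : KP → (V →L[ℝ] V)} (hH : RD H) (M : ℕ)
    (w : ℝ → E4 → V) (t : ℝ) (p : ℝ × E4) : ContDiff ℝ ∞ (Fi H M w t p) := by
  have h1 : ContDiff ℝ ∞ (fun x : E4 => H
    (p.1, Real.sqrt (t - p.1), p.2, (Real.sqrt (t - p.1))⁻¹ • (x - p.2))) :=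
    hH.1.comp (by fun_prop : ContDiff ℝ ∞ fun x : E4 =>
      (p.1, Real.sqrt (t - p.1), p.2, (Real.sqrt (t - p.1))⁻¹ • (x - p.2)))
  exact contDiff_const.smul (h1.clm_apply contDiff_const)

theorem Fi_eq_Psi (H : KP → (V →L[ℝ] V)) (M : ℕ) (w : ℝ → E4 → V) (t : ℝ) (p : ℝ × E4) (x : E4) :
    Fi H M w t p x = Psi H M 0 w t x p 0 := by
  have h : Psi H M 0 w t x p 0 = Real.sqrt (t - p.1) ^ (M - 0) • (iteratedFDeriv ℝ 0 H
    (p.1, Real.sqrt (t - p.1), p.2, (Real.sqrt (t - p.1))⁻¹ • (x - p.2)))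
      (fun i => injz ((0 : Fin 0 → E4) i)) (w p.1 p.2) := rfl
  rw [h, iteratedFDeriv_zero_apply]
  rfl

theorem continuous_Fi {H : KP → (V →L[ℝ] V)} (hH : RD H) (M : ℕ) (hM : 0 < M)
    {w : ℝ → E4 → V} (hw : Continuous fun p : ℝ × E4 => w p.1 p.2) (t : ℝ) (x : E4) :
    Continuous fun p => Fi H M w t p x := by
  have h1 : Continuous fun p : ℝ × E4 => Psi H M 0 w t x p :=
    (continuous_Psi hH M 0 hM hw).comp
      (Continuous.prodMk (continuous_const (y := (t, x))) continuous_id)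
  have h2 : (fun p => Fi H M w t p x) = fun p => Psi H M 0 w t x p 0 :=
    funext fun p => Fi_eq_Psi H M w t p x
  rw [h2]
  exact (ContinuousMultilinearMap.apply ℝ (fun _ : Fin 0 => E4) V 0).continuous.comp h1

end general

section main

variable {V : Type} [NormedAddCommGroup V] [InnerProductSpace ℝ V] [FiniteDimensional ℝ V]

/-- The domain of integration. -/
def DI (T : ℝ) : Set (ℝ × E4) := Ioc 0 T ×ˢ Metric.closedBall (0 : E4) 1

theorem integrableOn_DI {W : Type*} [NormedAddCommGroup W] {f : ℝ × E4 → W} (hf : Continuous f)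
    (T : ℝ) : IntegrableOn f (DI T) := by
  have h : IntegrableOn f (Icc 0 T ×ˢ Metric.closedBall (0 : E4) 1) :=
    hf.continuousOn.integrableOn_compact (isCompact_Icc.prod (isCompact_closedBall _ _))
  exact h.mono_set (prod_mono Ioc_subset_Icc_self subset_rfl)

theorem measurableSet_DI (T : ℝ) : MeasurableSet (DI T) :=
  measurableSet_Ioc.prod Metric.isClosed_closedBall.measurableSet

theorem Rop_eq {H : KP → (V →L[ℝ] V)} (hH : RD H) (hS : KSupp H) {N : ℕ} (hN : 6 ≤ N)
    {T : ℝ} {w w' : ℝ → E4 → V} (hw' : Continuous fun p : ℝ × E4 => w' p.1 p.2)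
    (hww : ∀ s ∈ Icc 0 T, w' s = w s) {t : ℝ} (ht : t ∈ Icc 0 T) (x : E4) :
    Rop H N w t x = ∫ p in DI T, Fi H (N - 5) w' t p x := by
  have h1 : ∫ p in DI T, Fi H (N - 5) w' t p x =
      ∫ s in Ioc 0 T, ∫ y in Metric.closedBall (0 : E4) 1, Fi H (N - 5) w' t (s, y) x :=
    setIntegral_prod _ (integrableOn_DI (continuous_Fi hH _ (by omega) hw' t x) T)
  have h2 : ∫ s in Ioc 0 T, ∫ y in Metric.closedBall (0 : E4) 1, Fi H (N - 5) w' t (s, y) x =
      ∫ s in Ioc 0 t, ∫ y in Metric.closedBall (0 : E4) 1, Fi H (N - 5) w' t (s, y) x := by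
    refine setIntegral_eq_of_subset_of_forall_sdiff_eq_zero measurableSet_Ioc
      (Ioc_subset_Ioc_right ht.2) fun s hs => ?_
    have h3 : t < s := by
      by_contra hcon
      exact hs.2 ⟨hs.1.1, not_lt.1 hcon⟩
    have h4 : Real.sqrt (t - s) = 0 := Real.sqrt_eq_zero_of_nonpos (by linarith)
    have h5 : ∀ y : E4, Fi H (N - 5) w' t (s, y) x = 0 := by
      intro y
      simp only [Fi, h4]
      rw [zero_pow (by omega), zero_smul]
    simp only [h5, integral_zero]
  rw [h1, h2, Rop, intervalIntegral.integral_of_le ht.1]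
  refine setIntegral_congr_fun measurableSet_Ioc fun s hs => ?_
  rcases eq_or_lt_of_le hs.2 with h | h
  · have h4 : Real.sqrt (t - s) = 0 := Real.sqrt_eq_zero_of_nonpos (by linarith)
    have h5 : ∀ y : E4, Fi H (N - 5) w' t (s, y) x = 0 := by
      intro y
      simp only [Fi, h4]
      rw [zero_pow (by omega), zero_smul]
    simp only [h5, integral_zero, h4]
    rw [zero_pow (by omega), zero_smul]
  · rw [Tker_eq hS N hN s _ (Real.sqrt_pos.2 (by linarith)) (w s) x]
    rw [← hww s ⟨hs.1.le, hs.2.trans ht.2⟩]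
    rfl

end main

end C7b

open C7b in
/-- C7b. -/
theorem claimRop_proof : claimRop := by
  intro V _ _ _ H hH hS k N T hT hN
  have hD : ∀ j : ℕ, ∃ D : ℝ, 0 ≤ D ∧ (j < N - 5 → ∀ (w : ℝ → E4 → V) (t : ℝ) (x : E4)
      (p : ℝ × E4), t ≤ T → p.1 ∈ Ioc 0 T → p.2 ∈ Metric.closedBall (0 : E4) 1 →
      ‖Psi H (N - 5) j w t x p‖ ≤ D * (Iic t).indicator (fun s => ‖w s p.2‖) p.1) := by
    intro j
    by_cases hj : j < N - 5
    · obtain ⟨D, hD0, hD⟩ := norm_Psi_le hH (N - 5) j hj T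
      exact ⟨D, hD0, fun _ => hD⟩
    · exact ⟨0, le_rfl, fun h => absurd h hj⟩
  choose D hD0 hD using hD
  set vB : ℝ := volume.real (Metric.closedBall (0 : E4) 1) with hvB
  have hvB0 : 0 ≤ vB := measureReal_nonneg
  set S0 : ℝ := ∑ j ∈ Finset.range (k + 1), D j with hS0
  have hS00 : 0 ≤ S0 := Finset.sum_nonneg fun j _ => hD0 j
  have hDS : ∀ j ≤ k, D j ≤ S0 := fun j hj =>
    Finset.single_le_sum (f := D) (fun i _ => hD0 i) (Finset.mem_range.2 (by omega))
  have hK0 : 0 ≤ S0 * vB * (1 + T) := by positivity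
  refine ⟨S0 * vB * (1 + T), hK0, fun w A hw => ?_⟩
  have hA0 : 0 ≤ A := (norm_nonneg _).trans (hw.2 0 ⟨le_rfl, hT.le⟩ 0)
  -- extension
  set w' : ℝ → E4 → V := fun s => w (projIcc 0 T hT.le s) with hw'
  have hww : ∀ s ∈ Icc 0 T, w' s = w s := by
    intro s hs
    simp only [hw', projIcc_of_mem hT.le hs]
  have hw'c : Continuous fun p : ℝ × E4 => w' p.1 p.2 := by
    refine ContinuousOn.comp_continuous (g := fun p : ℝ × E4 => w p.1 p.2)
      (f := fun p : ℝ × E4 => ((projIcc 0 T hT.le p.1 : ℝ), p.2)) hw.1 ?_ ?_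
    · exact (continuous_subtype_val.comp (continuous_projIcc.comp continuous_fst)).prodMk
        continuous_snd
    · exact fun p => ⟨(projIcc 0 T hT.le p.1).2, mem_univ _⟩
  have hw'b : ∀ s y, ‖w' s y‖ ≤ A := fun s y => hw.2 _ (projIcc 0 T hT.le s).2 y
  -- identification
  have hfun : ∀ t ∈ Icc 0 T, Rop H N w t = fun x => ∫ p in DI T, Fi H (N - 5) w' t p x :=
    fun t ht => funext fun x => Rop_eq hH hS (by omega) hw'c hww ht x
  have hmem : ∀ᵐ p ∂(volume.restrict (DI T) : Measure (ℝ × E4)), p ∈ DI T :=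
    ae_restrict_mem (measurableSet_DI T)
  have hPc : ∀ j ≤ k, ∀ t x, Continuous fun p => Psi H (N - 5) j w' t x p := by
    intro j hj t x
    exact (continuous_Psi hH (N - 5) j (by omega) hw'c).comp
      (Continuous.prodMk (continuous_const (y := (t, x))) continuous_id)
  have hcd : ∀ t, ∀ᵐ p ∂(volume.restrict (DI T) : Measure (ℝ × E4)),
      ContDiff ℝ k (Fi H (N - 5) w' t p) := fun t => Eventually.of_forall fun p =>
        (contDiff_Fi hH (N - 5) w' t p).of_le (by exact_mod_cast le_top)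
  have hme : ∀ t, ∀ j ≤ k, ∀ x, AEStronglyMeasurable
      (fun p => iteratedFDeriv ℝ j (Fi H (N - 5) w' t p) x) (volume.restrict (DI T)) := by
    intro t j hj x
    have h : (fun p => iteratedFDeriv ℝ j (Fi H (N - 5) w' t p) x) =
        fun p => Psi H (N - 5) j w' t x p := funext fun p => iter_Fi hH _ j (by omega) w' t x p
    rw [h]
    exact (hPc j hj t x).aestronglyMeasurable
  have hbP : ∀ t ≤ T, ∀ j ≤ k, ∀ᵐ p ∂(volume.restrict (DI T) : Measure (ℝ × E4)), ∀ x,
      ‖Psi H (N - 5) j w' t x p‖ ≤ S0 * A := by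
    intro t ht j hj
    filter_upwards [hmem] with p hp x
    refine (hD j (by omega) w' t x p ht hp.1 hp.2).trans ?_
    have h1 : (Iic t).indicator (fun s => ‖w' s p.2‖) p.1 ≤ A := by
      by_cases h : p.1 ∈ Iic t
      · rw [indicator_of_mem h]
        exact hw'b _ _
      · rw [indicator_of_notMem h]
        exact hA0
    have h2 : 0 ≤ (Iic t).indicator (fun s => ‖w' s p.2‖) p.1 :=
      indicator_nonneg (fun _ _ => norm_nonneg _) _
    calc _ ≤ S0 * (Iic t).indicator (fun s => ‖w' s p.2‖) p.1 := by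
          gcongr
          exact hDS j hj
      _ ≤ _ := by gcongr
  have hb : ∀ t ≤ T, ∀ j ≤ k, ∀ᵐ p ∂(volume.restrict (DI T) : Measure (ℝ × E4)), ∀ x,
      ‖iteratedFDeriv ℝ j (Fi H (N - 5) w' t p) x‖ ≤ S0 * A := by
    intro t ht j hj
    filter_upwards [hbP t ht j hj] with p hp x
    rw [iter_Fi hH _ j (by omega)]
    exact hp x
  have hB : Integrable (fun _ : ℝ × E4 => S0 * A) (volume.restrict (DI T)) :=
    integrableOn_DI continuous_const T
  have hiter : ∀ t ∈ Icc 0 T, ∀ j ≤ k, ∀ x, iteratedFDeriv ℝ j (Rop H N w t) x =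
      ∫ p in DI T, Psi H (N - 5) j w' t x p := by
    intro t ht j hj x
    rw [hfun t ht, iteratedFDeriv_integral (hcd t) (hme t) (hb t ht.2) hB hj x]
    refine integral_congr_ae (Eventually.of_forall fun p => ?_)
    exact iter_Fi hH _ j (by omega) w' t x p
  -- causal estimate
  have hcaus : ∀ φ : ℝ → ℝ, ContinuousOn φ (Icc 0 T) → (∀ t ∈ Icc 0 T, ∀ x, ‖w t x‖ ≤ φ t) →
        ∀ j ≤ k, ∀ t ∈ Icc 0 T, ∀ x,
          ‖iteratedFDeriv ℝ j (Rop H N w t) x‖ ≤ S0 * vB * ∫ σ in (0 : ℝ)..t, φ σ := by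
    intro φ hφ hwφ j hj t ht x
    rw [hiter t ht j hj x]
    have hφi : IntegrableOn φ (Icc 0 T) := hφ.integrableOn_Icc
    have hg : IntegrableOn (fun p : ℝ × E4 => S0 * (Iic t).indicator φ p.1) (DI T)
        (volume.prod volume) := by
      rw [IntegrableOn, DI, ← Measure.prod_restrict]
      have : IsFiniteMeasure (volume.restrict (Metric.closedBall (0 : E4) 1)) :=
        ⟨by rw [Measure.restrict_apply_univ]; exact measure_closedBall_lt_top⟩
      refine Integrable.comp_fst (f := fun s => S0 * (Iic t).indicator φ s) ?_ _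
      refine Integrable.const_mul ?_ _
      exact (hφi.mono_set Ioc_subset_Icc_self).indicator measurableSet_Iic
    have h1 : ‖∫ p in DI T, Psi H (N - 5) j w' t x p‖ ≤
        ∫ p in DI T, S0 * (Iic t).indicator φ p.1 := by
      refine norm_integral_le_of_norm_le hg ?_
      filter_upwards [hmem] with p hp
      refine (hD j (by omega) w' t x p ht.2 hp.1 hp.2).trans ?_
      have hpI : p.1 ∈ Icc 0 T := Ioc_subset_Icc_self hp.1
      have h3 : (Iic t).indicator (fun s => ‖w' s p.2‖) p.1 ≤ (Iic t).indicator φ p.1 := by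
        by_cases h : p.1 ∈ Iic t
        · rw [indicator_of_mem h, indicator_of_mem h, hww p.1 hpI]
          exact hwφ p.1 hpI _
        · rw [indicator_of_notMem h, indicator_of_notMem h]
      have h4 : 0 ≤ (Iic t).indicator (fun s => ‖w' s p.2‖) p.1 :=
        indicator_nonneg (fun _ _ => norm_nonneg _) _
      calc _ ≤ S0 * (Iic t).indicator (fun s => ‖w' s p.2‖) p.1 := by
            gcongr
            exact hDS j hj
        _ ≤ _ := by gcongr
    have h2 : ∫ p in DI T, S0 * (Iic t).indicator φ p.1 = S0 * vB * ∫ σ in (0 : ℝ)..t, φ σ := by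
      have h5 : ∫ p in DI T, S0 * (Iic t).indicator φ p.1 =
          ∫ s in Ioc 0 T, ∫ y in Metric.closedBall (0 : E4) 1, S0 * (Iic t).indicator φ s :=
        setIntegral_prod _ hg
      rw [h5]
      have h6 : ∀ s : ℝ, ∫ y in Metric.closedBall (0 : E4) 1, S0 * (Iic t).indicator φ s =
          (S0 * vB) * (Iic t).indicator φ s := by
        intro s
        rw [setIntegral_const, smul_eq_mul]
        ring
      simp only [h6]
      rw [integral_const_mul, setIntegral_indicator measurableSet_Iic, Ioc_inter_Iic,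
        min_eq_right ht.2, intervalIntegral.integral_of_le ht.1]
    rw [← h2]
    exact h1
  refine ⟨⟨fun t ht => ?_, fun j hj => ?_, fun j hj t ht x => ?_⟩, fun φ hφ hwφ j hj t ht x => ?_⟩
  · rw [hfun t ht]
    exact contDiff_integral (hcd t) (hme t) (hb t ht.2) hB
  · have h1 : ContinuousOn (fun q : ℝ × E4 => ∫ p in DI T, Psi H (N - 5) j w' q.1 q.2 p)
        (Icc 0 T ×ˢ univ) := by
      refine continuousOn_of_dominated (bound := fun _ => S0 * A) (fun q hq => ?_)
        (fun q hq => ?_) hB (Eventually.of_forall fun p => ?_)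
      · exact (hPc j hj q.1 q.2).aestronglyMeasurable
      · filter_upwards [hbP q.1 hq.1.2 j hj] with p hp using hp q.2
      · exact ((continuous_Psi hH (N - 5) j (by omega) hw'c).comp
          (Continuous.prodMk continuous_id (continuous_const (y := p)))).continuousOn
    exact h1.congr fun q hq => hiter q.1 hq.1 j hj q.2
  · have h1 := hcaus (fun _ => A) continuousOn_const hw.2 j hj t ht x
    refine h1.trans ?_
    rw [intervalIntegral.integral_const, smul_eq_mul, sub_zero]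
    have : S0 * vB * (t * A) ≤ S0 * vB * ((1 + T) * A) := by
      gcongr
      linarith [ht.2]
    calc _ ≤ _ := this
      _ = _ := by ring
  · refine (hcaus φ hφ hwφ j hj t ht x).trans ?_
    have hφ0 : 0 ≤ ∫ σ in (0 : ℝ)..t, φ σ := by
      refine intervalIntegral.integral_nonneg ht.1 fun s hs => ?_
      exact (norm_nonneg _).trans (hwφ s ⟨hs.1, hs.2.trans ht.2⟩ 0)
    have : S0 * vB ≤ S0 * vB * (1 + T) := by
      have : 0 ≤ S0 * vB * T := by positivity
      linarith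
    gcongr

end NRF
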