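import Pool.Agent.Work.MP_7f974f_gt.Stmts_D4

/-!
# Module D, G6: the operator `LV` in a chart (`claimLocV`)
-/

open scoped Manifold ContDiff Topology RealInnerProductSpace
open MeasureTheory Set

noncomputable section

namespace NRF

namespace G6

/-! ## Calculus of differential operators with smooth coefficients -/

section calculus

variable {V W W' : Type} [NormedAddCommGroup V] [NormedSpace ℝ V] [NormedAddCommGroup W]
  [NormedSpace ℝ W] [NormedAddCommGroup W'] [NormedSpace ℝ W']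

theorem pd_congr {f f' : E4 → W} {y : E4} (h : f =ᶠ[𝓝 y] f') (i : Fin 4) :
    pd i f y = pd i f' y := by
  rw [pd, pd, h.fderiv_eq]

theorem pd_event {f f' : E4 → W} {y : E4} (h : f =ᶠ[𝓝 y] f') (i : Fin 4) :
    pd i f =ᶠ[𝓝 y] pd i f' := by
  filter_upwards [h.fderiv (𝕜 := ℝ)] with z hz
  rw [pd, pd, hz]

theorem pd_add {f g : E4 → W} {y : E4} (hf : DifferentiableAt ℝ f y)
    (hg : DifferentiableAt ℝ g y) (i : Fin 4) :
    pd i (fun z => f z + g z) y = pd i f y + pd i g y := by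
  unfold pd
  rw [fderiv_fun_add hf hg]
  rfl

theorem pd_sum {ι : Type} (s : Finset ι) {f : ι → E4 → W} {y : E4}
    (hf : ∀ j ∈ s, DifferentiableAt ℝ (f j) y) (i : Fin 4) :
    pd i (fun z => ∑ j ∈ s, f j z) y = ∑ j ∈ s, pd i (f j) y := by
  unfold pd
  rw [fderiv_fun_sum hf]
  simp

theorem pd_clm (L : W →L[ℝ] W') {F : E4 → W} {y : E4} (hF : DifferentiableAt ℝ F y) (i : Fin 4) :
    pd i (fun z => L (F z)) y = L (pd i F y) := by
  unfold pd
  have := (L.hasFDerivAt.comp y hF.hasFDerivAt).fderiv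
  have h2 : (⇑L ∘ F) = fun z => L (F z) := rfl
  rw [h2] at this
  rw [this]
  rfl

theorem pd_clm_apply {M : E4 → V →L[ℝ] W} {w : E4 → V} {y : E4} (hM : DifferentiableAt ℝ M y)
    (hw : DifferentiableAt ℝ w y) (i : Fin 4) :
    pd i (fun z => M z (w z)) y = pd i M y (w y) + M y (pd i w y) := by
  unfold pd
  rw [(hM.hasFDerivAt.clm_apply hw.hasFDerivAt).fderiv]
  simp [add_comm]

theorem smooth_pd {U : Set E4} (hU : IsOpen U) {M : E4 → W} (hM : ContDiffOn ℝ ∞ M U)
    (i : Fin 4) : ContDiffOn ℝ ∞ (pd i M) U :=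
  (hM.fderiv_of_isOpen hU (by simp)).clm_apply contDiffOn_const

theorem two_le : (2 : WithTop ℕ∞) ≤ ∞ := WithTop.coe_le_coe.2 le_top

theorem one_le : (1 : WithTop ℕ∞) ≤ ∞ := WithTop.coe_le_coe.2 le_top

theorem diff_of_two {w : E4 → V} {z : E4} (h : ContDiffAt ℝ 2 w z) : DifferentiableAt ℝ w z :=
  h.differentiableAt (by norm_num)

theorem cd_pd {w : E4 → V} {z : E4} (h : ContDiffAt ℝ 2 w z) (i : Fin 4) :
    ContDiffAt ℝ 1 (pd i w) z :=
  (h.fderiv_right (m := 1) (by norm_num)).clm_apply contDiffAt_const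

/-- Second order operators with smooth coefficients and leading part `a`. -/
def Op2 (U : Set E4) (a : Fin 4 → Fin 4 → E4 → V →L[ℝ] W) (P : (E4 → V) → E4 → W) : Prop :=
  ∃ (b : Fin 4 → E4 → V →L[ℝ] W) (c : E4 → V →L[ℝ] W),
    (∀ j, ContDiffOn ℝ ∞ (b j) U) ∧ ContDiffOn ℝ ∞ c U ∧
    ∀ z ∈ U, ∀ w, ContDiffAt ℝ 2 w z → P w z =
      (∑ j, ∑ l, a j l z (pd j (pd l w) z)) + (∑ j, b j z (pd j w z)) + c z (w z)

/-- First order operators with smooth coefficients and leading part `b`. -/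
def Op1 (U : Set E4) (b : Fin 4 → E4 → V →L[ℝ] W) (P : (E4 → V) → E4 → W) : Prop :=
  (∀ j, ContDiffOn ℝ ∞ (b j) U) ∧ ∃ c : E4 → V →L[ℝ] W, ContDiffOn ℝ ∞ c U ∧
    ∀ z ∈ U, ∀ w, ContDiffAt ℝ 2 w z → P w z = (∑ j, b j z (pd j w z)) + c z (w z)

variable {U : Set E4}

theorem Op2.congr {a a' : Fin 4 → Fin 4 → E4 → V →L[ℝ] W} {P P' : (E4 → V) → E4 → W}
    (h : Op2 U a P) (ha : ∀ z ∈ U, ∀ j l, a j l z = a' j l z)
    (hP : ∀ z ∈ U, ∀ w, ContDiffAt ℝ 2 w z → P' w z = P w z) : Op2 U a' P' := by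
  obtain ⟨b, c, hb, hc, h⟩ := h
  refine ⟨b, c, hb, hc, fun z hz w hw => ?_⟩
  rw [hP z hz w hw, h z hz w hw]
  simp only [ha z hz]

theorem Op2.add {a a' : Fin 4 → Fin 4 → E4 → V →L[ℝ] W} {P P' : (E4 → V) → E4 → W}
    (h : Op2 U a P) (h' : Op2 U a' P') :
    Op2 U (fun j l z => a j l z + a' j l z) (fun w z => P w z + P' w z) := by
  obtain ⟨b, c, hb, hc, h⟩ := h
  obtain ⟨b', c', hb', hc', h'⟩ := h'
  refine ⟨fun j z => b j z + b' j z, fun z => c z + c' z, fun j => (hb j).add (hb' j),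
    hc.add hc', fun z hz w hw => ?_⟩
  beta_reduce
  rw [h z hz w hw, h' z hz w hw]
  simp only [add_apply, Finset.sum_add_distrib]
  abel

theorem Op2.zero : Op2 (V := V) (W := W) U (fun _ _ _ => 0) (fun _ _ => 0) :=
  ⟨fun _ _ => 0, fun _ => 0, fun _ => contDiffOn_const, contDiffOn_const, fun z _ w _ => by simp⟩

theorem Op2.sum {ι : Type} (s : Finset ι) {a : ι → Fin 4 → Fin 4 → E4 → V →L[ℝ] W}
    {P : ι → (E4 → V) → E4 → W} (h : ∀ i ∈ s, Op2 U (a i) (P i)) :
    Op2 U (fun j l z => ∑ i ∈ s, a i j l z) (fun w z => ∑ i ∈ s, P i w z) := by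
  classical
  induction s using Finset.induction_on with
  | empty => simpa using Op2.zero
  | insert i s hi ih =>
    simp only [Finset.sum_insert hi]
    exact (h i (Finset.mem_insert_self _ _)).add
      (ih fun j hj => h j (Finset.mem_insert_of_mem hj))

/-- Left multiplication by a smooth family of linear maps. -/
theorem Op2.left {a : Fin 4 → Fin 4 → E4 → V →L[ℝ] W} {P : (E4 → V) → E4 → W}
    (h : Op2 U a P) {M : E4 → W →L[ℝ] W'} (hM : ContDiffOn ℝ ∞ M U) :
    Op2 U (fun j l z => (M z).comp (a j l z)) (fun w z => M z (P w z)) := by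
  obtain ⟨b, c, hb, hc, h⟩ := h
  refine ⟨fun j z => (M z).comp (b j z), fun z => (M z).comp (c z),
    fun j => hM.clm_comp (hb j), hM.clm_comp hc, fun z hz w hw => ?_⟩
  beta_reduce
  rw [h z hz w hw]
  simp only [map_add, map_sum, ContinuousLinearMap.comp_apply]

theorem Op2.smul {a : Fin 4 → Fin 4 → E4 → V →L[ℝ] W} {P : (E4 → V) → E4 → W}
    (h : Op2 U a P) {r : E4 → ℝ} (hr : ContDiffOn ℝ ∞ r U) :
    Op2 U (fun j l z => r z • a j l z) (fun w z => r z • P w z) := by
  obtain ⟨b, c, hb, hc, h⟩ := h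
  refine ⟨fun j z => r z • b j z, fun z => r z • c z,
    fun j => hr.smul (hb j), hr.smul hc, fun z hz w hw => ?_⟩
  beta_reduce
  rw [h z hz w hw]
  simp only [smul_add, Finset.smul_sum, smul_apply]

theorem Op1.toOp2 {b : Fin 4 → E4 → V →L[ℝ] W} {P : (E4 → V) → E4 → W} (h : Op1 U b P) :
    Op2 U (fun _ _ _ => 0) P := by
  obtain ⟨hb, c, hc, h⟩ := h
  refine ⟨b, c, hb, hc, fun z hz w hw => ?_⟩
  rw [h z hz w hw]
  simp

/-- The derivative of a first order operator. -/
theorem Op1.deriv (hU : IsOpen U) {b : Fin 4 → E4 → V →L[ℝ] W} {P : (E4 → V) → E4 → W}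
    (h : Op1 U b P) (i : Fin 4) :
    Op2 U (fun j l z => if j = i then b l z else 0) (fun w => pd i (P w)) ∧
      ∀ z ∈ U, ∀ w, ContDiffAt ℝ 2 w z → DifferentiableAt ℝ (P w) z := by
  obtain ⟨hb, c, hc, h⟩ := h
  have hev : ∀ z ∈ U, ∀ w, ContDiffAt ℝ 2 w z →
      P w =ᶠ[𝓝 z] fun z => (∑ j, b j z (pd j w z)) + c z (w z) := by
    intro z hz w hw
    filter_upwards [hU.mem_nhds hz, hw.eventually (by simp)] with z' hz' hw'
    exact h z' hz' w hw'
  have hdb : ∀ z ∈ U, ∀ j, DifferentiableAt ℝ (b j) z := fun z hz j =>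
    ((hb j).contDiffAt (hU.mem_nhds hz)).differentiableAt (by simp)
  have hdc : ∀ z ∈ U, DifferentiableAt ℝ c z := fun z hz =>
    (hc.contDiffAt (hU.mem_nhds hz)).differentiableAt (by simp)
  have hdp : ∀ z w, ContDiffAt ℝ 2 w z → ∀ j, DifferentiableAt ℝ (pd j w) z :=
    fun z (w : E4 → V) hw j => (cd_pd hw j).differentiableAt (by norm_num)
  have hd1 : ∀ z ∈ U, ∀ w, ContDiffAt ℝ 2 w z → ∀ j,
      DifferentiableAt ℝ (fun z => b j z (pd j w z)) z := fun z hz w hw j =>
    (hdb z hz j).clm_apply (hdp z w hw j)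
  have hd2 : ∀ z ∈ U, ∀ w, ContDiffAt ℝ 2 w z → DifferentiableAt ℝ (fun z => c z (w z)) z :=
    fun z hz w hw => (hdc z hz).clm_apply (diff_of_two hw)
  have hd3 : ∀ z ∈ U, ∀ w, ContDiffAt ℝ 2 w z →
      DifferentiableAt ℝ (fun z => ∑ j, b j z (pd j w z)) z := fun z hz w hw =>
    DifferentiableAt.fun_sum fun j _ => hd1 z hz w hw j
  refine ⟨⟨fun j z => pd i (b j) z + if j = i then c z else 0, pd i c, fun j => ?_,
    smooth_pd hU hc i, fun z hz w hw => ?_⟩, fun z hz w hw => ?_⟩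
  · refine (smooth_pd hU (hb j) i).add ?_
    by_cases hj : j = i
    · simpa [hj] using hc
    · simpa [hj] using contDiffOn_const
  · beta_reduce
    rw [pd_congr (hev z hz w hw) i, pd_add (hd3 z hz w hw) (hd2 z hz w hw),
      pd_sum _ (fun j _ => hd1 z hz w hw j)]
    rw [pd_clm_apply (hdc z hz) (diff_of_two hw)]
    have h1 : ∀ j, pd i (fun z => b j z (pd j w z)) z =
        pd i (b j) z (pd j w z) + b j z (pd i (pd j w) z) := fun j =>
      pd_clm_apply (hdb z hz j) (hdp z w hw j) i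
    simp only [h1, Finset.sum_add_distrib, add_apply]
    have h2 : ∑ j, ∑ l, (if j = i then b l z else 0) (pd j (pd l w) z) =
        ∑ l, b l z (pd i (pd l w) z) := by
      rw [Finset.sum_eq_single i]
      · simp
      · intro j _ hj
        simp [hj]
      · simp
    have h3 : ∑ j, (if j = i then c z else 0) (pd j w z) = c z (pd i w z) := by
      rw [Finset.sum_eq_single i]
      · simp
      · intro j _ hj
        simp [hj]
      · simp
    rw [h2, h3]
    abel
  · exact ((hd3 z hz w hw).add (hd2 z hz w hw)).congr_of_eventuallyEq (hev z hz w hw)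

theorem Op1.cd (hU : IsOpen U) {b : Fin 4 → E4 → V →L[ℝ] W} {P : (E4 → V) → E4 → W}
    (h : Op1 U b P) {z : E4} (hz : z ∈ U) {w : E4 → V} (hw : ContDiffAt ℝ 2 w z) :
    ContDiffAt ℝ 1 (P w) z := by
  obtain ⟨hb, c, hc, h⟩ := h
  have hev : P w =ᶠ[𝓝 z] fun z => (∑ j, b j z (pd j w z)) + c z (w z) := by
    filter_upwards [hU.mem_nhds hz, hw.eventually (by simp)] with z' hz' hw'
    exact h z' hz' w hw'
  refine ContDiffAt.congr_of_eventuallyEq ?_ hev
  refine (ContDiffAt.sum fun j _ => ?_).add ?_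
  · exact (((hb j).contDiffAt (hU.mem_nhds hz)).of_le one_le).clm_apply (cd_pd hw j)
  · exact ((hc.contDiffAt (hU.mem_nhds hz)).of_le one_le).clm_apply (hw.of_le (by norm_num))

theorem Op1.add {b b' : Fin 4 → E4 → V →L[ℝ] W} {P P' : (E4 → V) → E4 → W}
    (h : Op1 U b P) (h' : Op1 U b' P') :
    Op1 U (fun j z => b j z + b' j z) (fun w z => P w z + P' w z) := by
  obtain ⟨hb, c, hc, h⟩ := h
  obtain ⟨hb', c', hc', h'⟩ := h'
  refine ⟨fun j => (hb j).add (hb' j), fun z => c z + c' z,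
    hc.add hc', fun z hz w hw => ?_⟩
  beta_reduce
  rw [h z hz w hw, h' z hz w hw]
  simp only [add_apply, Finset.sum_add_distrib]
  abel

theorem Op1.left {b : Fin 4 → E4 → V →L[ℝ] W} {P : (E4 → V) → E4 → W}
    (h : Op1 U b P) {M : E4 → W →L[ℝ] W'} (hM : ContDiffOn ℝ ∞ M U) :
    Op1 U (fun j z => (M z).comp (b j z)) (fun w z => M z (P w z)) := by
  obtain ⟨hb, c, hc, h⟩ := h
  refine ⟨fun j => hM.clm_comp (hb j), fun z => (M z).comp (c z), hM.clm_comp hc,
    fun z hz w hw => ?_⟩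
  beta_reduce
  rw [h z hz w hw]
  simp only [map_add, map_sum, ContinuousLinearMap.comp_apply]

theorem Op1.congr {b b' : Fin 4 → E4 → V →L[ℝ] W} {P P' : (E4 → V) → E4 → W}
    (h : Op1 U b P) (hb : ∀ j z, b j z = b' j z)
    (hP : ∀ z ∈ U, ∀ w, ContDiffAt ℝ 2 w z → P' w z = P w z) : Op1 U b' P' := by
  have hb' : b = b' := by funext j z; exact hb j z
  subst hb'
  obtain ⟨hb, c, hc, h⟩ := h
  exact ⟨hb, c, hc, fun z hz w hw => by rw [hP z hz w hw, h z hz w hw]⟩

/-- Multiplication. -/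
theorem Op1.mul {M : E4 → V →L[ℝ] W} (hM : ContDiffOn ℝ ∞ M U) :
    Op1 U (fun _ _ => 0) (fun w z => M z (w z)) :=
  ⟨fun _ => contDiffOn_const, M, hM, fun z _ w _ => by simp⟩

/-- The derivative of a product. -/
theorem Op1.dmul (hU : IsOpen U) {M : E4 → V →L[ℝ] W} (hM : ContDiffOn ℝ ∞ M U) (i : Fin 4) :
    Op1 U (fun l z => if l = i then M z else 0) (fun w => pd i fun z => M z (w z)) := by
  refine ⟨fun j => ?_, pd i M, smooth_pd hU hM i, fun z hz w hw => ?_⟩
  · by_cases hj : j = i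
    · simpa [hj] using hM
    · simpa [hj] using contDiffOn_const
  · beta_reduce
    rw [pd_clm_apply ((hM.contDiffAt (hU.mem_nhds hz)).differentiableAt (by simp))
      (diff_of_two hw)]
    have h3 : ∑ j, (if j = i then M z else 0) (pd j w z) = M z (pd i w z) := by
      rw [Finset.sum_eq_single i]
      · simp
      · intro j _ hj
        simp [hj]
      · simp
    rw [h3, add_comm]

end calculus

/-- Second order operator of Laplace type. -/
theorem lapOp {V W : Type} [NormedAddCommGroup V] [NormedSpace ℝ V] [NormedAddCommGroup W]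
    [NormedSpace ℝ W] {U : Set E4} {H : Fin 4 → Fin 4 → E4 → ℝ} {Γ : Fin 4 → Fin 4 → Fin 4 → E4 → ℝ}
    {M : E4 → V →L[ℝ] W} {E : Fin 4 → (E4 → V) → E4 → W}
    {EE : Fin 4 → Fin 4 → (E4 → V) → E4 → W}
    (hH : ∀ i j, ContDiffOn ℝ ∞ (H i j) U) (hΓ : ∀ k i j, ContDiffOn ℝ ∞ (Γ k i j) U)
    (hE : ∀ j, Op1 U (fun l z => if l = j then M z else 0) (E j))
    (hEE : ∀ i j, Op2 U (fun k l z => if k = i then (if l = j then M z else 0) else 0) (EE i j)) :
    Op2 U (fun k l z => H k l z • M z) (fun w z => ∑ i, ∑ j, H i j z •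
      (EE i j w z - ∑ k, Γ k i j z • E k w z)) := by
  have h1 : ∀ i j, Op2 U (fun k l z => H i j z •
      ((if k = i then (if l = j then M z else 0) else 0) +
        ∑ k' : Fin 4, (-Γ k' i j z) • (0 : V →L[ℝ] W)))
      (fun w z => H i j z • (EE i j w z + ∑ k, (-Γ k i j z) • E k w z)) := fun i j =>
    Op2.smul ((hEE i j).add (Op2.sum Finset.univ fun k _ =>
      (hE k).toOp2.smul (hΓ k i j).neg)) (hH i j)
  have h2 := Op2.sum Finset.univ fun i _ => Op2.sum Finset.univ fun j _ => h1 i j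
  refine h2.congr (fun z hz k l => ?_) (fun z hz w hw => ?_)
  · simp only [smul_zero, Finset.sum_const_zero, add_zero]
    rw [Finset.sum_eq_single k, Finset.sum_eq_single l]
    · simp
    · intro j _ hj
      simp [Ne.symm hj]
    · simp
    · intro i _ hi
      simp [Ne.symm hi]
    · simp
  · refine Finset.sum_congr rfl fun i _ => Finset.sum_congr rfl fun j _ => ?_
    simp only [neg_smul, Finset.sum_neg_distrib, sub_eq_add_neg]

/-! ## Matrices as continuous linear maps -/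

section matrices

variable {m k : Type} [Fintype m] [Fintype k] [DecidableEq m] [DecidableEq k]

/-- A matrix as a continuous linear map. -/
def mclm (M : Matrix m k ℝ) : (k → ℝ) →L[ℝ] (m → ℝ) :=
  LinearMap.toContinuousLinearMap (Matrix.toLin' M)

theorem mclm_apply (M : Matrix m k ℝ) (v : k → ℝ) : mclm M v = M.mulVec v := by
  simp [mclm]

theorem mclm_smooth {U : Set E4} {M : E4 → Matrix m k ℝ}
    (hM : ∀ s q, ContDiffOn ℝ ∞ (fun z => M z s q) U) :
    ContDiffOn ℝ ∞ (fun z => mclm (M z)) U := by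
  have h : (fun z => mclm (M z)) =
      fun z => ∑ s, ∑ q, M z s q • mclm (Matrix.single s q (1 : ℝ)) := by
    funext z
    conv_lhs => rw [Matrix.matrix_eq_sum_single (M z)]
    simp only [mclm, map_sum]
    refine Finset.sum_congr rfl fun s _ => Finset.sum_congr rfl fun q _ => ?_
    rw [← map_smul, ← map_smul, Matrix.smul_single, smul_eq_mul, mul_one]
  rw [h]
  exact ContDiffOn.sum fun s _ => ContDiffOn.sum fun q _ => (hM s q).smul contDiffOn_const

end matrices

/-! ## The covariant derivative -/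

theorem nabC_eq (G f : E4 → Matrix (Fin 4) (Fin 4) ℝ) (i : Fin 4) {α : E4 → Lam → ℝ} {z : E4}
    (hα : DifferentiableAt ℝ α z) :
    nabC G f i α z = pd i α z + mclm (rho (omC G f i z)) (α z) := by
  rw [mclm_apply, nabC]
  congr 1
  funext s
  exact pd_clm (ContinuousLinearMap.proj s : (Lam → ℝ) →L[ℝ] ℝ) hα i

theorem nabC_congr (G f : E4 → Matrix (Fin 4) (Fin 4) ℝ) (i : Fin 4) {α α' : E4 → Lam → ℝ}
    {z : E4} (h : α =ᶠ[𝓝 z] α') : nabC G f i α z = nabC G f i α' z := by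
  rw [nabC, nabC, h.eq_of_nhds]
  congr 1
  funext s
  exact pd_congr (h.mono fun z' hz' => by rw [hz']) i

theorem diracC_congr (G f : E4 → Matrix (Fin 4) (Fin 4) ℝ) {α α' : E4 → Lam → ℝ}
    {z : E4} (h : α =ᶠ[𝓝 z] α') : diracC G f α z = diracC G f α' z := by
  simp only [diracC, fun i => nabC_congr G f i h]

variable {U : Set E4} {G f : E4 → Matrix (Fin 4) (Fin 4) ℝ} {V : Type} [NormedAddCommGroup V]
  [NormedSpace ℝ V]

theorem rho_smooth (f2 : claimFC2) (hf : FrameOn U G f) (i : Fin 4) (s t : Lam) :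
    ContDiffOn ℝ ∞ (fun z => rho (omC G f i z) s t) U := by
  have h := (f2 U G f hf).1 i
  have e : (fun z => rho (omC G f i z) s t) =
      fun z => ∑ a, ∑ b, omC G f i z a b * (eps ℝ a * iot ℝ b : Matrix Lam Lam ℝ) s t := by
    funext z
    simp [rho, Matrix.sum_apply]
  rw [e]
  exact ContDiffOn.sum fun a _ => ContDiffOn.sum fun b _ => (h a b).mul contDiffOn_const

theorem weitz_smooth (f2 : claimFC2) (hf : FrameOn U G f) (s t : Lam) :
    ContDiffOn ℝ ∞ (fun z => weitz (fun a b c d => R4C G f a b c d z) s t) U := by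
  have h := (f2 U G f hf).2.1
  have e : (fun z => weitz (fun a b c d => R4C G f a b c d z) s t) =
      fun z => (1 / 2 : ℝ) * ∑ a, ∑ b, ∑ c, ∑ d, R4C G f a b c d z *
        (clf ℝ a * clf ℝ b * eps ℝ c * iot ℝ d : Matrix Lam Lam ℝ) s t := by
    funext z
    simp [weitz, Matrix.sum_apply]
  rw [e]
  exact contDiffOn_const.mul (ContDiffOn.sum fun a _ => ContDiffOn.sum fun b _ =>
    ContDiffOn.sum fun c _ => ContDiffOn.sum fun d _ => (h a b c d).mul contDiffOn_const)

/-- The covariant derivative as a first order operator. -/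
theorem nab_op1 (f2 : claimFC2) (hf : FrameOn U G f) {T : E4 → V →L[ℝ] (Lam → ℝ)}
    (hT : ContDiffOn ℝ ∞ T U) (i : Fin 4) :
    Op1 U (fun l z => if l = i then T z else 0)
      (fun w => nabC G f i fun z => T z (w z)) := by
  have hU := hf.met.isOpen
  have hR : ContDiffOn ℝ ∞ (fun z => mclm (rho (omC G f i z))) U :=
    mclm_smooth fun s t => rho_smooth f2 hf i s t
  have h1 := (Op1.dmul hU hT i).add ((Op1.mul hT).left hR)
  refine h1.congr (fun j z => by simp) (fun z hz w hw => ?_)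
  rw [nabC_eq]
  exact ((hT.contDiffAt (hU.mem_nhds hz)).differentiableAt (by simp)).clm_apply (diff_of_two hw)

theorem nabnab_op2 (f2 : claimFC2) (hf : FrameOn U G f) {T : E4 → V →L[ℝ] (Lam → ℝ)}
    (hT : ContDiffOn ℝ ∞ T U) (i j : Fin 4) :
    Op2 U (fun k l z => if k = i then (if l = j then T z else 0) else 0)
      (fun w => nabC G f i (nabC G f j fun z => T z (w z))) := by
  have hU := hf.met.isOpen
  have hR : ContDiffOn ℝ ∞ (fun z => mclm (rho (omC G f i z))) U :=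
    mclm_smooth fun s t => rho_smooth f2 hf i s t
  have h1 := nab_op1 f2 hf hT j
  have h2 := (h1.deriv hU i).1.add (h1.left hR).toOp2
  refine h2.congr (fun z hz k l => by simp) (fun z hz w hw => ?_)
  rw [nabC_eq]
  exact (h1.deriv hU i).2 z hz w hw

theorem dirac_cd (f2 : claimFC2) (hf : FrameOn U G f) {T : E4 → V →L[ℝ] (Lam → ℝ)}
    (hT : ContDiffOn ℝ ∞ T U) {z : E4} (hz : z ∈ U) {w : E4 → V} (hw : ContDiffAt ℝ 2 w z) :
    ContDiffAt ℝ 1 (diracC G f fun z => T z (w z)) z := by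
  have hU := hf.met.isOpen
  have h1 : ∀ i, ContDiffAt ℝ 1 (nabC G f i fun z => T z (w z)) z := fun i =>
    (nab_op1 f2 hf hT i).cd hU hz hw
  have e : (diracC G f fun z => T z (w z)) = fun z' => ∑ i, ∑ a, f z' i a •
      mclm (clf ℝ a) (nabC G f i (fun z => T z (w z)) z') := by
    funext z'
    simp only [diracC, mclm_apply]
  rw [e]
  refine ContDiffAt.sum fun i _ => ContDiffAt.sum fun a _ => ?_
  exact (((hf.smooth i a).contDiffAt (hU.mem_nhds hz)).of_le one_le).smul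
    (contDiffAt_const.clm_apply (h1 i))

/-- The square of the Dirac operator. -/
theorem dirac_op2 (f2 : claimFC2) (f3 : claimFC3) (l5 : claimL5) (hf : FrameOn U G f)
    {T : E4 → V →L[ℝ] (Lam → ℝ)} (hT : ContDiffOn ℝ ∞ T U) :
    Op2 U (fun k l z => (-((G z)⁻¹ k l)) • T z)
      (fun w => diracC G f (diracC G f fun z => T z (w z))) := by
  have hU := hf.met.isOpen
  have hl := l5.2 U G hf.met
  have h1 := lapOp hl.1 hl.2.1 (nab_op1 f2 hf hT) (nabnab_op2 f2 hf hT)
  have hW : ContDiffOn ℝ ∞ (fun z => mclm (weitz (fun a b c d => R4C G f a b c d z))) U :=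
    mclm_smooth fun s t => weitz_smooth f2 hf s t
  have h2 := (h1.smul (r := fun _ => (-1 : ℝ)) contDiffOn_const).add
    ((Op1.mul hT).left hW).toOp2
  refine h2.congr (fun z hz k l => by
    rw [neg_one_smul, add_zero]; exact (neg_smul _ _).symm) (fun z hz w hw => ?_)
  have hα : ContDiffAt ℝ 2 (fun z => T z (w z)) z :=
    ((hT.contDiffAt (hU.mem_nhds hz)).of_le two_le).clm_apply hw
  rw [((f3 U G f hf).2.2 (fun z => T z (w z)) z hz fun s => by
    exact (contDiffAt_pi.1 hα s)).2.2, mclm_apply, neg_one_smul]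

/-! ## The chart -/

/-- The components in the frame of `c` as a linear map. -/
def TT {X : Type} [TopologicalSpace X] [ChartedSpace E4 X] {g : Metric X} {n : ℕ}
    (A : FAtlas X g n) (c : FChart X g) (z : E4) : VV n →L[ℝ] (Lam → ℝ) :=
  (mclm (A.Bm c (c.psi.symm z))).comp
    (EuclideanSpace.equiv (Fin (n + 1) × Lam) ℝ : VV n →L[ℝ] (Fin (n + 1) × Lam → ℝ))

/-- The embedding as a linear map. -/
def SS {X : Type} [TopologicalSpace X] [ChartedSpace E4 X] {g : Metric X} {n : ℕ}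
    (A : FAtlas X g n) (c : FChart X g) (z : E4) : (Lam → ℝ) →L[ℝ] VV n :=
  ((EuclideanSpace.equiv (Fin (n + 1) × Lam) ℝ).symm :
    (Fin (n + 1) × Lam → ℝ) →L[ℝ] VV n).comp (mclm (A.Bm c (c.psi.symm z)).transpose)

section chart

variable {X : Type} [TopologicalSpace X] [ChartedSpace E4 X] {g : Metric X} {n : ℕ}
  (A : FAtlas X g n) (c : FChart X g)

theorem loc_eq (u : X → VV n) (z : E4) : A.loc c u z = TT A c z (u (c.psi.symm z)) := by
  rw [TT, ContinuousLinearMap.comp_apply, mclm_apply]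
  rfl

theorem emb_eq (z : E4) (α : Lam → ℝ) : A.emb c (c.psi.symm z) α = SS A c z α := by
  rw [SS, ContinuousLinearMap.comp_apply, mclm_apply]
  rfl

theorem TT_smooth (hB : ∀ s q, ContDiffOn ℝ ∞ (fun z => A.Bm c (c.psi.symm z) s q) c.psi.target) :
    ContDiffOn ℝ ∞ (TT A c) c.psi.target :=
  (mclm_smooth hB).clm_comp contDiffOn_const

theorem SS_smooth (hB : ∀ s q, ContDiffOn ℝ ∞ (fun z => A.Bm c (c.psi.symm z) s q) c.psi.target) :
    ContDiffOn ℝ ∞ (SS A c) c.psi.target :=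
  contDiffOn_const.clm_comp (mclm_smooth fun s q => hB q s)

theorem TT_SS {z : E4} (hB : A.Bm c (c.psi.symm z) * (A.Bm c (c.psi.symm z)).transpose = 1)
    (α : Lam → ℝ) : TT A c z (SS A c z α) = α := by
  rw [TT, SS, ContinuousLinearMap.comp_apply, ContinuousLinearMap.comp_apply, mclm_apply,
    mclm_apply]
  change (A.Bm c (c.psi.symm z)).mulVec ((A.Bm c (c.psi.symm z)).transpose.mulVec α) = α
  rw [Matrix.mulVec_mulVec, hB, Matrix.one_mulVec]

theorem toE_eq (z : E4) (v : VV n) : Matrix.toEuclideanCLM (𝕜 := ℝ)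
    ((A.Bm c (c.psi.symm z)).transpose * (1 : Matrix Lam Lam ℝ) * A.Bm c (c.psi.symm z)) v =
      SS A c z (TT A c z v) := by
  rw [TT, SS, ContinuousLinearMap.comp_apply, ContinuousLinearMap.comp_apply, mclm_apply,
    mclm_apply, Matrix.mul_one]
  apply (WithLp.ofLp_injective 2)
  rw [Matrix.ofLp_toEuclideanCLM]
  change _ = (A.Bm c (c.psi.symm z)).transpose.mulVec ((A.Bm c (c.psi.symm z)).mulVec _)
  rw [Matrix.mulVec_mulVec]
  rfl

end chart

/-- The Laplacian of the components. -/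
theorem lapl_comp {ι : Type} [Fintype ι] (G : E4 → Matrix (Fin 4) (Fin 4) ℝ)
    {F : E4 → EuclideanSpace ℝ ι} {z : E4} (hF : ContDiffAt ℝ 2 F z) {v : E4 → ℝ} (q : ι)
    (hv : v =ᶠ[𝓝 z] fun z' => F z' q) :
    laplC G v z = (∑ i, ∑ j, (G z)⁻¹ i j • (pd i (pd j F) z - ∑ k, chr G k i j z • pd k F z)) q := by
  have h0 : ∀ᶠ z' in 𝓝 z, ContDiffAt ℝ 2 F z' := hF.eventually (by simp)
  have h1 : ∀ k, pd k v =ᶠ[𝓝 z] fun z' => (pd k F z') q := by
    intro k
    filter_upwards [h0, pd_event hv k] with z' hz' hz''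
    rw [hz'']
    exact pd_clm (EuclideanSpace.proj q : EuclideanSpace ℝ ι →L[ℝ] ℝ) (diff_of_two hz') k
  have h2 : ∀ i j, pd i (pd j v) z = (pd i (pd j F) z) q := by
    intro i j
    rw [pd_congr (h1 j) i]
    exact pd_clm (EuclideanSpace.proj q : EuclideanSpace ℝ ι →L[ℝ] ℝ)
      ((cd_pd hF j).differentiableAt (by norm_num)) i
  simp only [laplC, hessC, h2, fun k => (h1 k).eq_of_nhds]
  simp

end G6

open G6

theorem thm_LocV (h : claimOpV1) (he : claimEmb) (f3 : claimFC3) (f2 : claimFC2) (n2 : claimN2)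
    (_ : claimN1) (l5 : claimL5) (ck : claimCk) : claimLocV := by
  intro X _ _ _ _ _ hor g n A c
  obtain ⟨hE1, hE2, hE3, -⟩ := he X hor g n A
  obtain ⟨hBB, hBs, -⟩ := hE1 c
  have hM1 := (hE3 1 hE2.1).1 c
  have hU : IsOpen c.psi.target := c.psi.open_target
  have hf : FrameOn c.psi.target c.G c.f := c.frame
  have hT : ContDiffOn ℝ ∞ (TT A c) c.psi.target := TT_smooth A c hBs
  have hS : ContDiffOn ℝ ∞ (SS A c) c.psi.target := SS_smooth A c hBs
  have hTS : ∀ z ∈ c.psi.target, ∀ α, TT A c z (SS A c z α) = α := fun z hz α =>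
    TT_SS A c (hBB _ (c.psi.map_target hz)) α
  have hp : ∀ z ∈ c.psi.target, ∀ v, A.pV (c.psi.symm z) v = SS A c z (TT A c z v) := by
    intro z hz v
    rw [← toE_eq, FAtlas.pV, (hM1 _ (c.psi.map_target hz)).1]
  let Q : E4 → VV n →L[ℝ] VV n := fun z =>
    ContinuousLinearMap.id ℝ (VV n) - (SS A c z).comp (TT A c z)
  have hQ : ContDiffOn ℝ ∞ Q c.psi.target := contDiffOn_const.sub (hS.clm_comp hT)
  have hQa : ∀ z v, Q z v = v - SS A c z (TT A c z v) := fun z v => rfl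
  have hl := l5.2 _ _ hf.met
  -- the operators
  have o1 := (dirac_op2 f2 f3 l5 hf hT).left hS
  have o2 := (lapOp hl.1 hl.2.1 (fun j => Op1.dmul hU hQ j)
    (fun i j => ((Op1.dmul hU hQ j).deriv hU i).1)).left hQ
  have o3 := o1.add (o2.smul (r := fun _ => (-1 : ℝ)) contDiffOn_const)
  have o4 : Op2 c.psi.target (fun k l z => (-((c.G z)⁻¹ k l)) • ContinuousLinearMap.id ℝ (VV n)) _ :=
    o3.congr (fun z hz k l => by
      ext1 v
      simp only [add_apply, smul_apply, ContinuousLinearMap.comp_apply, map_smul, hQa,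
        ContinuousLinearMap.id_apply, map_sub, hTS z hz]
      module) (fun z hz w hw => rfl)
  obtain ⟨b, cc, hb, hcc, hmain⟩ := o4
  refine ⟨fun z j => b j z, cc, hb, hcc, fun z hz u hu => ?_⟩
  have hm := hmain z hz (fun w => u (c.psi.symm w)) hu
  have hx : c.psi.symm z ∈ c.psi.source := c.psi.map_target hz
  have hxz : c.psi (c.psi.symm z) = z := c.psi.right_inv hz
  have hloc : A.loc c u = fun z => TT A c z (u (c.psi.symm z)) := funext fun z => loc_eq A c u z
  have ev : ∀ᶠ z' in 𝓝 z, z' ∈ c.psi.target ∧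
      ContDiffAt ℝ 2 (fun w => u (c.psi.symm w)) z' := by
    filter_upwards [hU.mem_nhds hz, hu.eventually (by simp)] with z' h1 h2
    exact ⟨h1, h2⟩
  have hck1 : ∀ z' ∈ c.psi.target, ContDiffAt ℝ 2 (fun w => u (c.psi.symm w)) z' →
      CkAt 1 u (c.psi.symm z') := by
    intro z' hz' hu'
    refine (ck X (VV n) 1 u one_le).2 c.psi c.sm _ (c.psi.map_target hz') ?_
    rw [c.psi.right_inv hz']
    exact hu'.of_le (by norm_num)
  -- the Dirac operator near `z`
  have hd1 : (fun z' => A.dirV u (c.psi.symm z')) =ᶠ[𝓝 z]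
      fun z' => SS A c z' (diracC c.G c.f (fun z => TT A c z (u (c.psi.symm z))) z') := by
    filter_upwards [ev] with z' hz'
    have := (h X hor g n A u _ (hck1 z' hz'.1 hz'.2) c (c.psi.map_target hz'.1)).1
    rw [this, emb_eq, c.psi.right_inv hz'.1, hloc]
  have hd2 : A.loc c (A.dirV u) =ᶠ[𝓝 z]
      diracC c.G c.f (fun z => TT A c z (u (c.psi.symm z))) := by
    filter_upwards [ev] with z' hz'
    have := (h X hor g n A u _ (hck1 z' hz'.1 hz'.2) c (c.psi.map_target hz'.1)).2.2.2.1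
    rw [c.psi.right_inv hz'.1, hloc] at this
    exact this
  have hck3 : CkAt 1 (A.dirV u) (c.psi.symm z) := by
    refine (ck X (VV n) 1 (A.dirV u) one_le).2 c.psi c.sm _ hx ?_
    rw [hxz]
    refine ContDiffAt.congr_of_eventuallyEq ?_ hd1
    exact ((hS.contDiffAt (hU.mem_nhds hz)).of_le one_le).clm_apply
      (dirac_cd f2 hf hT (w := fun z => u (c.psi.symm z)) hz hu)
  have hd3 : A.dirV (A.dirV u) (c.psi.symm z) = SS A c z (diracC c.G c.f
      (diracC c.G c.f (fun z => TT A c z (u (c.psi.symm z)))) z) := by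
    rw [(h X hor g n A (A.dirV u) _ hck3 c hx).1, emb_eq, hxz, diracC_congr _ _ hd2]
  -- the complement
  have hq : ∀ (v : X → VV n), ∀ z' ∈ c.psi.target,
      A.qV v (c.psi.symm z') = Q z' (v (c.psi.symm z')) := by
    intro v z' hz'
    rw [FAtlas.qV, hp z' hz', hQa]
  have hQ2 : ContDiffAt ℝ 2 (fun z' => Q z' (u (c.psi.symm z'))) z :=
    ((hQ.contDiffAt (hU.mem_nhds hz)).of_le two_le).clm_apply hu
  have hlap : A.lapV (A.qV u) (c.psi.symm z) =
      ∑ i, ∑ j, (c.G z)⁻¹ i j • (pd i (pd j fun z' => Q z' (u (c.psi.symm z'))) z -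
        ∑ k, chr c.G k i j z • pd k (fun z' => Q z' (u (c.psi.symm z'))) z) := by
    ext q
    have hv : (fun y => A.qV u y q) ∘ c.psi.symm =ᶠ[𝓝 z]
        fun z' => (Q z' (u (c.psi.symm z'))) q := by
      filter_upwards [hU.mem_nhds hz] with z' hz'
      rw [Function.comp_apply, hq u z' hz']
    have hv2 : ContDiffAt ℝ 2 ((fun y => A.qV u y q) ∘ c.psi.symm) (c.psi (c.psi.symm z)) := by
      rw [hxz]
      refine ContDiffAt.congr_of_eventuallyEq ?_ hv
      exact (EuclideanSpace.proj q : VV n →L[ℝ] ℝ).contDiff.contDiffAt.comp z hQ2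
    have h1 := (n2 X g c.psi c.sm _ hx).2.2.1 (fun y => A.qV u y q) hv2
    rw [hxz] at h1
    change g.lapl (fun y => A.qV u y q) (c.psi.symm z) = _
    rw [h1]
    exact lapl_comp c.G hQ2 q hv
  have hfin : A.LV u (c.psi.symm z) = SS A c z (diracC c.G c.f
      (diracC c.G c.f (fun z => TT A c z (u (c.psi.symm z)))) z) + (-1 : ℝ) • Q z
        (∑ i, ∑ j, (c.G z)⁻¹ i j • (pd i (pd j fun z' => Q z' (u (c.psi.symm z'))) z -
        ∑ k, chr c.G k i j z • pd k (fun z' => Q z' (u (c.psi.symm z'))) z)) := by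
    rw [FAtlas.LV, hd3, hq _ z hz, hlap, neg_one_smul, sub_eq_add_neg]
  rw [hfin]
  refine hm.trans ?_
  congr 2
  simp only [smul_apply, ContinuousLinearMap.id_apply, ← Finset.sum_neg_distrib]
  exact Finset.sum_congr rfl fun j _ => Finset.sum_congr rfl fun l _ => neg_smul _ _

end NRF
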