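import Pool.Agent.Work.MP_7f974f_gt.Stmts_G

/-!
# Gm: truncation of the heat flow of a partition of unity
-/

open scoped Manifold ContDiff Topology
open MeasureTheory Set

noncomputable section

namespace NRF

namespace Gm

section

variable {X : Type} [TopologicalSpace X] [ChartedSpace E4 X] {U : UCover X}

/-- The action of an element of the group as a homeomorphism. -/
def hom (U : UCover X) (a : U.G) : U.Y ≃ₜ U.Y where
  toFun y := a • y
  invFun y := a⁻¹ • y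
  left_inv := inv_smul_smul a
  right_inv := smul_inv_smul a
  continuous_toFun := U.cont_smul a
  continuous_invFun := U.cont_smul a⁻¹

/-- Translated lifted chart. -/
def tr (a : U.G) (c : LCh U) : LCh U where
  e := c.e
  psi := (hom U a).toOpenPartialHomeomorph.trans c.psi
  mem y hy := by
    have h : a • y ∈ c.psi.source := by
      simpa [OpenPartialHomeomorph.trans_source, hom] using hy
    have := c.mem _ h
    rwa [U.p_smul] at this
  eq y hy := by
    have h : a • y ∈ c.psi.source := by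
      simpa [OpenPartialHomeomorph.trans_source, hom] using hy
    have := c.eq _ h
    rw [U.p_smul] at this
    exact this

theorem tr_symm (a : U.G) (c : LCh U) (w : E4) :
    (tr a c).psi.symm w = a⁻¹ • c.psi.symm w := rfl

theorem tr_target (a : U.G) (c : LCh U) : (tr a c).psi.target = c.psi.target := by
  simp [tr]

/-- `C²` functions on the covering space. -/
def C2 (F : U.Y → ℝ) : Prop := ∀ c : LCh U, ContDiffOn ℝ 2 (F ∘ c.psi.symm) c.psi.target

theorem C2.tr {F : U.Y → ℝ} (h : C2 F) (a : U.G) : C2 fun y => F (a⁻¹ • y) := by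
  intro c
  have h1 := h (Gm.tr a c)
  rw [tr_target] at h1
  exact h1

theorem C2.mul {F F' : U.Y → ℝ} (h : C2 F) (h' : C2 F') : C2 fun y => F y * F' y :=
  fun c => (h c).mul (h' c)

theorem C2.sum {ι : Type} (A : Finset ι) {F : ι → U.Y → ℝ} (h : ∀ a ∈ A, C2 (F a)) :
    C2 fun y => ∑ a ∈ A, F a y := by
  intro c
  have : (fun y => ∑ a ∈ A, F a y) ∘ c.psi.symm = fun w => ∑ a ∈ A, (F a ∘ c.psi.symm) w := rfl
  rw [this]
  exact ContDiffOn.sum fun a ha => h a ha c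

theorem C2.diff {F : U.Y → ℝ} (h : C2 F) (c : LCh U) {z : E4} (hz : z ∈ c.psi.target) :
    DifferentiableAt ℝ (fun w => F (c.psi.symm w)) z :=
  ((h c).contDiffAt (c.psi.open_target.mem_nhds hz)).differentiableAt two_ne_zero

/-- Directional derivative in a lifted chart. -/
def dd (c : LCh U) (z v : E4) (F : U.Y → ℝ) : ℝ := fderiv ℝ (fun w => F (c.psi.symm w)) z v

theorem dd_mul {F F' : U.Y → ℝ} (h : C2 F) (h' : C2 F') (c : LCh U) {z : E4}
    (hz : z ∈ c.psi.target) (v : E4) :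
    dd c z v (fun y => F y * F' y) =
      F (c.psi.symm z) * dd c z v F' + F' (c.psi.symm z) * dd c z v F := by
  unfold dd
  have : (fun w => F (c.psi.symm w) * F' (c.psi.symm w)) =
      (fun w => F (c.psi.symm w)) * fun w => F' (c.psi.symm w) := rfl
  rw [this, fderiv_mul (h.diff c hz) (h'.diff c hz)]
  simp

theorem dd_sum {ι : Type} (A : Finset ι) {F : ι → U.Y → ℝ} (h : ∀ a ∈ A, C2 (F a)) (c : LCh U)
    {z : E4} (hz : z ∈ c.psi.target) (v : E4) :
    dd c z v (fun y => ∑ a ∈ A, F a y) = ∑ a ∈ A, dd c z v (F a) := by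
  unfold dd
  rw [fderiv_fun_sum fun a ha => (h a ha).diff c hz]
  simp

theorem dd_congr {F F' : U.Y → ℝ} (c : LCh U) {z : E4} (v : E4)
    (h : ∀ᶠ w in 𝓝 z, F (c.psi.symm w) = F' (c.psi.symm w)) : dd c z v F = dd c z v F' := by
  unfold dd
  rw [Filter.EventuallyEq.fderiv_eq h]

theorem dd_zero {F : U.Y → ℝ} (c : LCh U) {z : E4} (v : E4)
    (h : ∀ᶠ w in 𝓝 z, F (c.psi.symm w) = 0) : dd c z v F = 0 := by
  rw [dd_congr (F' := fun _ => 0) c v h]
  simp [dd]

theorem dd_max {F : U.Y → ℝ} (c : LCh U) {z : E4} (v : E4) (h : ∀ y, F y ≤ F (c.psi.symm z)) :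
    dd c z v F = 0 := by
  unfold dd
  have : IsLocalMax (fun w => F (c.psi.symm w)) z := Filter.Eventually.of_forall fun w => h _
  rw [this.fderiv_eq_zero]
  rfl

theorem C2.div {F F' : U.Y → ℝ} (h : C2 F) (h' : C2 F') (hne : ∀ y, F' y ≠ 0) :
    C2 fun y => F y / F' y :=
  fun c => (h c).div (h' c) fun _ _ => hne _

theorem dd_div {F F' : U.Y → ℝ} (h : C2 F) (h' : C2 F') (hne : ∀ y, F' y ≠ 0) (c : LCh U)
    {z : E4} (hz : z ∈ c.psi.target) (v : E4) :
    dd c z v (fun y => F y / F' y) =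
      (dd c z v F - F (c.psi.symm z) / F' (c.psi.symm z) * dd c z v F') /
        F' (c.psi.symm z) := by
  have h1 := dd_mul (h.div h' hne) h' c hz v
  have h2 : (fun y => F y / F' y * F' y) = F := by
    funext y
    rw [div_mul_cancel₀ _ (hne y)]
  rw [h2] at h1
  rw [h1, eq_div_iff (hne _)]
  ring

/-- Local finiteness of the translates. -/
def Fin' (F : U.Y → ℝ) : Prop :=
  ∀ D : Set U.Y, IsCompact D → {a : U.G | ∃ y ∈ D, F (a⁻¹ • y) ≠ 0}.Finite

theorem Fin'.loc {F : U.Y → ℝ} (h : Fin' F) (c : LCh U) {z : E4} (hz : z ∈ c.psi.target) :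
    ∃ A : Finset U.G, ∃ r > 0, Metric.ball z r ⊆ c.psi.target ∧
      ∀ a ∉ A, ∀ w ∈ Metric.ball z r, F (a⁻¹ • c.psi.symm w) = 0 := by
  obtain ⟨r, hr, hrt⟩ := Metric.nhds_basis_closedBall.mem_iff.1 (c.psi.open_target.mem_nhds hz)
  have hc : IsCompact (c.psi.symm '' Metric.closedBall z r) :=
    (isCompact_closedBall z r).image_of_continuousOn (c.psi.continuousOn_symm.mono hrt)
  refine ⟨(h _ hc).toFinset, r, hr, Metric.ball_subset_closedBall.trans hrt, ?_⟩
  intro a ha w hw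
  by_contra hne
  apply ha
  rw [Set.Finite.mem_toFinset]
  exact ⟨_, ⟨w, Metric.ball_subset_closedBall hw, rfl⟩, hne⟩

omit [ChartedSpace E4 X] in
theorem Fin'.pt {F : U.Y → ℝ} (h : Fin' F) (y : U.Y) :
    (Function.support fun a : U.G => F (a⁻¹ • y)).Finite := by
  refine (h {y} isCompact_singleton).subset fun a ha => ⟨y, rfl, ha⟩

theorem sum_le_finsum {ι : Type} {f : ι → ℝ} (hf : (Function.support f).Finite)
    (h0 : ∀ i, 0 ≤ f i) (A : Finset ι) : ∑ a ∈ A, f a ≤ ∑ᶠ a, f a := by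
  classical
  rw [finsum_eq_sum_of_support_subset (s := A ∪ hf.toFinset) f
    (fun i hi => by simp only [Finset.coe_union, Set.mem_union]; right; simpa using hi)]
  exact Finset.sum_le_sum_of_subset_of_nonneg Finset.subset_union_left fun i _ _ => h0 i

/-- Sums over the group are invariant. -/
theorem fs_inv {X : Type} [TopologicalSpace X] {U : UCover X} (F : U.Y → ℝ) (b : U.G) (y : U.Y) :
    ∑ᶠ a : U.G, F (a⁻¹ • (b • y)) = ∑ᶠ a : U.G, F (a⁻¹ • y) := by
  rw [← finsum_comp_equiv (Equiv.mulLeft b)]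
  refine finsum_congr fun a => ?_
  rw [Equiv.coe_mulLeft, mul_inv_rev, mul_smul, inv_smul_smul]

theorem fs_loc {F : U.Y → ℝ} (hF : Fin' F) (c : LCh U) {z : E4} (hz : z ∈ c.psi.target) :
    ∃ A0 : Finset U.G, ∀ A : Finset U.G, A0 ⊆ A →
      (∀ᶠ w in 𝓝 z, ∑ᶠ a : U.G, F (a⁻¹ • c.psi.symm w) = ∑ a ∈ A, F (a⁻¹ • c.psi.symm w)) ∧
      ∀ a ∉ A, ∀ᶠ w in 𝓝 z, F (a⁻¹ • c.psi.symm w) = 0 := by
  obtain ⟨A0, r, hr, -, h⟩ := hF.loc c hz
  refine ⟨A0, fun A hA => ⟨?_, fun a ha => ?_⟩⟩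
  · filter_upwards [Metric.ball_mem_nhds z hr] with w hw
    refine finsum_eq_sum_of_support_subset _ fun a ha => ?_
    by_contra hne
    exact ha (h a (fun h' => hne (hA h')) w hw)
  · filter_upwards [Metric.ball_mem_nhds z hr] with w hw
    exact h a (fun h' => ha (hA h')) w hw

theorem fs_C2 {F : U.Y → ℝ} (hF : Fin' F) (h : C2 F) : C2 fun y => ∑ᶠ a : U.G, F (a⁻¹ • y) := by
  intro c z hz
  obtain ⟨A, hA⟩ := fs_loc hF c hz
  have h1 : C2 fun y => ∑ a ∈ A, F (a⁻¹ • y) := C2.sum A fun a _ => h.tr a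
  have h2 := (h1 c).contDiffAt (c.psi.open_target.mem_nhds hz)
  exact (h2.congr_of_eventuallyEq (hA A le_rfl).1).contDiffWithinAt

/-- The norm of a vector in a lifted chart. -/
def Nv (g : Metric X) (c : LCh U) (z v : E4) : ℝ :=
  Real.sqrt (∑ i, ∑ j, g.coef c.e z i j * v i * v j)

variable {g : Metric X} {K0 : ℝ} {phi0 : U.Y → ℝ}

theorem dd_phi0 (h0 : IsEqPart U g K0 phi0) (hfin : Fin' phi0) (B : Finset U.G) (c : LCh U)
    {z : E4} (hz : z ∈ c.psi.target) (v : E4) :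
    ∑ b ∈ B, |dd c z v (fun y => phi0 (b⁻¹ • y))| ≤ K0 * Nv g c z v := by
  refine (sum_le_finsum (f := fun b : U.G => |dd c z v (fun y => phi0 (b⁻¹ • y))|) ?_
    (fun b => abs_nonneg _) B).trans (h0.grad c z hz v)
  obtain ⟨A, hA⟩ := fs_loc hfin c hz
  refine A.finite_toSet.subset fun a ha => ?_
  by_contra hne
  refine ha ?_
  have := dd_zero (F := fun y => phi0 (a⁻¹ • y)) c v ((hA A le_rfl).2 a hne)
  simp only [this, abs_zero]

/-- The cutoff function. -/
def chi (phi0 : U.Y → ℝ) (B : Finset U.G) (y : U.Y) : ℝ := ∑ b ∈ B, phi0 (b⁻¹ • y)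

theorem chi_nonneg (h0 : IsEqPart U g K0 phi0) (B : Finset U.G) (y : U.Y) :
    0 ≤ chi phi0 B y := Finset.sum_nonneg fun _ _ => h0.nonneg _

theorem chi_le_one (h0 : IsEqPart U g K0 phi0) (hfin : Fin' phi0) (B : Finset U.G) (y : U.Y) :
    chi phi0 B y ≤ 1 := by
  rw [← h0.sum_one y]
  exact sum_le_finsum (hfin.pt y) (fun _ => h0.nonneg _) B

theorem chi_C2 (h0 : IsEqPart U g K0 phi0) (B : Finset U.G) : C2 (chi phi0 B) :=
  C2.sum B fun b _ => C2.tr (F := phi0) h0.smooth b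

omit [ChartedSpace E4 X] in
theorem chi_fin (hfin : Fin' phi0) (B : Finset U.G) : Fin' (chi phi0 B) := by
  intro D hD
  have h1 : {a : U.G | ∃ y ∈ D, chi phi0 B (a⁻¹ • y) ≠ 0} ⊆
      ⋃ b ∈ B, (fun a : U.G => a * b) ⁻¹' {a : U.G | ∃ y ∈ D, phi0 (a⁻¹ • y) ≠ 0} := by
    rintro a ⟨y, hy, hne⟩
    obtain ⟨b, hb, hbne⟩ := Finset.exists_ne_zero_of_sum_ne_zero hne
    simp only [Set.mem_iUnion]
    refine ⟨b, hb, y, hy, ?_⟩
    rwa [mul_inv_rev, mul_smul]
  refine Set.Finite.subset ?_ h1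
  refine B.finite_toSet.biUnion fun b _ => ?_
  exact (hfin D hD).preimage (mul_left_injective b).injOn

theorem chi_supp (h0 : IsEqPart U g K0 phi0) (B : Finset U.G) :
    HasCompactSupport (chi phi0 B) := by
  have hD : IsCompact (⋃ b ∈ B, (fun y : U.Y => b • y) '' tsupport phi0) := by
    refine B.isCompact_biUnion fun b _ => ?_
    exact (show IsCompact (tsupport phi0) from h0.supp).image (U.cont_smul b)
  refine HasCompactSupport.intro hD fun y hy => ?_
  refine Finset.sum_eq_zero fun b hb => ?_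
  by_contra hne
  apply hy
  simp only [Set.mem_iUnion]
  refine ⟨b, hb, b⁻¹ • y, subset_tsupport _ hne, ?_⟩
  exact smul_inv_smul b y

theorem chi_dd (h0 : IsEqPart U g K0 phi0) (hfin : Fin' phi0) (B : Finset U.G) (a : U.G)
    (c : LCh U) {z : E4} (hz : z ∈ c.psi.target) (v : E4) :
    |dd c z v (fun y => chi phi0 B (a⁻¹ • y))| ≤ K0 * Nv g c z v := by
  classical
  have h1 : (fun y : U.Y => chi phi0 B (a⁻¹ • y)) =
      fun y => ∑ b ∈ B.image (fun b => a * b), phi0 (b⁻¹ • y) := by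
    funext y
    unfold chi
    rw [Finset.sum_image fun x _ y _ h => mul_left_cancel h]
    refine Finset.sum_congr rfl fun b _ => ?_
    rw [mul_inv_rev, mul_smul]
  rw [h1, dd_sum (F := fun b y => phi0 (b⁻¹ • y)) _ (fun b _ => C2.tr (F := phi0) h0.smooth b) c hz]
  exact (Finset.abs_sum_le_sum_abs _ _).trans (dd_phi0 h0 hfin _ c hz v)

/-- Real analysis: the sum over the group is almost concentrated on `A0`. -/
theorem sum_ge {ι : Type} [DecidableEq ι] {f : ι → ℝ} (hf : HasSum f 1) (h0 : ∀ i, 0 ≤ f i)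
    (A0 : Finset ι) {δ : ℝ} (h : ∀ A : Finset ι, Disjoint A A0 → ∑ a ∈ A, f a ≤ δ) :
    1 - δ ≤ ∑ a ∈ A0, f a := by
  have h1 : (1 : ℝ) ≤ ∑ a ∈ A0, f a + δ := by
    refine hasSum_le_of_sum_le hf fun s => ?_
    have h2 : ∑ a ∈ s, f a ≤ ∑ a ∈ A0 ∪ s, f a :=
      Finset.sum_le_sum_of_subset_of_nonneg Finset.subset_union_right fun i _ _ => h0 i
    have h3 : ∑ a ∈ A0 ∪ s, f a = ∑ a ∈ s \ A0, f a + ∑ a ∈ A0, f a := by
      rw [← Finset.sum_sdiff (Finset.subset_union_left (s₁ := A0) (s₂ := s)),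
        Finset.union_sdiff_left]
    have h4 := h (s \ A0) Finset.sdiff_disjoint
    linarith
  linarith

/-- The estimate at points of `D`. -/
theorem est (h0 : IsEqPart U g K0 phi0) (hfin : Fin' phi0) (hK0 : 0 ≤ K0) {K1 K δ : ℝ}
    {φ : U.Y → ℝ} (hφ : IsFam U g K1 φ) (hK : 0 ≤ K) (hδ1 : δ ≤ 1 / 2)
    (hδ2 : K1 + 2 * δ + 2 * K0 * δ ≤ K * (1 - δ)) (A0 B : Finset U.G) (y0 : U.Y)
    (h1 : ∀ A : Finset U.G, Disjoint A A0 → ∑ a ∈ A, φ (a⁻¹ • y0) ≤ δ)
    (hχ : ∀ a ∈ A0, chi phi0 B (a⁻¹ • y0) = 1) (c : LCh U) (z : E4) (hz : z ∈ c.psi.target)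
    (hy : c.psi.symm z = y0) (v : E4)
    (h2 : ∀ A : Finset U.G, Disjoint A A0 →
      ∑ a ∈ A, |dd c z v (fun y => φ (a⁻¹ • y))| ≤ δ * Nv g c z v)
    (h3 : |∑ a ∈ A0, dd c z v (fun y => φ (a⁻¹ • y))| ≤ δ * Nv g c z v)
    (hS : ∀ y, (∑ᶠ a : U.G, chi phi0 B (a⁻¹ • y) * φ (a⁻¹ • y)) ≠ 0)
    (hS0 : 1 - δ ≤ ∑ᶠ a : U.G, chi phi0 B (a⁻¹ • y0) * φ (a⁻¹ • y0)) :
    ∑ᶠ a : U.G, |dd c z v (fun y => (fun x => chi phi0 B x * φ x /
      ∑ᶠ b : U.G, chi phi0 B (b⁻¹ • x) * φ (b⁻¹ • x)) (a⁻¹ • y))| ≤ K * Nv g c z v := by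
  classical
  subst hy
  have hN : 0 ≤ Nv g c z v := Real.sqrt_nonneg _
  set N := Nv g c z v with hNdef
  have hφC : C2 φ := hφ.smooth
  have hχC : C2 (chi phi0 B) := chi_C2 h0 B
  set P : U.Y → ℝ := fun x => chi phi0 B x * φ x with hP
  have hPC : C2 P := hχC.mul hφC
  have hPF : Fin' P := by
    intro D hD
    refine (chi_fin hfin B D hD).subset ?_
    rintro a ⟨y, hy, hne⟩
    exact ⟨y, hy, left_ne_zero_of_mul hne⟩
  set S : U.Y → ℝ := fun x => ∑ᶠ b : U.G, P (b⁻¹ • x) with hSdef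
  have hSC : C2 S := fs_C2 hPF hPC
  have hSinv : ∀ (a : U.G) (y : U.Y), S (a • y) = S y := fun a y => fs_inv P a y
  obtain ⟨A1, hA1⟩ := fs_loc hPF c hz
  set A := A0 ∪ A1 with hA
  obtain ⟨e1, e2⟩ := hA1 A Finset.subset_union_right
  have hA0A : A0 ⊆ A := Finset.subset_union_left
  have hdisj : Disjoint (A \ A0) A0 := Finset.sdiff_disjoint
  -- the derivative of `P_a`
  set f : U.G → ℝ := fun a => dd c z v (fun y => φ (a⁻¹ • y)) with hf
  set x : U.G → ℝ := fun a => dd c z v (fun y => chi phi0 B (a⁻¹ • y)) with hx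
  set q : U.G → ℝ := fun a => chi phi0 B (a⁻¹ • c.psi.symm z) with hq
  set p : U.G → ℝ := fun a => φ (a⁻¹ • c.psi.symm z) with hp
  have hq0 : ∀ a, 0 ≤ q a := fun a => chi_nonneg h0 B _
  have hq1 : ∀ a, q a ≤ 1 := fun a => chi_le_one h0 hfin B _
  have hp0 : ∀ a, 0 ≤ p a := fun a => hφ.nonneg _
  have hxb : ∀ a, |x a| ≤ K0 * N := fun a => chi_dd h0 hfin B a c hz v
  have hqA : ∀ a ∈ A0, q a = 1 := hχ
  have hxA : ∀ a ∈ A0, x a = 0 := by
    intro a ha
    refine dd_max c v fun y => ?_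
    rw [hχ a ha]
    exact chi_le_one h0 hfin B _
  have dP : ∀ a : U.G, dd c z v (fun y => P (a⁻¹ • y)) = q a * f a + p a * x a := by
    intro a
    exact dd_mul (hχC.tr a) (hφC.tr a) c hz v
  have dS : dd c z v S = ∑ a ∈ A, (q a * f a + p a * x a) := by
    rw [dd_congr (F := S) (F' := fun y => ∑ a ∈ A, P (a⁻¹ • y)) c v e1,
      dd_sum (F := fun (a : U.G) y => P (a⁻¹ • y)) A (fun a _ => hPC.tr a) c hz]
    exact Finset.sum_congr rfl fun a _ => dP a
  -- bounds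
  have b0 : ∑ a ∈ A \ A0, |f a| ≤ δ * N := h2 _ hdisj
  have b1 : ∑ a ∈ A \ A0, p a * |x a| ≤ δ * (K0 * N) := by
    calc ∑ a ∈ A \ A0, p a * |x a| ≤ ∑ a ∈ A \ A0, p a * (K0 * N) :=
          Finset.sum_le_sum fun a _ => mul_le_mul_of_nonneg_left (hxb a) (hp0 a)
      _ = (∑ a ∈ A \ A0, p a) * (K0 * N) := by rw [Finset.sum_mul]
      _ ≤ δ * (K0 * N) := mul_le_mul_of_nonneg_right (h1 _ hdisj) (by positivity)
  have b2 : ∑ a ∈ A, |q a * f a + p a * x a| ≤ K1 * N + δ * (K0 * N) := by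
    have t1 : ∑ a ∈ A, |q a * f a + p a * x a| ≤ ∑ a ∈ A, |f a| + ∑ a ∈ A, p a * |x a| := by
      rw [← Finset.sum_add_distrib]
      refine Finset.sum_le_sum fun a _ => (abs_add_le _ _).trans ?_
      rw [abs_mul, abs_mul, abs_of_nonneg (hq0 a), abs_of_nonneg (hp0 a)]
      have := mul_le_mul_of_nonneg_right (hq1 a) (abs_nonneg (f a))
      linarith
    have t2 : ∑ a ∈ A, p a * |x a| = ∑ a ∈ A \ A0, p a * |x a| := by
      rw [← Finset.sum_sdiff hA0A]
      have : ∑ a ∈ A0, p a * |x a| = 0 :=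
        Finset.sum_eq_zero fun a ha => by rw [hxA a ha, abs_zero, mul_zero]
      rw [this, add_zero]
    have t3 : ∑ a ∈ A, |f a| ≤ K1 * N := hφ.grad A c z hz v
    linarith
  have b3 : |dd c z v S| ≤ 2 * (δ * N) + δ * (K0 * N) := by
    rw [dS, ← Finset.sum_sdiff hA0A]
    have t1 : ∑ a ∈ A0, (q a * f a + p a * x a) = ∑ a ∈ A0, f a :=
      Finset.sum_congr rfl fun a ha => by rw [hxA a ha, hqA a ha]; ring
    rw [t1]
    have t2 : |∑ a ∈ A \ A0, (q a * f a + p a * x a)| ≤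
        ∑ a ∈ A \ A0, |f a| + ∑ a ∈ A \ A0, p a * |x a| := by
      rw [← Finset.sum_add_distrib]
      refine (Finset.abs_sum_le_sum_abs _ _).trans ?_
      refine Finset.sum_le_sum fun a _ => (abs_add_le _ _).trans ?_
      rw [abs_mul, abs_mul, abs_of_nonneg (hq0 a), abs_of_nonneg (hp0 a)]
      have := mul_le_mul_of_nonneg_right (hq1 a) (abs_nonneg (f a))
      linarith
    have t3 := abs_add_le (∑ a ∈ A \ A0, (q a * f a + p a * x a)) (∑ a ∈ A0, f a)
    linarith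
  -- the sum
  set s := S (c.psi.symm z) with hs
  have hs0 : 1 - δ ≤ s := hS0
  have hspos : 0 < s := by linarith
  have hsum : ∑ a ∈ A, P (a⁻¹ • c.psi.symm z) = s := e1.self_of_nhds.symm
  have hfun : ∀ a : U.G, (fun y => (fun x => P x / S x) (a⁻¹ • y)) =
      fun y => (fun y => P (a⁻¹ • y)) y / S y := by
    intro a
    funext y
    simp only [hSinv]
  have dphi : ∀ a : U.G, dd c z v (fun y => (fun x => P x / S x) (a⁻¹ • y)) =
      ((q a * f a + p a * x a) - P (a⁻¹ • c.psi.symm z) / s * dd c z v S) / s := by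
    intro a
    rw [hfun a, dd_div (F := fun y => P (a⁻¹ • y)) (hPC.tr a) hSC hS c hz v, dP a]
  have hsupp : Function.support (fun a : U.G =>
      |dd c z v (fun y => (fun x => P x / S x) (a⁻¹ • y))|) ⊆ A := by
    intro a ha
    by_contra hne
    refine ha ?_
    have h4 := e2 a hne
    have h5 : dd c z v (fun y => (fun x => P x / S x) (a⁻¹ • y)) = 0 := by
      refine dd_zero c v ?_
      filter_upwards [h4] with w hw
      simp only [hw, zero_div]
    simp only [h5, abs_zero]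
  change ∑ᶠ a : U.G, |dd c z v (fun y => (fun x => P x / S x) (a⁻¹ • y))| ≤ K * N
  rw [finsum_eq_sum_of_support_subset _ hsupp]
  have hP0 : ∀ a : U.G, 0 ≤ P (a⁻¹ • c.psi.symm z) := fun a => mul_nonneg (hq0 a) (hp0 a)
  have step : ∀ a : U.G, |dd c z v (fun y => (fun x => P x / S x) (a⁻¹ • y))| ≤
      (|q a * f a + p a * x a| + P (a⁻¹ • c.psi.symm z) / s * |dd c z v S|) / s := by
    intro a
    rw [dphi a, abs_div, abs_of_pos hspos]
    refine div_le_div_of_nonneg_right ?_ hspos.le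
    refine (abs_sub _ _).trans ?_
    rw [abs_mul, abs_of_nonneg (div_nonneg (hP0 a) hspos.le)]
  calc ∑ a ∈ A, |dd c z v (fun y => (fun x => P x / S x) (a⁻¹ • y))|
      ≤ ∑ a ∈ A, (|q a * f a + p a * x a| +
          P (a⁻¹ • c.psi.symm z) / s * |dd c z v S|) / s := Finset.sum_le_sum fun a _ => step a
    _ = (∑ a ∈ A, |q a * f a + p a * x a| +
          (∑ a ∈ A, P (a⁻¹ • c.psi.symm z)) / s * |dd c z v S|) / s := by
        rw [← Finset.sum_div, Finset.sum_add_distrib, ← Finset.sum_mul, ← Finset.sum_div]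
    _ = (∑ a ∈ A, |q a * f a + p a * x a| + |dd c z v S|) / s := by
        rw [hsum, div_self hspos.ne', one_mul]
    _ ≤ K * N := by
        rw [div_le_iff₀ hspos]
        have t1 : ∑ a ∈ A, |q a * f a + p a * x a| + |dd c z v S| ≤
            (K1 + 2 * δ + 2 * K0 * δ) * N := by
          have : (K1 + 2 * δ + 2 * K0 * δ) * N =
            K1 * N + δ * (K0 * N) + (2 * (δ * N) + δ * (K0 * N)) := by ring
          rw [this]
          linarith
        have t2 : (K1 + 2 * δ + 2 * K0 * δ) * N ≤ K * (1 - δ) * N :=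
          mul_le_mul_of_nonneg_right hδ2 hN
        have t3 : K * (1 - δ) * N ≤ K * N * s := by
          have := mul_le_mul_of_nonneg_left hs0 (mul_nonneg hK hN)
          linarith
        linarith

/-- The truncation, for nonnegative constants. -/
theorem trunc (h0 : IsEqPart U g K0 phi0) (hfin : Fin' phi0) (hK0 : 0 ≤ K0) {K1 K : ℝ}
    {φ : U.Y → ℝ} (hφ : IsFam U g K1 φ) (hK1 : 0 ≤ K1) (hK : K1 < K) :
    ∃ phi, IsEqPart U g K phi := by
  classical
  have hKpos : 0 < K := hK1.trans_lt hK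
  have hD : IsCompact (tsupport phi0) := h0.supp
  have hcov : ∀ y : U.Y, ∃ a : U.G, a⁻¹ • y ∈ tsupport phi0 := by
    intro y
    by_contra hne
    push Not at hne
    have h1 := h0.sum_one y
    have h2 : ∀ a : U.G, phi0 (a⁻¹ • y) = 0 := fun a => image_eq_zero_of_notMem_tsupport (hne a)
    simp [h2] at h1
  set δ : ℝ := min (1 / 2) ((K - K1) / (2 + 2 * K0 + K)) with hδdef
  have hden : 0 < 2 + 2 * K0 + K := by positivity
  have hδ : 0 < δ := lt_min (by norm_num) (div_pos (sub_pos.2 hK) hden)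
  have hδ1 : δ ≤ 1 / 2 := min_le_left _ _
  have hδ2 : K1 + 2 * δ + 2 * K0 * δ ≤ K * (1 - δ) := by
    have h1 : δ ≤ (K - K1) / (2 + 2 * K0 + K) := min_le_right _ _
    rw [le_div_iff₀ hden] at h1
    linarith
  obtain ⟨A0, hA, hA'⟩ := hφ.tail (tsupport phi0) hD δ hδ
  have hD1 : IsCompact (⋃ a ∈ A0, (fun y : U.Y => a⁻¹ • y) '' tsupport phi0) :=
    A0.isCompact_biUnion fun a _ => hD.image (U.cont_smul a⁻¹)
  set B : Finset U.G := (hfin _ hD1).toFinset with hB
  have hχ1 : ∀ y ∈ tsupport phi0, ∀ a ∈ A0, chi phi0 B (a⁻¹ • y) = 1 := by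
    intro y hy a ha
    rw [← h0.sum_one (a⁻¹ • y)]
    symm
    refine finsum_eq_sum_of_support_subset _ fun b hb => ?_
    rw [hB, Set.Finite.coe_toFinset]
    refine ⟨a⁻¹ • y, ?_, hb⟩
    simp only [Set.mem_iUnion]
    exact ⟨a, ha, y, hy, rfl⟩
  have hφC : C2 φ := hφ.smooth
  have hχC : C2 (chi phi0 B) := chi_C2 h0 B
  set P : U.Y → ℝ := fun x => chi phi0 B x * φ x with hP
  have hPC : C2 P := hχC.mul hφC
  have hP0 : ∀ x, 0 ≤ P x := fun x => mul_nonneg (chi_nonneg h0 B x) (hφ.nonneg x)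
  have hPF : Fin' P := by
    intro D hD
    refine (chi_fin hfin B D hD).subset ?_
    rintro a ⟨y, hy, hne⟩
    exact ⟨y, hy, left_ne_zero_of_mul hne⟩
  set S : U.Y → ℝ := fun x => ∑ᶠ b : U.G, P (b⁻¹ • x) with hSdef
  have hSC : C2 S := fs_C2 hPF hPC
  have hSinv : ∀ (a : U.G) (y : U.Y), S (a • y) = S y := fun a y => fs_inv P a y
  have hSD : ∀ y ∈ tsupport phi0, 1 - δ ≤ S y := by
    intro y hy
    have h1 : 1 - δ ≤ ∑ a ∈ A0, φ (a⁻¹ • y) :=
      sum_ge (hφ.hasSum y) (fun a => hφ.nonneg _) A0 fun A hAd => (hA A hAd).1 y hy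
    have h2 : ∑ a ∈ A0, φ (a⁻¹ • y) = ∑ a ∈ A0, P (a⁻¹ • y) := by
      refine Finset.sum_congr rfl fun a ha => ?_
      simp only [hP, hχ1 y hy a ha, one_mul]
    rw [h2] at h1
    exact h1.trans (sum_le_finsum (hPF.pt y) (fun a => hP0 _) A0)
  have hSlow : ∀ y, 1 - δ ≤ S y := by
    intro y
    obtain ⟨a, ha⟩ := hcov y
    rw [← hSinv a⁻¹ y]
    exact hSD _ ha
  have hSpos : ∀ y, 0 < S y := fun y => by linarith [hSlow y]
  refine ⟨fun x => P x / S x, ⟨hPC.div hSC fun y => (hSpos y).ne', ?_, fun y =>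
    div_nonneg (hP0 y) (hSpos y).le, ?_, ?_⟩⟩
  · refine (chi_supp h0 B).mono fun y hy => ?_
    have h1 : P y ≠ 0 := fun h => hy (by simp only [h, zero_div])
    exact left_ne_zero_of_mul h1
  · intro y
    have h1 : ∀ a : U.G, P (a⁻¹ • y) / S (a⁻¹ • y) = P (a⁻¹ • y) * (S y)⁻¹ := fun a => by
      rw [hSinv, div_eq_mul_inv]
    simp only [h1]
    rw [← finsum_mul' _ _ (hPF.pt y)]
    exact mul_inv_cancel₀ (hSpos y).ne'
  · -- the gradient
    have hgD : ∀ (c : LCh U) (z : E4), z ∈ c.psi.target → c.psi.symm z ∈ tsupport phi0 →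
        ∀ v : E4, ∑ᶠ a : U.G, |dd c z v (fun y => (fun x => P x / S x) (a⁻¹ • y))| ≤
          K * Nv g c z v := by
      intro c z hz hzD v
      exact est h0 hfin hK0 hφ hKpos.le hδ1 hδ2 A0 B (c.psi.symm z)
        (fun A hAd => (hA A hAd).1 _ hzD) (hχ1 _ hzD) c z hz rfl v
        (fun A hAd => (hA A hAd).2 c z hz hzD v) (hA' A0 le_rfl c z hz hzD v)
        (fun y => (hSpos y).ne') (hSD _ hzD)
    intro c z hz v
    obtain ⟨a0, ha0⟩ := hcov (c.psi.symm z)
    have h1 := hgD (tr a0 c) z (by rw [tr_target]; exact hz) ha0 v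
    have h2 : ∀ a : U.G, |dd (tr a0 c) z v (fun y => (fun x => P x / S x) (a⁻¹ • y))| =
        |fderiv ℝ (fun w => (fun x => P x / S x) ((a0 * a)⁻¹ • c.psi.symm w)) z v| := by
      intro a
      unfold dd
      simp only [tr_symm, mul_inv_rev, mul_smul]
    simp only [h2] at h1
    have h3 := finsum_comp_equiv (Equiv.mulLeft a0)
      (f := fun a : U.G => |fderiv ℝ (fun w => (fun x => P x / S x) (a⁻¹ • c.psi.symm w)) z v|)
    rw [← h3]
    exact h1

end

end Gm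

open Gm in
/-- Gm: truncation. -/
theorem claimTrunc_proof : claimTrunc := by
  intro X _ _ _ _ _ _ U g K0 phi0 h0 hfin K1 φ hφ K hK
  have hN : ∀ (c : LCh U) (z v : E4),
      0 ≤ Real.sqrt (∑ i, ∑ j, g.coef c.e z i j * v i * v j) := fun c z v => Real.sqrt_nonneg _
  have h0' : IsEqPart U g (max K0 0) phi0 :=
    { smooth := h0.smooth
      supp := h0.supp
      nonneg := h0.nonneg
      sum_one := h0.sum_one
      grad := fun c z hz v => (h0.grad c z hz v).trans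
        (mul_le_mul_of_nonneg_right (le_max_left _ _) (hN c z v)) }
  by_cases hK1 : 0 ≤ K1
  · exact trunc h0' hfin (le_max_right _ _) hφ hK1 hK
  · push Not at hK1
    have hz0 : ∀ (c : LCh U), ∀ z ∈ c.psi.target, ∀ v : E4,
        Real.sqrt (∑ i, ∑ j, g.coef c.e z i j * v i * v j) = 0 := by
      intro c z hz v
      have h1 := hφ.grad ∅ c z hz v
      rw [Finset.sum_empty] at h1
      refine le_antisymm ?_ (hN c z v)
      by_contra hne
      push Not at hne
      have := mul_neg_of_neg_of_pos hK1 hne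
      linarith
    have hφ' : IsFam U g 0 φ :=
      { smooth := hφ.smooth
        nonneg := hφ.nonneg
        hasSum := hφ.hasSum
        grad := fun A c z hz v => by
          have := hφ.grad A c z hz v
          rw [hz0 c z hz v, mul_zero] at this ⊢
          exact this
        tail := hφ.tail }
    obtain ⟨phi, hphi⟩ := trunc h0' hfin (le_max_right _ _) hφ' le_rfl (zero_lt_one' ℝ)
    refine ⟨phi, ⟨hphi.smooth, hphi.supp, hphi.nonneg, hphi.sum_one, fun c z hz v => ?_⟩⟩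
    have := hphi.grad c z hz v
    rw [hz0 c z hz v, mul_zero] at this ⊢
    exact this

end NRF
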