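import Mathlib

/-!
# Definitions for the Gromov-Hitchin-Thorpe inequality for the normalised Ricci flow
Metrics, curvature, measure, Ricci flow, singular chains, simplicial volume; the definitions on
differential forms that the final theorem mentions are in `FDefs.lean`.
Tensor fields on a manifold modelled on R^4 are given by their coefficients in the charts of the
atlas, together with the usual transformation law.
-/

open scoped Manifold ContDiff Topology
open MeasureTheory Set

noncomputable section

namespace NRF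

/-- The model space. -/
abbrev E4 := EuclideanSpace ℝ (Fin 4)

/-- Standard basis vectors of `ℝ⁴`. -/
def bv (i : Fin 4) : E4 := EuclideanSpace.single i 1

/-- Partial derivative in the direction of the i-th coordinate. -/
def pd {F : Type*} [NormedAddCommGroup F] [NormedSpace ℝ F] (i : Fin 4) (f : E4 → F) (y : E4) : F :=
  fderiv ℝ f y (bv i)

/-- Charts of the given atlas. -/
abbrev Ch (X : Type) [TopologicalSpace X] [ChartedSpace E4 X] :=
  {e : OpenPartialHomeomorph X E4 // e ∈ atlas E4 X}

/-! ## Coordinate formulas for a metric `G` on an open subset of `ℝ⁴` -/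

/-- Christoffel symbols `Γ^k_ij`. -/
def chr (G : E4 → Matrix (Fin 4) (Fin 4) ℝ) (k i j : Fin 4) (y : E4) : ℝ :=
  (1 / 2) * ∑ l, (G y)⁻¹ k l *
    (pd i (fun z => G z j l) y + pd j (fun z => G z i l) y - pd l (fun z => G z i j) y)

/-- Ricci tensor `R_ij = ∂_k Γ^k_ij - ∂_j Γ^k_ik + Γ^k_kl Γ^l_ij - Γ^k_jl Γ^l_ik`. -/
def ricci (G : E4 → Matrix (Fin 4) (Fin 4) ℝ) (i j : Fin 4) (y : E4) : ℝ :=
  ∑ k, (pd k (chr G k i j) y - pd j (chr G k i k) y +
    ∑ l, (chr G k k l y * chr G l i j y - chr G k j l y * chr G l i k y))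

/-- Scalar curvature `s = g^ij R_ij`. -/
def scalC (G : E4 → Matrix (Fin 4) (Fin 4) ℝ) (y : E4) : ℝ :=
  ∑ i, ∑ j, (G y)⁻¹ i j * ricci G i j y

/-- Squared length of the gradient, `g^ij ∂_i u ∂_j u`. -/
def gradSqC (G : E4 → Matrix (Fin 4) (Fin 4) ℝ) (u : E4 → ℝ) (y : E4) : ℝ :=
  ∑ i, ∑ j, (G y)⁻¹ i j * (pd i u y * pd j u y)

variable (X : Type) [TopologicalSpace X] [ChartedSpace E4 X]

/-- The charts of the atlas are positively related: `X` is an oriented manifold. -/
def OrientedAtlas : Prop :=
  ∀ e e' : Ch X, ∀ y ∈ (e.1.symm.trans e'.1).source,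
    0 < (fderiv ℝ (e.1.symm.trans e'.1) y).det

/-- A smooth Riemannian metric on `X`: symmetric positive definite coefficient matrices in all the
charts of the atlas, with the transformation law of a covariant 2-tensor. -/
structure Metric where
  coef : Ch X → E4 → Matrix (Fin 4) (Fin 4) ℝ
  smooth : ∀ e : Ch X, ∀ i j, ContDiffOn ℝ ∞ (fun y => coef e y i j) e.1.target
  posDef : ∀ e : Ch X, ∀ y ∈ e.1.target, (coef e y).PosDef
  transf : ∀ e e' : Ch X, ∀ y ∈ (e.1.symm.trans e'.1).source, ∀ i j,
    coef e y i j = ∑ k, ∑ l, (pd i (e.1.symm.trans e'.1) y) k * (pd j (e.1.symm.trans e'.1) y) l *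
      coef e' ((e.1.symm.trans e'.1) y) k l

variable {X}

/-- The preferred chart at a point. -/
def chAt (x : X) : Ch X := ⟨chartAt E4 x, chart_mem_atlas E4 x⟩

/-- Scalar curvature of a metric, as a function on `X`. -/
def Metric.scal (g : Metric X) (x : X) : ℝ := scalC (g.coef (chAt x)) (chartAt E4 x x)

/-- Squared norm of the gradient of a function on `X`. -/
def Metric.gradSq (g : Metric X) (u : X → ℝ) (x : X) : ℝ :=
  gradSqC (g.coef (chAt x)) (u ∘ (chartAt E4 x).symm) (chartAt E4 x x)

variable [MeasurableSpace X] [BorelSpace X]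

/-- The measure on `X` whose density in every chart `e` is the positive part of `D e`.
(In all our uses the functions `D e` are the coefficients of a top degree form or of a density, so
that the measures of the different charts agree on overlaps; the supremum glues them.) -/
def densMeasure (D : Ch X → E4 → ℝ) : Measure X :=
  ⨆ e : Ch X, Measure.map e.1.symm
    ((volume.restrict e.1.target).withDensity (fun y => ENNReal.ofReal (D e y)))

/-- The Riemannian measure of a metric. -/
def Metric.vol (g : Metric X) : Measure X := densMeasure (fun e y => Real.sqrt (g.coef e y).det)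

/-- Total volume. -/
def Metric.volume (g : Metric X) : ℝ := (g.vol univ).toReal

/-- Mean scalar curvature. -/
def Metric.meanScal (g : Metric X) : ℝ := (∫ x, g.scal x ∂g.vol) / g.volume

/-- The lowest eigenvalue of `4Δ + s`, as an infimum of Rayleigh quotients. -/
def Metric.lam (g : Metric X) : ℝ :=
  sInf {r : ℝ | ∃ u : X → ℝ, ContMDiff (𝓡 4) 𝓘(ℝ, ℝ) ∞ u ∧ u ≠ 0 ∧
    r = (∫ x, (g.scal x * u x ^ 2 + 4 * g.gradSq u x) ∂g.vol) / ∫ x, u x ^ 2 ∂g.vol}

variable (X) in
/-- Perelman's invariant, the supremum of `λ_g vol_g^(1/2)` over all metrics. -/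
def lamBar : EReal := ⨆ g : Metric X, ((g.lam * Real.sqrt g.volume : ℝ) : EReal)

/-- A smooth solution on `[0,∞)` of the normalised Ricci flow
`∂_t g = -2 Ric + (1/2) (mean scalar curvature) g`. -/
structure IsNormalizedRicciFlow (g : ℝ → Metric X) : Prop where
  smooth : ∀ e : Ch X, ∀ i j, ContDiffOn ℝ ∞ (fun p : ℝ × E4 => (g p.1).coef e p.2 i j)
    (Ici 0 ×ˢ e.1.target)
  eqn : ∀ t : ℝ, 0 ≤ t → ∀ e : Ch X, ∀ y ∈ e.1.target, ∀ i j,
    HasDerivWithinAt (fun s => (g s).coef e y i j)
      (-2 * ricci ((g t).coef e) i j y + (1 / 2) * (g t).meanScal * (g t).coef e y i j) (Ici 0) t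

/-- Quasi-non-singular solution: it exists for all times and its scalar curvature is bounded. -/
structure IsQuasiNonSingular (g : ℝ → Metric X) : Prop where
  flow : IsNormalizedRicciFlow g
  bounded : ∃ C : ℝ, ∀ t : ℝ, 0 ≤ t → ∀ x, |(g t).scal x| ≤ C

/-! ## Integration of top degree forms -/

/-- Integral over the oriented manifold `X` of a 4-form with coefficient `D e` in the chart `e`. -/
def integralTop (D : Ch X → E4 → ℝ) : ℝ :=
  (densMeasure D univ).toReal - (densMeasure (fun e y => -D e y) univ).toReal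

/-! ## Singular chains and simplicial volume -/

/-- Singular `k`-simplices. -/
abbrev Simp (k : ℕ) (Y : Type) [TopologicalSpace Y] := C(stdSimplex ℝ (Fin (k + 1)), Y)

/-- Real singular `k`-chains. -/
abbrev Chain (k : ℕ) (Y : Type) [TopologicalSpace Y] := Simp k Y →₀ ℝ

/-- The i-th face inclusion of the standard simplex. -/
def faceIncl (k : ℕ) (i : Fin (k + 2)) :
    C(stdSimplex ℝ (Fin (k + 1)), stdSimplex ℝ (Fin (k + 2))) :=
  ⟨stdSimplex.map i.succAbove, stdSimplex.continuous_map _⟩

/-- The singular boundary operator. -/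
def bdry {Y : Type} [TopologicalSpace Y] {k : ℕ} : Chain (k + 1) Y →ₗ[ℝ] Chain k Y :=
  Finsupp.lsum ℝ fun s : Simp (k + 1) Y =>
    LinearMap.toSpanSingleton ℝ (Chain k Y)
      (∑ i : Fin (k + 2), (-1 : ℝ) ^ (i : ℕ) • Finsupp.single (s.comp (faceIncl k i)) (1 : ℝ))

/-- The `ℓ¹` norm of a singular chain. -/
def norm1 {Y : Type} [TopologicalSpace Y] {k : ℕ} (c : Chain k Y) : ℝ := c.sum fun _ a => |a|

/-- `c` is a real singular cycle which represents the fundamental class of the oriented
4-manifold `X`: at every point `x` its class in `H_4(X, X ∖ {x}; ℝ)` is the local orientation, that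
is, the class of any positively oriented affine simplex of a chart that contains `x` in its
interior. -/
structure IsFundamentalCycle (c : Chain 4 X) : Prop where
  cycle : bdry c = 0
  local_deg : ∀ (x : X) (e : Ch X) (p : Fin 5 → E4) (s : Simp 4 X),
    x ∈ e.1.source → e.1 x ∈ interior (convexHull ℝ (range p)) →
    convexHull ℝ (range p) ⊆ e.1.target →
    0 < Matrix.det (Matrix.of fun i j : Fin 4 => (p j.succ - p 0) i) →
    (∀ t : stdSimplex ℝ (Fin 5), s t = e.1.symm (∑ i, t.1 i • p i)) →
    ∃ (b : Chain 5 X) (d : Chain 4 X),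
      c - Finsupp.single s 1 = bdry b + d ∧ ∀ r ∈ d.support, x ∉ range r

variable (X) in
/-- Gromov's simplicial volume. -/
def simplicialVolume : ℝ := sInf {r : ℝ | ∃ c : Chain 4 X, IsFundamentalCycle c ∧ r = norm1 c}

end NRF
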