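import Pool.Agent.Work.MP_7f974f_gt.Defs

/-!
# Riemannian geometry as differential algebra (module A, definitions)
A commutative `ℝ`-algebra `R` with commuting derivations `D i` and a symmetric invertible matrix `g`
over `R`. No analysis here; the bridge to smooth functions on an open subset of a normed space is in
`Bridge.lean`.
-/

noncomputable section

namespace NRF

/-- Commuting derivations and a metric over a commutative ring. -/
structure Geo (ι R : Type) [Fintype ι] [DecidableEq ι] [CommRing R] [Algebra ℝ R] where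
  D : ι → Derivation ℝ R R
  comm : ∀ i j a, D i (D j a) = D j (D i a)
  g : Matrix ι ι R
  h : Matrix ι ι R
  symm : ∀ i j, g i j = g j i
  inv : h * g = 1

namespace Geo

variable {ι R : Type} [Fintype ι] [DecidableEq ι] [CommRing R] [Algebra ℝ R] (S : Geo ι R)

/-- Christoffel symbols `Γ^k_ij`. -/
def chr (k i j : ι) : R :=
  (1 / 2 : ℝ) • ∑ l, S.h k l * (S.D i (S.g j l) + S.D j (S.g i l) - S.D l (S.g i j))

/-- The matrix `(Γ_i)^k_j`. -/
def chrM (i : ι) : Matrix ι ι R := Matrix.of fun k j => S.chr k i j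

/-- Curvature tensor `R^k_{l i j} = ∂_i Γ^k_jl - ∂_j Γ^k_il + Γ^k_im Γ^m_jl - Γ^k_jm Γ^m_il`. -/
def rm (k l i j : ι) : R :=
  S.D i (S.chr k j l) - S.D j (S.chr k i l) +
    ∑ m, (S.chr k i m * S.chr m j l - S.chr k j m * S.chr m i l)

/-- The same with the first index lowered: `R_{a l i j}`. -/
def rmL (a l i j : ι) : R := ∑ k, S.g a k * S.rm k l i j

/-- Ricci tensor, with the same formula as `NRF.ricci`. -/
def ric (i j : ι) : R :=
  ∑ k, (S.D k (S.chr k i j) - S.D j (S.chr k i k) +
    ∑ l, (S.chr k k l * S.chr l i j - S.chr k j l * S.chr l i k))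

/-- Scalar curvature. -/
def scal : R := ∑ i, ∑ j, S.h i j * S.ric i j

/-- `⟨∇u, ∇v⟩`. -/
def grad2 (u v : R) : R := ∑ i, ∑ j, S.h i j * (S.D i u * S.D j v)

/-- Hessian. -/
def hess (u : R) (i j : ι) : R := S.D i (S.D j u) - ∑ k, S.chr k i j * S.D k u

/-- Laplacian. -/
def lap (u : R) : R := ∑ i, ∑ j, S.h i j * S.hess u i j

/-- Inner product of covariant 2-tensors. -/
def inner2 (A B : ι → ι → R) : R :=
  ∑ i, ∑ j, ∑ k, ∑ l, S.h i k * S.h j l * (A i j * B k l)

/-- Covariant derivative `∇_k A_ij` of a covariant 2-tensor. -/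
def cov2 (A : ι → ι → R) (k i j : ι) : R :=
  S.D k (A i j) - ∑ m, (S.chr m k i * A m j + S.chr m k j * A i m)

end Geo

/-- An orthonormal frame: `f k a` is the k-th coordinate of the a-th frame vector. -/
structure Frame {ι R : Type} [Fintype ι] [DecidableEq ι] [CommRing R] [Algebra ℝ R]
    (S : Geo ι R) where
  f : Matrix ι ι R
  fi : Matrix ι ι R
  inv : fi * f = 1
  orth : f.transpose * S.g * f = 1

namespace Frame

variable {ι R : Type} [Fintype ι] [DecidableEq ι] [CommRing R] [Algebra ℝ R] {S : Geo ι R}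
  (F : Frame S)

/-- Connection matrices in the frame: `ω_i = f⁻¹ (∂_i f + Γ_i f)`. -/
def om (i : ι) : Matrix ι ι R := F.fi * (F.f.map (S.D i) + S.chrM i * F.f)

/-- Curvature matrices in the frame: `Ω_ij = ∂_i ω_j - ∂_j ω_i + [ω_i, ω_j]`. -/
def Om (i j : ι) : Matrix ι ι R :=
  (F.om j).map (S.D i) - (F.om i).map (S.D j) + F.om i * F.om j - F.om j * F.om i

/-- Components of the curvature in the frame, `R_{abcd} = (Ω(f_a, f_b))_{cd}`. -/
def R4 (a b c d : ι) : R := ∑ i, ∑ j, F.f i a * F.f j b * F.Om i j c d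

end Frame

/-! ## The exterior algebra of `ℝ⁴` as functions on `Finset (Fin 4)` -/

/-- Index set of the 16 basis forms. -/
abbrev Lam := Finset (Fin 4)

/-- Integer matrix of the exterior multiplication by the a-th basis covector. -/
def epsZ (a : Fin 4) : Matrix Lam Lam ℤ := Matrix.of fun s t =>
  if a ∉ t ∧ s = insert a t then (-1) ^ (t.filter (· < a)).card else 0

section
variable (R : Type) [CommRing R]

/-- Exterior multiplication `ε_a`. -/
def eps (a : Fin 4) : Matrix Lam Lam R := (epsZ a).map (Int.cast : ℤ → R)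

/-- Contraction `ι_a`, the transpose of `ε_a`. -/
def iot (a : Fin 4) : Matrix Lam Lam R := (eps R a).transpose

/-- Clifford multiplication `c_a = ε_a - ι_a`. -/
def clf (a : Fin 4) : Matrix Lam Lam R := eps R a - iot R a

/-- The operator `(-1)^deg`. -/
def evenOdd : Matrix Lam Lam R := Matrix.diagonal fun s => (-1) ^ s.card

/-- The Clifford volume element `c_0 c_1 c_2 c_3`; it is minus the Hodge star on 2-forms. -/
def gam : Matrix Lam Lam R := clf R 0 * clf R 1 * clf R 2 * clf R 3

variable {R}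

/-- Derived action of a matrix on the exterior algebra: `ρ(A) = ∑ A_ab ε_a ι_b`. -/
def rho (A : Matrix (Fin 4) (Fin 4) R) : Matrix Lam Lam R :=
  ∑ a, ∑ b, A a b • (eps R a * iot R b)

/-- The curvature term of the Weitzenböck formula, `(1/2) ∑ R_abcd c_a c_b ε_c ι_d`. -/
def weitz [Algebra ℝ R] (Q : Fin 4 → Fin 4 → Fin 4 → Fin 4 → R) : Matrix Lam Lam R :=
  (1 / 2 : ℝ) • ∑ a, ∑ b, ∑ c, ∑ d, Q a b c d • (clf R a * clf R b * eps R c * iot R d)

end

namespace Frame

variable {R : Type} [CommRing R] [Algebra ℝ R] {S : Geo (Fin 4) R} (F : Frame S)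

/-- Covariant derivative of a form given by its frame components. -/
def nab (i : Fin 4) (α : Lam → R) : Lam → R :=
  (fun s => S.D i (α s)) + (rho (F.om i)).mulVec α

/-- Exterior derivative in the frame, `d = ∑ f^i_a ε_a ∇_i`. -/
def dF (α : Lam → R) : Lam → R :=
  ∑ i, ∑ a, F.f i a • (eps R a).mulVec (F.nab i α)

/-- Codifferential in the frame, `δ = -∑ f^i_a ι_a ∇_i`. -/
def delF (α : Lam → R) : Lam → R :=
  -∑ i, ∑ a, F.f i a • (iot R a).mulVec (F.nab i α)

/-- `D = d + δ = ∑ f^i_a c_a ∇_i`. -/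
def dirac (α : Lam → R) : Lam → R :=
  ∑ i, ∑ a, F.f i a • (clf R a).mulVec (F.nab i α)

end Frame

end NRF
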