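import Pool.Agent.Work.MP_7f974f_gt.Stmts_DA

/-!
# DA3: the algebraic symmetries of the curvature tensor
-/

noncomputable section

namespace NRF

namespace DA3

variable {ι R : Type} [Fintype ι] [DecidableEq ι] [CommRing R] [Algebra ℝ R]

theorem two_cancel {x y : R} (h : 2 * x = 2 * y) : x = y := by
  have h1 : ∀ z : R, z = (1 / 2 : ℝ) • (2 * z) := by
    intro z
    have h2 : (2 : R) * z = (2 : ℝ) • z := by
      rw [two_mul, two_smul]
    rw [h2, smul_smul]
    norm_num
  rw [h1 x, h1 y, h]

theorem der_mul (d : Derivation ℝ R R) (A B : Matrix ι ι R) :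
    (A * B).map d = A.map d * B + A * B.map d := by
  ext a l
  simp only [Matrix.map_apply, Matrix.add_apply, Matrix.mul_apply, map_sum, Derivation.leibniz,
    smul_eq_mul]
  rw [← Finset.sum_add_distrib]
  refine Finset.sum_congr rfl fun m _ => ?_
  ring

theorem der_add (d : Derivation ℝ R R) (A B : Matrix ι ι R) :
    (A + B).map d = A.map d + B.map d := by
  ext a l
  simp only [Matrix.map_apply, Matrix.add_apply, map_add]

theorem der_transpose (d : Derivation ℝ R R) (A : Matrix ι ι R) :
    A.transpose.map d = (A.map d).transpose := rfl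

variable (S : Geo ι R)

/-- The curvature matrix. -/
def F (i j : ι) : Matrix ι ι R := Matrix.of fun k l => S.rm k l i j

theorem F_eq (i j : ι) : F S i j = (S.chrM j).map (S.D i) - (S.chrM i).map (S.D j) +
    (S.chrM i * S.chrM j - S.chrM j * S.chrM i) := by
  ext k l
  simp only [F, Geo.rm, Geo.chrM, Matrix.of_apply, Matrix.add_apply, Matrix.sub_apply,
    Matrix.map_apply, Matrix.mul_apply, Finset.sum_sub_distrib]

theorem rmL_eq (a l i j : ι) : S.rmL a l i j = (S.g * F S i j) a l := by
  simp only [Geo.rmL, F, Matrix.mul_apply, Matrix.of_apply]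

theorem g_transpose : S.g.transpose = S.g := by
  ext i j
  exact S.symm j i

theorem der_g (h1 : claimDA1) (i : ι) :
    S.g.map (S.D i) = S.g * S.chrM i + (S.g * S.chrM i).transpose := by
  obtain ⟨-, -, -, hg, -⟩ := h1 ι R S
  ext a l
  rw [Matrix.map_apply, hg i a l, Finset.sum_add_distrib]
  simp only [Matrix.add_apply, Matrix.transpose_apply, Matrix.mul_apply, Geo.chrM,
    Matrix.of_apply]

theorem skew (h1 : claimDA1) (i j : ι) :
    S.g * F S i j + (S.g * F S i j).transpose = 0 := by
  have hc : (S.g.map (S.D j)).map (S.D i) = (S.g.map (S.D i)).map (S.D j) := by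
    ext a l
    simp only [Matrix.map_apply]
    exact S.comm i j _
  rw [der_g S h1 j, der_g S h1 i] at hc
  simp only [der_add, der_transpose, der_mul, der_g S h1, Matrix.transpose_mul,
    Matrix.transpose_add, g_transpose S, Matrix.transpose_transpose] at hc
  rw [F_eq]
  simp only [Matrix.transpose_mul, Matrix.transpose_add, Matrix.transpose_sub, g_transpose S,
    Matrix.mul_add, Matrix.mul_sub, Matrix.add_mul, Matrix.sub_mul, Matrix.transpose_transpose,
    Matrix.mul_assoc] at hc ⊢
  rw [← sub_eq_zero] at hc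
  rw [← hc]
  abel

theorem rm_skew (k l i j : ι) : S.rm k l i j = -S.rm k l j i := by
  unfold Geo.rm
  rw [neg_add, neg_sub, ← Finset.sum_neg_distrib]
  congr 1
  refine Finset.sum_congr rfl fun m _ => ?_
  ring

theorem bianchi (h1 : claimDA1) (k l i j : ι) :
    S.rm k l i j + S.rm k i j l + S.rm k j l i = 0 := by
  obtain ⟨-, -, hs, -, -⟩ := h1 ι R S
  unfold Geo.rm
  have e1 : ∑ m, (S.chr k i m * S.chr m j l - S.chr k j m * S.chr m i l) +
      ∑ m, (S.chr k j m * S.chr m l i - S.chr k l m * S.chr m j i) +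
      ∑ m, (S.chr k l m * S.chr m i j - S.chr k i m * S.chr m l j) = 0 := by
    rw [← Finset.sum_add_distrib, ← Finset.sum_add_distrib]
    refine Finset.sum_eq_zero fun m _ => ?_
    rw [hs m l i, hs m j i, hs m l j]
    ring
  have e2 : S.D i (S.chr k j l) - S.D j (S.chr k i l) + (S.D j (S.chr k l i) -
      S.D l (S.chr k j i)) + (S.D l (S.chr k i j) - S.D i (S.chr k l j)) = 0 := by
    rw [hs k l i, hs k j i, hs k l j]
    ring
  linear_combination e1 + e2

theorem rmL_skew1 (h1 : claimDA1) (a l i j : ι) : S.rmL a l i j = -S.rmL l a i j := by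
  have h := congrFun (congrFun (skew S h1 i j) a) l
  simp only [Matrix.add_apply, Matrix.transpose_apply, Matrix.zero_apply] at h
  rw [← rmL_eq, ← rmL_eq] at h
  exact eq_neg_of_add_eq_zero_left h

theorem rmL_skew2 (a l i j : ι) : S.rmL a l i j = -S.rmL a l j i := by
  unfold Geo.rmL
  rw [← Finset.sum_neg_distrib]
  refine Finset.sum_congr rfl fun k _ => ?_
  rw [rm_skew S k l i j]
  ring

theorem rmL_bianchi (h1 : claimDA1) (a l i j : ι) :
    S.rmL a l i j + S.rmL a i j l + S.rmL a j l i = 0 := by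
  unfold Geo.rmL
  rw [← Finset.sum_add_distrib, ← Finset.sum_add_distrib]
  refine Finset.sum_eq_zero fun k _ => ?_
  rw [← mul_add, ← mul_add, bianchi S h1, mul_zero]

theorem pair (h1 : claimDA1) (a l i j : ι) : S.rmL a l i j = S.rmL i j a l := by
  apply two_cancel
  have b1 := rmL_bianchi S h1 a l i j
  have b2 := rmL_bianchi S h1 l i j a
  have b3 := rmL_bianchi S h1 i j a l
  have b4 := rmL_bianchi S h1 j a l i
  have s1 := rmL_skew1 S h1 l a i j
  have s2 := rmL_skew1 S h1 j i a l
  have s3 := rmL_skew1 S h1 i a l j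
  have s3' := rmL_skew2 S a i l j
  have s4 := rmL_skew1 S h1 j a l i
  have s5 := rmL_skew1 S h1 i l j a
  have s6 := rmL_skew1 S h1 j l i a
  have s6' := rmL_skew2 S l j i a
  linear_combination b1 - b2 - b3 + b4 + s1 + s3 - s3' - s4 + s5 - s6 + s6' - s2

theorem ric_eq (h1 : claimDA1) (i j : ι) : S.ric i j = ∑ k, S.rm k i k j := by
  obtain ⟨-, -, hs, -, -⟩ := h1 ι R S
  unfold Geo.ric Geo.rm
  refine Finset.sum_congr rfl fun k _ => ?_
  rw [hs k i j, hs k i k]
  congr 1
  refine Finset.sum_congr rfl fun m _ => ?_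
  rw [hs m i j, hs m i k]

theorem ric_eq2 (h1 : claimDA1) (i j : ι) :
    S.ric i j = ∑ k, ∑ a, S.h k a * S.rmL a i k j := by
  rw [ric_eq S h1]
  refine Finset.sum_congr rfl fun k _ => ?_
  have h2 : S.h * (S.g * F S k j) = F S k j := by
    rw [← Matrix.mul_assoc, S.inv, Matrix.one_mul]
  have h3 := congrFun (congrFun h2 k) i
  rw [Matrix.mul_apply] at h3
  simp only [rmL_eq]
  exact h3.symm

theorem ric_symm (h1 : claimDA1) (i j : ι) : S.ric i j = S.ric j i := by
  obtain ⟨hh, -, -, -, -⟩ := h1 ι R S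
  rw [ric_eq2 S h1 i j, ric_eq2 S h1 j i, Finset.sum_comm]
  refine Finset.sum_congr rfl fun k _ => ?_
  refine Finset.sum_congr rfl fun a _ => ?_
  rw [hh a k, pair S h1 k i a j]

end DA3

theorem thm_DA3 (h1 : claimDA1) : claimDA3 := by
  intro ι R _ _ _ _ S
  exact ⟨DA3.rm_skew S, DA3.bianchi S h1, DA3.rmL_skew1 S h1, DA3.pair S h1, DA3.ric_eq S h1,
    DA3.ric_symm S h1⟩

end NRF
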