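import Pool.Agent.Work.MP_7f974f_gt.Core

/-!
# Differential forms, Betti numbers, signature: the definitions used in the final statement
Everything else that the final statement mentions is defined in `Core.lean`.
-/

open scoped Manifold ContDiff Topology
open MeasureTheory Set

noncomputable section

namespace NRF

/-- The alternating `k`-linear forms on `ℝ⁴`. -/
def AltF (k : ℕ) : Type := E4 [⋀^Fin k]→L[ℝ] ℝ

/-- The linear maps `ℝ⁴ → ℝ⁴`. -/
def Lin4 : Type := E4 →L[ℝ] E4

instance altGroup (k : ℕ) : NormedAddCommGroup (AltF k) :=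
  ContinuousAlternatingMap.instNormedAddCommGroup (𝕜 := ℝ) (E := E4) (F := ℝ) (ι := Fin k)

instance altSpace (k : ℕ) : NormedSpace ℝ (AltF k) :=
  ContinuousAlternatingMap.instNormedSpace (𝕜 := ℝ) (E := E4) (F := ℝ) (ι := Fin k)

/-- The value of an alternating form on vectors. -/
def AltF.val {k : ℕ} (a : AltF k) (v : Fin k → E4) : ℝ :=
  ContinuousAlternatingMap.toContinuousMultilinearMap a v

/-- Pull back of an alternating form by a linear map. -/
def AltF.pull {k : ℕ} (A : Lin4) (a : AltF k) : AltF k :=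
  ContinuousAlternatingMap.compContinuousLinearMap a A

/-- Exterior derivative of a differential form on an open subset of `ℝ⁴`. -/
def extD {k : ℕ} (w : E4 → AltF k) (y : E4) : AltF (k + 1) :=
  extDeriv (𝕜 := ℝ) (E := E4) (F := ℝ) (n := k) w y

/-- The coefficient of the 4-form `a ∧ b` on the standard basis, for 2-forms `a`, `b` on `ℝ⁴`. -/
def wedge (a b : AltF 2) : ℝ :=
  a.val ![bv 0, bv 1] * b.val ![bv 2, bv 3] - a.val ![bv 0, bv 2] * b.val ![bv 1, bv 3]
    + a.val ![bv 0, bv 3] * b.val ![bv 1, bv 2] + a.val ![bv 1, bv 2] * b.val ![bv 0, bv 3]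
    - a.val ![bv 1, bv 3] * b.val ![bv 0, bv 2] + a.val ![bv 2, bv 3] * b.val ![bv 0, bv 1]

variable (X : Type) [TopologicalSpace X] [ChartedSpace E4 X]

variable {X} in
/-- The target of a chart. -/
def tgt (e : Ch X) : Set E4 := e.1.target

variable {X} in
/-- The domain of the change of charts from `e` to `e'`. -/
def ovl (e e' : Ch X) : Set E4 := (e.1.symm.trans e'.1).source

variable {X} in
/-- The change of charts from `e` to `e'`. -/
def chg (e e' : Ch X) (y : E4) : E4 := (e.1.symm.trans e'.1) y

variable {X} in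
/-- Its derivative. -/
def jac (e e' : Ch X) (y : E4) : Lin4 := fderiv ℝ (chg e e') y

/-- Families of coefficients in all the charts of `X`. -/
def Coef (k : ℕ) : Type := Ch X → E4 → AltF k

instance coefGroup (k : ℕ) : AddCommGroup (Coef X k) := Pi.addCommGroup

instance coefModule (k : ℕ) : Module ℝ (Coef X k) := Pi.module _ _ _

/-- `w` is a smooth differential `k`-form on `X`, given by its coefficients in all the charts of the
atlas (zero outside of the target of the chart, by convention). -/
structure IsForm (k : ℕ) (w : Coef X k) : Prop where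
  smooth : ∀ e : Ch X, ContDiffOn ℝ ∞ (w e) (tgt e)
  zero_out : ∀ (e : Ch X) (y : E4), y ∉ tgt e → w e y = 0
  transf : ∀ (e e' : Ch X) (y : E4), y ∈ ovl e e' → w e y = AltF.pull (jac e e' y) (w e' (chg e e' y))

/-- The space of closed `k`-forms. -/
def ClosedF (k : ℕ) : Submodule ℝ (Coef X k) :=
  Submodule.span ℝ {w | IsForm X k w ∧ ∀ (e : Ch X) (y : E4), y ∈ tgt e → extD (w e) y = 0}

/-- The space of exact `k`-forms. -/
def ExactF : (k : ℕ) → Submodule ℝ (Coef X k)
  | 0 => ⊥
  | k + 1 => Submodule.span ℝ {w | IsForm X (k + 1) w ∧ ∃ v : Coef X k, IsForm X k v ∧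
      ∀ (e : Ch X) (y : E4), y ∈ tgt e → w e y = extD (v e) y}

/-- Betti numbers, by de Rham cohomology: the dimension of the image of the space of closed forms
in the quotient by the space of exact forms. -/
def bettiN (k : ℕ) : ℕ := Module.finrank ℝ ((ClosedF X k).map (ExactF X k).mkQ)

/-- The Euler characteristic. -/
def eulerC : ℤ := ∑ k ∈ Finset.range 5, (-1) ^ k * (bettiN X k : ℤ)

variable [MeasurableSpace X]

variable {X} in
/-- The quadratic form `∫ α ∧ α` on 2-forms. -/
def interQ (w : Coef X 2) : ℝ := integralTop fun (e : Ch X) (y : E4) => wedge (w e y) (w e y)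

/-- `b⁺`: the maximal dimension of a space of closed 2-forms on which `∫ α ∧ α` is positive
definite. -/
def bP : ℕ := sSup {d : ℕ | ∃ W : Submodule ℝ (Coef X 2), W ≤ ClosedF X 2 ∧
  FiniteDimensional ℝ W ∧ Module.finrank ℝ W = d ∧ ∀ w ∈ W, w ≠ 0 → 0 < interQ w}

/-- `b⁻`: the same for negative definite. -/
def bM : ℕ := sSup {d : ℕ | ∃ W : Submodule ℝ (Coef X 2), W ≤ ClosedF X 2 ∧
  FiniteDimensional ℝ W ∧ Module.finrank ℝ W = d ∧ ∀ w ∈ W, w ≠ 0 → interQ w < 0}

/-- The signature of the oriented manifold `X`. -/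
def signat : ℤ := (bP X : ℤ) - (bM X : ℤ)

end NRF
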