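import Pool.Agent.Work.MP_7f974f_gt.Bd.B01
import Pool.Agent.Work.MP_7f974f_gt.Bd.B14
import Pool.Agent.Work.MP_7f974f_gt.Bd.B05
import Pool.Agent.Work.MP_7f974f_gt.Bd.B13

/-!
# The Gromov-Hitchin-Thorpe inequality for the normalised Ricci flow: final assembly
-/

namespace NRF

theorem prf_Simp : claimSimp := H.prfSimp prf_Mapping claimMcoef_proof prf_Vol

theorem prf_TargetStrong : TargetStrong :=
  prf_AssemblyStrong prf_Basic prf_Index prf_Flow claimCover_proof prf_Simp prf_Grad

end NRF
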