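import Pool.Agent.Work.MP_7f974f_gt.Stmts_I

/-!
# I13: alternation of homogeneous group cocycles
-/

noncomputable section

namespace NRF

namespace AltCoch

open Equiv

variable {G : Type}

/-- Extension of a permutation by a fixed point 0. -/
def ex {n : ℕ} (s : Perm (Fin n)) : Perm (Fin (n + 1)) := Perm.decomposeFin.symm (0, s)

theorem ex_succ {n : ℕ} (s : Perm (Fin n)) (x : Fin n) : ex s x.succ = (s x).succ := by
  simp [ex]

theorem sign_ex {n : ℕ} (s : Perm (Fin n)) : Perm.sign (ex s) = Perm.sign s := by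
  simp [ex, Perm.decomposeFin.symm_sign]

/-- The bijection of `Fin (n+1) × Perm (Fin n)` with `Perm (Fin (n+1))`. -/
def ph {n : ℕ} (p : Fin (n + 1) × Perm (Fin n)) : Perm (Fin (n + 1)) :=
  (p.1.cycleRange)⁻¹ * ex p.2

theorem ph_bij (n : ℕ) : Function.Bijective (ph (n := n)) := by
  rw [Fintype.bijective_iff_injective_and_card]
  constructor
  · rintro ⟨j, s⟩ ⟨j', s'⟩ h
    have h0 : ∀ (j : Fin (n + 1)) (s : Perm (Fin n)), ph (j, s) 0 = j := by
      intro j s
      simp only [ph, ex, Perm.mul_apply, Perm.decomposeFin_symm_apply_zero]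
      exact Fin.cycleRange_symm_zero j
    have hj : j = j' := by
      rw [← h0 j s, ← h0 j' s', h]
    subst hj
    have h1 : ex s = ex s' := mul_left_cancel h
    have h2 := Perm.decomposeFin.symm.injective h1
    rw [Prod.mk.injEq] at h2
    rw [h2.2]
  · rw [Fintype.card_congr (Perm.decomposeFin (n := n))]

theorem ph_succ {n : ℕ} (j : Fin (n + 1)) (s : Perm (Fin n)) (x : Fin n) :
    ph (j, s) x.succ = j.succAbove (s x) := by
  simp only [ph, Perm.mul_apply, ex_succ]
  exact Fin.cycleRange_symm_succ j (s x)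

theorem sign_ph {n : ℕ} (j : Fin (n + 1)) (s : Perm (Fin n)) :
    ((Perm.sign (ph (j, s)) : ℤ) : ℝ) = (-1 : ℝ) ^ (j : ℕ) * ((Perm.sign s : ℤ) : ℝ) := by
  simp only [ph, Perm.sign_mul, Perm.sign_inv, Fin.sign_cycleRange, sign_ex]
  push_cast
  rfl

/-- Real cochains. -/
abbrev Co (G : Type) (n : ℕ) : Type := (Fin (n + 1) → G) → ℝ

/-- Coboundary. -/
def del (n : ℕ) : Co G n →ₗ[ℝ] Co G (n + 1) where
  toFun f v := ∑ i : Fin (n + 2), (-1 : ℝ) ^ (i : ℕ) * f (fun t => v (i.succAbove t))
  map_add' f g := by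
    funext v
    simp only [Pi.add_apply, mul_add, Finset.sum_add_distrib]
  map_smul' c f := by
    funext v
    simp only [Pi.smul_apply, smul_eq_mul, RingHom.id_apply, Finset.mul_sum]
    refine Finset.sum_congr rfl fun i _ => ?_
    ring

/-- Alternation. -/
def alt (n : ℕ) : Co G n →ₗ[ℝ] Co G n where
  toFun f v := (((n + 1).factorial : ℕ) : ℝ)⁻¹ *
    ∑ s : Perm (Fin (n + 1)), ((Perm.sign s : ℤ) : ℝ) * f (fun t => v (s t))
  map_add' f g := by
    funext v
    simp only [Pi.add_apply, mul_add, Finset.sum_add_distrib]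
  map_smul' c f := by
    funext v
    simp only [Pi.smul_apply, smul_eq_mul, RingHom.id_apply, Finset.mul_sum]
    refine Finset.sum_congr rfl fun i _ => ?_
    ring

theorem del_apply (n : ℕ) (f : Co G n) (v : Fin (n + 2) → G) :
    del n f v = ∑ i : Fin (n + 2), (-1 : ℝ) ^ (i : ℕ) * f (fun t => v (i.succAbove t)) := rfl

theorem alt_apply (n : ℕ) (f : Co G n) (v : Fin (n + 1) → G) :
    alt n f v = (((n + 1).factorial : ℕ) : ℝ)⁻¹ *
      ∑ s : Perm (Fin (n + 1)), ((Perm.sign s : ℤ) : ℝ) * f (fun t => v (s t)) := rfl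

theorem sum_one (n : ℕ) (f : Co G n) (v : Fin (n + 2) → G) :
    ∑ i : Fin (n + 2), (-1 : ℝ) ^ (i : ℕ) *
      ∑ s : Perm (Fin (n + 1)), ((Perm.sign s : ℤ) : ℝ) * f (fun t => v (i.succAbove (s t)))
    = ∑ s : Perm (Fin (n + 2)), ((Perm.sign s : ℤ) : ℝ) * f (fun t => v (s t.succ)) := by
  rw [← (ph_bij (n + 1)).sum_comp, Fintype.sum_prod_type]
  refine Finset.sum_congr rfl fun i _ => ?_
  rw [Finset.mul_sum]
  refine Finset.sum_congr rfl fun s _ => ?_
  rw [sign_ph]
  simp only [ph_succ]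
  ring

theorem sum_two (n : ℕ) (f : Co G n) (v : Fin (n + 2) → G) :
    ∑ s : Perm (Fin (n + 2)), ((Perm.sign s : ℤ) : ℝ) *
      ∑ i : Fin (n + 2), (-1 : ℝ) ^ (i : ℕ) * f (fun t => v (s (i.succAbove t)))
    = (n + 2 : ℝ) *
      ∑ s : Perm (Fin (n + 2)), ((Perm.sign s : ℤ) : ℝ) * f (fun t => v (s t.succ)) := by
  have h1 : ∀ i : Fin (n + 2), ∑ s : Perm (Fin (n + 2)), ((Perm.sign s : ℤ) : ℝ) *
      ((-1 : ℝ) ^ (i : ℕ) * f (fun t => v (s (i.succAbove t))))
      = ∑ s : Perm (Fin (n + 2)), ((Perm.sign s : ℤ) : ℝ) * f (fun t => v (s t.succ)) := by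
    intro i
    rw [← Equiv.sum_comp (Equiv.mulRight (i.cycleRange))]
    refine Finset.sum_congr rfl fun s _ => ?_
    simp only [Equiv.coe_mulRight, Perm.sign_mul, Fin.sign_cycleRange, Perm.mul_apply,
      Fin.cycleRange_succAbove]
    push_cast
    have h2 : ((-1 : ℝ) ^ (i : ℕ)) * ((-1 : ℝ) ^ (i : ℕ)) = 1 := by
      rw [← mul_pow]; norm_num
    linear_combination (((Perm.sign s : ℤ) : ℝ) * f (fun t => v (s t.succ))) * h2
  simp only [Finset.mul_sum]
  rw [Finset.sum_comm]
  simp only [h1]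
  rw [Finset.sum_const, Finset.card_univ, Fintype.card_fin, nsmul_eq_mul, ← Finset.mul_sum]
  push_cast
  ring

/-- Alternation is a cochain map. -/
theorem alt_del (n : ℕ) (f : Co G n) : alt (n + 1) (del n f) = del n (alt n f) := by
  funext v
  rw [alt_apply, del_apply]
  simp only [del_apply, alt_apply]
  rw [sum_two]
  have h := sum_one n f v
  have h1 : ∀ i : Fin (n + 2), (-1 : ℝ) ^ (i : ℕ) * ((((n + 1).factorial : ℕ) : ℝ)⁻¹ *
      ∑ s : Perm (Fin (n + 1)), ((Perm.sign s : ℤ) : ℝ) * f (fun t => v (i.succAbove (s t))))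
      = (((n + 1).factorial : ℕ) : ℝ)⁻¹ * ((-1 : ℝ) ^ (i : ℕ) *
      ∑ s : Perm (Fin (n + 1)), ((Perm.sign s : ℤ) : ℝ) * f (fun t => v (i.succAbove (s t)))) := by
    intro i
    ring
  simp only [h1]
  rw [← Finset.mul_sum, h, ← mul_assoc]
  congr 1
  rw [show n + 1 + 1 = (n + 1) + 1 from rfl, Nat.factorial_succ (n + 1)]
  have hf : (((n + 1).factorial : ℕ) : ℝ) ≠ 0 := by exact_mod_cast Nat.factorial_ne_zero _
  have h2 : ((n : ℝ) + 2) ≠ 0 := by positivity
  push_cast
  rw [show ((n : ℝ) + 1 + 1) = (n : ℝ) + 2 by ring]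
  field_simp

/-- Evaluation with a fixed first entry. -/
def sl (n : ℕ) (g : G) : Co G (n + 1) →ₗ[ℝ] Co G n where
  toFun f w := f (Fin.cons g w)
  map_add' _ _ := rfl
  map_smul' _ _ := rfl

theorem sl_apply (n : ℕ) (g : G) (f : Co G (n + 1)) (w : Fin (n + 1) → G) :
    sl n g f w = f (Fin.cons g w) := rfl

theorem cons_succ_succAbove {n : ℕ} (g : G) (w : Fin (n + 2) → G) (i : Fin (n + 2)) :
    (fun t => (Fin.cons g w : Fin (n + 3) → G) (i.succ.succAbove t))
      = Fin.cons g (fun t => w (i.succAbove t)) := by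
  funext t
  refine Fin.cases ?_ (fun t => ?_) t
  · simp
  · simp [Fin.succ_succAbove_succ]

theorem cons_zero_succAbove {n : ℕ} (g : G) (w : Fin (n + 1) → G) :
    (fun t => (Fin.cons g w : Fin (n + 2) → G) ((0 : Fin (n + 2)).succAbove t)) = w := by
  funext t
  simp

/-- `(del f)(g, w) = f w - (del (f (g, .))) w`. -/
theorem sl_del (n : ℕ) (g : G) (f : Co G (n + 1)) :
    sl (n + 1) g (del (n + 1) f) = f - del n (sl n g f) := by
  funext w
  rw [sl_apply, del_apply, Fin.sum_univ_succ, Pi.sub_apply, del_apply, cons_zero_succAbove]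
  simp only [cons_succ_succAbove, Fin.val_zero, pow_zero, one_mul, Fin.val_succ, sl_apply]
  rw [sub_eq_add_neg, ← Finset.sum_neg_distrib]
  congr 1
  refine Finset.sum_congr rfl fun i _ => ?_
  rw [pow_succ]
  ring

theorem sl_del_zero (g : G) (f : Co G 0) :
    sl 0 g (del 0 f) = f - fun _ => f (fun _ => g) := by
  funext w
  rw [sl_apply, del_apply, Fin.sum_univ_two, Pi.sub_apply, cons_zero_succAbove]
  simp only [Fin.val_zero, pow_zero, one_mul, Fin.val_one, pow_one]
  have : (fun t => (Fin.cons g w : Fin 2 → G) ((1 : Fin 2).succAbove t)) = fun _ => g := by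
    funext t
    have ht : t = 0 := Subsingleton.elim _ _
    subst ht
    simp
  rw [this]
  ring

theorem del_const (c : ℝ) : del 0 (fun _ : Fin 1 → G => c) = 0 := by
  funext v
  rw [del_apply, Fin.sum_univ_two]
  simp

theorem del_del (n : ℕ) (f : Co G n) : del (n + 1) (del n f) = 0 := by
  induction n with
  | zero =>
    funext v
    rw [← Fin.cons_self_tail v]
    change sl 1 (v 0) (del 1 (del 0 f)) (Fin.tail v) = 0
    rw [sl_del, sl_del_zero, map_sub, del_const]
    simp
  | succ n ih =>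
    funext v
    rw [← Fin.cons_self_tail v]
    change sl (n + 2) (v 0) (del (n + 2) (del (n + 1) f)) (Fin.tail v) = 0
    rw [sl_del, sl_del, map_sub, ih (sl n (v 0) f)]
    simp

/-- The homotopy between the identity and alternation. -/
def hom : (n : ℕ) → Co G (n + 1) → Co G n
  | 0, _ => 0
  | n + 1, f => fun v => sl (n + 1) (v 0) f v - alt (n + 1) (sl (n + 1) (v 0) f) v
      - del n (hom n (sl (n + 1) (v 0) f)) v

theorem hom_add (n : ℕ) : ∀ f g : Co G (n + 1), hom n (f + g) = hom n f + hom n g := by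
  induction n with
  | zero => intro f g; simp [hom]
  | succ n ih =>
    intro f g
    funext v
    simp only [hom, map_add, ih, Pi.add_apply]
    ring

theorem hom_sub (n : ℕ) : ∀ f g : Co G (n + 1), hom n (f - g) = hom n f - hom n g := by
  intro f g
  have h := hom_add n (f - g) g
  rw [sub_add_cancel] at h
  rw [h]
  simp

/-- The homotopy identity. -/
theorem hom_id (n : ℕ) : ∀ f : Co G (n + 1),
    f - alt (n + 1) f = del n (hom n f) + hom (n + 1) (del (n + 1) f) := by
  have h0 : ∀ f : Co G 0, f - alt 0 f = 0 := by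
    intro f
    funext v
    rw [Pi.sub_apply, alt_apply]
    simp
  have key : ∀ n, (∀ f : Co G n, del n f - del n (alt n f) = del n (hom n (del n f))) →
      ∀ f : Co G (n + 1), f - alt (n + 1) f = del n (hom n f) + hom (n + 1) (del (n + 1) f) := by
    intro n ih f
    funext v
    simp only [hom, sl_del, map_sub, hom_sub, Pi.sub_apply, Pi.add_apply]
    have h1 := congrFun (ih (sl n (v 0) f)) v
    rw [Pi.sub_apply] at h1
    rw [alt_del]
    linarith
  induction n with
  | zero =>
    apply key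
    intro f
    have h1 := congrArg (del 0) (h0 f)
    rw [map_sub, map_zero] at h1
    rw [h1]
    simp [hom]
  | succ n ih =>
    apply key
    intro f
    have h1 := congrArg (del (n + 1)) (ih f)
    rw [map_sub, map_add, del_del, zero_add] at h1
    exact h1

theorem hom_zero (n : ℕ) : hom n (0 : Co G (n + 1)) = 0 := by
  have h := hom_sub n (0 : Co G (n + 1)) 0
  rw [sub_self, sub_self] at h
  exact h

/-- Left translation. -/
def tr [Group G] (n : ℕ) (g : G) (f : Co G n) : Co G n := fun v => f (fun i => g * v i)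

theorem sl_tr [Group G] (n : ℕ) (g x : G) (f : Co G (n + 1)) :
    sl n x (tr (n + 1) g f) = tr n g (sl n (g * x) f) := by
  funext w
  change f _ = f _
  congr 1
  funext i
  refine Fin.cases ?_ (fun i => ?_) i
  · simp
  · simp

theorem hom_tr [Group G] (n : ℕ) (g : G) : ∀ f : Co G (n + 1),
    hom n (tr (n + 1) g f) = tr n g (hom n f) := by
  induction n with
  | zero => intro f; rfl
  | succ n ih =>
    intro f
    funext v
    simp only [hom, sl_tr, ih]
    rfl

/-- Alternation gives alternating cochains. -/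
theorem alt_perm (n : ℕ) (f : Co G n) (s : Perm (Fin (n + 1))) (v : Fin (n + 1) → G) :
    alt n f (fun i => v (s i)) = ((Perm.sign s : ℤ) : ℝ) * alt n f v := by
  rw [alt_apply, alt_apply]
  conv_rhs => rw [← Equiv.sum_comp (Equiv.mulLeft s)]
  rw [mul_left_comm]
  congr 1
  rw [Finset.mul_sum]
  refine Finset.sum_congr rfl fun t _ => ?_
  simp only [Equiv.coe_mulLeft, Perm.sign_mul, Perm.mul_apply]
  push_cast
  have h : ((Perm.sign s : ℤ) : ℝ) * ((Perm.sign s : ℤ) : ℝ) = 1 := by
    rcases Int.units_eq_one_or (Perm.sign s) with h | h <;> simp [h]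
  linear_combination (-(((Perm.sign t : ℤ) : ℝ) * f (fun i => v (s (t i))))) * h

theorem alt_bdd (n : ℕ) (f : Co G n) (hf : ∀ v, |f v| ≤ 1) (v : Fin (n + 1) → G) :
    |alt n f v| ≤ 1 := by
  rw [alt_apply, abs_mul, abs_inv, Nat.abs_cast]
  have hfac : (0 : ℝ) < (((n + 1).factorial : ℕ) : ℝ) := by exact_mod_cast Nat.factorial_pos _
  rw [inv_mul_le_iff₀ hfac, mul_one]
  refine (Finset.abs_sum_le_sum_abs _ _).trans ?_
  have h : ∀ s : Perm (Fin (n + 1)),
      |((Perm.sign s : ℤ) : ℝ) * f (fun t => v (s t))| ≤ 1 := by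
    intro s
    rw [abs_mul]
    have h1 : |((Perm.sign s : ℤ) : ℝ)| = 1 := by
      rcases Int.units_eq_one_or (Perm.sign s) with h | h <;> simp [h]
    rw [h1, one_mul]
    exact hf _
  refine (Finset.sum_le_sum fun s _ => h s).trans ?_
  rw [Finset.sum_const, Finset.card_univ, Fintype.card_perm, Fintype.card_fin]
  simp

end AltCoch

open AltCoch in
/-- I13. -/
theorem claimAlt_proof : claimAlt := by
  intro G _ m b hb hinv hcoc
  have hdel : del (m + 1) b = 0 := by
    funext v
    exact hcoc v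
  have htr : ∀ g : G, tr (m + 1) g b = b := fun g => funext fun v => hinv g v
  refine ⟨alt (m + 1) b, hom m b, ⟨zero_le_one, alt_bdd (m + 1) b hb.2⟩, ?_, ?_, ?_, ?_, ?_⟩
  · intro g v
    conv_rhs => rw [← htr g]
    rfl
  · intro g v
    conv_rhs => rw [← htr g]
    rw [hom_tr]
    rfl
  · intro v
    have h := congrFun (alt_del (m + 1) b) v
    rw [hdel, map_zero] at h
    exact h.symm
  · intro s v
    exact alt_perm (m + 1) b s v
  · intro v
    have h := congrFun (hom_id m b) v
    rw [hdel, hom_zero, add_zero, Pi.sub_apply, del_apply] at h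
    linarith

end NRF
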