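import Pool.Agent.Work.MP_7f974f_gt.Stmts_I

/-!
# I7g: gluing of homotopies on the boundary of a simplex
Fillability of singular spheres is invariant under homotopies given face by face.
-/

open scoped Topology unitInterval Topology.Homotopy
open Set

noncomputable section

namespace NRF

/-- The standard simplex. -/
abbrev Dl (n : ℕ) := stdSimplex ℝ (Fin (n + 1))

/-- The boundary of the standard `(n+1)`-simplex. -/
abbrev BdS (n : ℕ) := {w : Dl (n + 1) // ∃ i, w i = 0}

theorem isCompact_BdS (n : ℕ) : IsCompact {w : Dl (n + 1) | ∃ i, w i = 0} := by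
  apply IsClosed.isCompact
  have : {w : Dl (n + 1) | ∃ i, w i = 0} = ⋃ i, {w : Dl (n + 1) | w i = 0} := by
    ext w
    simp
  rw [this]
  apply isClosed_iUnion_of_finite
  intro i
  exact isClosed_eq ((continuous_apply i).comp continuous_subtype_val) continuous_const

instance compactBdS (n : ℕ) : CompactSpace (BdS n) :=
  isCompact_iff_compactSpace.1 (isCompact_BdS n)

/-! ### Coordinates of `simpMap` -/

theorem sm_apply {k m : ℕ} (f : Fin (k + 1) → Fin (m + 1)) (x : Dl k) (i : Fin (m + 1)) :
    (simpMap f x) i = ∑ a ∈ Finset.univ.filter (fun a => f a = i), x a := by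
  simp only [simpMap, ContinuousMap.coe_mk, stdSimplex.map_coe]
  rw [FunOnFinite.linearMap_apply_apply]

theorem sm_inj {k m : ℕ} {f : Fin (k + 1) → Fin (m + 1)} (hf : Function.Injective f) (x : Dl k)
    (a : Fin (k + 1)) : (simpMap f x) (f a) = x a := by
  rw [sm_apply]
  have : Finset.univ.filter (fun b => f b = f a) = {a} := by
    ext b
    simp [hf.eq_iff]
  rw [this, Finset.sum_singleton]

theorem sm_zero {k m : ℕ} {f : Fin (k + 1) → Fin (m + 1)} (x : Dl k) {i : Fin (m + 1)}
    (h : ∀ a, f a ≠ i) : (simpMap f x) i = 0 := by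
  rw [sm_apply]
  have : Finset.univ.filter (fun b => f b = i) = ∅ := by
    ext b
    simp [h b]
  rw [this, Finset.sum_empty]

theorem sm_surj {k m : ℕ} {f : Fin (k + 1) → Fin (m + 1)} (hf : Function.Injective f) (w : Dl m)
    (h : ∀ i, (∀ a, f a ≠ i) → w i = 0) : ∃ x : Dl k, simpMap f x = w ∧ ∀ a, x a = w (f a) := by
  have hsum : ∑ a, w (f a) = 1 := by
    rw [← stdSimplex.sum_eq_one w]
    rw [← Finset.sum_image (s := Finset.univ) (g := f) (f := fun i => w i)
      (fun a _ b _ hab => hf hab)]
    apply Finset.sum_subset (Finset.subset_univ _)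
    intro i _ hi
    apply h
    intro a ha
    apply hi
    rw [Finset.mem_image]
    exact ⟨a, Finset.mem_univ _, ha⟩
  let x : Dl k := ⟨fun a => w (f a), fun a => stdSimplex.zero_le w _, hsum⟩
  refine ⟨x, ?_, fun a => rfl⟩
  ext i
  by_cases hi : ∃ a, f a = i
  · obtain ⟨a, rfl⟩ := hi
    exact sm_inj hf x a
  · push Not at hi
    rw [sm_zero x hi, h i hi]

theorem sm_injective {k m : ℕ} {f : Fin (k + 1) → Fin (m + 1)} (hf : Function.Injective f) :
    Function.Injective (simpMap f) := by
  intro x y h
  ext a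
  rw [← sm_inj hf x a, ← sm_inj hf y a, h]

/-- A point with vanishing coordinate `j` is on the face `j`. -/
theorem face_surj {n : ℕ} (j : Fin (n + 2)) (w : Dl (n + 1)) (h : w j = 0) :
    ∃ y : Dl n, simpMap j.succAbove y = w ∧ ∀ a, y a = w (j.succAbove a) := by
  apply sm_surj Fin.succAbove_right_injective
  intro i hi
  by_cases hij : i = j
  · rw [hij]; exact h
  · obtain ⟨a, ha⟩ := Fin.exists_succAbove_eq hij
    exact absurd ha (hi a)

theorem face_self {n : ℕ} (j : Fin (n + 2)) (y : Dl n) : (simpMap j.succAbove y) j = 0 :=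
  sm_zero y (fun a => Fin.succAbove_ne j a)

/-- The face as a map to the boundary. -/
def faceB {n : ℕ} (j : Fin (n + 2)) : C(Dl n, BdS n) :=
  ⟨fun y => ⟨simpMap j.succAbove y, j, face_self j y⟩, by
    apply Continuous.subtype_mk
    exact (simpMap j.succAbove).continuous⟩

theorem faceB_surj {n : ℕ} (b : BdS n) : ∃ j y, faceB j y = b := by
  obtain ⟨w, j, hj⟩ := b
  obtain ⟨y, hy, -⟩ := face_surj j w hj
  exact ⟨j, y, Subtype.ext hy⟩

/-! ### Gluing -/

theorem glue {n : ℕ} {Y : Type} [TopologicalSpace Y] {T : Type} [TopologicalSpace T]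
    [CompactSpace T] [T2Space T] (Ψ : Fin (n + 2) → C(T × Dl n, Y))
    (compat : ∀ j j' y y', simpMap j.succAbove y = simpMap j'.succAbove y' →
      ∀ t, Ψ j (t, y) = Ψ j' (t, y')) :
    ∃ F : C(T × BdS n, Y), ∀ j t y, F (t, faceB j y) = Ψ j (t, y) := by
  let P : C(Fin (n + 2) × (T × Dl n), T × BdS n) :=
    ⟨fun p => (p.2.1, faceB p.1 p.2.2), by
      rw [continuous_prod_of_discrete_left]
      intro j
      exact continuous_fst.prodMk ((faceB j).continuous.comp continuous_snd)⟩
  let G : C(Fin (n + 2) × (T × Dl n), Y) :=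
    ⟨fun p => Ψ p.1 p.2, by
      rw [continuous_prod_of_discrete_left]
      intro j
      exact (Ψ j).continuous⟩
  have hq : Topology.IsQuotientMap P := by
    apply IsClosedMap.isQuotientMap P.continuous.isClosedMap P.continuous
    rintro ⟨t, b⟩
    obtain ⟨j, y, hy⟩ := faceB_surj b
    exact ⟨(j, (t, y)), by simp [P, hy]⟩
  have hfac : Function.FactorsThrough G P := by
    rintro ⟨j, t, y⟩ ⟨j', t', y'⟩ h
    have h1 : t = t' := congrArg Prod.fst h
    have h2 : faceB j y = faceB j' y' := congrArg Prod.snd h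
    subst h1
    exact compat j j' y y' (congrArg Subtype.val h2) t
  refine ⟨hq.lift G hfac, fun j t y => ?_⟩
  have := hq.lift_comp G hfac
  have h3 := congrArg (fun f => f (j, (t, y))) (congrArg DFunLike.coe this)
  exact h3

/-! ### Convex combinations -/

/-- `(1 - t) x + t y`. -/
def cvx {m : ℕ} : C(I × Dl m × Dl m, Dl m) :=
  ⟨fun p => ⟨fun i => (1 - (p.1 : ℝ)) * p.2.1 i + (p.1 : ℝ) * p.2.2 i, by
    constructor
    · intro i
      have h1 := p.1.2.1
      have h2 := p.1.2.2
      have h3 := stdSimplex.zero_le p.2.1 i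
      have h4 := stdSimplex.zero_le p.2.2 i
      have h5 : 0 ≤ 1 - (p.1 : ℝ) := by linarith
      positivity
    · rw [Finset.sum_add_distrib, ← Finset.mul_sum, ← Finset.mul_sum,
        stdSimplex.sum_eq_one, stdSimplex.sum_eq_one]
      ring⟩, by
    apply Continuous.subtype_mk
    apply continuous_pi
    intro i
    have h1 : Continuous fun p : I × Dl m × Dl m => (p.2.1 : Dl m) i :=
      (continuous_apply i).comp (continuous_subtype_val.comp (continuous_fst.comp continuous_snd))
    have h2 : Continuous fun p : I × Dl m × Dl m => (p.2.2 : Dl m) i :=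
      (continuous_apply i).comp (continuous_subtype_val.comp (continuous_snd.comp continuous_snd))
    have h3 : Continuous fun p : I × Dl m × Dl m => (p.1 : ℝ) :=
      continuous_subtype_val.comp continuous_fst
    exact ((continuous_const.sub h3).mul h1).add (h3.mul h2)⟩

theorem cvx_apply {m : ℕ} (t : I) (x y : Dl m) (i : Fin (m + 1)) :
    (cvx (t, x, y)) i = (1 - (t : ℝ)) * x i + (t : ℝ) * y i := rfl

theorem cvx_zero {m : ℕ} (x y : Dl m) : cvx (0, x, y) = x := by
  ext i
  change (cvx (0, x, y)) i = x i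
  rw [cvx_apply]
  simp

theorem cvx_one {m : ℕ} (x y : Dl m) : cvx (1, x, y) = y := by
  ext i
  change (cvx (1, x, y)) i = y i
  rw [cvx_apply]
  simp

/-! ### Fillability and null homotopies -/

theorem fills_iff {n : ℕ} {Y : Type} [TopologicalSpace Y] (S : Sphere (sing Y) n)
    (r : C(BdS n, Y)) (hr : ∀ j y, r (faceB j y) = (show Simp n Y from S.x j) y) :
    (∃ w, Fills w S) ↔ r.Nullhomotopic := by
  constructor
  · rintro ⟨w, hw⟩
    let w' : C(Dl (n + 1), Y) := w
    have hw' : ∀ b : BdS n, r b = w' b.1 := by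
      intro b
      obtain ⟨j, y, hy⟩ := faceB_surj b
      rw [← hy, hr j y]
      have h1 : (show Simp n Y from S.x j) = w'.comp (simpMap j.succAbove) := (hw j).symm
      rw [h1]
      rfl
    refine ⟨w' (stdSimplex.vertex 0), ⟨⟨⟨fun p => w' (cvx (p.1, p.2.1, stdSimplex.vertex 0)), ?_⟩,
      ?_, ?_⟩⟩⟩
    · apply w'.continuous.comp
      apply cvx.continuous.comp
      exact continuous_fst.prodMk ((continuous_subtype_val.comp continuous_snd).prodMk
        continuous_const)
    · intro b
      simp only
      rw [cvx_zero, hw' b]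
    · intro b
      simp only
      rw [cvx_one]
      rfl
  · rintro ⟨y0, ⟨H⟩⟩
    let c : Dl (n + 1) := stdSimplex.barycenter
    have hc : ∀ i, c i = ((n : ℝ) + 2)⁻¹ := by
      intro i
      have : c i = (Fintype.card (Fin (n + 1 + 1)) : ℝ)⁻¹ := stdSimplex.barycenter_apply i
      rw [this, Fintype.card_fin]
      push_cast
      congr 1
      ring
    have hN : (0 : ℝ) < (n : ℝ) + 2 := by positivity
    let κ : C(I × BdS n, Dl (n + 1)) :=
      ⟨fun p => cvx (p.1, p.2.1, c), by
        apply cvx.continuous.comp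
        exact continuous_fst.prodMk ((continuous_subtype_val.comp continuous_snd).prodMk
          continuous_const)⟩
    have hκ : ∀ (t : I) (b : BdS n) i, (κ (t, b)) i = (1 - (t : ℝ)) * b.1 i +
        (t : ℝ) * ((n : ℝ) + 2)⁻¹ := by
      intro t b i
      rw [← hc i]
      rfl
    have hle : ∀ (t t' : I) (b b' : BdS n), κ (t, b) = κ (t', b') → (t : ℝ) ≤ t' := by
      rintro t t' b ⟨b', i, hi⟩ h
      have h1 := hκ t b i
      have h2 := hκ t' ⟨b', i, hi⟩ i
      rw [h] at h1
      rw [h1] at h2
      simp only [hi, mul_zero, zero_add] at h2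
      have h3 : 0 ≤ (1 - (t : ℝ)) * b.1 i :=
        mul_nonneg (by linarith [t.2.2]) (stdSimplex.zero_le _ _)
      have h4 : (t : ℝ) * ((n : ℝ) + 2)⁻¹ ≤ (t' : ℝ) * ((n : ℝ) + 2)⁻¹ := by linarith
      exact le_of_mul_le_mul_right h4 (inv_pos.2 hN)
    have hfac : Function.FactorsThrough H.toContinuousMap κ := by
      rintro ⟨t, b⟩ ⟨t', b'⟩ h
      have ht : t = t' := Subtype.ext (le_antisymm (hle _ _ _ _ h) (hle _ _ _ _ h.symm))
      subst ht
      by_cases h1 : (t : ℝ) = 1
      · have : t = 1 := Subtype.ext h1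
        rw [this]
        change H (1, b) = H (1, b')
        rw [H.apply_one, H.apply_one]
        rfl
      · have : b = b' := by
          apply Subtype.ext
          ext i
          change b.1 i = b'.1 i
          have h2 := hκ t b i
          rw [h, hκ t b' i] at h2
          have h3 : (1 - (t : ℝ)) ≠ 0 := fun h4 => h1 (by linarith)
          have h4 : (1 - (t : ℝ)) * b'.1 i = (1 - (t : ℝ)) * b.1 i := by linarith
          exact (mul_left_cancel₀ h3 h4).symm
        rw [this]
    have hsurj : Function.Surjective κ := by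
      intro x
      obtain ⟨i0, -, hi0⟩ := Finset.exists_min_image Finset.univ (fun i => x i)
        ⟨0, Finset.mem_univ _⟩
      have hmin : ∀ i, x i0 ≤ x i := fun i => hi0 i (Finset.mem_univ _)
      have hsum := stdSimplex.sum_eq_one x
      have hle1 : ((n : ℝ) + 2) * x i0 ≤ 1 := by
        rw [← hsum]
        have : ∑ i : Fin (n + 1 + 1), x i0 ≤ ∑ i, x i := Finset.sum_le_sum fun i _ => hmin i
        rw [Finset.sum_const, Finset.card_univ, Fintype.card_fin, nsmul_eq_mul] at this
        push_cast at this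
        linarith
      have hx0 := stdSimplex.zero_le x i0
      by_cases heq : ((n : ℝ) + 2) * x i0 = 1
      · have hall : ∀ i, x i = ((n : ℝ) + 2)⁻¹ := by
          have h1 : ∀ i ∈ (Finset.univ : Finset (Fin (n + 1 + 1))), x i0 = x i := by
            rw [← Finset.sum_eq_sum_iff_of_le (fun i _ => hmin i)]
            rw [hsum, Finset.sum_const, Finset.card_univ, Fintype.card_fin, nsmul_eq_mul]
            push_cast
            linarith
          intro i
          rw [← h1 i (Finset.mem_univ _)]
          field_simp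
          linarith
        have hb0 : (stdSimplex.vertex (S := ℝ) (0 : Fin (n + 1 + 1))) 1 = 0 := by simp
        refine ⟨(1, ⟨stdSimplex.vertex 0, 1, hb0⟩), ?_⟩
        ext i
        change (κ _) i = x i
        rw [hκ, hall i]
        simp
      · have hlt : ((n : ℝ) + 2) * x i0 < 1 := lt_of_le_of_ne hle1 heq
        have hpos : 0 < 1 - ((n : ℝ) + 2) * x i0 := by linarith
        let t : I := ⟨((n : ℝ) + 2) * x i0, by positivity, hle1⟩
        let b : Dl (n + 1) := ⟨fun i => (x i - x i0) / (1 - ((n : ℝ) + 2) * x i0), by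
          constructor
          · intro i
            exact div_nonneg (by linarith [hmin i]) hpos.le
          · rw [← Finset.sum_div, Finset.sum_sub_distrib, hsum, Finset.sum_const,
              Finset.card_univ, Fintype.card_fin, nsmul_eq_mul]
            push_cast
            rw [div_eq_one_iff_eq hpos.ne']
            ring⟩
        have hb : b i0 = 0 := by
          change (x i0 - x i0) / _ = 0
          simp
        refine ⟨(t, ⟨b, i0, hb⟩), ?_⟩
        ext i
        change (κ _) i = x i
        rw [hκ]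
        change (1 - ((n : ℝ) + 2) * x i0) * ((x i - x i0) / (1 - ((n : ℝ) + 2) * x i0)) +
          ((n : ℝ) + 2) * x i0 * ((n : ℝ) + 2)⁻¹ = x i
        field_simp
        ring
    have hq : Topology.IsQuotientMap κ :=
      IsClosedMap.isQuotientMap κ.continuous.isClosedMap κ.continuous hsurj
    let w : C(Dl (n + 1), Y) := hq.lift H.toContinuousMap hfac
    have hw : ∀ t b, w (κ (t, b)) = H (t, b) := by
      intro t b
      have := hq.lift_comp H.toContinuousMap hfac
      exact congrArg (fun f => f (t, b)) (congrArg DFunLike.coe this)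
    refine ⟨w, fun j => ?_⟩
    change w.comp (simpMap j.succAbove) = S.x j
    apply ContinuousMap.ext
    intro y
    rw [← hr j y]
    change w (simpMap j.succAbove y) = _
    have h1 : simpMap j.succAbove y = κ (0, faceB j y) := by
      change _ = cvx (0, simpMap j.succAbove y, c)
      rw [cvx_zero]
    rw [h1, hw, H.apply_zero]

/-- Homotopy invariance of fillability. -/
theorem fills_homotopy {n : ℕ} {Y : Type} [TopologicalSpace Y] (S S' : Sphere (sing Y) n)
    (Ψ : Fin (n + 2) → C(I × Dl n, Y))
    (compat : ∀ j j' y y', simpMap j.succAbove y = simpMap j'.succAbove y' →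
      ∀ t, Ψ j (t, y) = Ψ j' (t, y'))
    (h0 : ∀ j y, Ψ j (0, y) = (show Simp n Y from S.x j) y)
    (h1 : ∀ j y, Ψ j (1, y) = (show Simp n Y from S'.x j) y) :
    (∃ w, Fills w S) ↔ ∃ w, Fills w S' := by
  obtain ⟨F, hF⟩ := glue Ψ compat
  let r0 : C(BdS n, Y) := ⟨fun b => F (0, b), F.continuous.comp (continuous_const.prodMk continuous_id)⟩
  let r1 : C(BdS n, Y) := ⟨fun b => F (1, b), F.continuous.comp (continuous_const.prodMk continuous_id)⟩
  have hh : r0.Homotopic r1 := ⟨⟨F, fun b => rfl, fun b => rfl⟩⟩
  rw [fills_iff S r0 (fun j y => by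
      change F (0, faceB j y) = _
      rw [hF, h0]), fills_iff S' r1 (fun j y => by
      change F (1, faceB j y) = _
      rw [hF, h1])]
  constructor
  · rintro ⟨y, hy⟩
    exact ⟨y, hh.symm.trans hy⟩
  · rintro ⟨y, hy⟩
    exact ⟨y, hh.trans hy⟩

end NRF
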