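import Pool.Agent.Work.MP_7f974f_gt.Stmts_K
import Pool.Agent.Work.MP_7f974f_gt.Bd.B02
import Pool.Agent.Work.MP_7f974f_gt.C7b

/-!
# K2: the parametrix with a pole
-/

open scoped ContDiff Topology RealInnerProductSpace
open MeasureTheory Set Filter

noncomputable section

namespace NRF

namespace K2

section euclid

variable {V : Type} [NormedAddCommGroup V] [InnerProductSpace ℝ V]

/-- The building block. -/
def Et (M : ℕ) (H : KP → (V →L[ℝ] V)) (θ : E4 → ℝ) (v : V) (z : E4) (t : ℝ) (x : E4) : V :=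
  Real.sqrt t ^ M • H (0, Real.sqrt t, z, (Real.sqrt t)⁻¹ • (x - z)) (θ z • v)

/-- Its derivatives. -/
def Pt (M j : ℕ) (H : KP → (V →L[ℝ] V)) (θ : E4 → ℝ) (v : V) (z : E4) (t : ℝ) (x : E4) :
    E4 [×j]→L[ℝ] V :=
  C7b.Psi H M j (fun _ y => θ y • v) t x (0, z)

theorem Et_eq (M : ℕ) (H : KP → (V →L[ℝ] V)) (θ : E4 → ℝ) (v : V) (z : E4) (t : ℝ) :
    Et M H θ v z t = C7b.Fi H M (fun _ y => θ y • v) t (0, z) := by
  funext x
  simp only [Et, C7b.Fi, sub_zero]

theorem iter_Et {H : KP → (V →L[ℝ] V)} (hH : RD H) {M j : ℕ} (hj : j < M) (θ : E4 → ℝ) (v : V)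
    (z : E4) (t : ℝ) (x : E4) :
    iteratedFDeriv ℝ j (Et M H θ v z t) x = Pt M j H θ v z t x := by
  rw [Et_eq]
  exact C7b.iter_Fi hH M j hj _ t x (0, z)

theorem contDiff_Et {H : KP → (V →L[ℝ] V)} (hH : RD H) (M : ℕ) (θ : E4 → ℝ) (v : V)
    (z : E4) (t : ℝ) : ContDiff ℝ ∞ (Et M H θ v z t) := by
  rw [Et_eq]
  exact C7b.contDiff_Fi hH M _ t (0, z)

theorem cont_Pt {H : KP → (V →L[ℝ] V)} (hH : RD H) {M j : ℕ} (hj : j < M) {θ : E4 → ℝ}
    (hθ : Continuous θ) (v : V) :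
    Continuous fun q : E4 × ℝ × E4 => Pt M j H θ v q.1 q.2.1 q.2.2 := by
  have h1 := C7b.continuous_Psi hH M j hj (w := fun _ y => θ y • v) (by fun_prop)
  exact h1.comp (f := fun q : E4 × ℝ × E4 => ((q.2.1, q.2.2), ((0 : ℝ), q.1))) (by fun_prop)

theorem Et_eq_Pt (M : ℕ) (H : KP → (V →L[ℝ] V)) (θ : E4 → ℝ) (v : V) (z : E4) (t : ℝ) (x : E4) :
    Et M H θ v z t x = Pt M 0 H θ v z t x 0 := by
  rw [Et_eq]
  exact C7b.Fi_eq_Psi H M _ t (0, z) x

theorem cont_Et {H : KP → (V →L[ℝ] V)} (hH : RD H) {M : ℕ} (hM : 0 < M) {θ : E4 → ℝ}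
    (hθ : Continuous θ) (v : V) :
    Continuous fun q : E4 × ℝ × E4 => Et M H θ v q.1 q.2.1 q.2.2 := by
  simp only [Et_eq_Pt]
  exact (ContinuousMultilinearMap.apply ℝ (fun _ : Fin 0 => E4) V 0).continuous.comp
    (cont_Pt hH hM hθ v)

theorem Et_zero_z {H : KP → (V →L[ℝ] V)} (hS : KSupp H) (M : ℕ) (θ : E4 → ℝ) (v : V)
    {z : E4} (hz : 1 ≤ ‖z‖) (t : ℝ) (x : E4) : Et M H θ v z t x = 0 := by
  rw [Et, hS.1 (0, Real.sqrt t, z, _) hz]
  simp

theorem Et_zero_x {H : KP → (V →L[ℝ] V)} (hS : KSupp H) {M : ℕ} (hM : 0 < M) (θ : E4 → ℝ) (v : V)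
    (z : E4) (t : ℝ) {x : E4} (hx : 2 ≤ ‖x‖) : Et M H θ v z t x = 0 := by
  rcases eq_or_ne (Real.sqrt t) 0 with h | h
  · rw [Et, h, zero_pow (by omega), zero_smul]
  · rw [Et, hS.2 (0, Real.sqrt t, z, (Real.sqrt t)⁻¹ • (x - z))]
    · simp
    · simpa [smul_smul, mul_inv_cancel₀ h] using hx

theorem Et_add (M : ℕ) (H : KP → (V →L[ℝ] V)) (θ : E4 → ℝ) (v w : V) (z : E4) (t : ℝ) (x : E4) :
    Et M H θ (v + w) z t x = Et M H θ v z t x + Et M H θ w z t x := by
  simp only [Et, smul_add, map_add]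

theorem Et_smul (M : ℕ) (H : KP → (V →L[ℝ] V)) (θ : E4 → ℝ) (c : ℝ) (v : V) (z : E4) (t : ℝ)
    (x : E4) : Et M H θ (c • v) z t x = c • Et M H θ v z t x := by
  simp only [Et, smul_comm (θ z) c v, map_smul]
  rw [smul_comm]

theorem exists_theta_bound {θ : E4 → ℝ} (hθ : Continuous θ) :
    ∃ Θ : ℝ, 0 ≤ Θ ∧ ∀ z : E4, ‖z‖ ≤ 1 → |θ z| ≤ Θ := by
  obtain ⟨C, hC⟩ := (isCompact_closedBall (0 : E4) 1).exists_bound_of_continuousOn hθ.continuousOn
  refine ⟨|C|, abs_nonneg _, fun z hz => ?_⟩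
  have := hC z (mem_closedBall_zero_iff.2 hz)
  rw [Real.norm_eq_abs] at this
  exact this.trans (le_abs_self C)

/-- Bounds. -/
theorem norm_Pt_le {H : KP → (V →L[ℝ] V)} (hH : RD H) (M j : ℕ) {θ : E4 → ℝ}
    (hθ : Continuous θ) (T : ℝ) :
    ∃ D : ℝ, 0 ≤ D ∧ ∀ (v : V) (z : E4) (t : ℝ) (x : E4), t ≤ T → ‖z‖ ≤ 1 →
      ‖Pt M j H θ v z t x‖ ≤ D * ‖v‖ * Real.sqrt t ^ (M - j) := by
  obtain ⟨C, hC⟩ := hH.2 j 0 (max 1 (Real.sqrt T))
  obtain ⟨Θ, hΘ0, hΘ⟩ := exists_theta_bound hθ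
  refine ⟨|C| * Θ, by positivity, fun v z t x ht hz => ?_⟩
  rw [Pt, C7b.Psi, norm_smul, norm_pow, Real.norm_of_nonneg (Real.sqrt_nonneg _)]
  simp only [sub_zero]
  have hs : Real.sqrt t ≤ Real.sqrt T := Real.sqrt_le_sqrt ht
  have h5 := hC 0 (Real.sqrt t) z ((Real.sqrt t)⁻¹ • (x - z))
    (by rw [abs_zero]; positivity)
    (by rw [abs_of_nonneg (Real.sqrt_nonneg _)]; exact hs.trans (le_max_right _ _))
    (hz.trans (le_max_left _ _))
  rw [pow_zero, mul_one] at h5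
  have h6 := h5.trans (le_abs_self C)
  calc _ ≤ Real.sqrt t ^ (M - j) * (|C| * (Θ * ‖v‖)) := by
        gcongr
        refine (C7b.norm_Bz_le _ _ _).trans ?_
        gcongr
        rw [norm_smul, Real.norm_eq_abs]
        gcongr
        exact hΘ z hz
    _ = _ := by ring

theorem norm_Et_le {H : KP → (V →L[ℝ] V)} (hH : RD H) (M : ℕ) {θ : E4 → ℝ}
    (hθ : Continuous θ) (T : ℝ) :
    ∃ D : ℝ, 0 ≤ D ∧ ∀ (v : V) (z : E4) (t : ℝ) (x : E4), t ≤ T → ‖z‖ ≤ 1 →
      ‖Et M H θ v z t x‖ ≤ D * ‖v‖ * Real.sqrt t ^ M := by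
  obtain ⟨D, hD0, hD⟩ := norm_Pt_le hH M 0 hθ T
  refine ⟨D, hD0, fun v z t x ht hz => ?_⟩
  rw [Et_eq_Pt]
  refine ((Pt M 0 H θ v z t x).le_opNorm 0).trans ?_
  simpa using hD v z t x ht hz

theorem nice_Et {H : KP → (V →L[ℝ] V)} (hH : RD H) {M k : ℕ} (hk : k < M) {θ : E4 → ℝ}
    (hθ : Continuous θ) (T : ℝ) :
    ∃ D : ℝ, 0 ≤ D ∧ ∀ (v : V) (z : E4), ‖z‖ ≤ 1 → NiceE k T (D * ‖v‖) (Et M H θ v z) := by
  have hD : ∀ j : ℕ, ∃ D : ℝ, 0 ≤ D ∧ ∀ (v : V) (z : E4) (t : ℝ) (x : E4), t ≤ T → ‖z‖ ≤ 1 →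
      ‖Pt M j H θ v z t x‖ ≤ D * ‖v‖ * Real.sqrt t ^ (M - j) := fun j => norm_Pt_le hH M j hθ T
  choose D hD0 hD using hD
  refine ⟨∑ j ∈ Finset.range (k + 1), D j * Real.sqrt T ^ (M - j),
    Finset.sum_nonneg fun j _ => mul_nonneg (hD0 j) (by positivity), fun v z hz => ?_⟩
  refine ⟨fun t _ => (contDiff_Et hH M θ v z t).of_le (by exact_mod_cast le_top),
    fun j hj => ?_, fun j hj t ht x => ?_⟩
  · have h1 : Continuous fun p : ℝ × E4 => Pt M j H θ v z p.1 p.2 :=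
      (cont_Pt hH (by omega : j < M) hθ v).comp (f := fun p : ℝ × E4 => (z, p.1, p.2))
        (by fun_prop)
    refine h1.continuousOn.congr fun p _ => ?_
    exact iter_Et hH (by omega) θ v z p.1 p.2
  · rw [iter_Et hH (by omega)]
    refine (hD j v z t x ht.2 hz).trans ?_
    have h1 : D j * Real.sqrt T ^ (M - j) ≤
        ∑ j ∈ Finset.range (k + 1), D j * Real.sqrt T ^ (M - j) :=
      Finset.single_le_sum (f := fun j => D j * Real.sqrt T ^ (M - j))
        (fun i _ => mul_nonneg (hD0 i) (by positivity)) (Finset.mem_range.2 (by omega))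
    have h2 : Real.sqrt t ^ (M - j) ≤ Real.sqrt T ^ (M - j) := by
      gcongr
      exact ht.2
    calc D j * ‖v‖ * Real.sqrt t ^ (M - j) ≤ D j * ‖v‖ * Real.sqrt T ^ (M - j) := by
          have := mul_nonneg (hD0 j) (norm_nonneg v)
          gcongr
      _ = D j * Real.sqrt T ^ (M - j) * ‖v‖ := by ring
      _ ≤ _ := by gcongr

/-- Continuity in the pole. -/
theorem nice_Et_sub {H : KP → (V →L[ℝ] V)} (hH : RD H) (hS : KSupp H) {M k : ℕ} (hk : k < M)
    {θ : E4 → ℝ} (hθ : Continuous θ) (T : ℝ) (v : V) (z0 : E4) {ε : ℝ} (hε : 0 < ε) :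
    ∀ᶠ z in 𝓝 z0, NiceE k T ε fun t x => Et M H θ v z t x - Et M H θ v z0 t x := by
  have hcont : ∀ z, ∀ j ≤ k, Continuous fun p : ℝ × E4 => Pt M j H θ v z p.1 p.2 := by
    intro z j hj
    exact (cont_Pt hH (by omega : j < M) hθ v).comp (f := fun p : ℝ × E4 => (z, p.1, p.2))
        (by fun_prop)
  have hzero : ∀ z t x, ∀ j ≤ k, 2 < ‖x‖ → Pt M j H θ v z t x = 0 := by
    intro z t x j hj hx
    rw [← iter_Et hH (by omega) θ v z t x]
    have h1 : Et M H θ v z t =ᶠ[𝓝 x] fun _ => 0 := by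
      have h2 : ∀ᶠ x' in 𝓝 x, 2 < ‖x'‖ := continuous_norm.continuousAt.eventually
        (lt_mem_nhds hx)
      filter_upwards [h2] with x' hx'
      exact Et_zero_x hS (by omega) θ v z t hx'.le
    rw [(h1.iteratedFDeriv ℝ j).eq_of_nhds]
    exact congrFun (iteratedFDeriv_fun_zero (𝕜 := ℝ) (E := E4) (F := V) (n := j)) x
  have hev : ∀ᶠ z in 𝓝 z0, ∀ j ∈ Finset.range (k + 1), ∀ p ∈ Icc 0 T ×ˢ Metric.closedBall (0 : E4) 2,
      ‖Pt M j H θ v z p.1 p.2 - Pt M j H θ v z0 p.1 p.2‖ < ε := by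
    rw [Finset.eventually_all]
    intro j hj
    have hj' : j < M := by
      have := Finset.mem_range.1 hj
      omega
    refine IsCompact.eventually_forall_of_forall_eventually
      (isCompact_Icc.prod (isCompact_closedBall _ _)) fun p _ => ?_
    have h1 : Continuous fun q : E4 × ℝ × E4 =>
        ‖Pt M j H θ v q.1 q.2.1 q.2.2 - Pt M j H θ v z0 q.2.1 q.2.2‖ := by
      have h2 := cont_Pt hH hj' hθ v
      have h3 : Continuous fun q : E4 × ℝ × E4 => Pt M j H θ v z0 q.2.1 q.2.2 :=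
        h2.comp (f := fun q : E4 × ℝ × E4 => (z0, q.2.1, q.2.2)) (by fun_prop)
      exact (h2.sub h3).norm
    have h4 := h1.continuousAt (x := (z0, p))
    refine h4.eventually (gt_mem_nhds ?_)
    simpa using hε
  filter_upwards [hev] with z hz
  have e : ∀ j ≤ k, ∀ t x, iteratedFDeriv ℝ j (fun x => Et M H θ v z t x - Et M H θ v z0 t x) x =
      Pt M j H θ v z t x - Pt M j H θ v z0 t x := by
    intro j hj t x
    rw [← iter_Et hH (by omega : j < M) θ v z t x, ← iter_Et hH (by omega : j < M) θ v z0 t x]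
    exact fun_iteratedFDeriv_sub_apply
      ((contDiff_Et hH M θ v z t).of_le (by exact_mod_cast le_top)).contDiffAt
      ((contDiff_Et hH M θ v z0 t).of_le (by exact_mod_cast le_top)).contDiffAt
  refine ⟨fun t _ => ((contDiff_Et hH M θ v z t).sub (contDiff_Et hH M θ v z0 t)).of_le
    (by exact_mod_cast le_top), fun j hj => ?_, fun j hj t ht x => ?_⟩
  · refine ((hcont z j hj).sub (hcont z0 j hj)).continuousOn.congr fun p _ => ?_
    exact e j hj p.1 p.2
  · rw [e j hj t x]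
    rcases le_or_gt ‖x‖ 2 with h | h
    · exact (hz j (Finset.mem_range.2 (by omega)) (t, x)
        ⟨ht, mem_closedBall_zero_iff.2 h⟩).le
    · rw [hzero z t x j hj h, hzero z0 t x j hj h, sub_zero, norm_zero]
      exact hε.le

end euclid

section patch

variable {X : Type} [TopologicalSpace X] {V : Type} [NormedAddCommGroup V] [InnerProductSpace ℝ V]

theorem finite_I [CompactSpace X] (g : Geom X V) : Finite g.I := by
  have h := g.locfin.finite_nonempty_of_compact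
  have h2 : {i | ((g.psi i).symm '' Metric.closedBall 0 2).Nonempty} = univ := by
    ext i
    simp only [mem_ofPred_eq, mem_univ, iff_true]
    exact ⟨_, mem_image_of_mem _ (Metric.mem_closedBall_self (by norm_num))⟩
  rw [h2] at h
  exact finite_univ_iff.1 h

/-- The closed set which carries the function of the chart `i`. -/
def Kc (g : Geom X V) (i : g.I) : Set X := (g.psi i).symm '' Metric.closedBall 0 2

theorem closedBall_sub_target (g : Geom X V) (i : g.I) :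
    Metric.closedBall (0 : E4) 2 ⊆ (g.psi i).target :=
  (Metric.closedBall_subset_closedBall (by norm_num)).trans (g.target i)

theorem isClosed_Kc [T2Space X] (g : Geom X V) (i : g.I) : IsClosed (Kc g i) :=
  ((isCompact_closedBall (0 : E4) 2).image_of_continuousOn
    ((g.psi i).continuousOn_symm.mono (closedBall_sub_target g i))).isClosed

theorem Kc_sub_source (g : Geom X V) (i : g.I) : Kc g i ⊆ (g.psi i).source := by
  rintro _ ⟨z, hz, rfl⟩
  exact (g.psi i).map_target (closedBall_sub_target g i hz)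

theorem notMem_Kc (g : Geom X V) {i : g.I} {x : X} (hx : x ∈ (g.psi i).source)
    (h : x ∉ Kc g i) : 2 < ‖g.psi i x‖ := by
  by_contra hcon
  exact h ⟨g.psi i x, mem_closedBall_zero_iff.2 (not_lt.1 hcon), (g.psi i).left_inv hx⟩

variable (g : Geom X V) (M : ℕ) (Hf : g.I → KP → (V →L[ℝ] V)) (θ : g.I → E4 → ℝ)

/-- The function in the chart `i`, with pole `y`. -/
def U (i : g.I) (y : X) (v : V) (t : ℝ) (x : E4) : V :=
  (g.psi i).source.indicator (fun y => Et M (Hf i) (θ i) v (g.psi i y) t x) y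

/-- The term of the chart `i`. -/
def term (i : g.I) (y : X) (v : V) (t : ℝ) (x : X) : V :=
  (g.psi i).source.indicator (fun x => U g M Hf θ i y v t (g.psi i x)) x

/-- The patched function. -/
def S (y : X) (v : V) (t : ℝ) (x : X) : V := ∑ᶠ i, term g M Hf θ i y v t x

variable {g M Hf θ}

theorem U_of_mem {i : g.I} {y : X} (hy : y ∈ (g.psi i).source) (v : V) (t : ℝ) (x : E4) :
    U g M Hf θ i y v t x = Et M (Hf i) (θ i) v (g.psi i y) t x :=
  indicator_of_mem hy _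

theorem U_of_notMem {i : g.I} {y : X} (hy : y ∉ (g.psi i).source) (v : V) (t : ℝ) (x : E4) :
    U g M Hf θ i y v t x = 0 :=
  indicator_of_notMem hy _

theorem U_zero_y (hS : ∀ i, KSupp (Hf i)) {i : g.I} {y : X}
    (hy : y ∈ (g.psi i).source → 1 ≤ ‖g.psi i y‖) (v : V) (t : ℝ) (x : E4) :
    U g M Hf θ i y v t x = 0 := by
  by_cases h : y ∈ (g.psi i).source
  · rw [U_of_mem h, Et_zero_z (hS i) M _ v (hy h)]
  · exact U_of_notMem h v t x

theorem U_zero_x (hS : ∀ i, KSupp (Hf i)) (hM : 0 < M) (i : g.I) (y : X) (v : V) (t : ℝ) {x : E4}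
    (hx : 2 ≤ ‖x‖) : U g M Hf θ i y v t x = 0 := by
  by_cases h : y ∈ (g.psi i).source
  · rw [U_of_mem h, Et_zero_x (hS i) hM _ v _ t hx]
  · exact U_of_notMem h v t x

theorem term_of_mem {i : g.I} {x : X} (hx : x ∈ (g.psi i).source) (y : X) (v : V) (t : ℝ) :
    term g M Hf θ i y v t x = U g M Hf θ i y v t (g.psi i x) :=
  indicator_of_mem hx _

theorem term_zero (hS : ∀ i, KSupp (Hf i)) (hM : 0 < M) {i : g.I} {x : X} (hx : x ∉ Kc g i)
    (y : X) (v : V) (t : ℝ) : term g M Hf θ i y v t x = 0 := by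
  by_cases h : x ∈ (g.psi i).source
  · rw [term_of_mem h]
    exact U_zero_x hS hM i y v t (notMem_Kc g h hx).le
  · exact indicator_of_notMem h _

theorem term_zero' (hS : ∀ i, KSupp (Hf i)) {i : g.I} {y : X} (hy : y ∉ Kc g i)
    (x : X) (v : V) (t : ℝ) : term g M Hf θ i y v t x = 0 := by
  have h0 : ∀ z, U g M Hf θ i y v t z = 0 := fun z =>
    U_zero_y hS (fun h => by linarith [notMem_Kc g h hy]) v t z
  by_cases h : x ∈ (g.psi i).source
  · rw [term_of_mem h, h0]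
  · exact indicator_of_notMem h _

theorem term_add (i : g.I) (y : X) (v w : V) (t : ℝ) (x : X) :
    term g M Hf θ i y (v + w) t x = term g M Hf θ i y v t x + term g M Hf θ i y w t x := by
  by_cases h : x ∈ (g.psi i).source
  · rw [term_of_mem h, term_of_mem h, term_of_mem h]
    by_cases h' : y ∈ (g.psi i).source
    · rw [U_of_mem h', U_of_mem h', U_of_mem h', Et_add]
    · rw [U_of_notMem h', U_of_notMem h', U_of_notMem h', add_zero]
  · simp only [term, indicator_of_notMem h, add_zero]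

theorem term_smul (i : g.I) (y : X) (c : ℝ) (v : V) (t : ℝ) (x : X) :
    term g M Hf θ i y (c • v) t x = c • term g M Hf θ i y v t x := by
  by_cases h : x ∈ (g.psi i).source
  · rw [term_of_mem h, term_of_mem h]
    by_cases h' : y ∈ (g.psi i).source
    · rw [U_of_mem h', U_of_mem h', Et_smul]
    · rw [U_of_notMem h', U_of_notMem h', smul_zero]
  · simp only [term, indicator_of_notMem h, smul_zero]

/-- Joint continuity of a term. -/
theorem cont_term [T2Space X] (hH : ∀ i, RD (Hf i)) (hS : ∀ i, KSupp (Hf i)) (hM : 0 < M)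
    (hθ : ∀ i, Continuous (θ i)) (i : g.I) (v : V) :
    Continuous fun p : ℝ × X × X => term g M Hf θ i p.2.2 v p.1 p.2.1 := by
  rw [continuous_iff_continuousAt]
  rintro ⟨t, x, y⟩
  by_cases hx : x ∈ (g.psi i).source
  · by_cases hy : y ∈ (g.psi i).source
    · have h1 : ∀ᶠ p : ℝ × X × X in 𝓝 (t, x, y),
          p.2.1 ∈ (g.psi i).source ∧ p.2.2 ∈ (g.psi i).source := by
        have hx' : ∀ᶠ p : ℝ × X × X in 𝓝 (t, x, y), p.2.1 ∈ (g.psi i).source :=
          (continuous_fst.comp continuous_snd).continuousAt.eventually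
            ((g.psi i).open_source.mem_nhds hx)
        have hy' : ∀ᶠ p : ℝ × X × X in 𝓝 (t, x, y), p.2.2 ∈ (g.psi i).source :=
          (continuous_snd.comp continuous_snd).continuousAt.eventually
            ((g.psi i).open_source.mem_nhds hy)
        exact hx'.and hy'
      have h2 : ContinuousAt (fun p : ℝ × X × X =>
          Et M (Hf i) (θ i) v (g.psi i p.2.2) p.1 (g.psi i p.2.1)) (t, x, y) := by
        have e1 : ContinuousAt (fun p : ℝ × X × X => g.psi i p.2.1) (t, x, y) :=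
          ContinuousAt.comp (g := g.psi i) (f := fun p : ℝ × X × X => p.2.1)
            ((g.psi i).continuousAt hx) (by fun_prop)
        have e2 : ContinuousAt (fun p : ℝ × X × X => g.psi i p.2.2) (t, x, y) :=
          ContinuousAt.comp (g := g.psi i) (f := fun p : ℝ × X × X => p.2.2)
            ((g.psi i).continuousAt hy) (by fun_prop)
        exact ContinuousAt.comp (g := fun q : E4 × ℝ × E4 => Et M (Hf i) (θ i) v q.1 q.2.1 q.2.2)
          (f := fun p : ℝ × X × X => (g.psi i p.2.2, p.1, g.psi i p.2.1))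
          (cont_Et (hH i) hM (hθ i) v).continuousAt
          (e2.prodMk (ContinuousAt.prodMk (by fun_prop) e1))
      refine h2.congr ?_
      filter_upwards [h1] with p hp
      rw [term_of_mem hp.1, U_of_mem hp.2]
    · have hy2 : y ∉ Kc g i := fun h => hy (Kc_sub_source g i h)
      have h1 : ∀ᶠ p : ℝ × X × X in 𝓝 (t, x, y), p.2.2 ∈ (Kc g i)ᶜ :=
        (continuous_snd.comp continuous_snd).continuousAt.eventually
          ((isClosed_Kc g i).isOpen_compl.mem_nhds hy2)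
      refine (continuousAt_const (y := (0 : V))).congr ?_
      filter_upwards [h1] with p hp
      exact (term_zero' hS hp _ v _).symm
  · have hx2 : x ∉ Kc g i := fun h => hx (Kc_sub_source g i h)
    have h1 : ∀ᶠ p : ℝ × X × X in 𝓝 (t, x, y), p.2.1 ∈ (Kc g i)ᶜ :=
      (continuous_fst.comp continuous_snd).continuousAt.eventually
        ((isClosed_Kc g i).isOpen_compl.mem_nhds hx2)
    refine (continuousAt_const (y := (0 : V))).congr ?_
    filter_upwards [h1] with p hp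
    exact (term_zero hS hM hp _ v _).symm

theorem S_eq [Fintype g.I] (y : X) (v : V) (t : ℝ) (x : X) :
    S g M Hf θ y v t x = ∑ i, term g M Hf θ i y v t x :=
  finsum_eq_sum_of_fintype _

theorem cont_S [CompactSpace X] [T2Space X] (hH : ∀ i, RD (Hf i)) (hS : ∀ i, KSupp (Hf i))
    (hM : 0 < M) (hθ : ∀ i, Continuous (θ i)) (v : V) :
    Continuous fun p : ℝ × X × X => S g M Hf θ p.2.2 v p.1 p.2.1 := by
  have := finite_I g
  have := Fintype.ofFinite g.I
  simp only [S_eq]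
  exact continuous_finsetSum _ fun i _ => cont_term hH hS hM hθ i v

theorem S_add [CompactSpace X] (y : X) (v w : V) (t : ℝ) (x : X) :
    S g M Hf θ y (v + w) t x = S g M Hf θ y v t x + S g M Hf θ y w t x := by
  have := finite_I g
  have := Fintype.ofFinite g.I
  simp only [S_eq, term_add, Finset.sum_add_distrib]

theorem S_smul [CompactSpace X] (y : X) (c : ℝ) (v : V) (t : ℝ) (x : X) :
    S g M Hf θ y (c • v) t x = c • S g M Hf θ y v t x := by
  have := finite_I g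
  have := Fintype.ofFinite g.I
  simp only [S_eq, term_smul, Finset.smul_sum]

/-- Pointwise bound of the sum. -/
theorem norm_S_le [CompactSpace X] (hH : ∀ i, RD (Hf i)) (hS : ∀ i, KSupp (Hf i))
    (hθ : ∀ i, Continuous (θ i)) (T : ℝ) :
    ∃ D : ℝ, 0 ≤ D ∧ ∀ (y : X) (v : V) (t : ℝ) (x : X), t ≤ T →
      ‖S g M Hf θ y v t x‖ ≤ D * ‖v‖ * Real.sqrt t ^ M := by
  have := finite_I g
  have := Fintype.ofFinite g.I
  have hD : ∀ i, ∃ D : ℝ, 0 ≤ D ∧ ∀ (v : V) (z : E4) (t : ℝ) (x : E4), t ≤ T → ‖z‖ ≤ 1 →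
      ‖Et M (Hf i) (θ i) v z t x‖ ≤ D * ‖v‖ * Real.sqrt t ^ M := fun i =>
    norm_Et_le (hH i) M (hθ i) T
  choose D hD0 hD using hD
  refine ⟨∑ i, D i, Finset.sum_nonneg fun i _ => hD0 i, fun y v t x ht => ?_⟩
  rw [S_eq, Finset.sum_mul, Finset.sum_mul]
  refine norm_sum_le_of_le _ fun i _ => ?_
  have hn : 0 ≤ D i * ‖v‖ * Real.sqrt t ^ M :=
    mul_nonneg (mul_nonneg (hD0 i) (norm_nonneg _)) (by positivity)
  by_cases hx : x ∈ (g.psi i).source
  · rw [term_of_mem hx]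
    by_cases hy : y ∈ (g.psi i).source ∧ ‖g.psi i y‖ ≤ 1
    · rw [U_of_mem hy.1]
      exact hD i v _ t _ ht hy.2
    · rw [U_zero_y hS (fun h => le_of_not_ge fun h' => hy ⟨h, h'⟩), norm_zero]
      exact hn
  · rw [term, indicator_of_notMem hx, norm_zero]
    exact hn

theorem nice_zero {k : ℕ} {T C : ℝ} (hC : 0 ≤ C) : NiceE k T C (fun (_ : ℝ) (_ : E4) => (0 : V)) := by
  refine ⟨fun t ht => contDiff_const, fun j hj => ?_, fun j hj t ht x => ?_⟩
  · have e : (fun p : ℝ × E4 => iteratedFDeriv ℝ j (fun _ : E4 => (0 : V)) p.2) =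
        fun _ => 0 := by
      ext1 p
      exact congrFun (iteratedFDeriv_fun_zero (𝕜 := ℝ) (E := E4) (F := V) (n := j)) p.2
    rw [e]
    exact continuousOn_const
  · have e : iteratedFDeriv ℝ j (fun _ : E4 => (0 : V)) x = 0 :=
      congrFun (iteratedFDeriv_fun_zero (𝕜 := ℝ) (E := E4) (F := V) (n := j)) x
    rw [e, norm_zero]
    exact hC

theorem nice_U [CompactSpace X] (hH : ∀ i, RD (Hf i)) (hS : ∀ i, KSupp (Hf i))
    (hθ : ∀ i, Continuous (θ i)) {k : ℕ} (hk : k < M) (T : ℝ) :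
    ∃ D : ℝ, 0 ≤ D ∧ ∀ (i : g.I) (y : X) (v : V), NiceE k T (D * ‖v‖) (U g M Hf θ i y v) := by
  have := finite_I g
  have := Fintype.ofFinite g.I
  have hD : ∀ i, ∃ D : ℝ, 0 ≤ D ∧ ∀ (v : V) (z : E4), ‖z‖ ≤ 1 →
      NiceE k T (D * ‖v‖) (Et M (Hf i) (θ i) v z) := fun i => nice_Et (hH i) hk (hθ i) T
  choose D hD0 hD using hD
  have h0 : 0 ≤ ∑ i, D i := Finset.sum_nonneg fun i _ => hD0 i
  refine ⟨∑ i, D i, h0, fun i y v => ?_⟩
  by_cases hy : y ∈ (g.psi i).source ∧ ‖g.psi i y‖ ≤ 1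
  · have e : U g M Hf θ i y v = Et M (Hf i) (θ i) v (g.psi i y) := by
      funext t x
      exact U_of_mem hy.1 v t x
    rw [e]
    refine C7_NiceE_mono (hD i v _ hy.2) ?_
    gcongr
    exact Finset.single_le_sum (f := D) (fun i _ => hD0 i) (Finset.mem_univ i)
  · have e : U g M Hf θ i y v = fun _ _ => 0 := by
      funext t x
      exact U_zero_y hS (fun h => le_of_not_ge fun h' => hy ⟨h, h'⟩) v t x
    rw [e]
    exact nice_zero (by positivity)

theorem nice_S [CompactSpace X] [T2Space X] [FiniteDimensional ℝ V] (h8 : claimPatch)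
    (hH : ∀ i, RD (Hf i)) (hS : ∀ i, KSupp (Hf i))
    (hθ : ∀ i, Continuous (θ i)) {k : ℕ} (hk : k < M) (T : ℝ) :
    ∃ C : ℝ, 0 ≤ C ∧ ∀ (y : X) (v : V), g.Nice k T (C * ‖v‖) (S g M Hf θ y v) := by
  obtain ⟨D, hD0, hD⟩ := nice_U (g := g) hH hS hθ hk T
  obtain ⟨K, hK0, hK⟩ := h8 X V g k T
  refine ⟨K * D, by positivity, fun y v => ?_⟩
  have h := hK (D * ‖v‖) (fun i => U g M Hf θ i y v) (by positivity) (fun i => hD i y v)
    (fun i t x hx => U_zero_x hS (by omega) i y v t hx)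
  rw [← mul_assoc] at h
  exact h

theorem nice_U_sub [T2Space X] (hH : ∀ i, RD (Hf i)) (hS : ∀ i, KSupp (Hf i))
    (hθ : ∀ i, Continuous (θ i)) {k : ℕ} (hk : k < M) (T : ℝ) (i : g.I) (y : X) (v : V)
    {ε : ℝ} (hε : 0 < ε) :
    ∀ᶠ y' in 𝓝 y, NiceE k T ε fun t x => U g M Hf θ i y' v t x - U g M Hf θ i y v t x := by
  by_cases hy : y ∈ (g.psi i).source
  · have h1 : ∀ᶠ y' in 𝓝 y, y' ∈ (g.psi i).source := (g.psi i).open_source.mem_nhds hy
    have h2 := ((g.psi i).continuousAt hy).eventually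
      (nice_Et_sub (hH i) (hS i) hk (hθ i) T v (g.psi i y) hε)
    filter_upwards [h1, h2] with y' h1 h2
    simp only [U_of_mem h1, U_of_mem hy]
    exact h2
  · have hy2 : y ∉ Kc g i := fun h => hy (Kc_sub_source g i h)
    have h1 : ∀ᶠ y' in 𝓝 y, y' ∈ (Kc g i)ᶜ := (isClosed_Kc g i).isOpen_compl.mem_nhds hy2
    filter_upwards [h1] with y' h1
    have e1 : ∀ t x, U g M Hf θ i y' v t x = 0 := fun t x =>
      U_zero_y hS (fun h => by linarith [notMem_Kc g h h1]) v t x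
    have e2 : ∀ t x, U g M Hf θ i y v t x = 0 := fun t x => U_of_notMem hy v t x
    simp only [e1, e2, sub_zero]
    exact nice_zero hε.le

theorem nice_S_sub [CompactSpace X] [T2Space X] [FiniteDimensional ℝ V] (h8 : claimPatch)
    (hH : ∀ i, RD (Hf i)) (hS : ∀ i, KSupp (Hf i))
    (hθ : ∀ i, Continuous (θ i)) {k : ℕ} (hk : k < M) (T : ℝ) (v : V) (y : X)
    {ε : ℝ} (hε : 0 < ε) :
    ∀ᶠ y' in 𝓝 y, g.Nice k T ε fun t x => S g M Hf θ y' v t x - S g M Hf θ y v t x := by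
  have := finite_I g
  have := Fintype.ofFinite g.I
  obtain ⟨K, hK0, hK⟩ := h8 X V g k T
  have hε' : 0 < ε / (K + 1) := by positivity
  have h1 : ∀ᶠ y' in 𝓝 y, ∀ i, NiceE k T (ε / (K + 1))
      fun t x => U g M Hf θ i y' v t x - U g M Hf θ i y v t x := by
    rw [eventually_all]
    exact fun i => nice_U_sub hH hS hθ hk T i y v hε'
  filter_upwards [h1] with y' h1
  have h := hK (ε / (K + 1)) (fun i t x => U g M Hf θ i y' v t x - U g M Hf θ i y v t x) hε'.le h1
    (fun i t x hx => by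
      rw [U_zero_x hS (by omega) i y' v t hx, U_zero_x hS (by omega) i y v t hx, sub_zero])
  have e : (fun (t : ℝ) (x : X) => ∑ᶠ i, (g.psi i).source.indicator
      (fun x => U g M Hf θ i y' v t (g.psi i x) - U g M Hf θ i y v t (g.psi i x)) x) =
      fun t x => S g M Hf θ y' v t x - S g M Hf θ y v t x := by
    funext t x
    rw [finsum_eq_sum_of_fintype, S_eq, S_eq, ← Finset.sum_sub_distrib]
    refine Finset.sum_congr rfl fun i _ => ?_
    by_cases hx : x ∈ (g.psi i).source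
    · rw [indicator_of_mem hx, term_of_mem hx, term_of_mem hx]
    · simp only [term, indicator_of_notMem hx, sub_zero]
  rw [e] at h
  intro i
  refine C7_NiceE_mono (h i) ?_
  rw [mul_div_assoc', div_le_iff₀ (by positivity)]
  nlinarith

end patch

end K2

end NRF
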