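import Pool.Agent.Work.MP_7f974f_gt.Stmts_A
import Pool.Agent.Work.MP_7f974f_gt.Stmts_K

/-!
# Module D, part 1: exterior algebra, change of frames, divergence identities (local statements)
-/

open scoped Manifold ContDiff Topology RealInnerProductSpace
open MeasureTheory Set

noncomputable section

namespace NRF

/-- The action of a matrix on the exterior algebra of `ℝ⁴`: the matrix of all minors. -/
def LamM {R : Type} [CommRing R] (A : Matrix (Fin 4) (Fin 4) R) : Matrix Lam Lam R :=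
  Matrix.of fun s t => if h : s.card = t.card then
    (A.submatrix (s.orderEmbOfFin rfl) (t.orderEmbOfFin h.symm)).det else 0

/-- Projection to the forms of degree `k`. -/
def degP (R : Type) [CommRing R] (k : ℕ) : Matrix Lam Lam R :=
  Matrix.diagonal fun s => if s.card = k then 1 else 0

/-- D1a: `LamM` is multiplicative and compatible with exterior multiplication and degree. -/
def claimLamA : Prop :=
  ∀ (R : Type) [CommRing R],
    LamM (1 : Matrix (Fin 4) (Fin 4) R) = 1 ∧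
    (∀ A B : Matrix (Fin 4) (Fin 4) R, LamM (A * B) = LamM A * LamM B) ∧
    (∀ A : Matrix (Fin 4) (Fin 4) R, LamM A.transpose = (LamM A).transpose) ∧
    (∀ (A : Matrix (Fin 4) (Fin 4) R) (a : Fin 4),
      LamM A * eps R a = (∑ b, A b a • eps R b) * LamM A) ∧
    (∀ (A : Matrix (Fin 4) (Fin 4) R) (k : ℕ), LamM A * degP R k = degP R k * LamM A) ∧
    (∀ A : Matrix (Fin 4) (Fin 4) R, LamM A * evenOdd R = evenOdd R * LamM A)

/-- D1b: orthogonal matrices. -/
def claimLamB : Prop :=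
  ∀ (R : Type) [CommRing R] [Algebra ℝ R] (A : Matrix (Fin 4) (Fin 4) R), A.transpose * A = 1 →
    (LamM A).transpose * LamM A = 1 ∧ LamM A * (LamM A).transpose = 1 ∧
    (∀ a, LamM A * iot R a = (∑ b, A b a • iot R b) * LamM A) ∧
    (∀ a, LamM A * clf R a = (∑ b, A b a • clf R b) * LamM A) ∧
    (A.det = 1 → LamM A * gam R = gam R * LamM A)

/-- Frame components of an alternating form at a point; the columns of `F` are the vectors of the
frame. -/
def compP {k : ℕ} (F : Matrix (Fin 4) (Fin 4) ℝ) (w : E4 [⋀^Fin k]→L[ℝ] ℝ) : Lam → ℝ :=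
  comp (fun _ => F) (fun _ => w) 0

/-- D2: components under a change of the frame or a linear change of coordinates; every
function on `Lam` supported in degree `k` comes from a unique `k`-form. -/
def claimComp : Prop :=
  (∀ (k : ℕ) (F O : Matrix (Fin 4) (Fin 4) ℝ) (w : E4 [⋀^Fin k]→L[ℝ] ℝ),
    compP (F * O) w = (LamM O).transpose.mulVec (compP F w)) ∧
  (∀ (k : ℕ) (F : Matrix (Fin 4) (Fin 4) ℝ) (w : E4 [⋀^Fin k]→L[ℝ] ℝ) (A : E4 →L[ℝ] E4),
    compP F (w.compContinuousLinearMap A) = compP ((Matrix.of fun i j => (A (bv j)) i) * F) w) ∧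
  (∀ k : ℕ, ∃ uc : (Lam → ℝ) →ₗ[ℝ] (E4 [⋀^Fin k]→L[ℝ] ℝ), (∀ w, uc (compP 1 w) = w) ∧
    ∀ α, compP 1 (uc α) = (degP ℝ k).mulVec α)

/-- Jacobi matrix. -/
def jacM (φ : E4 → E4) (y : E4) : Matrix (Fin 4) (Fin 4) ℝ := Matrix.of fun k i => (pd i φ y) k

/-- The matrix `O` with `Dφ · f = (f' ∘ φ) · O`. -/
def frO (φ : E4 → E4) (f f' : E4 → Matrix (Fin 4) (Fin 4) ℝ) (y : E4) :
    Matrix (Fin 4) (Fin 4) ℝ :=
  (f' (φ y))⁻¹ * jacM φ y * f y

/-- D3: naturality of `d`, `δ`, `D` under coordinate changes and changes of the frame. -/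
def claimNatD : Prop :=
  ∀ (U U' : Set E4) (φ : E4 → E4) (G G' f f' : E4 → Matrix (Fin 4) (Fin 4) ℝ),
    FrameOn U G f → FrameOn U' G' f' → ContDiffOn ℝ ∞ φ U → MapsTo φ U U' →
    (∀ y ∈ U, 0 < (fderiv ℝ φ y).det) → (∀ y ∈ U, G y = pullM φ G' y) →
    (∀ a b, ContDiffOn ℝ ∞ (fun y => frO φ f f' y a b) U) ∧
    ∀ y ∈ U, (frO φ f f' y).transpose * frO φ f f' y = 1 ∧ (frO φ f f' y).det = 1 ∧
      ∀ α : E4 → Lam → ℝ, (∀ s, DifferentiableAt ℝ (fun z => α z s) (φ y)) →
        dFC G f (fun z => (LamM (frO φ f f' z)).transpose.mulVec (α (φ z))) y =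
          (LamM (frO φ f f' y)).transpose.mulVec (dFC G' f' α (φ y)) ∧
        delFC G f (fun z => (LamM (frO φ f f' z)).transpose.mulVec (α (φ z))) y =
          (LamM (frO φ f f' y)).transpose.mulVec (delFC G' f' α (φ y)) ∧
        diracC G f (fun z => (LamM (frO φ f f' z)).transpose.mulVec (α (φ z))) y =
          (LamM (frO φ f f' y)).transpose.mulVec (diracC G' f' α (φ y))

/-- D3': the degree and the volume element: `d` raises and `δ` lowers the degree, and
`γ D = -D γ`, `γ d = -δ γ`. -/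
def claimDegD : Prop :=
  ∀ (U : Set E4) (G f : E4 → Matrix (Fin 4) (Fin 4) ℝ), FrameOn U G f →
    ∀ (α : E4 → Lam → ℝ), ∀ y ∈ U, (∀ s, DifferentiableAt ℝ (fun z => α z s) y) →
      (∀ k, dFC G f (fun z => (degP ℝ k).mulVec (α z)) y =
        (degP ℝ (k + 1)).mulVec (dFC G f α y)) ∧
      (∀ k, delFC G f (fun z => (degP ℝ (k + 1)).mulVec (α z)) y =
        (degP ℝ k).mulVec (delFC G f α y)) ∧
      dFC G f (fun z => (gam ℝ).mulVec (α z)) y = -(gam ℝ).mulVec (delFC G f α y) ∧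
      delFC G f (fun z => (gam ℝ).mulVec (α z)) y = -(gam ℝ).mulVec (dFC G f α y) ∧
      diracC G f (fun z => (gam ℝ).mulVec (α z)) y = -(gam ℝ).mulVec (diracC G f α y) ∧
      diracC G f (fun z => (evenOdd ℝ).mulVec (α z)) y = -(evenOdd ℝ).mulVec (diracC G f α y)

/-- D4: divergence identities for `d + δ` and for `d`. -/
def claimDivD : Prop :=
  ∀ (U : Set E4) (G f : E4 → Matrix (Fin 4) (Fin 4) ℝ), FrameOn U G f →
    ∀ (α β : E4 → Lam → ℝ), ∀ y ∈ U, (∀ s, DifferentiableAt ℝ (fun z => α z s) y) →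
      (∀ s, DifferentiableAt ℝ (fun z => β z s) y) →
      ∑ i, pd i (fun z => Real.sqrt (G z).det *
        ∑ a, f z i a * ((clf ℝ a).mulVec (α z) ⬝ᵥ β z)) y =
          Real.sqrt (G y).det * (diracC G f α y ⬝ᵥ β y - α y ⬝ᵥ diracC G f β y) ∧
      ∑ i, pd i (fun z => Real.sqrt (G z).det *
        ∑ a, f z i a * ((eps ℝ a).mulVec (α z) ⬝ᵥ β z)) y =
          Real.sqrt (G y).det * (dFC G f α y ⬝ᵥ β y - α y ⬝ᵥ delFC G f β y)

end NRF
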