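import Pool.Agent.Work.MP_7f974f_gt.Stmts_I
import Pool.Agent.Work.MP_7f974f_gt.Stmts_B

/-!
# Module H: the upper bound for the simplicial volume (statements)
The proof avoids smoothing of chains: a mixing map `M x y s` (a smooth path from `x` to `y`, defined
for `x`, `y` close to each other) gives for every small tuple `v` of points a smooth cube
`str k v : ℝ^k → X` (an iterated cone), and all integrals are integrals over such cubes; chains enter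
only through the vertices of the simplices of a fine subdivision.
-/

open scoped Manifold ContDiff Topology
open MeasureTheory Set

noncomputable section

namespace NRF

/-! ## H1. Duality -/

/-- H1: Hahn-Banach. -/
def claimDual : Prop :=
  ∀ (X : Type) [TopologicalSpace X] [ChartedSpace E4 X] (B : ℝ), B < simplicialVolume X →
    ∀ c0 : Chain 4 X, IsFundamentalCycle c0 →
    ∃ β : Chain 4 X →ₗ[ℝ] ℝ, (∀ s : Simp 4 X, |β (Finsupp.single s 1)| ≤ 1) ∧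
      (∀ c : Chain 5 X, β (bdry c) = 0) ∧ B < β c0

/-! ## H2. Subdivision of singular chains -/

/-- A subdivision operator with its homotopy to the identity. -/
structure SubDiv (X : Type) [TopologicalSpace X] where
  Sd : ∀ k : ℕ, Chain k X →ₗ[ℝ] Chain k X
  T : ∀ k : ℕ, Chain k X →ₗ[ℝ] Chain (k + 1) X
  comm : ∀ (k : ℕ) (c : Chain (k + 1) X), bdry (Sd (k + 1) c) = Sd k (bdry c)
  htpy : ∀ (k : ℕ) (c : Chain (k + 1) X), bdry (T (k + 1) c) + T k (bdry c) = c - Sd (k + 1) c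
  supp_Sd : ∀ (k : ℕ) (s : Simp k X), ∀ t ∈ (Sd k (Finsupp.single s 1)).support, range t ⊆ range s
  supp_T : ∀ (k : ℕ) (s : Simp k X), ∀ t ∈ (T k (Finsupp.single s 1)).support, range t ⊆ range s

/-- Open covers. -/
def IsCov {X : Type} [TopologicalSpace X] (W : Set (Set X)) : Prop :=
  (∀ w ∈ W, IsOpen w) ∧ ∀ x, ∃ w ∈ W, x ∈ w

/-- The subdivisions of the simplices of `F` are `W`-small. -/
def SubDiv.Fine {X : Type} [TopologicalSpace X] (S : SubDiv X) (W : Set (Set X))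
    (F : Set (Σ k : ℕ, Simp k X)) : Prop :=
  ∀ p ∈ F, ∀ t ∈ (S.Sd p.1 (Finsupp.single p.2 1)).support, ∃ w ∈ W, range t ⊆ w

/-- H2: fine subdivisions. -/
def claimSubdiv : Prop :=
  ∀ (X : Type) [TopologicalSpace X] (W : Set (Set X)) (F : Set (Σ k : ℕ, Simp k X)), IsCov W →
    F.Finite → ∃ S : SubDiv X, S.Fine W F

/-! Barycentric subdivision of tuples of points (used for H2). -/

/-- Chains of tuples of points of a vector space. -/
abbrev LCh0 (k : ℕ) (V : Type) := (Fin (k + 1) → V) →₀ ℝ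

/-- Boundary of tuples. -/
def bdryL {V : Type} {k : ℕ} : LCh0 (k + 1) V →ₗ[ℝ] LCh0 k V :=
  Finsupp.lsum ℝ fun w : Fin (k + 2) → V =>
    LinearMap.toSpanSingleton ℝ (LCh0 k V)
      (∑ i : Fin (k + 2), (-1 : ℝ) ^ (i : ℕ) • Finsupp.single (fun j => w (i.succAbove j)) (1 : ℝ))

/-- Cone with apex `b`. -/
def coneL {V : Type} {k : ℕ} (b : V) : LCh0 k V →ₗ[ℝ] LCh0 (k + 1) V :=
  Finsupp.lmapDomain ℝ ℝ fun w : Fin (k + 1) → V => (Fin.cons b w : Fin (k + 2) → V)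

/-- Barycentre. -/
def baryL {V : Type} [AddCommGroup V] [Module ℝ V] {k : ℕ} (w : Fin (k + 1) → V) : V :=
  ((k + 1 : ℝ))⁻¹ • ∑ i, w i

/-- Barycentric subdivision. -/
def sdL {V : Type} [AddCommGroup V] [Module ℝ V] : ∀ k : ℕ, LCh0 k V →ₗ[ℝ] LCh0 k V
  | 0 => LinearMap.id
  | k + 1 => Finsupp.lsum ℝ fun w : Fin (k + 2) → V =>
      LinearMap.toSpanSingleton ℝ _ (coneL (baryL w) (sdL k (bdryL (Finsupp.single w 1))))

/-- The homotopy `T` with `∂T + T∂ = 1 - Sd`. -/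
def tL {V : Type} [AddCommGroup V] [Module ℝ V] : ∀ k : ℕ, LCh0 k V →ₗ[ℝ] LCh0 (k + 1) V
  | 0 => 0
  | k + 1 => Finsupp.lsum ℝ fun w : Fin (k + 2) → V =>
      LinearMap.toSpanSingleton ℝ _
        (coneL (baryL w) (Finsupp.single w 1 - tL k (bdryL (Finsupp.single w 1))))

/-- H2a: the algebra of the barycentric subdivision. -/
def claimSdAlg : Prop :=
  ∀ (V : Type) [AddCommGroup V] [Module ℝ V],
    (∀ (k : ℕ) (c : LCh0 (k + 2) V), bdryL (bdryL c) = 0) ∧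
    (∀ (k : ℕ) (b : V) (c : LCh0 (k + 1) V), bdryL (coneL b c) = c - coneL b (bdryL c)) ∧
    (∀ (k : ℕ) (c : LCh0 (k + 1) V), bdryL (sdL (k + 1) c) = sdL k (bdryL c)) ∧
    (∀ (k : ℕ) (c : LCh0 (k + 1) V), bdryL (tL (k + 1) c) + tL k (bdryL c) = c - sdL (k + 1) c) ∧
    (∀ (V' : Type) [AddCommGroup V'] [Module ℝ V'] (A : V →ₗ[ℝ] V') (k : ℕ) (c : LCh0 k V),
      sdL k (Finsupp.mapDomain (fun w i => A (w i)) c) =
        Finsupp.mapDomain (fun w i => A (w i)) (sdL k c) ∧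
      tL k (Finsupp.mapDomain (fun w i => A (w i)) c) =
        Finsupp.mapDomain (fun w i => A (w i)) (tL k c))

/-- H2b: supports and mesh of the barycentric subdivision. -/
def claimSdMesh : Prop :=
  ∀ (V : Type) [NormedAddCommGroup V] [NormedSpace ℝ V] (k : ℕ) (w : Fin (k + 1) → V),
    (∀ u ∈ (sdL k (Finsupp.single w 1)).support, ∀ i, u i ∈ convexHull ℝ (range w)) ∧
    (∀ u ∈ (tL k (Finsupp.single w 1)).support, ∀ i, u i ∈ convexHull ℝ (range w)) ∧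
    ∀ D : ℝ, (∀ i j, ‖w i - w j‖ ≤ D) → ∀ u ∈ (sdL k (Finsupp.single w 1)).support, ∀ i j,
      ‖u i - u j‖ ≤ (k : ℝ) / (k + 1) * D

/-- H2c: from tuples to singular simplices. -/
def claimSubdivOf : Prop := claimSdAlg → claimSdMesh → claimSubdiv

/-! ## H3. Evaluation of invariant functions of the vertices -/

/-- H3: evaluation of an invariant function of the vertices of the lifted simplices. -/
def claimEval : Prop :=
  ∀ (X : Type) [TopologicalSpace X] (U : UCover X) (k : ℕ) (h : (Fin (k + 1) → U.Y) → ℝ),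
    (∀ (a : U.G) v, h (fun i => a • v i) = h v) →
    ∃ E : Chain k X →ₗ[ℝ] ℝ,
      (∀ (s : Simp k X) (t : Simp k U.Y), (∀ x, U.p (t x) = s x) →
        E (Finsupp.single s 1) = h fun i => t (stdSimplex.vertex i)) ∧
      ∀ (s : Simp (k + 1) X) (t : Simp (k + 1) U.Y), (∀ x, U.p (t x) = s x) →
        E (bdry (Finsupp.single s 1)) =
          ∑ i : Fin (k + 2), (-1 : ℝ) ^ (i : ℕ) * h fun j => t (stdSimplex.vertex (i.succAbove j))

/-- Evaluation of a function of the vertices. -/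
def evV {X : Type} [TopologicalSpace X] {k : ℕ} (F : (Fin (k + 1) → X) → ℝ) :
    Chain k X →ₗ[ℝ] ℝ :=
  Finsupp.lsum ℝ fun s : Simp k X =>
    LinearMap.toSpanSingleton ℝ ℝ (F fun i => s (stdSimplex.vertex i))

/-- H3': evaluation on boundaries, equality of evaluations on small cycles. -/
def claimEvV : Prop :=
  ∀ (X : Type) [TopologicalSpace X] (k : ℕ),
    (∀ (F : (Fin (k + 1) → X) → ℝ) (s : Simp (k + 1) X),
      evV F (bdry (Finsupp.single s 1)) =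
        ∑ i : Fin (k + 2), (-1 : ℝ) ^ (i : ℕ) * F fun j => s (stdSimplex.vertex (i.succAbove j))) ∧
    (∀ (F : (Fin (k + 1) → X) → ℝ) (W : Set (Set X)) (c : Chain (k + 1) X),
      (∀ w ∈ W, ∀ v : Fin (k + 2) → X, (∀ i, v i ∈ w) →
        ∑ i : Fin (k + 2), (-1 : ℝ) ^ (i : ℕ) * F (fun j => v (i.succAbove j)) = 0) →
      (∀ s ∈ c.support, ∃ w ∈ W, range s ⊆ w) → evV F (bdry c) = 0) ∧
    ∀ (F F' : (Fin (k + 2) → X) → ℝ) (h : (Fin (k + 1) → X) → ℝ) (W : Set (Set X))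
      (c : Chain (k + 1) X),
      (∀ w ∈ W, ∀ v : Fin (k + 2) → X, (∀ i, v i ∈ w) →
        F' v - F v = ∑ i : Fin (k + 2), (-1 : ℝ) ^ (i : ℕ) * h (fun j => v (i.succAbove j))) →
      (∀ s ∈ c.support, ∃ w ∈ W, range s ⊆ w) → bdry c = 0 → evV F c = evV F' c

/-! ## H4. The manifold structure of the covering space -/

/-- The lifted charts make `U.Y` a smooth manifold. -/
structure YMan {X : Type} [TopologicalSpace X] [ChartedSpace E4 X] (U : UCover X)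
    (cs : ChartedSpace E4 U.Y) : Prop where
  atl : ∀ f ∈ atlas E4 U.Y, ∃ c : LCh U, c.psi = f
  man : IsManifold (𝓡 4) ∞ U.Y
  local_diffeo : IsLocalDiffeomorph (𝓡 4) (𝓡 4) ∞ U.p
  act : ∀ a : U.G, ContMDiff (𝓡 4) (𝓡 4) ∞ fun y : U.Y => a • y
  fn : ∀ f : U.Y → ℝ, (∀ c : LCh U, ContDiffOn ℝ 2 (f ∘ c.psi.symm) c.psi.target) ↔
    ContMDiff (𝓡 4) 𝓘(ℝ, ℝ) 2 f

/-- H4: the manifold structure exists. -/
def claimYMan : Prop :=
  ∀ (X : Type) [TopologicalSpace X] [ChartedSpace E4 X] [IsManifold (𝓡 4) ∞ X] (U : UCover X),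
    ∃ cs : ChartedSpace E4 U.Y, YMan U cs

/-- H4': enough lifted charts, local finiteness of the action. -/
def claimLocFin : Prop :=
  ∀ (X : Type) [TopologicalSpace X] [T2Space X] [ChartedSpace E4 X] [IsManifold (𝓡 4) ∞ X]
    (U : UCover X),
    (∀ (y : U.Y) (e : Ch X), U.p y ∈ e.1.source → ∃ c : LCh U, c.e = e ∧ y ∈ c.psi.source) ∧
    (∀ C C' : Set U.Y, IsCompact C → IsCompact C' →
      {a : U.G | ∃ y ∈ C, a • y ∈ C'}.Finite) ∧
    (∃ r : U.Y → U.G, ∀ (a : U.G) y, r (a • y) = a * r y) ∧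
    ∀ W : Set (Set U.Y), IsCov W → (∀ (a : U.G), ∀ w ∈ W, (fun y => a • y) '' w ∈ W) →
      ∃ W' : Set (Set X), IsCov W' ∧ ∀ w' ∈ W', ∀ S : Set U.Y, IsPreconnected S →
        U.p '' S ⊆ w' → ∃ w ∈ W, S ⊆ w

/-! ## H5, H6. Mixing maps -/

/-- A mixing map: `M x y s` is a smooth path from `x` to `y`. -/
structure Mix (X : Type) [TopologicalSpace X] [ChartedSpace E4 X] where
  O : Set (X × X)
  isOpen : IsOpen O
  diagO : ∀ x, (x, x) ∈ O
  M : X → X → ℝ → X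
  smooth : ContMDiffOn ((𝓡 4).prod ((𝓡 4).prod 𝓘(ℝ, ℝ))) (𝓡 4) ∞
    (fun q : X × X × ℝ => M q.1 q.2.1 q.2.2) {q | (q.1, q.2.1) ∈ O}
  low : ∀ x y s, (x, y) ∈ O → s ≤ 0 → M x y s = x
  high : ∀ x y s, (x, y) ∈ O → 1 ≤ s → M x y s = y
  diag : ∀ x s, M x x s = x

/-- The affine mixing map of `ℝ⁴`. -/
def affM (x y : E4) (s : ℝ) : E4 :=
  (1 - Real.smoothTransition s) • x + Real.smoothTransition s • y

/-- The mixing map is affine in the chart `e` near `x0`. -/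
structure Adapted {X : Type} [TopologicalSpace X] [ChartedSpace E4 X] (μ : Mix X)
    (e : OpenPartialHomeomorph X E4) (x0 : X) (ρ : ℝ) : Prop where
  pos : 0 < ρ
  mem : x0 ∈ e.source
  ball : Metric.ball (e x0) ρ ⊆ e.target
  aff : ∀ x ∈ e.source, ∀ y ∈ e.source, e x ∈ Metric.ball (e x0) ρ → e y ∈ Metric.ball (e x0) ρ →
    (x, y) ∈ μ.O ∧ ∀ s, μ.M x y s = e.symm (affM (e x) (e y) s)

/-- H5: existence of mixing maps. -/
def claimMixX : Prop :=
  ∀ (X : Type) [TopologicalSpace X] [T2Space X] [CompactSpace X] [ChartedSpace E4 X]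
    [IsManifold (𝓡 4) ∞ X] (e : Ch X) (x0 : X), x0 ∈ e.1.source →
    ∃ (μ : Mix X) (ρ : ℝ), Adapted μ e.1 x0 ρ

/-- `μ'` is a lift of `μ`. -/
structure MixLift {X : Type} [TopologicalSpace X] [ChartedSpace E4 X] (U : UCover X)
    [ChartedSpace E4 U.Y] (μ : Mix X) (μ' : Mix U.Y) : Prop where
  proj : ∀ x y, (x, y) ∈ μ'.O →
    (U.p x, U.p y) ∈ μ.O ∧ ∀ s, U.p (μ'.M x y s) = μ.M (U.p x) (U.p y) s
  equiv : ∀ (a : U.G) x y, (x, y) ∈ μ'.O →
    (a • x, a • y) ∈ μ'.O ∧ ∀ s, μ'.M (a • x) (a • y) s = a • μ'.M x y s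

/-- H6: lifting of mixing maps. -/
def claimMixY : Prop :=
  ∀ (X : Type) [TopologicalSpace X] [T2Space X] [ChartedSpace E4 X] [IsManifold (𝓡 4) ∞ X]
    (U : UCover X) (cs : ChartedSpace E4 U.Y), YMan U cs → ∀ μ : Mix X,
    ∃ μ' : Mix U.Y, MixLift U μ μ'

/-! ## H7, H8. Straight cubes -/

/-- Iterated cones: `strOf M k v s = M v_0 (M v_1 (... (M v_(k-1) v_k s_(k-1)) ...) s_1) s_0`. -/
def strOf {X : Type} (M : X → X → ℝ → X) : ∀ k : ℕ, (Fin (k + 1) → X) → (Fin k → ℝ) → X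
  | 0, v, _ => v 0
  | k + 1, v, s => M (v 0) (strOf M k (fun i => v i.succ) fun i => s i.succ) (s 0)

/-- The tuple `v` is so small that the cube `strOf M k v` is defined. -/
def Mix.Good {X : Type} [TopologicalSpace X] [ChartedSpace E4 X] (μ : Mix X) :
    ∀ k : ℕ, (Fin (k + 1) → X) → Prop
  | 0, _ => True
  | k + 1, v => μ.Good k (fun i => v i.succ) ∧
      ∀ s, (v 0, strOf μ.M k (fun i => v i.succ) s) ∈ μ.O

/-- H7: properties of the cubes. -/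
def claimStr : Prop :=
  ∀ (X : Type) [TopologicalSpace X] [ChartedSpace E4 X] (μ : Mix X) (k : ℕ),
    (∀ v : Fin (k + 1) → X, μ.Good k v →
      ContMDiff 𝓘(ℝ, Fin k → ℝ) (𝓡 4) ∞ (strOf μ.M k v) ∧
      (∀ (s : Fin k → ℝ) (j : Fin k), (s j ≤ 0 → strOf μ.M k v s =
          strOf μ.M k v (Function.update s j 0)) ∧
        (1 ≤ s j → strOf μ.M k v s = strOf μ.M k v (Function.update s j 1)))) ∧
    ∀ v : Fin (k + 2) → X, μ.Good (k + 1) v →
      (∀ (j : Fin (k + 1)) (s : Fin k → ℝ), strOf μ.M (k + 1) v (j.insertNth 1 s) =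
        strOf μ.M k (fun i => v (j.castSucc.succAbove i)) s) ∧
      (∀ s : Fin k → ℝ, strOf μ.M (k + 1) v ((Fin.last k).insertNth 0 s) =
        strOf μ.M k (fun i => v ((Fin.last (k + 1)).succAbove i)) s) ∧
      (∀ j : Fin (k + 1), j ≠ Fin.last k → ∀ s s' : Fin k → ℝ,
        (∀ i : Fin k, (i : ℕ) + 1 < k → s i = s' i) →
        strOf μ.M (k + 1) v (j.insertNth 0 s) = strOf μ.M (k + 1) v (j.insertNth 0 s')) ∧
      ∀ i : Fin (k + 2), μ.Good k fun j => v (i.succAbove j)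

/-- H7': cubes and lifts. -/
def claimStrLift : Prop :=
  ∀ (X : Type) [TopologicalSpace X] [ChartedSpace E4 X] (U : UCover X) [ChartedSpace E4 U.Y]
    (μ : Mix X) (μ' : Mix U.Y), MixLift U μ μ' → ∀ (k : ℕ) (v : Fin (k + 1) → U.Y), μ'.Good k v →
    μ.Good k (fun i => U.p (v i)) ∧
    (∀ s, U.p (strOf μ'.M k v s) = strOf μ.M k (fun i => U.p (v i)) s) ∧
    ∀ a : U.G, μ'.Good k (fun i => a • v i) ∧
      ∀ s, strOf μ'.M k (fun i => a • v i) s = a • strOf μ'.M k v s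

/-- H8: small tuples are good, and their cubes are small. -/
def claimSmall : Prop :=
  ∀ (X : Type) [TopologicalSpace X] [ChartedSpace E4 X] (μ μ' : Mix X) (V : Set (Set X)),
    IsCov V → ∃ W : Set (Set X), IsCov W ∧ ∀ w ∈ W, ∃ u ∈ V, w ⊆ u ∧ ∀ k ≤ 5,
      ∀ v : Fin (k + 1) → X, (∀ i, v i ∈ w) → μ.Good k v ∧ μ'.Good k v ∧
        (∀ s, strOf μ.M k v s ∈ u ∧ strOf μ'.M k v s ∈ u ∧
          (strOf μ.M k v s, strOf μ'.M k v s) ∈ μ.O) ∧
        ∀ s τ, μ.M (strOf μ.M k v s) (strOf μ'.M k v s) τ ∈ u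

/-! ## H9. Stokes' theorem for cubes -/

/-- j-th partial derivative of functions on `ℝ^n`. -/
def pdn {n : ℕ} (j : Fin n) (u : (Fin n → ℝ) → ℝ) (s : Fin n → ℝ) : ℝ :=
  fderiv ℝ u s (Pi.single j 1)

/-- `∫ u_0 du_1 ∧ ... ∧ du_n` over the unit cube. -/
def cubeInt (n : ℕ) (u : Fin (n + 1) → (Fin n → ℝ) → ℝ) : ℝ :=
  ∫ s in Icc (0 : Fin n → ℝ) 1, u 0 s * (Matrix.of fun i j : Fin n => pdn j (u i.succ) s).det

/-- H9: Stokes. -/
def claimStokes : Prop :=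
  ∀ (n : ℕ) (u : Fin (n + 1) → (Fin (n + 1) → ℝ) → ℝ), ContDiff ℝ 1 (u 0) →
    (∀ i : Fin n, ContDiff ℝ 2 (u i.succ)) →
    ∫ s in Icc (0 : Fin (n + 1) → ℝ) 1, (Matrix.of fun i j : Fin (n + 1) => pdn j (u i) s).det =
      ∑ j : Fin (n + 1), (-1 : ℝ) ^ (j : ℕ) * (cubeInt n (fun i s => u i (j.insertNth 1 s)) -
        cubeInt n (fun i s => u i (j.insertNth 0 s)))

/-! ## H10, H11. The prism between the partition of unity and the vertices -/

/-- The cube integrals of the partition of unity. -/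
def Pq {X : Type} [TopologicalSpace X] (U : UCover X) [ChartedSpace E4 U.Y] (phi : U.Y → ℝ)
    (μ' : Mix U.Y) (q : ℕ) (a : Fin (q + 1) → U.G) (w : Fin (q + 1) → U.Y) : ℝ :=
  cubeInt q fun i s => phi ((a i)⁻¹ • strOf μ'.M q w s)

/-- H10: properties of the cube integrals `Pq`, for a good 5-tuple `v` and its sub-tuples. -/
def claimPq : Prop :=
  ∀ (X : Type) [TopologicalSpace X] [T2Space X] [ChartedSpace E4 X] [IsManifold (𝓡 4) ∞ X]
    (U : UCover X) (cs : ChartedSpace E4 U.Y), YMan U cs → ∀ (μ : Mix X) (μ' : Mix U.Y),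
    MixLift U μ μ' → ∀ (g : Metric X) (K : ℝ) (phi : U.Y → ℝ), IsEqPart U g K phi →
    (∀ (q : ℕ) (a : Fin (q + 1) → U.G) (w : Fin (q + 1) → U.Y) (c : U.G), μ'.Good q w →
      Pq U phi μ' q (fun i => c * a i) (fun i => c • w i) = Pq U phi μ' q a w) ∧
    ∀ v : Fin 5 → U.Y, μ'.Good 4 v → ∃ A : Finset U.G,
      (∀ (q : ℕ) (F : Fin (q + 1) ↪o Fin 5) (a : Fin (q + 1) → U.G), (∃ i, a i ∉ A) →
        Pq U phi μ' q a (fun i => v (F i)) = 0) ∧
      (∀ i : Fin 5, ∑ c ∈ A, Pq U phi μ' 0 (fun _ => c) (fun _ => v i) = 1) ∧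
      (∀ (q : ℕ) (F : Fin (q + 2) ↪o Fin 5) (a : Fin (q + 1) → U.G),
        ∑ c ∈ A, Pq U phi μ' (q + 1) (Fin.cons c a) (fun i => v (F i)) =
          ∑ j : Fin (q + 2), (-1 : ℝ) ^ (j : ℕ) *
            Pq U phi μ' q a (fun i => v (F (j.succAbove i)))) ∧
      ∀ (q : ℕ) (F : Fin (q + 2) ↪o Fin 5) (a : Fin (q + 1) → U.G) (i : Fin (q + 1)),
        ∑ c ∈ A, Pq U phi μ' (q + 1) (i.succ.insertNth c a) (fun i => v (F i)) = 0

/-- The prism operator. -/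
def prismH {G V : Type} (b : (Fin 5 → G) → ℝ) (P : ∀ q : ℕ, (Fin (q + 1) → G) →
    (Fin (q + 1) → V) → ℝ) (ρ : Fin 4 → G) (w : Fin 4 → V) : ℝ :=
  (∑ᶠ a : Fin 4 → G, b ![ρ 0, a 0, a 1, a 2, a 3] * P 3 a w) -
    (∑ᶠ a : Fin 3 → G, b ![ρ 0, ρ 1, a 0, a 1, a 2] * P 2 a ![w 1, w 2, w 3]) +
    (∑ᶠ a : Fin 2 → G, b ![ρ 0, ρ 1, ρ 2, a 0, a 1] * P 1 a ![w 2, w 3]) -
    ∑ᶠ a : Fin 1 → G, b ![ρ 0, ρ 1, ρ 2, ρ 3, a 0] * P 0 a ![w 3]

/-- H11: the algebra of the prism operator. -/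
def claimPrism : Prop :=
  ∀ (G V : Type) (b : (Fin 5 → G) → ℝ)
    (P : ∀ q : ℕ, (Fin (q + 1) → G) → (Fin (q + 1) → V) → ℝ) (v : Fin 5 → V) (ρ : Fin 5 → G)
    (A : Finset G),
    (∀ v : Fin 6 → G, ∑ i : Fin 6, (-1 : ℝ) ^ (i : ℕ) * b (fun t => v (i.succAbove t)) = 0) →
    (∀ (q : ℕ) (F : Fin (q + 1) ↪o Fin 5) (a : Fin (q + 1) → G), (∃ i, a i ∉ A) →
      P q a (fun i => v (F i)) = 0) →
    (∀ i : Fin 5, ∑ c ∈ A, P 0 (fun _ => c) (fun _ => v i) = 1) →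
    (∀ (q : ℕ) (F : Fin (q + 2) ↪o Fin 5) (a : Fin (q + 1) → G),
      ∑ c ∈ A, P (q + 1) (Fin.cons c a) (fun i => v (F i)) =
        ∑ j : Fin (q + 2), (-1 : ℝ) ^ (j : ℕ) * P q a (fun i => v (F (j.succAbove i)))) →
    (∀ (q : ℕ) (F : Fin (q + 2) ↪o Fin 5) (a : Fin (q + 1) → G) (i : Fin (q + 1)),
      ∑ c ∈ A, P (q + 1) (i.succ.insertNth c a) (fun i => v (F i)) = 0) →
    (∑ᶠ a : Fin 5 → G, b a * P 4 a v) - b ρ =
      ∑ m : Fin 5, (-1 : ℝ) ^ (m : ℕ) *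
        prismH b P (fun i => ρ (m.succAbove i)) (fun i => v (m.succAbove i))

/-! ## H12. The form of a cocycle -/

/-- Coefficient families of `C¹` top degree forms. -/
structure IsTop {X : Type} [TopologicalSpace X] [ChartedSpace E4 X] (D : Ch X → E4 → ℝ) :
    Prop where
  smooth : ∀ e : Ch X, ContDiffOn ℝ 1 (D e) e.1.target
  transf : ∀ e e' : Ch X, ∀ y ∈ (e.1.symm.trans e'.1).source,
    D e y = (fderiv ℝ (e.1.symm.trans e'.1) y).det * D e' ((e.1.symm.trans e'.1) y)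

/-- The form `∑ b(a) φ_{a0} dφ_{a1} ∧ ... ∧ dφ_{a4}` in a lifted chart. -/
def omB {X : Type} [TopologicalSpace X] [ChartedSpace E4 X] (U : UCover X) (phi : U.Y → ℝ)
    (b : (Fin 5 → U.G) → ℝ) (c : LCh U) (z : E4) : ℝ :=
  ∑ᶠ a : Fin 5 → U.G, b a * (phi ((a 0)⁻¹ • c.psi.symm z) *
    (Matrix.of fun i j : Fin 4 => pd j (fun w => phi ((a i.succ)⁻¹ • c.psi.symm w)) z).det)

/-- H12: the form of a bounded cocycle is `C¹` and bounded by `24 K⁴`. -/
def claimOmB : Prop :=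
  ∀ (X : Type) [TopologicalSpace X] [T2Space X] [CompactSpace X] [ChartedSpace E4 X]
    [IsManifold (𝓡 4) ∞ X] (U : UCover X) (g : Metric X) (K : ℝ) (phi : U.Y → ℝ),
    IsEqPart U g K phi → ∀ b : (Fin 5 → U.G) → ℝ, BddBy 1 b →
    (∀ (a : U.G) v, b (fun i => a * v i) = b v) →
    ∃ D : Ch X → E4 → ℝ, IsTop D ∧ (∀ c : LCh U, ∀ z ∈ c.psi.target, D c.e z = omB U phi b c z) ∧
      ∀ e : Ch X, ∀ y ∈ e.1.target, |D e y| ≤ 24 * K ^ 4 * Real.sqrt (g.coef e y).det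

/-- H12': integrals of forms with a pointwise bound. -/
def claimIntBound : Prop :=
  ∀ (X : Type) [TopologicalSpace X] [T2Space X] [CompactSpace X] [ChartedSpace E4 X]
    [IsManifold (𝓡 4) ∞ X] [MeasurableSpace X] [BorelSpace X], OrientedAtlas X →
    ∀ (g : Metric X) (D : Ch X → E4 → ℝ) (B : ℝ), IsTop D →
    (∀ e : Ch X, ∀ y ∈ e.1.target, |D e y| ≤ B * Real.sqrt (g.coef e y).det) →
    integralTop D ≤ B * g.volume

/-! ## H13. Integrals of top degree forms over cubes -/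

/-- The pull back of the top degree form `D` by `σ`. -/
def pbTop {X : Type} [TopologicalSpace X] [ChartedSpace E4 X] (D : Ch X → E4 → ℝ)
    (σ : (Fin 4 → ℝ) → X) (s : Fin 4 → ℝ) : ℝ :=
  D (chAt (σ s)) (chartAt E4 (σ s) (σ s)) *
    (Matrix.of fun i j : Fin 4 => pdn j (fun r => (chartAt E4 (σ s) (σ r)) i) s).det

/-- The integral of the top degree form `D` over the cube `σ`. -/
def topInt {X : Type} [TopologicalSpace X] [ChartedSpace E4 X] (D : Ch X → E4 → ℝ)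
    (σ : (Fin 4 → ℝ) → X) : ℝ :=
  ∫ s in Icc (0 : Fin 4 → ℝ) 1, pbTop D σ s

/-- H13a: the pull back in an arbitrary chart; vanishing for degenerate cubes and outside of the
support; Stokes' theorem. -/
def claimTop : Prop :=
  ∀ (X : Type) [TopologicalSpace X] [ChartedSpace E4 X] [IsManifold (𝓡 4) ∞ X]
    (D : Ch X → E4 → ℝ), IsTop D →
    (∀ (σ : (Fin 4 → ℝ) → X) (s : Fin 4 → ℝ) (e : Ch X),
      ContMDiffAt 𝓘(ℝ, Fin 4 → ℝ) (𝓡 4) 1 σ s → σ s ∈ e.1.source →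
      pbTop D σ s = D e (e.1 (σ s)) *
        (Matrix.of fun i j : Fin 4 => pdn j (fun r => (e.1 (σ r)) i) s).det) ∧
    (∀ (σ : (Fin 4 → ℝ) → X) (j : Fin 4), ContMDiff 𝓘(ℝ, Fin 4 → ℝ) (𝓡 4) 1 σ →
      (∀ s r, σ (Function.update s j r) = σ s) → topInt D σ = 0) ∧
    ∀ (τ : (Fin 5 → ℝ) → X) (e : Ch X), ContMDiff 𝓘(ℝ, Fin 5 → ℝ) (𝓡 4) 2 τ →
      (∀ s, τ s ∈ e.1.source) →
      ∑ j : Fin 5, (-1 : ℝ) ^ (j : ℕ) * (topInt D (fun s => τ (j.insertNth 1 s)) -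
        topInt D (fun s => τ (j.insertNth 0 s))) = 0

/-- H13b: the cocycle property. -/
def claimTopCoc : Prop :=
  ∀ (X : Type) [TopologicalSpace X] [ChartedSpace E4 X] [IsManifold (𝓡 4) ∞ X]
    (D : Ch X → E4 → ℝ), IsTop D → ∀ (μ : Mix X) (v : Fin 6 → X) (e : Ch X), μ.Good 5 v →
    (∀ s, strOf μ.M 5 v s ∈ e.1.source) →
    ∑ i : Fin 6, (-1 : ℝ) ^ (i : ℕ) * topInt D (strOf μ.M 4 fun j => v (i.succAbove j)) = 0

/-- The prism between two mixing maps. -/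
def prismM {X : Type} [TopologicalSpace X] [ChartedSpace E4 X] (μ μ' : Mix X) (k : ℕ)
    (v : Fin (k + 1) → X) (r : Fin (k + 1) → ℝ) : X :=
  μ.M (strOf μ.M k v fun i => r i.succ) (strOf μ'.M k v fun i => r i.succ) (r 0)

/-- H13c: comparison of two mixing maps. -/
def claimTopPrism : Prop :=
  ∀ (X : Type) [TopologicalSpace X] [ChartedSpace E4 X] [IsManifold (𝓡 4) ∞ X]
    (D : Ch X → E4 → ℝ), IsTop D → ∀ (μ μ' : Mix X) (v : Fin 5 → X) (e : Ch X), μ.Good 4 v →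
    μ'.Good 4 v → (∀ s, (strOf μ.M 4 v s, strOf μ'.M 4 v s) ∈ μ.O) →
    (∀ r, prismM μ μ' 4 v r ∈ e.1.source) →
    topInt D (strOf μ'.M 4 v) - topInt D (strOf μ.M 4 v) =
      ∑ i : Fin 5, (-1 : ℝ) ^ (i : ℕ) * topInt D (prismM μ μ' 3 fun j => v (i.succAbove j))

/-- H13d: the cube integral of the form of a cocycle is the sum of the integrals `Pq`. -/
def claimTopOm : Prop :=
  ∀ (X : Type) [TopologicalSpace X] [T2Space X] [ChartedSpace E4 X] [IsManifold (𝓡 4) ∞ X]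
    (U : UCover X) (cs : ChartedSpace E4 U.Y), YMan U cs → ∀ (μ : Mix X) (μ' : Mix U.Y),
    MixLift U μ μ' → ∀ (g : Metric X) (K : ℝ) (phi : U.Y → ℝ), IsEqPart U g K phi →
    ∀ (b : (Fin 5 → U.G) → ℝ) (D : Ch X → E4 → ℝ), IsTop D →
    (∀ c : LCh U, ∀ z ∈ c.psi.target, D c.e z = omB U phi b c z) →
    ∀ v : Fin 5 → U.Y, μ'.Good 4 v →
      topInt D (strOf μ.M 4 fun i => U.p (v i)) =
        ∑ᶠ a : Fin 5 → U.G, b a * Pq U phi μ' 4 a v

/-! ## H14, H15. The degree of a fundamental cycle -/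

/-- H14: affine simplices of `ℝ⁴`. -/
def claimAff : Prop :=
  (∀ (k : ℕ) (p : Fin (k + 1) → E4) (s : Fin k → ℝ),
    strOf affM k p s ∈ convexHull ℝ (range p)) ∧
  (∀ (p : Fin 5 → E4) (l : E4 →L[ℝ] ℝ) (c : ℝ), l ≠ 0 → (∀ i, l (p i) = c) → ∀ s,
    (Matrix.of fun i j : Fin 4 => pdn j (fun r => (strOf affM 4 p r) i) s).det = 0) ∧
  ∀ (p : Fin 5 → E4) (F : E4 → ℝ), 0 < Matrix.det (Matrix.of fun i j : Fin 4 => (p j.succ - p 0) i) →
    Continuous F → (∀ y, y ∉ interior (convexHull ℝ (range p)) → F y = 0) →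
    ∫ s in Icc (0 : Fin 4 → ℝ) 1, F (strOf affM 4 p s) *
      (Matrix.of fun i j : Fin 4 => pdn j (fun r => (strOf affM 4 p r) i) s).det = ∫ y, F y

/-- H15a: the degree near a point, for an adapted mixing map. -/
def claimDegLoc : Prop :=
  ∀ (X : Type) [TopologicalSpace X] [T2Space X] [CompactSpace X] [ChartedSpace E4 X]
    [IsManifold (𝓡 4) ∞ X] [MeasurableSpace X] [BorelSpace X], OrientedAtlas X →
    ∀ (_ : Metric X) (c0 : Chain 4 X), IsFundamentalCycle c0 →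
    ∀ (x0 : X) (e : Ch X) (μ : Mix X) (ρ : ℝ),
    Adapted μ e.1 x0 ρ → ∃ N : Set X, IsOpen N ∧ x0 ∈ N ∧
      ∀ D : Ch X → E4 → ℝ, IsTop D →
        (∀ e' : Ch X, ∀ y ∈ e'.1.target, e'.1.symm y ∉ N → D e' y = 0) →
        ∃ (W : Set (Set X)) (F : Set (Σ k : ℕ, Simp k X)), IsCov W ∧ F.Finite ∧
          ∀ S : SubDiv X, S.Fine W F →
            evV (fun v => topInt D (strOf μ.M 4 v)) (S.Sd 4 c0) = integralTop D

/-- H15b: the degree of a fundamental cycle is one. -/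
def claimDeg : Prop :=
  ∀ (X : Type) [TopologicalSpace X] [T2Space X] [CompactSpace X] [ChartedSpace E4 X]
    [IsManifold (𝓡 4) ∞ X] [MeasurableSpace X] [BorelSpace X], OrientedAtlas X →
    ∀ (_ : Metric X) (c0 : Chain 4 X), IsFundamentalCycle c0 →
    ∀ (μ : Mix X) (D : Ch X → E4 → ℝ), IsTop D →
      ∃ (W : Set (Set X)) (F : Set (Σ k : ℕ, Simp k X)), IsCov W ∧ F.Finite ∧
        ∀ S : SubDiv X, S.Fine W F →
          evV (fun v => topInt D (strOf μ.M 4 v)) (S.Sd 4 c0) = integralTop D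

/-- H15c: partitions of unity for top degree forms, and the integral of a form supported in a
chart. -/
def claimTopPart : Prop :=
  ∀ (X : Type) [TopologicalSpace X] [T2Space X] [CompactSpace X] [ChartedSpace E4 X]
    [IsManifold (𝓡 4) ∞ X] [MeasurableSpace X] [BorelSpace X], OrientedAtlas X →
    Nonempty (Metric X) →
    (∀ (N : X → Set X), (∀ x, IsOpen (N x) ∧ x ∈ N x) → ∀ D : Ch X → E4 → ℝ, IsTop D →
      ∃ (m : ℕ) (x : Fin m → X) (Dj : Fin m → Ch X → E4 → ℝ), (∀ j, IsTop (Dj j)) ∧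
        (∀ j, ∀ e' : Ch X, ∀ y ∈ e'.1.target, e'.1.symm y ∉ N (x j) → Dj j e' y = 0) ∧
        (∀ e : Ch X, ∀ y ∈ e.1.target, D e y = ∑ j, Dj j e y) ∧
        integralTop D = ∑ j, integralTop (Dj j)) ∧
    ∀ (D : Ch X → E4 → ℝ) (e : Ch X) (C : Set E4), IsTop D → IsCompact C → C ⊆ e.1.target →
      (∀ e' : Ch X, ∀ y ∈ e'.1.target, (¬ ∃ z ∈ C, e.1.symm z = e'.1.symm y) → D e' y = 0) →
      integralTop D = ∫ y in C, D e y

/-- H16: conclusion. -/
def claimSimpOf : Prop :=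
  claimDual → claimSubdiv → claimEval → claimEvV → claimYMan → claimLocFin → claimMixX →
    claimMixY → claimStr → claimStrLift → claimSmall → claimPq → claimPrism → claimOmB →
    claimIntBound → claimTopOm → claimDeg → claimMapping → claimSimp

end NRF
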